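import Mathlib
import Pool.Agent.MP_adc87d_lc.Curve

set_option linter.all false

section

/-! The integers inside big subrings of the rationals: definitions and statements of the steps. -/

set_option autoImplicit false

noncomputable section

namespace Pool.Agent.MP_adc87d_lc.Big

/-! ### Existential definitions with rational variables, some of them restricted to a subring -/

/-- existentially definable by one polynomial, the variables in T ranging over R -/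
def DQ (R : Subring ℚ) {ι : Type} (S : (ι → ℚ) → Prop) : Prop :=
  ∃ (μ : Type) (_ : Finite μ) (T : Set μ) (P : MvPolynomial (ι ⊕ μ) ℚ), ∀ v, S v ↔
    ∃ a : μ → ℚ, (∀ j ∈ T, a j ∈ R) ∧ MvPolynomial.eval (Sum.elim v a) P = 0

/-- functions with definable graph -/
def DF (R : Subring ℚ) {ι : Type} (F : (ι → ℚ) → ℚ) : Prop :=
  DQ R fun v : Option ι → ℚ => v none = F fun i => v (some i)

/-- closure properties -/
structure Dio (R : Subring ℚ) : Prop where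
  and : ∀ {ι : Type} {S T : (ι → ℚ) → Prop}, DQ R S → DQ R T → DQ R fun v => S v ∧ T v
  or : ∀ {ι : Type} {S T : (ι → ℚ) → Prop}, DQ R S → DQ R T → DQ R fun v => S v ∨ T v
  ex : ∀ {ι : Type} (S : (ι → ℚ) → ℚ → Prop),
    (DQ R fun v : Option ι → ℚ => S (fun i => v (some i)) (v none)) → DQ R fun v => ∃ t, S v t
  exs : ∀ {ι κ : Type} [Finite κ] (S : (ι → ℚ) → (κ → ℚ) → Prop),
    (DQ R fun v : ι ⊕ κ → ℚ => S (fun i => v (.inl i)) fun j => v (.inr j)) →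
      DQ R fun v => ∃ w, S v w
  comp : ∀ {ι κ : Type} [Finite κ] {S : (κ → ℚ) → Prop} {F : κ → (ι → ℚ) → ℚ}, DQ R S →
    (∀ j, DF R (F j)) → DQ R fun v => S fun j => F j v
  eq : ∀ {ι : Type} {F G : (ι → ℚ) → ℚ}, DF R F → DF R G → DQ R fun v => F v = G v
  ne : ∀ {ι : Type} {F G : (ι → ℚ) → ℚ}, DF R F → DF R G → DQ R fun v => F v ≠ G v
  le : ∀ {ι : Type} {F G : (ι → ℚ) → ℚ}, DF R F → DF R G → DQ R fun v => F v ≤ G v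
  mem : ∀ {ι : Type} {F : (ι → ℚ) → ℚ}, DF R F → DQ R fun v => F v ∈ R
  const : ∀ {ι : Type} (c : ℚ), DF R fun _ : ι → ℚ => c
  proj : ∀ {ι : Type} (i : ι), DF R fun v : ι → ℚ => v i
  add : ∀ {ι : Type} {F G : (ι → ℚ) → ℚ}, DF R F → DF R G → DF R fun v => F v + G v
  sub : ∀ {ι : Type} {F G : (ι → ℚ) → ℚ}, DF R F → DF R G → DF R fun v => F v - G v
  mul : ∀ {ι : Type} {F G : (ι → ℚ) → ℚ}, DF R F → DF R G → DF R fun v => F v * G v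
  div : ∀ {ι : Type} {F G : (ι → ℚ) → ℚ}, DF R F → DF R G → DF R fun v => F v / G v
  neg : ∀ {ι : Type} {F : (ι → ℚ) → ℚ}, DF R F → DF R fun v => -F v
  inv : ∀ {ι : Type} {F : (ι → ℚ) → ℚ}, DF R F → DF R fun v => (F v)⁻¹
  pow : ∀ {ι : Type} {F : (ι → ℚ) → ℚ} (n : ℕ), DF R F → DF R fun v => F v ^ n
  poly : ∀ {ι κ : Type} (P : MvPolynomial κ ℚ) {F : κ → (ι → ℚ) → ℚ}, (∀ j, DF R (F j)) →
    DF R fun v => MvPolynomial.eval (fun j => F j v) P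
  poly1 : ∀ {ι : Type} (P : Polynomial ℚ) {F : (ι → ℚ) → ℚ}, DF R F →
    DF R fun v => P.eval (F v)
  ite : ∀ {ι : Type} {F G A B : (ι → ℚ) → ℚ}, DF R F → DF R G → DF R A → DF R B →
    DF R fun v => if F v = G v then A v else B v

def DioStmt : Prop := ∀ R : Subring ℚ, Dio R

/-- R is the ring of rationals whose denominators have all their prime factors in W -/
def RW (W : Set ℕ) (R : Subring ℚ) : Prop :=
  ∀ x : ℚ, x ∈ R ↔ ∀ p : ℕ, p.Prime → p ∣ x.den → p ∈ W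

/-- at every prime outside W that divides X, z is divisible by X -/
def Dv (W : Set ℕ) (X z : ℚ) : Prop :=
  ∀ (p : ℕ) [Fact p.Prime], p ∉ W → ‖(X : ℚ_[p])‖ < 1 → ‖(z : ℚ_[p])‖ ≤ ‖(X : ℚ_[p])‖

def DvStmt : Prop :=
  ∀ (W : Set ℕ) (R : Subring ℚ), RW W R → ∀ {ι : Type} {F G : (ι → ℚ) → ℚ}, DF R F → DF R G →
    DQ R fun v => Dv W (F v) (G v)

/-- passage to one polynomial with integer coefficients and variables in R -/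
def ConvStmt : Prop :=
  ∀ (W : Set ℕ) (R : Subring ℚ), RW W R → 2 ∉ W → 3 ∉ W →
    ∀ (n : ℕ) (S : (Fin n → ℚ) → Prop), DQ R S →
      ∃ (m : ℕ) (P : MvPolynomial (Fin n ⊕ Fin m) ℤ), ∀ x : Fin n → ℚ, (S x ↔
        ∃ w : Fin m → ℚ, (∀ j, w j ∈ R) ∧ MvPolynomial.aeval (Sum.elim x w) P = 0)

/-- coordinates of a point -/
def co {d : ℚ} (P : Pt d) : ℚ × ℚ := (px P, py P)

/-- the chord and tangent law on coordinates -/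
def addP (P Q : ℚ × ℚ) : ℚ × ℚ :=
  if P = (0, 0) then Q else if Q = (0, 0) then P else if P.1 = Q.1 ∧ P.2 = -Q.2 then (0, 0) else
    ((if P.1 = Q.1 then 3 * P.1 ^ 2 / (2 * P.2) else (Q.2 - P.2) / (Q.1 - P.1)) ^ 2 - P.1 - Q.1,
      (if P.1 = Q.1 then 3 * P.1 ^ 2 / (2 * P.2) else (Q.2 - P.2) / (Q.1 - P.1)) *
        (P.1 - ((if P.1 = Q.1 then 3 * P.1 ^ 2 / (2 * P.2) else (Q.2 - P.2) / (Q.1 - P.1)) ^ 2 -
          P.1 - Q.1)) - P.2)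

/-- multiples on coordinates -/
def mulP : ℕ → ℚ × ℚ → ℚ × ℚ
  | 0, _ => (0, 0)
  | n + 1, P => addP (mulP n P) P

/-- the group law is definable -/
def PtStmt : Prop :=
  (∀ d : ℚ, d ≠ 0 → (∀ P Q : Pt d, co (P + Q) = addP (co P) (co Q)) ∧
    (∀ (n : ℕ) (P : Pt d), co (n • P) = mulP n (co P)) ∧ (∀ P : Pt d, co P = (0, 0) ↔ P = 0) ∧
    Function.Injective (co : Pt d → ℚ × ℚ) ∧
    ∀ x y : ℚ, (∃ P : Pt d, co P = (x, y)) ↔ (x = 0 ∧ y = 0) ∨ y ^ 2 = x ^ 3 + d) ∧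
  ∀ (R : Subring ℚ) {ι : Type},
    (∀ {F G : (ι → ℚ) → ℚ × ℚ}, (DF R fun v => (F v).1) → (DF R fun v => (F v).2) →
      (DF R fun v => (G v).1) → (DF R fun v => (G v).2) →
      (DF R fun v => (addP (F v) (G v)).1) ∧ DF R fun v => (addP (F v) (G v)).2) ∧
    ∀ (n : ℕ) {F : (ι → ℚ) → ℚ × ℚ}, (DF R fun v => (F v).1) → (DF R fun v => (F v).2) →
      (DF R fun v => (mulP n (F v)).1) ∧ DF R fun v => (mulP n (F v)).2

/-! ### The curves -/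

section

variable {F : Type} [CommRing F]

/-- the cubic form -/
def fc (s t : F) : F := s ^ 3 - s * t ^ 2 - t ^ 3

/-- its Hessian -/
def Hc (s t : F) : F := 3 * s ^ 2 + 9 * s * t + t ^ 2

/-- its cubic covariant -/
def Gc (s t : F) : F := -27 * s ^ 3 - 18 * s ^ 2 * t - 27 * s * t ^ 2 - 25 * t ^ 3

/-- the constant term of the curve attached to b -/
def db (b : F) : F := -368 * b ^ 2

end

section

variable {F : Type} [Field F]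

/-- first coordinate of the point attached to (s, t) -/
def PX (s t : F) : F := 4 * (Hc s t ^ 3 + 621 * fc s t ^ 2) / (9 * Hc s t ^ 2)

/-- second coordinate of the point attached to (s, t) -/
def PY (s t : F) : F := 4 * Gc s t * (Hc s t ^ 3 - 1242 * fc s t ^ 2) / (27 * Hc s t ^ 3)

/-- the local parameter at the origin -/
def zc {d : F} (P : Pt d) : F := px P / py P

end

/-- silent primes -/
def Sil (p : ℕ) : Prop := p % 3 = 1 ∧ ¬IsSquare (p : ZMod 23)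

/-- primes that may be inverted -/
def Hi (k p : ℕ) : Prop := (p % 3 ^ k ≠ 1 ∧ p % 3 ^ k ≠ 3 ^ k - 1) ∨ Sil p

/-- primes that must be inverted -/
def Lo (k p : ℕ) : Prop := p % 3 ^ k = 1 ∧ ¬IsSquare (p : ZMod 23)

/-- admissible twisting parameters -/
def Nice (b : ℚ) : Prop :=
  b ≠ 0 ∧ (padicNorm 3 (b - 4) ≤ 1 / 9 ∨ padicNorm 3 (b + 4) ≤ 1 / 9) ∧
    ∀ p : ℕ, p.Prime → ¬(3 : ℤ) ∣ padicValRat p b → Sil p

/-- descent in the field generated by the square root of -23 -/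
def D1Stmt : Prop :=
  ∀ b : ℚ, Nice b → ∀ X Y : ℚ, Y ^ 2 = X ^ 3 + db b →
    ∃ u v : ℚ, 4 * b = 3 * u ^ 2 * v - 23 * v ^ 3 ∧ Y = u ^ 3 - 69 * u * v ^ 2 ∧
      X = u ^ 2 + 23 * v ^ 2

/-- descent in the field generated by the square root of 69 -/
def D2Stmt : Prop :=
  ∀ b : ℚ, Nice b → ∀ X Y : ℚ, Y ^ 2 = X ^ 3 + -27 * db b →
    ∃ (e : ℤ) (u v : ℚ), (e = 0 ∨ e = 1 ∨ e = -1) ∧
      (Y : ℝ) + 12 * b * √69 = ((25 + 3 * √69) / 2) ^ e * (u + v * √69) ^ 3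

/-- the two isogenies of degree three -/
def IsoStmt : Prop :=
  ∀ d : ℚ, d ≠ 0 → ∃ (ψ : Pt d →+ Pt (-27 * d)) (φ : Pt (-27 * d) →+ Pt d),
    (∀ P, φ (ψ P) = (3 : ℕ) • P) ∧
    (∀ P, px P ≠ 0 → ψ P ≠ 0 ∧ px (ψ P) = (px P ^ 3 + 4 * d) / px P ^ 2 ∧
      py (ψ P) = py P * (px P ^ 3 - 8 * d) / px P ^ 3) ∧
    ∀ P, px P ≠ 0 → φ P ≠ 0 ∧ px (φ P) = (px P ^ 3 - 108 * d) / (9 * px P ^ 2) ∧
      py (φ P) = py P * (px P ^ 3 + 216 * d) / (27 * px P ^ 3)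

/-- classes modulo cubes on the dual curve -/
def ClsStmt : Prop :=
  ∀ b : ℚ, b ≠ 0 →
    (∀ (P Q : Pt (-27 * db b)) (z : ℝ) (u v u' v' : ℚ), P ≠ 0 → Q ≠ 0 → P - Q ≠ 0 →
      ((py P : ℚ) : ℝ) + 12 * b * √69 = z * (u + v * √69) ^ 3 →
      ((py Q : ℚ) : ℝ) + 12 * b * √69 = z * (u' + v' * √69) ^ 3 →
      ∃ u'' v'' : ℚ, ((py (P - Q) : ℚ) : ℝ) + 12 * b * √69 = (u'' + v'' * √69) ^ 3) ∧
    (∀ (P : Pt (-27 * db b)) (u v : ℚ), P ≠ 0 →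
      ((py P : ℚ) : ℝ) + 12 * b * √69 = (u + v * √69) ^ 3 →
      v ≠ 0 ∧ (4 * b * u / v) ^ 2 = (4 * b / v) ^ 3 + db b ∧
        px P = ((4 * b / v) ^ 3 + 4 * db b) / (4 * b / v) ^ 2) ∧
    ∀ (P : Pt (-27 * db b)) (e : ℤ) (u v : ℚ), P ≠ 0 → (e = 1 ∨ e = -1) →
      ((py P : ℚ) : ℝ) + 12 * b * √69 = ((25 + 3 * √69) / 2) ^ e * (u + v * √69) ^ 3 →
      ∃ s t : ℚ, fc s t ^ 2 = b ^ 2 ∧ Hc s t ≠ 0 ∧ px P = 4 * Hc s t ∧ py P = 4 * Gc s t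

/-- rank at most one -/
def RkStmt : Prop :=
  ∀ b : ℚ, Nice b → AddGroup.FG (Pt (db b)) ∧
    (∀ P Q : Pt (db b), ∃ m n : ℤ, (m ≠ 0 ∨ n ≠ 0) ∧ m • P = n • Q) ∧
    (∀ P : Pt (db b), (3 : ℕ) • P = 0 → P = 0) ∧
    ∀ P : Pt (db b), (¬∃ Q, P = (3 : ℕ) • Q) →
      ∃ s t : ℚ, fc s t ^ 2 = b ^ 2 ∧ Hc s t ≠ 0 ∧ px P = PX s t ∧ py P = PY s t

/-! ### Local facts -/

section

variable {p : ℕ} [Fact p.Prime] {d : ℚ_[p]}

/-- the kernel of reduction -/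
def E1 (P : Pt d) : Prop := P = 0 ∨ 1 < ‖px P‖

end

/-- the formal group -/
def L1Stmt : Prop :=
  ∀ (p : ℕ) [Fact p.Prime] (d : ℚ_[p]), d ≠ 0 → ‖d‖ ≤ 1 →
    (∀ P : Pt d, P ≠ 0 → E1 P → ‖zc P‖ < 1 ∧ ‖px P‖ * ‖zc P‖ ^ 2 = 1) ∧
    ∀ (P Q : Pt d) (r : ℝ), E1 P → E1 Q → ‖zc P‖ ≤ r → ‖zc Q‖ ≤ r →
      E1 (P + Q) ∧ ‖zc (P + Q) - zc P - zc Q‖ ≤ r ^ 7

/-- multiples in the formal group -/
def L2Stmt : Prop :=
  ∀ (p : ℕ) [Fact p.Prime] (d : ℚ_[p]), d ≠ 0 → ‖d‖ ≤ 1 → ∀ P : Pt d, E1 P → ∀ a : ℤ,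
    E1 (a • P) ∧ ‖zc (a • P) - a * zc P‖ ≤ ‖zc P‖ ^ 7 ∧
      ‖zc (a • P)‖ = ‖(a : ℚ_[p])‖ * ‖zc P‖ ∧ (P ≠ 0 → a ≠ 0 → a • P ≠ 0)

/-- translation, close points and tripling -/
def L3Stmt : Prop :=
  ∀ (p : ℕ) [Fact p.Prime] (d : ℚ_[p]), d ≠ 0 → ‖d‖ ≤ 1 →
    (∀ P Q : Pt d, P ≠ 0 → ‖px P‖ ≤ 1 → E1 Q → P + Q ≠ 0 ∧ ‖px (P + Q) - px P‖ ≤ ‖zc Q‖ ∧
      ‖py (P + Q) - py P‖ ≤ ‖zc Q‖) ∧
    (∀ (P Q : Pt d) (ε : ℝ), P ≠ 0 → Q ≠ 0 → ‖px P‖ ≤ 1 → ε < ‖432 * d ^ 2‖ →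
      ‖px P - px Q‖ ≤ ε → ‖py P - py Q‖ ≤ ε → E1 (P - Q) ∧ ‖zc (P - Q)‖ * ‖432 * d ^ 2‖ ≤ ε) ∧
    ∀ P : Pt d, P ≠ 0 → px P ≠ 0 → ‖6 * d‖ = 1 → ‖px P‖ < 1 →
      (3 : ℕ) • P ≠ 0 ∧ E1 ((3 : ℕ) • P) ∧ ‖zc ((3 : ℕ) • P)‖ = ‖px P‖

/-- some multiple is deep in the kernel of reduction -/
def L4Stmt : Prop :=
  ∀ (d : ℚ) (G : Pt d), d ≠ 0 → d.den = 1 → (∀ n : ℤ, n ≠ 0 → n • G ≠ 0) → ∀ D : ℕ, D ≠ 0 →
    ∃ m : ℕ, 0 < m ∧ ∀ t : ℤ, t ≠ 0 → D ∣ (px (((m : ℤ) * t) • G)).den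

/-- number of points modulo p -/
def np (p : ℕ) (d : ℤ) : ℕ :=
  1 + Nat.card {x : ZMod p × ZMod p // x.2 ^ 2 = x.1 ^ 3 + (d : ZMod p)}

/-- curves modulo p with many points of order a power of three -/
def CntStmt : Prop :=
  ∀ (p k : ℕ) (d : ℤ), p.Prime → ¬(p : ℤ) ∣ 6 * d → 1 ≤ k → 3 ^ (2 * k) ∣ np p d →
    p % 3 ^ k = 1 ∨ p % 3 ^ k = 3 ^ k - 1

/-- reduction modulo p -/
def RedStmt : Prop :=
  ∀ (p : ℕ) [Fact p.Prime] (d : ℤ), ¬(p : ℤ) ∣ 6 * d → ∀ P : Pt (d : ℚ_[p]), E1 (np p d • P)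

/-- primes dividing the first coordinate of a multiple by a large power of three -/
def VisStmt : Prop :=
  ∀ (p k K : ℕ) [Fact p.Prime], 1 ≤ k → 2 * k ≤ K → ¬p ∣ 2 * 3 * 7 * 23 → ∀ P : Pt (db (49 : ℚ)),
    (3 ^ K : ℕ) • P ≠ 0 → ‖((px ((3 ^ K : ℕ) • P) : ℚ) : ℚ_[p])‖ < 1 → ¬Hi k p

/-- the canonical height -/
def HtStmt : Prop :=
  ∀ (d : ℚ) (G : Pt d), d ≠ 0 → (∀ n : ℤ, n ≠ 0 → n • G ≠ 0) → ∃ h c : ℝ, 0 < h ∧ ∀ n : ℤ,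
    |Real.log (max |((px (n • G)).num : ℝ)| (px (n • G)).den) - h * (n : ℝ) ^ 2| ≤ c

/-- the cyclotomic polynomial used to bound heights -/
def Phi (k : ℕ) (x : ℚ) : ℚ := (Polynomial.cyclotomic (23 * 3 ^ k) ℚ).eval x

def CycStmt : Prop :=
  ∀ k : ℕ, 1 ≤ k → (∀ (x : ℚ) (p : ℕ) [Fact p.Prime], ‖((Phi k x : ℚ) : ℚ_[p])‖ < 1 →
      p = 3 ∨ p = 23 ∨ ¬Hi k p) ∧
    (∀ x : ℚ, 2 ≤ x → x.num ≤ 2 * (Phi k x).num) ∧ ∀ n : ℤ, ∃ m : ℤ, m ≠ 0 ∧ Phi k n = m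

/-- the data of the definition -/
structure Dat where
  k : ℕ
  C : ℕ
  n : ℕ
  Nm : MvPolynomial (Fin n) ℚ
  K : ℕ
  io : ℕ
  G : Pt (db (49 : ℚ))

/-- the norm form -/
def CertP (k C n : ℕ) (Nm : MvPolynomial (Fin n) ℚ) : Prop :=
  (∀ (ξ : Fin n → ℚ) (p : ℕ), p.Prime → p ≠ 3 → p % 3 ^ k ≠ 1 → p % 3 ^ k ≠ 3 ^ k - 1 →
    (3 : ℤ) ∣ padicValRat p (MvPolynomial.eval ξ Nm)) ∧
  ∀ p : ℕ, p.Prime → p % 3 ^ k = 1 → ∃ (ξ : Fin n → ℚ) (w : ℕ), 1 ≤ w ∧ w ≤ C ∧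
    MvPolynomial.eval ξ Nm = p * w

def CertStmt : Prop :=
  ∀ k : ℕ, 2 ≤ k → ∃ (C n : ℕ) (Nm : MvPolynomial (Fin n) ℚ), 23 ≤ C ∧ CertP k C n Nm

/-- the base point -/
def BaseP (k K io : ℕ) (G : Pt (db (49 : ℚ))) : Prop :=
  2 * k ≤ K ∧ 0 < io ∧ (∀ n : ℤ, n ≠ 0 → n • G ≠ 0) ∧ (¬∃ Q, G = (3 : ℕ) • Q) ∧
  (∀ (p : ℕ) [Fact p.Prime], p ∣ 2 * 3 * 7 * 23 → ∀ n : ℤ, n ≠ 0 →
    1 < ‖((px (((3 : ℤ) ^ K * n) • G) : ℚ) : ℚ_[p])‖) ∧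
  ∀ A : Pt (db (49 : ℚ)), ∃ n : ℤ, io • A = ((3 : ℤ) ^ K * n) • G

def BaseStmt : Prop := ∀ k : ℕ, ∃ K io G, BaseP k K io G

/-- the standing hypotheses -/
structure Good (D : Dat) (W : Set ℕ) : Prop where
  two : 2 ≤ D.k
  big : 23 ≤ D.C
  cert : CertP D.k D.C D.n D.Nm
  base : BaseP D.k D.K D.io D.G
  mem : ∀ p : ℕ, p ∈ W ↔ D.C < p ∧ Hi D.k p

theorem Good.hi {D : Dat} {W : Set ℕ} (h : Good D W) {p : ℕ} (hp : p ∈ W) :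
    D.C < p ∧ Hi D.k p := (h.mem p).1 hp

theorem Good.lo {D : Dat} {W : Set ℕ} (h : Good D W) {p : ℕ} (hp : D.C < p) (hl : Lo D.k p) :
    p ∈ W := by
  refine (h.mem p).2 ⟨hp, .inr ⟨?_, hl.2⟩⟩
  have h3 : 3 ∣ 3 ^ D.k := dvd_pow_self 3 (by have := h.two; omega)
  rw [← Nat.mod_mod_of_dvd p h3, hl.1]

/-- certified units -/
def Ce (D : Dat) (W : Set ℕ) (c : ℚ) : Prop :=
  c ≠ 0 ∧ (∀ p : ℕ, p.Prime → p ∣ c.den → p ∈ W) ∧ (∀ p : ℕ, p.Prime → p ∣ (c⁻¹).den → p ∈ W) ∧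
    Dv W 9 (c - 1) ∧ ∃ (ξ : Fin D.n → ℚ) (w : ℕ), 1 ≤ w ∧ w ≤ D.C ∧
      MvPolynomial.eval ξ D.Nm = c * w

/-- the two points on the twist look like G and N modulo u -/
def Cg (D : Dat) (W : Set ℕ) (u b l : ℚ) (N : Pt (db (49 : ℚ))) (P Q : Pt (db b)) : Prop :=
  Dv W u (b ^ 2 - 49 ^ 2 * l ^ 6) ∧ Dv W u (px P - l ^ 2 * px D.G) ∧
    Dv W u (py P - l ^ 3 * py D.G) ∧ Dv W u (px Q - l ^ 2 * px N) ∧
    Dv W u (py Q - l ^ 3 * py N) ∧ Dv W u (u * px N)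

/-- the ratio of the two points is x modulo y -/
def Ch (W : Set ℕ) (y b x : ℚ) (P Q : Pt (db b)) : Prop :=
  P ≠ 0 ∧ Q ≠ 0 ∧ Dv W (y ^ 2) (px P)⁻¹ ∧ Dv W (y ^ 2) (px Q)⁻¹ ∧ Dv W y (zc Q / zc P - x)

/-- the twist -/
def Tw (D : Dat) (W : Set ℕ) (x u y : ℚ) (N : Pt (db (49 : ℚ))) : Prop :=
  ∃ c₁ c₂ l : ℚ, Ce D W c₁ ∧ Ce D W c₂ ∧ ∃ P Q : Pt (db (49 * c₁ * c₂)),
    Cg D W u (49 * c₁ * c₂) l N P Q ∧
      Ch W y (49 * c₁ * c₂) x ((3 ^ (D.K + 1) : ℕ) • P) ((3 ^ (D.K + 1) : ℕ) • Q)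

/-- the definition -/
def Psi (D : Dat) (W : Set ℕ) (x₀ : ℕ) (x : ℚ) : Prop :=
  (x₀ : ℚ) ≤ x ∧ ∃ A B E : Pt (db (49 : ℚ)), D.io • A ≠ 0 ∧ D.io • B ≠ 0 ∧ (3 * D.io) • E ≠ 0 ∧
    Dv W (Phi D.k x) (px ((3 * D.io) • E))⁻¹ ∧ Dv W (px (D.io • A)) (px ((3 * D.io) • E))⁻¹ ∧
    Dv W (px ((3 ^ D.K : ℕ) • (D.G + (3 * D.io) • E)) ^ 4) (px (D.io • B))⁻¹ ∧
    Tw D W x (px (D.io • B)) (px ((3 ^ D.K : ℕ) • (D.G + (3 * D.io) • E))) (D.io • A)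

def FormStmt : Prop :=
  ∀ (D : Dat) (W : Set ℕ) (R : Subring ℚ), RW W R → ∀ x₀ : ℕ,
    DQ R fun v : Fin 1 → ℚ => Psi D W x₀ (v 0)

/-- certified parameters are admissible -/
def NiceStmt : Prop :=
  ∀ (D : Dat) (W : Set ℕ), Good D W → ∀ c₁ c₂ : ℚ, Ce D W c₁ → Ce D W c₂ →
    Nice (49 * c₁ * c₂) ∧ ∀ (p : ℕ) [Fact p.Prime], p ∉ W →
      ‖(c₁ : ℚ_[p])‖ = 1 ∧ ‖(c₂ : ℚ_[p])‖ = 1

/-- transfer of a linear relation from the twist to the base curve -/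
def SGStmt : Prop :=
  ∀ (D : Dat) (W : Set ℕ), Good D W → ∀ (i n a c : ℤ) (b l : ℚ) (P Q : Pt (db b)), i ≠ 0 →
    n ≠ 0 → P ≠ 0 → Q ≠ 0 → (∀ (p : ℕ) [Fact p.Prime], p ∉ W → p ≠ 7 → ‖(b : ℚ_[p])‖ = 1) →
    Cg D W (px (((3 : ℤ) ^ D.K * i) • D.G)) b l (n • D.G) P Q →
    a • (3 ^ (D.K + 1) : ℕ) • Q = c • (3 ^ (D.K + 1) : ℕ) • P →
    (px (((3 : ℤ) ^ D.K * i) • D.G)).num.natAbs ^ 2 ∣
      (px ((Int.gcd (3 ^ (D.K + 1) * (a * n - c)) (3 * (3 ^ D.K * i)) : ℤ) • D.G)).den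

/-- the index of the second point is divisible by y -/
def SEStmt : Prop :=
  ∀ (D : Dat) (W : Set ℕ), Good D W → ∀ i j : ℤ, i ≠ 0 → j ≠ 0 →
    Dv W (px (((3 : ℤ) ^ D.K * j) • D.G) ^ 4) (px (i • D.G))⁻¹ →
    (px (((3 : ℤ) ^ D.K * j) • D.G)).num ∣ i

/-- the formal group of the twist -/
def SHStmt : Prop :=
  ∀ (D : Dat) (W : Set ℕ), Good D W → ∀ (j : ℤ) (b x : ℚ) (P Q : Pt (db b)), j ≠ 0 → Nice b →
    (∀ (p : ℕ) [Fact p.Prime], p ∉ W → p ≠ 7 → ‖(b : ℚ_[p])‖ = 1) →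
    Ch W (px (((3 : ℤ) ^ D.K * j) • D.G)) b x P Q →
    ∃ a c : ℤ, a • Q = c • P ∧ ∀ n : ℤ, (px (((3 : ℤ) ^ D.K * j) • D.G)).num ∣ a * n - c →
      (px (((3 : ℤ) ^ D.K * j) • D.G)).num ∣ x.num - n * x.den

def SoundStmt : Prop :=
  ∀ D : Dat, ∃ x₀ : ℕ, ∀ W : Set ℕ, Good D W → ∀ x : ℚ, Psi D W x₀ x → ∃ n : ℤ, x = n

/-- two primes represented by the cubic form, in residue classes -/
def ThmC : Prop :=
  ∀ (k q B : ℕ) (s₀ t₀ : ℤ), 2 ≤ k → q.Coprime (2 * 3 * 7 * 23) → IsCoprime (fc s₀ t₀) q →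
    ∃ (s t l : ℤ) (p₁ p₂ : ℕ), p₁.Prime ∧ p₂.Prime ∧ B < p₁ ∧ B < p₂ ∧ Lo k p₁ ∧ Lo k p₂ ∧
      s ≡ l * s₀ [ZMOD q] ∧ t ≡ l * t₀ [ZMOD q] ∧ fc s t ^ 2 = (49 * p₁ * p₂) ^ 2

/-- the parametrisation is continuous at primes of good reduction -/
def CPStmt : Prop :=
  ∀ (p : ℕ) [Fact p.Prime], ¬p ∣ 2 * 3 * 7 * 23 → ∀ s₁ t₁ : ℚ_[p], fc s₁ t₁ ^ 2 = 49 ^ 2 →
    Hc s₁ t₁ ≠ 0 → ‖PX s₁ t₁‖ ≤ 1 → ‖s₁‖ ≤ 1 ∧ ‖t₁‖ ≤ 1 ∧ ∀ (s t l : ℚ_[p]) (ε : ℝ), ε < 1 →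
      ‖l‖ ≤ 1 → ‖fc s t‖ = 1 → ‖s - l * s₁‖ ≤ ε → ‖t - l * t₁‖ ≤ ε →
      Hc s t ≠ 0 ∧ ‖fc s t ^ 2 - 49 ^ 2 * l ^ 6‖ ≤ ε ∧ ‖PX s t - l ^ 2 * PX s₁ t₁‖ ≤ ε ∧
        ‖PY s t - l ^ 3 * PY s₁ t₁‖ ≤ ε

/-- comparison of a twist with the base curve over the p-adic numbers -/
def CmpStmt : Prop :=
  ∀ (p : ℕ) [Fact p.Prime], ¬p ∣ 2 * 3 * 7 * 23 → ∀ (b l : ℚ) (ε : ℝ), ε < 1 →
    ‖(b : ℚ_[p])‖ = 1 → ‖((b ^ 2 - 49 ^ 2 * l ^ 6 : ℚ) : ℚ_[p])‖ ≤ ε →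
    ∃ (lam : ℚ_[p]) (ψ : Pt (db (49 : ℚ)) →+ Pt (db (b : ℚ_[p])))
      (τ : Pt (db b) →+ Pt (db (b : ℚ_[p]))), ‖lam‖ = 1 ∧ ‖lam - l‖ ≤ ε ∧ Function.Injective ψ ∧
      Function.Injective τ ∧ (∀ P, px (ψ P) = lam ^ 2 * (px P : ℚ) ∧ py (ψ P) = lam ^ 3 * (py P : ℚ)) ∧
      (∀ P, px (τ P) = (px P : ℚ) ∧ py (τ P) = (py P : ℚ)) ∧
      ∀ (G : Pt (db (49 : ℚ))) (P : Pt (db b)), G ≠ 0 → P ≠ 0 → ‖((px G : ℚ) : ℚ_[p])‖ ≤ 1 →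
        ‖((px P - l ^ 2 * px G : ℚ) : ℚ_[p])‖ ≤ ε → ‖((py P - l ^ 3 * py G : ℚ) : ℚ_[p])‖ ≤ ε →
        E1 (τ P - ψ G) ∧ ‖zc (τ P - ψ G)‖ ≤ ε

/-- the point P on the twist looks like G modulo u -/
def Cl (u b l : ℚ) (G : Pt (db (49 : ℚ))) (P : Pt (db b)) : Prop :=
  ∀ (p : ℕ) [Fact p.Prime], ‖(u : ℚ_[p])‖ < 1 → ¬p ∣ 2 * 3 * 7 * 23 ∧ ‖(b : ℚ_[p])‖ = 1 ∧
    ‖((px G : ℚ) : ℚ_[p])‖ ≤ 1 ∧ ‖((b ^ 2 - 49 ^ 2 * l ^ 6 : ℚ) : ℚ_[p])‖ ≤ ‖(u : ℚ_[p])‖ ∧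
    ‖((px P - l ^ 2 * px G : ℚ) : ℚ_[p])‖ ≤ ‖(u : ℚ_[p])‖ ∧
    ‖((py P - l ^ 3 * py G : ℚ) : ℚ_[p])‖ ≤ ‖(u : ℚ_[p])‖

/-- existence of the twist -/
def CTStmt : Prop :=
  ∀ (D : Dat) (W : Set ℕ), Good D W → ∀ i j : ℤ, i ≠ 0 → (3 : ℤ) ^ D.K ∣ i → j % 3 = 1 →
    IsCoprime (px (i • D.G)).num (px (((3 : ℤ) ^ D.K * j) • D.G)).num →
    ∃ c₁ c₂ l : ℚ, Ce D W c₁ ∧ Ce D W c₂ ∧ ∃ P : Pt (db (49 * c₁ * c₂)), P ≠ 0 ∧
      Cl (px (i • D.G)) (49 * c₁ * c₂) l D.G P ∧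
      Cl (px (((3 : ℤ) ^ D.K * j) • D.G)) (49 * c₁ * c₂) l (j • D.G) P

/-- the congruences modulo u hold -/
def CGStmt : Prop :=
  ∀ (D : Dat) (W : Set ℕ), Good D W → ∀ (n i : ℤ) (b l : ℚ) (P : Pt (db b)), n ≠ 0 → i ≠ 0 →
    n ∣ i → P ≠ 0 → Cl (px (i • D.G)) b l D.G P → Cg D W (px (i • D.G)) b l (n • D.G) P (n • P)

/-- the congruences modulo y hold -/
def CHStmt : Prop :=
  ∀ (D : Dat) (W : Set ℕ), Good D W → ∀ (n j : ℤ) (b l : ℚ) (P : Pt (db b)), n ≠ 0 → j ≠ 0 →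
    Nice b → P ≠ 0 → Cl (px (((3 : ℤ) ^ D.K * j) • D.G)) b l (j • D.G) P →
    Ch W (px (((3 : ℤ) ^ D.K * j) • D.G)) b n ((3 ^ (D.K + 1) : ℕ) • P)
      ((3 ^ (D.K + 1) : ℕ) • n • P)

def ComplStmt : Prop :=
  ∀ (D : Dat) (W : Set ℕ), Good D W → ∀ x₀ n : ℕ, 0 < n → x₀ ≤ n → D.io ∣ n → Psi D W x₀ n

/-- from large multiples of a fixed number to all integers, and the pairing -/
def InjStmt : Prop :=
  ∀ (R : Subring ℚ) (S : ℚ → Prop) (x₀ io : ℕ), 0 < io → (DQ R fun v : Fin 1 → ℚ => S (v 0)) →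
    (∀ x, S x → ∃ n : ℤ, x = n) → (∀ n : ℕ, 0 < n → x₀ ≤ n → io ∣ n → S n) →
    (DQ R fun v : Fin 1 → ℚ => ∃ n : ℤ, v 0 = n) ∧
    ∃ f : ℚ × ℚ → ℤ, Function.Injective f ∧ DQ R fun v : Fin 3 → ℚ => v 2 = f (v 0, v 1)

/-- almost all primes are inverted -/
def DensStmt : Prop :=
  ∀ ε : ℝ, 0 < ε → ∃ k : ℕ, 2 ≤ k ∧ ∀ C : ℕ, ∀ᶠ N : ℕ in Filter.atTop,
    (1 - ε) * (Nat.primeCounting N : ℝ) ≤
      (Set.ncard {p : ℕ | p ≤ N ∧ p.Prime ∧ C < p ∧ Hi k p} : ℝ)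

end Pool.Agent.MP_adc87d_lc.Big

end
end

section

set_option autoImplicit false

namespace Pool.Agent.MP_adc87d_lc.Big

theorem cop_Compl (Z : ℚ) : IsCoprime Z.num (Z.den : ℤ) := by
  rw [Int.isCoprime_iff_gcd_eq_one]
  exact Z.reduced

theorem dv_Compl (W : Set ℕ) (X Z : ℚ) (h : X.num ∣ (Z.den : ℤ)) : Dv W X Z⁻¹ := by
  intro p hp _ hX
  have e1 : ((X.num : ℤ) : ℚ_[p]) = (X : ℚ_[p]) * ((X.den : ℤ) : ℚ_[p]) := by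
    rw [← Rat.cast_intCast, ← Rat.mul_den_eq_num X, Rat.cast_mul, Rat.cast_natCast,
      Int.cast_natCast]
  have a1 : ‖((X.num : ℤ) : ℚ_[p])‖ ≤ ‖(X : ℚ_[p])‖ := by
    rw [e1, norm_mul]
    exact mul_le_of_le_one_right (norm_nonneg _) (Padic.norm_int_le_one _)
  have a2 : (p : ℤ) ∣ X.num := (Padic.norm_intCast_lt_one_iff).1 (a1.trans_lt hX)
  have a3 : ¬(p : ℤ) ∣ Z.num := fun h3 => by
    have hu := (cop_Compl Z).isUnit_of_dvd' h3 (a2.trans h)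
    rw [Int.isUnit_iff_natAbs_eq, Int.natAbs_natCast] at hu
    exact hp.out.one_lt.ne' hu
  have a4 : ‖((Z.num : ℤ) : ℚ_[p])‖ = 1 :=
    le_antisymm (Padic.norm_int_le_one _)
      (not_lt.1 fun h4 => a3 ((Padic.norm_intCast_lt_one_iff).1 h4))
  obtain ⟨t, ht⟩ := h
  have e2 : ((Z⁻¹ : ℚ) : ℚ_[p]) = ((Z.den : ℤ) : ℚ_[p]) / ((Z.num : ℤ) : ℚ_[p]) := by
    rw [Rat.cast_inv, Rat.cast_def, inv_div, Int.cast_natCast]
  rw [e2, norm_div, a4, div_one, ht, Int.cast_mul, norm_mul]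
  exact (mul_le_of_le_one_right (norm_nonneg _) (Padic.norm_int_le_one _)).trans a1

theorem px_ne_Compl {P : Pt (db (49 : ℚ))} (hP : P ≠ 0) : px P ≠ 0 := by
  intro h
  have e := eqn hP
  have e2 : db (49 : ℚ) = -368 * 49 ^ 2 := rfl
  rw [h] at e
  nlinarith [sq_nonneg (py P)]

theorem compl (h1 : L4Stmt) (h2 : CycStmt) (h3 : NiceStmt) (h4 : CTStmt) (h5 : CGStmt)
    (h6 : CHStmt) : ComplStmt := by
  intro D W hG x₀ n hn hx hio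
  obtain ⟨-, hio0, hG0, -, -, -⟩ := hG.base
  obtain ⟨n', hn'⟩ := hio
  have hd : db (49 : ℚ) ≠ 0 := by norm_num [db]
  have hd1 : (db (49 : ℚ)).den = 1 := by norm_num [db]
  have hnz : (n : ℤ) ≠ 0 := by exact_mod_cast hn.ne'
  have hioz : (D.io : ℤ) ≠ 0 := by exact_mod_cast hio0.ne'
  obtain ⟨m₀, hm₀, hΦ⟩ := (h2 D.k (by have := hG.two; omega)).2.2 n
  have hΦ' : Phi D.k (n : ℚ) = m₀ := by rw [← hΦ, Int.cast_natCast]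
  have hXn : (px ((n : ℤ) • D.G)).num ≠ 0 := Rat.num_ne_zero.2 (px_ne_Compl (hG0 _ hnz))
  obtain ⟨m, hm, hE⟩ := h1 _ D.G hd hd1 hG0 (m₀ * (px ((n : ℤ) • D.G)).num).natAbs
    (Int.natAbs_ne_zero.2 (mul_ne_zero hm₀ hXn))
  have hmz : (m : ℤ) ≠ 0 := by exact_mod_cast hm.ne'
  have hE1 : m₀ * (px ((n : ℤ) • D.G)).num ∣
      ((px (((m : ℤ) * (3 * D.io)) • D.G)).den : ℤ) :=
    Int.natAbs_dvd.1 (Int.natCast_dvd_natCast.2 (hE _ (mul_ne_zero (by norm_num) hioz)))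
  obtain ⟨j, hj⟩ : ∃ j : ℤ, j = 1 + (m : ℤ) * (3 * D.io) := ⟨_, rfl⟩
  have hj3 : j % 3 = 1 := by
    have : j = 1 + 3 * ((m : ℤ) * D.io) := by rw [hj]; ring
    omega
  have hj0 : j ≠ 0 := by omega
  have h3K : (3 : ℤ) ^ D.K ≠ 0 := pow_ne_zero _ (by norm_num)
  have hy : px (((3 : ℤ) ^ D.K * j) • D.G) ≠ 0 := px_ne_Compl (hG0 _ (mul_ne_zero h3K hj0))
  obtain ⟨m', hm', hB⟩ := h1 _ D.G hd hd1 hG0
    ((px (((3 : ℤ) ^ D.K * j) • D.G) ^ 4).num * (px (((3 : ℤ) ^ D.K * j) • D.G)).num).natAbs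
    (Int.natAbs_ne_zero.2 (mul_ne_zero (Rat.num_ne_zero.2 (pow_ne_zero _ hy))
      (Rat.num_ne_zero.2 hy)))
  have hmz' : (m' : ℤ) ≠ 0 := by exact_mod_cast hm'.ne'
  obtain ⟨i, hi⟩ : ∃ i : ℤ, i = (m' : ℤ) * (D.io * n * 3 ^ D.K) := ⟨_, rfl⟩
  have ht : (D.io : ℤ) * n * 3 ^ D.K ≠ 0 := mul_ne_zero (mul_ne_zero hioz hnz) h3K
  have hi0 : i ≠ 0 := by rw [hi]; exact mul_ne_zero hmz' ht
  have hB1 : (px (((3 : ℤ) ^ D.K * j) • D.G) ^ 4).num * (px (((3 : ℤ) ^ D.K * j) • D.G)).num ∣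
      ((px (i • D.G)).den : ℤ) := by
    rw [hi]
    exact Int.natAbs_dvd.1 (Int.natCast_dvd_natCast.2 (hB _ ht))
  obtain ⟨c₁, c₂, l, hc₁, hc₂, P, hP, cl1, cl2⟩ := h4 D W hG i j hi0
    ⟨m' * (D.io * n), by rw [hi]; ring⟩ hj3
    ((cop_Compl _).of_isCoprime_of_dvd_right ((Dvd.intro_left _ rfl).trans hB1))
  have hcg := h5 D W hG n i _ l P hnz hi0 ⟨m' * (D.io * 3 ^ D.K), by rw [hi]; ring⟩ hP cl1
  have hch := h6 D W hG n j _ l P hnz hj0 (h3 D W hG c₁ c₂ hc₁ hc₂).1 hP cl2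
  have eA : D.io • ((n' : ℤ) • D.G) = (n : ℤ) • D.G := by
    rw [← natCast_zsmul, ← mul_smul, hn', Nat.cast_mul]
  have eB : D.io • (((m' : ℤ) * (n * 3 ^ D.K)) • D.G) = i • D.G := by
    rw [← natCast_zsmul, ← mul_smul, hi]
    congr 1
    ring
  have eE : (3 * D.io) • ((m : ℤ) • D.G) = ((m : ℤ) * (3 * D.io)) • D.G := by
    rw [← natCast_zsmul, ← mul_smul]
    congr 1
    push_cast
    ring
  have eY : (3 ^ D.K : ℕ) • (D.G + ((m : ℤ) * (3 * D.io)) • D.G) =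
      ((3 : ℤ) ^ D.K * j) • D.G := by
    rw [← natCast_zsmul, mul_smul _ j, hj, add_smul, one_smul]
    push_cast
    rfl
  refine ⟨by exact_mod_cast hx, (n' : ℤ) • D.G, ((m' : ℤ) * (n * 3 ^ D.K)) • D.G, (m : ℤ) • D.G, ?_⟩
  rw [eA, eB, eE, eY, hΦ']
  refine ⟨hG0 _ hnz, hG0 _ hi0, hG0 _ (mul_ne_zero hmz (mul_ne_zero (by norm_num) hioz)),
    dv_Compl _ _ _ ?_, dv_Compl _ _ _ ((Dvd.intro_left _ rfl).trans hE1),
    dv_Compl _ _ _ ((Dvd.intro _ rfl).trans hB1), c₁, c₂, l, hc₁, hc₂, P, (n : ℤ) • P, hcg, ?_⟩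
  · rw [Rat.num_intCast]
    exact (Dvd.intro _ rfl).trans hE1
  · rw [Int.cast_natCast] at hch
    exact hch

end Pool.Agent.MP_adc87d_lc.Big

end

section

/-! The definition is existential. -/

set_option autoImplicit false

noncomputable section

namespace Pool.Agent.MP_adc87d_lc.Big

/-- coordinates of some point -/
def On_Form (d : ℚ) (p : ℚ × ℚ) : Prop := (p.1 = 0 ∧ p.2 = 0) ∨ p.2 ^ 2 = p.1 ^ 3 + d

/-- not the origin -/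
def Nz_Form (p : ℚ × ℚ) : Prop := p.1 ≠ 0 ∨ p.2 ≠ 0

/-- `Cg` on coordinates -/
def Cg_Form (D : Dat) (W : Set ℕ) (u b l : ℚ) (N P Q : ℚ × ℚ) : Prop :=
  Dv W u (b ^ 2 - 49 ^ 2 * l ^ 6) ∧ Dv W u (P.1 - l ^ 2 * px D.G) ∧
    Dv W u (P.2 - l ^ 3 * py D.G) ∧ Dv W u (Q.1 - l ^ 2 * N.1) ∧
    Dv W u (Q.2 - l ^ 3 * N.2) ∧ Dv W u (u * N.1)

/-- `Ch` on coordinates -/
def Ch_Form (W : Set ℕ) (y x : ℚ) (P Q : ℚ × ℚ) : Prop :=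
  Nz_Form P ∧ Nz_Form Q ∧ Dv W (y ^ 2) (P.1)⁻¹ ∧ Dv W (y ^ 2) (Q.1)⁻¹ ∧
    Dv W y (Q.1 / Q.2 / (P.1 / P.2) - x)

/-- the matrix of `Tw` on coordinates -/
def Tm_Form (D : Dat) (W : Set ℕ) (x u y : ℚ) (N : ℚ × ℚ) (c₁ c₂ l : ℚ) (P Q : ℚ × ℚ) : Prop :=
  Ce D W c₁ ∧ Ce D W c₂ ∧ On_Form (db (49 * c₁ * c₂)) P ∧ On_Form (db (49 * c₁ * c₂)) Q ∧
    Cg_Form D W u (49 * c₁ * c₂) l N P Q ∧
    Ch_Form W y x (mulP (3 ^ (D.K + 1)) P) (mulP (3 ^ (D.K + 1)) Q)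

/-- the matrix of `Psi` on coordinates -/
def Pm_Form (D : Dat) (W : Set ℕ) (x₀ : ℕ) (x : ℚ) (A B E : ℚ × ℚ) (c₁ c₂ l : ℚ)
    (P Q : ℚ × ℚ) : Prop :=
  (x₀ : ℚ) ≤ x ∧ On_Form (db 49) A ∧ On_Form (db 49) B ∧ On_Form (db 49) E ∧
    Nz_Form (mulP D.io A) ∧ Nz_Form (mulP D.io B) ∧ Nz_Form (mulP (3 * D.io) E) ∧
    Dv W (Phi D.k x) (mulP (3 * D.io) E).1⁻¹ ∧ Dv W (mulP D.io A).1 (mulP (3 * D.io) E).1⁻¹ ∧
    Dv W ((mulP (3 ^ D.K) (addP (co D.G) (mulP (3 * D.io) E))).1 ^ 4) (mulP D.io B).1⁻¹ ∧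
    Tm_Form D W x (mulP D.io B).1 (mulP (3 ^ D.K) (addP (co D.G) (mulP (3 * D.io) E))).1
      (mulP D.io A) c₁ c₂ l P Q

theorem db_Form {b : ℚ} (h : b ≠ 0) : db b ≠ 0 :=
  mul_ne_zero (by norm_num) (pow_ne_zero 2 h)

theorem nz_Form (h3 : PtStmt) {d : ℚ} (hd : d ≠ 0) (P : Pt d) : P ≠ 0 ↔ Nz_Form (co P) := by
  rw [Ne, ← (h3.1 d hd).2.2.1 P, Prod.ext_iff, not_and_or]
  rfl

theorem ex_Form (h3 : PtStmt) {d : ℚ} (hd : d ≠ 0) (S : ℚ × ℚ → Prop) :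
    (∃ P : Pt d, S (co P)) ↔ ∃ p, On_Form d p ∧ S p :=
  ⟨fun ⟨P, h⟩ => ⟨co P, ((h3.1 d hd).2.2.2.2 _ _).1 ⟨P, rfl⟩, h⟩, fun ⟨p, o, h⟩ => by
    obtain ⟨P, e⟩ := ((h3.1 d hd).2.2.2.2 p.1 p.2).2 o
    exact ⟨P, by rwa [e]⟩⟩

theorem ch_Form (h3 : PtStmt) (W : Set ℕ) (y b x : ℚ) (hb : b ≠ 0) (m : ℕ) (P Q : Pt (db b)) :
    Ch W y b x (m • P) (m • Q) ↔ Ch_Form W y x (mulP m (co P)) (mulP m (co Q)) := by
  rw [← (h3.1 _ (db_Form hb)).2.1, ← (h3.1 _ (db_Form hb)).2.1, Ch, nz_Form h3 (db_Form hb),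
    nz_Form h3 (db_Form hb)]
  rfl

theorem tw_Form (h3 : PtStmt) (D : Dat) (W : Set ℕ) (x u y : ℚ) (N : Pt (db (49 : ℚ))) :
    Tw D W x u y N ↔ ∃ c₁ c₂ l P Q, Tm_Form D W x u y (co N) c₁ c₂ l P Q := by
  constructor
  · rintro ⟨c₁, c₂, l, e1, e2, P, Q, g, c⟩
    have hb : 49 * c₁ * c₂ ≠ 0 := mul_ne_zero (mul_ne_zero (by norm_num) e1.1) e2.1
    have o := (h3.1 _ (db_Form hb)).2.2.2.2
    exact ⟨c₁, c₂, l, co P, co Q, e1, e2, (o _ _).1 ⟨P, rfl⟩, (o _ _).1 ⟨Q, rfl⟩, g,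
      (ch_Form h3 W y _ x hb _ P Q).1 c⟩
  · rintro ⟨c₁, c₂, l, p, q, e1, e2, o1, o2, g, c⟩
    have hb : 49 * c₁ * c₂ ≠ 0 := mul_ne_zero (mul_ne_zero (by norm_num) e1.1) e2.1
    have o := (h3.1 _ (db_Form hb)).2.2.2.2
    obtain ⟨P, hP⟩ := (o p.1 p.2).2 o1
    obtain ⟨Q, hQ⟩ := (o q.1 q.2).2 o2
    obtain rfl : co P = p := hP
    obtain rfl : co Q = q := hQ
    exact ⟨c₁, c₂, l, e1, e2, P, Q, g, (ch_Form h3 W y _ x hb _ P Q).2 c⟩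

theorem pm_Form (h3 : PtStmt) (D : Dat) (W : Set ℕ) (x₀ : ℕ) (x : ℚ) :
    Psi D W x₀ x ↔ ∃ A B E : Pt (db (49 : ℚ)), ∃ c₁ c₂ l P Q,
      Pm_Form D W x₀ x (co A) (co B) (co E) c₁ c₂ l P Q := by
  have hd : db (49 : ℚ) ≠ 0 := db_Form (by norm_num)
  obtain ⟨a, m, -, -, o⟩ := h3.1 _ hd
  have o' : ∀ P : Pt (db (49 : ℚ)), On_Form (db 49) (co P) := fun P => (o _ _).1 ⟨P, rfl⟩
  simp only [Psi, Pm_Form, tw_Form h3, nz_Form h3 hd, ← m, ← a, o', true_and]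
  constructor
  · rintro ⟨h, A, B, E, h1, h2, h4, h5, h6, h7, c₁, c₂, l, P, Q, t⟩
    exact ⟨A, B, E, c₁, c₂, l, P, Q, h, h1, h2, h4, h5, h6, h7, t⟩
  · rintro ⟨A, B, E, c₁, c₂, l, P, Q, h, h1, h2, h4, h5, h6, h7, t⟩
    exact ⟨h, A, B, E, h1, h2, h4, h5, h6, h7, c₁, c₂, l, P, Q, t⟩

theorem psi_Form (h3 : PtStmt) (D : Dat) (W : Set ℕ) (x₀ : ℕ) (x : ℚ) :
    Psi D W x₀ x ↔ ∃ w : Fin 13 → ℚ, Pm_Form D W x₀ x (w 0, w 1) (w 2, w 3) (w 4, w 5)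
      (w 6) (w 7) (w 8) (w 9, w 10) (w 11, w 12) := by
  rw [pm_Form h3]
  constructor
  · rintro ⟨A, B, E, c₁, c₂, l, P, Q, t⟩
    exact ⟨![px A, py A, px B, py B, px E, py E, c₁, c₂, l, P.1, P.2, Q.1, Q.2], t⟩
  · rintro ⟨w, t⟩
    have o := (h3.1 (db 49) (db_Form (by norm_num))).2.2.2.2
    obtain ⟨A, hA⟩ := (o _ _).2 t.2.1
    obtain ⟨B, hB⟩ := (o _ _).2 t.2.2.1
    obtain ⟨E, hE⟩ := (o _ _).2 t.2.2.2.1
    exact ⟨A, B, E, w 6, w 7, w 8, (w 9, w 10), (w 11, w 12), by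
      rw [hA, hB, hE]
      exact t⟩

section

variable {R : Subring ℚ} {ι : Type}

theorem congr_Form {S T : (ι → ℚ) → Prop} (h : DQ R S) (e : ∀ v, S v ↔ T v) : DQ R T :=
  (funext fun v => propext (e v) : S = T) ▸ h

/-- definable pairs -/
def DP_Form (R : Subring ℚ) (F : (ι → ℚ) → ℚ × ℚ) : Prop :=
  (DF R fun v => (F v).1) ∧ DF R fun v => (F v).2

theorem fin_Form (h : Dio R) {F G : (ι → ℚ) → ℚ} (hF : DF R F) (hG : DF R G) (C : ℕ) :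
    DQ R fun v => ∃ w : ℕ, 1 ≤ w ∧ w ≤ C ∧ F v = G v * w := by
  induction C with
  | zero =>
    refine congr_Form (h.eq (h.const 0) (h.const 1)) fun v => ⟨fun e => absurd e zero_ne_one, ?_⟩
    rintro ⟨w, a, b, -⟩
    omega
  | succ C ih =>
    refine congr_Form (h.or ih (h.eq hF (h.mul hG (h.const ((C + 1 : ℕ) : ℚ))))) fun v => ⟨?_, ?_⟩
    · rintro (⟨w, a, b, e⟩ | e)
      exacts [⟨w, a, by omega, e⟩, ⟨C + 1, by omega, le_rfl, e⟩]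
    · rintro ⟨w, a, b, e⟩
      rcases Nat.lt_or_eq_of_le b with c | rfl
      exacts [.inl ⟨w, a, by omega, e⟩, .inr e]

theorem ce_Form (h : Dio R) (h2 : DvStmt) (D : Dat) {W : Set ℕ} (hW : RW W R)
    {c : (ι → ℚ) → ℚ} (hc : DF R c) : DQ R fun v => Ce D W (c v) := by
  have a : DQ R fun v : Fin 1 → ℚ => ∃ (ξ : Fin D.n → ℚ) (w : ℕ), 1 ≤ w ∧ w ≤ D.C ∧
      MvPolynomial.eval ξ D.Nm = v 0 * w :=
    h.exs (fun (v : Fin 1 → ℚ) (ξ : Fin D.n → ℚ) => ∃ w : ℕ, 1 ≤ w ∧ w ≤ D.C ∧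
      MvPolynomial.eval ξ D.Nm = v 0 * w)
      (fin_Form h (h.poly D.Nm fun j => h.proj (Sum.inr j)) (h.proj (Sum.inl 0)) D.C)
  have b := h.comp (F := fun _ => c) a fun _ => hc
  refine congr_Form (h.and (h.ne hc (h.const 0)) (h.and (h.mem hc) (h.and (h.mem (h.inv hc))
    (h.and (h2 W R hW (h.const 9) (h.sub hc (h.const 1))) b)))) fun v => ?_
  rw [hW, hW]
  rfl

theorem on_Form (h : Dio R) {d : (ι → ℚ) → ℚ} (hd : DF R d) {P : (ι → ℚ) → ℚ × ℚ}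
    (hP : DP_Form R P) : DQ R fun v => On_Form (d v) (P v) :=
  h.or (h.and (h.eq hP.1 (h.const 0)) (h.eq hP.2 (h.const 0)))
    (h.eq (h.pow 2 hP.2) (h.add (h.pow 3 hP.1) hd))

theorem nzd_Form (h : Dio R) {P : (ι → ℚ) → ℚ × ℚ} (hP : DP_Form R P) :
    DQ R fun v => Nz_Form (P v) :=
  h.or (h.ne hP.1 (h.const 0)) (h.ne hP.2 (h.const 0))

theorem mul_Form (h3 : PtStmt) (n : ℕ) {P : (ι → ℚ) → ℚ × ℚ} (hP : DP_Form R P) :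
    DP_Form R fun v => mulP n (P v) := (h3.2 R).2 n hP.1 hP.2

theorem tm_Form (h : Dio R) (h2 : DvStmt) (h3 : PtStmt) (D : Dat) {W : Set ℕ} (hW : RW W R)
    {x u y c₁ c₂ l : (ι → ℚ) → ℚ} {N P Q : (ι → ℚ) → ℚ × ℚ} (hx : DF R x) (hu : DF R u)
    (hy : DF R y) (h₁ : DF R c₁) (h₂ : DF R c₂) (hl : DF R l) (hN : DP_Form R N)
    (hP : DP_Form R P) (hQ : DP_Form R Q) :
    DQ R fun v => Tm_Form D W (x v) (u v) (y v) (N v) (c₁ v) (c₂ v) (l v) (P v) (Q v) := by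
  have b := h.mul (h.mul (h.const 49) h₁) h₂
  have d := h.mul (h.const (-368)) (h.pow 2 b)
  have p := mul_Form h3 (3 ^ (D.K + 1)) hP
  have q := mul_Form h3 (3 ^ (D.K + 1)) hQ
  have dv := @h2 W R hW ι
  exact h.and (ce_Form h h2 D hW h₁) (h.and (ce_Form h h2 D hW h₂) (h.and (on_Form h d hP)
    (h.and (on_Form h d hQ) (h.and
      (h.and (dv hu (h.sub (h.pow 2 b) (h.mul (h.const (49 ^ 2)) (h.pow 6 hl))))
      (h.and (dv hu (h.sub hP.1 (h.mul (h.pow 2 hl) (h.const _))))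
      (h.and (dv hu (h.sub hP.2 (h.mul (h.pow 3 hl) (h.const _))))
      (h.and (dv hu (h.sub hQ.1 (h.mul (h.pow 2 hl) hN.1)))
      (h.and (dv hu (h.sub hQ.2 (h.mul (h.pow 3 hl) hN.2))) (dv hu (h.mul hu hN.1)))))))
      (h.and (nzd_Form h p) (h.and (nzd_Form h q) (h.and (dv (h.pow 2 hy) (h.inv p.1))
      (h.and (dv (h.pow 2 hy) (h.inv q.1))
        (dv hy (h.sub (h.div (h.div q.1 q.2) (h.div p.1 p.2)) hx))))))))))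

theorem pmd_Form (h : Dio R) (h2 : DvStmt) (h3 : PtStmt) (D : Dat) {W : Set ℕ} (hW : RW W R)
    (x₀ : ℕ) {x c₁ c₂ l : (ι → ℚ) → ℚ} {A B E P Q : (ι → ℚ) → ℚ × ℚ} (hx : DF R x)
    (hA : DP_Form R A) (hB : DP_Form R B) (hE : DP_Form R E) (h₁ : DF R c₁) (h₂ : DF R c₂)
    (hl : DF R l) (hP : DP_Form R P) (hQ : DP_Form R Q) :
    DQ R fun v => Pm_Form D W x₀ (x v) (A v) (B v) (E v) (c₁ v) (c₂ v) (l v) (P v) (Q v) := by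
  have a := mul_Form h3 D.io hA
  have b := mul_Form h3 D.io hB
  have e := mul_Form h3 (3 * D.io) hE
  have s : DP_Form R fun v => addP (co D.G) (mulP (3 * D.io) (E v)) :=
    (h3.2 R).1 (F := fun _ => co D.G) (h.const _) (h.const _) e.1 e.2
  have g := mul_Form h3 (3 ^ D.K) s
  have dv := @h2 W R hW ι
  exact h.and (h.le (h.const _) hx) (h.and (on_Form h (h.const _) hA)
    (h.and (on_Form h (h.const _) hB) (h.and (on_Form h (h.const _) hE) (h.and (nzd_Form h a)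
    (h.and (nzd_Form h b) (h.and (nzd_Form h e) (h.and (dv (h.poly1 _ hx) (h.inv e.1))
    (h.and (dv a.1 (h.inv e.1)) (h.and (dv (h.pow 4 g.1) (h.inv b.1))
      (tm_Form h h2 h3 D hW hx b.1 g.1 h₁ h₂ hl a hP hQ))))))))))

end

theorem form (h1 : DioStmt) (h2 : DvStmt) (h3 : PtStmt) : FormStmt := by
  intro D W R hW x₀
  have h := h1 R
  have p : ∀ i j : Fin 13, DP_Form R fun v : Fin 1 ⊕ Fin 13 → ℚ => (v (.inr i), v (.inr j)) :=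
    fun i j => ⟨h.proj _, h.proj _⟩
  exact congr_Form (h.exs (fun (v : Fin 1 → ℚ) (w : Fin 13 → ℚ) => Pm_Form D W x₀ (v 0) (w 0, w 1)
    (w 2, w 3) (w 4, w 5) (w 6) (w 7) (w 8) (w 9, w 10) (w 11, w 12))
    (pmd_Form h h2 h3 D hW x₀ (h.proj _) (p 0 1) (p 2 3) (p 4 5) (h.proj _) (h.proj _) (h.proj _)
      (p 9 10) (p 11 12))) fun v => (psi_Form h3 D W x₀ (v 0)).symm

end Pool.Agent.MP_adc87d_lc.Big

end
end

section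

set_option autoImplicit false

noncomputable section

namespace Pool.Agent.MP_adc87d_lc.Big

theorem zero_PtD {d : ℚ} (hd : d ≠ 0) (P : Pt d) : co P = (0, 0) ↔ P = 0 := by
  refine ⟨fun h => ?_, fun h => h ▸ rfl⟩
  by_contra hP
  have e := eqn hP
  obtain ⟨h1, h2⟩ := Prod.mk.inj h
  rw [h1, h2] at e
  exact hd (by linear_combination -e)

theorem add_PtD {d : ℚ} (hd : d ≠ 0) (P Q : Pt d) : co (P + Q) = addP (co P) (co Q) := by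
  unfold addP
  by_cases hP : P = 0
  · rw [if_pos ((zero_PtD hd P).2 hP), hP, zero_add]
  rw [if_neg (mt (zero_PtD hd P).1 hP)]
  by_cases hQ : Q = 0
  · rw [if_pos ((zero_PtD hd Q).2 hQ), hQ, add_zero]
  rw [if_neg (mt (zero_PtD hd Q).1 hQ)]
  have iff : P + Q = 0 ↔ (co P).1 = (co Q).1 ∧ (co P).2 = -(co Q).2 := by
    rw [add_eq_zero_iff hP hQ]
    change _ ↔ px P = px Q ∧ py P = -py Q
    constructor
    · rintro ⟨a, b⟩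
      exact ⟨a.symm, by rw [b, neg_neg]⟩
    · rintro ⟨a, b⟩
      exact ⟨a.symm, by rw [b, neg_neg]⟩
  by_cases h : P + Q = 0
  · rw [if_pos (iff.1 h), h]
    rfl
  have h' := mt iff.2 h
  rw [if_neg h']
  obtain ⟨m, a1, a2, a3, a4⟩ := add_data hP hQ h
  have hm : (if (co P).1 = (co Q).1 then 3 * (co P).1 ^ 2 / (2 * (co P).2)
      else ((co Q).2 - (co P).2) / ((co Q).1 - (co P).1)) = m := by
    change ¬(px P = px Q ∧ py P = -py Q) at h'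
    change (if px P = px Q then 3 * px P ^ 2 / (2 * py P)
      else (py Q - py P) / (px Q - px P)) = m
    split_ifs with hx
    · have hy : py Q = py P := by rw [hx, sub_self, mul_zero] at a1; linear_combination a1
      have h0 : 2 * py P ≠ 0 := fun e => h' ⟨hx, by linear_combination e / 2 + (hy + e / 2)⟩
      rw [div_eq_iff h0]
      rw [hy, ← hx] at a2
      linear_combination -a2
    · rw [div_eq_iff (sub_ne_zero.2 (Ne.symm hx)), a1]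
  rw [hm]
  change (px (P + Q), py (P + Q)) = (m ^ 2 - px P - px Q, m * (px P - (m ^ 2 - px P - px Q)) - py P)
  rw [a4, a3]

theorem ite_PtD (P : ℚ × ℚ) : P = (0, 0) ↔ P.1 ^ 2 + P.2 ^ 2 = 0 := by
  refine ⟨fun h => by simp [h], fun h => Prod.ext ?_ ?_⟩
  · exact pow_eq_zero_iff two_ne_zero |>.1 (by nlinarith [sq_nonneg P.1, sq_nonneg P.2])
  · exact pow_eq_zero_iff two_ne_zero |>.1 (by nlinarith [sq_nonneg P.1, sq_nonneg P.2])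

theorem and_PtD (P Q : ℚ × ℚ) :
    P.1 = Q.1 ∧ P.2 = -Q.2 ↔ (P.1 - Q.1) ^ 2 + (P.2 + Q.2) ^ 2 = 0 := by
  rw [← ite_PtD (P.1 - Q.1, P.2 + Q.2), Prod.mk.injEq, sub_eq_zero, add_eq_zero_iff_eq_neg]

theorem dadd_PtD {R : Subring ℚ} (h : Dio R) {ι : Type} {F G : (ι → ℚ) → ℚ × ℚ}
    (f1 : DF R fun v => (F v).1) (f2 : DF R fun v => (F v).2) (g1 : DF R fun v => (G v).1)
    (g2 : DF R fun v => (G v).2) :
    (DF R fun v => (addP (F v) (G v)).1) ∧ DF R fun v => (addP (F v) (G v)).2 := by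
  have m := h.ite f1 g1 (h.div (h.mul (h.const 3) (h.pow 2 f1)) (h.mul (h.const 2) f2))
    (h.div (h.sub g2 f2) (h.sub g1 f1))
  have x := h.sub (h.sub (h.pow 2 m) f1) g1
  have y := h.sub (h.mul m (h.sub f1 x)) f2
  have c1 := h.add (h.pow 2 f1) (h.pow 2 f2)
  have c2 := h.add (h.pow 2 g1) (h.pow 2 g2)
  have c3 := h.add (h.pow 2 (h.sub f1 g1)) (h.pow 2 (h.add f2 g2))
  have z := h.const (ι := ι) 0
  constructor
  · refine (congrArg (DF R) (funext fun v => ?_)).mp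
      (h.ite c1 z g1 (h.ite c2 z f1 (h.ite c3 z z x)))
    simp only [addP, ite_PtD, and_PtD, apply_ite Prod.fst]
  · refine (congrArg (DF R) (funext fun v => ?_)).mp
      (h.ite c1 z g2 (h.ite c2 z f2 (h.ite c3 z z y)))
    simp only [addP, ite_PtD, and_PtD, apply_ite Prod.snd]

theorem pts (h : DioStmt) : PtStmt := by
  refine ⟨fun d hd => ⟨add_PtD hd, fun n P => ?_, zero_PtD hd, fun P Q e => ?_, fun x y => ?_⟩,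
    fun R ι => ⟨dadd_PtD (h R), fun n F f1 f2 => ?_⟩⟩
  · induction n with
    | zero => rw [zero_nsmul]; rfl
    | succ n ih => rw [succ_nsmul, add_PtD hd, ih]; rfl
  · by_cases hP : P = 0
    · rw [hP, eq_comm, ← zero_PtD hd, ← e, hP]; rfl
    by_cases hQ : Q = 0
    · rw [hQ, ← zero_PtD hd, e, hQ]; rfl
    exact ext_pt hP hQ (congrArg Prod.fst e) (congrArg Prod.snd e)
  · constructor
    · rintro ⟨P, hP⟩
      obtain ⟨rfl, rfl⟩ := Prod.mk.inj hP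
      by_cases h0 : P = 0
      · exact .inl (h0 ▸ ⟨rfl, rfl⟩)
      · exact .inr (eqn h0)
    · rintro (⟨rfl, rfl⟩ | e)
      · exact ⟨0, rfl⟩
      · obtain ⟨P, -, rfl, rfl⟩ := exists_pt hd e
        exact ⟨P, rfl⟩
  · induction n with
    | zero => exact ⟨(h R).const 0, (h R).const 0⟩
    | succ n ih => exact dadd_PtD (h R) ih.1 ih.2 f1 f2

end Pool.Agent.MP_adc87d_lc.Big

end
end

section

set_option autoImplicit false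

noncomputable section

namespace Pool.Agent.MP_adc87d_lc.Big

theorem dvd_den_SG {u X : ℚ}
    (h : ∀ (p : ℕ) [Fact p.Prime], ‖(u : ℚ_[p])‖ < 1 → 1 ≤ ‖(X : ℚ_[p])‖ * ‖(u : ℚ_[p])‖ ^ 2) :
    u.num.natAbs ^ 2 ∣ X.den := by
  rw [Nat.dvd_iff_prime_pow_dvd_dvd]
  intro p k hp hk
  rcases Nat.eq_zero_or_pos k with rfl | hk0
  · simp
  haveI := Fact.mk hp
  have h1 : p ∣ u.num.natAbs := hp.dvd_of_dvd_pow ((dvd_pow_self p hk0.ne').trans hk)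
  have h2 : ‖(u.den : ℚ_[p])‖ = 1 := by
    rw [Padic.norm_natCast_eq_one_iff]
    exact Nat.Coprime.coprime_dvd_left h1 u.reduced
  have h3 : ‖(u : ℚ_[p])‖ = ‖(u.num : ℚ_[p])‖ := by
    rw [Rat.cast_def, norm_div, h2, div_one]
  have h4 : ‖(u.num : ℚ_[p])‖ < 1 :=
    Padic.norm_intCast_lt_one_iff.2 (Int.natCast_dvd.2 h1)
  have h5 : ‖((u.num ^ 2 : ℤ) : ℚ_[p])‖ ≤ (p : ℝ) ^ (-k : ℤ) := by
    rw [Padic.norm_int_le_pow_iff_dvd]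
    have := Int.natCast_dvd_natCast.2 hk
    simpa using this
  have h6 : ‖(X : ℚ_[p])‖ * ‖(X.den : ℚ_[p])‖ ≤ 1 := by
    rw [← norm_mul, Rat.cast_def, div_mul_cancel₀ _ (Nat.cast_ne_zero.2 X.den_ne_zero)]
    exact Padic.norm_int_le_one _
  have h7 := h p (h3 ▸ h4)
  have h8 : ‖((X.den : ℤ) : ℚ_[p])‖ ≤ (p : ℝ) ^ (-k : ℤ) := by
    refine le_trans ?_ h5
    rw [Int.cast_pow, norm_pow, ← h3, Int.cast_natCast]
    calc ‖(X.den : ℚ_[p])‖ ≤ ‖(X.den : ℚ_[p])‖ * (‖(X : ℚ_[p])‖ * ‖(u : ℚ_[p])‖ ^ 2) :=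
          le_mul_of_one_le_right (norm_nonneg _) h7
      _ = (‖(X : ℚ_[p])‖ * ‖(X.den : ℚ_[p])‖) * ‖(u : ℚ_[p])‖ ^ 2 := by ring
      _ ≤ ‖(u : ℚ_[p])‖ ^ 2 := mul_le_of_le_one_left (sq_nonneg _) h6
  rw [Padic.norm_int_le_pow_iff_dvd] at h8
  exact_mod_cast h8

section

variable {p : ℕ} [Fact p.Prime] {d : ℚ_[p]} {ε : ℝ}

theorem add_SG (h1 : L1Stmt) (hd : d ≠ 0) (hd1 : ‖d‖ ≤ 1) (hε : ε ≤ 1) {P Q : Pt d}
    (hP : E1 P ∧ ‖zc P‖ ≤ ε) (hQ : E1 Q ∧ ‖zc Q‖ ≤ ε) : E1 (P + Q) ∧ ‖zc (P + Q)‖ ≤ ε := by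
  obtain ⟨a, b⟩ := (h1 p d hd hd1).2 P Q ε hP.1 hQ.1 hP.2 hQ.2
  refine ⟨a, ?_⟩
  have h0 : 0 ≤ ε := (norm_nonneg _).trans hP.2
  have e : zc (P + Q) = (zc (P + Q) - zc P - zc Q) + (zc P + zc Q) := by ring
  rw [e]
  refine (Padic.nonarchimedean _ _).trans (max_le (b.trans ?_)
    ((Padic.nonarchimedean _ _).trans (max_le hP.2 hQ.2)))
  exact pow_le_of_le_one h0 hε (by norm_num)

theorem smul_SG (h2 : L2Stmt) (hd : d ≠ 0) (hd1 : ‖d‖ ≤ 1) {P : Pt d}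
    (hP : E1 P ∧ ‖zc P‖ ≤ ε) (a : ℤ) : E1 (a • P) ∧ ‖zc (a • P)‖ ≤ ε := by
  obtain ⟨b, -, c, -⟩ := h2 p d hd hd1 P hP.1 a
  refine ⟨b, ?_⟩
  rw [c]
  exact (mul_le_of_le_one_left (norm_nonneg _) (Padic.norm_int_le_one a)).trans hP.2

theorem norm_nat_SG (hp : ¬p ∣ 2 * 3 * 7 * 23) {m : ℕ} (hm : m ∣ (2 * 3 * 7 * 23) ^ 5) :
    ‖(m : ℚ_[p])‖ = 1 := by
  rw [Padic.norm_natCast_eq_one_iff]
  exact ((Nat.Prime.coprime_iff_not_dvd Fact.out).2 hp).pow_right 5 |>.coprime_dvd_right hm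

end

theorem sg (h1 : L1Stmt) (h2 : L2Stmt) (h3 : L3Stmt) (h4 : VisStmt) (h5 : CmpStmt) : SGStmt := by
  intro D W hG i n a c b l P Q hi hn hP hQ hb hC hrel
  obtain ⟨hK, -, hinf, -, hbad, -⟩ := hG.base
  have hI0 : (3 : ℤ) ^ D.K * i ≠ 0 := mul_ne_zero (pow_ne_zero _ (by norm_num)) hi
  have hI := hinf _ hI0
  have hu0 : px (((3 : ℤ) ^ D.K * i) • D.G) ≠ 0 := by
    intro e
    have := hbad 2 (by norm_num) i hi
    rw [e] at this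
    simp at this
    exact absurd this (by norm_num)
  refine dvd_den_SG fun p _ hu => ?_
  have hp : ¬p ∣ 2 * 3 * 7 * 23 := fun h => (hbad p h i hi).not_gt hu
  have e3 : (3 ^ D.K : ℕ) • i • D.G = ((3 : ℤ) ^ D.K * i) • D.G := by
    rw [mul_smul, ← natCast_zsmul]; simp
  have hW : p ∉ W := fun h => h4 p D.k D.K (by have := hG.two; omega) hK hp (i • D.G)
    (e3 ▸ hI) (e3 ▸ hu) (hG.hi h).2
  have hb1 := hb p hW (by rintro rfl; exact hp (by norm_num))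
  obtain ⟨c1, c2, c3, c4, c5, c6⟩ := hC
  set u := px (((3 : ℤ) ^ D.K * i) • D.G) with hudef
  have hup : 0 < ‖(u : ℚ_[p])‖ := norm_pos_iff.2 (Rat.cast_ne_zero.2 hu0)
  obtain ⟨lam, ψ, τ, l1, -, iψ, -, cψ, -, hcl⟩ := h5 p hp b l _ hu hb1 (c1 p hW hu)
  have n368 : ‖((368 : ℕ) : ℚ_[p])‖ = 1 := norm_nat_SG hp (by norm_num)
  have n6 : ‖((6 : ℕ) : ℚ_[p])‖ = 1 := norm_nat_SG hp (by norm_num)
  have hd1 : ‖db (b : ℚ_[p])‖ = 1 := by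
    have : db (b : ℚ_[p]) = -(((368 : ℕ) : ℚ_[p]) * (b : ℚ_[p]) ^ 2) := by
      simp only [db]; push_cast; ring
    rw [this, norm_neg, norm_mul, norm_pow, n368, hb1]; norm_num
  have hd0 : db (b : ℚ_[p]) ≠ 0 := by
    intro e; rw [e, norm_zero] at hd1; exact zero_ne_one hd1
  have hnx : ∀ R, ‖px (ψ R)‖ = ‖((px R : ℚ) : ℚ_[p])‖ := fun R => by
    rw [(cψ R).1, norm_mul, norm_pow, l1]; simp
  have hψ0 : ∀ R, R ≠ 0 → ψ R ≠ 0 := fun R h e => h (iψ (e.trans ψ.map_zero.symm))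
  have hG0 : D.G ≠ 0 := by simpa using hinf 1 one_ne_zero
  have hGi : ‖((px D.G : ℚ) : ℚ_[p])‖ ≤ 1 := by
    by_contra hc
    have := (h2 p _ hd0 hd1.le (ψ D.G) (Or.inr (by rw [hnx]; exact not_le.1 hc))
      ((3 : ℤ) ^ D.K * i)).1
    rw [← map_zsmul] at this
    rcases this with e | e
    · exact hψ0 _ hI e
    · rw [hnx] at e; exact e.not_gt hu
  have hNi : ‖((px (n • D.G) : ℚ) : ℚ_[p])‖ ≤ 1 := by
    have := c6 p hW hu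
    rw [Rat.cast_mul, norm_mul] at this
    exact (mul_le_iff_le_one_right hup).1 this
  have s1 := hcl D.G P hG0 hP hGi (c2 p hW hu) (c3 p hW hu)
  have s2 := hcl (n • D.G) Q (hinf n hn) hQ hNi (c4 p hW hu) (c5 p hW hu)
  have hrel' : a • ((3 : ℤ) ^ (D.K + 1)) • τ Q = c • ((3 : ℤ) ^ (D.K + 1)) • τ P := by
    have := congrArg τ hrel
    simp only [map_zsmul, map_nsmul] at this
    rw [← natCast_zsmul, ← natCast_zsmul] at this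
    simpa using this
  have s3 := add_SG h1 hd0 hd1.le hu.le (smul_SG h2 hd0 hd1.le s1 (c * 3 ^ (D.K + 1)))
    (smul_SG h2 hd0 hd1.le s2 (-(a * 3 ^ (D.K + 1))))
  have e4 : (c * 3 ^ (D.K + 1)) • (τ P - ψ D.G) + (-(a * 3 ^ (D.K + 1))) • (τ Q - ψ (n • D.G)) =
      ((3 : ℤ) ^ (D.K + 1) * (a * n - c)) • ψ D.G := by
    rw [map_zsmul, smul_sub, smul_sub, mul_smul c, ← hrel']
    module
  rw [e4] at s3
  have s4 : E1 ((3 * ((3 : ℤ) ^ D.K * i)) • ψ D.G) ∧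
      ‖zc ((3 * ((3 : ℤ) ^ D.K * i)) • ψ D.G)‖ ≤ ‖(u : ℚ_[p])‖ := by
    have hx := hnx (((3 : ℤ) ^ D.K * i) • D.G)
    obtain ⟨-, q1, q2⟩ := (h3 p _ hd0 hd1.le).2.2 (ψ (((3 : ℤ) ^ D.K * i) • D.G)) (hψ0 _ hI)
      (by rw [← norm_pos_iff, hx]; exact hup)
      (by rw [norm_mul, hd1, mul_one]; exact_mod_cast n6) (hx ▸ hu)
    rw [hx, map_zsmul, ← natCast_zsmul, ← mul_smul] at q2
    rw [map_zsmul, ← natCast_zsmul, ← mul_smul] at q1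
    exact ⟨by exact_mod_cast q1, by exact_mod_cast q2.le⟩
  have s5 := add_SG h1 hd0 hd1.le hu.le
    (smul_SG h2 hd0 hd1.le s3 (Int.gcdA (3 ^ (D.K + 1) * (a * n - c)) (3 * (3 ^ D.K * i))))
    (smul_SG h2 hd0 hd1.le s4 (Int.gcdB (3 ^ (D.K + 1) * (a * n - c)) (3 * (3 ^ D.K * i))))
  rw [← mul_smul, ← mul_smul, ← add_smul, mul_comm (Int.gcdA _ _), mul_comm (Int.gcdB _ _),
    ← Int.gcd_eq_gcd_ab, ← map_zsmul] at s5
  have hg0 : ((Int.gcd (3 ^ (D.K + 1) * (a * n - c)) (3 * (3 ^ D.K * i)) : ℕ) : ℤ) ≠ 0 := by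
    rw [Int.natCast_ne_zero, Ne, Int.gcd_eq_zero_iff]
    exact fun h => mul_ne_zero (by norm_num) hI0 h.2
  obtain ⟨-, s6⟩ := (h1 p _ hd0 hd1.le).1 _ (hψ0 _ (hinf _ hg0)) s5.1
  rw [hnx] at s6
  rw [← s6]
  exact mul_le_mul_of_nonneg_left (pow_le_pow_left₀ (norm_nonneg _) s5.2 2) (norm_nonneg _)

end Pool.Agent.MP_adc87d_lc.Big

end
end

section

/-! A definable bijection with the natural numbers: statements of the steps. -/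

set_option autoImplicit false

namespace Pool.Agent.MP_adc87d_lc.Big

/-- iterates of x^3 - 3 x -/
def dk : ℕ → ℤ → ℤ
  | 0, x => x
  | j + 1, x => dk j x ^ 3 - 3 * dk j x

/-- existential description of the numbers with a prime factor that is not inverted -/
def NUStmt : Prop :=
  ∀ k C b : ℕ, 2 ≤ k → 23 ≤ C → ((∃ p : ℕ, p.Prime ∧ p ∣ b ∧ ¬(C < p ∧ Hi k p)) ↔
    (∃ p : ℕ, p.Prime ∧ p ≤ C ∧ p ∣ b) ∨
    (∃ (d : ℕ) (x y : ℤ), 1 < d ∧ d ∣ b ∧ d.Coprime 138 ∧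
      (d : ℤ) ∣ x ^ (2 * 3 ^ (k - 1)) + x ^ 3 ^ (k - 1) + 1 ∧ (d : ℤ) ∣ y ^ 2 + 23) ∨
    ∃ (d : ℕ) (x : ℤ), d % 3 = 2 ∧ d ∣ b ∧ (d : ℤ) ∣ dk (k - 1) x + 1)

/-- these numbers form a definable set -/
def NDStmt : Prop :=
  ∀ (k C : ℕ) (R : Subring ℚ), 2 ≤ k → 23 ≤ C → (DQ R fun v : Fin 1 → ℚ => ∃ n : ℤ, v 0 = n) →
    DQ R fun v : Fin 1 → ℚ => ∃ b : ℕ, v 0 = b ∧ ∃ p : ℕ, p.Prime ∧ p ∣ b ∧ ¬(C < p ∧ Hi k p)

/-- the bijection -/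
def BijStmt : Prop :=
  ∀ (W : Set ℕ) (R : Subring ℚ), RW W R → (DQ R fun v : Fin 1 → ℚ => ∃ n : ℤ, v 0 = n) →
    (DQ R fun v : Fin 1 → ℚ => ∃ b : ℕ, v 0 = b ∧ ∃ p : ℕ, p.Prime ∧ p ∣ b ∧ p ∉ W) →
    ∃ e : R ≃ ℕ, DQ R fun v : Fin 2 → ℚ => ∃ h : v 0 ∈ R, v 1 = e ⟨v 0, h⟩

end Pool.Agent.MP_adc87d_lc.Big

end

section

/-! A definable bijection between a subring of the rationals and the natural numbers. -/

set_option autoImplicit false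

noncomputable section

open scoped Classical

namespace Pool.Agent.MP_adc87d_lc.Big

/-! ### the bijection -/

/-- code of a rational number -/
def code_EBij (x : ℚ) : ℕ := Nat.pair (Nat.pair x.num.toNat (-x.num).toNat) x.den

/-- left inverse of the code -/
def dec_EBij (c : ℕ) : ℚ := ((c.unpair.1.unpair.1 : ℚ) - c.unpair.1.unpair.2) / c.unpair.2

theorem dec_code_EBij (x : ℚ) : dec_EBij (code_EBij x) = x := by
  have h : ((x.num.toNat : ℤ) : ℚ) - ((-x.num).toNat : ℤ) = x.num := by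
    rw [← Int.cast_sub, Int.toNat_sub_toNat_neg]
  simp only [dec_EBij, code_EBij, Nat.unpair_pair]
  rw [Int.cast_natCast, Int.cast_natCast] at h
  rw [h, Rat.num_div_den]

/-- codes of the elements of R that are not natural numbers -/
def Gd_EBij (R : Subring ℚ) (c : ℕ) : Prop :=
  dec_EBij c ∈ R ∧ (¬∃ n : ℕ, dec_EBij c = n) ∧ code_EBij (dec_EBij c) = c

/-- the enumeration, on pairs -/
def en_EBij (R : Subring ℚ) (c j : ℕ) : ℚ :=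
  if Gd_EBij R c then if j = 0 then dec_EBij c else (Nat.pair c (j - 1) : ℕ)
  else (Nat.pair c j : ℕ)

theorem en_mem_EBij (R : Subring ℚ) (c j : ℕ) : en_EBij R c j ∈ R := by
  unfold en_EBij
  split_ifs with h _
  · exact h.1
  · exact natCast_mem R _
  · exact natCast_mem R _

theorem en_inj_EBij {R : Subring ℚ} {c j c' j' : ℕ} (h : en_EBij R c j = en_EBij R c' j') :
    c = c' ∧ j = j' := by
  unfold en_EBij at h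
  split_ifs at h with h1 h2 h3 h4 h5 h6 h7 h8
  · exact ⟨by rw [← h1.2.2, h, h3.2.2], by omega⟩
  · exact absurd ⟨_, h⟩ h1.2.1
  · exact absurd ⟨_, h⟩ h1.2.1
  · exact absurd ⟨_, h.symm⟩ h5.2.1
  · have := Nat.pair_eq_pair.1 (Nat.cast_injective h)
    omega
  · exact absurd ((Nat.pair_eq_pair.1 (Nat.cast_injective h)).1 ▸ h1) h5
  · exact absurd ⟨_, h.symm⟩ h7.2.1
  · exact absurd ((Nat.pair_eq_pair.1 (Nat.cast_injective h)).1 ▸ h7) h1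
  · exact Nat.pair_eq_pair.1 (Nat.cast_injective h)

theorem en_surj_EBij {R : Subring ℚ} {x : ℚ} (hx : x ∈ R) : ∃ c j, en_EBij R c j = x := by
  by_cases h : ∃ n : ℕ, x = n
  · obtain ⟨n, rfl⟩ := h
    by_cases hg : Gd_EBij R n.unpair.1
    · exact ⟨n.unpair.1, n.unpair.2 + 1, by simp [en_EBij, hg]⟩
    · exact ⟨n.unpair.1, n.unpair.2, by simp [en_EBij, hg]⟩
  · have hg : Gd_EBij R (code_EBij x) := by
      unfold Gd_EBij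
      rw [dec_code_EBij]
      exact ⟨hx, h, rfl⟩
    exact ⟨code_EBij x, 0, by simp [en_EBij, hg, dec_code_EBij]⟩

theorem bij_EBij (R : Subring ℚ) : Function.Bijective fun m : ℕ =>
    (⟨en_EBij R m.unpair.1 m.unpair.2, en_mem_EBij R _ _⟩ : R) := by
  refine ⟨fun m m' h => ?_, fun x => ?_⟩
  · obtain ⟨h1, h2⟩ := en_inj_EBij (congrArg Subtype.val h)
    rw [← Nat.pair_unpair m, h1, h2, Nat.pair_unpair]
  · obtain ⟨c, j, h⟩ := en_surj_EBij x.2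
    exact ⟨Nat.pair c j, Subtype.ext (by simpa only [Nat.unpair_pair] using h)⟩

/-! ### definability -/

theorem congr_EBij {R : Subring ℚ} {ι : Type} {S T : (ι → ℚ) → Prop} (h : DQ R S)
    (e : ∀ v, S v ↔ T v) : DQ R T := by
  rwa [show T = S from funext fun v => propext (e v).symm]

/-- the pairing on rationals -/
def pr_EBij (a b : ℚ) : ℚ := if a < b then b * b + a else a * a + a + b

theorem pr_nat_EBij (a b : ℕ) : pr_EBij a b = (Nat.pair a b : ℕ) := by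
  unfold pr_EBij Nat.pair
  simp only [Nat.cast_lt]
  split_ifs <;> simp

theorem toNat_EBij (a : ℤ) : ((a.toNat : ℕ) : ℚ) = if (a : ℚ) < 0 then 0 else (a : ℚ) := by
  split_ifs with h
  · rw [Int.toNat_of_nonpos (by exact_mod_cast h.le), Nat.cast_zero]
  · rw [← Int.cast_natCast, Int.toNat_of_nonneg (by exact_mod_cast not_lt.1 h)]

section

variable {R : Subring ℚ} (D : Dio R) {ι : Type} {F G A B : (ι → ℚ) → ℚ}

include D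

theorem lt_EBij (hF : DF R F) (hG : DF R G) : DQ R fun v => F v < G v :=
  congr_EBij (D.and (D.le hF hG) (D.ne hF hG)) fun _ => lt_iff_le_and_ne.symm

theorem app_EBij {S : ℚ → Prop} (hS : DQ R fun v : Fin 1 → ℚ => S (v 0)) (hF : DF R F) :
    DQ R fun v => S (F v) :=
  D.comp (κ := Fin 1) (F := fun _ => F) hS fun _ => hF

theorem wk_EBij [Finite ι] (hF : DF R F) {κ : Type} (f : ι → κ) :
    DF R fun v : κ → ℚ => F fun i => v (f i) :=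
  D.comp (κ := Option ι) (F := fun o v => v (o.map f)) hF fun _ => D.proj _

theorem ite_EBij [Finite ι] (hF : DF R F) (hG : DF R G) (hA : DF R A) (hB : DF R B) :
    DF R fun v => if F v < G v then A v else B v := by
  refine congr_EBij (D.or (D.and (lt_EBij D (wk_EBij D hF some) (wk_EBij D hG some))
    (D.eq (D.proj none) (wk_EBij D hA some))) (D.and (D.le (wk_EBij D hG some) (wk_EBij D hF some))
    (D.eq (D.proj none) (wk_EBij D hB some)))) fun v => ?_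
  beta_reduce
  split_ifs with h
  · simp [h, h.not_ge]
  · simp [h, not_lt.1 h]

theorem prD_EBij [Finite ι] (hF : DF R F) (hG : DF R G) : DF R fun v => pr_EBij (F v) (G v) :=
  ite_EBij D hF hG (D.add (D.mul hG hG) hF) (D.add (D.add (D.mul hF hF) hF) hG)

variable (hZ : DQ R fun v : Fin 1 → ℚ => ∃ n : ℤ, v 0 = n)

include hZ

theorem int_EBij (hF : DF R F) : DQ R fun v => ∃ n : ℤ, F v = n :=
  app_EBij D (S := fun x => ∃ n : ℤ, x = n) hZ hF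

theorem nat_EBij (hF : DF R F) : DQ R fun v => ∃ n : ℕ, F v = n := by
  refine congr_EBij (D.and (int_EBij D hZ hF) (D.le (D.const 0) hF)) fun v => ⟨?_, ?_⟩
  · rintro ⟨⟨n, hn⟩, h⟩
    rw [hn] at h
    lift n to ℕ using by exact_mod_cast h
    exact ⟨n, hn⟩
  · rintro ⟨n, hn⟩
    exact ⟨⟨n, hn⟩, hn ▸ n.cast_nonneg⟩

theorem notNat_EBij (hF : DF R F) : DQ R fun v => ¬∃ n : ℕ, F v = n := by
  refine app_EBij D (S := fun x => ¬∃ n : ℕ, x = n) ?_ hF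
  have key := D.ex (ι := Fin 1) (fun v t => (∃ n : ℤ, t = n) ∧ t < v 0 ∧ v 0 < t + 1)
    (D.and (int_EBij D hZ (D.proj none)) (D.and (lt_EBij D (D.proj none) (D.proj (some 0)))
      (lt_EBij D (D.proj (some 0)) (D.add (D.proj none) (D.const 1)))))
  refine congr_EBij (D.or (lt_EBij D (D.proj 0) (D.const 0)) key) fun v => ⟨?_, fun h => ?_⟩
  · rintro (h | ⟨_, ⟨n, rfl⟩, h1, h2⟩) ⟨m, hm⟩
    · exact absurd (hm ▸ h) (not_lt.2 m.cast_nonneg)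
    · rw [hm] at h1 h2
      have h3 : n < m := by exact_mod_cast h1
      have h4 : (m : ℤ) < n + 1 := by exact_mod_cast h2
      omega
  · refine or_iff_not_imp_left.2 fun h0 => ⟨_, ⟨⌊v 0⌋, rfl⟩, ?_, Int.lt_floor_add_one _⟩
    refine (Int.floor_le _).lt_of_ne fun e => h ⟨⌊v 0⌋.toNat, ?_⟩
    rw [toNat_EBij, e, if_neg h0]

theorem den_EBij [Finite ι] (hF : DF R F) : DF R fun v => ((F v).den : ℚ) := by
  have p : ∀ k : Fin 2, DF R fun v : Option ι ⊕ Fin 2 → ℚ => v (.inr k) := fun k => D.proj _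
  have t : DF R fun v : Option ι ⊕ Fin 2 → ℚ => v (.inl none) := D.proj _
  have x := D.mul (wk_EBij D hF fun i => (.inl (some i) : Option ι ⊕ Fin 2)) t
  have key := D.exs (ι := Option ι) (κ := Fin 2)
    (fun v w => (∃ n : ℤ, w 0 = n) ∧ (∃ n : ℤ, w 1 = n) ∧ (∃ n : ℤ, v none = n) ∧
      (∃ n : ℤ, (F fun i => v (some i)) * v none = n) ∧ 0 < v none ∧
      w 0 * ((F fun i => v (some i)) * v none) + w 1 * v none = 1)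
    (D.and (int_EBij D hZ (p 0)) (D.and (int_EBij D hZ (p 1)) (D.and (int_EBij D hZ t)
      (D.and (int_EBij D hZ x) (D.and (lt_EBij D (D.const 0) t)
        (D.eq (D.add (D.mul (p 0) x) (D.mul (p 1) t)) (D.const 1)))))))
  refine congr_EBij key fun v => ?_
  beta_reduce
  generalize (F fun i => v (some i)) = y
  constructor
  · rintro ⟨w, ⟨c, hc⟩, ⟨d, hd⟩, ⟨b, hb⟩, ⟨a, ha⟩, h1, h2⟩
    rw [ha, hb, hc, hd] at h2
    rw [hb] at h1 ha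
    have hb0 : 0 < b := by exact_mod_cast h1
    have hco : IsCoprime a b := ⟨c, d, by exact_mod_cast h2⟩
    rw [hb, eq_div_of_mul_eq h1.ne' ha, ← Int.cast_natCast,
      Rat.den_div_eq_of_coprime hb0 (Int.isCoprime_iff_gcd_eq_one.1 hco)]
  · intro h
    obtain ⟨c, d, hcd⟩ := Rat.isCoprime_num_den y
    rw [h, Rat.mul_den_eq_num]
    refine ⟨![c, d], ⟨_, rfl⟩, ⟨_, rfl⟩, ⟨(y.den : ℤ), rfl⟩, ⟨_, rfl⟩, by exact_mod_cast y.pos, ?_⟩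
    show (c : ℚ) * (y.num : ℚ) + d * (y.den : ℚ) = 1
    exact_mod_cast hcd

theorem codeD_EBij [Finite ι] (hF : DF R F) : DF R fun v => (code_EBij (F v) : ℚ) := by
  have hd := den_EBij D hZ hF
  have hn := D.mul hF hd
  refine congr_EBij (prD_EBij D (prD_EBij D (ite_EBij D hn (D.const 0) (D.const 0) hn)
    (ite_EBij D (D.neg hn) (D.const 0) (D.const 0) (D.neg hn))) hd) fun v => ?_
  beta_reduce
  rw [code_EBij, ← pr_nat_EBij, ← pr_nat_EBij, toNat_EBij, toNat_EBij, Rat.mul_den_eq_num,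
    Int.cast_neg]

end

/-- the defining formula -/
def Fm_EBij (R : Subring ℚ) (x y q c j : ℚ) : Prop :=
  y = pr_EBij c j ∧ ((q ∈ R ∧ (¬∃ n : ℕ, q = n) ∧ (code_EBij q : ℚ) = c) ∧
    (j = 0 ∧ x = q ∨ j ≠ 0 ∧ x = pr_EBij c (j - 1)) ∨
    (q ∉ R ∨ (∃ n : ℕ, q = n) ∨ (code_EBij q : ℚ) ≠ c) ∧ x = y)

theorem Fm_iff_EBij (R : Subring ℚ) (x y : ℚ) (c j : ℕ) :
    Fm_EBij R x y (dec_EBij c) c j ↔ y = (Nat.pair c j : ℕ) ∧ x = en_EBij R c j := by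
  have e : (dec_EBij c ∉ R ∨ (∃ n : ℕ, dec_EBij c = n) ∨ code_EBij (dec_EBij c) ≠ c) ↔
      ¬Gd_EBij R c := by
    unfold Gd_EBij
    tauto
  unfold Fm_EBij en_EBij
  rw [pr_nat_EBij]
  refine and_congr_right fun hy => ?_
  simp only [Ne, Nat.cast_inj, Nat.cast_eq_zero] at e ⊢
  rw [e, ← Gd_EBij, hy]
  split_ifs with h1 h2
  · simp [h1, h2]
  · rw [← pr_nat_EBij c (j - 1), Nat.cast_sub (by omega)]
    simp [h1, h2]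
  · simp [h1]

theorem ebij (h : DioStmt) : BijStmt := by
  intro W R hR hZ hN
  have D := h R
  refine ⟨(Equiv.ofBijective _ (bij_EBij R)).symm, ?_⟩
  have p : ∀ k : Fin 4, DF R fun v : Fin 2 ⊕ Fin 4 → ℚ => v (.inr k) := fun k => D.proj _
  have x : DF R fun v : Fin 2 ⊕ Fin 4 → ℚ => v (.inl 0) := D.proj _
  have y : DF R fun v : Fin 2 ⊕ Fin 4 → ℚ => v (.inl 1) := D.proj _
  have q := D.div (D.sub (p 0) (p 1)) (p 2)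
  have c := prD_EBij D (prD_EBij D (p 0) (p 1)) (p 2)
  have hq : DQ R fun v : Fin 2 ⊕ Fin 4 → ℚ => (v (.inr 0) - v (.inr 1)) / v (.inr 2) ∉ R := by
    refine congr_EBij (app_EBij D (S := fun t => ∃ b : ℕ, t = b ∧ ∃ p : ℕ, p.Prime ∧ p ∣ b ∧ p ∉ W)
      hN (den_EBij D hZ q)) fun v => ?_
    rw [hR]
    simp
  have key := D.exs (ι := Fin 2) (κ := Fin 4)
    (fun v w => (∃ n : ℕ, w 0 = n) ∧ (∃ n : ℕ, w 1 = n) ∧ (∃ n : ℕ, w 2 = n) ∧ (∃ n : ℕ, w 3 = n) ∧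
      Fm_EBij R (v 0) (v 1) ((w 0 - w 1) / w 2) (pr_EBij (pr_EBij (w 0) (w 1)) (w 2)) (w 3))
    (D.and (nat_EBij D hZ (p 0)) (D.and (nat_EBij D hZ (p 1)) (D.and (nat_EBij D hZ (p 2))
      (D.and (nat_EBij D hZ (p 3)) (D.and (D.eq y (prD_EBij D c (p 3))) (D.or
        (D.and (D.and (D.mem q) (D.and (notNat_EBij D hZ q) (D.eq (codeD_EBij D hZ q) c)))
          (D.or (D.and (D.eq (p 3) (D.const 0)) (D.eq x q)) (D.and (D.ne (p 3) (D.const 0))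
            (D.eq x (prD_EBij D c (D.sub (p 3) (D.const 1)))))))
        (D.and (D.or hq (D.or (nat_EBij D hZ q) (D.ne (codeD_EBij D hZ q) c))) (D.eq x y))))))))
  have hd : ∀ a b c : ℕ, ((a : ℚ) - b) / c = dec_EBij (Nat.pair (Nat.pair a b) c) := fun a b c => by
    simp only [dec_EBij, Nat.unpair_pair]
  refine congr_EBij key fun v => ⟨?_, ?_⟩
  · rintro ⟨w, ⟨a, ha⟩, ⟨b, hb⟩, ⟨c, hc⟩, ⟨j, hj⟩, h⟩
    rw [ha, hb, hc, hj, pr_nat_EBij, pr_nat_EBij, hd, Fm_iff_EBij] at h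
    refine ⟨h.2 ▸ en_mem_EBij R _ _, h.1.trans (congrArg Nat.cast ?_)⟩
    rw [Equiv.eq_symm_apply]
    exact Subtype.ext (by simpa only [Equiv.ofBijective_apply, Nat.unpair_pair] using h.2.symm)
  · rintro ⟨h0, h1⟩
    generalize hm : (Equiv.ofBijective _ (bij_EBij R)).symm ⟨v 0, h0⟩ = m at h1
    have h2 : v 0 = en_EBij R m.unpair.1 m.unpair.2 :=
      congrArg Subtype.val ((Equiv.symm_apply_eq _).1 hm)
    refine ⟨![(m.unpair.1.unpair.1.unpair.1 : ℕ), (m.unpair.1.unpair.1.unpair.2 : ℕ),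
      (m.unpair.1.unpair.2 : ℕ), (m.unpair.2 : ℕ)], ⟨_, rfl⟩, ⟨_, rfl⟩, ⟨_, rfl⟩, ⟨_, rfl⟩, ?_⟩
    show Fm_EBij R (v 0) (v 1) (dec_EBij m.unpair.1) (pr_EBij (pr_EBij
      (m.unpair.1.unpair.1.unpair.1 : ℕ) (m.unpair.1.unpair.1.unpair.2 : ℕ))
      (m.unpair.1.unpair.2 : ℕ)) (m.unpair.2 : ℕ)
    rw [pr_nat_EBij, pr_nat_EBij, Nat.pair_unpair, Nat.pair_unpair, Fm_iff_EBij, Nat.pair_unpair]
    exact ⟨h1, h2⟩

end Pool.Agent.MP_adc87d_lc.Big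

end
end
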