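import Mathlib
import Pool.Agent.Mg.Fadc87d.G04e6de
import Pool.Agent.MP_2a1f0e_nt.Kernel

set_option linter.all false

section

/-! The ring generated by a root of x^3 - x - 1 and its two embeddings. -/

set_option autoImplicit false

noncomputable section

namespace Pool.Agent.MP_adc87d_lc.Big

/-- a + b th + c th^2 with th^3 = th + 1 -/
@[ext] structure O where
  a : ℤ
  b : ℤ
  c : ℤ

namespace O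

instance : Zero O := ⟨⟨0, 0, 0⟩⟩
instance : One O := ⟨⟨1, 0, 0⟩⟩
instance : Add O := ⟨fun x y => ⟨x.a + y.a, x.b + y.b, x.c + y.c⟩⟩
instance : Neg O := ⟨fun x => ⟨-x.a, -x.b, -x.c⟩⟩
instance : Mul O := ⟨fun x y => ⟨x.a * y.a + x.b * y.c + x.c * y.b,
  x.a * y.b + x.b * y.a + x.b * y.c + x.c * y.b + x.c * y.c,
  x.a * y.c + x.b * y.b + x.c * y.a + x.c * y.c⟩⟩

@[simp] theorem zero_a : (0 : O).a = 0 := rfl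
@[simp] theorem zero_b : (0 : O).b = 0 := rfl
@[simp] theorem zero_c : (0 : O).c = 0 := rfl
@[simp] theorem one_a : (1 : O).a = 1 := rfl
@[simp] theorem one_b : (1 : O).b = 0 := rfl
@[simp] theorem one_c : (1 : O).c = 0 := rfl
@[simp] theorem add_a (x y : O) : (x + y).a = x.a + y.a := rfl
@[simp] theorem add_b (x y : O) : (x + y).b = x.b + y.b := rfl
@[simp] theorem add_c (x y : O) : (x + y).c = x.c + y.c := rfl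
@[simp] theorem neg_a (x : O) : (-x).a = -x.a := rfl
@[simp] theorem neg_b (x : O) : (-x).b = -x.b := rfl
@[simp] theorem neg_c (x : O) : (-x).c = -x.c := rfl
@[simp] theorem mul_a (x y : O) : (x * y).a = x.a * y.a + x.b * y.c + x.c * y.b := rfl
@[simp] theorem mul_b (x y : O) :
    (x * y).b = x.a * y.b + x.b * y.a + x.b * y.c + x.c * y.b + x.c * y.c := rfl
@[simp] theorem mul_c (x y : O) : (x * y).c = x.a * y.c + x.b * y.b + x.c * y.a + x.c * y.c := rfl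

instance : AddCommGroup O where
  add_assoc x y z := by ext <;> simp [add_assoc]
  zero_add x := by ext <;> simp
  add_zero x := by ext <;> simp
  nsmul := nsmulRec
  zsmul := zsmulRec
  neg_add_cancel x := by ext <;> simp
  add_comm x y := by ext <;> simp [add_comm]

instance : CommRing O where
  left_distrib x y z := by ext <;> simp <;> ring
  right_distrib x y z := by ext <;> simp <;> ring
  zero_mul x := by ext <;> simp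
  mul_zero x := by ext <;> simp
  mul_assoc x y z := by ext <;> simp <;> ring
  one_mul x := by ext <;> simp
  mul_one x := by ext <;> simp
  mul_comm x y := by ext <;> simp <;> ring

@[simp] theorem sub_a (x y : O) : (x - y).a = x.a - y.a := by simp [sub_eq_add_neg]
@[simp] theorem sub_b (x y : O) : (x - y).b = x.b - y.b := by simp [sub_eq_add_neg]
@[simp] theorem sub_c (x y : O) : (x - y).c = x.c - y.c := by simp [sub_eq_add_neg]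

theorem natCast_eq (n : ℕ) : (n : O) = ⟨n, 0, 0⟩ := by
  induction n with
  | zero => rfl
  | succ k ih => rw [Nat.cast_succ, ih]; ext <;> simp

theorem intCast_eq (n : ℤ) : (n : O) = ⟨n, 0, 0⟩ := by
  obtain ⟨k, rfl | rfl⟩ := n.eq_nat_or_neg
  · rw [Int.cast_natCast, natCast_eq]
  · rw [Int.cast_neg, Int.cast_natCast, natCast_eq]; ext <;> simp

@[simp] theorem natCast_a (n : ℕ) : (n : O).a = n := by rw [natCast_eq]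
@[simp] theorem natCast_b (n : ℕ) : (n : O).b = 0 := by rw [natCast_eq]
@[simp] theorem natCast_c (n : ℕ) : (n : O).c = 0 := by rw [natCast_eq]
@[simp] theorem intCast_a (n : ℤ) : (n : O).a = n := by rw [intCast_eq]
@[simp] theorem intCast_b (n : ℤ) : (n : O).b = 0 := by rw [intCast_eq]
@[simp] theorem intCast_c (n : ℤ) : (n : O).c = 0 := by rw [intCast_eq]

theorem intCast_dvd (n : ℤ) (x : O) : (n : O) ∣ x ↔ n ∣ x.a ∧ n ∣ x.b ∧ n ∣ x.c := by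
  constructor
  · rintro ⟨y, rfl⟩
    simp
  · rintro ⟨⟨a, ha⟩, ⟨b, hb⟩, c, hc⟩
    exact ⟨⟨a, b, c⟩, by ext <;> simp [*]⟩

theorem natCast_dvd (n : ℕ) (x : O) :
    (n : O) ∣ x ↔ (n : ℤ) ∣ x.a ∧ (n : ℤ) ∣ x.b ∧ (n : ℤ) ∣ x.c := by
  rw [← intCast_dvd, Int.cast_natCast]

end O

/-- the generator -/
def tO : O := ⟨0, 1, 0⟩

theorem tO_cube : tO ^ 3 = tO + 1 := by
  ext <;> simp [tO, pow_succ]

/-- the generator as a unit -/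
def tU : Oˣ := ⟨tO, ⟨-1, 0, 1⟩, by ext <;> simp [tO], by ext <;> simp [tO]⟩

theorem tU_val : (tU : O) = tO := rfl

/-- coordinates -/
def vec : O ≃ (Fin 3 → ℤ) where
  toFun x := ![x.a, x.b, x.c]
  invFun v := ⟨v 0, v 1, v 2⟩
  left_inv _ := rfl
  right_inv v := by funext i; fin_cases i <;> rfl

theorem vec_apply (x : O) : vec x = ![x.a, x.b, x.c] := rfl

theorem vec_symm_apply (v : Fin 3 → ℤ) : vec.symm v = ⟨v 0, v 1, v 2⟩ := rfl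

theorem vec_add (x y : O) : vec (x + y) = vec x + vec y := by
  funext i; fin_cases i <;> rfl

theorem vec_sub (x y : O) : vec (x - y) = vec x - vec y := by
  funext i; fin_cases i <;> simp [vec_apply]

theorem vec_int_mul (n : ℤ) (x : O) : vec (n * x) = n • vec x := by
  funext i; fin_cases i <;> simp [vec_apply]

/-- the norm form -/
def nf {F : Type} [CommRing F] (a b c : F) : F :=
  a ^ 3 + b ^ 3 + c ^ 3 + 2 * a ^ 2 * c + a * c ^ 2 - a * b ^ 2 - b * c ^ 2 - 3 * a * b * c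

/-- the norm -/
def Nm (x : O) : ℤ := nf x.a x.b x.c

theorem Nm_mul (x y : O) : Nm (x * y) = Nm x * Nm y := by
  simp only [Nm, nf, O.mul_a, O.mul_b, O.mul_c]; ring

theorem Nm_one : Nm 1 = 1 := by simp [Nm, nf]

theorem Nm_neg (x : O) : Nm (-x) = -Nm x := by
  simp only [Nm, nf, O.neg_a, O.neg_b, O.neg_c]; ring

theorem Nm_tO : Nm tO = 1 := by simp [Nm, nf, tO]

theorem Nm_int (n : ℤ) : Nm n = n ^ 3 := by simp [Nm, nf]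

theorem Nm_nat (n : ℕ) : Nm n = (n : ℤ) ^ 3 := by simp [Nm, nf]

theorem Nm_lin (s t : ℤ) : Nm ⟨s, -t, 0⟩ = fc s t := by simp only [Nm, nf, fc]; ring

theorem dvd_Nm (x : O) : x ∣ (Nm x : O) :=
  ⟨⟨x.a ^ 2 + 2 * x.a * x.c + x.c ^ 2 - x.b ^ 2 - x.b * x.c, x.c ^ 2 - x.a * x.b,
    x.b ^ 2 - x.a * x.c - x.c ^ 2⟩, by rw [O.intCast_eq]; ext <;> simp [Nm, nf] <;> ring⟩

theorem Nm_modEq {n : ℤ} {x y : O} (h : (n : O) ∣ x - y) : Nm x ≡ Nm y [ZMOD n] := by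
  obtain ⟨ha, hb, hc⟩ := (O.intCast_dvd n _).1 h
  simp only [O.sub_a, O.sub_b, O.sub_c] at ha hb hc
  have a := (Int.modEq_iff_dvd.2 ha).symm
  have b := (Int.modEq_iff_dvd.2 hb).symm
  have c := (Int.modEq_iff_dvd.2 hc).symm
  simp only [Nm, nf]
  gcongr

/-- the element of norm 49 -/
def mu : O := ⟨1, 4, 0⟩

theorem Nm_mu : Nm mu = 49 := by simp [Nm, nf, mu]

/-- the linear form that gives the last coordinate of a product -/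
def rv (x : O) : Fin 3 → ℤ := ![x.c, x.b, x.a + x.c]

theorem rv_dot (x y : O) : rv x ⬝ᵥ vec y = (x * y).c := by
  simp [rv, vec_apply, dotProduct, Fin.sum_univ_three]; ring

theorem exists_th : ∃ t : ℝ, 1.32 < t ∧ t < 1.33 ∧ t ^ 3 = t + 1 := by
  have h : (0 : ℝ) ∈ Set.Ioo ((fun t : ℝ => t ^ 3 - t - 1) 1.32) ((fun t : ℝ => t ^ 3 - t - 1) 1.33) := by
    constructor <;> norm_num
  obtain ⟨t, ht, e⟩ := intermediate_value_Ioo (by norm_num : (1.32 : ℝ) ≤ 1.33)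
    (f := fun t : ℝ => t ^ 3 - t - 1) (by fun_prop) h
  exact ⟨t, ht.1, ht.2, by linear_combination e⟩

/-- the real root -/
def thr : ℝ := exists_th.choose

theorem thr_gt : 1.32 < thr := exists_th.choose_spec.1
theorem thr_lt : thr < 1.33 := exists_th.choose_spec.2.1
theorem thr_cube : thr ^ 3 = thr + 1 := exists_th.choose_spec.2.2
theorem one_lt_thr : 1 < thr := by linarith [thr_gt]
theorem log_thr_pos : 0 < Real.log thr := Real.log_pos one_lt_thr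

/-- imaginary part of the complex root -/
def zim : ℝ := √(3 * thr ^ 2 - 4) / 2

theorem zim_sq : 4 * zim ^ 2 = 3 * thr ^ 2 - 4 := by
  have : 0 ≤ 3 * thr ^ 2 - 4 := by nlinarith [thr_gt]
  rw [zim, div_pow, Real.sq_sqrt this]; ring

theorem zim_pos : 0 < zim := by
  have : 0 < 3 * thr ^ 2 - 4 := by nlinarith [thr_gt]
  exact div_pos (Real.sqrt_pos.2 this) two_pos

/-- the complex root -/
def zt : ℂ := ⟨-thr / 2, zim⟩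

theorem zt_quad : zt ^ 2 + thr * zt + (thr ^ 2 - 1) = 0 := by
  have := zim_sq
  apply Complex.ext <;> simp [zt, pow_two] <;> nlinarith

theorem zt_cube : zt ^ 3 = zt + 1 := by
  have h : (thr : ℂ) ^ 3 = thr + 1 := by exact_mod_cast thr_cube
  linear_combination (zt - thr) * zt_quad + h

/-- the real embedding on real coordinates -/
def xv (v : Fin 3 → ℝ) : ℝ := v 0 + v 1 * thr + v 2 * thr ^ 2

/-- the complex embedding on real coordinates -/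
def zv (v : Fin 3 → ℝ) : ℂ := v 0 + v 1 * zt + v 2 * zt ^ 2

/-- the norm on real coordinates -/
def Nv (v : Fin 3 → ℝ) : ℝ := nf (v 0) (v 1) (v 2)

theorem Nv_eq (v : Fin 3 → ℝ) : Nv v = xv v * ‖zv v‖ ^ 2 := by
  have h := thr_cube
  have h2 := zim_sq
  have e1 : (zv v).re = v 0 - v 1 * thr / 2 + v 2 * (1 - thr ^ 2 / 2) := by
    simp [zv, zt, pow_two]; linear_combination (-v 2 / 4) * h2
  have e2 : (zv v).im = zim * (v 1 - v 2 * thr) := by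
    simp [zv, zt, pow_two]; ring
  rw [← Complex.normSq_eq_norm_sq, Complex.normSq_apply, e1, e2, Nv, nf, xv]
  generalize v 0 = a
  generalize v 1 = b
  generalize v 2 = c
  linear_combination (-(a + b * thr + c * thr ^ 2) * (b - c * thr) ^ 2 / 4) * h2 +
    (-b ^ 3 - c ^ 3 * thr ^ 3 + c ^ 3 * thr - c ^ 3 + 3 * a * b * c + b * c ^ 2) * h

/-- real coordinates -/
def rc (x : O) : Fin 3 → ℝ := fun i => (vec x i : ℝ)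

/-- the real embedding -/
def xr : O →+* ℝ where
  toFun x := xv (rc x)
  map_one' := by simp [xv, rc, vec_apply]
  map_zero' := by simp [xv, rc, vec_apply]
  map_add' x y := by simp [xv, rc, vec_apply]; ring
  map_mul' x y := by
    simp [xv, rc, vec_apply]
    linear_combination (-(x.b * y.c + x.c * y.b + x.c * y.c * thr)) * thr_cube

/-- the complex embedding -/
def zr : O →+* ℂ where
  toFun x := zv (rc x)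
  map_one' := by simp [zv, rc, vec_apply]
  map_zero' := by simp [zv, rc, vec_apply]
  map_add' x y := by simp [zv, rc, vec_apply]; ring
  map_mul' x y := by
    simp [zv, rc, vec_apply]
    linear_combination (-(x.b * y.c + x.c * y.b + x.c * y.c * zt)) * zt_cube

theorem xr_eq (x : O) : xr x = xv (rc x) := rfl
theorem zr_eq (x : O) : zr x = zv (rc x) := rfl
theorem xr_apply (x : O) : xr x = x.a + x.b * thr + x.c * thr ^ 2 := rfl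
theorem zr_apply (x : O) : zr x = x.a + x.b * zt + x.c * zt ^ 2 := by
  simp [zr_eq, zv, rc, vec_apply]
theorem xr_tO : xr tO = thr := by simp [xr_apply, tO]
theorem zr_tO : zr tO = zt := by simp [zr_apply, tO]
theorem Nv_rc (x : O) : Nv (rc x) = Nm x := by simp [Nv, Nm, nf, rc, vec_apply]

theorem Nm_eq (x : O) : (Nm x : ℝ) = xr x * ‖zr x‖ ^ 2 := by rw [← Nv_rc, Nv_eq]; rfl

theorem Nm_eq_zero {x : O} (h : Nm x = 0) : x = 0 := by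
  have key : ∀ a b c : ZMod 2, nf a b c = 0 → a = 0 ∧ b = 0 ∧ c = 0 := by
    simp only [nf]; decide
  have step : ∀ n : ℕ, ∀ x : O, Nm x = 0 → ((2 ^ n : ℤ) : O) ∣ x := by
    intro n
    induction n with
    | zero => simp
    | succ k ih =>
      intro x hx
      obtain ⟨a, b, c⟩ := key x.a x.b x.c (by
        have := congrArg (Int.cast : ℤ → ZMod 2) hx
        simpa [Nm, nf] using this)
      rw [ZMod.intCast_zmod_eq_zero_iff_dvd] at a b c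
      obtain ⟨y, rfl⟩ := (O.natCast_dvd 2 x).2 ⟨a, b, c⟩
      rw [Nm_mul, Nm_nat] at hx
      have := ih y ((mul_eq_zero.1 hx).resolve_left (by norm_num))
      rw [pow_succ', Int.cast_mul]
      exact mul_dvd_mul (by simp) this
  have fin : ∀ a : ℤ, (∀ n : ℕ, (2 : ℤ) ^ n ∣ a) → a = 0 := fun a ha => by
    refine Int.eq_zero_of_abs_lt_dvd (ha a.natAbs) ?_
    rw [Int.abs_eq_natAbs]
    exact_mod_cast Nat.lt_pow_self (by norm_num)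
  ext
  · exact fin _ fun n => ((O.intCast_dvd _ _).1 (step n x h)).1
  · exact fin _ fun n => ((O.intCast_dvd _ _).1 (step n x h)).2.1
  · exact fin _ fun n => ((O.intCast_dvd _ _).1 (step n x h)).2.2

instance : Nontrivial O := ⟨0, 1, fun h => by simpa using congrArg O.a h⟩

instance : NoZeroDivisors O := ⟨fun {x y} h => by
  have := congrArg Nm h
  rw [Nm_mul, show Nm 0 = 0 by simp [Nm, nf]] at this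
  exact (mul_eq_zero.1 this).imp Nm_eq_zero Nm_eq_zero⟩

instance : IsDomain O := NoZeroDivisors.to_isDomain O

theorem zr_ne {x : O} (h : x ≠ 0) : zr x ≠ 0 := fun e => h (Nm_eq_zero (by
  have := Nm_eq x
  rw [e] at this
  simpa using this))

theorem xr_ne {x : O} (h : x ≠ 0) : xr x ≠ 0 := fun e => h (Nm_eq_zero (by
  have := Nm_eq x
  rw [e] at this
  simpa using this))

theorem ne_of_xr_pos {x : O} (h : 0 < xr x) : x ≠ 0 := by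
  rintro rfl
  simp at h

theorem Nm_pos {x : O} (h : 0 < xr x) : 0 < Nm x := by
  have h1 := norm_pos_iff.2 (zr_ne (ne_of_xr_pos h))
  have : (0 : ℝ) < Nm x := by rw [Nm_eq]; positivity
  exact_mod_cast this

/-- position along the unit group, on real coordinates -/
def etv (v : Fin 3 → ℝ) : ℝ := Real.log (xv v ^ 2 / ‖zv v‖ ^ 2) / (3 * Real.log thr)

/-- position along the unit group -/
def eta (x : O) : ℝ := etv (rc x)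

theorem eta_eq (x : O) : eta x = Real.log (xr x ^ 2 / ‖zr x‖ ^ 2) / (3 * Real.log thr) := rfl

theorem eta_mul {x y : O} (hx : x ≠ 0) (hy : y ≠ 0) : eta (x * y) = eta x + eta y := by
  have a := xr_ne hx
  have b := xr_ne hy
  have c := norm_ne_zero_iff.2 (zr_ne hx)
  have d := norm_ne_zero_iff.2 (zr_ne hy)
  rw [eta_eq, eta_eq, eta_eq, ← add_div, ← Real.log_mul (by positivity) (by positivity), map_mul,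
    map_mul, norm_mul]
  congr 2
  field_simp

theorem norm_zt_sq : ‖zt‖ ^ 2 * thr = 1 := by
  have := Nm_eq tO
  rw [Nm_tO, xr_tO, zr_tO] at this
  rw [mul_comm]
  exact_mod_cast this.symm

theorem eta_tO : eta tO = 1 := by
  have h := norm_zt_sq
  have h0 : 0 < thr := by linarith [thr_gt]
  have e : thr ^ 2 / ‖zt‖ ^ 2 = thr ^ 3 := by
    rw [div_eq_iff (fun h' => by rw [h'] at h; simp at h)]
    linear_combination (-thr ^ 2) * h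
  rw [eta_eq, xr_tO, zr_tO, e, Real.log_pow]
  have := log_thr_pos
  field_simp
  norm_num

theorem eta_nat {n : ℕ} (h : n ≠ 0) : eta n = 0 := by
  have : (n : ℝ) ≠ 0 := by exact_mod_cast h
  rw [eta_eq, map_natCast, map_natCast, Complex.norm_natCast, div_self (by positivity)]
  simp

theorem xr_cube {x : O} (h : 0 < xr x) : xr x ^ 3 = Nm x * thr ^ (3 * eta x) := by
  have c := norm_pos_iff.2 (zr_ne (ne_of_xr_pos h))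
  have h0 : 0 < thr := by linarith [thr_gt]
  have := log_thr_pos
  rw [Real.rpow_def_of_pos h0, eta_eq, show Real.log thr * (3 * (Real.log (xr x ^ 2 / ‖zr x‖ ^ 2) /
    (3 * Real.log thr))) = Real.log (xr x ^ 2 / ‖zr x‖ ^ 2) by field_simp,
    Real.exp_log (by positivity), Nm_eq]
  field_simp

/-- coordinates are bounded by the embeddings -/
theorem norm_le_emb (v : Fin 3 → ℝ) : ‖v‖ ≤ 4 * (|xv v| + ‖zv v‖) := by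
  have h := thr_cube
  have h2 := zim_sq
  have g1 := thr_gt
  have g2 := thr_lt
  have z0 := zim_pos
  have z1 : 0.55 < zim := by nlinarith
  have e1 : (zv v).re = v 0 - v 1 * thr / 2 + v 2 * (1 - thr ^ 2 / 2) := by
    simp [zv, zt, pow_two]; linear_combination (-v 2 / 4) * h2
  have e2 : (zv v).im = zim * (v 1 - v 2 * thr) := by
    simp [zv, zt, pow_two]; ring
  have r1 := Complex.abs_re_le_norm (zv v)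
  have r2 := Complex.abs_im_le_norm (zv v)
  rw [e1] at r1
  rw [e2, abs_mul, abs_of_pos z0] at r2
  have hx : xv v = v 0 + v 1 * thr + v 2 * thr ^ 2 := rfl
  have n0 := norm_nonneg (zv v)
  have x0 := abs_nonneg (xv v)
  have x1 := le_abs_self (xv v)
  have x2 := neg_abs_le (xv v)
  generalize |xv v| = X at *
  generalize ‖zv v‖ = Z at *
  have r3 : |v 1 - v 2 * thr| ≤ 2 * Z := by
    have := mul_le_mul_of_nonneg_right z1.le (abs_nonneg (v 1 - v 2 * thr))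
    linarith
  obtain ⟨w, hw⟩ : ∃ w, w = v 1 - v 2 * thr := ⟨_, rfl⟩
  rw [← hw] at r3
  have hb : v 1 = w + v 2 * thr := by linarith
  have bd : ∀ t m M : ℝ, 0 ≤ m → m ≤ M → |t * m| ≤ |t| * M := fun t m M a b => by
    rw [abs_mul, abs_of_nonneg a]
    exact mul_le_mul_of_nonneg_left b (abs_nonneg t)
  have q1 : 1.74 < thr ^ 2 := by nlinarith only [g1]
  have q2 : thr ^ 2 < 1.77 := by nlinarith only [g1, g2]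
  have k' : v 2 * (3 * thr ^ 2 - 1) = xv v - (v 0 - v 1 * thr / 2 + v 2 * (1 - thr ^ 2 / 2)) -
      w * (3 * thr / 2) := by rw [hx, hb]; ring
  have t1 := bd w (3 * thr / 2) 2 (by linarith) (by linarith)
  have c1 : |v 2| ≤ X / 4 + 5 / 4 * Z := by
    have a : |v 2| * 4 ≤ |v 2 * (3 * thr ^ 2 - 1)| := by
      rw [abs_mul, abs_of_nonneg (by linarith : 0 ≤ 3 * thr ^ 2 - 1)]
      exact mul_le_mul_of_nonneg_left (by linarith) (abs_nonneg _)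
    have b : |v 2 * (3 * thr ^ 2 - 1)| ≤ X + 5 * Z := by
      rw [k', abs_le]
      rw [abs_le] at r1 t1
      constructor <;> linarith [r1.1, r1.2, t1.1, t1.2]
    linarith
  have c2 := bd (v 2) thr (4 / 3) (by linarith) (by linarith)
  have c3 : |v 1| ≤ X / 2 + 15 / 4 * Z := by
    have := abs_add_le w (v 2 * thr)
    rw [← hb] at this
    linarith
  have c4 := bd (v 1) (thr / 2) (2 / 3) (by linarith) (by linarith)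
  have c5 := bd (v 2) (1 - thr ^ 2 / 2) (1 / 5) (by linarith) (by linarith)
  have c6 : |v 0| ≤ X + 4 * Z := by
    rw [← mul_div_assoc] at c4
    have a1 := le_abs_self (v 1 * thr / 2)
    have a2 := neg_abs_le (v 1 * thr / 2)
    have a3 := le_abs_self (v 2 * (1 - thr ^ 2 / 2))
    have a4 := neg_abs_le (v 2 * (1 - thr ^ 2 / 2))
    rw [abs_le] at r1 ⊢
    constructor <;> linarith [r1.1, r1.2]
  refine (pi_norm_le_iff_of_nonneg (by positivity)).2 fun i => ?_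
  rw [Real.norm_eq_abs]
  fin_cases i
  · exact c6.trans (by linarith)
  · exact c3.trans (by linarith)
  · exact c1.trans (by linarith)

theorem finite_reg (T y : ℝ) : {x : O | 0 < xr x ∧ |eta x| ≤ T ∧ (Nm x : ℝ) ≤ y}.Finite := by
  have h0 : 0 < thr := by linarith [thr_gt]
  obtain ⟨K, hK⟩ : ∃ K : ℕ, 4 * ((1 + y * thr ^ (3 * T)) + (1 + y * thr ^ (3 * T) * y)) ≤ K :=
    exists_nat_ge _
  refine Set.Finite.subset ((Fintype.piFinset fun _ : Fin 3 => Finset.Icc (-K : ℤ) K).finite_toSet.preimage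
    vec.injective.injOn) ?_
  rintro x ⟨hx, he, hN⟩
  have n1 : (1 : ℝ) ≤ Nm x := by exact_mod_cast Nm_pos hx
  have e := xr_cube hx
  rw [abs_le] at he
  have p1 : thr ^ (3 * eta x) ≤ thr ^ (3 * T) :=
    Real.rpow_le_rpow_of_exponent_le one_lt_thr.le (by linarith [he.2])
  have p2 : thr ^ (-(3 * T)) ≤ thr ^ (3 * eta x) :=
    Real.rpow_le_rpow_of_exponent_le one_lt_thr.le (by linarith [he.1])
  have p0 := Real.rpow_pos_of_pos h0 (3 * eta x)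
  have p3 := Real.rpow_pos_of_pos h0 (3 * T)
  have p4 : 1 ≤ thr ^ (3 * T) * thr ^ (3 * eta x) := by
    rw [Real.rpow_neg h0.le, inv_le_iff_one_le_mul₀' p3] at p2
    exact p2
  have p5 : 1 ≤ thr ^ (3 * T) := Real.one_le_rpow one_lt_thr.le (by linarith [he.1, he.2])
  generalize thr ^ (3 * T) = A at *
  generalize thr ^ (3 * eta x) = E at *
  have a1 : xr x ≤ 1 + y * A := by
    have : xr x ^ 3 ≤ y * A := by rw [e]; gcongr; linarith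
    nlinarith [sq_nonneg (xr x - 1), sq_nonneg (xr x + 1), mul_pos hx hx]
  have a2 : 1 ≤ A * xr x := by
    by_contra hc
    rw [not_le] at hc
    have : (A * xr x) ^ 3 < 1 := pow_lt_one₀ (by positivity) hc (by norm_num)
    have b : (A * xr x) ^ 3 = A ^ 2 * Nm x * (A * E) := by rw [mul_pow, e]; ring
    have c : 1 ≤ A ^ 2 * Nm x * (A * E) :=
      one_le_mul_of_one_le_of_one_le (one_le_mul_of_one_le_of_one_le (one_le_pow₀ p5) n1) p4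
    linarith
  have a3 : ‖zr x‖ ≤ 1 + y * A * y := by
    have b := Nm_eq x
    have z0 := norm_nonneg (zr x)
    have c : ‖zr x‖ ^ 2 ≤ y * A := by nlinarith [sq_nonneg ‖zr x‖]
    have d : y * A ≤ y * A * y := le_mul_of_one_le_right (by nlinarith) (by linarith)
    nlinarith [sq_nonneg (‖zr x‖ - 1)]
  have a4 := norm_le_emb (rc x)
  rw [← xr_eq, ← zr_eq, abs_of_pos hx] at a4
  simp only [Set.mem_preimage, Finset.mem_coe, Fintype.mem_piFinset, Finset.mem_Icc]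
  intro i
  have a5 : |(vec x i : ℝ)| ≤ K := (norm_le_pi_norm (rc x) i).trans (by linarith)
  rw [abs_le] at a5
  exact ⟨by exact_mod_cast a5.1, by exact_mod_cast a5.2⟩

/-- fundamental domain for the units -/
def Dm (s : ℝ) (x : O) : Prop := 0 < xr x ∧ s ≤ eta x ∧ eta x < s + 1

theorem finite_Dn (s : ℝ) (n : ℕ) : {x : O | Dm s x ∧ Nm x = n}.Finite :=
  (finite_reg (|s| + 1) n).subset fun x hx => ⟨hx.1.1, abs_le.2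
    ⟨by linarith [hx.1.2.1, neg_abs_le s], by linarith [hx.1.2.2, le_abs_self s]⟩, by
      rw [hx.2]; simp⟩

/-- elements of norm n in the fundamental domain -/
def Dn (s : ℝ) (n : ℕ) : Finset O := (finite_Dn s n).toFinset

theorem mem_Dn {s : ℝ} {n : ℕ} {x : O} : x ∈ Dn s n ↔ Dm s x ∧ Nm x = n := by simp [Dn]

/-- elements of bounded position with norm in an interval -/
def Rg (T y₁ y₂ : ℝ) : Finset O :=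
  ((finite_reg T y₂).subset (t := {x : O | 0 < xr x ∧ |eta x| ≤ T ∧ y₁ < Nm x ∧ (Nm x : ℝ) ≤ y₂})
    fun _ hx => ⟨hx.1, hx.2.1, hx.2.2.2⟩).toFinset

theorem mem_Rg {T y₁ y₂ : ℝ} {x : O} :
    x ∈ Rg T y₁ y₂ ↔ 0 < xr x ∧ |eta x| ≤ T ∧ y₁ < Nm x ∧ (Nm x : ℝ) ≤ y₂ := by simp [Rg]

end Pool.Agent.MP_adc87d_lc.Big

end
end

section

/-! Two primes represented by the cubic form: definitions and statements of the steps. -/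

set_option autoImplicit false

noncomputable section

open Finset
open scoped Classical

namespace Pool.Agent.MP_adc87d_lc.Big

open Pool.Agent.MP_2a1f0e_nt (ex)

/-! ### Arithmetic of the ring -/

/-- primitive vectors -/
def Prim (v : Fin 3 → ℤ) : Prop := ∀ l : ℕ, l.Prime → ¬∀ i, (l : ℤ) ∣ v i

/-- unique factorisation and units -/
def AlgStmt : Prop :=
  IsPrincipalIdealRing O ∧ (∀ u : O, IsUnit u ↔ Nm u = 1 ∨ Nm u = -1) ∧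
  (∀ u : O, IsUnit u → ∃ n : ℤ, u = (tU ^ n : Oˣ) ∨ u = -(tU ^ n : Oˣ)) ∧
  (∀ (s : ℝ) (x y : O), Dm s x → Dm s y → Associated x y → x = y) ∧
  (∀ (s : ℝ) (x : O), 0 < xr x → ∃ n : ℤ, Dm s ((tU ^ n : Oˣ) * x)) ∧
  (∀ (n : ℤ) (x : O), x ≠ 0 → eta ((tU ^ n : Oˣ) * x) = eta x + n ∧
    Nm ((tU ^ n : Oˣ) * x) = Nm x ∧ (0 < xr ((tU ^ n : Oˣ) * x) ↔ 0 < xr x)) ∧
  Dn 0 1 = {1} ∧
  ∀ (s : ℝ) (n : ℕ) (F : O → ℂ), (∀ x, 0 < xr x → F (tO * x) = F x) →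
    ∑ x ∈ Dn s n, F x = ∑ x ∈ Dn 0 n, F x

/-- primes of degree one -/
def SplitStmt : Prop :=
  ∀ p : ℕ, p.Prime → (Dn 0 p).card ≤ 3 ∧
    (p % 3 = 1 → ¬IsSquare (p : ZMod 23) → (Dn 0 p).Nonempty) ∧
    (p ≠ 23 → IsSquare (p : ZMod 23) → (Dn 0 p).Nonempty → (Dn 0 p).card = 3 ∧
      ∃ n : ℤ, ∏ x ∈ Dn 0 p, x = (tU ^ n : Oˣ) * (p : O)) ∧
    ∀ x : O, Nm x = p → Prime x ∧ Prim (vec x) ∧ (p ≠ 7 → Prim (rv (mu * x)) ∧ IsCoprime mu x) ∧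
      ∃ ν : ℤ, (p : ℤ) ∣ fc ν 1 ∧ ∀ s t : ℤ, (p : ℤ) ∣ s - ν * t → x ∣ ⟨s, -t, 0⟩

/-- the argument of the complex embedding -/
def ang (x : O) : ℝ := Complex.arg (zr x) / (2 * Real.pi)

/-- sizes, diameters and the trivial count -/
def SzStmt : Prop :=
  ∀ T : ℝ, ∃ c : ℝ, 1 ≤ c ∧
    (∀ x : O, 0 < xr x → |eta x| ≤ T →
      (Nm x : ℝ) ≤ (c * ‖vec x‖) ^ 3 ∧ ‖vec x‖ ^ 3 ≤ c ^ 3 * Nm x ∧
        ‖rv x‖ ≤ 2 * ‖vec x‖ ∧ ‖vec x‖ ≤ 2 * ‖rv x‖) ∧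
    (∀ (x y : O) (R δ : ℝ) (j : ℤ), 0 < R → 0 < xr x → 0 < xr y → |eta x| ≤ T → |eta y| ≤ T →
      R ^ 3 ≤ Nm x → (Nm x : ℝ) ≤ 2 * R ^ 3 → R ^ 3 ≤ Nm y → (Nm y : ℝ) ≤ 2 * R ^ 3 →
      |(Nm x : ℝ) - Nm y| ≤ δ * R ^ 3 → |eta x - eta y| ≤ δ → |ang x - ang y - j| ≤ δ →
      ‖vec x - vec y‖ ≤ c * δ * R) ∧
    ∀ y₁ y₂ : ℝ, 0 ≤ y₂ → ((Rg T y₁ y₂).card : ℝ) ≤ c * y₂

/-! ### Sums over norms -/

/-- the archimedean character on real coordinates -/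
def arv (σ : ℝ) (m : ℤ) (v : Fin 3 → ℝ) : ℂ := ex (σ * etv v) * (zv v / ‖zv v‖) ^ m

/-- the archimedean character -/
def ar (σ : ℝ) (m : ℤ) (x : O) : ℂ := arv σ m (rc x)

/-- tent function -/
def tent (u : ℝ) : ℝ := max 0 (1 - |u|)

/-- clamp to the unit interval -/
def clp (u : ℝ) : ℝ := max 0 (min 1 u)

/-- cutoff in the norm -/
def rmp (y U N : ℝ) : ℝ := clp ((N - U) / U) * clp ((y + U - N) / U)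

/-- the smooth weight -/
def Wt (σ : ℝ) (m : ℤ) (y U : ℝ) (v : Fin 3 → ℝ) : ℂ :=
  if 0 < xv v then ((tent (etv v) * rmp y U (Nv v) : ℝ) : ℂ) * arv σ m v else 0

def GeoStmt : Prop :=
  ∃ C : ℝ, 1 ≤ C ∧ ∀ (σ : ℝ) (m : ℤ) (y R : ℝ), 1 ≤ R → y ≤ 4 * R ^ 6 →
    (∀ v, ‖Wt σ m y (R ^ 5) v‖ ≤ 1) ∧ (∀ v, Wt σ m y (R ^ 5) v ≠ 0 → ‖v‖ ≤ C * R ^ 2) ∧
    ∀ v w, ‖Wt σ m y (R ^ 5) v - Wt σ m y (R ^ 5) w‖ ≤ C * (1 + |σ| + |(m : ℝ)|) / R * ‖v - w‖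

/-- the cube of residues -/
def Cu (M : ℕ) : Finset (Fin 3 → ℤ) := Fintype.piFinset fun _ => Ico (0 : ℤ) M

/-- periodic functions on the lattice -/
def PerV (M : ℕ) (F : (Fin 3 → ℤ) → ℂ) : Prop :=
  ∀ v w, (∀ i, (M : ℤ) ∣ v i - w i) → F v = F w

/-- lattice sums and integrals -/
def LatStmt : Prop :=
  ∃ C : ℝ, 1 ≤ C ∧ ∀ (M : ℕ) (F : (Fin 3 → ℤ) → ℂ) (W : (Fin 3 → ℝ) → ℂ) (Λ R : ℝ)
    (S : Finset (Fin 3 → ℤ)), 1 ≤ M → PerV M F → (∀ v, ‖F v‖ ≤ 1) → 0 ≤ Λ → 0 ≤ R →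
    (∀ v, W v ≠ 0 → ‖v‖ ≤ R) → (∀ v w, ‖W v - W w‖ ≤ Λ * ‖v - w‖) →
    (∀ v : Fin 3 → ℤ, W (fun i => v i) ≠ 0 → v ∈ S) →
    ‖∑ v ∈ S, F v * W (fun i => v i) - (∑ v ∈ Cu M, F v) / (M : ℂ) ^ 3 * ∫ v, W v‖ ≤
      C * M * Λ * (R + M) ^ 3

/-- the integrals -/
def IntStmt : Prop :=
  ∃ κ : ℝ, 0 < κ ∧ ∀ y R : ℝ, 1 ≤ R → 0 ≤ y → y ≤ 4 * R ^ 6 →
    ‖(∫ v, Wt 0 0 y (R ^ 5) v) - κ * y‖ ≤ 3 * κ * R ^ 5 ∧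
    ∀ (σ : ℝ) (m : ℤ), (σ ≠ 0 ∨ m ≠ 0) → ar σ m tO = 1 → ∫ v, Wt σ m y (R ^ 5) v = 0

/-- periodic functions -/
def Per (M : ℕ) (F : O → ℂ) : Prop := ∀ x y, (M : O) ∣ x - y → F x = F y

/-- mean value of a periodic function -/
def mean (M : ℕ) (F : O → ℂ) : ℂ := (∑ v ∈ Cu M, F (vec.symm v)) / (M : ℂ) ^ 3

/-- sums of periodic functions against archimedean characters -/
def PSP (κ C : ℝ) : Prop :=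
  ∀ (M : ℕ) (F : O → ℂ) (σ : ℝ) (m : ℤ) (y : ℝ), 1 ≤ M → Per M F → (∀ x, ‖F x‖ ≤ 1) →
    (∀ x, F (tO * x) * ar σ m tO = F x) → 1 ≤ y →
    ‖∑ n ∈ Icc 1 ⌊y⌋₊, ∑ x ∈ Dn 0 n, F x * ar σ m x -
      (if σ = 0 ∧ m = 0 then κ * mean M F * y else 0)‖ ≤
      C * M * (1 + |σ| + |(m : ℝ)|) * y ^ (5 / 6 : ℝ)

def PSStmt : Prop := ∃ κ C : ℝ, 0 < κ ∧ 1 ≤ C ∧ PSP κ C

/-- properties of mean values -/
def MeanStmt : Prop :=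
  (∀ (M : ℕ) (F : O → ℂ) (g : O), 1 ≤ M → Per M F → IsCoprime (Nm g) M →
    mean M (fun x => F (g * x)) = mean M F) ∧
  (∀ (M d : ℕ) (F G : O → ℂ), 1 ≤ M → 1 ≤ d → M.Coprime d → Per M F → Per d G →
    mean (M * d) (fun x => F x * G x) = mean M F * mean d G) ∧
  (∀ (M : ℕ) (F : O → ℂ), 1 ≤ M → (∀ x, ‖F x‖ ≤ 1) → ‖mean M F‖ ≤ 1) ∧
  ∀ l : ℕ, l.Prime → l ≠ 3 → ∃ ν : ℝ, 0 ≤ ν ∧ ν ≤ 3 / l ∧ ν ≤ 3 / 5 ∧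
    mean l (fun x => if (l : ℤ) ∣ Nm x then 1 else 0) = ν

/-! ### Characters -/

/-- data of a character -/
structure Chr where
  M : ℕ
  φ : O → ℂ
  σ : ℝ
  m : ℤ

/-- finite order part -/
structure IsFin (M : ℕ) (φ : O → ℂ) : Prop where
  pos : 1 ≤ M
  mul : ∀ x y, φ (x * y) = φ x * φ y
  one : φ 1 = 1
  per : Per M φ
  unit : ∀ x, IsCoprime (Nm x) M → ‖φ x‖ = 1
  zero : ∀ x, ¬IsCoprime (Nm x) M → φ x = 0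

/-- characters of the ideals -/
def Chr.Is (Ψ : Chr) : Prop := IsFin Ψ.M Ψ.φ ∧ Ψ.φ tO * ar Ψ.σ Ψ.m tO = 1

/-- value of a character -/
def Chr.val (Ψ : Chr) (x : O) : ℂ := Ψ.φ x * ar Ψ.σ Ψ.m x

/-- analytic conductor -/
def Chr.cond (Ψ : Chr) : ℝ := Ψ.M * (1 + |Ψ.σ| + |(Ψ.m : ℝ)|)

/-- nontrivial characters -/
def Chr.NT (Ψ : Chr) : Prop :=
  (∃ g, IsCoprime (Nm g) Ψ.M ∧ Ψ.φ g ≠ 1) ∨ Ψ.σ ≠ 0 ∨ Ψ.m ≠ 0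

/-- twist by a Dirichlet character of the norm -/
def Chr.tw (Ψ : Chr) {q : ℕ} (χ : DirichletCharacter ℂ q) : Chr :=
  ⟨Ψ.M, fun x => Ψ.φ x * χ (Nm x : ZMod q), Ψ.σ, Ψ.m⟩

/-- all twists are nontrivial -/
def Chr.Gen (Ψ : Chr) (q : ℕ) : Prop := ∀ χ : DirichletCharacter ℂ q, (Ψ.tw χ).NT

/-- on the integers the character has modulus q -/
def Chr.Pq (Ψ : Chr) (q : ℕ) : Prop :=
  ∃ χ : DirichletCharacter ℂ q, ∀ n : ℤ, IsCoprime n Ψ.M → Ψ.φ n = χ (n : ZMod q)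

/-- trivial on the integers -/
def Chr.Pj (Ψ : Chr) : Prop := ∀ n : ℤ, IsCoprime n Ψ.M → Ψ.φ n = 1

/-- norm congruent to plus or minus one modulo nine -/
def N9 (x : O) : Prop := Nm x % 9 = 1 ∨ Nm x % 9 = 8

/-- not exceptional -/
def Chr.NE (Ψ : Chr) : Prop :=
  (∃ g, IsCoprime (Nm g) Ψ.M ∧ N9 g ∧ Ψ.φ g ≠ 1) ∨ Ψ.σ ≠ 0 ∨ Ψ.m ≠ 0

/-- Dirichlet coefficients -/
def Chr.a (Ψ : Chr) (n : ℕ) : ℂ := ∑ x ∈ Dn 0 n, Ψ.val x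

/-- elementary properties of characters -/
def ChStmt : Prop :=
  (∀ (σ : ℝ) (m : ℤ) (x y : O), x ≠ 0 → y ≠ 0 → ar σ m (x * y) = ar σ m x * ar σ m y) ∧
  (∀ (σ : ℝ) (m : ℤ) (x : O), x ≠ 0 → ‖ar σ m x‖ = 1 ∧ ar σ m x = ex (σ * eta x) * ex (m * ang x)) ∧
  (∀ (σ : ℝ) (m : ℤ) (n : ℕ), n ≠ 0 → ar σ m n = 1) ∧ (∀ x, ar 0 0 x = 1) ∧
  (∀ (σ σ' : ℝ) (m m' : ℤ) (x : O), x ≠ 0 → ar (σ + σ') (m + m') x = ar σ m x * ar σ' m' x) ∧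
  (∀ Ψ : Chr, Ψ.Is → (∀ x y, x ≠ 0 → y ≠ 0 → Ψ.val (x * y) = Ψ.val x * Ψ.val y) ∧
    (∀ x, ‖Ψ.val x‖ ≤ 1) ∧ Ψ.val 1 = 1 ∧ (∀ n : ℤ, Ψ.val (tU ^ n : Oˣ) = 1) ∧ 1 ≤ Ψ.cond) ∧
  (∀ (Ψ : Chr) (q : ℕ) (χ : DirichletCharacter ℂ q), Ψ.Is → q ∣ Ψ.M → (Ψ.tw χ).Is ∧
    (∀ n : ℕ, (Ψ.tw χ).a n = χ (n : ZMod q) * Ψ.a n) ∧ (Ψ.Gen q → (Ψ.tw χ).Gen q) ∧
    (Ψ.Pq q → (Ψ.tw χ).Pq q) ∧ (Ψ.Pj → Ψ.Pq q) ∧ (Ψ.Gen q → Ψ.NT)) ∧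
  (∀ (Ψ : Chr) (k : ℕ), 2 ≤ k → Ψ.Is → 23 * 3 ^ k ∣ Ψ.M → Ψ.Pj → Ψ.NE → Ψ.Gen (23 * 3 ^ k)) ∧
  ∀ (M : ℕ) (φ : O → ℂ) (m : ℤ), IsFin M φ → ∃ σ : ℝ, 0 ≤ σ ∧ σ ≤ 1 ∧
    ∀ j : ℤ, (⟨M, φ, σ + j, m⟩ : Chr).Is

/-- the logarithmic derivative -/
def ConvO : Prop :=
  ∀ Ψ : Chr, Ψ.Is → ∃ b : ℕ → ℂ, (∀ n, ‖b n‖ ≤ 3 * ArithmeticFunction.vonMangoldt n) ∧
    ∀ n : ℕ, n ≠ 0 → Ψ.a n * Real.log n = ∑ x ∈ n.divisorsAntidiagonal, b x.1 * Ψ.a x.2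

/-! ### Dirichlet series -/

/-- sequences that behave like coefficients of L-functions -/
structure LG (a b : ℕ → ℂ) (c : ℂ) (A Q : ℝ) : Prop where
  one : a 1 = 1
  abs : ∀ y : ℝ, 1 ≤ y → ∑ n ∈ Icc 1 ⌊y⌋₊, ‖a n‖ ≤ A * y
  res : ‖c‖ ≤ A
  err : ∀ y : ℝ, 1 ≤ y → ‖∑ n ∈ Icc 1 ⌊y⌋₊, a n - c * y‖ ≤ Q * y ^ (5 / 6 : ℝ)
  bd : ∀ n, ‖b n‖ ≤ 3 * ArithmeticFunction.vonMangoldt n
  conv : ∀ n : ℕ, n ≠ 0 → a n * Real.log n = ∑ x ∈ n.divisorsAntidiagonal, b x.1 * a x.2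

/-- continuation and growth -/
def An1Stmt : Prop :=
  ∀ A η : ℝ, 1 ≤ A → 0 < η → ∃ ε C : ℝ, 0 < ε ∧ ε ≤ 1 / 12 ∧ 1 ≤ C ∧
    ∀ (a b : ℕ → ℂ) (c : ℂ) (Q : ℝ), 1 ≤ Q → LG a b c A Q → ∃ h : ℂ → ℂ,
      DifferentiableOn ℂ h {s | 5 / 6 < s.re} ∧
      (∀ s : ℂ, 1 < s.re → LSeries a s = c / (s - 1) + h s) ∧
      ∀ s : ℂ, 1 - ε ≤ s.re → ‖h s‖ ≤ C * (Q * (‖s‖ + 1)) ^ η ∧
        ‖deriv h s‖ ≤ C * (Q * (‖s‖ + 1)) ^ η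

/-- the sum over primes -/
def PSum (a : ℕ → ℂ) (s : ℂ) : ℂ := ∑' p : Nat.Primes, a p * ((p : ℕ) : ℂ) ^ (-s)

/-- logarithm and logarithmic derivative -/
def An2Stmt : Prop :=
  ∃ C₀ : ℝ, ∀ (a b : ℕ → ℂ) (c : ℂ) (A Q : ℝ), LG a b c A Q →
    (∀ p : ℕ, p.Prime → b p = a p * Real.log p ∧ ‖a p‖ ≤ 3) ∧ ∀ s : ℂ, 1 < s.re →
    LSeries a s ≠ 0 ∧ |Real.log ‖LSeries a s‖ - (PSum a s).re| ≤ C₀ ∧
      (Summable fun p : Nat.Primes => a p * ((p : ℕ) : ℂ) ^ (-s)) ∧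
      LSeries b s = -logDeriv (LSeries a) s

/-- the inequality 3 + 4 cos t + cos 2t >= 0 -/
def P341 (a₀ a a₂ : ℕ → ℂ) : Prop :=
  ∀ p : ℕ, p.Prime → ∀ w : ℂ, ‖w‖ = 1 → 0 ≤ (3 * a₀ p + 4 * (a p * w) + a₂ p * w ^ 2).re

/-- a sequence with known growth -/
def LQ (a : ℕ → ℂ) (A Q : ℝ) : Prop := ∃ b c, LG a b c A Q

/-- a sequence without pole -/
def LZ (a : ℕ → ℂ) (A Q : ℝ) : Prop := ∃ b, LG a b 0 A Q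

/-- the two sources of positivity -/
def Pos (a : ℕ → ℂ) (A Q : ℝ) : Prop :=
  ∃ a₀ a₂, LQ a₀ A A ∧ P341 a₀ a a₂ ∧ (LZ a₂ A Q ∨ (LQ a₂ A Q ∧ ∃ a₁ a₃ a₄ a₅, LZ a₁ A Q ∧
    LZ a₃ A Q ∧ LZ a₄ A Q ∧ LZ a₅ A Q ∧ ∀ p : ℕ, p.Prime →
      0 ≤ (2 * a₀ p + 2 * a₁ p + 3 * (a p + a₃ p + a₄ p + a₅ p)).re))

/-- lower bounds to the right of the line -/
def ZLStmt : Prop :=
  ∀ A η : ℝ, 1 ≤ A → 0 < η → ∃ c : ℝ, 0 < c ∧ ∀ (a : ℕ → ℂ) (Q T r t : ℝ), 1 ≤ Q → 1 ≤ T →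
    LZ a A Q → Pos a A Q → 0 < r → r ≤ c * (Q * T) ^ (-η) → |t| ≤ T →
    c * r ^ (15 / 16 : ℝ) * (Q * T) ^ (-(η / 64)) ≤ ‖LSeries a (((1 + r : ℝ) : ℂ) + t * Complex.I)‖

/-- the zero free region -/
def ZAStmt : Prop :=
  ∀ A ε : ℝ, 1 ≤ A → 0 < ε → ∃ c : ℝ, 0 < c ∧ c ≤ 1 / 12 ∧ ∀ (a : ℕ → ℂ) (Q : ℝ), 1 ≤ Q →
    LZ a A Q → Pos a A Q → ∃ F : ℂ → ℂ, DifferentiableOn ℂ F {s | 5 / 6 < s.re} ∧
      (∀ s : ℂ, 1 < s.re → F s = LSeries a s) ∧ ∀ T : ℝ, 1 ≤ T → ∀ s : ℂ,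
        |s.re - 1| ≤ c * (Q * T) ^ (-ε) → |s.im| ≤ T →
        F s ≠ 0 ∧ ‖logDeriv F s‖ ≤ (Q * T) ^ ε / c

/-- cancellation in the sum over primes -/
def SWAStmt : Prop :=
  ∀ (A : ℝ) (E B : ℕ), 1 ≤ A → ∃ x₀ : ℝ, ∀ x ≥ x₀, ∀ (a : ℕ → ℂ) (Q : ℝ), 1 ≤ Q →
    Q ≤ Real.log x ^ B → LZ a A Q → Pos a A Q →
    ‖∑ p ∈ (Icc 1 ⌊x⌋₊).filter Nat.Prime, a p * Real.log p‖ ≤ x / Real.log x ^ E

/-- characters give such sequences -/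
def LGStmt : Prop :=
  ∃ A : ℝ, 1 ≤ A ∧ ∀ Ψ : Chr, Ψ.Is → LQ Ψ.a A (A * Ψ.cond) ∧ (Ψ.NT → LZ Ψ.a A (A * Ψ.cond))

/-- positivity for characters -/
def ZBStmt : Prop :=
  ∃ A : ℝ, 1 ≤ A ∧ ∀ (Ψ : Chr) (q : ℕ), Ψ.Is → 23 ∣ q → q ∣ Ψ.M → Ψ.Pq q → Ψ.Gen q →
    LZ Ψ.a A (A * Ψ.cond) ∧ Pos Ψ.a A (A * Ψ.cond)

/-- the Siegel-Walfisz estimate -/
def SWStmt : Prop :=
  ∀ k E B : ℕ, 2 ≤ k → ∃ x₀ : ℝ, ∀ x ≥ x₀, ∀ Ψ : Chr, Ψ.Is → 23 * 3 ^ k ∣ Ψ.M →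
    Ψ.cond ≤ Real.log x ^ B → Ψ.Pj → Ψ.NE →
    ‖∑ p ∈ (Icc 1 ⌊x⌋₊).filter fun p => p.Prime ∧ Lo k p, Ψ.a p * Real.log p‖ ≤
      x / Real.log x ^ E

/-! ### Sieves -/

/-- the fundamental lemma -/
def SvStmt : Prop :=
  ∀ (E B : ℕ) (θ : ℝ), 0 < θ → ∃ L₀ : ℝ, ∀ L ≥ L₀, ∀ (Ω : Type) (S : Finset Ω) (G : Ω → ℝ)
    (I : Finset ℕ) (y : ℕ → Ω → Prop) (ν : ℕ → ℝ) (A R T : ℝ), (∀ ω ∈ S, 0 ≤ G ω) →
    (∀ l ∈ I, l.Prime ∧ (l : ℝ) ≤ L ^ B ∧ 0 ≤ ν l ∧ ν l ≤ 3 / l ∧ ν l ≤ 3 / 5) → 0 ≤ A → A ≤ T →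
    0 ≤ R → R ≤ T * Real.exp (-θ * L) →
    (∀ J ⊆ I, |∑ ω ∈ S.filter fun ω => ∀ l ∈ J, y l ω, G ω - A * ∏ l ∈ J, ν l| ≤
      (∏ l ∈ J, (l : ℝ)) ^ 2 * R) →
    |∑ ω ∈ S.filter fun ω => ∀ l ∈ I, ¬y l ω, G ω - A * ∏ l ∈ I, (1 - ν l)| ≤ T / L ^ E ∧
      1 / L ≤ ∏ l ∈ I, (1 - ν l)

/-- elements that survive the sieve -/
def Rough (z : ℝ) (x : O) : Prop :=
  (∀ l : ℕ, l.Prime → (l : ℝ) ≤ z → ¬(l : ℤ) ∣ Nm x) ∧ Prim (vec x) ∧ N9 x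

/-- cancellation over rough elements -/
def BrStmt : Prop :=
  ∀ E B : ℕ, ∃ x₀ : ℝ, ∀ x ≥ x₀, ∀ (Ψ : Chr) (z : ℝ), Ψ.Is → 9 ∣ Ψ.M → Ψ.NE → (Ψ.M : ℝ) ≤ z →
    Ψ.cond ≤ Real.log x ^ B → Real.log x ^ (E + 1) ≤ z → z ≤ Real.log x ^ B →
    ‖∑ n ∈ Icc 1 ⌊x⌋₊, ∑ y ∈ (Dn 0 n).filter (Rough z), Ψ.val y‖ ≤ x / Real.log x ^ E

/-! ### Equidistribution -/

/-- weight on the good primes -/
def dd (k : ℕ) (x : O) : ℝ :=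
  if (Nm x).natAbs.Prime ∧ Lo k (Nm x).natAbs then Real.log (Nm x) else 0

/-- primes minus the sieve model -/
def ff (k : ℕ) (z w : ℝ) (x : O) : ℝ := dd k x - if Rough z x then w else 0

/-- the model has the same mass, and all characters cancel -/
def BalStmt : Prop :=
  ∀ k : ℕ, 2 ≤ k → ∃ c : ℝ, 0 < c ∧ ∀ a b : ℕ, ∃ V₀ : ℝ, ∀ V ≥ V₀, ∀ z y₁ y₂ : ℝ,
    Real.log V ^ (a + 4) ≤ z → z ≤ Real.log V ^ b → V ≤ y₁ → y₂ ≤ 2 * V →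
    V / Real.log V ^ a ≤ y₂ - y₁ → ∃ w : ℝ, c ≤ w ∧ w ≤ 2 * Real.log V ∧
      ∀ Ψ : Chr, Ψ.Is → 23 * 3 ^ k ∣ Ψ.M → Ψ.cond ≤ Real.log V ^ a → Ψ.Pj →
        ‖∑ n ∈ Ioc ⌊y₁⌋₊ ⌊y₂⌋₊, ∑ x ∈ Dn 0 n, (ff k z w x : ℂ) * Ψ.val x‖ ≤ V / Real.log V ^ a

/-- approximation by trigonometric polynomials -/
def ApStmt : Prop :=
  ∀ (u : ℝ → ℂ) (Λ : ℝ) (N : ℕ), 1 ≤ N → 0 ≤ Λ → (∀ x, u (x + 1) = u x) → (∀ x, ‖u x‖ ≤ 1) →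
    (∀ x y, ‖u x - u y‖ ≤ Λ * |x - y|) → ∃ c : ℤ → ℂ, (∀ j, ‖c j‖ ≤ 1) ∧
      ∀ x, ‖u x - ∑ j ∈ Icc (-(N : ℤ) ^ 3) (N ^ 3), c j * ex (j * x)‖ ≤ (Λ + 1) / N

/-- weights along the unit group -/
def IsH1 (s Λ : ℝ) (h : ℝ → ℝ) : Prop :=
  (∀ x, 0 ≤ h x ∧ h x ≤ 1) ∧ (∀ x y, |h x - h y| ≤ Λ * |x - y|) ∧
    ∀ x, h x ≠ 0 → s + 1 / 4 ≤ x ∧ x ≤ s + 3 / 4

/-- weights on the circle -/
def IsH2 (Λ : ℝ) (h : ℝ → ℝ) : Prop :=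
  (∀ x, 0 ≤ h x ∧ h x ≤ 1) ∧ (∀ x y, |h x - h y| ≤ Λ * |x - y|) ∧ ∀ x, h (x + 1) = h x

/-- partitions of unity -/
def PartStmt : Prop :=
  ∀ T n : ℕ, 4 ≤ n → ∃ (h₁ : Fin (2 * T * n + 1) → ℝ → ℝ) (s : Fin (2 * T * n + 1) → ℝ)
    (h₂ : Fin n → ℝ → ℝ), (∀ i, IsH1 (s i) n (h₁ i) ∧ -((T : ℝ) + 1) ≤ s i ∧ s i + 1 ≤ T + 1 ∧
      ∀ x y, h₁ i x ≠ 0 → h₁ i y ≠ 0 → |x - y| ≤ 2 / n) ∧
    (∀ x, ∑ i, h₁ i x ≤ 1 ∧ (|x| ≤ T → ∑ i, h₁ i x = 1)) ∧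
    (∀ i, IsH2 n (h₂ i) ∧ ∀ x y, h₂ i x ≠ 0 → h₂ i y ≠ 0 → ∃ j : ℤ, |x - y - j| ≤ 2 / n) ∧
    ∀ x, ∑ i, h₂ i x = 1

/-- functions on projective space modulo M -/
def Proj (M : ℕ) (T : O → ℂ) : Prop :=
  Per M T ∧ (∀ (n : ℤ) (x : O), IsCoprime n M → T (n * x) = T x) ∧ ∀ x, ‖T x‖ ≤ 1

/-- finite Fourier expansion -/
def FourStmt : Prop :=
  ∀ (M : ℕ) (T : O → ℂ), 1 ≤ M → Proj M T → ∃ (r : ℕ) (φ : Fin r → O → ℂ) (c : Fin r → ℂ),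
    r ≤ M ^ 3 ∧ (∀ i, ‖c i‖ ≤ 1 ∧ IsFin M (φ i) ∧ ∀ n : ℤ, IsCoprime n M → φ i n = 1) ∧
    ∀ x, IsCoprime (Nm x) M → T x = ∑ i, c i * φ i x

/-- from characters to test functions -/
def EqCStmt : Prop :=
  ∀ (M N₁ N₂ : ℕ) (I : Finset ℕ) (f : O → ℝ) (T : O → ℂ) (h₁ h₂ : ℝ → ℝ) (s Λ e₁ m₁ : ℝ),
    1 ≤ M → 1 ≤ N₁ → 1 ≤ N₂ → 0 ≤ Λ → 0 ≤ e₁ → Proj M T → IsH1 s Λ h₁ → IsH2 Λ h₂ →
    (∀ x, 0 < xr x → f (tO * x) = f x) →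
    (∀ n ∈ I, ∀ x ∈ Dn s n, f x ≠ 0 → IsCoprime (Nm x) M) →
    ∑ n ∈ I, ∑ x ∈ Dn 0 n, |f x| ≤ m₁ →
    (∀ Ψ : Chr, Ψ.Is → Ψ.M = M → Ψ.Pj → |Ψ.σ| ≤ (N₁ : ℝ) ^ 3 + 1 → |(Ψ.m : ℝ)| ≤ (N₂ : ℝ) ^ 3 →
      ‖∑ n ∈ I, ∑ x ∈ Dn 0 n, (f x : ℂ) * Ψ.val x‖ ≤ e₁) →
    ‖∑ n ∈ I, ∑ x ∈ Dn s n, (f x : ℂ) * T x * h₁ (eta x) * h₂ (ang x)‖ ≤
      9 * (M : ℝ) ^ 3 * (N₁ : ℝ) ^ 3 * (N₂ : ℝ) ^ 3 * e₁ +
        m₁ * ((Λ + 1) / N₂ + 3 * (M : ℝ) ^ 3 * (N₂ : ℝ) ^ 3 * (Λ + 20) / N₁)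

/-- equidistribution of primes minus model -/
def EqStmt : Prop :=
  ∀ k : ℕ, 2 ≤ k → ∃ c : ℝ, 0 < c ∧ ∀ a : ℕ, ∃ a' : ℕ, ∀ b : ℕ, ∃ V₀ : ℝ, ∀ V ≥ V₀,
    ∀ z y₁ y₂ : ℝ, Real.log V ^ a' ≤ z → z ≤ Real.log V ^ b → V ≤ y₁ → y₂ ≤ 2 * V →
    V / Real.log V ^ a ≤ y₂ - y₁ → ∃ w : ℝ, c ≤ w ∧ w ≤ 2 * Real.log V ∧
      ∀ (M : ℕ) (T : O → ℂ) (h₁ h₂ : ℝ → ℝ) (s : ℝ), 1 ≤ M → (M : ℝ) ≤ Real.log V ^ a →
        Proj M T → IsH1 s (Real.log V ^ a) h₁ → IsH2 (Real.log V ^ a) h₂ →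
        ‖∑ n ∈ Ioc ⌊y₁⌋₊ ⌊y₂⌋₊, ∑ x ∈ Dn s n,
          (ff k z w x : ℂ) * T x * h₁ (eta x) * h₂ (ang x)‖ ≤ V / Real.log V ^ a

/-! ### The variance over planes -/

/-- counting lattice points -/
def V1Stmt : Prop :=
  (∀ (B : ℝ) (S : Finset (Fin 3 → ℤ)), 1 ≤ B → (∀ v ∈ S, ‖v‖ ≤ B) → (S.card : ℝ) ≤ 27 * B ^ 3) ∧
  (∀ (β : Fin 3 → ℤ) (H : ℝ) (S : Finset (Fin 3 → ℤ)), Prim β → ‖β‖ ≤ H →
    (∀ r ∈ S, ‖r‖ ≤ H ∧ r ⬝ᵥ β = 0) → (S.card : ℝ) ≤ 16 * H ^ 2 / ‖β‖) ∧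
  (∀ (β c : Fin 3 → ℤ) (B : ℝ) (S : Finset (Fin 3 → ℤ)), Prim β → 0 ≤ B →
    (∀ γ ∈ S, ‖γ‖ ≤ B ∧ crossProduct β γ = c) → (S.card : ℝ) ≤ 2 * B / ‖β‖ + 1) ∧
  (∀ (β γ : Fin 3 → ℤ) (v : ℕ), Prim β →
    ((∀ i, (v : ℤ) ∣ crossProduct β γ i) ↔ ∃ l : ℤ, ∀ i, (v : ℤ) ∣ γ i - l * β i)) ∧
  (∀ (β : Fin 3 → ℤ) (v : ℕ) (B : ℝ) (S : Finset (Fin 3 → ℤ)), Prim β → 1 ≤ v → (v : ℝ) ≤ B →
    (∀ γ ∈ S, ‖γ‖ ≤ B ∧ ∀ i, (v : ℤ) ∣ crossProduct β γ i) →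
    (S.card : ℝ) ≤ 27 * B ^ 3 / (v : ℝ) ^ 2) ∧
  (∀ β γ : Fin 3 → ℤ, Prim β → Prim γ → crossProduct β γ = 0 → γ = β ∨ γ = -β) ∧
  (∀ β γ r : Fin 3 → ℤ, Prim r → r ⬝ᵥ β = 0 → r ⬝ᵥ γ = 0 → ∃ v : ℤ, crossProduct β γ = v • r) ∧
  ∀ (β γ ζ r : Fin 3 → ℤ) (v v' : ℤ), r ≠ 0 → Prim γ → r ⬝ᵥ β = 0 → r ⬝ᵥ γ = 0 → r ⬝ᵥ ζ = 0 →
    crossProduct β γ = v • r → crossProduct γ ζ = v' • r → ∃ u : ℤ, crossProduct β ζ = u • r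

/-- exponential sums -/
def Ex (S : Finset (Fin 3 → ℤ)) (g : (Fin 3 → ℤ) → ℝ) (a : Fin 3 → ℤ) (v : ℕ) : ℂ :=
  ∑ β ∈ S, (g β : ℂ) * ex (((a ⬝ᵥ β : ℤ) : ℝ) / v)

/-- residues that are primitive modulo v -/
def Cp (v : ℕ) : Finset (Fin 3 → ℤ) :=
  (Cu v).filter fun a => ∀ l : ℕ, l.Prime → l ∣ v → ¬∀ i, (l : ℤ) ∣ a i

/-- the large sieve in three variables -/
def V2Stmt : Prop :=
  ∃ C : ℝ, 1 ≤ C ∧ ∀ (B : ℝ) (V : ℕ) (S : Finset (Fin 3 → ℤ)) (g : (Fin 3 → ℤ) → ℝ), 1 ≤ B →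
    (V : ℝ) ^ 2 ≤ B → (∀ β ∈ S, ‖β‖ ≤ B) →
    ∑ v ∈ Icc 1 V, ∑ a ∈ Cp v, ‖Ex S g a v‖ ^ 2 ≤ C * B ^ 3 * ∑ β ∈ S, g β ^ 2

/-- functions on projective space modulo v, on the lattice -/
def ProjV (v : ℕ) (T : (Fin 3 → ℤ) → ℂ) : Prop :=
  PerV v T ∧ (∀ (n : ℤ) (β : Fin 3 → ℤ), IsCoprime n v → T (n • β) = T β) ∧ ∀ β, ‖T β‖ ≤ 1

/-- pairs that are proportional modulo v -/
def Ev (S : Finset (Fin 3 → ℤ)) (g g' : (Fin 3 → ℤ) → ℝ) (v : ℕ) : ℝ :=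
  ∑ β ∈ S, ∑ γ ∈ S, if ∀ i, (v : ℤ) ∣ crossProduct β γ i then g β * g' γ else 0

/-- Fourier expansion of the proportionality condition -/
def V3aStmt : Prop :=
  ∀ (S : Finset (Fin 3 → ℤ)) (g g' : (Fin 3 → ℤ) → ℝ) (v : ℕ) (Q η : ℝ), 1 ≤ v → 0 ≤ η → 1 ≤ Q →
    (∀ β ∈ S, Prim β) →
    (∀ (u : ℕ) (T : (Fin 3 → ℤ) → ℂ), 1 ≤ u → (u : ℝ) ≤ Q → ProjV u T →
      ‖∑ β ∈ S, (g β : ℂ) * T β‖ ≤ η) →
    |Ev S g g' v| ≤ (Q ^ 4 * η * ∑ γ ∈ S, |g' γ| +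
      ∑ u ∈ v.divisors.filter fun u : ℕ => Q < u,
        ∑ a ∈ Cp u, (‖Ex S g a u‖ ^ 2 + ‖Ex S g' a u‖ ^ 2)) / (v : ℝ) ^ 2

def V3Stmt : Prop :=
  ∃ C : ℝ, 1 ≤ C ∧ ∀ (B y Q η : ℝ) (V : ℕ) (S : Finset (Fin 3 → ℤ)) (g g' : (Fin 3 → ℤ) → ℝ),
    1 ≤ B → (V : ℝ) ^ 2 ≤ B → 0 < y → 0 ≤ η → 1 ≤ Q → (∀ β ∈ S, Prim β ∧ ‖β‖ ≤ B) →
    (∀ (u : ℕ) (T : (Fin 3 → ℤ) → ℂ), 1 ≤ u → (u : ℝ) ≤ Q → ProjV u T →
      ‖∑ β ∈ S, (g β : ℂ) * T β‖ ≤ η) →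
    ∑ v ∈ (Icc 1 V).filter fun v : ℕ => y ≤ v, |Ev S g g' v| ≤
      C / y * (Q ^ 4 * η * ∑ γ ∈ S, |g' γ| + B ^ 3 * (∑ β ∈ S, g β ^ 2 + ∑ β ∈ S, g' β ^ 2) / Q)

/-- the weight on normal vectors -/
def wt (c H : ℝ) (r : Fin 3 → ℝ) : ℝ := clp (2 * c * ‖r‖ / H - 1) * clp (2 - ‖r‖ / H)

/-- reduction of the variance to pairs -/
def V4Stmt : Prop :=
  ∀ c : ℝ, 1 ≤ c → ∃ C : ℝ, 1 ≤ C ∧ ∀ (B H K G : ℝ) (V : ℕ) (S R : Finset (Fin 3 → ℤ))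
    (g : (Fin 3 → ℤ) → ℝ), 1 ≤ B → B ≤ H → 1 ≤ K → 0 ≤ G → 4 * c * B ^ 2 / H ≤ V →
    (∀ β ∈ S, Prim β ∧ B / c ≤ ‖β‖ ∧ ‖β‖ ≤ B ∧ |g β| ≤ G) →
    (∀ r ∈ R, Prim r ∧ H / c ≤ ‖r‖ ∧ ‖r‖ ≤ H) →
    ∑ r ∈ R, (∑ β ∈ S.filter fun β => r ⬝ᵥ β = 0, g β) ^ 2 ≤
      C * G ^ 2 * (B ^ 4 * H / K + B ^ 2 * H ^ 2) +
      2 * ∑ v ∈ (Icc 1 V).filter fun v : ℕ => B ^ 2 / (H * K) ≤ v, ∑ β ∈ S, ∑ γ ∈ S,
        if ∀ i, (v : ℤ) ∣ crossProduct β γ i then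
          g β * g γ * wt c H (fun i => (crossProduct β γ i : ℝ) / v) else 0

/-- the variance -/
def VarStmt : Prop :=
  ∀ c : ℝ, 1 ≤ c → ∃ C : ℝ, 1 ≤ C ∧ ∀ (B H K Q G δ η : ℝ) (ι : Type) [Fintype ι]
    (S R : Finset (Fin 3 → ℤ)) (g : ι → (Fin 3 → ℤ) → ℝ), 1 ≤ B → B ≤ H → 1 ≤ K → 1 ≤ Q →
    0 ≤ G → 0 ≤ δ → 0 ≤ η → (4 * c * B ^ 2 / H + 1) ^ 2 ≤ B →
    (∀ β ∈ S, Prim β ∧ B / c ≤ ‖β‖ ∧ ‖β‖ ≤ B ∧ ∑ i, |g i β| ≤ G) →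
    (∀ r ∈ R, Prim r ∧ H / c ≤ ‖r‖ ∧ ‖r‖ ≤ H) →
    (∀ i, ∀ β ∈ S, ∀ γ ∈ S, g i β ≠ 0 → g i γ ≠ 0 → ‖β - γ‖ ≤ δ * B) →
    (∀ (i : ι) (u : ℕ) (T : (Fin 3 → ℤ) → ℂ), 1 ≤ u → (u : ℝ) ≤ Q → ProjV u T →
      ‖∑ β ∈ S, (g i β : ℂ) * T β‖ ≤ η) →
    ∑ r ∈ R, (∑ β ∈ S.filter fun β => r ⬝ᵥ β = 0, ∑ i, g i β) ^ 2 ≤
      C * (G ^ 2 * B ^ 4 * H * (1 / K + δ * K ^ 2 + (Fintype.card ι : ℝ) ^ 2 * K / Q) +
        G ^ 2 * B ^ 2 * H ^ 2 + (Fintype.card ι : ℝ) ^ 2 * K * Q ^ 4 * η * G * B * H)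

/-- the cells -/
def UpAStmt : Prop :=
  ∀ (k q T : ℕ) (c : ℝ), 1 ≤ q → 1 ≤ c → ∃ C : ℝ, 1 ≤ C ∧ ∀ (Y z K Q G η : ℝ) (n : ℕ)
    (w : Fin n → ℝ), C ≤ Y → 4 ≤ n → 1 ≤ K → 1 ≤ Q → 0 ≤ η → Real.log (2 * Y ^ 18) ≤ G →
    (∀ j, 0 ≤ w j ∧ w j ≤ G) →
    (∀ (j : Fin n) (M : ℕ) (F : O → ℂ) (h₁ h₂ : ℝ → ℝ) (s : ℝ), 1 ≤ M → (M : ℝ) ≤ q * Q →
      Proj M F → IsH1 s n h₁ → IsH2 n h₂ →
      ‖∑ m ∈ Ioc ⌊Y ^ 18 * (1 + (j : ℕ) / n)⌋₊ ⌊Y ^ 18 * (1 + ((j : ℕ) + 1) / n)⌋₊, ∑ x ∈ Dn s m,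
        (ff k z (w j) x : ℂ) * F x * h₁ (eta x) * h₂ (ang x)‖ ≤ η) →
    ∃ (W : ℤ → ℝ) (h : O → ℝ), (∀ m, ∃ j, W m = w j) ∧ (∀ x, 0 ≤ h x ∧ (|eta x| ≤ T → h x = 1)) ∧
      ∀ (P : O → Prop) (R : Finset (Fin 3 → ℤ)), Proj q (fun x => if P x then 1 else 0) →
      (∀ r ∈ R, Prim r ∧ Y ^ 10 / c ≤ ‖r‖ ∧ ‖r‖ ≤ c * Y ^ 10) →
      ∑ r ∈ R, (∑ x ∈ (Rg (T + 1) (Y ^ 18) (2 * Y ^ 18)).filter fun x => r ⬝ᵥ vec x = 0 ∧ P x,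
        ff k z (W (Nm x)) x * h x) ^ 2 ≤
        C * (G ^ 2 * Y ^ 34 * (1 / K + K ^ 2 / n + (n : ℝ) ^ 6 * K / Q) + G ^ 2 * Y ^ 32 +
          (n : ℝ) ^ 6 * K * Q ^ 4 * η * G * Y ^ 16)

/-- the variance for primes minus model -/
def UpStmt : Prop :=
  ∀ (k q T : ℕ) (c : ℝ), 2 ≤ k → 1 ≤ q → 1 ≤ c → ∃ c₁ : ℝ, 0 < c₁ ∧ ∃ b : ℕ, ∃ Y₀ : ℝ, ∀ Y ≥ Y₀,
    ∃ (z : ℝ) (w : ℤ → ℝ) (h : O → ℝ), Real.log Y ^ 2 ≤ z ∧ z ≤ Real.log Y ^ b ∧ (∀ n, c₁ ≤ w n) ∧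
      (∀ x, 0 ≤ h x ∧ (|eta x| ≤ T → h x = 1)) ∧ ∀ (P : O → Prop) (R : Finset (Fin 3 → ℤ)),
      Proj q (fun x => if P x then 1 else 0) →
      (∀ r ∈ R, Prim r ∧ Y ^ 10 / c ≤ ‖r‖ ∧ ‖r‖ ≤ c * Y ^ 10) →
      ∑ r ∈ R, (∑ x ∈ (Rg (T + 1) (Y ^ 18) (2 * Y ^ 18)).filter fun x => r ⬝ᵥ vec x = 0 ∧ P x,
        ff k z (w (Nm x)) x * h x) ^ 2 ≤ Y ^ 34 / Real.log Y ^ 11

/-! ### The planes -/

/-- a short basis and a starting point -/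
def TileStmt : Prop :=
  ∀ (p : ℕ) (ν : ℤ) (lam : ℝ), p.Prime → 0 < lam →
    (∀ s t : ℤ, (s ≠ 0 ∨ t ≠ 0) → (p : ℤ) ∣ s - ν * t → lam ≤ max |(s : ℝ)| |(t : ℝ)|) →
    ∃ s₁ t₁ s₂ t₂ : ℤ, (p : ℤ) ∣ s₁ - ν * t₁ ∧ (p : ℤ) ∣ s₂ - ν * t₂ ∧ s₁ * t₂ - s₂ * t₁ = p ∧
      |(s₁ : ℝ)| ≤ 2 * p / lam ∧ |(t₁ : ℝ)| ≤ 2 * p / lam ∧ |(s₂ : ℝ)| ≤ 2 * p / lam ∧
      |(t₂ : ℝ)| ≤ 2 * p / lam ∧ ∀ (X₁ X₂ : ℝ) (m : ℕ) (s₀ t₀ : ℤ), 1 ≤ m → m.Coprime p →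
        ∃ u v : ℤ, u * s₁ + v * s₂ ≡ s₀ [ZMOD m] ∧ u * t₁ + v * t₂ ≡ t₀ [ZMOD m] ∧
          |((u * s₁ + v * s₂ : ℤ) : ℝ) - X₁| ≤ 4 * m * p / lam ∧
          |((u * t₁ + v * t₂ : ℤ) : ℝ) - X₂| ≤ 4 * m * p / lam ∧
          |(u : ℝ)| ≤ 2 * (|X₁| + |X₂|) / lam + m ∧ |(v : ℝ)| ≤ 2 * (|X₁| + |X₂|) / lam + m

/-- the sieve in a tile -/
def Sv2Stmt : Prop :=
  ∀ b : ℕ, ∃ L₀ : ℝ, ∀ L ≥ L₀, ∀ (z Z : ℝ) (m n p : ℕ) (s₁ t₁ s₂ t₂ u₀ v₀ : ℤ), L ^ 2 ≤ z →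
    z ≤ L ^ b → 3 ∣ m → 1 ≤ m → (m : ℝ) ≤ z → p.Prime → z < p → s₁ * t₂ - s₂ * t₁ = p →
    Real.exp (L / 2) ≤ n → |(u₀ : ℝ)| + m * n ≤ Z → |(v₀ : ℝ)| + m * n ≤ Z →
    24 * Z * L ≤ (n : ℝ) ^ 2 →
    (n : ℝ) ^ 2 / (4 * L) ≤ (((range n ×ˢ range n).filter fun x : ℕ × ℕ =>
      (∀ l : ℕ, l.Prime → (l : ℝ) ≤ z → ¬l ∣ m →
        ¬(l : ℤ) ∣ fc ((u₀ + m * x.1) * s₁ + (v₀ + m * x.2) * s₂)
          ((u₀ + m * x.1) * t₁ + (v₀ + m * x.2) * t₂)) ∧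
      ∀ l : ℕ, l.Prime → z < l →
        ¬((l : ℤ) ∣ u₀ + m * x.1 ∧ (l : ℤ) ∣ v₀ + m * x.2)).card : ℝ)

/-- primes whose lattice has no very short vector -/
def Nsk (Y : ℝ) (p : ℕ) : Prop :=
  ∀ s t : ℤ, (s ≠ 0 ∨ t ≠ 0) → (p : ℤ) ∣ fc s t → Y ^ 15 / Real.log Y ≤ max |(s : ℝ)| |(t : ℝ)|

/-- good primes -/
def Gp (k : ℕ) (Y : ℝ) (p : ℕ) : Prop :=
  p.Prime ∧ Lo k p ∧ Y ^ 30 < p ∧ (p : ℝ) ≤ 2 * Y ^ 30 ∧ Nsk Y p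

/-- there are many good primes -/
def MassStmt : Prop :=
  ∀ k : ℕ, 2 ≤ k → ∃ c : ℝ, 0 < c ∧ ∃ Y₀ : ℝ, ∀ Y ≥ Y₀, ∃ S : Finset ℕ, (∀ p ∈ S, Gp k Y p) ∧
    c * Y ^ 30 / Real.log Y ≤ S.card

/-- many points of the cubic form in a small square -/
def LowZStmt : Prop :=
  ∀ (k q b : ℕ) (s₀ t₀ : ℤ), 2 ≤ k → q.Coprime (2 * 3 * 7 * 23) → IsCoprime (fc s₀ t₀) q →
    ∃ Y₀ : ℝ, ∀ Y ≥ Y₀, ∀ (z : ℝ) (p : ℕ) (ν : ℤ), Real.log Y ^ 2 ≤ z → z ≤ Real.log Y ^ b →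
    Gp k Y p → (p : ℤ) ∣ fc ν 1 → ∃ S : Finset (ℤ × ℤ), Y ^ 2 / Real.log Y ^ 4 ≤ S.card ∧
      ∀ x ∈ S, (p : ℤ) ∣ x.1 - ν * x.2 ∧ x.1 ≡ s₀ [ZMOD q] ∧ x.2 ≡ t₀ [ZMOD q] ∧
        x.1 ≡ -1 [ZMOD 3087] ∧ x.2 ≡ 4 [ZMOD 3087] ∧ 0 < x.1 ∧ x.1 < p ∧ 50 * |x.2| ≤ x.1 ∧
        49 * p * Y ^ 18 < ((fc x.1 x.2 : ℤ) : ℝ) ∧ ((fc x.1 x.2 : ℤ) : ℝ) ≤ 49 * p * (2 * Y ^ 18) ∧
        (∀ l : ℕ, l.Prime → (l : ℝ) ≤ z → ¬l ∣ 21 → ¬(l : ℤ) ∣ fc x.1 x.2) ∧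
        ∀ l : ℕ, l.Prime → z < l → ¬((l : ℤ) ∣ x.1 ∧ (l : ℤ) ∣ x.2)

/-- the model has mass on every good plane -/
def LowStmt : Prop :=
  ∃ T : ℕ, ∀ (k q b : ℕ) (s₀ t₀ : ℤ), 2 ≤ k → q.Coprime (2 * 3 * 7 * 23) →
    IsCoprime (fc s₀ t₀) q → ∃ Y₀ : ℝ, ∀ Y ≥ Y₀, ∀ (z : ℝ) (p : ℕ) (ρ : O),
    Real.log Y ^ 2 ≤ z → z ≤ Real.log Y ^ b → Gp k Y p → ρ ∈ Dn 0 p →
    Y ^ 2 / Real.log Y ^ 4 ≤ (((Rg T (Y ^ 18) (2 * Y ^ 18)).filter fun x =>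
      rv (mu * ρ) ⬝ᵥ vec x = 0 ∧ (q : O) ∣ mu * ρ * x - ⟨s₀, -t₀, 0⟩ ∧ Rough z x).card : ℝ)

end Pool.Agent.MP_adc87d_lc.Big

end
end
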