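import Mathlib
import Pool.Agent.Mg.Fadc87d.G0908ea

set_option linter.all false

section

/-! Primes of degree one in the cubic ring. -/

set_option autoImplicit false

noncomputable section

open Finset
open scoped Classical

namespace Pool.Agent.MP_adc87d_lc.Big

open Pool.Agent.MP_2a1f0e_nt (ex)

theorem rec_CSplit (p : ℕ) [Fact p.Prime] (h2 : p ≠ 2) :
    IsSquare (-23 : ZMod p) ↔ IsSquare (p : ZMod 23) := by
  have : Fact (Nat.Prime 23) := ⟨by norm_num⟩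
  have e : legendreSym p (-23) = legendreSym 23 p := by
    rw [legendreSym.quadratic_reciprocity' h2 (by norm_num), show (-23 : ℤ) = -1 * (23 : ℕ) by norm_num,
      legendreSym.mul, legendreSym.at_neg_one h2,
      ZMod.χ₄_eq_neg_one_pow ((Fact.out : p.Prime).eq_two_or_odd.resolve_left h2), pow_mul]
    rcases neg_one_pow_eq_or ℤ (p / 2) with e | e <;> rw [e] <;> norm_num
  rw [← not_iff_not, ← legendreSym.eq_neg_one_iff', ← e, legendreSym.eq_neg_one_iff]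
  push_cast
  rfl

theorem root_CSplit (p : ℕ) [Fact p.Prime] (h : ¬IsSquare (-23 : ZMod p)) :
    ∃ ν : ℤ, (p : ℤ) ∣ fc ν 1 := by
  obtain ⟨K, _, _, _⟩ : ∃ (K : Type) (_ : Field K) (_ : CharP K p), IsAlgClosed K :=
    ⟨AlgebraicClosure (ZMod p), inferInstance, inferInstance, inferInstance⟩
  have fix : ∀ x : K, frobenius K p x = x → ∃ n : ℤ, (n : K) = x := fun x hx =>
    (mem_bot_iff_intCast p K).1 ((Subfield.mem_bot_iff_pow_eq_self K p).2 hx)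
  generalize frobenius K p = φ at fix
  have fin : ∀ x : K, x ^ 3 = x + 1 → φ x = x → ∃ ν : ℤ, (p : ℤ) ∣ fc ν 1 := by
    intro x h1 h2
    obtain ⟨n, rfl⟩ := fix x h2
    refine ⟨n, (CharP.intCast_eq_zero_iff K p _).1 ?_⟩
    simp only [fc]
    push_cast
    linear_combination h1
  obtain ⟨a, ha⟩ : ∃ a : K, a ^ 3 = a + 1 := by
    have d : (Polynomial.X ^ 3 - Polynomial.X - 1 : Polynomial K).degree = 3 := by compute_degree!
    obtain ⟨a, ha⟩ := IsAlgClosed.exists_root _ (d.trans_ne (by decide))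
    simp only [Polynomial.IsRoot, Polynomial.eval_sub, Polynomial.eval_pow, Polynomial.eval_X,
      Polynomial.eval_one] at ha
    exact ⟨a, by linear_combination ha⟩
  have st : ∀ x : K, x ^ 3 = x + 1 → φ x ^ 3 = φ x + 1 := fun x hx => by
    simpa using congrArg φ hx
  by_cases e1 : φ a = a
  · exact fin a ha e1
  have hb := st a ha
  have hc := st _ hb
  have e2 : φ (φ a) ≠ φ a := fun e => e1 (φ.injective e)
  obtain ⟨b, eb⟩ : ∃ b, φ a = b := ⟨_, rfl⟩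
  rw [eb] at hb hc e1 e2
  obtain ⟨c, ec⟩ : ∃ c, φ b = c := ⟨_, rfl⟩
  rw [ec] at hc e2
  have q : b ^ 2 + a * b + a ^ 2 = 1 := by
    refine mul_left_cancel₀ (sub_ne_zero.2 e1) ?_
    linear_combination hb - ha
  have r : (c - a) * (c + a + b) = 0 := by
    refine mul_left_cancel₀ (sub_ne_zero.2 e2) ?_
    linear_combination hc - c * q + a * q - ha
  rcases mul_eq_zero.1 r with r | r
  · refine fin (-a - b) (by linear_combination 2 * ha - hb - 3 * a * q) ?_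
    rw [map_sub, map_neg, eb, ec]
    linear_combination -r
  · obtain ⟨n, hn⟩ := fix ((a - b) * (a + a + b) * (a + b + b)) (by
      simp only [map_mul, map_sub, map_add, eb, ec, show c = -a - b by linear_combination r]
      ring)
    refine (h ⟨n, ?_⟩).elim
    have t : ((n * n + 23 : ℤ) : K) = 0 := by
      have t1 : (a - b) * (a + a + b) = 3 * a ^ 2 - 1 := by linear_combination -q
      have t2 : (a + b + b) ^ 2 = 4 - 3 * a ^ 2 := by linear_combination 4 * q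
      push_cast
      rw [hn, t1]
      linear_combination (3 * a ^ 2 - 1) ^ 2 * t2 - 27 * (a ^ 3 - a + 1) * ha
    have t' := (ZMod.intCast_zmod_eq_zero_iff_dvd _ p).2 ((CharP.intCast_eq_zero_iff K p _).1 t)
    push_cast at t'
    linear_combination -t'

theorem three_CSplit (p : ℕ) [Fact p.Prime] (h2 : p ≠ 2) (h23 : p ≠ 23)
    (hs : IsSquare (-23 : ZMod p)) (ν : ℤ) (hν : (p : ℤ) ∣ fc ν 1) :
    ∃ ν₂ ν₃ : ℤ, (p : ℤ) ∣ fc ν₂ 1 ∧ (p : ℤ) ∣ fc ν₃ 1 ∧ ¬(p : ℤ) ∣ ν - ν₂ ∧ ¬(p : ℤ) ∣ ν - ν₃ ∧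
      ¬(p : ℤ) ∣ ν₂ - ν₃ := by
  have nz : ∀ l : ℕ, l.Prime → p ≠ l → (l : ZMod p) ≠ 0 := fun l hl hn e =>
    hn ((Nat.prime_dvd_prime_iff_eq Fact.out hl).1 ((ZMod.natCast_eq_zero_iff l p).1 e))
  have n2 : (2 : ZMod p) ≠ 0 := by simpa using nz 2 Nat.prime_two h2
  have n23 : (23 : ZMod p) ≠ 0 := by simpa using nz 23 (by norm_num) h23
  obtain ⟨s, hs⟩ := hs
  simp only [← ZMod.intCast_zmod_eq_zero_iff_dvd, fc] at hν ⊢
  push_cast at hν ⊢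
  generalize (ν : ZMod p) = a at hν ⊢
  have d : (3 * a ^ 2 - 1) ^ 2 * (4 - 3 * a ^ 2) = s * s := by
    linear_combination hs - 27 * (a ^ 3 - a + 1) * hν
  have s0 : s ≠ 0 := fun e => n23 (by rw [e] at hs; linear_combination -hs)
  have f0 : 3 * a ^ 2 - 1 ≠ 0 := fun e => s0 (mul_self_eq_zero.1 (by rw [← d, e]; ring))
  obtain ⟨δ, hδ, δ0⟩ : ∃ δ : ZMod p, δ ^ 2 = 4 - 3 * a ^ 2 ∧ δ ≠ 0 :=
    ⟨s / (3 * a ^ 2 - 1), by rw [div_pow, div_eq_iff (pow_ne_zero 2 f0)]; linear_combination -d,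
      div_ne_zero s0 f0⟩
  have k : ∀ r ε : ZMod p, ε ^ 2 = 4 - 3 * a ^ 2 → 2 * r = ε - a →
      r ^ 3 - r * 1 - 1 = 0 ∧ ¬a - r = 0 := by
    intro r ε h1 h3
    have c : r ^ 2 + a * r + a ^ 2 - 1 = 0 := by
      refine mul_left_cancel₀ (mul_ne_zero n2 n2) ?_
      linear_combination h1 + (2 * r + a + ε) * h3
    exact ⟨by linear_combination (r - a) * c + hν,
      fun e => f0 (by linear_combination c + (2 * a + r) * e)⟩
  obtain ⟨ν₂, e₂⟩ := ZMod.intCast_surjective ((δ - a) / 2)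
  obtain ⟨ν₃, e₃⟩ := ZMod.intCast_surjective ((-δ - a) / 2)
  rw [eq_div_iff n2, mul_comm] at e₂ e₃
  have k₂ := k _ δ hδ e₂
  have k₃ := k _ (-δ) (by rw [neg_sq, hδ]) e₃
  refine ⟨ν₂, ν₃, k₂.1, k₃.1, k₂.2, k₃.2, fun e => δ0 (mul_left_cancel₀ n2 ?_)⟩
  linear_combination 2 * e - e₂ + e₃

theorem Nm_dvd_CSplit {x y : O} (h : x ∣ y) : Nm x ∣ Nm y := by
  obtain ⟨z, rfl⟩ := h
  exact ⟨_, Nm_mul x z⟩

theorem dvd_p_CSplit {p : ℕ} {x : O} (h : Nm x = p) : x ∣ (p : O) := by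
  simpa [h] using dvd_Nm x

theorem elt0_CSplit (h : AlgStmt) {p : ℕ} (hp : p.Prime) (ν : ℤ) (hν : (p : ℤ) ∣ fc ν 1)
    (h2 : ¬(p : ℤ) * p ∣ fc ν 1) : ∃ x ∈ Dn 0 p, x ∣ (⟨ν, -1, 0⟩ : O) := by
  obtain ⟨_, -, -, -, h5, h6, -⟩ := h
  rw [← Nm_lin] at hν h2
  generalize (⟨ν, -1, 0⟩ : O) = z at hν h2 ⊢
  obtain ⟨g, g0, g1, g2, g3⟩ : ∃ g : O, 0 < xr g ∧ g ∣ (p : O) ∧ g ∣ z ∧ (p : ℤ) ∣ Nm g := by
    obtain ⟨u, v, e⟩ := IsBezout.gcd_eq_sum (p : O) z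
    have a1 := IsBezout.gcd_dvd_left (p : O) z
    have a2 := IsBezout.gcd_dvd_right (p : O) z
    generalize IsBezout.gcd (p : O) z = g at e a1 a2
    have a3 : (p : ℤ) ∣ Nm g := by
      have := Nm_modEq (n := p) (x := g) (y := v * z) ⟨u, by rw [← e]; push_cast; ring⟩
      rw [Nm_mul] at this
      exact this.dvd_iff.2 (hν.mul_left _)
    have a4 : g ≠ 0 := ne_zero_of_dvd_ne_zero (fun e => hp.ne_zero (by
      simpa using congrArg O.a e)) a1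
    rcases lt_or_gt_of_ne (xr_ne a4) with a | a
    · exact ⟨-g, by simpa using a, neg_dvd.2 a1, neg_dvd.2 a2, by rw [Nm_neg]; exact a3.neg_right⟩
    · exact ⟨g, a, a1, a2, a3⟩
  have g4 : Nm g = p := by
    obtain ⟨k, hk⟩ := g3
    have p0 : (0 : ℤ) < p := by exact_mod_cast hp.pos
    have b1 := Nm_dvd_CSplit g1
    have b2 := Nm_dvd_CSplit g2
    have b3 := Nm_pos g0
    rw [hk] at b1 b2 b3 ⊢
    rw [Nm_nat] at b1
    have c : IsCoprime (p : ℤ) k :=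
      (Nat.prime_iff_prime_int.1 hp).irreducible.coprime_iff_not_dvd.2 fun d =>
        h2 ((mul_dvd_mul_left _ d).trans b2)
    rcases Int.isUnit_iff.1 ((c.pow_left (m := 3)).isUnit_of_dvd' ((dvd_mul_left _ _).trans b1)
      dvd_rfl) with rfl | rfl
    · exact mul_one _
    · omega
  obtain ⟨n, hn⟩ := h5 0 g g0
  exact ⟨_, mem_Dn.2 ⟨hn, (h6 n g (ne_of_xr_pos g0)).2.1.trans g4⟩, Units.mul_left_dvd.2 g2⟩

theorem elt_CSplit (h : AlgStmt) {p : ℕ} (hp : p.Prime) (h23 : p ≠ 23) (ν : ℤ)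
    (hν : (p : ℤ) ∣ fc ν 1) : ∃ x ∈ Dn 0 p, x ∣ (⟨ν, -1, 0⟩ : O) := by
  by_cases h2 : (p : ℤ) * p ∣ fc ν 1
  swap
  · exact elt0_CSplit h hp ν hν h2
  have e : fc (ν + p) 1 = fc ν 1 + p * (3 * ν ^ 2 - 1) + p * p * (3 * ν + p) := by
    simp only [fc]; ring
  obtain ⟨x, hx, d⟩ := elt0_CSplit h hp (ν + p)
    (e ▸ (hν.add (dvd_mul_right _ _)).add ((dvd_mul_right _ _).mul_right _)) fun d => by
      rw [e, dvd_add_left (dvd_mul_right _ _), dvd_add_right h2,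
        mul_dvd_mul_iff_left (by exact_mod_cast hp.ne_zero)] at d
      have : (p : ℤ) ∣ (23 : ℕ) := by
        have e' : ((23 : ℕ) : ℤ) = (4 - (6 * ν - 9) * ν) * (3 * ν ^ 2 - 1) + (18 * ν - 27) * fc ν 1 := by
          simp only [fc]; push_cast; ring
        rw [e']
        exact (d.mul_left _).add (hν.mul_left _)
      exact h23 ((Nat.prime_dvd_prime_iff_eq hp (by norm_num)).1 (by exact_mod_cast this))
  refine ⟨x, hx, ?_⟩
  have e2 : (⟨ν, -1, 0⟩ : O) = ⟨ν + p, -1, 0⟩ - p := by ext <;> simp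
  rw [e2]
  exact d.sub (dvd_p_CSplit (mem_Dn.1 hx).2)

theorem irr_CSplit (h : AlgStmt) {p : ℕ} (hp : p.Prime) {x : O} (hx : Nm x = p) :
    Irreducible x := by
  have hp' := (Nat.prime_iff_prime_int.1 hp).irreducible
  simp only [irreducible_iff, h.2.1, ← Int.isUnit_iff]
  refine ⟨hx ▸ hp'.not_isUnit, fun a b e => hp'.isUnit_or_isUnit ?_⟩
  rw [← hx, e, Nm_mul]

theorem nu_CSplit {p : ℕ} (hp : p.Prime) {x : O} (hx : Nm x = p) (hu : ¬IsUnit x) :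
    ∃ ν : ℤ, x ∣ ⟨ν, -1, 0⟩ := by
  have := Fact.mk hp
  have p0 : (p : O) ≠ 0 := fun e => hp.ne_zero (by simpa using congrArg O.a e)
  obtain ⟨y, e, e1, e2, e3⟩ : ∃ y : O, (p : O) = x * y ∧ y.b ^ 2 - y.a * y.c - y.c ^ 2 = p * x.c ∧
      y.c ^ 2 - y.a * y.b = p * x.b ∧ y.a ^ 2 + y.a * y.c - y.b * y.c = p * (x.a + x.c) := by
    refine ⟨⟨x.a ^ 2 + 2 * x.a * x.c + x.c ^ 2 - x.b ^ 2 - x.b * x.c, x.c ^ 2 - x.a * x.b,
      x.b ^ 2 - x.a * x.c - x.c ^ 2⟩, ?_, ?_, ?_, ?_⟩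
    · rw [O.natCast_eq, ← hx]
      ext <;> simp [Nm, nf] <;> ring
    all_goals rw [← hx]; simp only [Nm, nf]; ring
  have y0 : y ≠ 0 := fun e' => p0 (by rw [e, e', mul_zero])
  have f1 := congrArg (Int.cast : ℤ → ZMod p) e1
  have f2 := congrArg (Int.cast : ℤ → ZMod p) e2
  have f3 := congrArg (Int.cast : ℤ → ZMod p) e3
  push_cast at f1 f2 f3
  rw [ZMod.natCast_self, zero_mul] at f1 f2 f3
  have c0 : (y.c : ZMod p) ≠ 0 := fun c => by
    rw [c] at f1 f3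
    have a : (y.a : ZMod p) = 0 := pow_eq_zero_iff two_ne_zero |>.1 (by linear_combination f3)
    have b : (y.b : ZMod p) = 0 := pow_eq_zero_iff two_ne_zero |>.1 (by linear_combination f1)
    rw [ZMod.intCast_zmod_eq_zero_iff_dvd] at a b c
    obtain ⟨w, hw⟩ := (O.natCast_dvd p y).2 ⟨a, b, c⟩
    refine hu (IsUnit.of_mul_eq_one w (mul_left_cancel₀ p0 ?_))
    rw [mul_one, mul_left_comm, ← hw, ← e]
  obtain ⟨ν, hν⟩ := ZMod.intCast_surjective ((y.b : ZMod p) / (y.c : ZMod p))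
  rw [eq_div_iff c0] at hν
  refine ⟨ν, (mul_dvd_mul_iff_right y0).1 ?_⟩
  rw [← e, O.natCast_dvd]
  simp only [← ZMod.intCast_zmod_eq_zero_iff_dvd, O.mul_a, O.mul_b, O.mul_c]
  push_cast
  refine ⟨mul_left_cancel₀ c0 ?_, mul_left_cancel₀ c0 ?_, by linear_combination hν⟩
  · linear_combination (y.a : ZMod p) * hν - f2
  · linear_combination (y.b : ZMod p) * hν + f1

theorem cube_CSplit {l p : ℕ} (hl : l.Prime) (hp : p.Prime) : ¬(l : ℤ) ^ 3 ∣ p := fun d => by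
  have d' : l ^ 3 ∣ p := by exact_mod_cast d
  have := (hp.eq_one_or_self_of_dvd _ d').resolve_left (Nat.one_lt_pow (by norm_num) hl.one_lt).ne'
  rw [← this] at hp
  exact absurd hp.eq_one_of_pow (by norm_num)

theorem Nm_prod_CSplit {p : ℕ} (S : Finset O) (h : ∀ x ∈ S, Nm x = p) :
    Nm (∏ x ∈ S, x) = (p : ℤ) ^ S.card := by
  induction S using Finset.induction_on with
  | empty => simpa using Nm_one
  | insert a S ha ih =>
    rw [prod_insert ha, Nm_mul, card_insert_of_notMem ha, h a (mem_insert_self _ _),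
      ih fun x hx => h x (mem_insert_of_mem hx), pow_succ']

theorem two_CSplit : ∀ a : ZMod 2, a ^ 3 - a - 1 ≠ 0 := by decide

theorem csplit (h : AlgStmt) : SplitStmt := by
  intro p hp
  have := Fact.mk hp
  have := h.1
  have p1 : (1 : ℤ) < p := by exact_mod_cast hp.one_lt
  have pd : ∏ x ∈ Dn 0 p, x ∣ (p : O) := by
    refine Finset.prod_dvd_of_coprime (fun x hx y hy hn => ?_) fun x hx =>
      dvd_p_CSplit (mem_Dn.1 hx).2
    have hx := mem_Dn.1 (mem_coe.1 hx)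
    have hy := mem_Dn.1 (mem_coe.1 hy)
    exact (irr_CSplit h hp hx.2).coprime_iff_not_dvd.2 fun d => hn (h.2.2.2.1 0 x y hx.1 hy.1
      ((irr_CSplit h hp hx.2).associated_of_dvd (irr_CSplit h hp hy.2) d))
  have pn := Nm_prod_CSplit (Dn 0 p) fun x hx => (mem_Dn.1 hx).2
  have c3 : (Dn 0 p).card ≤ 3 := by
    have := Nm_dvd_CSplit pd
    rw [pn, Nm_nat] at this
    exact (pow_le_pow_iff_right₀ p1).1 (Int.le_of_dvd (by positivity) this)
  have nu : ∀ x : O, Nm x = p → ∃ ν : ℤ, (p : ℤ) ∣ fc ν 1 ∧ x ∣ ⟨ν, -1, 0⟩ := fun x hx => by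
    obtain ⟨ν, hν⟩ := nu_CSplit hp hx (irr_CSplit h hp hx).not_isUnit
    exact ⟨ν, by rw [← Nm_lin, ← hx]; exact Nm_dvd_CSplit hν, hν⟩
  refine ⟨c3, fun h3 hs => ?_, fun h23 hs ⟨x, hx⟩ => ?_, fun x hx => ?_⟩
  · obtain ⟨ν, hν⟩ := root_CSplit p (by rwa [rec_CSplit p (by omega)])
    obtain ⟨x, hx, -⟩ := elt_CSplit h hp (by omega) ν hν
    exact ⟨x, hx⟩
  · obtain ⟨ν, hν, -⟩ := nu x (mem_Dn.1 hx).2
    have h2 : p ≠ 2 := by
      rintro rfl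
      rw [← ZMod.intCast_zmod_eq_zero_iff_dvd, fc] at hν
      push_cast at hν
      exact two_CSplit ν (by simpa using hν)
    obtain ⟨ν₂, ν₃, r2, r3, n12, n13, n23⟩ :=
      three_CSplit p h2 h23 ((rec_CSplit p h2).2 hs) ν hν
    obtain ⟨x₁, m1, d1⟩ := elt_CSplit h hp h23 ν hν
    obtain ⟨x₂, m2, d2⟩ := elt_CSplit h hp h23 ν₂ r2
    obtain ⟨x₃, m3, d3⟩ := elt_CSplit h hp h23 ν₃ r3
    have ne : ∀ (y z : O) (a b : ℤ), y ∈ Dn 0 p → y ∣ ⟨a, -1, 0⟩ → z ∣ ⟨b, -1, 0⟩ →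
        ¬(p : ℤ) ∣ a - b → y ≠ z := by
      rintro y z a b m da db n rfl
      have := Nm_dvd_CSplit (da.sub db)
      rw [(mem_Dn.1 m).2, show (⟨a, -1, 0⟩ - ⟨b, -1, 0⟩ : O) = ((a - b : ℤ) : O) by
        ext <;> simp, Nm_int] at this
      exact n ((Nat.prime_iff_prime_int.1 hp).dvd_of_dvd_pow this)
    have c : (Dn 0 p).card = 3 := le_antisymm c3 (two_lt_card_iff.2 ⟨x₁, x₂, x₃, m1, m2, m3,
      ne _ _ _ _ m1 d1 d2 n12, ne _ _ _ _ m1 d1 d3 n13, ne _ _ _ _ m2 d2 d3 n23⟩)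
    refine ⟨c, ?_⟩
    obtain ⟨w, hw⟩ := pd
    have w1 : Nm w = 1 := by
      have := congrArg Nm hw
      rw [Nm_mul, pn, c, Nm_nat] at this
      exact mul_left_cancel₀ (by positivity : (p : ℤ) ^ 3 ≠ 0) (by rw [← this, mul_one])
    obtain ⟨n, rfl | rfl⟩ := h.2.2.1 w ((h.2.1 w).2 (.inl w1))
    · exact ⟨-n, by rw [hw, zpow_neg, mul_comm _ ((tU ^ n : Oˣ) : O), Units.inv_mul_cancel_left]⟩
    · have := (h.2.2.2.2.2.1 n 1 one_ne_zero).2.1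
      rw [mul_one, Nm_one] at this
      rw [Nm_neg, this] at w1
      omega
  · have hi := irr_CSplit h hp hx
    obtain ⟨ν, hν, d⟩ := nu x hx
    refine ⟨hi.prime, fun l hl a => ?_, fun h7 => ⟨fun l hl a => ?_, ?_⟩, ν, hν, fun s t ⟨k, hk⟩ => ?_⟩
    · have := Nm_dvd_CSplit ((O.natCast_dvd l x).2 ⟨a 0, a 1, a 2⟩)
      rw [Nm_nat, hx] at this
      exact cube_CSplit hl hp this
    · have := Nm_dvd_CSplit ((O.natCast_dvd l (mu * x)).2
        ⟨(dvd_add_left (a 0)).1 (a 2), a 1, a 0⟩)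
      rw [Nm_nat, Nm_mul, hx, Nm_mu] at this
      by_cases l7 : l = 7
      · subst l7
        have : (7 : ℤ) ∣ p := by omega
        exact h7 ((Nat.prime_dvd_prime_iff_eq (by norm_num) hp).1 (by exact_mod_cast this)).symm
      · refine cube_CSplit hl hp (IsCoprime.dvd_of_dvd_mul_left ?_ this)
        have c : IsCoprime (l : ℤ) (7 : ℕ) :=
          Nat.isCoprime_iff_coprime.2 ((Nat.coprime_primes hl (by norm_num)).2 l7)
        simpa using c.pow (m := 3) (n := 2)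
    · refine (hi.coprime_iff_not_dvd.2 fun a => h7 ?_).symm
      have := Nm_dvd_CSplit a
      rw [hx, Nm_mu] at this
      have b : p ∣ 7 ^ 2 := by exact_mod_cast this
      exact (Nat.prime_dvd_prime_iff_eq hp (by norm_num)).1 (hp.dvd_of_dvd_pow b)
    · have e : (⟨s, -t, 0⟩ : O) = ⟨ν, -1, 0⟩ * t + p * k := by
        ext <;> simp
        linear_combination hk
      rw [e]
      exact (d.mul_right _).add ((dvd_p_CSplit hx).mul_right _)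

end Pool.Agent.MP_adc87d_lc.Big

end
end

section

/-! The variance over planes. -/

set_option autoImplicit false

noncomputable section

open Finset
open scoped Classical

namespace Pool.Agent.MP_adc87d_lc.Big

open Pool.Agent.MP_2a1f0e_nt (ex)

theorem clp_CVar (a b : ℝ) : 0 ≤ clp a ∧ clp a ≤ 1 ∧ |clp a - clp b| ≤ |a - b| := by
  refine ⟨le_max_left _ _, max_le zero_le_one (min_le_left _ _), ?_⟩
  refine (abs_max_sub_max_le_max _ _ _ _).trans (max_le (by simp) ?_)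
  exact (abs_min_sub_min_le_max _ _ _ _).trans (max_le (by simp) le_rfl)

theorem wt_CVar {c H : ℝ} (hc : 1 ≤ c) (hH : 0 < H) (r s : Fin 3 → ℝ) :
    0 ≤ wt c H r ∧ wt c H r ≤ 1 ∧ |wt c H r - wt c H s| ≤ 3 * c / H * ‖r - s‖ := by
  obtain ⟨a1, a2, a3⟩ := clp_CVar (2 * c * ‖r‖ / H - 1) (2 * c * ‖s‖ / H - 1)
  obtain ⟨b1, b2, b3⟩ := clp_CVar (2 - ‖r‖ / H) (2 - ‖s‖ / H)
  obtain ⟨d1, d2, -⟩ := clp_CVar (2 * c * ‖s‖ / H - 1) 0
  have h := abs_norm_sub_norm_le r s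
  have e1 : |2 * c * ‖r‖ / H - 1 - (2 * c * ‖s‖ / H - 1)| ≤ 2 * c / H * ‖r - s‖ := by
    rw [show 2 * c * ‖r‖ / H - 1 - (2 * c * ‖s‖ / H - 1) = 2 * c / H * (‖r‖ - ‖s‖) by ring, abs_mul,
      abs_of_nonneg (by positivity)]
    gcongr
  have e2 : |2 - ‖r‖ / H - (2 - ‖s‖ / H)| ≤ c / H * ‖r - s‖ := by
    rw [show 2 - ‖r‖ / H - (2 - ‖s‖ / H) = -(1 / H * (‖r‖ - ‖s‖)) by ring, abs_neg, abs_mul,
      abs_of_nonneg (by positivity)]
    gcongr
  refine ⟨mul_nonneg a1 b1, mul_le_one₀ a2 b1 b2, ?_⟩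
  unfold wt
  generalize clp (2 * c * ‖r‖ / H - 1) = p at *
  generalize clp (2 * c * ‖s‖ / H - 1) = p' at *
  generalize clp (2 - ‖r‖ / H) = q at *
  generalize clp (2 - ‖s‖ / H) = q' at *
  rw [show p * q - p' * q' = q * (p - p') + p' * (q - q') by ring]
  refine (abs_add_le _ _).trans ?_
  rw [abs_mul, abs_mul, abs_of_nonneg b1, abs_of_nonneg d1]
  have f1 := mul_le_of_le_one_left (abs_nonneg (p - p')) b2
  have f2 := mul_le_of_le_one_left (abs_nonneg (q - q')) d2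
  have f3 : 3 * c / H * ‖r - s‖ = 2 * c / H * ‖r - s‖ + c / H * ‖r - s‖ := by ring
  linarith

theorem cr1_CVar (a b : Fin 3 → ℤ) (i : Fin 3) :
    |((crossProduct a b i : ℤ) : ℝ)| ≤ 2 * (‖a‖ * ‖b‖) := by
  have h : ∀ j k, |(a j : ℝ) * b k| ≤ ‖a‖ * ‖b‖ := fun j k => by
    rw [abs_mul, ← Int.norm_eq_abs, ← Int.norm_eq_abs]
    exact mul_le_mul (norm_le_pi_norm a j) (norm_le_pi_norm b k) (norm_nonneg _) (norm_nonneg _)
  have h2 : ∀ j k, |((a j * b k - a k * b j : ℤ) : ℝ)| ≤ 2 * (‖a‖ * ‖b‖) := fun j k => by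
    push_cast
    linarith [abs_sub ((a j : ℝ) * b k) (a k * b j), h j k, h k j]
  rw [cross_apply]
  fin_cases i
  · exact h2 1 2
  · exact h2 2 0
  · exact h2 0 1

theorem cr2_CVar {β γ x y : Fin 3 → ℤ} {B D v : ℝ} (hv : 0 < v) (h1 : ‖γ‖ ≤ B) (h2 : ‖x‖ ≤ B)
    (h3 : ‖β - x‖ ≤ D) (h4 : ‖γ - y‖ ≤ D) :
    ‖(fun i => (crossProduct β γ i : ℝ) / v) - fun i => (crossProduct x y i : ℝ) / v‖ ≤
      4 * D * B / v := by
  have hB := (norm_nonneg _).trans h1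
  have hD := (norm_nonneg _).trans h3
  refine (pi_norm_le_iff_of_nonneg (by positivity)).2 fun i => ?_
  have e : crossProduct β γ i - crossProduct x y i =
      crossProduct (β - x) γ i + crossProduct x (γ - y) i := by
    simp only [map_sub, LinearMap.sub_apply, Pi.sub_apply]
    ring
  have e' : ((crossProduct β γ i : ℤ) : ℝ) - (crossProduct x y i : ℤ) =
      (crossProduct (β - x) γ i : ℤ) + (crossProduct x (γ - y) i : ℤ) := by exact_mod_cast e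
  rw [Pi.sub_apply, ← sub_div, Real.norm_eq_abs, abs_div, abs_of_pos hv, e']
  refine div_le_div_of_nonneg_right ((abs_add_le _ _).trans ?_) hv.le
  have a1 := cr1_CVar (β - x) γ i
  have a2 := cr1_CVar x (γ - y) i
  have a3 := mul_le_mul h3 h1 (norm_nonneg _) hD
  have a4 := mul_le_mul h2 h4 (norm_nonneg _) hB
  linarith

theorem inv_CVar (V : ℕ) {y : ℝ} (hy : 0 < y) :
    ∑ v ∈ (Icc 1 V).filter fun v : ℕ => y ≤ v, ((v : ℝ) ^ 2)⁻¹ ≤ 2 / y := by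
  obtain ⟨k, hk⟩ : ∃ k, ⌈y⌉₊ = k + 1 := ⟨⌈y⌉₊ - 1, by have := Nat.ceil_pos.2 hy; omega⟩
  have h1 : y ≤ (k : ℝ) + 1 := by
    have := Nat.le_ceil y
    rw [hk] at this
    exact_mod_cast this
  refine le_trans (sum_le_sum_of_subset_of_nonneg (t := Ioo k (V + 1)) (fun v hv => ?_)
    fun _ _ _ => by positivity) ((sum_Ioo_inv_sq_le k (V + 1)).trans (by gcongr))
  obtain ⟨h2, h3⟩ := mem_filter.1 hv
  have := Nat.ceil_le.2 h3
  have := (mem_Icc.1 h2).2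
  exact mem_Ioo.2 ⟨by omega, by omega⟩

theorem frz_CVar {α ι : Type} [Fintype ι] (S : Finset α) (g : ι → α → ℝ) (P : α → α → Prop)
    [∀ β γ, Decidable (P β γ)] (w : α → α → ℝ) (ω : ι → ι → ℝ) {ε G : ℝ} (hε : 0 ≤ ε)
    (hw : ∀ i j, ∀ β ∈ S, ∀ γ ∈ S, g i β ≠ 0 → g j γ ≠ 0 → |w β γ - ω i j| ≤ ε)
    (hω : ∀ i j, 0 ≤ ω i j ∧ ω i j ≤ 1) (hG : ∀ β ∈ S, ∑ i, |g i β| ≤ G) :
    (∑ β ∈ S, ∑ γ ∈ S, if P β γ then (∑ i, g i β) * (∑ i, g i γ) * w β γ else 0) ≤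
      ∑ i, ∑ j, |∑ β ∈ S, ∑ γ ∈ S, if P β γ then g i β * g j γ else 0| +
        ε * G ^ 2 * ∑ β ∈ S, ((S.filter (P β)).card : ℝ) := by
  have h1 : ∀ β ∈ S, ∀ γ ∈ S, (if P β γ then (∑ i, g i β) * (∑ i, g i γ) * w β γ else 0) ≤
      ∑ i, ∑ j, ω i j * (if P β γ then g i β * g j γ else 0) +
        ε * G ^ 2 * (if P β γ then 1 else 0) := by
    intro β hβ γ hγ
    split_ifs
    · have a1 : (∑ i, g i β) * (∑ i, g i γ) * w β γ ≤
          ∑ i, ∑ j, (ω i j * (g i β * g j γ) + ε * (|g i β| * |g j γ|)) := by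
        rw [sum_mul_sum, sum_mul]
        refine sum_le_sum fun i _ => ?_
        rw [sum_mul]
        refine sum_le_sum fun j _ => ?_
        by_cases e1 : g i β = 0
        · simp [e1]
        by_cases e2 : g j γ = 0
        · simp [e2]
        have b1 := mul_le_mul_of_nonneg_right (hw i j β hβ γ hγ e1 e2)
          (abs_nonneg (g i β * g j γ))
        have b2 := le_abs_self ((w β γ - ω i j) * (g i β * g j γ))
        rw [abs_mul] at b2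
        rw [← abs_mul]
        linarith
      simp only [sum_add_distrib, ← mul_sum, ← sum_mul] at a1
      have a2 : 0 ≤ ∑ i, |g i γ| := sum_nonneg fun _ _ => abs_nonneg _
      have a3 := mul_le_mul (hG β hβ) (hG γ hγ) a2
        ((sum_nonneg fun _ _ => abs_nonneg _).trans (hG β hβ))
      have a4 := mul_le_mul_of_nonneg_left a3 hε
      linarith
    · simp
  refine (sum_le_sum fun β hβ => sum_le_sum fun γ hγ => h1 β hβ γ hγ).trans ?_
  simp only [sum_add_distrib, ← mul_sum, sum_boole]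
  refine add_le_add ?_ le_rfl
  have e : ∑ β ∈ S, ∑ γ ∈ S, ∑ i, ∑ j, ω i j * (if P β γ then g i β * g j γ else 0) =
      ∑ i, ∑ j, ω i j * ∑ β ∈ S, ∑ γ ∈ S, if P β γ then g i β * g j γ else 0 := by
    simp only [mul_sum]
    refine ((sum_congr rfl fun _ _ => sum_comm).trans sum_comm).trans (sum_congr rfl fun _ _ => ?_)
    exact (sum_congr rfl fun _ _ => sum_comm).trans sum_comm
  rw [e]
  refine sum_le_sum fun i _ => sum_le_sum fun j _ => (le_abs_self _).trans ?_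
  rw [abs_mul, abs_of_nonneg (hω i j).1]
  exact mul_le_of_le_one_left (abs_nonneg _) (hω i j).2

theorem cvar (h1 : V1Stmt) (h2 : V3Stmt) (h3 : V4Stmt) : VarStmt := by
  intro c hc
  obtain ⟨C₃, c3, h2⟩ := h2
  obtain ⟨C₄, c4, h3⟩ := h3 c hc
  refine ⟨C₄ + 35000 * c + 108 * C₃, by linarith, ?_⟩
  intro B H K Q G δ η ι _ S R g hB hBH hK hQ hG hδ hη hV hS hR hd hT
  have B0 : 0 < B := by linarith
  have H0 : 0 < H := by linarith
  have K0 : 0 < K := by linarith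
  have Q0 : 0 < Q := by linarith
  obtain ⟨V, V1, V2⟩ : ∃ V : ℕ, 4 * c * B ^ 2 / H ≤ V ∧ (V : ℝ) ^ 2 ≤ B :=
    ⟨⌈4 * c * B ^ 2 / H⌉₊, Nat.le_ceil _, le_trans (pow_le_pow_left₀ (Nat.cast_nonneg _)
      (Nat.ceil_lt_add_one (by positivity)).le 2) hV⟩
  have V3 : (V : ℝ) ≤ B := le_trans (by exact_mod_cast Nat.le_self_pow two_ne_zero V) V2
  have y0 : 0 < B ^ 2 / (H * K) := by positivity
  have hc27 := h1.1 B S hB fun β hβ => (hS β hβ).2.2.1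
  have hg : ∀ i, ∀ β ∈ S, |g i β| ≤ G := fun i β hβ => (single_le_sum (f := fun i => |g i β|)
    (fun _ _ => abs_nonneg _) (mem_univ i)).trans (hS β hβ).2.2.2
  have s1 : ∀ i, ∑ β ∈ S, |g i β| ≤ 27 * B ^ 3 * G := fun i =>
    (sum_le_card_nsmul _ _ G (hg i)).trans (by rw [nsmul_eq_mul]; gcongr)
  have s2 : ∀ i, ∑ β ∈ S, g i β ^ 2 ≤ 27 * B ^ 3 * G ^ 2 := fun i =>
    (sum_le_card_nsmul _ _ (G ^ 2) fun β hβ => sq_le_sq' (abs_le.1 (hg i β hβ)).1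
      (abs_le.1 (hg i β hβ)).2).trans (by rw [nsmul_eq_mul]; gcongr)
  obtain ⟨x, hx⟩ : ∃ x : ι → Fin 3 → ℤ, ∀ i, ∀ β ∈ S, g i β ≠ 0 → x i ∈ S ∧ g i (x i) ≠ 0 := by
    have : ∀ i, ∃ x, ∀ β ∈ S, g i β ≠ 0 → x ∈ S ∧ g i x ≠ 0 := fun i => by
      by_cases h : ∃ x ∈ S, g i x ≠ 0
      · obtain ⟨x, h⟩ := h
        exact ⟨x, fun _ _ _ => h⟩
      · exact ⟨0, fun β hβ e => (h ⟨β, hβ, e⟩).elim⟩
    exact ⟨_, fun i => (this i).choose_spec⟩
  have main := h3 B H K G V S R (fun β => ∑ i, g i β) hB hBH hK hG V1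
    (fun β hβ => ⟨(hS β hβ).1, (hS β hβ).2.1, (hS β hβ).2.2.1,
      (abs_sum_le_sum_abs _ _).trans (hS β hβ).2.2.2⟩) hR
  have t1 : ∀ v ∈ (Icc 1 V).filter fun v : ℕ => B ^ 2 / (H * K) ≤ v,
      (∑ β ∈ S, ∑ γ ∈ S, if ∀ i, (v : ℤ) ∣ crossProduct β γ i then (∑ i, g i β) * (∑ i, g i γ) *
        wt c H (fun i => (crossProduct β γ i : ℝ) / v) else 0) ≤
      ∑ i, ∑ j, |Ev S (g i) (g j) v| + 8748 * c * δ * K * G ^ 2 * B ^ 6 * ((v : ℝ) ^ 2)⁻¹ := by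
    intro v hv
    obtain ⟨v1, v2⟩ := mem_filter.1 hv
    obtain ⟨v1, v3⟩ := mem_Icc.1 v1
    have v0 : (0 : ℝ) < v := by exact_mod_cast v1
    refine (frz_CVar S g (fun β γ => ∀ i, (v : ℤ) ∣ crossProduct β γ i) _
      (fun i j => wt c H fun k => (crossProduct (x i) (x j) k : ℝ) / v) (ε := 12 * c * δ * K)
      (by positivity) (fun i j β hβ γ hγ e1 e2 => ?_)
      (fun i j => ⟨(wt_CVar hc H0 _ 0).1, (wt_CVar hc H0 _ 0).2.1⟩)
      fun β hβ => (hS β hβ).2.2.2).trans (add_le_add le_rfl ?_)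
    · obtain ⟨a1, a2⟩ := hx i β hβ e1
      obtain ⟨a3, a4⟩ := hx j γ hγ e2
      have a5 := cr2_CVar v0 (hS γ hγ).2.2.1 (hS _ a1).2.2.1 (hd i β hβ _ a1 e1 a2)
        (hd j γ hγ _ a3 e2 a4)
      refine (wt_CVar hc H0 _ _).2.2.trans ?_
      calc _ ≤ 3 * c / H * (4 * (δ * B) * B / (B ^ 2 / (H * K))) :=
            mul_le_mul_of_nonneg_left (a5.trans (by gcongr)) (by positivity)
        _ = _ := by field_simp; ring
    · have a1 := sum_le_card_nsmul S (fun β => ((S.filter fun γ =>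
          ∀ i, (v : ℤ) ∣ crossProduct β γ i).card : ℝ)) (27 * B ^ 3 / (v : ℝ) ^ 2) fun β hβ =>
        h1.2.2.2.2.1 β v B _ (hS β hβ).1 v1 (le_trans (by exact_mod_cast v3) V3) fun γ hγ =>
          ⟨(hS γ (mem_filter.1 hγ).1).2.2.1, (mem_filter.1 hγ).2⟩
      rw [nsmul_eq_mul] at a1
      calc _ ≤ 12 * c * δ * K * G ^ 2 * (27 * B ^ 3 * (27 * B ^ 3 / (v : ℝ) ^ 2)) :=
            mul_le_mul_of_nonneg_left (a1.trans (by gcongr)) (by positivity)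
        _ = _ := by ring
  have t2 := sum_le_sum t1
  rw [sum_add_distrib, ← mul_sum] at t2
  have t3 : ∑ i, ∑ v ∈ (Icc 1 V).filter fun v : ℕ => B ^ 2 / (H * K) ≤ v,
      ∑ j, |Ev S (g i) (g j) v| ≤ (Fintype.card ι : ℝ) ^ 2 * (C₃ / (B ^ 2 / (H * K)) *
        (Q ^ 4 * η * (27 * B ^ 3 * G) + B ^ 3 * (27 * B ^ 3 * G ^ 2 + 27 * B ^ 3 * G ^ 2) / Q)) := by
    rw [sq (Fintype.card ι : ℝ), mul_assoc (Fintype.card ι : ℝ), ← nsmul_eq_mul, ← card_univ]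
    refine sum_le_card_nsmul _ _ _ fun i _ => ?_
    rw [sum_comm, ← nsmul_eq_mul]
    refine sum_le_card_nsmul _ _ _ fun j _ => ?_
    refine (h2 B _ Q η V S (g i) (g j) hB V2 y0 hη hQ
      (fun β hβ => ⟨(hS β hβ).1, (hS β hβ).2.2.1⟩) (hT i)).trans ?_
    have := s1 j
    have := s2 i
    have := s2 j
    gcongr
  have t4 := mul_le_mul_of_nonneg_left (inv_CVar V y0)
    (by positivity : 0 ≤ 8748 * c * δ * K * G ^ 2 * B ^ 6)
  generalize (Fintype.card ι : ℝ) = n at t3 ⊢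
  obtain ⟨X₁, e1⟩ : ∃ X, X = G ^ 2 * B ^ 4 * H * (1 / K) := ⟨_, rfl⟩
  obtain ⟨X₂, e2⟩ : ∃ X, X = G ^ 2 * B ^ 4 * H * (δ * K ^ 2) := ⟨_, rfl⟩
  obtain ⟨X₃, e3⟩ : ∃ X, X = G ^ 2 * B ^ 4 * H * (n ^ 2 * K / Q) := ⟨_, rfl⟩
  obtain ⟨X₄, e4⟩ : ∃ X, X = G ^ 2 * B ^ 2 * H ^ 2 := ⟨_, rfl⟩
  obtain ⟨X₅, e5⟩ : ∃ X, X = n ^ 2 * K * Q ^ 4 * η * G * B * H := ⟨_, rfl⟩
  have p1 : 0 ≤ X₁ := by rw [e1]; positivity
  have p2 : 0 ≤ X₂ := by rw [e2]; positivity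
  have p3 : 0 ≤ X₃ := by rw [e3]; positivity
  have p4 : 0 ≤ X₄ := by rw [e4]; positivity
  have p5 : 0 ≤ X₅ := by rw [e5]; positivity
  have f1 : C₄ * G ^ 2 * (B ^ 4 * H / K + B ^ 2 * H ^ 2) = C₄ * (X₁ + X₄) := by rw [e1, e4]; ring
  have f2 : 8748 * c * δ * K * G ^ 2 * B ^ 6 * (2 / (B ^ 2 / (H * K))) = 17496 * (c * X₂) := by
    rw [e2]; field_simp; ring
  have f3 : n ^ 2 * (C₃ / (B ^ 2 / (H * K)) * (Q ^ 4 * η * (27 * B ^ 3 * G) +
      B ^ 3 * (27 * B ^ 3 * G ^ 2 + 27 * B ^ 3 * G ^ 2) / Q)) = C₃ * (27 * X₅ + 54 * X₃) := by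
    rw [e3, e5]; field_simp; ring
  rw [f1] at main
  rw [f2] at t4
  rw [f3, sum_comm] at t3
  rw [mul_add (G ^ 2 * B ^ 4 * H), mul_add (G ^ 2 * B ^ 4 * H), ← e1, ← e2, ← e3, ← e4, ← e5]
  have q1 := mul_nonneg (zero_le_one.trans c4) (by positivity : 0 ≤ X₂ + X₃ + X₅)
  have q2 := mul_nonneg (zero_le_one.trans hc) (by positivity : 0 ≤ X₁ + X₃ + X₄ + X₅)
  have q3 := mul_nonneg (zero_le_one.trans hc) p2
  have q4 := mul_nonneg (zero_le_one.trans c3) (by positivity : 0 ≤ X₁ + X₂ + X₄)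
  have q5 := mul_nonneg (zero_le_one.trans c3) p5
  linarith

end Pool.Agent.MP_adc87d_lc.Big

end
end
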