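import Mathlib
import Pool.Agent.Mg.Fadc87d.G0908ea

set_option linter.all false

section

/-! Sizes, diameters and the trivial count. -/

set_option autoImplicit false

noncomputable section

open Finset
open scoped Classical

namespace Pool.Agent.MP_adc87d_lc.Big

open Pool.Agent.MP_2a1f0e_nt (ex)

theorem vec_le_CSz (w : O) : ‖vec w‖ ≤ 4 * (|xr w| + ‖zr w‖) := by
  refine le_trans ?_ (norm_le_emb (rc w))
  refine (pi_norm_le_iff_of_nonneg (norm_nonneg _)).2 fun i => ?_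
  rw [Int.norm_eq_abs]
  exact norm_le_pi_norm (rc w) i

theorem co_CSz (w : O) : |(w.a : ℝ)| ≤ ‖vec w‖ ∧ |(w.b : ℝ)| ≤ ‖vec w‖ ∧ |(w.c : ℝ)| ≤ ‖vec w‖ :=
  ⟨norm_le_pi_norm (vec w) 0, norm_le_pi_norm (vec w) 1, norm_le_pi_norm (vec w) 2⟩

theorem nm_le_CSz (w : O) : (Nm w : ℝ) ≤ 11 * ‖vec w‖ ^ 3 := by
  obtain ⟨ha, hb, hc⟩ := co_CSz w
  have h : ∀ p q r : ℝ, |p| ≤ ‖vec w‖ → |q| ≤ ‖vec w‖ → |r| ≤ ‖vec w‖ →
      -‖vec w‖ ^ 3 ≤ p * q * r ∧ p * q * r ≤ ‖vec w‖ ^ 3 := fun p q r a b c => by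
    rw [← abs_le, abs_mul, abs_mul, pow_succ, pow_two]
    gcongr
  have e : (Nm w : ℝ) = (w.a : ℝ) * w.a * w.a + w.b * w.b * w.b + w.c * w.c * w.c +
      2 * (w.a * w.a * w.c) + w.a * w.c * w.c - w.a * w.b * w.b - w.b * w.c * w.c -
      3 * (w.a * w.b * w.c) := by
    simp only [Nm, nf]
    push_cast
    ring
  rw [e]
  linarith [(h _ _ _ ha ha ha).2, (h _ _ _ hb hb hb).2, (h _ _ _ hc hc hc).2, (h _ _ _ ha ha hc).2,
    (h _ _ _ ha hc hc).2, (h _ _ _ ha hb hb).1, (h _ _ _ hb hc hc).1, (h _ _ _ ha hb hc).1]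

theorem rv_CSz (w : O) : ‖rv w‖ ≤ 2 * ‖vec w‖ ∧ ‖vec w‖ ≤ 2 * ‖rv w‖ := by
  obtain ⟨ha, hb, hc⟩ := co_CSz w
  have r0 : |(w.c : ℝ)| ≤ ‖rv w‖ := norm_le_pi_norm (rv w) 0
  have r1 : |(w.b : ℝ)| ≤ ‖rv w‖ := norm_le_pi_norm (rv w) 1
  have r2 : |((w.a + w.c : ℤ) : ℝ)| ≤ ‖rv w‖ := norm_le_pi_norm (rv w) 2
  have n1 := norm_nonneg (vec w)
  have n2 := norm_nonneg (rv w)
  have t1 := abs_add_le (w.a : ℝ) w.c
  have t2 := abs_sub ((w.a : ℝ) + w.c) w.c
  rw [add_sub_cancel_right] at t2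
  constructor
  · refine (pi_norm_le_iff_of_nonneg (by positivity)).2 fun i => ?_
    fin_cases i
    · exact le_trans hc (by linarith)
    · exact le_trans hb (by linarith)
    · change |((w.a + w.c : ℤ) : ℝ)| ≤ _
      push_cast
      linarith
  · refine (pi_norm_le_iff_of_nonneg (by positivity)).2 fun i => ?_
    push_cast at r2
    fin_cases i
    · change |(w.a : ℝ)| ≤ _
      linarith
    · exact le_trans r1 (by linarith)
    · exact le_trans r0 (by linarith)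

theorem tau_CSz : Real.log thr ≤ 1 := by
  have := Real.log_le_sub_one_of_pos (by linarith [thr_gt] : 0 < thr)
  linarith [thr_lt]

theorem polar_CSz {x : O} (h : 0 < xr x) :
    xr x = Real.exp (Real.log (Nm x) / 3 + Real.log thr * eta x) ∧
      ‖zr x‖ = Real.exp (Real.log (Nm x) / 3 - Real.log thr * eta x / 2) := by
  have c := norm_pos_iff.2 (zr_ne (ne_of_xr_pos h))
  have n : (0 : ℝ) < Nm x := by exact_mod_cast Nm_pos h
  have h0 : 0 < thr := by linarith [thr_gt]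
  have e1 := congrArg Real.log (xr_cube h)
  rw [Real.log_pow, Real.log_mul n.ne' (Real.rpow_pos_of_pos h0 _).ne', Real.log_rpow h0] at e1
  have e2 := congrArg Real.log (Nm_eq x)
  rw [Real.log_mul h.ne' (by positivity), Real.log_pow] at e2
  push_cast at e1 e2
  constructor
  · rw [← Real.exp_log h]
    congr 1
    linarith
  · rw [← Real.exp_log c]
    congr 1
    linarith

theorem cube_CSz {y : ℝ} (h : 0 < y) : Real.exp (Real.log y / 3) ^ 3 = y := by
  rw [← Real.exp_nat_mul]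
  push_cast
  rw [mul_div_cancel₀ _ (by norm_num), Real.exp_log h]

theorem emb_CSz {T : ℝ} {x : O} (h : 0 < xr x) (he : |eta x| ≤ T) :
    xr x ≤ Real.exp T * Real.exp (Real.log (Nm x) / 3) ∧
      ‖zr x‖ ≤ Real.exp T * Real.exp (Real.log (Nm x) / 3) := by
  obtain ⟨a, b⟩ := polar_CSz h
  have t : |Real.log thr * eta x| ≤ T := by
    rw [abs_mul, abs_of_pos log_thr_pos]
    exact (mul_le_of_le_one_left (abs_nonneg _) tau_CSz).trans he
  have t0 := (abs_nonneg _).trans he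
  rw [abs_le] at t
  rw [a, b, ← Real.exp_add]
  exact ⟨Real.exp_le_exp.2 (by linarith [t.2]), Real.exp_le_exp.2 (by linarith [t.1])⟩

theorem size_CSz {T : ℝ} {x : O} (h : 0 < xr x) (he : |eta x| ≤ T) :
    ‖vec x‖ ≤ 8 * Real.exp T * Real.exp (Real.log (Nm x) / 3) := by
  obtain ⟨a, b⟩ := emb_CSz h he
  have := vec_le_CSz x
  rw [abs_of_pos h] at this
  linarith

theorem exp_lip_CSz (a b K : ℝ) (ha : Real.exp a ≤ K) (hb : Real.exp b ≤ K) :
    |Real.exp a - Real.exp b| ≤ K * |a - b| := by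
  have key : ∀ a b : ℝ, Real.exp a ≤ K → Real.exp a - Real.exp b ≤ K * |a - b| := by
    intro a b ha
    have h1 := Real.add_one_le_exp (b - a)
    have h2 : Real.exp b = Real.exp a * Real.exp (b - a) := by
      rw [← Real.exp_add]
      congr 1
      ring
    have h3 := Real.exp_pos a
    calc Real.exp a - Real.exp b ≤ Real.exp a * (a - b) := by rw [h2]; nlinarith
      _ ≤ Real.exp a * |a - b| := by gcongr; exact le_abs_self _
      _ ≤ K * |a - b| := by gcongr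
  rw [abs_le]
  have := key b a hb
  rw [abs_sub_comm] at this
  exact ⟨by linarith, key a b ha⟩

theorem log_lip_CSz (a b m e : ℝ) (hm : 0 < m) (ha : m ≤ a) (hb : m ≤ b) (h : |a - b| ≤ e * m) :
    |Real.log a - Real.log b| ≤ e := by
  have key : ∀ a b : ℝ, m ≤ a → m ≤ b → |a - b| ≤ e * m → Real.log a - Real.log b ≤ e := by
    intro a b ha hb h
    have a0 := hm.trans_le ha
    have b0 := hm.trans_le hb
    have e0 : 0 ≤ e := nonneg_of_mul_nonneg_left ((abs_nonneg _).trans h) hm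
    rw [← Real.log_div a0.ne' b0.ne']
    refine (Real.log_le_sub_one_of_pos (by positivity)).trans ?_
    rw [div_sub_one b0.ne', div_le_iff₀ b0]
    exact (le_abs_self _).trans (h.trans (by gcongr))
  rw [abs_le]
  have := key b a hb ha (by rwa [abs_sub_comm])
  exact ⟨by linarith, key a b ha hb h⟩

theorem arg_CSz (z w : ℂ) (j : ℤ) (δ : ℝ)
    (h : |z.arg / (2 * Real.pi) - w.arg / (2 * Real.pi) - j| ≤ δ) :
    ‖z - w‖ ≤ |‖z‖ - ‖w‖| + ‖w‖ * (7 * δ) := by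
  set e := z.arg / (2 * Real.pi) - w.arg / (2 * Real.pi) - j with he
  have pi0 := Real.pi_pos
  have e1 : z.arg = w.arg + 2 * Real.pi * e + j * (2 * Real.pi) := by
    rw [he]
    field_simp
    ring
  have e2 : Complex.exp (z.arg * Complex.I) =
      Complex.exp (w.arg * Complex.I) * Complex.exp (Complex.I * (2 * Real.pi * e : ℝ)) := by
    rw [← Complex.exp_add, ← mul_one (Complex.exp (_ + _)), ← Complex.exp_int_mul_two_pi_mul_I j,
      ← Complex.exp_add, e1]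
    congr 1
    push_cast
    ring
  have e3 : ‖Complex.exp (z.arg * Complex.I) - Complex.exp (w.arg * Complex.I)‖ ≤ 7 * δ := by
    rw [e2, ← mul_sub_one, norm_mul, Complex.norm_exp_ofReal_mul_I, one_mul]
    refine Real.norm_exp_I_mul_ofReal_sub_one_le.trans ?_
    rw [Real.norm_eq_abs, abs_mul, abs_of_pos (by positivity)]
    have := Real.pi_lt_d2
    have := abs_nonneg e
    nlinarith
  have e4 : z - w = ((‖z‖ - ‖w‖ : ℝ) : ℂ) * Complex.exp (z.arg * Complex.I) +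
      (‖w‖ : ℂ) * (Complex.exp (z.arg * Complex.I) - Complex.exp (w.arg * Complex.I)) := by
    have a := Complex.norm_mul_exp_arg_mul_I z
    have b := Complex.norm_mul_exp_arg_mul_I w
    push_cast
    linear_combination b - a
  rw [e4]
  refine (norm_add_le _ _).trans ?_
  rw [norm_mul, norm_mul, Complex.norm_exp_ofReal_mul_I, mul_one, Complex.norm_real,
    Complex.norm_real, Real.norm_eq_abs, norm_norm]
  gcongr

theorem diam_CSz (T : ℝ) (x y : O) (R δ : ℝ) (j : ℤ) (hR : 0 < R) (hx : 0 < xr x) (hy : 0 < xr y)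
    (ex : |eta x| ≤ T) (ey : |eta y| ≤ T) (x1 : R ^ 3 ≤ Nm x) (x2 : (Nm x : ℝ) ≤ 2 * R ^ 3)
    (y1 : R ^ 3 ≤ Nm y) (y2 : (Nm y : ℝ) ≤ 2 * R ^ 3) (d1 : |(Nm x : ℝ) - Nm y| ≤ δ * R ^ 3)
    (d2 : |eta x - eta y| ≤ δ) (d3 : |ang x - ang y - j| ≤ δ) :
    ‖vec x - vec y‖ ≤ 80 * Real.exp T * δ * R := by
  have R3 : 0 < R ^ 3 := by positivity
  have δ0 : 0 ≤ δ := (abs_nonneg _).trans d2
  have A0 := Real.exp_pos T
  have root : ∀ n : ℝ, R ^ 3 ≤ n → n ≤ 2 * R ^ 3 →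
      Real.exp T * Real.exp (Real.log n / 3) ≤ Real.exp T * (2 * R) := fun n a b => by
    gcongr
    refine le_of_pow_le_pow_left₀ (n := 3) (by norm_num) (by positivity) ?_
    rw [cube_CSz (R3.trans_le a), mul_pow]
    linarith
  obtain ⟨a1, a2⟩ := emb_CSz hx ex
  obtain ⟨b1, b2⟩ := emb_CSz hy ey
  replace a1 := a1.trans (root _ x1 x2)
  replace a2 := a2.trans (root _ x1 x2)
  replace b1 := b1.trans (root _ y1 y2)
  replace b2 := b2.trans (root _ y1 y2)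
  obtain ⟨p1, p2⟩ := polar_CSz hx
  obtain ⟨q1, q2⟩ := polar_CSz hy
  have l := log_lip_CSz _ _ _ _ R3 x1 y1 d1
  have t : |Real.log thr * eta x - Real.log thr * eta y| ≤ δ := by
    rw [← mul_sub, abs_mul, abs_of_pos log_thr_pos]
    exact (mul_le_of_le_one_left (abs_nonneg _) tau_CSz).trans d2
  rw [abs_le] at l t
  have u1 : |xr x - xr y| ≤ Real.exp T * (2 * R) * (2 * δ) := by
    have := exp_lip_CSz _ _ _ (p1 ▸ a1) (q1 ▸ b1)
    rw [← p1, ← q1] at this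
    refine this.trans ?_
    gcongr
    rw [abs_le]
    constructor <;> linarith [l.1, l.2, t.1, t.2]
  have u2 : |‖zr x‖ - ‖zr y‖| ≤ Real.exp T * (2 * R) * δ := by
    have := exp_lip_CSz _ _ _ (p2 ▸ a2) (q2 ▸ b2)
    rw [← p2, ← q2] at this
    refine this.trans ?_
    gcongr
    rw [abs_le]
    constructor <;> linarith [l.1, l.2, t.1, t.2]
  have u3 := arg_CSz (zr x) (zr y) j δ d3
  have u4 : ‖zr y‖ * (7 * δ) ≤ Real.exp T * (2 * R) * (7 * δ) := by gcongr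
  have u5 := vec_le_CSz (x - y)
  rw [vec_sub, map_sub, map_sub] at u5
  linarith

theorem count_CSz (T y₁ y₂ : ℝ) (h : 0 ≤ y₂) :
    ((Rg T y₁ y₂).card : ℝ) ≤ (24 * Real.exp |T|) ^ 3 * y₂ := by
  rcases lt_or_ge y₂ 1 with c | c
  · have : Rg T y₁ y₂ = ∅ := by
      refine eq_empty_of_forall_notMem fun x hx => ?_
      obtain ⟨a, -, -, b⟩ := mem_Rg.1 hx
      have : (1 : ℝ) ≤ Nm x := by exact_mod_cast Nm_pos a
      linarith
    rw [this, card_empty, Nat.cast_zero]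
    positivity
  have A1 : 1 ≤ Real.exp |T| := Real.one_le_exp (abs_nonneg T)
  have r1 : 1 ≤ Real.exp (Real.log y₂ / 3) :=
    Real.one_le_exp (div_nonneg (Real.log_nonneg c) (by norm_num))
  set B := 8 * Real.exp |T| * Real.exp (Real.log y₂ / 3) with hB
  have B1 : 1 ≤ B := by nlinarith
  have s : (Rg T y₁ y₂).card ≤
      (Fintype.piFinset fun _ : Fin 3 => Icc (-(⌊B⌋₊ : ℤ)) ⌊B⌋₊).card := by
    refine card_le_card_of_injOn vec (fun x hx => ?_) vec.injective.injOn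
    obtain ⟨a, e, -, b⟩ := mem_Rg.1 hx
    have n : (0 : ℝ) < Nm x := by exact_mod_cast Nm_pos a
    have t : ‖vec x‖ ≤ B := by
      refine (size_CSz a (e.trans (le_abs_self T))).trans ?_
      rw [hB]
      gcongr
    rw [mem_coe, Fintype.mem_piFinset]
    intro i
    have t2 : (((vec x i).natAbs : ℕ) : ℝ) ≤ B := by
      rw [Nat.cast_natAbs, Int.cast_abs, ← Int.norm_eq_abs]
      exact (norm_le_pi_norm (vec x) i).trans t
    have := Nat.le_floor t2
    rw [mem_Icc]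
    omega
  rw [Fintype.card_piFinset_const, Int.card_Icc,
    show ((⌊B⌋₊ : ℤ) + 1 - -(⌊B⌋₊ : ℤ)).toNat = 2 * ⌊B⌋₊ + 1 by omega] at s
  have f := Nat.floor_le (by linarith : 0 ≤ B)
  calc ((Rg T y₁ y₂).card : ℝ) ≤ (2 * (⌊B⌋₊ : ℝ) + 1) ^ 3 := by exact_mod_cast s
    _ ≤ (3 * B) ^ 3 := by
        gcongr
        linarith
    _ = (24 * Real.exp |T|) ^ 3 * Real.exp (Real.log y₂ / 3) ^ 3 := by rw [hB]; ring
    _ = _ := by rw [cube_CSz (by linarith)]

theorem csz : SzStmt := by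
  intro T
  have A1 : 1 ≤ Real.exp |T| := Real.one_le_exp (abs_nonneg T)
  have A2 : Real.exp T ≤ Real.exp |T| := Real.exp_le_exp.2 (le_abs_self T)
  have A0 := Real.exp_pos T
  have c1 : 80 * Real.exp |T| ≤ (24 * Real.exp |T|) ^ 3 := by
    have : Real.exp |T| ≤ Real.exp |T| ^ 3 := le_self_pow₀ A1 (by norm_num)
    rw [mul_pow]
    linarith
  refine ⟨(24 * Real.exp |T|) ^ 3, by linarith, fun x hx he => ⟨?_, ?_, rv_CSz x⟩,
    fun x y R δ j hR hx hy ex ey x1 x2 y1 y2 d1 d2 d3 => ?_, fun y₁ y₂ h => count_CSz T y₁ y₂ h⟩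
  · refine (nm_le_CSz x).trans ?_
    rw [mul_pow _ ‖vec x‖]
    gcongr
    calc (11 : ℝ) ≤ 3 ^ 3 := by norm_num
      _ ≤ _ := by gcongr; linarith
  · have n : (0 : ℝ) < Nm x := by exact_mod_cast Nm_pos hx
    calc ‖vec x‖ ^ 3 ≤ (8 * Real.exp T * Real.exp (Real.log (Nm x) / 3)) ^ 3 := by
          gcongr
          exact size_CSz hx he
      _ = (8 * Real.exp T) ^ 3 * Nm x := by rw [mul_pow _ _ 3, cube_CSz n]
      _ ≤ _ := by gcongr; linarith
  · have δ0 : 0 ≤ δ := (abs_nonneg _).trans d2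
    refine (diam_CSz T x y R δ j hR hx hy ex ey x1 x2 y1 y2 d1 d2 d3).trans ?_
    gcongr
    linarith

end Pool.Agent.MP_adc87d_lc.Big

end
end

section

/-! Reduction of the variance over planes to pairs of points. -/

set_option autoImplicit false

noncomputable section

open Finset
open scoped Classical

namespace Pool.Agent.MP_adc87d_lc.Big

open Pool.Agent.MP_2a1f0e_nt (ex)

theorem box_CV4 (M : ℝ) : ∃ T : Finset (Fin 3 → ℤ), ∀ r, r ∈ T ↔ ‖r‖ ≤ M := by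
  refine ⟨(Fintype.piFinset fun _ => Icc (-⌈M⌉) ⌈M⌉).filter fun r => ‖r‖ ≤ M, fun r => ?_⟩
  rw [mem_filter, and_iff_right_iff_imp]
  intro h
  rw [Fintype.mem_piFinset]
  intro i
  have h1 : ‖r i‖ ≤ M := (norm_le_pi_norm r i).trans h
  rw [Int.norm_eq_abs] at h1
  have h2 : |((r i : ℤ) : ℝ)| ≤ (⌈M⌉ : ℝ) := h1.trans (Int.le_ceil M)
  rw [mem_Icc, ← abs_le]
  exact_mod_cast h2

theorem norm_cast_CV4 (r : Fin 3 → ℤ) : ‖fun i => (r i : ℝ)‖ = ‖r‖ := by
  apply le_antisymm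
  · refine (pi_norm_le_iff_of_nonneg (norm_nonneg _)).2 fun i => ?_
    rw [Int.norm_cast_real]
    exact norm_le_pi_norm r i
  · refine (pi_norm_le_iff_of_nonneg (norm_nonneg _)).2 fun i => ?_
    rw [← Int.norm_cast_real]
    exact norm_le_pi_norm (fun i => (r i : ℝ)) i

/-- the weight on integer vectors -/
def wz_CV4 (c H : ℝ) (r : Fin 3 → ℤ) : ℝ := clp (2 * c * ‖r‖ / H - 1) * clp (2 - ‖r‖ / H)

theorem clp_CV4 (u : ℝ) : 0 ≤ clp u ∧ clp u ≤ 1 :=
  ⟨le_max_left _ _, max_le zero_le_one (min_le_left _ _)⟩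

theorem wz_nonneg_CV4 (c H : ℝ) (r : Fin 3 → ℤ) : 0 ≤ wz_CV4 c H r :=
  mul_nonneg (clp_CV4 _).1 (clp_CV4 _).1

theorem wz_le_CV4 (c H : ℝ) (r : Fin 3 → ℤ) : wz_CV4 c H r ≤ 1 :=
  mul_le_one₀ (clp_CV4 _).2 (clp_CV4 _).1 (clp_CV4 _).2

theorem clp_pos_CV4 {u : ℝ} (h : clp u ≠ 0) : 0 < u := by
  by_contra hu
  exact h (max_eq_left ((min_le_right _ _).trans (not_lt.1 hu)))

theorem clp_one_CV4 {u : ℝ} (h : 1 ≤ u) : clp u = 1 := by
  rw [clp, min_eq_left h, max_eq_right zero_le_one]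

theorem wz_ne_CV4 {c H : ℝ} (hH : 0 < H) {r : Fin 3 → ℤ} (h : wz_CV4 c H r ≠ 0) :
    H < 2 * c * ‖r‖ ∧ ‖r‖ ≤ 2 * H := by
  have h1 := clp_pos_CV4 (left_ne_zero_of_mul h)
  have h2 := clp_pos_CV4 (right_ne_zero_of_mul h)
  rw [sub_pos] at h1 h2
  rw [lt_div_iff₀ hH] at h1
  rw [div_lt_iff₀ hH] at h2
  exact ⟨by linarith, h2.le⟩

theorem wz_one_CV4 {c H : ℝ} (hc : 0 < c) (hH : 0 < H) {r : Fin 3 → ℤ} (h1 : H / c ≤ ‖r‖)
    (h2 : ‖r‖ ≤ H) : wz_CV4 c H r = 1 := by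
  rw [div_le_iff₀ hc] at h1
  rw [wz_CV4, clp_one_CV4, clp_one_CV4, one_mul]
  · have : ‖r‖ / H ≤ 1 := (div_le_one hH).2 h2
    linarith
  · have : 2 ≤ 2 * c * ‖r‖ / H := by rw [le_div_iff₀ hH]; linarith
    linarith

theorem cross_le_CV4 {B : ℝ} {β γ : Fin 3 → ℤ} (hβ : ‖β‖ ≤ B) (hγ : ‖γ‖ ≤ B) :
    ‖crossProduct β γ‖ ≤ 2 * B ^ 2 := by
  have hB : 0 ≤ B := (norm_nonneg _).trans hβ
  have key : ∀ i j k l, ‖β i * γ j - β k * γ l‖ ≤ 2 * B ^ 2 := fun i j k l => by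
    have a : ∀ i j, ‖β i * γ j‖ ≤ B ^ 2 := fun i j => by
      rw [pow_two]
      exact (norm_mul_le _ _).trans (mul_le_mul ((norm_le_pi_norm β i).trans hβ)
        ((norm_le_pi_norm γ j).trans hγ) (norm_nonneg _) hB)
    have := norm_sub_le (β i * γ j) (β k * γ l)
    linarith [a i j, a k l]
  refine (pi_norm_le_iff_of_nonneg (by positivity)).2 fun i => ?_
  rw [cross_apply]
  fin_cases i
  · exact key _ _ _ _
  · exact key _ _ _ _
  · exact key _ _ _ _

theorem equiv_CV4 {α : Type} (T : Finset α) (ρ : α → α → Prop) (g : α → ℝ)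
    (h1 : ∀ a ∈ T, ρ a a) (h2 : ∀ a ∈ T, ∀ b ∈ T, ρ a b → ρ b a)
    (h3 : ∀ a ∈ T, ∀ b ∈ T, ∀ d ∈ T, ρ a b → ρ b d → ρ a d) :
    0 ≤ ∑ a ∈ T, ∑ b ∈ T, if ρ a b then g a * g b else 0 := by
  set cl : α → Finset α := fun a => T.filter (ρ a) with hcl
  have e : ∀ a ∈ T, ∀ b ∈ T, (ρ a b ↔ cl b = cl a) := fun a ha b hb => by
    constructor
    · intro h
      ext d
      simp only [hcl, mem_filter]
      exact ⟨fun ⟨hd, h'⟩ => ⟨hd, h3 a ha b hb d hd h h'⟩,
        fun ⟨hd, h'⟩ => ⟨hd, h3 b hb a ha d hd (h2 a ha b hb h) h'⟩⟩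
    · intro h
      have : b ∈ cl b := mem_filter.2 ⟨hb, h1 b hb⟩
      rw [h] at this
      exact (mem_filter.1 this).2
  set F : Finset α → ℝ := fun C => ∑ b ∈ T.filter (fun b => cl b = C), g b with hF
  have e1 : ∑ a ∈ T, ∑ b ∈ T, (if ρ a b then g a * g b else 0) = ∑ a ∈ T, g a * F (cl a) := by
    refine sum_congr rfl fun a ha => ?_
    rw [hF]
    simp only
    rw [mul_sum, sum_filter]
    exact sum_congr rfl fun b hb => if_congr (e a ha b hb) rfl rfl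
  rw [e1, ← sum_fiberwise_of_maps_to (g := cl) (t := T.image cl)
    (fun a ha => mem_image_of_mem _ ha)]
  refine sum_nonneg fun C _ => ?_
  rw [sum_congr rfl (g := fun a => g a * F C) (fun a ha => by rw [(mem_filter.1 ha).2]), ← sum_mul]
  exact mul_self_nonneg _

/-- the weight of a pair at the divisor v -/
def dv_CV4 (c H : ℝ) (v : ℕ) (x : Fin 3 → ℤ) : ℝ :=
  if ∀ i, (v : ℤ) ∣ x i then wt c H (fun i => (x i : ℝ) / v) else 0

theorem wt_CV4 (c H : ℝ) {v : ℕ} (hv : 1 ≤ v) (r : Fin 3 → ℤ) :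
    wt c H (fun i => ((((v : ℤ) • r) i : ℤ) : ℝ) / v) = wz_CV4 c H r := by
  have h0 : (v : ℝ) ≠ 0 := by positivity
  have : (fun i => ((((v : ℤ) • r) i : ℤ) : ℝ) / v) = fun i => (r i : ℝ) := by
    funext i
    simp only [Pi.smul_apply, smul_eq_mul, Int.cast_mul, Int.cast_natCast]
    field_simp
  rw [this, wt, norm_cast_CV4, wz_CV4]

theorem dv_eq_CV4 {c H : ℝ} (hH : 0 < H) {T : Finset (Fin 3 → ℤ)} (hT : ∀ r, r ∈ T ↔ ‖r‖ ≤ 2 * H)
    {v : ℕ} (hv : 1 ≤ v) (x : Fin 3 → ℤ) :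
    ∑ r ∈ T, (if x = (v : ℤ) • r then wz_CV4 c H r else 0) = dv_CV4 c H v x := by
  have h0 : (v : ℤ) ≠ 0 := by positivity
  unfold dv_CV4
  split_ifs with h
  · choose r hr using h
    have e : x = (v : ℤ) • r := funext fun i => by simpa using hr i
    subst e
    rw [wt_CV4 c H hv, sum_eq_single r]
    · rw [if_pos rfl]
    · intro r' _ hne
      exact if_neg fun e => hne (smul_right_injective _ h0 e).symm
    · intro hr'
      rw [if_pos rfl]
      by_contra hw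
      exact hr' ((hT r).2 (wz_ne_CV4 hH hw).2)
  · refine sum_eq_zero fun r _ => if_neg fun e => h fun i => ?_
    rw [e]
    exact Dvd.intro _ rfl

theorem dv_neg_CV4 (c H : ℝ) (v : ℕ) (x : Fin 3 → ℤ) : dv_CV4 c H v (-x) = dv_CV4 c H v x := by
  unfold dv_CV4
  refine if_congr (by simp) ?_ rfl
  have : (fun i => (((-x) i : ℤ) : ℝ) / v) = -fun i => ((x i : ℤ) : ℝ) / v := by
    funext i
    simp [neg_div]
  rw [this, wt, wt, norm_neg]

theorem dv_zero_CV4 (c H : ℝ) (v : ℕ) : dv_CV4 c H v 0 = 0 := by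
  unfold dv_CV4
  have : (fun i => (((0 : Fin 3 → ℤ) i : ℤ) : ℝ) / v) = 0 := by
    funext i
    simp
  rw [this]
  simp [wt, clp]

theorem split_CV4 {c H B : ℝ} {V : ℕ} (hH : 0 < H) (hc : 0 < c) (hV : 4 * c * B ^ 2 / H ≤ V)
    {x r : Fin 3 → ℤ} (hx : x ≠ 0) (hxB : ‖x‖ ≤ 2 * B ^ 2) :
    (if ∃ v : ℤ, x = v • r then wz_CV4 c H r else 0) = ∑ v ∈ Icc 1 V,
      ((if x = (v : ℤ) • r then wz_CV4 c H r else 0) +
        if -x = (v : ℤ) • r then wz_CV4 c H r else 0) := by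
  by_cases hw : wz_CV4 c H r = 0
  · simp [hw]
  have h1 := (wz_ne_CV4 hH hw).1
  have hr : r ≠ 0 := by
    rintro rfl
    rw [norm_zero, mul_zero] at h1
    exact absurd h1 hH.not_gt
  split_ifs with h
  · obtain ⟨u, rfl⟩ := h
    have hu : u ≠ 0 := by
      rintro rfl
      exact hx (zero_smul _ _)
    have hinj : ∀ a b : ℤ, a • r = b • r → a = b := fun a b e => smul_left_injective ℤ hr e
    have hle : u.natAbs ≤ V := by
      rw [norm_smul, Int.norm_eq_abs] at hxB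
      rw [div_le_iff₀ hH] at hV
      have h2 : |(u : ℝ)| * H ≤ V * H := by
        have := mul_le_mul_of_nonneg_left h1.le (abs_nonneg (u : ℝ))
        nlinarith
      have h3 : |(u : ℝ)| ≤ V := le_of_mul_le_mul_right h2 hH
      have h4 : ((u.natAbs : ℤ) : ℝ) ≤ V := by rwa [Int.natCast_natAbs, Int.cast_abs]
      exact_mod_cast h4
    rw [sum_eq_single u.natAbs]
    · rcases Int.natAbs_eq u with e | e
      · rw [if_pos (by rw [← e]), if_neg, add_zero]
        intro e'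
        rw [← neg_smul] at e'
        have := hinj _ _ e'
        omega
      · rw [if_neg, if_pos (by rw [← neg_smul]; congr 1; omega), zero_add]
        intro e'
        have := hinj _ _ e'
        omega
    · intro v _ hv
      rw [if_neg, if_neg, add_zero]
      · intro e'
        rw [← neg_smul] at e'
        have := hinj _ _ e'
        omega
      · intro e'
        have := hinj _ _ e'
        omega
    · intro hn
      exact absurd (mem_Icc.2 ⟨by omega, hle⟩) hn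
  · refine (sum_eq_zero fun v _ => ?_).symm
    rw [if_neg fun e => h ⟨_, e⟩, if_neg fun e => h ⟨-v, by rw [neg_smul, ← e, neg_neg]⟩, add_zero]

theorem orth_CV4 {β γ r : Fin 3 → ℤ} {v : ℤ} (hv : v ≠ 0) (e : crossProduct β γ = v • r) :
    r ⬝ᵥ β = 0 ∧ r ⬝ᵥ γ = 0 := by
  have a := dot_self_cross β γ
  have b := dot_cross_self β γ
  rw [e, dotProduct_smul, smul_eq_mul, mul_eq_zero, dotProduct_comm] at a b
  exact ⟨a.resolve_left hv, b.resolve_left hv⟩

/-- the total weight of a pair -/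
def aa_CV4 (c H : ℝ) (T : Finset (Fin 3 → ℤ)) (β γ : Fin 3 → ℤ) : ℝ :=
  ∑ r ∈ T, if r ⬝ᵥ β = 0 ∧ r ⬝ᵥ γ = 0 ∧ ∃ v : ℤ, crossProduct β γ = v • r then wz_CV4 c H r else 0

theorem aa_eq_CV4 {c H B : ℝ} {V : ℕ} (hH : 0 < H) (hc : 0 < c) (hV : 4 * c * B ^ 2 / H ≤ V)
    {T : Finset (Fin 3 → ℤ)} (hT : ∀ r, r ∈ T ↔ ‖r‖ ≤ 2 * H) {β γ : Fin 3 → ℤ} (hβ : ‖β‖ ≤ B)
    (hγ : ‖γ‖ ≤ B) : aa_CV4 c H T β γ = (if crossProduct β γ = 0 then aa_CV4 c H T β γ else 0) +
      2 * ∑ v ∈ Icc 1 V, dv_CV4 c H v (crossProduct β γ) := by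
  split_ifs with hx
  · rw [hx]
    simp [dv_zero_CV4]
  rw [zero_add, aa_CV4, sum_congr rfl (g := fun r => ∑ v ∈ Icc 1 V,
      ((if crossProduct β γ = (v : ℤ) • r then wz_CV4 c H r else 0) +
        if -crossProduct β γ = (v : ℤ) • r then wz_CV4 c H r else 0)), sum_comm, mul_sum]
  · refine sum_congr rfl fun v hv => ?_
    have hv1 := (mem_Icc.1 hv).1
    rw [sum_add_distrib, dv_eq_CV4 hH hT hv1, dv_eq_CV4 hH hT hv1, dv_neg_CV4, two_mul]
  · intro r _
    rw [← split_CV4 hH hc hV hx (cross_le_CV4 hβ hγ)]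
    refine if_congr ⟨fun h => h.2.2, fun ⟨v, e⟩ => ?_⟩ rfl rfl
    have hv : v ≠ 0 := by
      rintro rfl
      exact hx (e.trans (zero_smul _ _))
    exact ⟨(orth_CV4 hv e).1, (orth_CV4 hv e).2, v, e⟩

theorem cv4 (h : V1Stmt) : V4Stmt := by
  obtain ⟨h1, h2, h3, -, -, h6, h7, h8⟩ := h
  intro c hc
  refine ⟨3456 * c * (2 * c + 1), by nlinarith, ?_⟩
  intro B H K G V S R g hB hBH hK hG hV hS hR
  have hH : 0 < H := by linarith
  have hc0 : 0 < c := by linarith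
  have hB0 : 0 < B := by linarith
  obtain ⟨T, hT⟩ := box_CV4 (2 * H)
  have hcard : (S.card : ℝ) ≤ 27 * B ^ 3 := h1 B S hB fun v hv => (hS v hv).2.2.1
  have hgg : ∀ β ∈ S, ∀ γ ∈ S, |g β * g γ| ≤ G ^ 2 := fun β hβ γ hγ => by
    rw [abs_mul, pow_two]
    exact mul_le_mul (hS β hβ).2.2.2 (hS γ hγ).2.2.2 (abs_nonneg _) hG
  have hinv : ∀ β ∈ S, 1 / ‖β‖ ≤ c / B := fun β hβ => by
    have a := (hS β hβ).2.1
    have b : 0 < ‖β‖ := lt_of_lt_of_le (by positivity) a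
    rw [div_le_iff₀ hc0] at a
    rw [div_le_div_iff₀ b hB0]
    linarith
  have horth : ∀ β ∈ S, ((T.filter fun r => r ⬝ᵥ β = 0).card : ℝ) ≤ 64 * H ^ 2 * (c / B) := by
    intro β hβ
    refine (h2 β (2 * H) _ (hS β hβ).1 (by linarith [(hS β hβ).2.2.1]) fun r hr =>
      ⟨(hT r).1 (mem_filter.1 hr).1, (mem_filter.1 hr).2⟩).trans ?_
    calc 16 * (2 * H) ^ 2 / ‖β‖ = 64 * H ^ 2 * (1 / ‖β‖) := by ring
      _ ≤ _ := mul_le_mul_of_nonneg_left (hinv β hβ) (by positivity)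
  set Kr : (Fin 3 → ℤ) → ℝ := fun r => ∑ β ∈ S.filter (fun β => r ⬝ᵥ β = 0),
    ∑ γ ∈ S.filter (fun β => r ⬝ᵥ β = 0),
      if ∃ v : ℤ, crossProduct β γ = v • r then g β * g γ else 0 with hKr
  have step1 : ∑ r ∈ R, (∑ β ∈ S.filter fun β => r ⬝ᵥ β = 0, g β) ^ 2 ≤
      ∑ r ∈ T, wz_CV4 c H r * Kr r := by
    rw [sum_congr rfl (g := fun r => wz_CV4 c H r * Kr r)]
    · refine sum_le_sum_of_subset_of_nonneg (fun r hr => (hT r).2 (by linarith [(hR r hr).2.2]))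
        fun r _ _ => ?_
      by_cases hw : wz_CV4 c H r = 0
      · rw [hw, zero_mul]
      have hr : r ≠ 0 := by
        rintro rfl
        have := (wz_ne_CV4 hH hw).1
        rw [norm_zero, mul_zero] at this
        exact absurd this hH.not_gt
      refine mul_nonneg (wz_nonneg_CV4 _ _ _) (equiv_CV4 _ _ g (fun a _ => ⟨0, by simp⟩)
        (fun a _ b _ ⟨v, e⟩ => ⟨-v, by rw [← cross_anticomm, e, neg_smul]⟩) ?_)
      rintro a ha b hb d hd ⟨v, e⟩ ⟨v', e'⟩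
      exact h8 a b d r v v' hr (hS b (mem_filter.1 hb).1).1 (mem_filter.1 ha).2
        (mem_filter.1 hb).2 (mem_filter.1 hd).2 e e'
    · intro r hr
      rw [wz_one_CV4 hc0 hH (hR r hr).2.1 (hR r hr).2.2, one_mul, pow_two, sum_mul_sum]
      exact sum_congr rfl fun β hβ => sum_congr rfl fun γ hγ => (if_pos
        (h7 β γ r (hR r hr).1 (mem_filter.1 hβ).2 (mem_filter.1 hγ).2)).symm
  have step2 : ∑ r ∈ T, wz_CV4 c H r * Kr r =
      ∑ β ∈ S, ∑ γ ∈ S, g β * g γ * aa_CV4 c H T β γ := by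
    simp only [hKr, aa_CV4, mul_sum, sum_filter]
    rw [sum_comm]
    refine sum_congr rfl fun β _ => ?_
    rw [sum_comm]
    refine sum_congr rfl fun r _ => ?_
    by_cases a : r ⬝ᵥ β = 0
    · rw [if_pos a, mul_sum]
      refine sum_congr rfl fun γ _ => ?_
      by_cases b : r ⬝ᵥ γ = 0
      · by_cases d : ∃ v : ℤ, crossProduct β γ = v • r
        · rw [if_pos b, if_pos d, if_pos ⟨a, b, d⟩, mul_comm]
        · rw [if_pos b, if_neg d, if_neg fun e => d e.2.2, mul_zero, mul_zero]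
      · rw [if_neg b, if_neg fun e => b e.2.1, mul_zero, mul_zero]
    · rw [if_neg a, mul_zero]
      exact (sum_eq_zero fun γ _ => by rw [if_neg fun e => a e.1, mul_zero]).symm
  have step3 : ∑ β ∈ S, ∑ γ ∈ S, g β * g γ * aa_CV4 c H T β γ =
      ∑ β ∈ S, ∑ γ ∈ S, g β * g γ * (if crossProduct β γ = 0 then aa_CV4 c H T β γ else 0) +
      2 * ∑ v ∈ Icc 1 V, ∑ β ∈ S, ∑ γ ∈ S, g β * g γ * dv_CV4 c H v (crossProduct β γ) := by
    rw [sum_comm (s := Icc 1 V), mul_sum, ← sum_add_distrib]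
    refine sum_congr rfl fun β hβ => ?_
    rw [sum_comm (s := Icc 1 V), mul_sum, ← sum_add_distrib]
    refine sum_congr rfl fun γ hγ => ?_
    rw [← mul_sum]
    have := aa_eq_CV4 hH hc0 hV hT (hS β hβ).2.2.1 (hS γ hγ).2.2.1
    linear_combination (g β * g γ) * this
  have haa : ∀ β ∈ S, ∀ γ, 0 ≤ aa_CV4 c H T β γ ∧ aa_CV4 c H T β γ ≤ 64 * H ^ 2 * (c / B) := by
    intro β hβ γ
    refine ⟨sum_nonneg fun r _ => ?_, le_trans ?_ (horth β hβ)⟩
    · split_ifs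
      · exact wz_nonneg_CV4 _ _ _
      · exact le_rfl
    · rw [card_filter]
      push_cast
      refine sum_le_sum fun r _ => ?_
      by_cases a : r ⬝ᵥ β = 0
      · rw [if_pos a]
        split_ifs
        · exact wz_le_CV4 _ _ _
        · exact zero_le_one
      · rw [if_neg a, if_neg fun e => a e.1]
  have diag : ∑ β ∈ S, ∑ γ ∈ S, g β * g γ *
      (if crossProduct β γ = 0 then aa_CV4 c H T β γ else 0) ≤ 3456 * c * G ^ 2 * (B ^ 2 * H ^ 2) := by
    have a : ∀ β ∈ S, ∑ γ ∈ S, g β * g γ *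
        (if crossProduct β γ = 0 then aa_CV4 c H T β γ else 0) ≤
        2 * (G ^ 2 * (64 * H ^ 2 * (c / B))) := by
      intro β hβ
      simp only [mul_ite, mul_zero]
      rw [← sum_filter]
      have hc2 : ((S.filter fun γ => crossProduct β γ = 0).card : ℝ) ≤ 2 := by
        have : (S.filter fun γ => crossProduct β γ = 0) ⊆ {β, -β} := fun γ hγ => by
          rw [mem_insert, mem_singleton]
          exact h6 β γ (hS β hβ).1 (hS γ (mem_filter.1 hγ).1).1 (mem_filter.1 hγ).2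
        exact_mod_cast (card_le_card this).trans card_le_two
      refine (sum_le_card_nsmul _ _ (G ^ 2 * (64 * H ^ 2 * (c / B))) fun γ hγ => ?_).trans ?_
      · exact mul_le_mul ((le_abs_self _).trans (hgg β hβ γ (mem_filter.1 hγ).1)) (haa β hβ γ).2
          (haa β hβ γ).1 (by positivity)
      · rw [nsmul_eq_mul]
        exact mul_le_mul_of_nonneg_right hc2 (by positivity)
    refine (sum_le_card_nsmul _ _ _ a).trans ?_
    rw [nsmul_eq_mul]
    refine (mul_le_mul_of_nonneg_right hcard (by positivity)).trans (le_of_eq ?_)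
    field_simp
    ring
  have tail1 : ∀ v : ℕ, 1 ≤ v → ∑ β ∈ S, ∑ γ ∈ S, g β * g γ * dv_CV4 c H v (crossProduct β γ) ≤
      27 * B ^ 3 * (G ^ 2 * (64 * H ^ 2 * (c / B) * (2 * c + 1))) := by
    intro v hv
    have a : ∀ β ∈ S, ∑ γ ∈ S, g β * g γ * dv_CV4 c H v (crossProduct β γ) ≤
        G ^ 2 * (64 * H ^ 2 * (c / B) * (2 * c + 1)) := by
      intro β hβ
      have b : ∑ γ ∈ S, dv_CV4 c H v (crossProduct β γ) ≤ 64 * H ^ 2 * (c / B) * (2 * c + 1) := by
        rw [← sum_congr rfl fun γ _ => dv_eq_CV4 hH hT hv (crossProduct β γ), sum_comm]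
        refine le_trans ?_ (mul_le_mul_of_nonneg_right (horth β hβ) (by positivity))
        rw [card_filter]
        push_cast
        rw [sum_mul]
        refine sum_le_sum fun r _ => ?_
        by_cases d : r ⬝ᵥ β = 0
        · rw [if_pos d, one_mul, ← sum_filter]
          refine (sum_le_card_nsmul _ _ 1 fun _ _ => wz_le_CV4 _ _ _).trans ?_
          rw [nsmul_eq_mul, mul_one]
          refine (h3 β ((v : ℤ) • r) B _ (hS β hβ).1 hB0.le fun γ hγ =>
            ⟨(hS γ (mem_filter.1 hγ).1).2.2.1, (mem_filter.1 hγ).2⟩).trans ?_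
          have e : 2 * B / ‖β‖ = 2 * B * (1 / ‖β‖) := by ring
          have e2 : 2 * B * (c / B) = 2 * c := by field_simp
          have := mul_le_mul_of_nonneg_left (hinv β hβ) (by positivity : 0 ≤ 2 * B)
          linarith
        · rw [if_neg d, zero_mul]
          exact (sum_eq_zero fun γ _ => if_neg fun e =>
            d (orth_CV4 (by positivity) e).1).le
      refine le_trans ?_ (mul_le_mul_of_nonneg_left b (by positivity))
      rw [mul_sum]
      refine sum_le_sum fun γ hγ => mul_le_mul_of_nonneg_right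
        ((le_abs_self _).trans (hgg β hβ γ hγ)) ?_
      rw [← dv_eq_CV4 hH hT hv]
      refine sum_nonneg fun r _ => ?_
      split_ifs
      · exact wz_nonneg_CV4 _ _ _
      · exact le_rfl
    refine (sum_le_card_nsmul _ _ _ a).trans ?_
    rw [nsmul_eq_mul]
    exact mul_le_mul_of_nonneg_right hcard (by positivity)
  have tail : ∑ v ∈ (Icc 1 V).filter fun v : ℕ => ¬B ^ 2 / (H * K) ≤ v, ∑ β ∈ S, ∑ γ ∈ S,
      g β * g γ * dv_CV4 c H v (crossProduct β γ) ≤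
      1728 * c * (2 * c + 1) * G ^ 2 * (B ^ 4 * H / K) := by
    have hn : (((Icc 1 V).filter fun v : ℕ => ¬B ^ 2 / (H * K) ≤ v).card : ℝ) ≤
        B ^ 2 / (H * K) := by
      have : ((Icc 1 V).filter fun v : ℕ => ¬B ^ 2 / (H * K) ≤ v) ⊆ Icc 1 ⌊B ^ 2 / (H * K)⌋₊ :=
        fun v hv => mem_Icc.2 ⟨(mem_Icc.1 (mem_filter.1 hv).1).1,
          Nat.le_floor (not_le.1 (mem_filter.1 hv).2).le⟩
      have h4 := card_le_card this
      rw [Nat.card_Icc, Nat.add_sub_cancel] at h4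
      exact le_trans (by exact_mod_cast h4) (Nat.floor_le (by positivity))
    refine (sum_le_card_nsmul _ _ _ fun v hv => tail1 v (mem_Icc.1 (mem_filter.1 hv).1).1).trans ?_
    rw [nsmul_eq_mul]
    refine (mul_le_mul_of_nonneg_right hn (by positivity)).trans (le_of_eq ?_)
    field_simp
    ring
  rw [step2, step3, ← sum_filter_add_sum_filter_not (Icc 1 V)
    (fun v : ℕ => B ^ 2 / (H * K) ≤ v)] at step1
  have e : ∑ v ∈ (Icc 1 V).filter fun v : ℕ => B ^ 2 / (H * K) ≤ v, ∑ β ∈ S, ∑ γ ∈ S,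
      (if ∀ i, (v : ℤ) ∣ crossProduct β γ i then
          g β * g γ * wt c H (fun i => (crossProduct β γ i : ℝ) / v) else 0) =
      ∑ v ∈ (Icc 1 V).filter fun v : ℕ => B ^ 2 / (H * K) ≤ v, ∑ β ∈ S, ∑ γ ∈ S,
        g β * g γ * dv_CV4 c H v (crossProduct β γ) := by
    simp only [dv_CV4, mul_ite, mul_zero]
  rw [e]
  have : 0 ≤ c * c * G ^ 2 * (B ^ 2 * H ^ 2) := by positivity
  nlinarith

end Pool.Agent.MP_adc87d_lc.Big

end
end
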