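import Pool.Agent.Mg.Fadc87d.G0908ea

set_option linter.all false

set_option autoImplicit false

noncomputable section

open Finset
open scoped Classical

namespace Pool.Agent.MP_adc87d_lc.Big

open Pool.Agent.MP_2a1f0e_nt (ex)

theorem tri_CAlg {a b c : ℝ} (ha : |a| ≤ 1) (hb : |b| ≤ 1) (hc : |c| ≤ 1) :
    -1 ≤ a * b * c ∧ a * b * c ≤ 1 := by
  rw [← abs_le, abs_mul, abs_mul]
  exact mul_le_one₀ (mul_le_one₀ ha (abs_nonneg _) hb) (abs_nonneg _) hc

theorem nf_lt_CAlg {a b c : ℝ} (ha : |a| ≤ 1) (hb : |b| ≤ 1) (hc : |c| ≤ 1) : nf a b c < 8 := by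
  have h1 := tri_CAlg ha hb hc
  have h2 := tri_CAlg hb hb hb
  have h3 := tri_CAlg hc hc hc
  have h4 := tri_CAlg ha hb hb
  have h5 := tri_CAlg hb hc hc
  have e : nf a b c = a * (a + c) ^ 2 + c * c * c + b * b * b - a * b * b - b * c * c -
      3 * (a * b * c) := by rw [nf]; ring
  rw [e]
  rw [abs_le] at ha hb hc
  rcases le_total a 0 with a0 | a0
  · have := mul_nonpos_of_nonpos_of_nonneg a0 (sq_nonneg (a + c))
    linarith [h1.1, h2.2, h3.2, h4.1, h5.1]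
  have h6 : 0 ≤ a * b * b := by rw [mul_assoc]; exact mul_nonneg a0 (mul_self_nonneg b)
  rcases le_total c 0 with c0 | c0
  · have k1 : (a + c) ^ 2 ≤ 1 := by nlinarith [ha.2, hc.1]
    have k2 : a * (a + c) ^ 2 ≤ 1 := mul_le_one₀ ha.2 (sq_nonneg _) k1
    linarith [h1.1, h2.2, h3.2, h5.1]
  have k1 : (a + c) ^ 2 ≤ 4 := by nlinarith [ha.2, hc.2]
  have k2 : a * (a + c) ^ 2 ≤ 4 := by nlinarith [ha.2, sq_nonneg (a + c)]
  rcases le_total 0 b with b0 | b0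
  · have k3 : 0 ≤ b * c * c := by positivity
    have k4 : 0 ≤ a * b * c := by positivity
    linarith [h2.2, h3.2]
  · obtain ⟨B, rfl⟩ : ∃ B, b = -B := ⟨-b, by ring⟩
    have B0 : 0 ≤ B := by linarith
    have B1 : B ≤ 1 := by linarith [hb.1]
    have k3 : B * (c * c) ≤ B * 1 := mul_le_mul_of_nonneg_left (by nlinarith [hc.2]) B0
    have k4 : a * B * (3 * c - B) ≤ a * B * (3 - B) :=
      mul_le_mul_of_nonneg_left (by linarith [hc.2]) (mul_nonneg a0 B0)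
    have k5 : a * (B * (3 - B)) ≤ 1 * (B * (3 - B)) :=
      mul_le_mul_of_nonneg_right ha.2 (mul_nonneg B0 (by linarith))
    have k6 : B * (3 - B) ≤ 2 := by nlinarith
    have k7 : B - B * B * B ≤ 1 / 2 := by
      nlinarith [sq_nonneg (B - 1 / 2), mul_nonneg B0 (sq_nonneg (B - 1 / 2))]
    nlinarith [h3.2]

theorem abs_nf_CAlg {a b c : ℝ} (ha : |a| ≤ 1 / 2) (hb : |b| ≤ 1 / 2) (hc : |c| ≤ 1 / 2) :
    |nf a b c| < 1 := by
  have k : ∀ t : ℝ, |t| ≤ 1 / 2 → |2 * t| ≤ 1 ∧ |-2 * t| ≤ 1 := fun t ht => by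
    rw [abs_le] at ht
    constructor <;> rw [abs_le] <;> constructor <;> linarith [ht.1, ht.2]
  have h1 := nf_lt_CAlg (k a ha).1 (k b hb).1 (k c hc).1
  have h2 := nf_lt_CAlg (k a ha).2 (k b hb).2 (k c hc).2
  simp only [nf] at h1 h2 ⊢
  rw [abs_lt]
  constructor <;> linarith

theorem euclid_CAlg (x y : O) (hy : y ≠ 0) : ∃ q : O, (Nm (x - q * y)).natAbs < (Nm y).natAbs := by
  have hN : Nm y ≠ 0 := fun h => hy (Nm_eq_zero h)
  have hN' : (Nm y : ℝ) ≠ 0 := by exact_mod_cast hN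
  obtain ⟨s, hs⟩ := dvd_Nm y
  have h1 : Nm s = Nm y ^ 2 := by
    have := congrArg Nm hs
    rw [Nm_int, Nm_mul] at this
    exact mul_left_cancel₀ hN (by linear_combination -this)
  let w := x * s
  let q : O := ⟨round ((w.a : ℝ) / Nm y), round ((w.b : ℝ) / Nm y), round ((w.c : ℝ) / Nm y)⟩
  refine ⟨q, ?_⟩
  have h2 : (x - q * y) * s = w - q * (Nm y : O) := by rw [hs]; simp only [w]; ring
  have h3 := congrArg (fun t => (Nm t : ℝ)) h2
  have h4 : (Nm (w - q * (Nm y : O)) : ℝ) = (Nm y : ℝ) ^ 3 *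
      nf ((w.a : ℝ) / Nm y - q.a) ((w.b : ℝ) / Nm y - q.b) ((w.c : ℝ) / Nm y - q.c) := by
    generalize Nm y = N at hN'
    simp [Nm, nf]
    field_simp
  have h5 := abs_nf_CAlg (abs_sub_round ((w.a : ℝ) / Nm y)) (abs_sub_round ((w.b : ℝ) / Nm y))
    (abs_sub_round ((w.c : ℝ) / Nm y))
  simp only [Nm_mul, h1, h4] at h3
  have h6 : (Nm (x - q * y) : ℝ) = Nm y *
      nf ((w.a : ℝ) / Nm y - q.a) ((w.b : ℝ) / Nm y - q.b) ((w.c : ℝ) / Nm y - q.c) := by
    push_cast at h3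
    exact mul_left_cancel₀ (pow_ne_zero 2 hN') (by linear_combination h3)
  have h7 : |(Nm (x - q * y) : ℝ)| < |(Nm y : ℝ)| := by
    rw [h6, abs_mul]
    exact mul_lt_of_lt_one_right (abs_pos.2 hN') h5
  have h8 : |Nm (x - q * y)| < |Nm y| := by exact_mod_cast h7
  rw [Int.abs_eq_natAbs, Int.abs_eq_natAbs] at h8
  exact_mod_cast h8

theorem pid_CAlg : IsPrincipalIdealRing O := ⟨fun I => by
  by_cases h : ∃ y, y ∈ I ∧ y ≠ 0
  · obtain ⟨y, ⟨hyI, hy⟩, hmin⟩ := (InvImage.wf (fun y : O => (Nm y).natAbs)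
      wellFounded_lt).has_min {y | y ∈ I ∧ y ≠ 0} h
    refine ⟨y, le_antisymm (fun x hx => ?_) ((Submodule.span_singleton_le_iff_mem _ _).2 hyI)⟩
    obtain ⟨q, hq⟩ := euclid_CAlg x y hy
    have : x - q * y = 0 := by
      by_contra h0
      exact hmin _ ⟨I.sub_mem hx (I.mul_mem_left q hyI), h0⟩ hq
    exact Ideal.mem_span_singleton'.2 ⟨q, (sub_eq_zero.1 this).symm⟩
  · push Not at h
    exact ⟨0, le_antisymm (fun x hx => by simp [h x hx]) (by simp)⟩⟩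

theorem unit_CAlg (u : O) : IsUnit u ↔ Nm u = 1 ∨ Nm u = -1 := by
  constructor
  · intro h
    obtain ⟨v, hv⟩ := h.exists_right_inv
    have := congrArg Nm hv
    rw [Nm_mul, Nm_one] at this
    exact Int.eq_one_or_neg_one_of_mul_eq_one this
  · intro h
    have := dvd_Nm u
    rcases h with h | h <;> rw [h] at this
    · exact isUnit_of_dvd_one (by simpa using this)
    · exact isUnit_of_dvd_one (by simpa using this)

theorem eta_one_CAlg : eta 1 = 0 := by simpa using eta_nat (n := 1) one_ne_zero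

theorem zpow_CAlg (n : ℤ) : eta (tU ^ n : Oˣ) = n ∧ Nm (tU ^ n : Oˣ) = 1 ∧
    0 < xr (tU ^ n : Oˣ) := by
  have t0 : 0 < thr := by linarith [thr_gt]
  have key : ∀ n : ℤ, eta (tU ^ (n + 1) : Oˣ) = eta (tU ^ n : Oˣ) + 1 ∧
      Nm (tU ^ (n + 1) : Oˣ) = Nm (tU ^ n : Oˣ) ∧
      xr (tU ^ (n + 1) : Oˣ) = xr (tU ^ n : Oˣ) * thr := by
    intro n
    rw [zpow_add_one, Units.val_mul, eta_mul (Units.ne_zero _) (Units.ne_zero _), Nm_mul, map_mul,
      tU_val, eta_tO, Nm_tO, xr_tO, mul_one]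
    exact ⟨rfl, rfl, rfl⟩
  induction n using Int.induction_on with
  | zero => simp [eta_one_CAlg, Nm_one]
  | succ k ih =>
    obtain ⟨a, b, c⟩ := key k
    rw [a, b, c, ih.1]
    exact ⟨by push_cast; ring, ih.2.1, mul_pos ih.2.2 t0⟩
  | pred k ih =>
    obtain ⟨a, b, c⟩ := key (-k - 1)
    rw [sub_add_cancel] at a b c
    rw [a, b, c] at ih
    refine ⟨?_, ih.2.1, (mul_pos_iff_of_pos_right t0).1 ih.2.2⟩
    have := ih.1
    push_cast at this ⊢
    linarith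

theorem shift_CAlg (n : ℤ) (x : O) (hx : x ≠ 0) : eta ((tU ^ n : Oˣ) * x) = eta x + n ∧
    Nm ((tU ^ n : Oˣ) * x) = Nm x ∧ (0 < xr ((tU ^ n : Oˣ) * x) ↔ 0 < xr x) := by
  obtain ⟨a, b, c⟩ := zpow_CAlg n
  rw [eta_mul (Units.ne_zero _) hx, Nm_mul, map_mul, a, b, one_mul, add_comm]
  exact ⟨rfl, rfl, mul_pos_iff_of_pos_left c⟩

theorem dom_CAlg (s : ℝ) (x : O) (hx : 0 < xr x) : Dm s ((tU ^ ⌈s - eta x⌉ : Oˣ) * x) := by
  obtain ⟨a, -, c⟩ := shift_CAlg ⌈s - eta x⌉ x (ne_of_xr_pos hx)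
  refine ⟨c.2 hx, ?_, ?_⟩ <;> rw [a]
  · linarith [Int.le_ceil (s - eta x)]
  · linarith [Int.ceil_lt_add_one (s - eta x)]

theorem one_CAlg {x : O} (h : Dm 0 x) (hN : Nm x = 1) : x = 1 := by
  obtain ⟨hx, h0, h1⟩ := h
  have g1 := thr_gt
  have g2 := thr_lt
  have e := xr_cube hx
  rw [hN, Int.cast_one, one_mul] at e
  have x1 : 1 ≤ xr x := by
    refine (one_le_pow_iff_of_nonneg hx.le three_ne_zero).1 ?_
    rw [e]
    exact Real.one_le_rpow one_lt_thr.le (by linarith)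
  have x2 : xr x < thr := by
    refine lt_of_pow_lt_pow_left₀ 3 (by linarith) ?_
    rw [e, ← Real.rpow_natCast]
    exact Real.rpow_lt_rpow_of_exponent_lt one_lt_thr (by push_cast; linarith)
  have z1 : ‖zr x‖ ≤ 1 := by
    have := Nm_eq x
    rw [hN, Int.cast_one] at this
    have z0 := norm_nonneg (zr x)
    by_contra hc
    push Not at hc
    nlinarith [mul_le_mul_of_nonneg_right x1 (sq_nonneg ‖zr x‖)]
  have h2 := zim_sq
  have z0 := zim_pos
  have z2 : 0.55 < zim := by nlinarith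
  have e1 : (zr x).re = x.a - x.b * thr / 2 + x.c * (1 - thr ^ 2 / 2) := by
    simp [zr_apply, zt, pow_two]; linear_combination (-(x.c : ℝ) / 4) * h2
  have e2 : (zr x).im = zim * (x.b - x.c * thr) := by
    simp [zr_apply, zt, pow_two]; ring
  have r1 := (Complex.abs_re_le_norm (zr x)).trans z1
  have r2 := (Complex.abs_im_le_norm (zr x)).trans z1
  rw [e1, abs_le] at r1
  rw [e2, abs_mul, abs_of_pos z0] at r2
  have r3 : |(x.b : ℝ) - x.c * thr| ≤ 1.82 := by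
    have := mul_le_mul_of_nonneg_right z2.le (abs_nonneg ((x.b : ℝ) - x.c * thr))
    linarith
  rw [abs_le] at r3
  rw [xr_apply] at x1 x2
  have q1 : 1.74 < thr ^ 2 := by nlinarith only [g1]
  have q2 : thr ^ 2 < 1.77 := by nlinarith only [g1, g2]
  obtain ⟨a, b, c⟩ := x
  simp only at r1 r3 x1 x2
  have w1 := mul_le_mul_of_nonneg_right r3.1 (show 0 ≤ thr by linarith)
  have w2 := mul_le_mul_of_nonneg_right r3.2 (show 0 ≤ thr by linarith)
  have c1 : c < 2 := by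
    by_contra hc
    have : (2 : ℝ) ≤ c := by exact_mod_cast not_lt.1 hc
    nlinarith [r1.1, mul_le_mul_of_nonneg_right this (show 0 ≤ 3 * thr ^ 2 - 1 by linarith)]
  have c2 : -1 < c := by
    by_contra hc
    have : (c : ℝ) ≤ -1 := by exact_mod_cast not_lt.1 hc
    nlinarith [r1.2, mul_le_mul_of_nonneg_right this (show 0 ≤ 3 * thr ^ 2 - 1 by linarith)]
  have a1 : 3 * a + 2 * c < 4 := by
    have : (3 * a + 2 * c : ℝ) < 4 := by linarith [r1.2]
    exact_mod_cast this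
  have a2 : -1 ≤ 3 * a + 2 * c := by
    have : (-1 : ℝ) ≤ 3 * a + 2 * c := by linarith [r1.1]
    exact_mod_cast this
  have a3 : a ≤ 1 := by omega
  have a4 : -1 ≤ a := by omega
  have b1 : b < 4 ∧ -2 < b := by
    have : (b : ℝ) < 4 ∧ (-2 : ℝ) < b := by
      interval_cases c <;> push_cast at r3 <;> constructor <;> linarith [r3.1, r3.2]
    exact_mod_cast this
  obtain ⟨b1, b2⟩ := b1
  interval_cases c <;> interval_cases a <;> interval_cases b <;>
    first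
    | rfl
    | omega
    | (exfalso; push_cast at x1 x2 r3; linarith [r3.1, r3.2])

theorem units_CAlg (u : O) (hu : IsUnit u) :
    ∃ n : ℤ, u = (tU ^ n : Oˣ) ∨ u = -(tU ^ n : Oˣ) := by
  have key : ∀ u : O, IsUnit u → 0 < xr u → ∃ n : ℤ, u = (tU ^ n : Oˣ) := by
    intro u hu hx
    have h1 : Nm u = 1 := ((unit_CAlg u).1 hu).resolve_right fun h => by
      have := Nm_pos hx
      omega
    have h2 := one_CAlg (dom_CAlg 0 u hx) ((shift_CAlg _ u hu.ne_zero).2.1.trans h1)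
    refine ⟨-⌈0 - eta u⌉, ?_⟩
    rw [zpow_neg]
    exact (Units.inv_eq_of_mul_eq_one_right h2).symm
  rcases lt_or_gt_of_ne (xr_ne hu.ne_zero) with h | h
  · obtain ⟨n, hn⟩ := key (-u) hu.neg (by rw [map_neg]; linarith)
    exact ⟨n, Or.inr (neg_eq_iff_eq_neg.1 hn)⟩
  · obtain ⟨n, hn⟩ := key u hu h
    exact ⟨n, Or.inl hn⟩

theorem uniq_CAlg (s : ℝ) (x y : O) (hx : Dm s x) (hy : Dm s y) (h : Associated x y) : x = y := by
  obtain ⟨u, rfl⟩ := h
  obtain ⟨n, hn | hn⟩ := units_CAlg u u.isUnit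
  · rw [hn, mul_comm] at hy ⊢
    have a := (shift_CAlg n x (ne_of_xr_pos hx.1)).1
    have h1 : (n : ℝ) < 1 := by linarith [hx.2.1, hy.2.2]
    have h2 : (-1 : ℝ) < n := by linarith [hx.2.2, hy.2.1]
    have h3 : n < 1 := by exact_mod_cast h1
    have h4 : -1 < n := by exact_mod_cast h2
    obtain rfl : n = 0 := by omega
    simp
  · have a := (shift_CAlg n x (ne_of_xr_pos hx.1)).2.2.2 hx.1
    have b := hy.1
    rw [hn, mul_neg, map_neg, mul_comm] at b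
    linarith

theorem inv_CAlg (F : O → ℂ) (hF : ∀ x, 0 < xr x → F (tO * x) = F x) (n : ℤ) (x : O)
    (hx : 0 < xr x) : F ((tU ^ n : Oˣ) * x) = F x := by
  have key : ∀ n : ℤ, F ((tU ^ (n + 1) : Oˣ) * x) = F ((tU ^ n : Oˣ) * x) := by
    intro n
    rw [← hF _ ((shift_CAlg n x (ne_of_xr_pos hx)).2.2.2 hx), zpow_add_one, Units.val_mul, tU_val]
    congr 1
    ring
  induction n using Int.induction_on with
  | zero => simp
  | succ k ih => rw [key, ih]
  | pred k ih => rw [← key, sub_add_cancel, ih]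

theorem calg : AlgStmt := by
  refine ⟨pid_CAlg, unit_CAlg, units_CAlg, uniq_CAlg, fun s x hx => ⟨_, dom_CAlg s x hx⟩,
    shift_CAlg, ?_, fun s n F hF => ?_⟩
  · ext x
    rw [mem_Dn, mem_singleton]
    refine ⟨fun h => one_CAlg h.1 (by simpa using h.2), ?_⟩
    rintro rfl
    exact ⟨⟨by simp, by rw [eta_one_CAlg], by rw [eta_one_CAlg]; norm_num⟩, by simp [Nm_one]⟩
  · have m : ∀ (r s : ℝ), ∀ x ∈ Dn s n, (tU ^ ⌈r - eta x⌉ : Oˣ) * x ∈ Dn r n := by
      intro r s x hx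
      rw [mem_Dn] at hx ⊢
      exact ⟨dom_CAlg r x hx.1.1, (shift_CAlg _ x (ne_of_xr_pos hx.1.1)).2.1.trans hx.2⟩
    have l : ∀ (r s : ℝ), ∀ x ∈ Dn s n, (tU ^ ⌈s - eta ((tU ^ ⌈r - eta x⌉ : Oˣ) * x)⌉ : Oˣ) *
        ((tU ^ ⌈r - eta x⌉ : Oˣ) * x) = x := by
      intro r s x hx
      refine uniq_CAlg s _ _ (mem_Dn.1 (m s r _ (m r s x hx))).1 (mem_Dn.1 hx).1 ?_
      exact (associated_unit_mul_left _ _ (Units.isUnit _)).trans
        (associated_unit_mul_left _ _ (Units.isUnit _))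
    exact Finset.sum_nbij' (fun x => (tU ^ ⌈0 - eta x⌉ : Oˣ) * x)
      (fun x => (tU ^ ⌈s - eta x⌉ : Oˣ) * x) (m 0 s) (m s 0) (l 0 s) (l s 0)
      fun x hx => (inv_CAlg F hF _ x (mem_Dn.1 hx).1.1).symm

end Pool.Agent.MP_adc87d_lc.Big
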