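import Mathlib
import Pool.Agent.Mg.Fadc87d.G0908ea

set_option linter.all false

section

set_option autoImplicit false

noncomputable section

open Finset
open scoped Classical

namespace Pool.Agent.MP_adc87d_lc.Big

open Pool.Agent.MP_2a1f0e_nt (ex)

theorem norm_le_CLG {M : ℕ} {φ : O → ℂ} (h : IsFin M φ) (x : O) : ‖φ x‖ ≤ 1 := by
  by_cases hx : IsCoprime (Nm x) M
  · exact (h.unit x hx).le
  · rw [h.zero x hx]; simp

theorem clg (h1 : AlgStmt) (h2 : ChStmt) (h3 : PSStmt) (h4 : MeanStmt) (h5 : ConvO) : LGStmt := by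
  obtain ⟨κ, C, hκ, hC, hP⟩ := h3
  obtain ⟨-, -, -, h00, -, hval, -⟩ := h2
  have hD1 := h1.2.2.2.2.2.2.1
  have hcard : ∀ y : ℝ, 1 ≤ y → ∑ n ∈ Icc 1 ⌊y⌋₊, ((Dn 0 n).card : ℝ) ≤ (κ + C) * y := by
    intro y hy
    have e := hP 1 (fun _ => 1) 0 0 y le_rfl (fun _ _ _ => rfl) (by simp) (by simp [h00]) hy
    have hm := h4.2.2.1 1 (fun _ => 1) le_rfl (by simp)
    simp only [h00, mul_one, sum_const, nsmul_eq_mul, and_self, if_true, Nat.cast_one, abs_zero,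
      Int.cast_zero, add_zero] at e
    have e2 : ‖(κ : ℂ) * mean 1 (fun _ => 1) * y‖ ≤ κ * y := by
      rw [norm_mul, norm_mul, Complex.norm_real, Complex.norm_real, Real.norm_of_nonneg hκ.le,
        Real.norm_of_nonneg (by linarith)]
      have : κ * ‖mean 1 fun _ => 1‖ ≤ κ := mul_le_of_le_one_right hκ.le hm
      gcongr
    have e3 : y ^ (5 / 6 : ℝ) ≤ y := by
      simpa using Real.rpow_le_rpow_of_exponent_le hy (show (5 / 6 : ℝ) ≤ 1 by norm_num)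
    have e4 : ∑ n ∈ Icc 1 ⌊y⌋₊, ((Dn 0 n).card : ℝ) = ‖∑ n ∈ Icc 1 ⌊y⌋₊, ((Dn 0 n).card : ℂ)‖ := by
      rw [← Nat.cast_sum, ← Nat.cast_sum, Complex.norm_natCast]
    have e5 := norm_le_norm_add_norm_sub' (∑ n ∈ Icc 1 ⌊y⌋₊, ((Dn 0 n).card : ℂ))
      ((κ : ℂ) * mean 1 (fun _ => 1) * y)
    have e6 : C * y ^ (5 / 6 : ℝ) ≤ C * y := by gcongr
    rw [e4]; linarith
  refine ⟨κ + C, by linarith, fun Ψ hΨ => ?_⟩
  obtain ⟨b, hb1, hb2⟩ := h5 Ψ hΨ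
  obtain ⟨-, hv1, hv2, -, hv3⟩ := hval Ψ hΨ
  have key : LG Ψ.a b (if Ψ.σ = 0 ∧ Ψ.m = 0 then κ * mean Ψ.M Ψ.φ else 0) (κ + C)
      ((κ + C) * Ψ.cond) := by
    refine ⟨by rw [Chr.a, hD1, sum_singleton, hv2], fun y hy => le_trans ?_ (hcard y hy), ?_,
      fun y hy => ?_, hb1, hb2⟩
    · refine sum_le_sum fun n _ => (norm_sum_le _ _).trans ?_
      simpa using sum_le_sum (s := Dn 0 n) fun x _ => hv1 x
    · split_ifs
      · rw [norm_mul, Complex.norm_real, Real.norm_of_nonneg hκ.le]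
        have := mul_le_of_le_one_right hκ.le (h4.2.2.1 Ψ.M Ψ.φ hΨ.1.pos (norm_le_CLG hΨ.1))
        linarith
      · rw [norm_zero]; linarith
    · have e := hP Ψ.M Ψ.φ Ψ.σ Ψ.m y hΨ.1.pos hΨ.1.per (norm_le_CLG hΨ.1) (fun x => by
        rw [hΨ.1.mul, mul_right_comm, hΨ.2, one_mul]) hy
      rw [ite_mul, zero_mul]
      refine le_trans e ?_
      rw [mul_assoc C]
      change C * Ψ.cond * _ ≤ _
      gcongr
      linarith
  refine ⟨⟨b, _, key⟩, fun hN => ⟨b, ?_⟩⟩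
  have : (if Ψ.σ = 0 ∧ Ψ.m = 0 then κ * mean Ψ.M Ψ.φ else 0) = 0 := by
    split_ifs with h
    · obtain ⟨g, hg, hg1⟩ := (hN.resolve_right (by simp [h.1, h.2]))
      have e := h4.1 Ψ.M Ψ.φ g hΨ.1.pos hΨ.1.per hg
      have e2 : mean Ψ.M (fun x => Ψ.φ (g * x)) = Ψ.φ g * mean Ψ.M Ψ.φ := by
        simp only [mean, hΨ.1.mul, ← mul_sum, mul_div_assoc]
      have e3 : (Ψ.φ g - 1) * mean Ψ.M Ψ.φ = 0 := by linear_combination e - e2
      rw [(mul_eq_zero.1 e3).resolve_left (sub_ne_zero.2 hg1), mul_zero]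
    · rfl
  rwa [this] at key

theorem mono_CLG {a b : ℕ → ℂ} {c : ℂ} {A Q A' Q' : ℝ} (h : LG a b c A Q) (hA : A ≤ A')
    (hQ : Q ≤ Q') : LG a b c A' Q' :=
  ⟨h.one, fun y hy => (h.abs y hy).trans (by gcongr), h.res.trans hA,
    fun y hy => (h.err y hy).trans (by gcongr), h.bd, h.conv⟩

theorem three_CLG {S : Finset O} (hS : S.card = 3) {f : O → ℂ} (hf : ∀ x ∈ S, f x = 1 ∨ f x = -1)
    (hp : ∏ x ∈ S, f x = 1) : -1 ≤ (∑ x ∈ S, f x).re := by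
  obtain ⟨x, y, z, hxy, hxz, hyz, rfl⟩ := card_eq_three.1 hS
  rw [prod_insert (by simp [hxy, hxz]), prod_pair hyz] at hp
  rw [sum_insert (by simp [hxy, hxz]), sum_pair hyz]
  rcases hf x (by simp) with a | a <;> rcases hf y (by simp) with b | b <;>
    rcases hf z (by simp) with c | c <;> rw [a, b, c] at hp ⊢ <;>
    first | (norm_num; done) | (exfalso; norm_num at hp)

local instance fact23_CLG : Fact (Nat.Prime 23) := ⟨by norm_num⟩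

/-- the quadratic character modulo 23 -/
def chi_CLG : DirichletCharacter ℂ 23 := (quadraticChar (ZMod 23)).ringHomComp (Int.castRingHom ℂ)

theorem chi_apply_CLG (a : ZMod 23) : chi_CLG a = (quadraticChar (ZMod 23) a : ℂ) := rfl

theorem chi_cases_CLG {a : ZMod 23} (ha : a ≠ 0) :
    (chi_CLG a = 1 ∧ IsSquare a) ∨ chi_CLG a = -1 := by
  rcases quadraticChar_dichotomy ha with h | h
  · exact Or.inl ⟨by rw [chi_apply_CLG, h]; simp, (quadraticChar_one_iff_isSquare ha).1 h⟩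
  · exact Or.inr (by rw [chi_apply_CLG, h]; simp)

theorem cop_CLG (n : ℤ) : IsCoprime n ((23 : ℕ) : ℤ) ↔ (n : ZMod 23) ≠ 0 := by
  rw [isCoprime_comm, ← ZMod.coe_int_isUnit_iff_isCoprime, isUnit_iff_ne_zero]

theorem chi_zero_CLG : chi_CLG 0 = 0 := by rw [chi_apply_CLG]; simp

theorem czb (h1 : ChStmt) (h2 : SplitStmt) (h3 : LGStmt) : ZBStmt := by
  obtain ⟨A, hA, hL⟩ := h3
  obtain ⟨-, -, -, h00, hadd, hval, htw, -⟩ := h1
  refine ⟨2 * A, by linarith, fun Ψ q hΨ h23 hq hPq hGen => ?_⟩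
  obtain ⟨-, hv1, -, hv2, hv3⟩ := hval Ψ hΨ
  have hZ : ∀ Φ : Chr, Φ.Is → Φ.NT → Φ.cond ≤ 2 * Ψ.cond → LZ Φ.a (2 * A) (2 * A * Ψ.cond) := by
    intro Φ a b c
    obtain ⟨β, h⟩ := (hL Φ a).2 b
    exact ⟨β, mono_CLG h (by linarith) (by nlinarith)⟩
  have hne : ∀ {p : ℕ} {x : O}, x ∈ Dn 0 p → x ≠ 0 := fun hx => ne_of_xr_pos (mem_Dn.1 hx).1.1
  refine ⟨hZ Ψ hΨ ((htw Ψ q 1 hΨ hq).2.2.2.2.2 hGen) (by linarith), ?_⟩
  let Ψ₀ : Chr := ⟨1, fun _ => 1, 0, 0⟩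
  have hΨ₀ : Ψ₀.Is := ⟨⟨le_rfl, by simp [Ψ₀], rfl, fun _ _ _ => rfl, by simp [Ψ₀],
    fun x hx => absurd (by simpa [Ψ₀] using isCoprime_one_right) hx⟩, by simp [Ψ₀, h00]⟩
  have ha₀ : ∀ n, Ψ₀.a n = (Dn 0 n).card := fun n => by simp [Chr.a, Chr.val, Ψ₀, h00]
  let Ψ₂ : Chr := ⟨Ψ.M, fun x => Ψ.φ x ^ 2, Ψ.σ + Ψ.σ, Ψ.m + Ψ.m⟩
  have hv₂ : ∀ x, x ≠ 0 → Ψ₂.val x = Ψ.val x ^ 2 := fun x hx => by
    simp only [Chr.val, Ψ₂, hadd _ _ _ _ x hx]; ring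
  have hΨ₂ : Ψ₂.Is := ⟨⟨hΨ.1.pos, fun x y => by simp only [Ψ₂, hΨ.1.mul, mul_pow],
    by simp [Ψ₂, hΨ.1.one], fun x y h => by simp only [Ψ₂, hΨ.1.per x y h],
    fun x hx => by simp only [Ψ₂, norm_pow, hΨ.1.unit x hx, one_pow],
    fun x hx => by simp [Ψ₂, hΨ.1.zero x hx]⟩, by
      have := hv₂ tO (fun h => by simpa [tO] using congrArg O.b h)
      rw [show Ψ.val tO = 1 from hΨ.2, one_pow] at this
      exact this⟩
  have hc₂ : Ψ₂.cond ≤ 2 * Ψ.cond := by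
    simp only [Chr.cond, Ψ₂, Int.cast_add]
    have a := abs_add_le Ψ.σ Ψ.σ
    have b := abs_add_le (Ψ.m : ℝ) Ψ.m
    have c : (0 : ℝ) ≤ Ψ.M := Nat.cast_nonneg _
    nlinarith
  refine ⟨Ψ₀.a, Ψ₂.a, ?_, fun p hp w hw => ?_, ?_⟩
  · obtain ⟨β, c, h⟩ := (hL Ψ₀ hΨ₀).1
    exact ⟨β, c, mono_CLG h (by linarith) (by simp [Chr.cond, Ψ₀]; linarith)⟩
  · have e : 3 * Ψ₀.a p + 4 * (Ψ.a p * w) + Ψ₂.a p * w ^ 2 =
        ∑ x ∈ Dn 0 p, (3 + 4 * (Ψ.val x * w) + (Ψ.val x * w) ^ 2) := by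
      rw [ha₀, Chr.a, Chr.a, sum_congr rfl fun x hx => hv₂ x (hne hx)]
      simp only [sum_add_distrib, sum_const, nsmul_eq_mul, ← mul_sum, ← sum_mul, mul_pow]
      ring
    rw [e, Complex.re_sum]
    refine sum_nonneg fun x _ => ?_
    have h : ‖Ψ.val x * w‖ ≤ 1 := by rw [norm_mul, hw, mul_one]; exact hv1 x
    generalize Ψ.val x * w = z at h
    have h' : Complex.normSq z ≤ 1 := by
      rw [Complex.normSq_eq_norm_sq]; exact pow_le_one₀ (norm_nonneg _) h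
    rw [Complex.normSq_apply] at h'
    simp [pow_two]
    nlinarith [sq_nonneg (z.re + 1)]
  by_cases hN : Ψ₂.NT
  · exact Or.inl (hZ Ψ₂ hΨ₂ hN hc₂)
  right
  simp only [Chr.NT, Ψ₂, not_or, not_exists, not_and, not_not] at hN
  obtain ⟨hsq, hσ, hm⟩ := hN
  have hσ0 : Ψ.σ = 0 := by linarith
  have hm0 : Ψ.m = 0 := by omega
  have hvφ : ∀ x, Ψ.val x = Ψ.φ x := fun x => by rw [Chr.val, hσ0, hm0, h00, mul_one]
  let Ψ₁ : Chr := ⟨23, fun x => chi_CLG (Nm x : ZMod 23), 0, 0⟩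
  have hΨ₁ : Ψ₁.Is := ⟨⟨by norm_num [Ψ₁], fun x y => by simp only [Ψ₁, Nm_mul, Int.cast_mul, map_mul],
    by simp [Ψ₁, Nm_one], fun x y h => by
      have := (ZMod.intCast_eq_intCast_iff _ _ 23).2 (Nm_modEq (n := (23 : ℕ)) (by simpa [Ψ₁] using h))
      simp only [Ψ₁, this],
    fun x hx => by
      rcases chi_cases_CLG ((cop_CLG _).1 hx) with h | h
      · simp [Ψ₁, h.1]
      · simp [Ψ₁, h],
    fun x hx => by
      have : ((Nm x : ℤ) : ZMod 23) = 0 := by simpa using mt (cop_CLG _).2 hx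
      simp [Ψ₁, this, chi_zero_CLG]⟩, by simp [Ψ₁, Nm_tO, h00]⟩
  have hN₁ : Ψ₁.NT := by
    have e : Nm ⟨2, -1, 0⟩ = 5 := by norm_num [Nm, nf]
    refine Or.inl ⟨⟨2, -1, 0⟩, (cop_CLG _).2 (by rw [e]; decide), ?_⟩
    rcases chi_cases_CLG (a := ((5 : ℤ) : ZMod 23)) (by decide) with h | h
    · exact absurd h.2 (by decide)
    · simp only [Ψ₁, e, h]; norm_num
  have ha₁ : ∀ n : ℕ, Ψ₁.a n = chi_CLG n * (Dn 0 n).card := fun n => by
    rw [Chr.a, sum_congr rfl (g := fun _ => chi_CLG n) fun x hx => by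
      simp [Chr.val, Ψ₁, h00, (mem_Dn.1 hx).2]]
    simp [mul_comm]
  have hc₁ : Ψ₁.cond ≤ 2 * Ψ.cond := by
    have : (23 : ℝ) ≤ Ψ.M := by exact_mod_cast Nat.le_of_dvd hΨ.1.pos (h23.trans hq)
    simp [Chr.cond, Ψ₁, hσ0, hm0]
    linarith
  obtain ⟨χ, hχ⟩ := hPq
  have hT : ∀ ξ : DirichletCharacter ℂ q, LZ (Ψ.tw ξ).a (2 * A) (2 * A * Ψ.cond) := fun ξ =>
    hZ _ (htw Ψ q ξ hΨ hq).1 (hGen ξ) (by change Ψ.cond ≤ _; linarith)
  refine ⟨?_, Ψ₁.a, _, _, _, hZ Ψ₁ hΨ₁ hN₁ hc₁, hT (DirichletCharacter.changeLevel h23 chi_CLG),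
    hT χ, hT (DirichletCharacter.changeLevel h23 chi_CLG * χ), fun p hp => ?_⟩
  · obtain ⟨β, c, h⟩ := (hL Ψ₂ hΨ₂).1
    exact ⟨β, c, mono_CLG h (by linarith) (by nlinarith)⟩
  rw [(htw Ψ q _ hΨ hq).2.1, (htw Ψ q _ hΨ hq).2.1, (htw Ψ q _ hΨ hq).2.1, ha₀, ha₁,
    MulChar.mul_apply]
  have hr : (0 : ℝ) ≤ (Dn 0 p).card := Nat.cast_nonneg _
  by_cases hp0 : IsCoprime (p : ℤ) Ψ.M
  swap
  · have e : Ψ.a p = 0 := sum_eq_zero fun x hx => by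
      rw [hvφ, hΨ.1.zero x (by rwa [(mem_Dn.1 hx).2])]
    rw [e]
    by_cases h0 : (p : ZMod 23) = 0
    · simp [h0, chi_zero_CLG]
    · rcases chi_cases_CLG h0 with h | h
      · simp [h.1]
      · simp [h]
  have hpq : IsCoprime (p : ℤ) q := hp0.of_isCoprime_of_dvd_right (by exact_mod_cast hq)
  have h0 : (p : ZMod 23) ≠ 0 := by
    simpa using (cop_CLG p).1 (hpq.of_isCoprime_of_dvd_right (by exact_mod_cast h23))
  have e1 : DirichletCharacter.changeLevel h23 chi_CLG (p : ZMod q) = chi_CLG p := by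
    simpa using DirichletCharacter.changeLevel_eq_cast_of_dvd' chi_CLG h23 hpq
  have e2 : χ (p : ZMod q) = Ψ.φ p := by simpa using (hχ p hp0).symm
  rw [e1, e2]
  rcases chi_cases_CLG h0 with h | h
  swap
  · simp [h]
  have e3 : Ψ.φ p = 1 ∨ Ψ.φ p = -1 :=
    sq_eq_one_iff.1 (hsq p (by rw [Nm_nat]; exact hp0.pow_left))
  rw [h.1]
  rcases e3 with e3 | e3
  swap
  · simp [e3]
  rcases (Dn 0 p).eq_empty_or_nonempty with hE | hE
  · simp [Chr.a, hE]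
  obtain ⟨c3, n, hn⟩ := (h2 p hp).2.2.1 (by rintro rfl; exact h0 (by decide)) h.2 hE
  let F : O →* ℂ := ⟨⟨Ψ.φ, hΨ.1.one⟩, hΨ.1.mul⟩
  have e4 := three_CLG c3 (f := Ψ.val) (fun x hx => by
    rw [hvφ]
    exact sq_eq_one_iff.1 (hsq x (by rwa [(mem_Dn.1 hx).2]))) (by
    have := congrArg F hn
    rw [map_prod, map_mul] at this
    simp only [hvφ]
    refine this.trans ?_
    change Ψ.φ _ * Ψ.φ _ = 1
    rw [e3, ← hvφ, hv2, one_mul])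
  rw [e3, c3]
  change -1 ≤ (Ψ.a p).re at e4
  simp
  linarith

end Pool.Agent.MP_adc87d_lc.Big

end
end

section

/-! Summation of the Fourier expansion over the moduli. -/

set_option autoImplicit false

noncomputable section

open Finset
open scoped Classical

namespace Pool.Agent.MP_adc87d_lc.Big

open Pool.Agent.MP_2a1f0e_nt (ex)

theorem tail_aux_CV3 (t : ℝ) (ht : 0 < t) (M : ℕ) (h : t ≤ (M : ℝ) + 1) :
    ∑ m ∈ (Icc 1 M).filter (fun m : ℕ => t ≤ m), 1 / (m : ℝ) ^ 2 ≤ 2 / t - 2 / ((M : ℝ) + 1) := by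
  induction M with
  | zero =>
    have h1 : t ≤ 1 := by simpa using h
    have h2 : (2 : ℝ) ≤ 2 / t := by rw [le_div_iff₀ ht]; linarith
    simp only [Nat.cast_zero, zero_add, div_one]
    have : (Icc 1 0 : Finset ℕ) = ∅ := by decide
    rw [this]; simp only [filter_empty, sum_empty]; linarith
  | succ M ih =>
    have hM : (0 : ℝ) < (M : ℝ) + 1 := by positivity
    by_cases h1 : t ≤ (M : ℝ) + 1
    · have h2 := ih h1
      have h3 : (Icc 1 (M + 1)).filter (fun m : ℕ => t ≤ m) =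
          insert (M + 1) ((Icc 1 M).filter (fun m : ℕ => t ≤ m)) := by
        ext m
        simp only [mem_filter, mem_Icc, mem_insert]
        constructor
        · rintro ⟨⟨a, b⟩, c⟩
          by_cases hm : m = M + 1
          · exact Or.inl hm
          · exact Or.inr ⟨⟨a, by omega⟩, c⟩
        · rintro (hm | ⟨⟨a, b⟩, c⟩)
          · subst hm
            exact ⟨⟨by omega, le_rfl⟩, by push_cast; exact h1⟩
          · exact ⟨⟨a, by omega⟩, c⟩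
      have h4 : M + 1 ∉ (Icc 1 M).filter (fun m : ℕ => t ≤ m) := by
        simp only [mem_filter, mem_Icc]; omega
      rw [h3, sum_insert h4]
      push_cast
      have h5 : 1 / ((M : ℝ) + 1) ^ 2 ≤ 2 / ((M : ℝ) + 1) - 2 / ((M : ℝ) + 1 + 1) := by
        rw [div_sub_div _ _ hM.ne' (by positivity), div_le_div_iff₀ (by positivity) (by positivity)]
        have : (0 : ℝ) ≤ M := Nat.cast_nonneg M
        nlinarith [mul_nonneg this this]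
      linarith
    · have h3 : (Icc 1 (M + 1)).filter (fun m : ℕ => t ≤ m) = ∅ := by
        refine filter_eq_empty_iff.2 fun m hm hc => h1 ?_
        have : m ≤ M + 1 := (mem_Icc.1 hm).2
        have : (m : ℝ) ≤ (M : ℝ) + 1 := by exact_mod_cast this
        linarith
      rw [h3, sum_empty]
      have : 2 / (((M + 1 : ℕ) : ℝ) + 1) ≤ 2 / t :=
        div_le_div_of_nonneg_left (by norm_num) ht h
      linarith

theorem tail_CV3 (t : ℝ) (ht : 0 < t) (M : ℕ) :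
    ∑ m ∈ (Icc 1 M).filter (fun m : ℕ => t ≤ m), 1 / (m : ℝ) ^ 2 ≤ 2 / t := by
  by_cases h : t ≤ (M : ℝ) + 1
  · have h1 := tail_aux_CV3 t ht M h
    have : (0 : ℝ) ≤ 2 / ((M : ℝ) + 1) := by positivity
    linarith
  · have h3 : (Icc 1 M).filter (fun m : ℕ => t ≤ m) = ∅ := by
      refine filter_eq_empty_iff.2 fun m hm hc => h ?_
      have : m ≤ M := (mem_Icc.1 hm).2
      have : (m : ℝ) ≤ (M : ℝ) := by exact_mod_cast this
      linarith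
    rw [h3, sum_empty]; positivity

theorem mult_CV3 (y : ℝ) (hy : 0 < y) (V u : ℕ) (hu : 1 ≤ u) :
    ∑ v ∈ ((Icc 1 V).filter (fun v : ℕ => y ≤ v)).filter (fun v => u ∣ v), 1 / (v : ℝ) ^ 2 ≤
      2 / (u * y) := by
  have hu' : (0 : ℝ) < u := by exact_mod_cast hu
  have hsub : ((Icc 1 V).filter (fun v : ℕ => y ≤ v)).filter (fun v => u ∣ v) ⊆
      ((Icc 1 V).filter (fun m : ℕ => y / u ≤ m)).image (fun m => u * m) := by
    intro v hv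
    simp only [mem_filter, mem_Icc] at hv
    obtain ⟨⟨⟨h1, h2⟩, h3⟩, m, rfl⟩ := hv
    refine mem_image.2 ⟨m, ?_, rfl⟩
    simp only [mem_filter, mem_Icc]
    refine ⟨⟨?_, ?_⟩, ?_⟩
    · rcases Nat.eq_zero_or_pos m with h | h
      · subst h; simp at h1
      · exact h
    · exact le_trans (Nat.le_mul_of_pos_left m hu) h2
    · rw [div_le_iff₀ hu']; push_cast at h3; linarith
  refine le_trans (sum_le_sum_of_subset_of_nonneg hsub fun _ _ _ => by positivity) ?_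
  rw [sum_image fun a _ b _ h => Nat.eq_of_mul_eq_mul_left hu h]
  have h1 := tail_CV3 (y / u) (by positivity) V
  have h2 : ∑ m ∈ (Icc 1 V).filter (fun m : ℕ => y / u ≤ m), 1 / ((u * m : ℕ) : ℝ) ^ 2 =
      1 / (u : ℝ) ^ 2 * ∑ m ∈ (Icc 1 V).filter (fun m : ℕ => y / u ≤ m), 1 / (m : ℝ) ^ 2 := by
    rw [mul_sum]
    refine sum_congr rfl fun m _ => ?_
    push_cast
    rw [mul_pow, one_div_mul_one_div]
  rw [h2]
  calc 1 / (u : ℝ) ^ 2 * ∑ m ∈ (Icc 1 V).filter (fun m : ℕ => y / u ≤ m), 1 / (m : ℝ) ^ 2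
      ≤ 1 / (u : ℝ) ^ 2 * (2 / (y / u)) := mul_le_mul_of_nonneg_left h1 (by positivity)
    _ = 2 / (u * y) := by field_simp

theorem swap_CV3 (y Q : ℝ) (hy : 0 < y) (hQ : 1 ≤ Q) (V : ℕ) (F : ℕ → ℝ) (hF : ∀ u, 0 ≤ F u) :
    ∑ v ∈ (Icc 1 V).filter (fun v : ℕ => y ≤ v),
      (∑ u ∈ v.divisors.filter (fun u : ℕ => Q < u), F u) / (v : ℝ) ^ 2 ≤
      2 / (Q * y) * ∑ u ∈ Icc 1 V, F u := by
  have h1 : ∀ v ∈ (Icc 1 V).filter (fun v : ℕ => y ≤ v),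
      (∑ u ∈ v.divisors.filter (fun u : ℕ => Q < u), F u) / (v : ℝ) ^ 2 =
      ∑ u ∈ (Icc 1 V).filter (fun u : ℕ => Q < u),
        if u ∣ v then F u * (1 / (v : ℝ) ^ 2) else 0 := by
    intro v hv
    obtain ⟨hv1, _⟩ := mem_filter.1 hv
    obtain ⟨hv1, hv2⟩ := mem_Icc.1 hv1
    rw [← sum_filter, sum_div]
    refine sum_congr ?_ fun u _ => by ring
    ext u
    simp only [mem_filter, mem_Icc, Nat.mem_divisors]
    constructor
    · rintro ⟨⟨a, b⟩, c⟩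
      exact ⟨⟨⟨Nat.pos_of_dvd_of_pos a hv1, le_trans (Nat.le_of_dvd hv1 a) hv2⟩, c⟩, a⟩
    · rintro ⟨⟨_, c⟩, a⟩
      exact ⟨⟨a, by omega⟩, c⟩
  rw [sum_congr rfl h1, sum_comm, mul_sum]
  refine le_trans (sum_le_sum (g := fun u => 2 / (Q * y) * F u) fun u hu => ?_)
    (sum_le_sum_of_subset_of_nonneg (filter_subset _ _) fun u _ _ =>
      mul_nonneg (by positivity) (hF u))
  obtain ⟨hu1, hu2⟩ := mem_filter.1 hu
  rw [← sum_filter, ← mul_sum]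
  have h2 := mult_CV3 y hy V u (mem_Icc.1 hu1).1
  have h3 : 2 / ((u : ℝ) * y) ≤ 2 / (Q * y) :=
    div_le_div_of_nonneg_left (by norm_num) (by positivity)
      (mul_le_mul_of_nonneg_right hu2.le hy.le)
  calc F u * _ ≤ F u * (2 / (Q * y)) := mul_le_mul_of_nonneg_left (h2.trans h3) (hF u)
    _ = 2 / (Q * y) * F u := mul_comm _ _

theorem cv3 (h1 : V2Stmt) (h2 : V3aStmt) : V3Stmt := by
  obtain ⟨C, hC, h1⟩ := h1
  refine ⟨2 * C, by linarith, ?_⟩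
  intro B y Q η V S g g' hB hV hy hη hQ hS hT
  set A : ℝ := Q ^ 4 * η * ∑ γ ∈ S, |g' γ| with hA
  have hA0 : 0 ≤ A := mul_nonneg (by positivity) (sum_nonneg fun _ _ => abs_nonneg _)
  set F : ℕ → ℝ := fun u => ∑ a ∈ Cp u, (‖Ex S g a u‖ ^ 2 + ‖Ex S g' a u‖ ^ 2) with hF
  have hF0 : ∀ u, 0 ≤ F u := fun u => sum_nonneg fun _ _ => by positivity
  have hs : ∑ u ∈ Icc 1 V, F u ≤ C * B ^ 3 * (∑ β ∈ S, g β ^ 2 + ∑ β ∈ S, g' β ^ 2) := by
    have a1 := h1 B V S g hB hV fun β hβ => (hS β hβ).2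
    have a2 := h1 B V S g' hB hV fun β hβ => (hS β hβ).2
    simp only [hF, sum_add_distrib]
    linarith
  have hb : ∀ v ∈ (Icc 1 V).filter (fun v : ℕ => y ≤ v), |Ev S g g' v| ≤
      A * (1 / (v : ℝ) ^ 2) +
        (∑ u ∈ v.divisors.filter (fun u : ℕ => Q < u), F u) / (v : ℝ) ^ 2 := by
    intro v hv
    have := h2 S g g' v Q η (mem_Icc.1 (mem_filter.1 hv).1).1 hη hQ (fun β hβ => (hS β hβ).1) hT
    refine this.trans (le_of_eq ?_)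
    rw [add_div]; congr 1; ring
  refine (sum_le_sum hb).trans ?_
  rw [sum_add_distrib, ← mul_sum]
  have b1 := mul_le_mul_of_nonneg_left (tail_CV3 y hy V) hA0
  have b2 := swap_CV3 y Q hy hQ V F hF0
  have b3 : 2 / (Q * y) * ∑ u ∈ Icc 1 V, F u ≤
      2 / (Q * y) * (C * B ^ 3 * (∑ β ∈ S, g β ^ 2 + ∑ β ∈ S, g' β ^ 2)) :=
    mul_le_mul_of_nonneg_left hs (by positivity)
  have b4 : A * (2 / y) ≤ 2 * C / y * A := by
    have : 2 / y ≤ 2 * C / y := div_le_div_of_nonneg_right (by linarith) hy.le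
    nlinarith
  have b5 : 2 / (Q * y) * (C * B ^ 3 * (∑ β ∈ S, g β ^ 2 + ∑ β ∈ S, g' β ^ 2)) =
      2 * C / y * (B ^ 3 * (∑ β ∈ S, g β ^ 2 + ∑ β ∈ S, g' β ^ 2) / Q) := by
    have : Q ≠ 0 := by positivity
    field_simp
  rw [mul_add]
  linarith

end Pool.Agent.MP_adc87d_lc.Big

end
end

section

/-! Lower bounds for the Dirichlet series to the right of the line of real part one. -/

set_option autoImplicit false

noncomputable section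

open Finset
open scoped Classical

namespace Pool.Agent.MP_adc87d_lc.Big

open Pool.Agent.MP_2a1f0e_nt (ex)

/-- the part of `An2Stmt` that is used here -/
def A2_CZL (C : ℝ) : Prop :=
  ∀ (a : ℕ → ℂ) (A Q : ℝ), LQ a A Q → ∀ s : ℂ, 1 < s.re → 0 < ‖LSeries a s‖ ∧
    (PSum a s).re ≤ Real.log ‖LSeries a s‖ + C ∧
    HasSum (fun p : Nat.Primes => a p * ((p : ℕ) : ℂ) ^ (-s)) (PSum a s)

theorem a2_CZL (h2 : An2Stmt) : ∃ C : ℝ, 0 ≤ C ∧ A2_CZL C := by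
  obtain ⟨C₀, h⟩ := h2
  refine ⟨|C₀|, abs_nonneg _, fun a A Q ⟨b, c, hL⟩ s hs => ?_⟩
  obtain ⟨h1, h3, h4, -⟩ := (h a b c A Q hL).2 s hs
  refine ⟨norm_pos_iff.2 h1, ?_, h4.hasSum⟩
  have := (abs_le.1 h3).1
  have := le_abs_self C₀
  linarith

theorem lq_CZL {a : ℕ → ℂ} {A Q : ℝ} (h : LZ a A Q) : LQ a A Q := by
  obtain ⟨b, hb⟩ := h
  exact ⟨b, 0, hb⟩

theorem split_CZL {p : ℕ} (hp : 0 < p) (σ : ℝ) (z : ℂ) :
    (p : ℂ) ^ (-((σ : ℂ) + z)) = (((p : ℝ) ^ (-σ) : ℝ) : ℂ) * (p : ℂ) ^ (-z) := by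
  have h : (p : ℂ) ≠ 0 := by exact_mod_cast hp.ne'
  rw [neg_add, Complex.cpow_add _ _ h, Complex.ofReal_cpow (Nat.cast_nonneg p),
    Complex.ofReal_natCast, Complex.ofReal_neg]

theorem prod1_CZL {C : ℝ} (hC : 0 ≤ C) (H : A2_CZL C) {a₀ a a₂ : ℕ → ℂ} {A Q₀ Q : ℝ}
    (h0 : LQ a₀ A Q₀) (h1 : LQ a A Q) (h2 : LQ a₂ A Q) (hP : P341 a₀ a a₂) {σ : ℝ} (hσ : 1 < σ)
    (t : ℝ) : 1 ≤ Real.exp (16 * C) * (‖LSeries a₀ σ‖ ^ 3 *
      ‖LSeries a (σ + t * Complex.I)‖ ^ 4 * ‖LSeries a₂ (σ + 2 * (t * Complex.I))‖) := by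
  obtain ⟨p0, u0, s0⟩ := H a₀ A Q₀ h0 σ (by simpa using hσ)
  obtain ⟨p1, u1, s1⟩ := H a A Q h1 (σ + t * Complex.I) (by simpa using hσ)
  obtain ⟨p2, u2, s2⟩ := H a₂ A Q h2 (σ + 2 * (t * Complex.I)) (by simpa using hσ)
  have h3 := (Complex.hasSum_re (((s0.mul_left 3).add (s1.mul_left 4)).add s2)).nonneg fun p => by
    have hp : 0 < (p : ℕ) := p.2.pos
    have hp' : ((p : ℕ) : ℂ) ≠ 0 := by exact_mod_cast hp.ne'
    have hw : ‖((p : ℕ) : ℂ) ^ (-(t * Complex.I))‖ = 1 := by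
      rw [Complex.norm_natCast_cpow_of_pos hp]
      simp
    have e2 : ((p : ℕ) : ℂ) ^ (-(2 * (t * Complex.I))) =
        (((p : ℕ) : ℂ) ^ (-(t * Complex.I))) ^ 2 := by
      rw [sq, ← Complex.cpow_add _ _ hp']
      congr 1
      ring
    have e0 : ((p : ℕ) : ℂ) ^ (-(σ : ℂ)) = ((((p : ℕ) : ℝ) ^ (-σ) : ℝ) : ℂ) := by
      rw [Complex.ofReal_cpow (Nat.cast_nonneg _), Complex.ofReal_natCast, Complex.ofReal_neg]
    have h4 := mul_nonneg (Real.rpow_nonneg (Nat.cast_nonneg (p : ℕ)) (-σ)) (hP p p.2 _ hw)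
    rw [← Complex.re_ofReal_mul] at h4
    refine h4.trans_eq (congrArg Complex.re ?_)
    rw [split_CZL hp, split_CZL hp, e0, e2]
    ring
  have e3 : (3 * PSum a₀ σ + 4 * PSum a (σ + t * Complex.I) +
      PSum a₂ (σ + 2 * (t * Complex.I))).re = 3 * (PSum a₀ σ).re +
      4 * (PSum a (σ + t * Complex.I)).re + (PSum a₂ (σ + 2 * (t * Complex.I))).re := by simp
  rw [e3] at h3
  generalize ‖LSeries a₀ σ‖ = x₀ at *
  generalize ‖LSeries a (σ + t * Complex.I)‖ = x at *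
  generalize ‖LSeries a₂ (σ + 2 * (t * Complex.I))‖ = x₂ at *
  have h5 : 0 ≤ 16 * C + Real.log (x₀ ^ 3 * x ^ 4 * x₂) := by
    rw [Real.log_mul (by positivity) p2.ne', Real.log_mul (by positivity) (by positivity),
      Real.log_pow, Real.log_pow]
    push_cast
    linarith
  have h6 := Real.one_le_exp h5
  rwa [Real.exp_add, Real.exp_log (by positivity)] at h6

theorem prod2_CZL {C : ℝ} (H : A2_CZL C) {a₀ a₁ a a₃ a₄ a₅ : ℕ → ℂ} {A Q₀ Q : ℝ}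
    (h0 : LQ a₀ A Q₀) (h1 : LQ a₁ A Q) (h2 : LQ a A Q) (h3 : LQ a₃ A Q) (h4 : LQ a₄ A Q)
    (h5 : LQ a₅ A Q) (hP : ∀ p : ℕ, p.Prime →
      0 ≤ (2 * a₀ p + 2 * a₁ p + 3 * (a p + a₃ p + a₄ p + a₅ p)).re) {σ : ℝ} (hσ : 1 < σ) :
    1 ≤ Real.exp (16 * C) * (‖LSeries a₀ σ‖ ^ 2 * ‖LSeries a₁ σ‖ ^ 2 * ‖LSeries a σ‖ ^ 3 *
      ‖LSeries a₃ σ‖ ^ 3 * ‖LSeries a₄ σ‖ ^ 3 * ‖LSeries a₅ σ‖ ^ 3) := by
  have hs : 1 < (σ : ℂ).re := by simpa using hσ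
  obtain ⟨p0, u0, s0⟩ := H a₀ A Q₀ h0 σ hs
  obtain ⟨p1, u1, s1⟩ := H a₁ A Q h1 σ hs
  obtain ⟨p2, u2, s2⟩ := H a A Q h2 σ hs
  obtain ⟨p3, u3, s3⟩ := H a₃ A Q h3 σ hs
  obtain ⟨p4, u4, s4⟩ := H a₄ A Q h4 σ hs
  obtain ⟨p5, u5, s5⟩ := H a₅ A Q h5 σ hs
  have h6 := (Complex.hasSum_re (((s0.mul_left 2).add (s1.mul_left 2)).add
      ((((s2.add s3).add s4).add s5).mul_left 3))).nonneg fun p => by
    have e0 : ((p : ℕ) : ℂ) ^ (-(σ : ℂ)) = ((((p : ℕ) : ℝ) ^ (-σ) : ℝ) : ℂ) := by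
      rw [Complex.ofReal_cpow (Nat.cast_nonneg _), Complex.ofReal_natCast, Complex.ofReal_neg]
    have h7 := mul_nonneg (Real.rpow_nonneg (Nat.cast_nonneg (p : ℕ)) (-σ)) (hP p p.2)
    rw [← Complex.re_ofReal_mul] at h7
    refine h7.trans_eq (congrArg Complex.re ?_)
    rw [e0]
    ring
  have e3 : (2 * PSum a₀ σ + 2 * PSum a₁ σ +
      3 * (PSum a σ + PSum a₃ σ + PSum a₄ σ + PSum a₅ σ)).re = 2 * (PSum a₀ σ).re +
      2 * (PSum a₁ σ).re + 3 * ((PSum a σ).re + (PSum a₃ σ).re + (PSum a₄ σ).re +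
        (PSum a₅ σ).re) := by simp
  rw [e3] at h6
  generalize ‖LSeries a₀ σ‖ = x₀ at *
  generalize ‖LSeries a₁ σ‖ = x₁ at *
  generalize ‖LSeries a σ‖ = x₂ at *
  generalize ‖LSeries a₃ σ‖ = x₃ at *
  generalize ‖LSeries a₄ σ‖ = x₄ at *
  generalize ‖LSeries a₅ σ‖ = x₅ at *
  have h8 : 0 ≤ 16 * C + Real.log (x₀ ^ 2 * x₁ ^ 2 * x₂ ^ 3 * x₃ ^ 3 * x₄ ^ 3 * x₅ ^ 3) := by
    rw [Real.log_mul (by positivity) (by positivity), Real.log_mul (by positivity) (by positivity),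
      Real.log_mul (by positivity) (by positivity), Real.log_mul (by positivity) (by positivity),
      Real.log_mul (by positivity) (by positivity), Real.log_pow, Real.log_pow, Real.log_pow,
      Real.log_pow, Real.log_pow, Real.log_pow]
    push_cast
    linarith
  have h9 := Real.one_le_exp h8
  rwa [Real.exp_add, Real.exp_log (by positivity)] at h9

/-- the part of `An1Stmt` that is used here -/
def A1_CZL (A η K : ℝ) : Prop :=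
  (∀ (a : ℕ → ℂ) (r : ℝ), LQ a A A → 0 < r → r ≤ 1 → ‖LSeries a ((1 + r : ℝ) : ℂ)‖ ≤ K / r) ∧
  ∀ (a : ℕ → ℂ) (Q T : ℝ), 1 ≤ Q → 1 ≤ T →
    (LQ a A Q → ∀ s : ℂ, 1 < s.re → ‖s‖ ≤ 4 * T →
      ‖LSeries a s‖ ≤ K / ‖s - 1‖ + K * (Q * T) ^ η) ∧
    (LZ a A Q → ∀ s : ℂ, 1 < s.re → ‖s‖ ≤ 4 * T → ‖LSeries a s‖ ≤ K * (Q * T) ^ η ∧
      ∀ s' : ℂ, 1 < s'.re → ‖s'‖ ≤ 4 * T →
        ‖LSeries a s' - LSeries a s‖ ≤ K * (Q * T) ^ η * ‖s' - s‖)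

theorem a1_CZL (h1 : An1Stmt) {A η : ℝ} (hA : 1 ≤ A) (hη : 0 < η) :
    ∃ K : ℝ, 1 ≤ K ∧ A1_CZL A η K := by
  obtain ⟨ε, C, hε, -, hC, H⟩ := h1 A η hA hη
  have k1 : 0 ≤ C * 5 ^ η := by positivity
  have k2 : 0 ≤ C * (A * 3) ^ η := by positivity
  refine ⟨A + C * 5 ^ η + C * (A * 3) ^ η, by linarith, fun a r ⟨b, c, hL⟩ hr hr1 => ?_,
    fun a Q T hQ hT => ?_⟩
  · obtain ⟨h, -, e, hb⟩ := H a b c A hA hL
    have hs : ((1 + r : ℝ) : ℂ).re = 1 + r := Complex.ofReal_re _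
    have h2 : ‖h ((1 + r : ℝ) : ℂ)‖ ≤ C * (A * 3) ^ η := by
      refine (hb _ (by rw [hs]; linarith)).1.trans ?_
      rw [Complex.norm_real, Real.norm_of_nonneg (by linarith)]
      gcongr
      linarith
    have h3 : ‖c / (((1 + r : ℝ) : ℂ) - 1)‖ ≤ A / r := by
      rw [show ((1 + r : ℝ) : ℂ) - 1 = (r : ℂ) by push_cast; ring, norm_div, Complex.norm_real,
        Real.norm_of_nonneg hr.le]
      exact div_le_div_of_nonneg_right hL.res hr.le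
    rw [e _ (by rw [hs]; linarith)]
    refine (norm_add_le _ _).trans ((add_le_add h3 h2).trans ?_)
    rw [add_div, add_div]
    have h4 : C * (A * 3) ^ η ≤ C * (A * 3) ^ η / r := by
      rw [le_div_iff₀ hr]
      exact mul_le_of_le_one_right k2 hr1
    have h5 : 0 ≤ C * 5 ^ η / r := by positivity
    linarith
  have hu : 0 ≤ (Q * T) ^ η := by positivity
  have hb' : ∀ s : ℂ, ‖s‖ ≤ 4 * T → C * (Q * (‖s‖ + 1)) ^ η ≤
      (A + C * 5 ^ η + C * (A * 3) ^ η) * (Q * T) ^ η := fun s hs => by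
    have h2 : (Q * (‖s‖ + 1)) ^ η ≤ 5 ^ η * (Q * T) ^ η := by
      rw [← Real.mul_rpow (by norm_num) (by positivity)]
      exact Real.rpow_le_rpow (by positivity) (by nlinarith) hη.le
    calc C * (Q * (‖s‖ + 1)) ^ η ≤ C * (5 ^ η * (Q * T) ^ η) := by gcongr
      _ = C * 5 ^ η * (Q * T) ^ η := by ring
      _ ≤ _ := mul_le_mul_of_nonneg_right (by linarith) hu
  refine ⟨fun ⟨b, c, hL⟩ s hs hs' => ?_, fun ⟨b, hL⟩ s hs hs' => ?_⟩
  · obtain ⟨h, -, e, hb⟩ := H a b c Q hQ hL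
    rw [e s hs]
    refine (norm_add_le _ _).trans (add_le_add ?_ ((hb s (by linarith)).1.trans (hb' s hs')))
    rw [norm_div]
    exact div_le_div_of_nonneg_right (hL.res.trans (by linarith)) (norm_nonneg _)
  · obtain ⟨h, hd, e, hb⟩ := H a b 0 Q hQ hL
    have e' : ∀ z : ℂ, 1 < z.re → LSeries a z = h z := fun z hz => by
      rw [e z hz, zero_div, zero_add]
    refine ⟨by rw [e' s hs]; exact (hb s (by linarith)).1.trans (hb' s hs'), fun s' h2 h3 => ?_⟩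
    rw [e' s hs, e' s' h2]
    have ho : IsOpen {z : ℂ | 5 / 6 < z.re} := isOpen_lt continuous_const Complex.continuous_re
    refine Convex.norm_image_sub_le_of_norm_deriv_le (𝕜 := ℂ) (f := h)
      (s := {z : ℂ | 1 ≤ z.re} ∩ Metric.closedBall 0 (4 * T)) (fun x hx => ?_)
      (fun x hx => (hb x ?_).2.trans (hb' x (mem_closedBall_zero_iff.1 hx.2)))
      ((convex_halfSpace_re_ge _).inter (convex_closedBall _ _))
      ⟨hs.le, mem_closedBall_zero_iff.2 hs'⟩ ⟨h2.le, mem_closedBall_zero_iff.2 h3⟩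
    · have h4 : 1 ≤ x.re := hx.1
      exact hd.differentiableAt (ho.mem_nhds (show 5 / 6 < x.re by linarith))
    · have h4 : 1 ≤ x.re := hx.1
      linarith

theorem num1_CZL {G K u ρ c x₀ x x₂ : ℝ} (hG : 1 ≤ G) (hK : 1 ≤ K) (hu : 1 ≤ u) (hρ : 0 < ρ)
    (hc : 0 < c) (hc1 : c * (8 * G * K ^ 16) ≤ 1) (h0 : 0 ≤ x₀) (hx : 0 ≤ x) (h2 : 0 ≤ x₂)
    (b0 : x₀ ≤ K / ρ ^ 48) (b2 : x₂ ≤ 2 * K * u / ρ ^ 36)
    (h : 1 ≤ G * (x₀ ^ 3 * x ^ 4 * x₂)) : c * ρ ^ 45 / u ^ 4 ≤ x := by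
  have h3 : 1 ≤ G * ((K / ρ ^ 48) ^ 3 * x ^ 4 * (2 * K * u / ρ ^ 36)) := h.trans (by gcongr)
  have h4 : G * ((K / ρ ^ 48) ^ 3 * x ^ 4 * (2 * K * u / ρ ^ 36)) =
      2 * G * K ^ 4 * u * x ^ 4 / ρ ^ 180 := by field_simp
  rw [h4, le_div_iff₀ (by positivity), one_mul] at h3
  have h5 : 1 ≤ 8 * G * K ^ 16 := by nlinarith [one_le_pow₀ (n := 16) hK]
  have h6 : c ≤ 1 := (le_mul_of_one_le_right hc.le h5).trans hc1
  have h7 : c ^ 4 * (2 * G * K ^ 4 * u) ≤ u ^ 16 := by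
    calc c ^ 4 * (2 * G * K ^ 4 * u) ≤ c * (8 * G * K ^ 16 * u ^ 16) := by
          refine mul_le_mul (pow_le_of_le_one hc.le h6 four_ne_zero) ?_ (by positivity) hc.le
          gcongr
          · norm_num
          · norm_num
          · exact le_self_pow₀ hu (by norm_num)
      _ = c * (8 * G * K ^ 16) * u ^ 16 := by ring
      _ ≤ u ^ 16 := mul_le_of_le_one_left (by positivity) hc1
  refine le_of_pow_le_pow_left₀ four_ne_zero hx ?_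
  rw [div_pow, div_le_iff₀ (by positivity)]
  calc (c * ρ ^ 45) ^ 4 = c ^ 4 * ρ ^ 180 := by ring
    _ ≤ c ^ 4 * (2 * G * K ^ 4 * u * x ^ 4) := by gcongr
    _ = c ^ 4 * (2 * G * K ^ 4 * u) * x ^ 4 := by ring
    _ ≤ u ^ 16 * x ^ 4 := by gcongr
    _ = _ := by ring

theorem num2_CZL {G K u ρ x₀ x₁ x x₃ x₄ x₅ : ℝ} (hG : 1 ≤ G) (hK : 1 ≤ K) (hu : 1 ≤ u)
    (hρ : 0 < ρ) (hr : ρ ^ 48 * u ^ 256 * (8 * G * K ^ 16) ^ 4 ≤ 1) (h0 : 0 ≤ x₀) (h1 : 0 ≤ x₁)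
    (hx : 0 ≤ x) (h3 : 0 ≤ x₃) (h4 : 0 ≤ x₄) (h5 : 0 ≤ x₅) (b0 : x₀ ≤ K / ρ ^ 48)
    (b1 : x₁ ≤ K * u) (b3 : x₃ ≤ K * u) (b4 : x₄ ≤ K * u) (b5 : x₅ ≤ K * u)
    (h : 1 ≤ G * (x₀ ^ 2 * x₁ ^ 2 * x ^ 3 * x₃ ^ 3 * x₄ ^ 3 * x₅ ^ 3)) :
    2 * (K * u * ρ ^ 36) ≤ x := by
  have h6 : 1 ≤ G * ((K / ρ ^ 48) ^ 2 * (K * u) ^ 2 * x ^ 3 * (K * u) ^ 3 * (K * u) ^ 3 *
      (K * u) ^ 3) := h.trans (by gcongr)
  have h7 : G * ((K / ρ ^ 48) ^ 2 * (K * u) ^ 2 * x ^ 3 * (K * u) ^ 3 * (K * u) ^ 3 *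
      (K * u) ^ 3) = G * K ^ 13 * u ^ 11 * x ^ 3 / ρ ^ 96 := by field_simp
  rw [h7, le_div_iff₀ (by positivity), one_mul] at h6
  have h8 : ρ ^ 12 * u ^ 14 * (8 * G * K ^ 16) ≤ 1 := by
    refine le_of_pow_le_pow_left₀ four_ne_zero zero_le_one ?_
    rw [one_pow]
    refine le_trans ?_ hr
    calc (ρ ^ 12 * u ^ 14 * (8 * G * K ^ 16)) ^ 4 = ρ ^ 48 * u ^ 56 * (8 * G * K ^ 16) ^ 4 := by
          ring
      _ ≤ _ := by
          gcongr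
          norm_num
  refine le_of_pow_le_pow_left₀ three_ne_zero hx ?_
  refine le_of_mul_le_mul_left ?_ (show 0 < G * K ^ 13 * u ^ 11 by positivity)
  calc G * K ^ 13 * u ^ 11 * (2 * (K * u * ρ ^ 36)) ^ 3
      = ρ ^ 12 * u ^ 14 * (8 * G * K ^ 16) * ρ ^ 96 := by ring
    _ ≤ ρ ^ 96 := mul_le_of_le_one_left (by positivity) h8
    _ ≤ _ := h6

theorem czl (h1 : An1Stmt) (h2 : An2Stmt) : ZLStmt := by
  intro A η hA hη
  obtain ⟨C, hC, H2⟩ := a2_CZL h2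
  obtain ⟨K, hK, H0, H1⟩ := a1_CZL h1 hA (show 0 < η / 256 by positivity)
  have hG : 1 ≤ Real.exp (16 * C) := Real.one_le_exp (by positivity)
  have P1 := @prod1_CZL C hC H2
  have P2 := @prod2_CZL C H2
  generalize Real.exp (16 * C) = G at hG P1 P2
  have hW : 1 ≤ 8 * G * K ^ 16 := by nlinarith [one_le_pow₀ (n := 16) hK]
  have hW4 : 8 * G * K ^ 16 ≤ (8 * G * K ^ 16) ^ 4 := le_self_pow₀ hW four_ne_zero
  obtain ⟨c, hc, hc4⟩ : ∃ c : ℝ, 0 < c ∧ c * (8 * G * K ^ 16) ^ 4 = 1 :=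
    ⟨1 / (8 * G * K ^ 16) ^ 4, by positivity, by field_simp⟩
  have hc1 : c * (8 * G * K ^ 16) ≤ 1 := (mul_le_mul_of_nonneg_left hW4 hc.le).trans hc4.le
  have hc2 : c ≤ 1 := (le_mul_of_one_le_right hc.le hW).trans hc1
  refine ⟨c, hc, fun a Q T r t hQ hT hZ ⟨a₀, a₂, L0, hP, hcase⟩ hr hrc ht => ?_⟩
  have hQT : 1 ≤ Q * T := one_le_mul_of_one_le_of_one_le hQ hT
  have hQT0 : 0 < Q * T := one_pos.trans_le hQT
  have H1' := fun a => H1 a Q T hQ hT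
  have hu : 1 ≤ (Q * T) ^ (η / 256) := Real.one_le_rpow hQT (by positivity)
  have e1 : (Q * T) ^ (-η) = 1 / ((Q * T) ^ (η / 256)) ^ 256 := by
    rw [← Real.rpow_natCast, ← Real.rpow_mul hQT0.le, Real.rpow_neg hQT0.le, one_div]
    congr 2
    push_cast
    ring
  have e2 : (Q * T) ^ (-(η / 64)) = 1 / ((Q * T) ^ (η / 256)) ^ 4 := by
    rw [← Real.rpow_natCast, ← Real.rpow_mul hQT0.le, Real.rpow_neg hQT0.le, one_div]
    congr 2
    push_cast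
    ring
  rw [e1] at hrc
  rw [e2]
  generalize (Q * T) ^ (η / 256) = u at hu hrc H1' ⊢
  have hu0 : 0 < u := one_pos.trans_le hu
  rw [mul_one_div, le_div_iff₀ (by positivity)] at hrc
  have hr1 : r ≤ 1 := (le_mul_of_one_le_right hr.le (one_le_pow₀ hu)).trans (hrc.trans hc2)
  have hρ : 0 < r ^ (1 / 48 : ℝ) := Real.rpow_pos_of_pos hr _
  have hρ1 : r ^ (1 / 48 : ℝ) ≤ 1 := Real.rpow_le_one hr.le hr1 (by norm_num)
  have e3 : (r ^ (1 / 48 : ℝ)) ^ 48 = r := by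
    rw [← Real.rpow_natCast, ← Real.rpow_mul hr.le]
    norm_num
  have e4 : r ^ (15 / 16 : ℝ) = (r ^ (1 / 48 : ℝ)) ^ 45 := by
    rw [← Real.rpow_natCast, ← Real.rpow_mul hr.le]
    norm_num
  rw [e4, mul_one_div]
  generalize r ^ (1 / 48 : ℝ) = ρ at hρ hρ1 e3 ⊢
  have b0 : ‖LSeries a₀ ((1 + r : ℝ) : ℂ)‖ ≤ K / ρ ^ 48 := by
    rw [e3]
    exact H0 a₀ r L0 hr hr1
  have hσ : (1 : ℝ) < 1 + r := by linarith
  have hn : ∀ y : ℝ, |y| ≤ 2 * T → 1 < (((1 + r : ℝ) : ℂ) + y * Complex.I).re ∧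
      ‖((1 + r : ℝ) : ℂ) + y * Complex.I‖ ≤ 4 * T := fun y hy => by
    refine ⟨by simpa using hr, (Complex.norm_le_abs_re_add_abs_im _).trans ?_⟩
    have h3 : (((1 + r : ℝ) : ℂ) + y * Complex.I).re = 1 + r := by simp
    have h4 : (((1 + r : ℝ) : ℂ) + y * Complex.I).im = y := by simp
    rw [h3, h4, abs_of_pos (by linarith)]
    linarith
  have n0 : 1 < ((1 + r : ℝ) : ℂ).re ∧ ‖((1 + r : ℝ) : ℂ)‖ ≤ 4 * T := by
    simpa using hn 0 (by rw [abs_zero]; linarith)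
  have n1 := hn t (by linarith)
  have n2 := hn (2 * t) (by rw [abs_mul, abs_two]; linarith)
  rw [show (((2 * t : ℝ) : ℂ) * Complex.I) = 2 * (t * Complex.I) by push_cast; ring] at n2
  have h36 : 0 < ρ ^ 36 := by positivity
  have h36' : ρ ^ 36 ≤ 1 := pow_le_one₀ hρ.le hρ1
  have hKu : K * u ≤ K * u / ρ ^ 36 := by
    rw [le_div_iff₀ h36]
    exact mul_le_of_le_one_right (by positivity) h36'
  have hKu' : 2 * K * u / ρ ^ 36 = K * u / ρ ^ 36 + K * u / ρ ^ 36 := by ring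
  have key : LQ a₂ A Q → ‖LSeries a₂ (((1 + r : ℝ) : ℂ) + 2 * (t * Complex.I))‖ ≤
      2 * K * u / ρ ^ 36 → c * ρ ^ 45 / u ^ 4 ≤
        ‖LSeries a (((1 + r : ℝ) : ℂ) + t * Complex.I)‖ := fun L2 b2 =>
    num1_CZL hG hK hu hρ hc hc1 (norm_nonneg _) (norm_nonneg _) (norm_nonneg _) b0 b2
      (P1 L0 (lq_CZL hZ) L2 hP hσ t)
  rcases hcase with L2 | ⟨L2, a₁, a₃, a₄, a₅, L1, L3, L4, L5, hP2⟩
  · refine key (lq_CZL L2) (((H1' a₂).2 L2 _ n2.1 n2.2).1.trans ?_)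
    have : 0 ≤ K * u / ρ ^ 36 := by positivity
    linarith
  rcases le_total (ρ ^ 36) |t| with h3 | h3
  · refine key L2 (((H1' a₂).1 L2 _ n2.1 n2.2).trans ?_)
    have h4 : ρ ^ 36 ≤ ‖((1 + r : ℝ) : ℂ) + 2 * (t * Complex.I) - 1‖ := by
      refine le_trans ?_ (Complex.abs_im_le_norm _)
      have h5 : (((1 + r : ℝ) : ℂ) + 2 * (t * Complex.I) - 1).im = 2 * t := by simp
      rw [h5, abs_mul, abs_two]
      linarith
    have h5 : K / ‖((1 + r : ℝ) : ℂ) + 2 * (t * Complex.I) - 1‖ ≤ K * u / ρ ^ 36 :=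
      div_le_div₀ (by positivity) (le_mul_of_one_le_right (by linarith) hu) h36 h4
    linarith
  · have h4 := num2_CZL hG hK hu hρ (by
        rw [e3, ← hc4]
        exact mul_le_mul_of_nonneg_right hrc (by positivity))
      (norm_nonneg _) (norm_nonneg _) (norm_nonneg _) (norm_nonneg _) (norm_nonneg _)
      (norm_nonneg _) b0 ((H1' a₁).2 L1 _ n0.1 n0.2).1 ((H1' a₃).2 L3 _ n0.1 n0.2).1
      ((H1' a₄).2 L4 _ n0.1 n0.2).1 ((H1' a₅).2 L5 _ n0.1 n0.2).1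
      (P2 L0 (lq_CZL L1) (lq_CZL hZ) (lq_CZL L3) (lq_CZL L4) (lq_CZL L5) hP2 hσ)
    have h5 := ((H1' a).2 hZ _ n1.1 n1.2).2 _ n0.1 n0.2
    have h6 : ‖((1 + r : ℝ) : ℂ) - (((1 + r : ℝ) : ℂ) + t * Complex.I)‖ = |t| := by
      rw [sub_add_cancel_left, norm_neg, norm_mul, Complex.norm_I, mul_one, Complex.norm_real,
        Real.norm_eq_abs]
    rw [h6] at h5
    have h7 := norm_sub_norm_le (LSeries a ((1 + r : ℝ) : ℂ))
      (LSeries a (((1 + r : ℝ) : ℂ) + t * Complex.I))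
    have h8 : K * u * |t| ≤ K * u * ρ ^ 36 := mul_le_mul_of_nonneg_left h3 (by positivity)
    have h9 : c * ρ ^ 45 / u ^ 4 ≤ K * u * ρ ^ 36 :=
      calc c * ρ ^ 45 / u ^ 4 ≤ c * ρ ^ 45 := div_le_self (by positivity) (one_le_pow₀ hu)
        _ ≤ K * u * ρ ^ 36 := mul_le_mul (hc2.trans (one_le_mul_of_one_le_of_one_le hK hu))
            (pow_le_pow_of_le_one hρ.le hρ1 (by norm_num)) (by positivity) (by positivity)
    linarith

end Pool.Agent.MP_adc87d_lc.Big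

end
end
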