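import Mathlib
import Pool.Agent.Mg.Fadc87d.G0908ea
import Pool.Agent.MP_e23604_nt.P.SW
import Pool.Agent.MP_2a1f0e_nt.Variance

set_option linter.all false

section

/-! The sieve model has the same mass as the primes, and all characters cancel. -/

set_option autoImplicit false

noncomputable section

open Finset
open scoped Classical

namespace Pool.Agent.MP_adc87d_lc.Big

open Pool.Agent.MP_2a1f0e_nt (ex)

theorem sumIoc_CBal {β : Type} [AddCommGroup β] (f : ℕ → β) {m n : ℕ} (h : m ≤ n) :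
    ∑ i ∈ Ioc m n, f i = ∑ i ∈ Icc 1 n, f i - ∑ i ∈ Icc 1 m, f i := by
  have e : ∀ r : ℕ, Icc 1 r = Ioc 0 r := fun r => by
    ext i
    simp only [mem_Icc, mem_Ioc]
    omega
  rw [e, e, ← sum_Ioc_consecutive f (Nat.zero_le m) h]
  abel

theorem dd_eq_CBal {k n : ℕ} {x : O} (hx : x ∈ Dn 0 n) :
    dd k x = if n.Prime ∧ Lo k n then Real.log n else 0 := by
  have h := (mem_Dn.1 hx).2
  unfold dd
  rw [h]
  simp only [Int.natAbs_natCast, Int.cast_natCast]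

theorem rough_CBal (h2 : SplitStmt) {k n : ℕ} (hk : 2 ≤ k) {z : ℝ} {x : O} (hx : x ∈ Dn 0 n)
    (hz : z < n) (hd : dd k x ≠ 0) : Rough z x := by
  rw [dd_eq_CBal hx] at hd
  have hp : n.Prime ∧ Lo k n := by
    by_contra hc
    exact hd (if_neg hc)
  have h := (mem_Dn.1 hx).2
  refine ⟨fun l hl hlz hdv => ?_, ((h2 n hp.1).2.2.2 x h).2.1, Or.inl ?_⟩
  · rw [h] at hdv
    have : l = n := (Nat.prime_dvd_prime_iff_eq hl hp.1).1 (by exact_mod_cast hdv)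
    subst this
    linarith
  · rw [h]
    have h9 : 3 ^ 2 ∣ 3 ^ k := pow_dvd_pow 3 hk
    have h1 : n % 3 ^ 2 = 1 := by
      rw [← Nat.mod_mod_of_dvd n h9, hp.2.1]
      norm_num
    omega

theorem cop_CBal {z : ℝ} {x : O} {M : ℕ} (hM : 1 ≤ M) (hMz : (M : ℝ) ≤ z) (h : Rough z x) :
    IsCoprime (Nm x) (M : ℤ) := by
  rw [Int.isCoprime_iff_gcd_eq_one]
  by_contra hc
  obtain ⟨l, hl, hd⟩ := Nat.exists_prime_and_dvd hc
  have d1 : (l : ℤ) ∣ Nm x := (Int.natCast_dvd_natCast.2 hd).trans (Int.gcd_dvd_left _ _)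
  have d2 : (l : ℤ) ∣ (M : ℤ) := (Int.natCast_dvd_natCast.2 hd).trans (Int.gcd_dvd_right _ _)
  have d3 : l ≤ M := Nat.le_of_dvd hM (by exact_mod_cast d2)
  exact h.1 l hl ((by exact_mod_cast d3 : (l : ℝ) ≤ M).trans hMz) d1

/-- a residue class of good primes -/
theorem class_CBal {k : ℕ} (hk : 2 ≤ k) : ∃ c : ℕ, Nat.Coprime c (23 * 3 ^ k) ∧
    ∀ n : ℕ, n % (23 * 3 ^ k) = c % (23 * 3 ^ k) → Lo k n ∧ n % 3 = 1 := by
  have hc : Nat.Coprime 23 (3 ^ k) := Nat.Coprime.pow_right k (by norm_num)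
  obtain ⟨c, c1, c2⟩ := Nat.chineseRemainder hc 5 1
  have h1 : 1 < 3 ^ k := Nat.one_lt_pow (by omega) (by norm_num)
  refine ⟨c, Nat.Coprime.mul_right ?_ ?_, fun n hn => ?_⟩
  · have : Nat.gcd c 23 = Nat.gcd 5 23 := c1.gcd_eq
    rw [Nat.Coprime, this]
    norm_num
  · have : Nat.gcd c (3 ^ k) = Nat.gcd 1 (3 ^ k) := c2.gcd_eq
    rw [Nat.Coprime, this]
    simp
  · have hn' : n ≡ c [MOD 23 * 3 ^ k] := hn
    have a1 : n ≡ 5 [MOD 23] := (hn'.of_mul_right _).trans c1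
    have a2 : n ≡ 1 [MOD 3 ^ k] := (hn'.of_mul_left _).trans c2
    have a3 : n % 3 ^ k = 1 := by
      rw [a2, Nat.mod_eq_of_lt h1]
    refine ⟨⟨a3, ?_⟩, ?_⟩
    · rw [(ZMod.natCast_eq_natCast_iff n 5 23).2 a1]
      decide
    · have h3 : 3 ∣ 3 ^ k := dvd_pow_self 3 (by omega)
      rw [← Nat.mod_mod_of_dvd n h3, a3]

/-- comparison of the error terms -/
theorem err_CBal {V y : ℝ} {A : ℕ} (hV : 1 < V) (h1 : V ≤ y) :
    y / Real.log y ^ A ≤ y / Real.log V ^ A := by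
  have l0 : 0 < Real.log V := Real.log_pos hV
  have l1 : Real.log V ≤ Real.log y := Real.log_le_log (by linarith) h1
  exact div_le_div_of_nonneg_left (by linarith) (by positivity) (pow_le_pow_left₀ l0.le l1 A)

/-- the primes have large mass -/
theorem low_CBal (h2 : SplitStmt) {k : ℕ} (hk : 2 ≤ k) : ∃ c : ℝ, 0 < c ∧ ∀ a : ℕ,
    ∀ᶠ V : ℝ in Filter.atTop, ∀ y₁ y₂ : ℝ, V ≤ y₁ → y₁ ≤ y₂ → y₂ ≤ 2 * V →
      V / Real.log V ^ a ≤ y₂ - y₁ →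
      c * (y₂ - y₁) ≤ ∑ n ∈ Ioc ⌊y₁⌋₊ ⌊y₂⌋₊, ∑ x ∈ Dn 0 n, dd k x := by
  obtain ⟨c, hc, hcl⟩ := class_CBal hk
  set q := 23 * 3 ^ k with hq
  have q0 : 0 < q := by positivity
  have t0 : (0 : ℝ) < q.totient := by exact_mod_cast Nat.totient_pos.2 q0
  refine ⟨1 / (2 * q.totient), by positivity, fun a => ?_⟩
  obtain ⟨x0, h0⟩ := Pool.Agent.MP_e23604_nt.P.siegel_walfisz (a + 1) 1
  filter_upwards [Filter.eventually_ge_atTop x0, Filter.eventually_gt_atTop 1,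
    Real.tendsto_log_atTop.eventually_ge_atTop (q : ℝ),
    Real.tendsto_log_atTop.eventually_ge_atTop (8 * (q.totient : ℝ))] with V v0 v1 v2 v3
  intro y₁ y₂ a1 a2 a3 a4
  have l0 : 0 < Real.log V := Real.log_pos v1
  have key : ∀ y, V ≤ y → |∑ n ∈ Icc 1 ⌊y⌋₊, (if n.Prime ∧ n % q = c % q then Real.log n else 0) -
      y / q.totient| ≤ y / Real.log V ^ (a + 1) := fun y hy => by
    have := h0 y (v0.trans hy) q c q0 (by
      rw [pow_one]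
      exact v2.trans (Real.log_le_log (by linarith) hy)) hc
    rw [sum_filter] at this
    exact this.trans (err_CBal v1 hy)
  have k1 := abs_le.1 (key y₁ a1)
  have k2 := abs_le.1 (key y₂ (a1.trans a2))
  have e := sumIoc_CBal (fun n : ℕ => if n.Prime ∧ n % q = c % q then Real.log n else 0)
    (Nat.floor_le_floor a2)
  have b1 : ∑ n ∈ Ioc ⌊y₁⌋₊ ⌊y₂⌋₊, (if n.Prime ∧ n % q = c % q then Real.log n else 0) ≤
      ∑ n ∈ Ioc ⌊y₁⌋₊ ⌊y₂⌋₊, ∑ x ∈ Dn 0 n, dd k x := by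
    refine sum_le_sum fun n _ => ?_
    rw [sum_congr rfl fun x hx => dd_eq_CBal (k := k) hx, sum_const, nsmul_eq_mul]
    have ln : 0 ≤ Real.log n := Real.log_natCast_nonneg n
    by_cases hn : n.Prime ∧ n % q = c % q
    · obtain ⟨hl, h3⟩ := hcl n hn.2
      rw [if_pos hn, if_pos ⟨hn.1, hl⟩]
      have : 1 ≤ (Dn 0 n).card := card_pos.2 ((h2 n hn.1).2.1 h3 hl.2)
      exact le_mul_of_one_le_left ln (by exact_mod_cast this)
    · rw [if_neg hn]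
      refine mul_nonneg (Nat.cast_nonneg _) ?_
      split_ifs
      · exact ln
      · exact le_rfl
  have b2 : y₁ / Real.log V ^ (a + 1) + y₂ / Real.log V ^ (a + 1) ≤
      1 / (2 * q.totient) * (y₂ - y₁) := by
    have p0 : 0 < Real.log V ^ a := by positivity
    calc y₁ / Real.log V ^ (a + 1) + y₂ / Real.log V ^ (a + 1)
        ≤ 4 * V / Real.log V ^ (a + 1) := by
          rw [← add_div]
          exact div_le_div_of_nonneg_right (by linarith) (by positivity)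
      _ = 4 / Real.log V * (V / Real.log V ^ a) := by
          rw [pow_succ]
          field_simp
      _ ≤ 1 / (2 * q.totient) * (y₂ - y₁) := by
          refine mul_le_mul ?_ a4 (by positivity) (by positivity)
          rw [div_le_div_iff₀ l0 (by positivity)]
          linarith
  have b3 : y₂ / q.totient - y₁ / q.totient = 2 * (1 / (2 * q.totient) * (y₂ - y₁)) := by
    field_simp
  linarith [k1.2, k2.1]

/-- the number of elements is not too large -/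
theorem up_CBal (h3 : ChStmt) (h4 : PSStmt) : ∃ c : ℝ, 0 < c ∧ ∀ a : ℕ,
    ∀ᶠ V : ℝ in Filter.atTop, ∀ y₁ y₂ : ℝ, V ≤ y₁ → y₁ ≤ y₂ → y₂ ≤ 2 * V →
      V / Real.log V ^ a ≤ y₂ - y₁ →
      ∑ n ∈ Ioc ⌊y₁⌋₊ ⌊y₂⌋₊, ∑ _x ∈ Dn 0 n, (1 : ℝ) ≤ c * (y₂ - y₁) := by
  obtain ⟨κ, C, hκ, hC, hP⟩ := h4
  refine ⟨κ + 1, by positivity, fun a => ?_⟩
  have hm : mean 1 (fun _ => 1) = 1 := by simp [mean, Cu]
  have key : ∀ y : ℝ, 1 ≤ y → |∑ n ∈ Icc 1 ⌊y⌋₊, ∑ _x ∈ Dn 0 n, (1 : ℝ) - κ * y| ≤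
      C * y ^ (5 / 6 : ℝ) := fun y hy => by
    have := hP 1 (fun _ => 1) 0 0 y le_rfl (fun _ _ _ => rfl) (fun _ => by simp)
      (fun _ => by rw [h3.2.2.2.1, mul_one]) hy
    rw [if_pos ⟨rfl, rfl⟩, hm] at this
    simp only [h3.2.2.2.1, mul_one, Nat.cast_one, abs_zero, add_zero, Int.cast_zero] at this
    refine le_trans (le_of_eq ?_) this
    rw [← Real.norm_eq_abs, ← Complex.norm_real]
    push_cast
    rfl
  filter_upwards [Filter.eventually_gt_atTop 1,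
    Pool.Agent.MP_e23604_nt.P.xSW_ev (6 * a) ((4 * C) ^ 6) (by positivity)] with V v1 v2
  intro y₁ y₂ a1 a2 a3 a4
  have l0 : 0 < Real.log V := Real.log_pos v1
  have V0 : 0 < V := by linarith
  have k1 := abs_le.1 (key y₁ (by linarith))
  have k2 := abs_le.1 (key y₂ (by linarith))
  have e := sumIoc_CBal (fun n : ℕ => ∑ _x ∈ Dn 0 n, (1 : ℝ)) (Nat.floor_le_floor a2)
  have r1 : ∀ y : ℝ, 0 ≤ y → y ≤ 2 * V → y ^ (5 / 6 : ℝ) ≤ 2 * V ^ (5 / 6 : ℝ) := fun y h0 h => by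
    calc y ^ (5 / 6 : ℝ) ≤ (2 * V) ^ (5 / 6 : ℝ) := Real.rpow_le_rpow h0 h (by norm_num)
      _ = 2 ^ (5 / 6 : ℝ) * V ^ (5 / 6 : ℝ) := Real.mul_rpow (by norm_num) V0.le
      _ ≤ 2 * V ^ (5 / 6 : ℝ) := by
        refine mul_le_mul_of_nonneg_right ?_ (by positivity)
        calc (2 : ℝ) ^ (5 / 6 : ℝ) ≤ 2 ^ (1 : ℝ) :=
              Real.rpow_le_rpow_of_exponent_le (by norm_num) (by norm_num)
          _ = 2 := Real.rpow_one 2
  have r2 : 4 * C * Real.log V ^ a ≤ V ^ (1 / 6 : ℝ) := by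
    refine le_of_pow_le_pow_left₀ (n := 6) (by norm_num) (by positivity) ?_
    rw [← Real.rpow_natCast (V ^ (1 / 6 : ℝ)), ← Real.rpow_mul V0.le, mul_pow, ← pow_mul,
      mul_comm a 6]
    norm_num at v2 ⊢
    exact v2
  have r3 : 4 * C * V ^ (5 / 6 : ℝ) ≤ V / Real.log V ^ a := by
    rw [le_div_iff₀ (by positivity)]
    calc 4 * C * V ^ (5 / 6 : ℝ) * Real.log V ^ a = 4 * C * Real.log V ^ a * V ^ (5 / 6 : ℝ) := by
          ring
      _ ≤ V ^ (1 / 6 : ℝ) * V ^ (5 / 6 : ℝ) := mul_le_mul_of_nonneg_right r2 (by positivity)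
      _ = V := by
          rw [← Real.rpow_add V0]
          norm_num
  have r4 := mul_le_mul_of_nonneg_left (r1 y₁ (by linarith) (by linarith)) (by linarith : 0 ≤ C)
  have r5 := mul_le_mul_of_nonneg_left (r1 y₂ (by linarith) a3) (by linarith : 0 ≤ C)
  rw [e]
  linarith [k1.1, k2.2]

/-- splitting the sum into primes and rough elements -/
theorem split_CBal (k : ℕ) (z w : ℝ) (Ψ : Chr) (n : ℕ) :
    ∑ x ∈ Dn 0 n, (ff k z w x : ℂ) * Ψ.val x =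
      (if n.Prime ∧ Lo k n then Ψ.a n * Real.log n else 0) -
        w * ∑ y ∈ (Dn 0 n).filter (Rough z), Ψ.val y := by
  have e : (if n.Prime ∧ Lo k n then Ψ.a n * Real.log n else 0) =
      ∑ x ∈ Dn 0 n, (dd k x : ℂ) * Ψ.val x := by
    rw [sum_congr rfl fun x hx => by rw [dd_eq_CBal (k := k) hx], ← mul_sum]
    split_ifs
    · rw [mul_comm]
      rfl
    · simp
  rw [e, sum_filter, mul_sum, ← sum_sub_distrib]
  refine sum_congr rfl fun x _ => ?_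
  unfold ff
  split_ifs
  · push_cast
    ring
  · simp

theorem cbal (_h1 : SzStmt) (h2 : SplitStmt) (h3 : ChStmt) (h4 : PSStmt) (h5 : SWStmt)
    (h6 : BrStmt) : BalStmt := by
  intro k hk
  obtain ⟨c₁, c1, hlow⟩ := low_CBal h2 hk
  obtain ⟨c₂, c2, hup⟩ := up_CBal h3 h4
  refine ⟨c₁ / c₂, by positivity, fun a b => ?_⟩
  obtain ⟨x1, hSW⟩ := h5 k (a + 2) (a + b) hk
  obtain ⟨x2, hBr⟩ := h6 (a + 2) (a + b)
  refine Filter.eventually_atTop.1 ?_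
  filter_upwards [hlow a, hup a, Filter.eventually_ge_atTop x1, Filter.eventually_ge_atTop x2,
    Filter.eventually_ge_atTop 2, Real.tendsto_log_atTop.eventually_ge_atTop (12 : ℝ),
    Real.tendsto_log_atTop.eventually_ge_atTop ((2 : ℝ) ^ (a + 3)),
    Pool.Agent.MP_e23604_nt.P.xSW_ev b 1 one_pos] with V v1 v2 v3 v4 v5 v6 v7 v8
  intro z y₁ y₂ z1 z2 a1 a3 a4
  set L := Real.log V with hL
  have l1 : 1 ≤ L := by linarith
  have a5 : 0 < V / L ^ a := by positivity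
  have a2 : y₁ ≤ y₂ := by linarith
  have hD := v1 y₁ y₂ a1 a2 a3 a4
  have hN := v2 y₁ y₂ a1 a2 a3 a4
  have lg : ∀ y, V ≤ y → L ≤ Real.log y := fun y hy => Real.log_le_log (by linarith) hy
  have lg' : ∀ y, 0 < y → y ≤ 2 * V → Real.log y ≤ 2 * L := fun y h0 hy => by
    refine (Real.log_le_log h0 hy).trans ?_
    rw [Real.log_mul (by norm_num) (by linarith)]
    linarith [Real.log_le_log (by norm_num : (0 : ℝ) < 2) v5]
  have mem : ∀ n ∈ Ioc ⌊y₁⌋₊ ⌊y₂⌋₊, V < n ∧ (n : ℝ) ≤ 2 * V := fun n hn => by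
    obtain ⟨n1, n2⟩ := mem_Ioc.1 hn
    exact ⟨a1.trans_lt ((Nat.floor_lt (by linarith)).1 n1),
      ((Nat.le_floor_iff (by linarith)).1 n2).trans a3⟩
  have rg : ∀ n ∈ Ioc ⌊y₁⌋₊ ⌊y₂⌋₊, ∀ x ∈ Dn 0 n, ¬Rough z x → dd k x = 0 := fun n hn x hx h => by
    by_contra hc
    exact h (rough_CBal h2 hk hx (by linarith [(mem n hn).1]) hc)
  obtain ⟨D, eD⟩ : ∃ D, D = ∑ n ∈ Ioc ⌊y₁⌋₊ ⌊y₂⌋₊, ∑ x ∈ Dn 0 n, dd k x := ⟨_, rfl⟩
  obtain ⟨E, eE⟩ : ∃ E, E = ∑ n ∈ Ioc ⌊y₁⌋₊ ⌊y₂⌋₊, ∑ x ∈ Dn 0 n,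
    (if Rough z x then (1 : ℝ) else 0) := ⟨_, rfl⟩
  have hE : E ≤ c₂ * (y₂ - y₁) := by
    rw [eE]
    refine le_trans (sum_le_sum fun n _ => sum_le_sum fun x _ => ?_) hN
    split_ifs
    · exact le_rfl
    · exact zero_le_one
  have hDE : D ≤ 2 * L * E := by
    rw [eD, eE, mul_sum]
    refine sum_le_sum fun n hn => ?_
    rw [mul_sum]
    refine sum_le_sum fun x hx => ?_
    split_ifs with h
    · rw [dd_eq_CBal hx, mul_one]
      split_ifs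
      · exact lg' n (by linarith [(mem n hn).1]) (mem n hn).2
      · linarith
    · rw [rg n hn x hx h, mul_zero]
  rw [← eD] at hD
  have D0 : 0 < D := lt_of_lt_of_le (mul_pos c1 (by linarith)) hD
  have E0 : 0 < E := by
    by_contra hc
    nlinarith
  have w2 : D / E ≤ 2 * L := (div_le_iff₀ E0).2 hDE
  have w0 : 0 ≤ D / E := by positivity
  refine ⟨D / E, ?_, w2, fun Ψ hΨ hq hc hj => ?_⟩
  · rw [div_le_div_iff₀ c2 E0]
    nlinarith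
  have hM : (Ψ.M : ℝ) ≤ z := by
    have m1 : (Ψ.M : ℝ) ≤ Ψ.cond := le_mul_of_one_le_right (Nat.cast_nonneg _)
      (by linarith [abs_nonneg Ψ.σ, abs_nonneg (Ψ.m : ℝ)])
    exact m1.trans (hc.trans ((pow_le_pow_right₀ l1 (by omega)).trans z1))
  by_cases hne : Ψ.NE
  · have h9 : 9 ∣ Ψ.M := ((pow_dvd_pow 3 hk).mul_left 23).trans hq
    have pw : ∀ y, V ≤ y → ∀ j, j ≤ a + b → L ^ j ≤ Real.log y ^ (a + b) := fun y hy j hj' =>
      (pow_le_pow_right₀ l1 hj').trans (pow_le_pow_left₀ (by linarith) (lg y hy) _)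
    have s1 : ∀ y, V ≤ y → y ≤ 2 * V →
        ‖∑ n ∈ Icc 1 ⌊y⌋₊, (if n.Prime ∧ Lo k n then Ψ.a n * Real.log n else 0)‖ ≤
          2 * V / L ^ (a + 2) := fun y hy hy' => by
      have := hSW y (v3.trans hy) Ψ hΨ hq (hc.trans (pw y hy a (by omega))) hj hne
      rw [sum_filter] at this
      exact (this.trans (err_CBal (by linarith) hy)).trans
        (div_le_div_of_nonneg_right hy' (by positivity))
    have s2 : ∀ y, V ≤ y → y ≤ 2 * V →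
        ‖∑ n ∈ Icc 1 ⌊y⌋₊, ∑ x ∈ (Dn 0 n).filter (Rough z), Ψ.val x‖ ≤
          2 * V / L ^ (a + 2) := fun y hy hy' => by
      have := hBr y (v4.trans hy) Ψ z hΨ h9 hne hM (hc.trans (pw y hy a (by omega))) (by
        refine le_trans ?_ z1
        calc Real.log y ^ (a + 2 + 1) ≤ (2 * L) ^ (a + 3) :=
              pow_le_pow_left₀ (by linarith [lg y hy]) (lg' y (by linarith) hy') _
          _ = 2 ^ (a + 3) * L ^ (a + 3) := mul_pow _ _ _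
          _ ≤ L * L ^ (a + 3) := mul_le_mul_of_nonneg_right v7 (by positivity)
          _ = L ^ (a + 4) := by ring) (z2.trans (pw y hy b (by omega)))
      exact (this.trans (err_CBal (by linarith) hy)).trans
        (div_le_div_of_nonneg_right hy' (by positivity))
    rw [sum_congr rfl fun n _ => split_CBal k z (D / E) Ψ n, sum_sub_distrib, ← mul_sum,
      sumIoc_CBal _ (Nat.floor_le_floor a2), sumIoc_CBal _ (Nat.floor_le_floor a2)]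
    have t1 := (norm_sub_le _ _).trans (add_le_add (s1 y₂ (by linarith) a3) (s1 y₁ a1 (by linarith)))
    have t2 := (norm_sub_le _ _).trans (add_le_add (s2 y₂ (by linarith) a3) (s2 y₁ a1 (by linarith)))
    refine (norm_sub_le _ _).trans ?_
    rw [norm_mul, Complex.norm_real, Real.norm_of_nonneg w0]
    have t3 := mul_le_mul w2 t2 (norm_nonneg _) (by linarith)
    have e1 : 2 * V / L ^ (a + 2) = 2 / L ^ 2 * (V / L ^ a) := by
      rw [pow_add]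
      field_simp
    have e2 : 4 / L ^ 2 + 8 / L ≤ 1 := by
      rw [div_add_div _ _ (by positivity) (by positivity), div_le_one (by positivity)]
      nlinarith
    have e3 : 2 * L * (2 / L ^ 2 * (V / L ^ a) + 2 / L ^ 2 * (V / L ^ a)) = 8 / L * (V / L ^ a) := by
      field_simp
      ring
    have e4 := mul_le_mul_of_nonneg_right e2 a5.le
    rw [e1] at t1 t3
    rw [e3] at t3
    have e5 : (4 / L ^ 2 + 8 / L) * (V / L ^ a) = 2 / L ^ 2 * (V / L ^ a) + 2 / L ^ 2 * (V / L ^ a) +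
        8 / L * (V / L ^ a) := by ring
    linarith
  · have g1 : ∀ g, IsCoprime (Nm g) (Ψ.M : ℤ) → N9 g → Ψ.φ g = 1 := fun g a b => by
      by_contra hc'
      exact hne (Or.inl ⟨g, a, b, hc'⟩)
    have g2 : Ψ.σ = 0 := by
      by_contra hc'
      exact hne (Or.inr (Or.inl hc'))
    have g3 : Ψ.m = 0 := by
      by_contra hc'
      exact hne (Or.inr (Or.inr hc'))
    have e : ∑ n ∈ Ioc ⌊y₁⌋₊ ⌊y₂⌋₊, ∑ x ∈ Dn 0 n, (ff k z (D / E) x : ℂ) * Ψ.val x =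
        ((D - D / E * E : ℝ) : ℂ) := by
      obtain ⟨w, hw⟩ : ∃ w, w = D / E := ⟨_, rfl⟩
      rw [← hw, eD, eE, mul_sum, ← sum_sub_distrib, Complex.ofReal_sum]
      refine sum_congr rfl fun n hn => ?_
      rw [mul_sum, ← sum_sub_distrib, Complex.ofReal_sum]
      refine sum_congr rfl fun x hx => ?_
      unfold ff
      split_ifs with h
      · rw [Chr.val, g1 x (cop_CBal hΨ.1.pos hM h) h.2.2, g2, g3, h3.2.2.2.1, mul_one, mul_one,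
          mul_one]
      · rw [rg n hn x hx h]
        simp
    rw [e, div_mul_cancel₀ D E0.ne', sub_self]
    simpa using a5.le

end Pool.Agent.MP_adc87d_lc.Big

end
end

section

/-! Cancellation of characters over rough elements. -/

set_option autoImplicit false

noncomputable section

open Finset
open scoped Classical

namespace Pool.Agent.MP_adc87d_lc.Big

open Pool.Agent.MP_2a1f0e_nt (ex)

/-- indicator of a proposition -/
def ind_CBr (P : Prop) : ℝ := if P then 1 else 0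

theorem ind_pos_CBr {P : Prop} (h : P) : ind_CBr P = 1 := if_pos h

theorem ind_neg_CBr {P : Prop} (h : ¬P) : ind_CBr P = 0 := if_neg h

theorem ind_nonneg_CBr (P : Prop) : 0 ≤ ind_CBr P := by
  by_cases h : P
  · rw [ind_pos_CBr h]; exact zero_le_one
  · rw [ind_neg_CBr h]

theorem ind_norm_CBr (P : Prop) : ‖(ind_CBr P : ℂ)‖ ≤ 1 := by
  by_cases h : P
  · rw [ind_pos_CBr h]; simp
  · rw [ind_neg_CBr h]; simp

theorem ind_congr_CBr {P Q : Prop} (h : P ↔ Q) : ind_CBr P = ind_CBr Q := by rw [propext h]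

theorem ind_and_CBr (P Q : Prop) : ind_CBr (P ∧ Q) = ind_CBr P * ind_CBr Q := by
  by_cases h : P
  · rw [ind_pos_CBr h, one_mul]; exact ind_congr_CBr (and_iff_right h)
  · rw [ind_neg_CBr h, zero_mul]; exact ind_neg_CBr fun h' => h h'.1

theorem sum_filter_CBr {α : Type} (S : Finset α) (p : α → Prop) {_ : DecidablePred p}
    (G : α → ℝ) : ∑ ω ∈ S.filter p, G ω = ∑ ω ∈ S, ind_CBr (p ω) * G ω := by
  rw [sum_filter]
  refine sum_congr rfl fun ω _ => ?_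
  by_cases h : p ω
  · rw [if_pos h, ind_pos_CBr h, one_mul]
  · rw [if_neg h, ind_neg_CBr h, zero_mul]

theorem sum_filterC_CBr {α : Type} (S : Finset α) (p : α → Prop) {_ : DecidablePred p}
    (G : α → ℂ) : ∑ ω ∈ S.filter p, G ω = ∑ ω ∈ S, (ind_CBr (p ω) : ℂ) * G ω := by
  rw [sum_filter]
  refine sum_congr rfl fun ω _ => ?_
  by_cases h : p ω
  · rw [if_pos h, ind_pos_CBr h, Complex.ofReal_one, one_mul]
  · rw [if_neg h, ind_neg_CBr h, Complex.ofReal_zero, zero_mul]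

/-- elements of the fundamental domain of norm at most x -/
def SS_CBr (x : ℝ) : Finset O := (Icc 1 ⌊x⌋₊).biUnion (Dn 0)

theorem sum_SS_CBr (x : ℝ) (f : O → ℂ) :
    ∑ y ∈ SS_CBr x, f y = ∑ n ∈ Icc 1 ⌊x⌋₊, ∑ y ∈ Dn 0 n, f y := by
  refine sum_biUnion ?_
  intro a _ b _ hab
  refine disjoint_left.2 fun y h1 h2 => hab ?_
  have := (mem_Dn.1 h1).2.symm.trans (mem_Dn.1 h2).2
  exact_mod_cast this

theorem mem_SS_CBr {x : ℝ} (hx : 0 ≤ x) {y : O} (h : y ∈ SS_CBr x) : Dm 0 y ∧ (Nm y : ℝ) ≤ x := by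
  obtain ⟨n, hn, hy⟩ := mem_biUnion.1 h
  obtain ⟨a, b⟩ := mem_Dn.1 hy
  refine ⟨a, ?_⟩
  rw [b, Int.cast_natCast]
  exact (Nat.le_floor_iff hx).1 (mem_Icc.1 hn).2

theorem per_mul_CBr {M d : ℕ} {F G : O → ℂ} (hF : Per M F) (hG : Per d G) :
    Per (M * d) fun x => F x * G x := fun x y h => by
  rw [Nat.cast_mul] at h
  show F x * G x = F y * G y
  rw [hF x y (dvd_of_mul_right_dvd h), hG x y (dvd_of_mul_left_dvd h)]

theorem modEq_CBr {M : ℕ} {x y : O} (h : (M : O) ∣ x - y) : Nm x ≡ Nm y [ZMOD M] :=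
  Nm_modEq (by rwa [Int.cast_natCast])

theorem per_ind_CBr (l : ℕ) : Per l fun x => (ind_CBr ((l : ℤ) ∣ Nm x) : ℂ) := fun x y h => by
  show (ind_CBr ((l : ℤ) ∣ Nm x) : ℂ) = ind_CBr ((l : ℤ) ∣ Nm y)
  rw [ind_congr_CBr (modEq_CBr h).dvd_iff]

theorem meanJ_CBr (h4 : MeanStmt) (ν : ℕ → ℝ) (M : ℕ) (hM : 1 ≤ M) (F : O → ℂ) (hF : Per M F)
    (J : Finset ℕ) (hJ : ∀ l ∈ J, l.Prime ∧ ¬l ∣ M ∧
      mean l (fun y => (ind_CBr ((l : ℤ) ∣ Nm y) : ℂ)) = ν l) :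
    Per (M * ∏ l ∈ J, l) (fun y => F y * ind_CBr (∀ l ∈ J, (l : ℤ) ∣ Nm y)) ∧
    mean (M * ∏ l ∈ J, l) (fun y => F y * ind_CBr (∀ l ∈ J, (l : ℤ) ∣ Nm y)) =
      mean M F * ((∏ l ∈ J, ν l : ℝ) : ℂ) := by
  induction J using Finset.induction_on with
  | empty =>
    have e : (fun y => F y * ind_CBr (∀ l ∈ (∅ : Finset ℕ), (l : ℤ) ∣ Nm y)) = F := by
      funext y
      rw [ind_pos_CBr (by simp)]
      simp
    rw [e]
    simpa using hF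
  | insert p J hp ih =>
    obtain ⟨i1, i2⟩ := ih fun l hl => hJ l (mem_insert_of_mem hl)
    obtain ⟨p1, p2, p3⟩ := hJ p (mem_insert_self p J)
    have e : (fun y => F y * ind_CBr (∀ l ∈ insert p J, (l : ℤ) ∣ Nm y)) =
        fun y => (F y * ind_CBr (∀ l ∈ J, (l : ℤ) ∣ Nm y)) * ind_CBr ((p : ℤ) ∣ Nm y) := by
      funext y
      rw [ind_congr_CBr (forall_mem_insert p J fun l => (l : ℤ) ∣ Nm y), ind_and_CBr]
      push_cast
      ring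
    have e2 : M * ∏ l ∈ insert p J, l = (M * ∏ l ∈ J, l) * p := by
      rw [prod_insert hp]; ring
    have pos : 1 ≤ M * ∏ l ∈ J, l :=
      Nat.mul_pos hM (prod_pos fun l hl => (hJ l (mem_insert_of_mem hl)).1.pos)
    have cop : (M * ∏ l ∈ J, l).Coprime p := by
      refine Nat.Coprime.symm ((Nat.Prime.coprime_iff_not_dvd p1).2 fun h => ?_)
      rcases (Nat.Prime.dvd_mul p1).1 h with h | h
      · exact p2 h
      · obtain ⟨l, hl, hd⟩ := (Prime.dvd_finsetProd_iff p1.prime _).1 h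
        rw [(Nat.prime_dvd_prime_iff_eq p1 (hJ l (mem_insert_of_mem hl)).1).1 hd] at hp
        exact hp hl
    rw [e, e2]
    refine ⟨per_mul_CBr i1 (per_ind_CBr p), ?_⟩
    rw [h4.2.1 _ p _ _ pos p1.pos cop i1 (per_ind_CBr p), i2, p3, prod_insert hp]
    push_cast
    ring

theorem psJ_CBr {κ C : ℝ} (hP : PSP κ C) (h4 : MeanStmt) (ν : ℕ → ℝ) (M : ℕ) (hM : 1 ≤ M)
    (F : O → ℂ) (σ : ℝ) (m : ℤ) (x : ℝ) (hx : 1 ≤ x) (hF : Per M F) (hb : ∀ y, ‖F y‖ ≤ 1)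
    (ht : ∀ y, F (tO * y) * ar σ m tO = F y) (J : Finset ℕ)
    (hJ : ∀ l ∈ J, l.Prime ∧ ¬l ∣ M ∧ mean l (fun y => (ind_CBr ((l : ℤ) ∣ Nm y) : ℂ)) = ν l) :
    ‖∑ y ∈ SS_CBr x, (ind_CBr (∀ l ∈ J, (l : ℤ) ∣ Nm y) : ℂ) * (F y * ar σ m y) -
      (if σ = 0 ∧ m = 0 then κ * (mean M F * ((∏ l ∈ J, ν l : ℝ) : ℂ)) * x else 0)‖ ≤
      (∏ l ∈ J, (l : ℝ)) * (C * (M * (1 + |σ| + |(m : ℝ)|)) * x ^ (5 / 6 : ℝ)) := by
  obtain ⟨i1, i2⟩ := meanJ_CBr h4 ν M hM F hF J hJ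
  have pos : 1 ≤ M * ∏ l ∈ J, l := Nat.mul_pos hM (prod_pos fun l hl => (hJ l hl).1.pos)
  have := hP _ _ σ m x pos i1 (fun y => by
    rw [norm_mul]
    exact mul_le_one₀ (hb y) (norm_nonneg _) (ind_norm_CBr _)) (fun y => by
    rw [Nm_mul, Nm_tO, one_mul, mul_right_comm, ht]) hx
  rw [i2, ← sum_SS_CBr x fun y => F y * ind_CBr (∀ l ∈ J, (l : ℤ) ∣ Nm y) * ar σ m y] at this
  have e : ∑ y ∈ SS_CBr x, (ind_CBr (∀ l ∈ J, (l : ℤ) ∣ Nm y) : ℂ) * (F y * ar σ m y) =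
      ∑ y ∈ SS_CBr x, F y * ind_CBr (∀ l ∈ J, (l : ℤ) ∣ Nm y) * ar σ m y :=
    sum_congr rfl fun y _ => by ring
  rw [e]
  refine this.trans (le_of_eq ?_)
  push_cast
  ring

/-- admissible classes -/
def Ad_CBr (M : ℕ) (y : O) : Prop := IsCoprime (Nm y) M ∧ N9 y

theorem ad_per_CBr {M : ℕ} (h9 : 9 ∣ M) {x y : O} (h : (M : O) ∣ x - y) :
    Ad_CBr M x ↔ Ad_CBr M y := by
  have a := modEq_CBr h
  have b : Nm x % 9 = Nm y % 9 := a.of_dvd (by exact_mod_cast h9)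
  obtain ⟨k, hk⟩ := a.dvd
  have c : Nm y = Nm x + M * k := by linarith
  unfold Ad_CBr N9
  rw [b, c, IsCoprime.add_mul_left_left_iff]

theorem ad_mul_CBr {M : ℕ} {g : O} (hg : Ad_CBr M g) (x : O) : Ad_CBr M (g * x) ↔ Ad_CBr M x := by
  obtain ⟨a, b⟩ := hg
  unfold Ad_CBr N9 at *
  rw [Nm_mul, IsCoprime.mul_left_iff, and_iff_right a, Int.mul_emod]
  refine and_congr_right fun _ => ?_
  rcases b with b | b <;> rw [b] <;> omega

theorem mean_zero_CBr (h4 : MeanStmt) {M : ℕ} {φ : O → ℂ} (hφ : IsFin M φ) (h9 : 9 ∣ M) {g : O}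
    (hg : Ad_CBr M g) (h1 : φ g ≠ 1) : mean M (fun y => φ y * ind_CBr (Ad_CBr M y)) = 0 := by
  have a := h4.1 M (fun y => φ y * ind_CBr (Ad_CBr M y)) g hφ.pos (fun x y h => by
    show φ x * _ = φ y * _
    rw [hφ.per x y h, ind_congr_CBr (ad_per_CBr h9 h)]) hg.1
  have b : mean M (fun y => φ (g * y) * ind_CBr (Ad_CBr M (g * y))) =
      φ g * mean M (fun y => φ y * ind_CBr (Ad_CBr M y)) := by
    unfold mean
    rw [← mul_div_assoc, mul_sum]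
    congr 1
    refine sum_congr rfl fun v _ => ?_
    beta_reduce
    rw [hφ.mul, ind_congr_CBr (ad_mul_CBr hg _), mul_assoc]
  have c : (φ g - 1) * mean M (fun y => φ y * ind_CBr (Ad_CBr M y)) = 0 := by
    rw [sub_mul, ← b, one_mul]
    exact sub_eq_zero.2 a
  exact (mul_eq_zero.1 c).resolve_left (sub_ne_zero.2 h1)

theorem cnt_CBr {c x z : ℝ} (hc : ∀ y : ℝ, 0 ≤ y → ((Rg 1 0 y).card : ℝ) ≤ c * y) (c0 : 0 ≤ c)
    (hz : 0 < z) (hx : 0 ≤ x) (N : Finset O)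
    (hN : ∀ y ∈ N, y ∈ SS_CBr x ∧ ∃ l : ℕ, z < l ∧ (l : O) ∣ y) :
    (N.card : ℝ) ≤ 2 * c * x / z := by
  have sub : N ⊆ (Ioo ⌊z⌋₊ (⌊x⌋₊ + 1)).biUnion fun l : ℕ =>
      (Rg 1 0 (x / (l : ℝ) ^ 3)).image fun y => (l : O) * y := by
    intro y hy
    obtain ⟨h1, l, hl, w, rfl⟩ := hN y hy
    obtain ⟨⟨d1, d2, d3⟩, d4⟩ := mem_SS_CBr hx h1
    have l0 : (0 : ℝ) < l := hz.trans hl
    have l1 : 0 < l := by exact_mod_cast l0
    have l2 : (1 : ℝ) ≤ l := by exact_mod_cast l1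
    have w0 : 0 < xr w := by
      rw [map_mul, map_natCast] at d1
      exact (mul_pos_iff_of_pos_left l0).1 d1
    have lO : (l : O) ≠ 0 := ne_of_xr_pos (by rw [map_natCast]; exact l0)
    rw [eta_mul lO (ne_of_xr_pos w0), eta_nat l1.ne', zero_add] at d2 d3
    have n1 : (1 : ℝ) ≤ Nm w := by exact_mod_cast Nm_pos w0
    rw [Nm_mul, Nm_nat] at d4
    push_cast at d4
    have l3 : (l : ℝ) ≤ (l : ℝ) ^ 3 := le_self_pow₀ l2 (by norm_num)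
    have l4 : (l : ℝ) ^ 3 ≤ (l : ℝ) ^ 3 * Nm w := le_mul_of_one_le_right (by positivity) n1
    refine mem_biUnion.2 ⟨l, mem_Ioo.2 ⟨(Nat.floor_lt hz.le).2 hl,
      Nat.lt_succ_of_le (Nat.le_floor (by linarith))⟩, mem_image.2 ⟨w, mem_Rg.2
        ⟨w0, abs_le.2 ⟨by linarith, by linarith⟩, by linarith, ?_⟩, rfl⟩⟩
    rw [le_div_iff₀ (by positivity)]
    linarith
  have a : (N.card : ℝ) ≤ ∑ l ∈ Ioo ⌊z⌋₊ (⌊x⌋₊ + 1), c * x * ((l : ℝ) ^ 2)⁻¹ := by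
    have := (card_le_card sub).trans card_biUnion_le
    refine (Nat.cast_le.2 this).trans ?_
    rw [Nat.cast_sum]
    refine sum_le_sum fun l hl => ?_
    have l1 : 0 < l := Nat.zero_lt_of_lt (mem_Ioo.1 hl).1
    have l2 : (1 : ℝ) ≤ l := by exact_mod_cast l1
    refine (Nat.cast_le.2 card_image_le).trans ((hc _ (by positivity)).trans ?_)
    rw [mul_assoc, ← div_eq_mul_inv]
    gcongr
    norm_num
  rw [← mul_sum] at a
  have b := sum_Ioo_inv_sq_le (α := ℝ) ⌊z⌋₊ (⌊x⌋₊ + 1)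
  have d : 2 / ((⌊z⌋₊ : ℝ) + 1) ≤ 2 / z := by
    gcongr
    exact (Nat.lt_floor_add_one z).le
  calc (N.card : ℝ) ≤ c * x * (2 / z) :=
        a.trans (mul_le_mul_of_nonneg_left (b.trans d) (by positivity))
    _ = 2 * c * x / z := by ring

theorem rem_CBr {κ C : ℝ} (hC : 1 ≤ C) (hP : PSP κ C) (h2 : ChStmt) (h4 : MeanStmt) (ν : ℕ → ℝ)
    (Ψ : Chr) (hI : Ψ.Is) (h9 : 9 ∣ Ψ.M) (hN : Ψ.NE) (x a : ℝ) (hx : 1 ≤ x)
    (ha : mean Ψ.M (fun y => (ind_CBr (Ad_CBr Ψ.M y) : ℂ)) = a) (u : ℂ) (hu : ‖u‖ ≤ 1)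
    (J : Finset ℕ)
    (hJ : ∀ l ∈ J, l.Prime ∧ ¬l ∣ Ψ.M ∧ mean l (fun y => (ind_CBr ((l : ℤ) ∣ Nm y) : ℂ)) = ν l) :
    |∑ y ∈ SS_CBr x, ind_CBr (∀ l ∈ J, (l : ℤ) ∣ Nm y) *
      (ind_CBr (Ad_CBr Ψ.M y) * (1 + (u * Ψ.val y).re)) - κ * a * x * ∏ l ∈ J, ν l| ≤
      (∏ l ∈ J, (l : ℝ)) ^ 2 * (2 * C * Ψ.cond * x ^ (5 / 6 : ℝ)) := by
  have hM := hI.1.pos
  have tAd : ∀ y, Ad_CBr Ψ.M (tO * y) ↔ Ad_CBr Ψ.M y := fun y => by
    unfold Ad_CBr N9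
    rw [Nm_mul, Nm_tO, one_mul]
  have nφ : ∀ y, ‖Ψ.φ y‖ ≤ 1 := fun y => by
    by_cases h : IsCoprime (Nm y) Ψ.M
    · exact (hI.1.unit y h).le
    · rw [hI.1.zero y h]; simp
  have X1 := psJ_CBr hP h4 ν Ψ.M hM (fun y => (ind_CBr (Ad_CBr Ψ.M y) : ℂ)) 0 0 x hx
    (fun x y h => by
      show (ind_CBr (Ad_CBr Ψ.M x) : ℂ) = ind_CBr (Ad_CBr Ψ.M y)
      rw [ind_congr_CBr (ad_per_CBr h9 h)]) (fun y => ind_norm_CBr _)
    (fun y => by rw [h2.2.2.2.1, mul_one, ind_congr_CBr (tAd y)]) J hJ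
  have X2 := psJ_CBr hP h4 ν Ψ.M hM (fun y => Ψ.φ y * ind_CBr (Ad_CBr Ψ.M y)) Ψ.σ Ψ.m x hx
    (fun x y h => by
      show Ψ.φ x * _ = Ψ.φ y * _
      rw [hI.1.per x y h, ind_congr_CBr (ad_per_CBr h9 h)])
    (fun y => by
      rw [norm_mul]
      exact mul_le_one₀ (nφ y) (norm_nonneg _) (ind_norm_CBr _))
    (fun y => by
      rw [hI.1.mul, ind_congr_CBr (tAd y)]
      linear_combination (Ψ.φ y * ind_CBr (Ad_CBr Ψ.M y)) * hI.2) J hJ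
  have z2 : (if Ψ.σ = 0 ∧ Ψ.m = 0 then κ * (mean Ψ.M (fun y => Ψ.φ y * ind_CBr (Ad_CBr Ψ.M y)) *
      ((∏ l ∈ J, ν l : ℝ) : ℂ)) * x else 0 : ℂ) = 0 := by
    split_ifs with h
    · rcases hN with ⟨g, g1, g2, g3⟩ | h' | h'
      · rw [mean_zero_CBr h4 hI.1 h9 ⟨g1, g2⟩ g3]; simp
      · exact absurd h.1 h'
      · exact absurd h.2 h'
    · rfl
  rw [z2, sub_zero] at X2
  rw [if_pos ⟨rfl, rfl⟩, ha] at X1
  simp only [h2.2.2.2.1, mul_one, abs_zero, Int.cast_zero, add_zero] at X1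
  have e1 : ∑ y ∈ SS_CBr x, (ind_CBr (∀ l ∈ J, (l : ℤ) ∣ Nm y) : ℂ) * ind_CBr (Ad_CBr Ψ.M y) -
      κ * (a * ((∏ l ∈ J, ν l : ℝ) : ℂ)) * x = ((∑ y ∈ SS_CBr x,
        ind_CBr (∀ l ∈ J, (l : ℤ) ∣ Nm y) * ind_CBr (Ad_CBr Ψ.M y) -
          κ * a * x * ∏ l ∈ J, ν l : ℝ) : ℂ) := by
    push_cast
    ring
  rw [e1, Complex.norm_real, Real.norm_eq_abs] at X1
  have e2 : (u * ∑ y ∈ SS_CBr x, (ind_CBr (∀ l ∈ J, (l : ℤ) ∣ Nm y) : ℂ) *
      (Ψ.φ y * ind_CBr (Ad_CBr Ψ.M y) * ar Ψ.σ Ψ.m y)).re = ∑ y ∈ SS_CBr x,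
        ind_CBr (∀ l ∈ J, (l : ℤ) ∣ Nm y) * ind_CBr (Ad_CBr Ψ.M y) * (u * Ψ.val y).re := by
    rw [mul_sum, Complex.re_sum]
    refine sum_congr rfl fun y _ => ?_
    rw [← Complex.re_ofReal_mul, Chr.val]
    congr 1
    push_cast
    ring
  have X3 := (Complex.abs_re_le_norm _).trans ((norm_mul_le u _).trans
    (mul_le_mul hu X2 (norm_nonneg _) zero_le_one))
  rw [e2, one_mul] at X3
  have e3 : ∑ y ∈ SS_CBr x, ind_CBr (∀ l ∈ J, (l : ℤ) ∣ Nm y) *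
      (ind_CBr (Ad_CBr Ψ.M y) * (1 + (u * Ψ.val y).re)) - κ * a * x * ∏ l ∈ J, ν l =
      (∑ y ∈ SS_CBr x, ind_CBr (∀ l ∈ J, (l : ℤ) ∣ Nm y) * ind_CBr (Ad_CBr Ψ.M y) -
        κ * a * x * ∏ l ∈ J, ν l) + ∑ y ∈ SS_CBr x,
        ind_CBr (∀ l ∈ J, (l : ℤ) ∣ Nm y) * ind_CBr (Ad_CBr Ψ.M y) * (u * Ψ.val y).re := by
    rw [sub_add_eq_add_sub, ← sum_add_distrib]
    congr 1
    exact sum_congr rfl fun y _ => by ring
  rw [e3]
  refine (abs_add_le _ _).trans ((add_le_add X1 X3).trans ?_)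
  have d1 : (1 : ℝ) ≤ ∏ l ∈ J, (l : ℝ) := by
    rw [← Nat.cast_prod]
    exact Nat.one_le_cast.2 (prod_pos fun l hl => (hJ l hl).1.pos)
  have m0 : (0 : ℝ) ≤ Ψ.M := Nat.cast_nonneg _
  have m1 : (Ψ.M : ℝ) ≤ Ψ.M * (1 + |Ψ.σ| + |(Ψ.m : ℝ)|) :=
    le_mul_of_one_le_right m0 (by linarith [abs_nonneg Ψ.σ, abs_nonneg (Ψ.m : ℝ)])
  unfold Chr.cond
  have p0 : 0 ≤ x ^ (5 / 6 : ℝ) := by positivity
  generalize (Ψ.M : ℝ) * (1 + |Ψ.σ| + |(Ψ.m : ℝ)|) = Q at *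
  generalize ∏ l ∈ J, (l : ℝ) = d at *
  generalize x ^ (5 / 6 : ℝ) = w at *
  have q0 : 0 ≤ Q := m0.trans m1
  have c0 : 0 ≤ C := by linarith
  have b1 : d * (C * Ψ.M * w) ≤ d * (C * Q * w) := by gcongr
  have b2 : d * (C * Q * w) ≤ d ^ 2 * (C * Q * w) :=
    mul_le_mul_of_nonneg_right (le_self_pow₀ d1 two_ne_zero) (by positivity)
  linarith

theorem large_CBr (C : ℝ) (B : ℕ) {L : ℝ} (h0 : 0 < L)
    (h : 2 * C * (12 ^ (B + 1) * ((B + 1).factorial : ℝ)) ≤ L) :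
    2 * C * L ^ B ≤ Real.exp (L / 12) := by
  refine le_trans ?_ (Real.pow_div_factorial_le_exp (L / 12) (by positivity) (B + 1))
  rw [div_pow, div_div, le_div_iff₀ (by positivity), pow_succ L]
  calc 2 * C * L ^ B * (12 ^ (B + 1) * ((B + 1).factorial : ℝ))
      = L ^ B * (2 * C * (12 ^ (B + 1) * ((B + 1).factorial : ℝ))) := by ring
    _ ≤ L ^ B * L := by gcongr

theorem cbr (h1 : SzStmt) (h2 : ChStmt) (h3 : PSStmt) (h4 : MeanStmt) (h5 : SvStmt) : BrStmt := by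
  intro E B
  obtain ⟨κ, C, hκ, hC, hP⟩ := h3
  obtain ⟨c, hc, -, -, hcnt⟩ := h1 1
  obtain ⟨L₀, hS⟩ := h5 (E + 1) B (1 / 12) (by norm_num)
  have hν : ∀ l : ℕ, ∃ ν : ℝ, l.Prime → l ≠ 3 → 0 ≤ ν ∧ ν ≤ 3 / l ∧ ν ≤ 3 / 5 ∧
      mean l (fun y => (ind_CBr ((l : ℤ) ∣ Nm y) : ℂ)) = ν := fun l => by
    by_cases h : l.Prime ∧ l ≠ 3
    · obtain ⟨ν, a1, a2, a3, a4⟩ := h4.2.2.2 l h.1 h.2
      refine ⟨ν, fun _ _ => ⟨a1, a2, a3, ?_⟩⟩
      rw [← a4]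
      congr 1
      funext y
      by_cases h' : (l : ℤ) ∣ Nm y
      · rw [ind_pos_CBr h', if_pos h', Complex.ofReal_one]
      · rw [ind_neg_CBr h', if_neg h', Complex.ofReal_zero]
    · exact ⟨0, fun a b => absurd ⟨a, b⟩ h⟩
  choose ν hν using hν
  obtain ⟨L₁, k0, k1, k2, k3, k4⟩ : ∃ L₁ : ℝ, L₀ ≤ L₁ ∧ 1 ≤ L₁ ∧ 4 * (κ + 1) ≤ L₁ ∧ 4 * c ≤ L₁ ∧
      2 * C * (12 ^ (B + 1) * ((B + 1).factorial : ℝ)) ≤ L₁ := by
    have : 0 ≤ 2 * C * (12 ^ (B + 1) * ((B + 1).factorial : ℝ)) := by positivity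
    refine ⟨|L₀| + 4 * (κ + 1) + 4 * c + 2 * C * (12 ^ (B + 1) * ((B + 1).factorial : ℝ)),
      ?_, ?_, ?_, ?_, ?_⟩ <;> linarith [le_abs_self L₀, abs_nonneg L₀]
  refine ⟨Real.exp L₁, fun x hx Ψ z hI h9 hN hMz hQ hz1 hz2 => ?_⟩
  have x0 : 0 < x := (Real.exp_pos _).trans_le hx
  have hL : L₁ ≤ Real.log x := (Real.le_log_iff_exp_le x0).2 hx
  have x1 : 1 ≤ x := (Real.one_le_exp (by linarith)).trans hx
  have ex1 : x = Real.exp (Real.log x) := (Real.exp_log x0).symm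
  have ex2 : x ^ (5 / 6 : ℝ) = Real.exp (Real.log x * (5 / 6)) := Real.rpow_def_of_pos x0 _
  generalize Real.log x = L at *
  have L0 : 0 < L := by linarith
  have z0 : 0 < z := lt_of_lt_of_le (by positivity) hz1
  have hM := hI.1.pos
  obtain ⟨a, ha, a0⟩ : ∃ a : ℝ, mean Ψ.M (fun y => (ind_CBr (Ad_CBr Ψ.M y) : ℂ)) = a ∧ 0 ≤ a := by
    refine ⟨(∑ v ∈ Cu Ψ.M, ind_CBr (Ad_CBr Ψ.M (vec.symm v))) / (Ψ.M : ℝ) ^ 3, ?_,
      div_nonneg (sum_nonneg fun v _ => ind_nonneg_CBr _) (by positivity)⟩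
    unfold mean
    push_cast
    rfl
  have a1 : a ≤ 1 := by
    have := h4.2.2.1 Ψ.M (fun y => (ind_CBr (Ad_CBr Ψ.M y) : ℂ)) hM fun y => ind_norm_CBr _
    rw [ha, Complex.norm_real, Real.norm_eq_abs] at this
    exact (le_abs_self a).trans this
  obtain ⟨I, mI⟩ : ∃ I : Finset ℕ, ∀ l, l ∈ I ↔ l.Prime ∧ (l : ℝ) ≤ z ∧ ¬l ∣ Ψ.M := by
    refine ⟨(range (⌊z⌋₊ + 1)).filter fun l => l.Prime ∧ ¬l ∣ Ψ.M, fun l => ?_⟩
    rw [mem_filter, mem_range, Nat.lt_succ_iff, Nat.le_floor_iff z0.le]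
    tauto
  have n3 : ∀ l ∈ I, l ≠ 3 := fun l hl e => by
    refine ((mI l).1 hl).2.2 ?_
    rw [e]
    exact (by norm_num : 3 ∣ 9).trans h9
  have nv := (h2.2.2.2.2.2.1 Ψ hI).2.1
  have Q1 := (h2.2.2.2.2.2.1 Ψ hI).2.2.2.2
  have hR : 2 * C * Ψ.cond * x ^ (5 / 6 : ℝ) ≤ (κ + 1) * x * Real.exp (-(1 / 12) * L) := by
    have b1 := large_CBr C B L0 (k4.trans hL)
    have b2 : 2 * C * Ψ.cond ≤ Real.exp (L / 12) :=
      (mul_le_mul_of_nonneg_left hQ (by linarith)).trans b1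
    have b3 : Real.exp (L / 12) * Real.exp (L * (5 / 6)) = x * Real.exp (-(1 / 12) * L) := by
      rw [ex1, ← Real.exp_add, ← Real.exp_add]
      congr 1
      ring
    rw [ex2]
    have b4 := mul_le_mul_of_nonneg_right b2 (Real.exp_pos (L * (5 / 6))).le
    have b5 : 0 ≤ κ * x * Real.exp (-(1 / 12) * L) := by positivity
    linarith
  have sv : ∀ u : ℂ, ‖u‖ ≤ 1 → |∑ y ∈ SS_CBr x, ind_CBr (∀ l ∈ I, ¬(l : ℤ) ∣ Nm y) *
      (ind_CBr (Ad_CBr Ψ.M y) * (1 + (u * Ψ.val y).re)) - κ * a * x * ∏ l ∈ I, (1 - ν l)| ≤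
      (κ + 1) * x / L ^ (E + 1) := fun u hu => by
    have := (hS L (k0.trans hL) O (SS_CBr x)
      (fun y => ind_CBr (Ad_CBr Ψ.M y) * (1 + (u * Ψ.val y).re)) I (fun l y => (l : ℤ) ∣ Nm y) ν
      (κ * a * x) (2 * C * Ψ.cond * x ^ (5 / 6 : ℝ)) ((κ + 1) * x) (fun y _ => by
        refine mul_nonneg (ind_nonneg_CBr _) ?_
        have b1 := (Complex.abs_re_le_norm (u * Ψ.val y)).trans ((norm_mul_le _ _).trans
          (mul_le_one₀ hu (norm_nonneg _) (nv y)))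
        linarith [neg_abs_le (u * Ψ.val y).re])
      (fun l hl => by
        obtain ⟨p1, p2, -⟩ := (mI l).1 hl
        obtain ⟨b1, b2, b3, -⟩ := hν l p1 (n3 l hl)
        exact ⟨p1, p2.trans hz2, b1, b2, b3⟩)
      (by positivity) (by nlinarith [mul_le_mul_of_nonneg_left a1 (mul_pos hκ x0).le])
      (by positivity) hR (fun J hJ => by
        rw [sum_filter_CBr]
        exact rem_CBr hC hP h2 h4 ν Ψ hI h9 hN x a x1 ha u hu J fun l hl =>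
          ⟨((mI l).1 (hJ hl)).1, ((mI l).1 (hJ hl)).2.2,
            (hν l ((mI l).1 (hJ hl)).1 (n3 l (hJ hl))).2.2.2⟩)).1
    rwa [sum_filter_CBr] at this
  obtain ⟨W, hW⟩ : ∃ W : ℂ, W = ∑ y ∈ SS_CBr x,
    (ind_CBr ((∀ l ∈ I, ¬(l : ℤ) ∣ Nm y) ∧ Ad_CBr Ψ.M y) : ℂ) * Ψ.val y := ⟨_, rfl⟩
  have bW : ‖W‖ ≤ 2 * ((κ + 1) * x / L ^ (E + 1)) := by
    obtain ⟨u, hu, e⟩ := Complex.exists_norm_eq_mul_self W
    have b1 := sv u hu.le
    have b0 := sv 0 (by simp)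
    have e1 : ‖W‖ = ∑ y ∈ SS_CBr x, ind_CBr (∀ l ∈ I, ¬(l : ℤ) ∣ Nm y) *
        (ind_CBr (Ad_CBr Ψ.M y) * (1 + (u * Ψ.val y).re)) - ∑ y ∈ SS_CBr x,
        ind_CBr (∀ l ∈ I, ¬(l : ℤ) ∣ Nm y) * (ind_CBr (Ad_CBr Ψ.M y) * (1 + (0 * Ψ.val y).re)) := by
      rw [← Complex.ofReal_re ‖W‖, e, hW, mul_sum, Complex.re_sum, ← sum_sub_distrib]
      refine sum_congr rfl fun y _ => ?_
      rw [mul_left_comm, Complex.re_ofReal_mul, ind_and_CBr, zero_mul, Complex.zero_re]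
      ring
    rw [abs_le] at b1 b0
    linarith [b1.2, b0.1]
  have pt : ∀ y : O, ‖(ind_CBr ((∀ l ∈ I, ¬(l : ℤ) ∣ Nm y) ∧ Ad_CBr Ψ.M y) : ℂ) * Ψ.val y -
      (ind_CBr (Rough z y) : ℂ) * Ψ.val y‖ ≤ ind_CBr (∃ l : ℕ, z < l ∧ (l : O) ∣ y) * 1 := by
    intro y
    rw [mul_one]
    by_cases hr : Rough z y
    · have cp : IsCoprime (Nm y) Ψ.M := by
        rw [Int.isCoprime_iff_nat_coprime, Int.natAbs_natCast]
        refine Nat.coprime_of_dvd fun l hl d1 d2 => hr.1 l hl ?_ (Int.natCast_dvd.2 d1)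
        exact (Nat.cast_le.2 (Nat.le_of_dvd hM d2)).trans hMz
      rw [ind_pos_CBr hr, ind_pos_CBr ⟨fun l hl => hr.1 l ((mI l).1 hl).1 ((mI l).1 hl).2.1,
        cp, hr.2.2⟩, sub_self, norm_zero]
      exact ind_nonneg_CBr _
    · rw [ind_neg_CBr hr, Complex.ofReal_zero, zero_mul, sub_zero]
      by_cases hp : (∀ l ∈ I, ¬(l : ℤ) ∣ Nm y) ∧ Ad_CBr Ψ.M y
      · have r1 : ∀ l : ℕ, l.Prime → (l : ℝ) ≤ z → ¬(l : ℤ) ∣ Nm y := fun l hl hz hd => by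
          by_cases hm : l ∣ Ψ.M
          · have := hp.2.1.isUnit_of_dvd' hd (Int.natCast_dvd_natCast.2 hm)
            exact (Nat.prime_iff_prime_int.1 hl).not_isUnit this
          · exact hp.1 l ((mI l).2 ⟨hl, hz, hm⟩) hd
        have r2 : ¬Prim (vec y) := fun h => hr ⟨r1, h, hp.2.2⟩
        unfold Prim at r2
        push Not at r2
        obtain ⟨l, hl, hd⟩ := r2
        have d : (l : O) ∣ y := (O.natCast_dvd l y).2 ⟨hd 0, hd 1, hd 2⟩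
        have zl : z < l := by
          refine lt_of_not_ge fun h => r1 l hl h ?_
          obtain ⟨w, rfl⟩ := d
          rw [Nm_mul, Nm_nat]
          exact (dvd_pow_self _ three_ne_zero).mul_right _
        rw [ind_pos_CBr hp, ind_pos_CBr ⟨l, zl, d⟩, Complex.ofReal_one, one_mul]
        exact nv y
      · rw [ind_neg_CBr hp, Complex.ofReal_zero, zero_mul, norm_zero]
        exact ind_nonneg_CBr _
  have e : ∑ n ∈ Icc 1 ⌊x⌋₊, ∑ y ∈ (Dn 0 n).filter (Rough z), Ψ.val y =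
      ∑ y ∈ SS_CBr x, (ind_CBr (Rough z y) : ℂ) * Ψ.val y := by
    rw [sum_SS_CBr]
    exact sum_congr rfl fun n _ => sum_filterC_CBr _ _ _
  have bN := cnt_CBr (fun y hy => hcnt 0 y hy) (by linarith) z0 x0.le
    ((SS_CBr x).filter fun y => ∃ l : ℕ, z < l ∧ (l : O) ∣ y) fun y hy => mem_filter.1 hy
  have bD : ‖W - ∑ y ∈ SS_CBr x, (ind_CBr (Rough z y) : ℂ) * Ψ.val y‖ ≤ 2 * c * x / z := by
    rw [hW, ← sum_sub_distrib]
    refine (norm_sum_le _ _).trans ((sum_le_sum fun y _ => pt y).trans (le_trans (le_of_eq ?_) bN))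
    rw [card_eq_sum_ones, Nat.cast_sum, sum_filter_CBr, Nat.cast_one]
  rw [e]
  have f1 : 2 * ((κ + 1) * x / L ^ (E + 1)) ≤ x / L ^ E / 2 := by
    rw [← mul_div_assoc, div_div, div_le_div_iff₀ (by positivity) (by positivity), pow_succ]
    have : x * L ^ E * (4 * (κ + 1)) ≤ x * L ^ E * L :=
      mul_le_mul_of_nonneg_left (k2.trans hL) (by positivity)
    linarith
  have f2 : 2 * c * x / z ≤ x / L ^ E / 2 := by
    rw [div_div, div_le_div_iff₀ z0 (by positivity)]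
    have g1 : x * L ^ E * (4 * c) ≤ x * L ^ E * L :=
      mul_le_mul_of_nonneg_left (k3.trans hL) (by positivity)
    have g2 : x * L ^ (E + 1) ≤ x * z := mul_le_mul_of_nonneg_left hz1 x0.le
    rw [pow_succ] at g2
    linarith
  have f3 := norm_sub_le W (W - ∑ y ∈ SS_CBr x, (ind_CBr (Rough z y) : ℂ) * Ψ.val y)
  rw [sub_sub_cancel] at f3
  linarith

end Pool.Agent.MP_adc87d_lc.Big

end
end

section

set_option autoImplicit false

noncomputable section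

open Finset
open scoped Classical

namespace Pool.Agent.MP_adc87d_lc.Big

open Pool.Agent.MP_2a1f0e_nt (ex)

/-- the bilinear inequality -/
def Dl_CV2 {α β : Type} (I : Finset α) (J : Finset β) (K : α → β → ℂ) (Δ : ℝ) : Prop :=
  ∀ g : α → ℂ, ∑ r ∈ J, ‖∑ x ∈ I, g x * K x r‖ ^ 2 ≤ Δ * ∑ x ∈ I, ‖g x‖ ^ 2

theorem dual_CV2 {α β : Type} {I : Finset α} {J : Finset β} {K : α → β → ℂ} {Δ : ℝ}
    (hΔ : 0 ≤ Δ) (h : Dl_CV2 J I (fun r x => K x r) Δ) : Dl_CV2 I J K Δ := by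
  intro g
  set S : β → ℂ := fun r => ∑ x ∈ I, g x * K x r with hS
  set A : ℝ := ∑ r ∈ J, ‖S r‖ ^ 2 with hA
  set G : ℝ := ∑ x ∈ I, ‖g x‖ ^ 2 with hG
  have hA0 : 0 ≤ A := by positivity
  have hG0 : 0 ≤ G := by positivity
  set T : α → ℂ := fun x => ∑ r ∈ J, (starRingEnd ℂ) (S r) * K x r with hT
  have h1 : ∑ x ∈ I, ‖T x‖ ^ 2 ≤ Δ * A := by
    have := h fun r => (starRingEnd ℂ) (S r)
    simpa only [RCLike.norm_conj] using this
  have hid : (A : ℂ) = ∑ x ∈ I, g x * T x := by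
    simp only [hT, mul_sum]
    rw [sum_comm, hA, Complex.ofReal_sum]
    refine sum_congr rfl fun r _ => ?_
    rw [← Complex.normSq_eq_norm_sq, ← Complex.mul_conj]
    nth_rewrite 1 [hS]
    simp only [sum_mul]
    exact sum_congr rfl fun x _ => by ring
  have h2 : A ≤ ∑ x ∈ I, ‖g x‖ * ‖T x‖ := by
    have e : A = ‖(A : ℂ)‖ := by rw [Complex.norm_real, Real.norm_of_nonneg hA0]
    rw [e, hid]
    exact (norm_sum_le _ _).trans (le_of_eq (sum_congr rfl fun x _ => norm_mul _ _))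
  have h3 := sum_mul_sq_le_sq_mul_sq I (fun x => ‖g x‖) (fun x => ‖T x‖)
  have h4 : A ^ 2 ≤ G * (Δ * A) :=
    (pow_le_pow_left₀ hA0 h2 2).trans (h3.trans (mul_le_mul_of_nonneg_left h1 hG0))
  rcases hA0.eq_or_lt with h0 | h0
  · rw [← h0]; positivity
  · have h5 : A * A ≤ (Δ * G) * A := by nlinarith
    exact le_of_mul_le_mul_right h5 h0

theorem tensor_CV2 {α β α' β' : Type} {I : Finset α} {J : Finset β} {K : α → β → ℂ} {Δ : ℝ}
    {I' : Finset α'} {J' : Finset β'} {K' : α' → β' → ℂ} {Δ' : ℝ} (hΔ : 0 ≤ Δ)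
    (h : Dl_CV2 I J K Δ) (h' : Dl_CV2 I' J' K' Δ') :
    Dl_CV2 (I ×ˢ I') (J ×ˢ J') (fun x r => K x.1 r.1 * K' x.2 r.2) (Δ * Δ') := by
  intro g
  rw [sum_product_right, sum_product]
  have h1 : ∀ r' ∈ J', ∑ r ∈ J, ‖∑ x ∈ I ×ˢ I', g x * (K x.1 r * K' x.2 r')‖ ^ 2 ≤
      Δ * ∑ x ∈ I, ‖∑ x' ∈ I', g (x, x') * K' x' r'‖ ^ 2 := by
    intro r' _
    refine le_trans (le_of_eq ?_) (h fun x => ∑ x' ∈ I', g (x, x') * K' x' r')
    refine sum_congr rfl fun r _ => ?_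
    rw [sum_product]
    congr 2
    refine sum_congr rfl fun x _ => ?_
    rw [sum_mul]
    exact sum_congr rfl fun x' _ => by ring
  refine (sum_le_sum h1).trans ?_
  rw [← mul_sum, sum_comm, mul_assoc]
  refine mul_le_mul_of_nonneg_left ?_ hΔ
  rw [mul_sum]
  exact sum_le_sum fun x _ => h' fun x' => g (x, x')

theorem line_CV2 (R : Finset ℝ) {Q : ℝ} (hQ : 0 < Q) (h01 : ∀ ρ ∈ R, 0 ≤ ρ ∧ ρ ≤ 1)
    (hsep : ∀ ρ ∈ R, ∀ ρ' ∈ R, ρ ≠ ρ' → 1 ≤ |Q * ρ - Q * ρ'|) (N : ℕ) :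
    Dl_CV2 (Icc (-(N : ℤ)) N) R (fun x ρ => ex ((x : ℝ) * ρ)) (24 * (2 * (2 * N + 1) + Q)) := by
  refine dual_CV2 (by positivity) fun c => ?_
  have h := Pool.Agent.MP_2a1f0e_nt.large_sieve R (fun ρ => c ρ * ex (-((N : ℝ) + 1) * ρ)) hQ h01
    hsep (Y := 2 * N + 1) (by omega)
  simp only [norm_mul, Pool.Agent.MP_2a1f0e_nt.norm_ex, mul_one] at h
  push_cast at h
  refine le_trans (le_of_eq ?_) h
  symm
  refine sum_nbij' (fun t : ℕ => (t : ℤ) - (N + 1)) (fun u => (u + (N + 1)).toNat) ?_ ?_ ?_ ?_ ?_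
  · intro t ht
    simp only [mem_Icc] at ht ⊢
    omega
  · intro t ht
    simp only [mem_Icc] at ht ⊢
    omega
  · intro t _
    simp
  · intro t ht
    simp only [mem_Icc] at ht ⊢
    omega
  · intro t _
    congr 2
    refine sum_congr rfl fun ρ _ => ?_
    rw [mul_assoc, ← Pool.Agent.MP_2a1f0e_nt.ex_add]
    congr 2
    push_cast
    ring

/-- fractions with bounded denominator -/
def Fr_CV2 (V : ℕ) : Finset ℝ :=
  ((Icc 1 V).sigma fun v : ℕ => Ico (0 : ℤ) v).image fun p => (p.2 : ℝ) / (p.1 : ℝ)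

theorem mem_CV2 {V : ℕ} {ρ : ℝ} : ρ ∈ Fr_CV2 V ↔
    ∃ (v : ℕ) (a : ℤ), 1 ≤ v ∧ v ≤ V ∧ 0 ≤ a ∧ a < v ∧ (a : ℝ) / v = ρ := by
  unfold Fr_CV2
  rw [mem_image]
  constructor
  · rintro ⟨⟨v, a⟩, hp, rfl⟩
    simp only [mem_sigma, mem_Icc, mem_Ico] at hp
    exact ⟨v, a, hp.1.1, hp.1.2, hp.2.1, hp.2.2, rfl⟩
  · rintro ⟨v, a, a1, a2, a3, a4, rfl⟩
    exact ⟨⟨v, a⟩, by simp only [mem_sigma, mem_Icc, mem_Ico]; exact ⟨⟨a1, a2⟩, a3, a4⟩, rfl⟩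

theorem farey_CV2 {V : ℕ} (hV : 1 ≤ V) (N : ℕ) :
    Dl_CV2 (Icc (-(N : ℤ)) N) (Fr_CV2 V) (fun x ρ => ex ((x : ℝ) * ρ))
      (24 * (2 * (2 * N + 1) + (V : ℝ) ^ 2)) := by
  refine line_CV2 _ (by positivity) ?_ ?_ N
  · intro ρ hρ
    obtain ⟨v, a, a1, -, a3, a4, rfl⟩ := mem_CV2.1 hρ
    have b1 : (0 : ℝ) < v := by exact_mod_cast a1
    have b2 : (0 : ℝ) ≤ a := by exact_mod_cast a3
    have b3 : (a : ℝ) < v := by exact_mod_cast a4
    exact ⟨by positivity, by rw [div_le_one b1]; exact b3.le⟩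
  · intro ρ hρ ρ' hρ' hne
    obtain ⟨v, a, a1, a2, -, -, rfl⟩ := mem_CV2.1 hρ
    obtain ⟨v', a', a1', a2', -, -, rfl⟩ := mem_CV2.1 hρ'
    have b1 : (0 : ℝ) < v := by exact_mod_cast a1
    have b1' : (0 : ℝ) < v' := by exact_mod_cast a1'
    have b2 : (v : ℝ) ≤ V := by exact_mod_cast a2
    have b2' : (v' : ℝ) ≤ V := by exact_mod_cast a2'
    have c1 : a * v' - v * a' ≠ 0 := by
      intro h
      apply hne
      rw [div_eq_div_iff b1.ne' b1'.ne']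
      have : ((a * v' - v * a' : ℤ) : ℝ) = 0 := by rw [h]; simp
      push_cast at this
      linarith
    have c2 : (1 : ℝ) ≤ |((a * v' - v * a' : ℤ) : ℝ)| := by exact_mod_cast Int.one_le_abs c1
    push_cast at c2
    rw [← mul_sub, div_sub_div _ _ b1.ne' b1'.ne', abs_mul, abs_div, abs_of_pos (mul_pos b1 b1'),
      abs_of_nonneg (by positivity : (0 : ℝ) ≤ (V : ℝ) ^ 2), ← mul_div_assoc,
      le_div_iff₀ (mul_pos b1 b1')]
    have c3 : (v : ℝ) * v' ≤ (V : ℝ) ^ 2 := by nlinarith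
    nlinarith

theorem one_CV2 {v u u' : ℕ} {a a' : Fin 3 → ℤ} (ha : a ∈ Cp v) (hu : u ∣ v)
    (hc : u.Coprime u') (h : ∀ i, a i * u' = a' i * u) : u = 1 := by
  by_contra hne
  obtain ⟨l, hl, hlu⟩ := Nat.exists_prime_and_dvd hne
  refine (mem_filter.1 ha).2 l hl (hlu.trans hu) fun i => ?_
  have b1 : (u : ℤ) ∣ a i :=
    (Nat.isCoprime_iff_coprime.2 hc).dvd_of_dvd_mul_right ⟨a' i, by rw [h i]; ring⟩
  exact (Int.natCast_dvd_natCast.2 hlu).trans b1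

theorem inj_CV2 {v v' : ℕ} {a a' : Fin 3 → ℤ} (hv : 1 ≤ v) (hv' : 1 ≤ v') (ha : a ∈ Cp v)
    (ha' : a' ∈ Cp v') (h : ∀ i, (a i : ℝ) / v = (a' i : ℝ) / v') : v = v' ∧ a = a' := by
  have b1 : (0 : ℝ) < v := by exact_mod_cast hv
  have b1' : (0 : ℝ) < v' := by exact_mod_cast hv'
  have h1 : ∀ i, a i * v' = a' i * v := by
    intro i
    have := (div_eq_div_iff b1.ne' b1'.ne').1 (h i)
    exact_mod_cast this
  obtain ⟨u, u', hc, e, e'⟩ := Nat.exists_coprime v v'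
  have hg : 0 < Nat.gcd v v' := Nat.gcd_pos_of_pos_left _ hv
  set g := Nat.gcd v v' with hgd
  have h2 : ∀ i, a i * u' = a' i * u := by
    intro i
    have b2 := h1 i
    rw [e, e'] at b2
    push_cast at b2
    have b3 : (g : ℤ) ≠ 0 := by exact_mod_cast hg.ne'
    exact mul_right_cancel₀ b3 (by linarith)
  have c1 : u = 1 := one_CV2 ha ⟨g, e⟩ hc h2
  have c2 : u' = 1 := one_CV2 ha' ⟨g, e'⟩ hc.symm fun i => (h2 i).symm
  refine ⟨by rw [e, e', c1, c2], funext fun i => ?_⟩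
  have := h2 i
  rw [c1, c2] at this
  simpa using this

theorem cv2 : V2Stmt := by
  refine ⟨168 ^ 3, by norm_num, fun B V S g hB hV hS => ?_⟩
  rcases Nat.eq_zero_or_pos V with rfl | hV1
  · simp only [show Icc 1 0 = (∅ : Finset ℕ) by rfl, sum_empty]
    positivity
  set N := ⌊B⌋₊ with hN
  have hNB : (N : ℝ) ≤ B := Nat.floor_le (by linarith)
  set Δ : ℝ := 24 * (2 * (2 * N + 1) + (V : ℝ) ^ 2) with hΔ
  have hΔ0 : 0 ≤ Δ := by positivity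
  have hΔB : Δ ≤ 168 * B := by rw [hΔ]; linarith
  have h1 := farey_CV2 hV1 N
  have h3 := tensor_CV2 hΔ0 h1 (tensor_CV2 hΔ0 h1 h1)
  let e : (Fin 3 → ℤ) → ℤ × ℤ × ℤ := fun β => (β 0, β 1, β 2)
  let d : ℤ × ℤ × ℤ → Fin 3 → ℤ := fun y => ![y.1, y.2.1, y.2.2]
  have hde : ∀ β, d (e β) = β := fun β => by
    funext i; fin_cases i <;> rfl
  have hin : ∀ β ∈ S, ∀ i, β i ∈ Icc (-(N : ℤ)) N := by
    intro β hβ i
    have b1 : ‖β i‖ ≤ B := (norm_le_pi_norm β i).trans (hS β hβ)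
    rw [Int.norm_eq_abs] at b1
    have b2 : ((β i).natAbs : ℝ) ≤ B := by
      rw [Nat.cast_natAbs]; push_cast; exact b1
    have b3 : (β i).natAbs ≤ N := Nat.le_floor b2
    rw [mem_Icc]
    omega
  have key : ∀ {M : Type} [AddCommMonoid M] (F : ℤ × ℤ × ℤ → M),
      ∑ y ∈ Icc (-(N : ℤ)) N ×ˢ (Icc (-(N : ℤ)) N ×ˢ Icc (-(N : ℤ)) N),
        (if d y ∈ S then F y else 0) = ∑ β ∈ S, F (e β) := by
    intro M _ F
    rw [← sum_filter]
    symm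
    refine sum_nbij' e d ?_ ?_ ?_ ?_ ?_
    · intro β hβ
      refine mem_filter.2 ⟨mem_product.2 ⟨hin β hβ 0, mem_product.2 ⟨hin β hβ 1, hin β hβ 2⟩⟩, ?_⟩
      rw [hde]; exact hβ
    · intro y hy
      exact (mem_filter.1 hy).2
    · intro β _
      exact hde β
    · intro y _
      rfl
    · intro β _
      rfl
  have h4 := h3 fun y => if d y ∈ S then (g (d y) : ℂ) else 0
  have e1 : ∑ y ∈ Icc (-(N : ℤ)) N ×ˢ (Icc (-(N : ℤ)) N ×ˢ Icc (-(N : ℤ)) N),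
      ‖if d y ∈ S then (g (d y) : ℂ) else 0‖ ^ 2 = ∑ β ∈ S, g β ^ 2 := by
    have := key fun y => g (d y) ^ 2
    simp only [hde] at this
    rw [← this]
    refine sum_congr rfl fun y _ => ?_
    by_cases hy : d y ∈ S
    · rw [if_pos hy, if_pos hy, Complex.norm_real, Real.norm_eq_abs, sq_abs]
    · rw [if_neg hy, if_neg hy]; simp
  let E : ℝ × ℝ × ℝ → ℂ := fun r =>
    ∑ β ∈ S, (g β : ℂ) * (ex ((β 0 : ℝ) * r.1) * (ex ((β 1 : ℝ) * r.2.1) * ex ((β 2 : ℝ) * r.2.2)))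
  have e2 : ∀ r : ℝ × ℝ × ℝ,
      ∑ y ∈ Icc (-(N : ℤ)) N ×ˢ (Icc (-(N : ℤ)) N ×ˢ Icc (-(N : ℤ)) N),
        (if d y ∈ S then (g (d y) : ℂ) else 0) *
          (ex ((y.1 : ℝ) * r.1) * (ex ((y.2.1 : ℝ) * r.2.1) * ex ((y.2.2 : ℝ) * r.2.2))) = E r := by
    intro r
    have := key fun y => (g (d y) : ℂ) *
      (ex ((y.1 : ℝ) * r.1) * (ex ((y.2.1 : ℝ) * r.2.1) * ex ((y.2.2 : ℝ) * r.2.2)))
    simp only [hde] at this
    refine Eq.trans (sum_congr rfl fun y _ => ?_) this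
    by_cases hy : d y ∈ S
    · rw [if_pos hy, if_pos hy]
    · rw [if_neg hy, if_neg hy, zero_mul]
  simp only [e2] at h4
  rw [e1] at h4
  let φ : (Σ _ : ℕ, Fin 3 → ℤ) → ℝ × ℝ × ℝ := fun p =>
    ((p.2 0 : ℝ) / p.1, (p.2 1 : ℝ) / p.1, (p.2 2 : ℝ) / p.1)
  have e3 : ∀ (v : ℕ) (a : Fin 3 → ℤ), Ex S g a v = E (φ ⟨v, a⟩) := by
    intro v a
    unfold Ex
    refine sum_congr rfl fun β _ => ?_
    rw [← Pool.Agent.MP_2a1f0e_nt.ex_add, ← Pool.Agent.MP_2a1f0e_nt.ex_add]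
    congr 2
    simp only [dotProduct, Fin.sum_univ_three, φ]
    push_cast
    ring
  have h5 : ∑ v ∈ Icc 1 V, ∑ a ∈ Cp v, ‖Ex S g a v‖ ^ 2 ≤
      ∑ r ∈ Fr_CV2 V ×ˢ (Fr_CV2 V ×ˢ Fr_CV2 V), ‖E r‖ ^ 2 := by
    simp only [e3]
    rw [← sum_sigma (Icc 1 V) Cp fun p => ‖E (φ p)‖ ^ 2,
      ← sum_image (s := (Icc 1 V).sigma Cp) (g := φ) (f := fun r => ‖E r‖ ^ 2)]
    · refine sum_le_sum_of_subset_of_nonneg ?_ fun _ _ _ => by positivity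
      intro r hr
      obtain ⟨⟨v, a⟩, hp, rfl⟩ := mem_image.1 hr
      obtain ⟨p1, p2⟩ := mem_sigma.1 hp
      obtain ⟨q1, q2⟩ := mem_Icc.1 p1
      have q3 : ∀ i, (a i : ℝ) / v ∈ Fr_CV2 V := by
        intro i
        obtain ⟨r1, r2⟩ := mem_Ico.1 (Fintype.mem_piFinset.1 (mem_filter.1 p2).1 i)
        exact mem_CV2.2 ⟨v, a i, q1, q2, r1, r2, rfl⟩
      exact mem_product.2 ⟨q3 0, mem_product.2 ⟨q3 1, q3 2⟩⟩
    · rintro ⟨v, a⟩ hp ⟨v', a'⟩ hp' h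
      obtain ⟨p1, p2⟩ := mem_sigma.1 (mem_coe.1 hp)
      obtain ⟨p1', p2'⟩ := mem_sigma.1 (mem_coe.1 hp')
      obtain ⟨c1, c2⟩ := inj_CV2 (mem_Icc.1 p1).1 (mem_Icc.1 p1').1 p2 p2' (by
        intro i
        fin_cases i
        · exact congrArg Prod.fst h
        · exact congrArg (fun t => t.2.1) h
        · exact congrArg (fun t => t.2.2) h)
      simp only at c1 c2
      rw [c1, c2]
  refine h5.trans (h4.trans (mul_le_mul_of_nonneg_right ?_ (by positivity)))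
  calc Δ * (Δ * Δ) = Δ ^ 3 := by ring
    _ ≤ (168 * B) ^ 3 := pow_le_pow_left₀ hΔ0 hΔB 3
    _ = 168 ^ 3 * B ^ 3 := by ring

end Pool.Agent.MP_adc87d_lc.Big

end
end
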