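import Mathlib
import Pool.Agent.Mg.Fadc87d.G0908ea

set_option linter.all false

section

/-! Two primes represented by the cubic form: the final comparison. -/

set_option autoImplicit false

noncomputable section

open Finset
open scoped Classical

namespace Pool.Agent.MP_adc87d_lc.Big

open Pool.Agent.MP_2a1f0e_nt (ex)

theorem rv_inj_CFin {x y : O} (h : rv x = rv y) : x = y := by
  have h0 := congrFun h 0
  have h1 := congrFun h 1
  have h2 := congrFun h 2
  simp [rv] at h0 h1 h2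
  ext
  · omega
  · exact h1
  · exact h0

theorem xr_mu_CFin : 0 < xr mu := by
  have := thr_gt
  rw [xr_apply]
  simp [mu]
  linarith

theorem proj_CFin (q : ℕ) (g σ : O) :
    Proj q fun x => if ∃ l : ℤ, (q : O) ∣ g * x - l * σ then 1 else 0 := by
  have per : ∀ x y : O, (q : O) ∣ x - y → (∃ l : ℤ, (q : O) ∣ g * x - l * σ) →
      ∃ l : ℤ, (q : O) ∣ g * y - l * σ := by
    rintro x y h ⟨l, hl⟩
    refine ⟨l, ?_⟩
    have e : g * y - l * σ = g * x - l * σ - g * (x - y) := by ring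
    rw [e]
    exact dvd_sub hl (h.mul_left g)
  refine ⟨fun x y h => ?_, fun n x hn => ?_, fun x => ?_⟩
  · exact if_congr ⟨per x y h, per y x (dvd_sub_comm.1 h)⟩ rfl rfl
  · refine if_congr ⟨?_, ?_⟩ rfl rfl
    · rintro ⟨l, hl⟩
      obtain ⟨a, b, hab⟩ := hn
      have hab' : (a : O) * n + b * q = 1 := by exact_mod_cast congrArg (Int.cast : ℤ → O) hab
      refine ⟨a * l, ?_⟩
      have e : g * x - ((a * l : ℤ) : O) * σ = a * (g * (n * x) - l * σ) + q * (b * g * x) := by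
        push_cast
        linear_combination (-(g * x)) * hab'
      rw [e]
      exact dvd_add (hl.mul_left _) (dvd_mul_right _ _)
    · rintro ⟨l, hl⟩
      refine ⟨n * l, ?_⟩
      have e : g * (n * x) - ((n * l : ℤ) : O) * σ = n * (g * x - l * σ) := by
        push_cast
        ring
      rw [e]
      exact hl.mul_left _
  · beta_reduce
    split_ifs <;> simp

theorem inner_CFin {k : ℕ} {z c₁ A : ℝ} {w : ℤ → ℝ} {h : O → ℝ} {F G : Finset O} (hc : 0 < c₁)
    (hA : 0 ≤ A) (hw : ∀ n, c₁ ≤ w n) (hh : ∀ x, 0 ≤ h x) (hGF : G ⊆ F)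
    (hG : ∀ x ∈ G, Rough z x ∧ h x = 1) (hF : ∀ x ∈ F, dd k x = 0) (hcard : A ≤ G.card) :
    (c₁ * A) ^ 2 ≤ (∑ x ∈ F, ff k z (w (Nm x)) x * h x) ^ 2 := by
  have e : ∑ x ∈ F, ff k z (w (Nm x)) x * h x =
      -∑ x ∈ F, (if Rough z x then w (Nm x) else 0) * h x := by
    rw [← Finset.sum_neg_distrib]
    refine Finset.sum_congr rfl fun x hx => ?_
    rw [ff, hF x hx]
    ring
  rw [e, neg_sq]
  refine pow_le_pow_left₀ (by positivity) ?_ 2
  refine le_trans ?_ (Finset.sum_le_sum_of_subset_of_nonneg hGF fun x _ _ => ?_)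
  · have := Finset.card_nsmul_le_sum G (fun x => (if Rough z x then w (Nm x) else 0) * h x) c₁
      fun x hx => by
        show c₁ ≤ (if Rough z x then w (Nm x) else 0) * h x
        rw [if_pos (hG x hx).1, (hG x hx).2, mul_one]
        exact hw _
    rw [nsmul_eq_mul] at this
    nlinarith
  · refine mul_nonneg ?_ (hh x)
    split_ifs
    · exact hc.le.trans (hw _)
    · exact le_rfl

theorem size_CFin {c Y p u r : ℝ} (hc : 1 ≤ c) (hY : 0 < Y) (hu : 0 ≤ u) (h1 : Y ^ 30 < p)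
    (h2 : p ≤ 2 * Y ^ 30) (h3 : 49 * p ≤ (c * u) ^ 3) (h4 : u ^ 3 ≤ c ^ 3 * (49 * p))
    (h5 : r ≤ 2 * u) (h6 : u ≤ 2 * r) : Y ^ 10 / (10 * c) ≤ r ∧ r ≤ 10 * c * Y ^ 10 := by
  have e : Y ^ 30 = (Y ^ 10) ^ 3 := by ring
  have y0 : 0 < Y ^ 10 := by positivity
  rw [e] at h1 h2
  generalize Y ^ 10 = Z at *
  have z3 : 0 < Z ^ 3 := by positivity
  have c3 : 0 < c ^ 3 := by positivity
  constructor
  · have a1 : Z ≤ c * u :=
      le_of_pow_le_pow_left₀ (n := 3) (by norm_num) (by positivity) (by linarith)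
    rw [div_le_iff₀ (by positivity)]
    nlinarith
  · have a1 : u ≤ 5 * c * Z := by
      refine le_of_pow_le_pow_left₀ (n := 3) (by norm_num) (by positivity) ?_
      have : (5 * c * Z) ^ 3 = c ^ 3 * (125 * Z ^ 3) := by ring
      rw [this]
      exact h4.trans (mul_le_mul_of_nonneg_left (by linarith) c3.le)
    linarith

theorem cfin (h1 : SzStmt) (h2 : SplitStmt) (h3 : UpStmt) (h4 : MassStmt) (h5 : LowStmt) :
    ThmC := by
  intro k q B s₀ t₀ hk hq hco
  by_contra hcon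
  have hq1 : 1 ≤ q := by
    rcases Nat.eq_zero_or_pos q with rfl | h
    · simp at hq
    · exact h
  have : NeZero q := ⟨by omega⟩
  obtain ⟨T, hT⟩ := h5
  obtain ⟨cs, hcs, hsz, -⟩ := h1 (|eta mu| + 1)
  obtain ⟨c₁, hc₁, b, Y₁, hUp⟩ := h3 k q T (10 * cs) hk hq1 (by linarith)
  obtain ⟨Y₂, hLow⟩ := hT k q b s₀ t₀ hk hq hco
  obtain ⟨c₂, hc₂, Y₃, hMass⟩ := h4 k hk
  obtain ⟨Y, hY1, hY2, hY3, hY4, hY5⟩ : ∃ Y : ℝ, Y₁ ≤ Y ∧ Y₂ ≤ Y ∧ Y₃ ≤ Y ∧ (B : ℝ) + 7 ≤ Y ∧
      (q : ℝ) ^ 3 / (c₂ * c₁ ^ 2) + 1 ≤ Real.log Y := by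
    have e := Real.tendsto_log_atTop.eventually_ge_atTop ((q : ℝ) ^ 3 / (c₂ * c₁ ^ 2) + 1)
    exact ((Filter.eventually_ge_atTop Y₁).and ((Filter.eventually_ge_atTop Y₂).and
      ((Filter.eventually_ge_atTop Y₃).and ((Filter.eventually_ge_atTop _).and e)))).exists
  have hB0 : (0 : ℝ) ≤ B := Nat.cast_nonneg B
  have hYp : 0 < Y := by linarith
  have hq0 : (0 : ℝ) < (q : ℝ) ^ 3 := by positivity
  have hd0 : 0 < (q : ℝ) ^ 3 / (c₂ * c₁ ^ 2) := by positivity
  have hL : 1 ≤ Real.log Y := by linarith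
  have pw : ∀ n : ℕ, n ≠ 0 → Y ≤ Y ^ n := fun n hn => le_self_pow₀ (by linarith) hn
  obtain ⟨z, w, h, hz1, hz2, hw, hh, hvar⟩ := hUp Y hY1
  obtain ⟨S, hS, hScard⟩ := hMass Y hY3
  have hρ : ∀ p : ℕ, ∃ ρ : O, p ∈ S → ρ ∈ Dn 0 p := by
    intro p
    by_cases hp : p ∈ S
    · obtain ⟨a1, a2, -⟩ := hS p hp
      have h3' : 3 ∣ 3 ^ k := dvd_pow_self 3 (by omega)
      obtain ⟨ρ, hρ⟩ := (h2 p a1).2.1 (by rw [← Nat.mod_mod_of_dvd p h3', a2.1]) a2.2
      exact ⟨ρ, fun _ => hρ⟩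
    · exact ⟨0, fun h => absurd h hp⟩
  choose ρ hρ using hρ
  obtain ⟨y, -, hy⟩ := Finset.exists_le_card_fiber_of_nsmul_le_card_of_maps_to
    (s := S) (t := (Finset.univ : Finset (Fin 3 → ZMod q)))
    (f := fun p i => ((vec (ρ p) i : ℤ) : ZMod q)) (b := c₂ * Y ^ 30 / Real.log Y / (q : ℝ) ^ 3)
    (fun _ _ => Finset.mem_univ _) Finset.univ_nonempty (by
      rw [nsmul_eq_mul, Finset.card_univ, Fintype.card_fun, ZMod.card, Fintype.card_fin]
      push_cast
      rw [mul_div_cancel₀ _ hq0.ne']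
      exact hScard)
  obtain ⟨S', hS', hS'c⟩ : ∃ S' : Finset ℕ,
      (∀ p ∈ S', p ∈ S ∧ ∀ i, ((vec (ρ p) i : ℤ) : ZMod q) = y i) ∧
      c₂ * Y ^ 30 / Real.log Y / (q : ℝ) ^ 3 ≤ S'.card :=
    ⟨_, fun p hp => ⟨(Finset.mem_filter.1 hp).1, congrFun (Finset.mem_filter.1 hp).2⟩, hy⟩
  obtain ⟨ρ₀, hρ₀⟩ : ∃ ρ₀ : O, ∀ p ∈ S', (q : O) ∣ ρ p - ρ₀ := by
    refine ⟨⟨(y 0).val, (y 1).val, (y 2).val⟩, fun p hp => ?_⟩
    have key : ∀ i, (q : ℤ) ∣ vec (ρ p) i - ((y i).val : ℤ) := fun i => by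
      rw [← ZMod.intCast_zmod_eq_zero_iff_dvd]
      push_cast
      rw [(hS' p hp).2 i, ZMod.natCast_zmod_val, sub_self]
    rw [O.natCast_dvd, O.sub_a, O.sub_b, O.sub_c]
    exact ⟨key 0, key 1, key 2⟩
  have hN : ∀ p ∈ S', Nm (mu * ρ p) = 49 * p := fun p hp => by
    rw [Nm_mul, Nm_mu, (mem_Dn.1 (hρ p (hS' p hp).1)).2]
  have hinj : Set.InjOn (fun p => rv (mu * ρ p)) S' := by
    intro p hp p' hp' e
    have e1 := congrArg Nm (rv_inj_CFin e)
    rw [hN p hp, hN p' hp'] at e1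
    omega
  have hv := hvar (fun x => ∃ l : ℤ, (q : O) ∣ mu * ρ₀ * x - l * ⟨s₀, -t₀, 0⟩)
    (S'.image fun p => rv (mu * ρ p)) (proj_CFin q _ _) (by
      intro r hr
      obtain ⟨p, hp, rfl⟩ := Finset.mem_image.1 hr
      obtain ⟨a1, -, a3, a4, -⟩ := hS p (hS' p hp).1
      obtain ⟨⟨d1, d2, d3⟩, d4⟩ := mem_Dn.1 (hρ p (hS' p hp).1)
      have p7 : p ≠ 7 := by
        rintro rfl
        have := pw 30 (by norm_num)
        push_cast at a3
        linarith
      refine ⟨(((h2 p a1).2.2.2 _ d4).2.2.1 p7).1, ?_⟩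
      obtain ⟨b1, b2, b3, b4⟩ := hsz (mu * ρ p) (by rw [map_mul]; exact mul_pos xr_mu_CFin d1) (by
        rw [eta_mul (ne_of_xr_pos xr_mu_CFin) (ne_of_xr_pos d1)]
        refine (abs_add_le _ _).trans ?_
        rw [abs_of_nonneg d2]
        linarith)
      rw [hN p hp] at b1 b2
      push_cast at b1 b2
      exact size_CFin hcs hYp (norm_nonneg _) a3 a4 b1 b2 b3 b4)
  rw [Finset.sum_image hinj] at hv
  have hlow := Finset.card_nsmul_le_sum S' _ ((c₁ * (Y ^ 2 / Real.log Y ^ 4)) ^ 2)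
    fun p hp => inner_CFin (k := k) (z := z) (w := w) (h := h)
      (F := (Rg (T + 1) (Y ^ 18) (2 * Y ^ 18)).filter fun x => rv (mu * ρ p) ⬝ᵥ vec x = 0 ∧
        ∃ l : ℤ, (q : O) ∣ mu * ρ₀ * x - l * ⟨s₀, -t₀, 0⟩)
      hc₁ (by positivity) hw (fun x => (hh x).1) (by
        intro x hx
        obtain ⟨a1, a2, a3, -⟩ := Finset.mem_filter.1 hx
        obtain ⟨b1, b2, b3⟩ := mem_Rg.1 a1
        refine Finset.mem_filter.2 ⟨mem_Rg.2 ⟨b1, by linarith, b3⟩, a2, 1, ?_⟩
        have e : mu * ρ₀ * x - ((1 : ℤ) : O) * ⟨s₀, -t₀, 0⟩ =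
            mu * ρ p * x - ⟨s₀, -t₀, 0⟩ - mu * x * (ρ p - ρ₀) := by
          push_cast
          ring
        rw [e]
        exact dvd_sub a3 ((hρ₀ p hp).mul_left _))
      (fun x hx => ⟨(Finset.mem_filter.1 hx).2.2.2,
        (hh x).2 (mem_Rg.1 (Finset.mem_filter.1 hx).1).2.1⟩)
      (by
        intro x hx
        obtain ⟨a1, a2, l, a3⟩ := Finset.mem_filter.1 hx
        obtain ⟨b1, -, b3, -⟩ := mem_Rg.1 a1
        refine if_neg fun hP => hcon ?_
        obtain ⟨g1, g2, g3, -⟩ := hS p (hS' p hp).1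
        rw [rv_dot] at a2
        have n0 := Nm_pos b1
        have e1 : (((Nm x).natAbs : ℕ) : ℤ) = Nm x := Int.natAbs_of_nonneg n0.le
        have a4 : (q : O) ∣ mu * ρ p * x - l * ⟨s₀, -t₀, 0⟩ := by
          have e : mu * ρ p * x - (l : O) * ⟨s₀, -t₀, 0⟩ =
              mu * ρ₀ * x - l * ⟨s₀, -t₀, 0⟩ + mu * x * (ρ p - ρ₀) := by ring
          rw [e]
          exact dvd_add a3 ((hρ₀ p hp).mul_left _)
        have a5 : Nm (mu * ρ p * x) = 49 * p * Nm x := by rw [Nm_mul, hN p hp]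
        generalize mu * ρ p * x = α at a2 a4 a5
        obtain ⟨a6, a7, -⟩ := (O.natCast_dvd _ _).1 a4
        simp only [O.sub_a, O.sub_b, O.mul_a, O.mul_b, O.intCast_a, O.intCast_b, O.intCast_c,
          mul_zero, zero_mul, add_zero] at a6 a7
        refine ⟨α.a, -α.b, l, p, (Nm x).natAbs, g1, hP.1, ?_, ?_, g2, hP.2,
          (Int.modEq_iff_dvd.2 a6).symm, Int.modEq_iff_dvd.2 ?_, ?_⟩
        · have := pw 30 (by norm_num)
          exact_mod_cast (by linarith : (B : ℝ) < p)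
        · have := pw 18 (by norm_num)
          have e2 : (B : ℤ) < Nm x := by exact_mod_cast (by linarith : (B : ℝ) < Nm x)
          omega
        · have e : l * t₀ - -α.b = α.b - l * -t₀ := by ring
          rwa [e]
        · rw [e1, ← a5, ← Nm_lin, neg_neg, ← a2])
      (hLow Y hY2 z p (ρ p) hz1 hz2 (hS p (hS' p hp).1) (hρ p (hS' p hp).1))
  have fin := hlow.trans hv
  rw [nsmul_eq_mul] at fin
  have f2 := (mul_le_mul_of_nonneg_right hS'c (sq_nonneg _)).trans fin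
  generalize Real.log Y = L at *
  have L0 : 0 < L := by linarith
  have f3 : c₂ * Y ^ 30 / L / (q : ℝ) ^ 3 * (c₁ * (Y ^ 2 / L ^ 4)) ^ 2 =
      Y ^ 34 / L ^ 11 * (L ^ 2 / ((q : ℝ) ^ 3 / (c₂ * c₁ ^ 2))) := by
    field_simp
  rw [f3] at f2
  have f4 : 1 < L ^ 2 / ((q : ℝ) ^ 3 / (c₂ * c₁ ^ 2)) := by
    rw [one_lt_div hd0]
    nlinarith
  have f5 : 0 < Y ^ 34 / L ^ 11 := by positivity
  nlinarith

end Pool.Agent.MP_adc87d_lc.Big

end
end

section

/-! The integrals of the archimedean weights. -/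

set_option autoImplicit false

noncomputable section

open Finset
open scoped Classical

namespace Pool.Agent.MP_adc87d_lc.Big

open Pool.Agent.MP_2a1f0e_nt (ex)
open MeasureTheory

/-- multiplication by an element -/
def mm_CInt (g : Fin 3 → ℝ) : Matrix (Fin 3) (Fin 3) ℝ :=
  !![g 0, g 2, g 1; g 1, g 0 + g 2, g 1 + g 2; g 2, g 1, g 0 + g 2]

theorem det_CInt (g : Fin 3 → ℝ) : (mm_CInt g).det = Nv g := by
  simp [mm_CInt, Matrix.det_fin_three, Nv, nf]; ring

theorem xv_mm_CInt (g v : Fin 3 → ℝ) : xv (Matrix.toLin' (mm_CInt g) v) = xv g * xv v := by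
  simp [mm_CInt, xv, Matrix.toLin'_apply, Matrix.mulVec, dotProduct, Fin.sum_univ_three]
  linear_combination (-(g 1 * v 2 + g 2 * v 1 + g 2 * v 2 * thr)) * thr_cube

theorem zv_mm_CInt (g v : Fin 3 → ℝ) : zv (Matrix.toLin' (mm_CInt g) v) = zv g * zv v := by
  simp [mm_CInt, zv, Matrix.toLin'_apply, Matrix.mulVec, dotProduct, Fin.sum_univ_three]
  linear_combination (-((g 1 : ℂ) * v 2 + g 2 * v 1 + g 2 * v 2 * zt)) * zt_cube

/-- both embeddings -/
def emb_CInt : (Fin 3 → ℝ) →ₗ[ℝ] ℝ × ℂ where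
  toFun v := (xv v, zv v)
  map_add' v w := by simp [xv, zv]; constructor <;> ring
  map_smul' c v := by simp [xv, zv]; constructor <;> ring

theorem surj_CInt (a : ℝ) (w : ℂ) : ∃ g, xv g = a ∧ zv g = w := by
  have hi : Function.Injective emb_CInt := by
    rw [injective_iff_map_eq_zero]
    intro v hv
    have h := norm_le_emb v
    have h1 : xv v = 0 := congrArg Prod.fst hv
    have h2 : zv v = 0 := congrArg Prod.snd hv
    rw [h1, h2] at h
    simpa using h
  have hs : Function.Surjective emb_CInt :=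
    (LinearMap.injective_iff_surjective_of_finrank_eq_finrank (by simp)).1 hi
  obtain ⟨g, hg⟩ := hs (a, w)
  exact ⟨g, congrArg Prod.fst hg, congrArg Prod.snd hg⟩

theorem cov_CInt {E : Type} [NormedAddCommGroup E] [NormedSpace ℝ E] (F : ℝ → ℂ → E) (a : ℝ)
    (w : ℂ) (ha : 0 < a) (hw : w ≠ 0) :
    ∫ v, F (xv v) (zv v) = (a * ‖w‖ ^ 2) • ∫ v, F (a * xv v) (w * zv v) := by
  obtain ⟨g, h1, h2⟩ := surj_CInt a w
  have hw' := norm_pos_iff.2 hw
  have hp : 0 < a * ‖w‖ ^ 2 := by positivity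
  have hd : LinearMap.det (Matrix.toLin' (mm_CInt g)) = a * ‖w‖ ^ 2 := by
    rw [LinearMap.det_toLin', det_CInt, Nv_eq, h1, h2]
  have hd0 : LinearMap.det (Matrix.toLin' (mm_CInt g)) ≠ 0 := by rw [hd]; exact hp.ne'
  have hm := Measure.map_linearMap_addHaar_eq_smul_addHaar (volume : Measure (Fin 3 → ℝ)) hd0
  let e := (LinearMap.equivOfDetNeZero _ hd0).toContinuousLinearEquiv.toHomeomorph.toMeasurableEquiv
  have he : (e : (Fin 3 → ℝ) → (Fin 3 → ℝ)) = Matrix.toLin' (mm_CInt g) := rfl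
  have h3 := integral_map_equiv (μ := (volume : Measure (Fin 3 → ℝ))) e fun v => F (xv v) (zv v)
  rw [he, hm, integral_smul_measure, hd, ENNReal.toReal_ofReal (abs_nonneg _),
    abs_of_pos (inv_pos.2 hp)] at h3
  simp only [xv_mm_CInt, zv_mm_CInt, h1, h2] at h3
  rw [← h3, smul_smul, mul_inv_cancel₀ hp.ne', one_smul]

/-- position along the unit group -/
def et_CInt (x : ℝ) (z : ℂ) : ℝ := Real.log (x ^ 2 / ‖z‖ ^ 2) / (3 * Real.log thr)

theorem cx_CInt : Continuous xv := by unfold xv; fun_prop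
theorem cz_CInt : Continuous zv := by unfold zv; fun_prop
theorem cN_CInt : Continuous Nv := by unfold Nv nf; fun_prop

theorem me_CInt : Measurable etv := by
  have h1 := cx_CInt.measurable
  have h2 := cz_CInt.norm.measurable
  unfold etv
  exact ((h1.pow_const 2).div (h2.pow_const 2)).log.div_const _

theorem intg_CInt {E : Type} [NormedAddCommGroup E] (f : (Fin 3 → ℝ) → E) (B Y T : ℝ)
    (hm : AEStronglyMeasurable f volume) (hb : ∀ v, ‖f v‖ ≤ B)
    (hs : ∀ v, f v ≠ 0 → 0 < xv v ∧ 0 < Nv v ∧ Nv v ≤ Y ∧ |etv v| ≤ T) : Integrable f := by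
  set A := Real.exp (T * (3 * Real.log thr)) with hA
  have A0 : 0 < A := Real.exp_pos _
  have hl := log_thr_pos
  have key : Function.support f ⊆
      Metric.closedBall 0 (4 * ((1 + Y * A) + (1 + A * (1 + Y * A) ^ 2))) := by
    intro v hv
    obtain ⟨h1, h2, h3, h4⟩ := hs v hv
    rw [Nv_eq] at h2 h3
    have z0 : 0 < ‖zv v‖ ^ 2 := (mul_pos_iff_of_pos_left h1).1 h2
    have q0 : 0 < xv v ^ 2 / ‖zv v‖ ^ 2 := by positivity
    rw [etv, abs_div, abs_of_pos (by positivity : 0 < 3 * Real.log thr),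
      div_le_iff₀ (by positivity), abs_le] at h4
    have u1 : xv v ^ 2 / ‖zv v‖ ^ 2 ≤ A := (Real.log_le_iff_le_exp q0).1 h4.2
    have u2 : A⁻¹ ≤ xv v ^ 2 / ‖zv v‖ ^ 2 := by
      rw [hA, ← Real.exp_neg]
      exact (Real.le_log_iff_exp_le q0).1 h4.1
    rw [div_le_iff₀ z0] at u1
    rw [le_div_iff₀ z0, inv_mul_le_iff₀ A0] at u2
    have a1 : xv v ≤ 1 + Y * A := by
      have : xv v ^ 3 ≤ Y * A := by nlinarith
      nlinarith [sq_nonneg (xv v - 1), sq_nonneg (xv v + 1), mul_pos h1 h1]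
    have a2 : ‖zv v‖ ≤ 1 + A * (1 + Y * A) ^ 2 := by
      have : xv v ^ 2 ≤ (1 + Y * A) ^ 2 := by gcongr
      have : A * xv v ^ 2 ≤ A * (1 + Y * A) ^ 2 := by gcongr
      nlinarith [sq_nonneg (‖zv v‖ - 1)]
    have a4 := norm_le_emb v
    rw [abs_of_pos h1] at a4
    rw [mem_closedBall_zero_iff]
    linarith
  rw [← integrableOn_iff_integrable_of_support_subset key]
  exact Measure.integrableOn_of_bounded (M := B) measure_closedBall_lt_top.ne hm
    (Filter.Eventually.of_forall hb)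

theorem clp_nonneg_CInt (u : ℝ) : 0 ≤ clp u := le_max_left _ _
theorem clp_le_CInt (u : ℝ) : clp u ≤ 1 := max_le zero_le_one (min_le_left _ _)
theorem clp_zero_CInt {u : ℝ} (h : u ≤ 0) : clp u = 0 :=
  max_eq_left ((min_le_right _ _).trans h)
theorem clp_one_CInt {u : ℝ} (h : 1 ≤ u) : clp u = 1 := by
  rw [clp, min_eq_left h, max_eq_right zero_le_one]
theorem cclp_CInt : Continuous clp := by unfold clp; fun_prop
theorem ctent_CInt : Continuous tent := by unfold tent; fun_prop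
theorem tent_nonneg_CInt (u : ℝ) : 0 ≤ tent u := le_max_left _ _
theorem tent_le_CInt (u : ℝ) : tent u ≤ 1 := max_le zero_le_one (by linarith [abs_nonneg u])
theorem tent_supp_CInt {u : ℝ} (h : tent u ≠ 0) : |u| ≤ 1 := by
  by_contra hc
  exact h (max_eq_left (by linarith [not_le.1 hc]))

theorem tent_eq_CInt (u : ℝ) : tent u = clp (u + 1) - clp u := by
  unfold tent clp
  rcases abs_cases u with h | h <;> simp only [max_def, min_def] <;> split_ifs <;> linarith [h.1, h.2]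

theorem rmp_nonneg_CInt (y U N : ℝ) : 0 ≤ rmp y U N :=
  mul_nonneg (clp_nonneg_CInt _) (clp_nonneg_CInt _)

theorem rmp_le_CInt (y U N : ℝ) : rmp y U N ≤ 1 :=
  mul_le_one₀ (clp_le_CInt _) (clp_nonneg_CInt _) (clp_le_CInt _)

theorem rmp_supp_CInt {y U N : ℝ} (hU : 0 < U) (h : rmp y U N ≠ 0) : 0 < N ∧ N ≤ y + U := by
  constructor
  · by_contra hc
    refine h ?_
    rw [rmp, clp_zero_CInt (div_nonpos_of_nonpos_of_nonneg (by linarith [not_lt.1 hc]) hU.le),
      zero_mul]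
  · by_contra hc
    refine h ?_
    rw [rmp, clp_zero_CInt (u := (y + U - N) / U)
      (div_nonpos_of_nonpos_of_nonneg (by linarith [not_le.1 hc]) hU.le), mul_zero]

theorem rmp_one_CInt {y U N : ℝ} (hU : 0 < U) (h1 : 2 * U ≤ N) (h2 : N ≤ y) : rmp y U N = 1 := by
  rw [rmp, clp_one_CInt ((one_le_div hU).2 (by linarith)),
    clp_one_CInt ((one_le_div hU).2 (by linarith)), one_mul]

theorem crmp_CInt (y U : ℝ) : Continuous (rmp y U) := by
  have := cclp_CInt
  unfold rmp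
  fun_prop

/-- the sharp cutoff -/
def gg_CInt (t x : ℝ) (z : ℂ) : ℝ :=
  if 0 < x ∧ 0 < x * ‖z‖ ^ 2 ∧ x * ‖z‖ ^ 2 ≤ t then tent (et_CInt x z) else 0

theorem gg_eq_CInt (t : ℝ) (v : Fin 3 → ℝ) : gg_CInt t (xv v) (zv v) =
    if 0 < xv v ∧ 0 < Nv v ∧ Nv v ≤ t then tent (etv v) else 0 := by
  rw [Nv_eq]; rfl

theorem gg_nonneg_CInt (t x : ℝ) (z : ℂ) : 0 ≤ gg_CInt t x z := by
  unfold gg_CInt
  split_ifs
  · exact tent_nonneg_CInt _
  · exact le_rfl

theorem gg_int_CInt (t : ℝ) : Integrable fun v => gg_CInt t (xv v) (zv v) := by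
  simp only [gg_eq_CInt]
  refine intg_CInt _ 1 t 1 (Measurable.aestronglyMeasurable ?_) (fun v => ?_) fun v hv => ?_
  · refine Measurable.ite ?_ (ctent_CInt.measurable.comp me_CInt) measurable_const
    exact (measurableSet_lt measurable_const cx_CInt.measurable).inter
      ((measurableSet_lt measurable_const cN_CInt.measurable).inter
        (measurableSet_le cN_CInt.measurable measurable_const))
  · split_ifs
    · rw [Real.norm_of_nonneg (tent_nonneg_CInt _)]
      exact tent_le_CInt _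
    · simp
  · split_ifs at hv with h
    · exact ⟨h.1, h.2.1, h.2.2, tent_supp_CInt hv⟩
    · exact absurd rfl hv

theorem gg_scale_CInt {t : ℝ} (ht : 0 ≤ t) :
    ∫ v, gg_CInt t (xv v) (zv v) = (∫ v, gg_CInt 1 (xv v) (zv v)) * t := by
  rcases ht.eq_or_lt with rfl | ht
  · have : ∀ v, gg_CInt 0 (xv v) (zv v) = 0 := fun v => if_neg fun h => by linarith [h.2.1, h.2.2]
    simp [this]
  obtain ⟨s, s0, rfl⟩ : ∃ s : ℝ, 0 < s ∧ s ^ 3 = t :=
    ⟨t ^ ((3 : ℕ) : ℝ)⁻¹, by positivity, Real.rpow_inv_natCast_pow ht.le (by norm_num)⟩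
  rw [cov_CInt (gg_CInt (s ^ 3)) s s s0 (by exact_mod_cast s0.ne'), Complex.norm_real,
    Real.norm_of_nonneg s0.le, smul_eq_mul, mul_comm]
  have s3 : 0 < s ^ 3 := by positivity
  have : ∀ (x : ℝ) (z : ℂ), gg_CInt (s ^ 3) (s * x) (s * z) = gg_CInt 1 x z := fun x z => by
    have e1 : s * x * ‖(s : ℂ) * z‖ ^ 2 = s ^ 3 * (x * ‖z‖ ^ 2) := by
      rw [norm_mul, Complex.norm_real, Real.norm_of_nonneg s0.le]; ring
    have e2 : et_CInt (s * x) (s * z) = et_CInt x z := by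
      rw [et_CInt, et_CInt, norm_mul, Complex.norm_real, Real.norm_of_nonneg s0.le, mul_pow, mul_pow,
        mul_div_mul_left _ _ (by positivity)]
    unfold gg_CInt
    rw [e1, e2]
    simp only [mul_pos_iff_of_pos_left s0, mul_pos_iff_of_pos_left s3, mul_le_iff_le_one_right s3]
  simp only [this]
  ring

theorem gg_pos_CInt : 0 < ∫ v, gg_CInt 1 (xv v) (zv v) := by
  rw [integral_pos_iff_support_of_nonneg (fun v => gg_nonneg_CInt _ _ _) (gg_int_CInt 1)]
  have h1 := cx_CInt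
  have h2 := cz_CInt
  have t1 := one_lt_thr
  have hl := log_thr_pos
  have ho : IsOpen {v | 0 < xv v ∧ xv v * ‖zv v‖ ^ 2 < 1 ∧ ‖zv v‖ ^ 2 < thr * xv v ^ 2 ∧
      xv v ^ 2 < thr * ‖zv v‖ ^ 2} :=
    (isOpen_lt continuous_const h1).inter ((isOpen_lt (h1.mul (h2.norm.pow 2)) continuous_const).inter
      ((isOpen_lt (h2.norm.pow 2) (continuous_const.mul (h1.pow 2))).inter
        (isOpen_lt (h1.pow 2) (continuous_const.mul (h2.norm.pow 2)))))
  refine (ho.measure_pos volume ?_).trans_le (measure_mono ?_)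
  · obtain ⟨g, a, b⟩ := surj_CInt (1 / 2) ((1 / 2 : ℝ) : ℂ)
    refine ⟨g, ?_⟩
    simp only [Set.mem_ofPred_eq, a, b, Complex.norm_real]
    rw [Real.norm_of_nonneg (by norm_num)]
    refine ⟨by norm_num, by norm_num, by linarith, by linarith⟩
  · rintro v ⟨a, b, c, d⟩
    have z0 : 0 < ‖zv v‖ ^ 2 := by nlinarith [sq_nonneg (xv v)]
    have q0 : 0 < xv v ^ 2 / ‖zv v‖ ^ 2 := by positivity
    rw [Function.mem_support, gg_CInt, if_pos ⟨a, by positivity, b.le⟩]
    have u1 : Real.log (xv v ^ 2 / ‖zv v‖ ^ 2) ≤ Real.log thr :=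
      Real.log_le_log q0 ((div_le_iff₀ z0).2 d.le)
    have u2 : -Real.log thr ≤ Real.log (xv v ^ 2 / ‖zv v‖ ^ 2) := by
      rw [← Real.log_inv]
      refine Real.log_le_log (by positivity) ?_
      rw [le_div_iff₀ z0, inv_mul_le_iff₀ (by positivity)]
      exact c.le
    have : |et_CInt (xv v) (zv v)| < 1 := by
      rw [et_CInt, abs_div, abs_of_pos (by positivity : 0 < 3 * Real.log thr),
        div_lt_one (by positivity), abs_lt]
      constructor <;> linarith
    exact (lt_max_of_lt_right (by linarith)).ne'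

/-- the weight with a general profile -/
def ww_CInt (h : ℝ → ℝ) (σ : ℝ) (m : ℤ) (y U x : ℝ) (z : ℂ) : ℂ :=
  if 0 < x then ((h (et_CInt x z) * rmp y U (x * ‖z‖ ^ 2) : ℝ) : ℂ) *
    (ex (σ * et_CInt x z) * (z / ‖z‖) ^ m) else 0

theorem Wt_eq_CInt (σ : ℝ) (m : ℤ) (y U : ℝ) (v : Fin 3 → ℝ) :
    Wt σ m y U v = ww_CInt tent σ m y U (xv v) (zv v) := by
  rw [Wt, Nv_eq]; rfl

theorem rot_CInt (σ : ℝ) {m : ℤ} (hm : m ≠ 0) (y U : ℝ) : ∫ v, Wt σ m y U v = 0 := by
  have m0 : (m : ℂ) ≠ 0 := by exact_mod_cast hm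
  obtain ⟨w, w1, w2⟩ : ∃ w : ℂ, ‖w‖ = 1 ∧ w ^ m = -1 := by
    refine ⟨Complex.exp (((Real.pi / m : ℝ) : ℂ) * Complex.I), Complex.norm_exp_ofReal_mul_I _, ?_⟩
    rw [← Complex.exp_int_mul, ← Complex.exp_pi_mul_I]
    congr 1
    push_cast
    field_simp
  have h := cov_CInt (ww_CInt tent σ m y U) 1 w one_pos (norm_pos_iff.1 (by rw [w1]; norm_num))
  have e : ∀ (x : ℝ) (z : ℂ), ww_CInt tent σ m y U (1 * x) (w * z) = -ww_CInt tent σ m y U x z := by
    intro x z
    have e1 : ‖w * z‖ = ‖z‖ := by rw [norm_mul, w1, one_mul]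
    unfold ww_CInt et_CInt
    rw [one_mul, e1, mul_div_assoc w, mul_zpow, w2]
    split_ifs
    · ring
    · simp
  simp only [e, w1, integral_neg] at h
  simp only [Wt_eq_CInt]
  rw [one_pow, one_mul, one_smul] at h
  linear_combination h / 2

theorem shift_CInt (h : ℝ → ℝ) (σ y : ℝ) {U : ℝ} (hU : 0 < U) (t : ℝ) :
    ∫ v, ww_CInt h σ 0 y U (xv v) (zv v) =
      ex (σ * t) * ∫ v, ww_CInt (fun u => h (u + t)) σ 0 y U (xv v) (zv v) := by
  have hl := log_thr_pos
  set b := Real.exp (-(t * Real.log thr / 2)) with hb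
  set a := Real.exp (t * Real.log thr) with ha
  have a0 : 0 < a := Real.exp_pos _
  have b0 : 0 < b := Real.exp_pos _
  have ab : a * b ^ 2 = 1 := by
    rw [ha, hb, ← Real.exp_nat_mul, ← Real.exp_add, ← Real.exp_zero]
    congr 1
    push_cast
    ring
  rw [cov_CInt (ww_CInt h σ 0 y U) a b a0 (by exact_mod_cast b0.ne'), Complex.norm_real,
    Real.norm_of_nonneg b0.le, ab, one_smul, ← integral_const_mul]
  refine integral_congr_ae (Filter.Eventually.of_forall fun v => ?_)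
  beta_reduce
  generalize xv v = x
  generalize zv v = z
  have e1 : a * x * ‖(b : ℂ) * z‖ ^ 2 = x * ‖z‖ ^ 2 := by
    rw [norm_mul, Complex.norm_real, Real.norm_of_nonneg b0.le]
    linear_combination (x * ‖z‖ ^ 2) * ab
  simp only [ww_CInt, e1, mul_pos_iff_of_pos_left a0, zpow_zero, mul_one]
  split_ifs with hx
  swap
  · simp
  by_cases hr : rmp y U (x * ‖z‖ ^ 2) = 0
  · simp [hr]
  have z0 : 0 < ‖z‖ ^ 2 := (mul_pos_iff_of_pos_left hx).1 (rmp_supp_CInt hU hr).1
  have e2 : et_CInt (a * x) (b * z) = et_CInt x z + t := by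
    have e3 : (a * x) ^ 2 / ‖(b : ℂ) * z‖ ^ 2 = x ^ 2 / ‖z‖ ^ 2 * a ^ 3 := by
      rw [norm_mul, Complex.norm_real, Real.norm_of_nonneg b0.le, mul_pow b, div_mul_eq_mul_div,
        div_eq_div_iff (by positivity) z0.ne']
      linear_combination (-a ^ 2 * x ^ 2 * ‖z‖ ^ 2) * ab
    rw [et_CInt, et_CInt, e3, Real.log_mul (by positivity) (by positivity), Real.log_pow, ha,
      Real.log_exp]
    field_simp
    push_cast
    ring
  rw [e2, mul_add, Pool.Agent.MP_2a1f0e_nt.ex_add]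
  ring

theorem ww_int_CInt (h : ℝ → ℝ) (σ y T : ℝ) {U : ℝ} (hU : 0 < U) (hc : Continuous h)
    (hb : ∀ u, |h u| ≤ 1) (hs : ∀ u, h u ≠ 0 → |u| ≤ T) :
    Integrable fun v => ww_CInt h σ 0 y U (xv v) (zv v) := by
  have e : ∀ v, ww_CInt h σ 0 y U (xv v) (zv v) =
      if 0 < xv v then ((h (etv v) * rmp y U (Nv v) : ℝ) : ℂ) * ex (σ * etv v) else 0 := fun v => by
    rw [ww_CInt, zpow_zero, mul_one, Nv_eq]; rfl
  simp only [e]
  refine intg_CInt _ 1 (y + U) T (Measurable.aestronglyMeasurable ?_) (fun v => ?_) fun v hv => ?_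
  · refine Measurable.ite (measurableSet_lt measurable_const cx_CInt.measurable) ?_ measurable_const
    have c1 : Continuous ex := by unfold ex; fun_prop
    exact (Complex.measurable_ofReal.comp ((hc.measurable.comp me_CInt).mul
      ((crmp_CInt y U).comp cN_CInt).measurable)).mul (c1.measurable.comp (me_CInt.const_mul σ))
  · split_ifs
    · rw [norm_mul, Pool.Agent.MP_2a1f0e_nt.norm_ex, mul_one, Complex.norm_real, Real.norm_eq_abs,
        abs_mul, abs_of_nonneg (rmp_nonneg_CInt _ _ _)]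
      exact mul_le_one₀ (hb _) (rmp_nonneg_CInt _ _ _) (rmp_le_CInt _ _ _)
    · simp
  · split_ifs at hv with hx
    · have h1 : h (etv v) * rmp y U (Nv v) ≠ 0 := fun h0 => hv (by rw [h0]; simp)
      have h2 := rmp_supp_CInt hU (right_ne_zero_of_mul h1)
      exact ⟨hx, h2.1, h2.2, hs _ (left_ne_zero_of_mul h1)⟩
    · exact absurd rfl hv

theorem osc_CInt {σ : ℝ} (h0 : σ ≠ 0) (h1 : ex σ = 1) (y : ℝ) {U : ℝ} (hU : 0 < U) :
    ∫ v, Wt σ 0 y U v = 0 := by
  simp only [Wt_eq_CInt]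
  set t := 1 / (2 * σ) with ht
  have e1 : ex (σ * t) = -1 := by
    have : σ * t = 1 / 2 := by rw [ht]; field_simp
    rw [this, ex, ← Complex.exp_pi_mul_I]
    congr 1
    push_cast
    ring
  have s1 := shift_CInt tent σ y hU t
  let u : ℝ → ℝ := fun s => clp s - clp (s + t)
  have s2 := shift_CInt u σ y hU 1
  rw [mul_one, h1, one_mul] at s2
  have cc := cclp_CInt
  have ct := ctent_CInt
  have ub : ∀ s, |u s| ≤ 1 := fun s => abs_le.2 ⟨by
    linarith [clp_nonneg_CInt s, clp_le_CInt (s + t)], by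
    linarith [clp_le_CInt s, clp_nonneg_CInt (s + t)]⟩
  have us : ∀ s, u s ≠ 0 → |s| ≤ |t| + 1 := fun s hs => by
    by_contra hc
    rw [not_le, lt_abs] at hc
    have a1 := le_abs_self t
    have a2 := neg_abs_le t
    have a3 := abs_nonneg t
    refine hs ?_
    rcases hc with hc | hc
    · simp only [u]
      rw [clp_one_CInt (by linarith), clp_one_CInt (by linarith), sub_self]
    · simp only [u]
      rw [clp_zero_CInt (by linarith), clp_zero_CInt (by linarith), sub_self]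
  have tb : ∀ s, |tent s| ≤ 1 := fun s => by
    rw [abs_of_nonneg (tent_nonneg_CInt s)]
    exact tent_le_CInt s
  have i1 := ww_int_CInt tent σ y 1 hU ct tb fun s => tent_supp_CInt
  have i2 := ww_int_CInt (fun s => tent (s + t)) σ y (1 + |t|) hU (by fun_prop) (fun s => tb _)
    fun s hs => by
      have := tent_supp_CInt hs
      have := abs_sub (s + t) t
      rw [add_sub_cancel_right] at this
      linarith
  have i3 := ww_int_CInt u σ y _ hU (by simp only [u]; fun_prop) ub us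
  have i4 := ww_int_CInt (fun s => u (s + 1)) σ y (|t| + 1 + 1) hU (by simp only [u]; fun_prop)
    (fun s => ub _) fun s hs => by
      have := us _ hs
      have := abs_sub (s + 1) 1
      rw [add_sub_cancel_right, abs_one] at this
      linarith
  have e2 : ∀ (x : ℝ) (z : ℂ), ww_CInt tent σ 0 y U x z - ww_CInt (fun s => tent (s + t)) σ 0 y U x z =
      ww_CInt (fun s => u (s + 1)) σ 0 y U x z - ww_CInt u σ 0 y U x z := fun x z => by
    unfold ww_CInt
    split_ifs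
    · simp only [u, tent_eq_CInt, add_right_comm _ t 1]
      push_cast
      ring
    · rfl
  have e3 := integral_sub i1 i2
  simp only [e2] at e3
  rw [integral_sub i4 i3] at e3
  rw [e1] at s1
  linear_combination (s1 - e3 - s2) / 2

theorem cint (_h : GeoStmt) : IntStmt := by
  refine ⟨_, gg_pos_CInt, fun y R hR hy _ => ⟨?_, fun σ m hσ ha => ?_⟩⟩
  · have hU : 0 < R ^ 5 := by positivity
    generalize R ^ 5 = U at *
    have k0 := gg_pos_CInt
    let W : (Fin 3 → ℝ) → ℝ := fun v => if 0 < xv v then tent (etv v) * rmp y U (Nv v) else 0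
    have e : ∀ v, Wt 0 0 y U v = (W v : ℂ) := fun v => by
      simp only [Wt, W, arv, zero_mul, Pool.Agent.MP_2a1f0e_nt.ex_zero, zpow_zero, mul_one]
      split_ifs <;> simp
    have W0 : ∀ v, 0 ≤ W v := fun v => by
      simp only [W]
      split_ifs
      · exact mul_nonneg (tent_nonneg_CInt _) (rmp_nonneg_CInt _ _ _)
      · exact le_rfl
    have up : ∀ v, W v ≤ gg_CInt (y + U) (xv v) (zv v) := fun v => by
      by_cases h0 : W v = 0
      · rw [h0]; exact gg_nonneg_CInt _ _ _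
      simp only [W] at h0 ⊢
      split_ifs at h0 ⊢ with hx
      · have h2 := rmp_supp_CInt hU (right_ne_zero_of_mul h0)
        rw [gg_eq_CInt, if_pos ⟨hx, h2.1, h2.2⟩]
        exact mul_le_of_le_one_right (tent_nonneg_CInt _) (rmp_le_CInt _ _ _)
      · exact absurd rfl h0
    have lo : ∀ v, gg_CInt y (xv v) (zv v) - gg_CInt (2 * U) (xv v) (zv v) ≤ W v := fun v => by
      have w0 := W0 v
      have g0 := gg_nonneg_CInt (2 * U) (xv v) (zv v)
      rw [gg_eq_CInt y]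
      split_ifs with hc
      swap
      · linarith
      by_cases h2 : Nv v ≤ 2 * U
      · rw [gg_eq_CInt, if_pos ⟨hc.1, hc.2.1, h2⟩, sub_self]
        exact w0
      · simp only [W]
        rw [if_pos hc.1, rmp_one_CInt hU (not_le.1 h2).le hc.2.2]
        linarith
    have iW : Integrable W := by
      refine (gg_int_CInt (y + U)).mono' (Measurable.aestronglyMeasurable ?_)
        (Filter.Eventually.of_forall fun v => by rw [Real.norm_of_nonneg (W0 v)]; exact up v)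
      exact Measurable.ite (measurableSet_lt measurable_const cx_CInt.measurable)
        ((ctent_CInt.measurable.comp me_CInt).mul ((crmp_CInt y U).comp cN_CInt).measurable)
        measurable_const
    have b1 := integral_mono iW (gg_int_CInt (y + U)) up
    have b2 := integral_mono ((gg_int_CInt y).sub (gg_int_CInt (2 * U))) iW lo
    simp only [Pi.sub_apply] at b2
    rw [integral_sub (gg_int_CInt y) (gg_int_CInt (2 * U)), gg_scale_CInt hy,
      gg_scale_CInt (by positivity : 0 ≤ 2 * U)] at b2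
    rw [gg_scale_CInt (by positivity : 0 ≤ y + U)] at b1
    simp only [e]
    rw [integral_complex_ofReal, ← Complex.ofReal_mul, ← Complex.ofReal_sub, Complex.norm_real,
      Real.norm_eq_abs, abs_le]
    have := mul_pos k0 hU
    constructor <;> linarith
  · by_cases hm : m = 0
    · subst hm
      refine osc_CInt (hσ.resolve_right fun h => h rfl) ?_ y (by positivity)
      have e : etv (rc tO) = 1 := eta_tO
      rw [ar, arv, zpow_zero, mul_one, e, mul_one] at ha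
      exact ha
    · exact rot_CInt σ hm y _

end Pool.Agent.MP_adc87d_lc.Big

end
end
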