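import Mathlib
import Pool.Agent.MP_adc87d_lc.Curve
import Pool.Agent.MP_14ad9d_nt.Full.R1
import Pool.Agent.MP_e23604_nt.Eis

set_option linter.all false

section

/-! The curve y^2 = x^3 - 4 over the third cyclotomic field as a module over the Eisenstein
integers, and the statements of the steps of the proof. -/

set_option autoImplicit false

noncomputable section

namespace Pool.Agent.MP_adc87d_lc

open QuadraticAlgebra NumberField IsDedekindDomain
open Pool.Agent.MP_14ad9d_nt.Full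
open Pool.Agent.MP_e23604_nt (Zw nw)

/-- the third cyclotomic field -/
def KK : Type := CyclotomicField 3 ℚ

instance : Field KK := inferInstanceAs (Field (CyclotomicField 3 ℚ))

instance : CharZero KK := inferInstanceAs (CharZero (CyclotomicField 3 ℚ))

instance : IsCyclotomicExtension {3} ℚ KK := by
  have h : @IsCyclotomicExtension {3} ℚ KK _ _ (CyclotomicField.algebra 3 ℚ) :=
    CyclotomicField.isCyclotomicExtension 3 ℚ
  convert h
  exact Subsingleton.elim _ _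

instance : NumberField KK := IsCyclotomicExtension.numberField {3} ℚ _

/-- a primitive cube root of unity -/
def w : KK := IsCyclotomicExtension.zeta 3 ℚ KK

theorem hw : IsPrimitiveRoot w 3 := IsCyclotomicExtension.zeta_spec 3 ℚ KK

theorem w_rel : w ^ 2 + w + 1 = 0 := by
  have := hw.geom_sum_eq_zero (by norm_num)
  simp only [Finset.sum_range_succ, Finset.range_zero, Finset.sum_empty] at this
  linear_combination this

theorem w_cube : w ^ 3 = 1 := hw.pow_eq_one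

theorem w_ne : w ≠ 0 := hw.ne_zero (by norm_num)

theorem finrank_KK : ¬3 ∣ Module.finrank ℚ KK := by
  rw [IsCyclotomicExtension.finrank (n := 3) KK (Polynomial.cyclotomic.irreducible_rat (by norm_num))]
  decide

instance : Fact (Nat.Prime 3) := Nat.fact_prime_three

/-- the embedding of the Eisenstein integers -/
def io : Zw →+* KK := (QuadraticAlgebra.lift ⟨w, by
  simp only [neg_smul, one_smul]; linear_combination w_rel⟩ : Zw →ₐ[ℤ] KK).toRingHom

theorem io_apply (z : Zw) : io z = z.re + z.im * w := by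
  change z.re • (1 : KK) + z.im • w = _
  simp

theorem io_omega : io ω = w := by simp [io_apply]

/-- the points of y^2 = x^3 - 4 -/
abbrev MM : Type := Pt (-4 : KK)

theorem exists_om : ∃ ψ : MM →+ MM, (∀ R, px (ψ R) = w * px R) ∧ (∀ R, py (ψ R) = py R) ∧
    ∀ R, ψ (ψ R) = -R - ψ R := by
  have h2 : (w ^ 2) ^ 2 = w := by linear_combination w * w_cube
  have h3 : (w ^ 2) ^ 3 = 1 := by linear_combination (w ^ 3 + 1) * w_cube
  obtain ⟨ψ, h0, hx, hy⟩ := exists_scale (d := (-4 : KK)) (RingHom.id KK) (u := w ^ 2) (d' := -4)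
    (pow_ne_zero _ w_ne) (by norm_num) (by
      rw [RingHom.id_apply]; linear_combination 4 * ((w ^ 2) ^ 3 + 1) * h3)
  simp only [h2, h3, RingHom.id_apply, one_mul] at hx hy
  refine ⟨ψ, hx, hy, fun R => ?_⟩
  by_cases hR : R = 0
  · simp [hR]
  have n : ∀ S : MM, S ≠ 0 → ψ S ≠ 0 := fun S hS e => hS (h0 (e.trans (map_zero ψ).symm))
  have e := eqn hR
  have h : R + ψ R ≠ 0 := fun h => by
    obtain ⟨a, b⟩ := (add_eq_zero_iff hR (n R hR)).1 h
    rw [hx] at a
    rw [hy] at b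
    have b' : py R = 0 := by linear_combination (1 / 2 : KK) * b
    have a' : (w - 1) * px R = 0 := by linear_combination a
    have := (mul_eq_zero.1 a').resolve_left (sub_ne_zero.2 (hw.ne_one (by norm_num)))
    rw [b', this] at e
    norm_num at e
  obtain ⟨c1, c2⟩ := add_of hR (n R hR) h (m := 0) (by rw [hy]; ring)
    (by rw [hx]; linear_combination -px R ^ 2 * w_rel)
  rw [← neg_add', eq_neg_iff_add_eq_zero, add_eq_zero_iff (n _ (n R hR)) h, c2, c1]
  simp only [hx, hy]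
  exact ⟨by linear_combination -px R * w_rel, by ring⟩

/-- complex multiplication by the cube root of unity -/
def om : MM →+ MM := exists_om.choose

theorem px_om (R : MM) : px (om R) = w * px R := exists_om.choose_spec.1 R

theorem py_om (R : MM) : py (om R) = py R := exists_om.choose_spec.2.1 R

theorem om_om (R : MM) : om (om R) = -R - om R := exists_om.choose_spec.2.2 R

instance : SMul Zw MM := ⟨fun a R => a.re • R + a.im • om R⟩

theorem smul_def (a : Zw) (R : MM) : a • R = a.re • R + a.im • om R := rfl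

instance : Module Zw MM where
  one_smul R := by simp [smul_def]
  mul_smul a b R := by
    simp only [smul_def, re_mul, im_mul, map_add, map_zsmul, om_om]
    module
  smul_zero a := by simp [smul_def]
  smul_add a R S := by
    simp only [smul_def, map_add]
    module
  add_smul a b R := by
    simp only [smul_def, re_add, im_add]
    module
  zero_smul R := by simp [smul_def]

theorem omega_smul (R : MM) : (ω : Zw) • R = om R := by simp [smul_def]

theorem int_smul (n : ℤ) (R : MM) : (n : Zw) • R = n • R := Int.cast_smul_eq_zsmul Zw n R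

/-- the prime above three -/
def th : Zw := 1 - ω

theorem io_th : io th = 1 - w := by rw [th, map_sub, map_one, io_omega]

/-- prime to three -/
def Good (a : Zw) : Prop := ¬(3 : ℤ) ∣ a.re + a.im

/-- the valuation of a prime -/
abbrev vl (v : Pr KK) : Valuation KK (WithZero (Multiplicative ℤ)) := v.valuation KK

/-- the kernel of reduction -/
def E1 (v : Pr KK) (R : MM) : Prop := R = 0 ∨ 1 < vl v (px R)

/-- the local parameter at the origin -/
def zc (R : MM) : KK := px R / py R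

/-- the standing hypothesis on a point -/
structure Std (P : MM) : Prop where
  ne : P ≠ 0
  two : ∀ v : Pr KK, vl v 2 < 1 → 1 < vl v (px P)
  three : ∀ v : Pr KK, ¬Tm 3 v → vl v (px P - 1) < 1

/-- the quotient x(aP)/x(P) -/
def Vq (P : MM) (a : Zw) : KK := px (a • P) / px P

/-- the cubic Jacobi symbol, written additively -/
def Jc (A B : KK) : ZMod 3 :=
  ∑ᶠ v : {v : Pr KK // Tm 3 v}, (ord v.1 B : ZMod 3) * chi 3 w v.1 A

/-- the type of a point at the prime above three -/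
def Ty (v : Pr KK) (e : ℤ) (R : MM) : Prop :=
  R ≠ 0 ∧ vl v (px R - 1) < 1 ∧ vl v (py R - e * (1 + 2 * w)) ≤ vl v (1 - w) ^ 2

/-- points that come from x^3 + 3 y^2 = 4 over the rationals -/
def Rm (R : MM) : Prop := ∃ x y : ℚ, px R = x ∧ py R = (1 + 2 * w) * y

/-- the relation between a and x(aP)/x(P) above three -/
def Cl (a : Zw) (A : KK) : Prop :=
  ∃ (e : ℕ) (s : ℤ) (k : Zw), (s = 1 ∨ s = -1) ∧ a = (s : Zw) * (ω ^ e + 3 * k) ∧
    ∀ v : Pr KK, ¬Tm 3 v → vl v (A - (w ^ e - 3 * io k)) ≤ vl v (1 - w) ^ 3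

/-- the torsor -/
def Tor (u v : ℚ) : Prop := u ^ 3 + 6 * u ^ 2 * v + 9 * u * v ^ 2 + 6 * v ^ 3 = 6

/-- first coordinate of the double of a point -/
def dbl (x : ℚ) : ℚ := x * (x ^ 3 + 32) / (4 * (x ^ 3 - 4))

/-- arithmetic of the field -/
def KFStmt : Prop :=
  Function.Injective io ∧ (∀ a : 𝓞 KK, ∃ α, io α = a) ∧ (∀ v α, vl v (io α) ≤ 1) ∧
  (∀ v : Pr KK, ∃ l : Zw, ord v (io l) = 1 ∧ (∀ v', v' ≠ v → ord v' (io l) = 0) ∧
    ∀ α, vl v (io α) < 1 → l ∣ α) ∧
  (∀ v : Pr KK, ¬Tm 3 v → (∀ t, vl v t < 1 → vl v t ≤ vl v (1 - w)) ∧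
    (∀ t, vl v t ≤ 1 → ∃ i : ℤ, (i = 0 ∨ i = 1 ∨ i = -1) ∧ vl v (t - i) ≤ vl v (1 - w)) ∧
    ∀ α, vl v (io α) < 1 ↔ ¬Good α) ∧
  (∀ α : Zw, ¬IsUnit α → ∃ v : Pr KK, vl v (io α) < 1) ∧ (∃ v : Pr KK, ¬Tm 3 v) ∧
  (∀ a : Zw, Good a → IsCoprime a th) ∧ ∀ a b : Zw, Good (a * b) ↔ Good a ∧ Good b

/-- the formal group -/
def L1Stmt : Prop :=
  ∀ v : Pr KK, (∀ R, E1 v R → vl v (zc R) < 1) ∧
    (∀ R, R ≠ 0 → E1 v R → zc R ≠ 0 ∧ vl v (px R * zc R ^ 2 - 1) < 1) ∧
    ∀ R S r, E1 v R → E1 v S → vl v (zc R) ≤ r → vl v (zc S) ≤ r →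
      E1 v (R + S) ∧ vl v (zc (R + S) - zc R - zc S) ≤ r ^ 7

/-- translation by the kernel of reduction, and multiplication by 1 - ω -/
def L2Stmt : Prop :=
  (∀ (v : Pr KK) (R S : MM), R ≠ 0 → vl v (px R) ≤ 1 → E1 v S →
    R + S ≠ 0 ∧ vl v (px (R + S) - px R) < 1) ∧
  (∀ R : MM, px R ≠ 0 → th • R ≠ 0 ∧ px (th • R) = (px R ^ 3 - 16) / ((1 - w) ^ 2 * px R ^ 2)) ∧
  ∀ R : MM, R ≠ 0 → R + R ≠ 0 → px (R + R) = px R * (px R ^ 3 + 32) / (4 * (px R ^ 3 - 4))

/-- multiples of a point in the kernel of reduction -/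
def ZStmt : Prop :=
  ∀ (v : Pr KK) (S : MM), E1 v S → ∀ a : Zw, E1 v (a • S) ∧
    (S ≠ 0 → a ≠ 0 → a • S ≠ 0 ∧ vl v (px (a • S) / px S * io a ^ 2 - 1) < 1)

/-- the tame primes -/
def PrStmt : Prop :=
  ∀ P : MM, Std P → (∀ a : Zw, a ≠ 0 → px (a • P) ≠ 0) ∧ ∀ v : Pr KK, Tm 3 v →
    (∀ a : Zw, a ≠ 0 → ¬E1 v (a • th • P) → ord v (px (a • P)) = 0) ∧
    (E1 v (th • P) → ∀ a : Zw, Good a → (ord v (Vq P a) : ZMod 3) = ord v (io a) ∧
      (ord v (io a) = 0 → ord v (Vq P a) = 0 ∧ chi 3 w v (Vq P a) = chi 3 w v (io a)))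

/-- coprimality and invariance -/
def InvStmt : Prop :=
  ∀ P : MM, Std P → ∀ a b : Zw, Good a → Good b → IsCoprime a b →
    (∀ v : Pr KK, Tm 3 v → ord v (Vq P a) = 0 ∨ ord v (Vq P b) = 0) ∧
    ∀ k : Zw, Jc (Vq P (a + th * k * b)) (Vq P b) = Jc (Vq P a) (Vq P b)

/-- types above three -/
def TyStmt : Prop :=
  ∀ v : Pr KK, ¬Tm 3 v → (∀ R : MM, R ≠ 0 → vl v (px R - 1) < 1 → Ty v 1 R ∨ Ty v (-1) R) ∧
    (∀ R, ¬(Ty v 1 R ∧ Ty v (-1) R)) ∧ (∀ e R, Ty v e R → Ty v (-e) (-R) ∧ Ty v e (om R)) ∧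
    (∀ e R S, (e = 1 ∨ e = -1) → Ty v e R → Ty v e S → Ty v (-e) (R + S) ∧
      vl v (px (R + S) - (-3 - (px R - px S) ^ 2 - px R - px S)) ≤ vl v (1 - w) ^ 3) ∧
    ∀ R, Rm R → E1 v R ∨ vl v (px R - 1) < 1

/-- multiples of a point above three -/
def L3Stmt : Prop :=
  ∀ P : MM, P ≠ 0 → (∀ v : Pr KK, ¬Tm 3 v → vl v (px P - 1) < 1) → ∀ a : Zw, Good a →
    (∀ v : Pr KK, ¬Tm 3 v → vl v (px (a • P) - 1) < 1) ∧ Cl a (Vq P a)

/-- the contribution of the prime above three -/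
def WildStmt : Prop :=
  ∀ (a b : Zw) (A B : KK), Cl a A → Cl b B → Phi 3 w A B = 2 * Phi 3 w (io a) (io b)

/-- properties of the Jacobi symbol, and the division step -/
def JStmt : Prop :=
  (∀ A B : KK, A ≠ 0 → B ≠ 0 → (∀ v : Pr KK, Tm 3 v → ord v A = 0 ∨ ord v B = 0) →
    Phi 3 w A B = Jc A B - Jc B A) ∧
  (∀ a b k : Zw, b ≠ 0 → IsCoprime a b → Jc (io (a + k * b)) (io b) = Jc (io a) (io b)) ∧
  (∀ a b : Zw, a ≠ 0 → b ≠ 0 → IsCoprime a b → ∀ v : Pr KK, ord v (io a) = 0 ∨ ord v (io b) = 0) ∧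
  (∀ a b : Zw, b ≠ 0 → ¬b ∣ a → ∃ k : Zw, nw (a + th * k * b) < nw b) ∧
  ∀ b : Zw, IsUnit b → ∃ e : ℕ, b = ω ^ e ∨ b = -ω ^ e

/-- the value of the symbol -/
def EucStmt : Prop :=
  ∀ P : MM, Std P → ∀ a b : Zw, Good a → Good b → IsCoprime a b →
    Jc (Vq P a) (Vq P b) = 2 * Jc (io a) (io b)

/-- descent in the Gaussian integers -/
def D1Stmt : Prop :=
  ∀ x y : ℚ, y ^ 2 = x ^ 3 - 4 → ∃ p q : ℚ, 3 * p ^ 2 * q - q ^ 3 = 2 ∧ x = p ^ 2 + q ^ 2

/-- descent in the ring generated by the square root of three -/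
def D2Stmt : Prop :=
  ∀ X Y : ℚ, Y ^ 2 = X ^ 3 + 108 → (∃ p q : ℚ, p ^ 2 * q + q ^ 3 = 2 ∧ X = p ^ 2 - 3 * q ^ 2) ∨
    ∃ u v : ℚ, Tor u v ∧ X = u ^ 2 - 3 * v ^ 2

/-- local facts over the rationals -/
def LocStmt : Prop :=
  (∀ u t : ℚ, Tor u t → ∀ v : Pr KK, ¬Tm 3 v →
    vl v ((((3 * t ^ 2 - u ^ 2) / 3 : ℚ) : KK) - 1) < 1) ∧
  (∀ u t : ℚ, Tor u t → ∃ y : ℚ, ((3 * t ^ 2 - u ^ 2) / 3) ^ 3 + 3 * y ^ 2 = 4) ∧
  (∀ x y : ℚ, x ^ 3 + 3 * y ^ 2 = 4 → ∀ v : Pr KK, vl v 2 < 1 →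
    1 < vl v ((dbl (dbl x) : ℚ) : KK)) ∧ (∀ x : ℚ, x ^ 3 ≠ 4) ∧ ∀ x : ℚ, x ^ 3 ≠ 2

/-- the rational points form a group of rank at most one -/
def RkStmt : Prop :=
  (∀ R S : MM, Rm R → Rm S → ∀ m n : ℤ, Rm (m • R + n • S)) ∧
  (∀ R S : MM, Rm R → Rm S → ∃ m n : ℤ, (m ≠ 0 ∨ n ≠ 0) ∧ m • R = n • S) ∧
  ∀ R : MM, Rm R → R ≠ 0 → (∀ v : Pr KK, ¬Tm 3 v → vl v (px R - 1) < 1) →
    ∃ u t : ℚ, Tor u t ∧ px R = (((3 * t ^ 2 - u ^ 2) / 3 : ℚ) : KK)

/-- first coordinates are distinct modulo cubes -/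
def FinStmt : Prop :=
  ∀ R S : MM, Std R → Std S → Rm R → Rm S → ∀ c : KK, px R = c ^ 3 * px S → px R = px S

end Pool.Agent.MP_adc87d_lc

end
end

section

/-! Arithmetic of the third cyclotomic field. -/

set_option autoImplicit false

noncomputable section

namespace Pool.Agent.MP_adc87d_lc

open QuadraticAlgebra NumberField IsDedekindDomain
open Pool.Agent.MP_14ad9d_nt.Full
open Pool.Agent.MP_e23604_nt (Zw nw mul_star_eq nw_eq_zero nw_def nw_mul nw_nonneg)

theorem io_inj_KF : Function.Injective io := by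
  rw [injective_iff_map_eq_zero]
  intro z hz
  have h := congrArg io (mul_star_eq z)
  rw [map_mul, hz, zero_mul, map_intCast] at h
  exact nw_eq_zero (by exact_mod_cast h.symm)

theorem io_int_KF (α : Zw) : ∃ a : 𝓞 KK, (a : KK) = io α := by
  have hi : IsIntegral ℤ w := hw.isIntegral (by norm_num)
  have h : IsIntegral ℤ (io α) := by
    rw [io_apply]
    exact (isIntegral_intCast _).add ((isIntegral_intCast _).mul hi)
  exact ⟨⟨io α, h⟩, rfl⟩

theorem io_surj_KF (a : 𝓞 KK) : ∃ α, io α = a := by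
  have hc := IsCyclotomicExtension.Rat.isIntegralClosure_adjoin_singleton (n := 3) (K := KK) hw
  obtain ⟨y, hy⟩ := hc.isIntegral_iff.1 a.isIntegral_coe
  have hle : Algebra.adjoin ℤ ({w} : Set KK) ≤ io.toIntAlgHom.range :=
    Algebra.adjoin_le (by
      rintro _ rfl
      exact ⟨ω, io_omega⟩)
  obtain ⟨α, hα⟩ := hle y.2
  exact ⟨α, hα.trans hy⟩

theorem io_le_KF (v : Pr KK) (α : Zw) : vl v (io α) ≤ 1 := by
  obtain ⟨a, ha⟩ := io_int_KF α
  rw [← ha]
  exact v.valuation_le_one a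

theorem int_le_KF (v : Pr KK) (n : ℤ) : vl v (n : KK) ≤ 1 := by
  have := io_le_KF v (n : Zw)
  rwa [map_intCast] at this

theorem gen_KF (v : Pr KK) : ∃ l : Zw, vl v (io l) = WithZero.exp (-1) ∧
    (∀ v', v' ≠ v → ord v' (io l) = 0) ∧ ∀ α, vl v (io α) < 1 → l ∣ α := by
  have hp : IsPrincipalIdealRing (𝓞 KK) := IsCyclotomicExtension.Rat.three_pid KK
  obtain ⟨π, hπ⟩ := (IsPrincipalIdealRing.principal v.asIdeal).principal
  have hπ' : v.asIdeal = Ideal.span {π} := hπ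
  have π0 : π ≠ 0 := by
    rintro rfl
    exact v.ne_bot (by rw [hπ']; simp)
  obtain ⟨l, hl⟩ := io_surj_KF π
  refine ⟨l, ?_, fun v' hv' => ?_, fun α hα => ?_⟩
  · rw [hl]
    exact (v.valuation_of_algebraMap π).trans (v.intValuation_singleton π0 hπ')
  · rw [hl, ord_eq_zero_iff v' π0]
    intro h
    refine hv' (HeightOneSpectrum.ext ?_)
    have hle : v.asIdeal ≤ v'.asIdeal := by
      rw [hπ', Ideal.span_le]
      rintro _ rfl
      exact h
    exact (v.isMaximal.eq_of_le v'.isPrime.ne_top hle).symm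
  · obtain ⟨a, ha⟩ := io_int_KF α
    rw [← ha] at hα
    have hm := (Sym1Aux.val_int_lt v a).1 hα
    rw [hπ', Ideal.mem_span_singleton] at hm
    obtain ⟨c, hc⟩ := hm
    obtain ⟨γ, hγ⟩ := io_surj_KF c
    refine ⟨γ, io_inj_KF ?_⟩
    rw [map_mul, hl, hγ, ← ha, hc]
    simp

theorem val_unit_KF (v : Pr KK) {m : Zw} (h : nw m = 1) : vl v (io m) = 1 := by
  have e := congrArg (fun z => vl v (io z)) (mul_star_eq m)
  simp only [h, map_mul, Int.cast_one, map_one] at e
  refine le_antisymm (io_le_KF v m) ?_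
  calc (1 : WithZero (Multiplicative ℤ)) = vl v (io m) * vl v (io (star m)) := e.symm
    _ ≤ vl v (io m) * 1 := mul_le_mul_right (io_le_KF v _) _
    _ = _ := mul_one _

theorem nw_th_KF : nw th = 3 := by
  rw [nw_def, th]
  simp

theorem val_th_KF (v : Pr KK) (hv : ¬Tm 3 v) : vl v (1 - w) = WithZero.exp (-1) := by
  obtain ⟨l, h1, -, h3⟩ := gen_KF v
  have hlt : vl v (io th) < 1 := by
    rw [io_th]
    exact val_one_sub_lt hw hv
  obtain ⟨m, hm⟩ := h3 th hlt
  have e : nw l * nw m = 3 := by rw [← nw_mul, ← hm, nw_th_KF]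
  have l1 : nw l ≠ 1 := fun h => by
    rw [val_unit_KF v h, ← WithZero.exp_zero, WithZero.exp_inj] at h1
    omega
  have m1 : nw m = 1 := by
    have a := nw_nonneg l
    have b := nw_nonneg m
    have c : nw m ∣ 3 := ⟨nw l, by rw [← e]; ring⟩
    have d : nw m ≤ 3 := Int.le_of_dvd (by norm_num) c
    generalize nw l = x at *
    generalize nw m = y at *
    interval_cases y <;> omega
  rw [← io_th, hm, map_mul, map_mul, h1, val_unit_KF v m1, mul_one]

theorem val_three_KF (v : Pr KK) (hv : ¬Tm 3 v) : vl v (3 : KK) < 1 := by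
  have := (Sym1Aux.val_int_lt v ((3 : ℕ) : 𝓞 KK)).2 (not_not.1 hv)
  have e : (((3 : ℕ) : 𝓞 KK) : KK) = 3 := by
    change algebraMap (𝓞 KK) KK ((3 : ℕ) : 𝓞 KK) = 3
    rw [map_natCast]
    norm_num
  rwa [e] at this

theorem mul_lt_KF (v : Pr KK) (n : ℤ) {x : KK} (h : vl v x < 1) : vl v (n * x) < 1 := by
  rw [map_mul]
  calc vl v (n : KK) * vl v x ≤ 1 * vl v x := mul_le_mul_left (int_le_KF v n) _
    _ = vl v x := one_mul _
    _ < 1 := h

theorem disc_KF (v : Pr KK) (hv : ¬Tm 3 v) (t : KK) (ht : vl v t < 1) :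
    vl v t ≤ vl v (1 - w) := by
  rcases eq_or_ne t 0 with rfl | h0
  · simp
  have := (Sym1Aux.val_lt_one_iff v h0).1 ht
  rw [val_th_KF v hv, show vl v t = _ from val_eq_exp v h0, WithZero.exp_le_exp]
  omega

theorem res_KF (v : Pr KK) (hv : ¬Tm 3 v) (t : KK) (ht : vl v t ≤ 1) :
    ∃ i : ℤ, (i = 0 ∨ i = 1 ∨ i = -1) ∧ vl v (t - i) ≤ vl v (1 - w) := by
  obtain ⟨a, ha⟩ := Sym1Aux.exists_approx v ht
  obtain ⟨α, hα⟩ := io_surj_KF a
  obtain ⟨q, i, hi, e⟩ : ∃ q i : ℤ, (i = 0 ∨ i = 1 ∨ i = -1) ∧ α.re = 3 * q + i - α.im :=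
    ⟨(α.re + α.im + 1) / 3, (α.re + α.im + 1) % 3 - 1, by omega, by omega⟩
  refine ⟨i, hi, disc_KF v hv _ ?_⟩
  have e2 : t - i = (t - a) + (q * 3 - α.im * (1 - w)) := by
    rw [← hα, io_apply, e]
    push_cast
    ring
  rw [e2]
  exact Valuation.map_add_lt _ ha (Valuation.map_sub_lt _ (mul_lt_KF v _ (val_three_KF v hv))
    (mul_lt_KF v _ (val_one_sub_lt hw hv)))

theorem cop_KF {n : ℤ} (h : ¬(3 : ℤ) ∣ n) : ∃ x y : ℤ, x * n + y * 3 = 1 :=
  ((Int.prime_three.coprime_iff_not_dvd).2 h).symm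

theorem good_KF (v : Pr KK) (hv : ¬Tm 3 v) (α : Zw) : vl v (io α) < 1 ↔ ¬Good α := by
  have h1 := mul_lt_KF v α.im (val_one_sub_lt hw hv)
  rw [Good, not_not]
  constructor
  · intro h
    by_contra hc
    obtain ⟨x, y, e⟩ := cop_KF hc
    have e' : (1 : KK) = x * (io α + α.im * (1 - w)) + y * 3 := by
      have : ((x * (α.re + α.im) + y * 3 : ℤ) : KK) = 1 := by rw [e]; simp
      push_cast at this
      rw [io_apply]
      linear_combination -this
    have := Valuation.map_add_lt _ (mul_lt_KF v x (Valuation.map_add_lt _ h h1))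
      (mul_lt_KF v y (val_three_KF v hv))
    rw [← e', map_one] at this
    exact lt_irrefl _ this
  · rintro ⟨q, hq⟩
    have e' : io α = q * 3 - α.im * (1 - w) := by
      have : ((α.re + α.im : ℤ) : KK) = ((3 * q : ℤ) : KK) := by rw [hq]
      push_cast at this
      rw [io_apply]
      linear_combination this
    rw [e']
    exact Valuation.map_sub_lt _ (mul_lt_KF v _ (val_three_KF v hv)) h1

theorem nonunit_KF (α : Zw) (h : ¬IsUnit α) : ∃ v : Pr KK, vl v (io α) < 1 := by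
  obtain ⟨a, ha⟩ := io_int_KF α
  have hu : ¬IsUnit a := fun hu => by
    obtain ⟨b, hb⟩ := hu.exists_right_inv
    obtain ⟨β, hβ⟩ := io_surj_KF b
    refine h (IsUnit.of_mul_eq_one β (io_inj_KF ?_))
    rw [map_mul, map_one, hβ, ← ha]
    exact_mod_cast congrArg (fun z : 𝓞 KK => (z : KK)) hb
  obtain ⟨M, hM, hle⟩ := Ideal.exists_le_maximal (Ideal.span {a})
    (fun e => hu (Ideal.span_singleton_eq_top.1 e))
  have hb : M ≠ ⊥ := Ring.ne_bot_of_isMaximal_of_not_isField hM (RingOfIntegers.not_isField KK)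
  refine ⟨⟨M, hM.isPrime, hb⟩, ?_⟩
  rw [← ha]
  exact (Sym1Aux.val_int_lt _ a).2 (hle (Ideal.mem_span_singleton_self a))

theorem wild_KF : ∃ v : Pr KK, ¬Tm 3 v := by
  have h : ¬IsUnit th := fun h => by
    have h2 : IsUnit (nw th) := h.map QuadraticAlgebra.norm
    rw [nw_th_KF, Int.isUnit_iff] at h2
    omega
  obtain ⟨v, hv⟩ := nonunit_KF th h
  refine ⟨v, fun ht => ?_⟩
  rw [io_th, show vl v (1 - w) = 1 from Sym1Aux.val_tame hw ht] at hv
  exact lt_irrefl _ hv

theorem coprime_KF (a : Zw) (h : Good a) : IsCoprime a th := by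
  obtain ⟨x, y, e⟩ := cop_KF h
  refine ⟨(x : Zw), (x : Zw) * (a.im : Zw) + (y : Zw) * (2 + ω), io_inj_KF ?_⟩
  have : ((x * (a.re + a.im) + y * 3 : ℤ) : KK) = 1 := by rw [e]; simp
  push_cast at this
  simp only [map_add, map_mul, map_intCast, map_one, io_th, io_omega, map_ofNat]
  rw [io_apply]
  linear_combination this - (y : KK) * w_rel

theorem good_mul_KF (a b : Zw) : Good (a * b) ↔ Good a ∧ Good b := by
  have e : (a * b).re + (a * b).im = (a.re + a.im) * (b.re + b.im) - 3 * (a.im * b.im) := by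
    simp only [re_mul, im_mul]
    ring
  rw [Good, Good, Good, e, dvd_sub_left (dvd_mul_right _ _), Int.prime_three.dvd_mul, not_or]

theorem kf : KFStmt := by
  refine ⟨io_inj_KF, io_surj_KF, io_le_KF, fun v => ?_,
    fun v hv => ⟨disc_KF v hv, res_KF v hv, good_KF v hv⟩, nonunit_KF, wild_KF, coprime_KF,
    good_mul_KF⟩
  obtain ⟨l, h1, h2, h3⟩ := gen_KF v
  refine ⟨l, ?_, h2, h3⟩
  rw [ord, show v.valuation KK (io l) = _ from h1, WithZero.log_exp, neg_neg]

end Pool.Agent.MP_adc87d_lc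

end
end

section

/-! Multiples of a point in the kernel of reduction. -/

set_option autoImplicit false

noncomputable section

namespace Pool.Agent.MP_adc87d_lc

open QuadraticAlgebra NumberField IsDedekindDomain
open Pool.Agent.MP_14ad9d_nt.Full
open Pool.Agent.MP_e23604_nt (Zw nw)

theorem vl_w_Z (v : Pr KK) : vl v w = 1 := by
  have h : vl v w ^ 3 = 1 := by rw [← map_pow, w_cube, map_one]
  exact (pow_eq_one_iff_of_nonneg zero_le (by norm_num : (3 : ℕ) ≠ 0)).1 h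

theorem zc_zero_Z : zc (0 : MM) = 0 := by simp [zc, px_zero]

theorem zc_neg_Z (R : MM) : zc (-R) = -zc R := by
  simp only [zc, px_neg, py_neg, div_neg]

theorem zc_om_Z (R : MM) : zc (om R) = w * zc R := by
  simp only [zc, px_om, py_om, mul_div_assoc]

theorem E1_neg_Z {v : Pr KK} {R : MM} (h : E1 v R) : E1 v (-R) := by
  rcases h with h | h
  · exact .inl (by rw [h, neg_zero])
  · exact .inr (by rwa [px_neg])

theorem E1_om_Z {v : Pr KK} {R : MM} (h : E1 v R) : E1 v (om R) := by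
  rcases h with h | h
  · exact .inl (by rw [h, map_zero])
  · exact .inr (by rwa [px_om, map_mul, vl_w_Z, one_mul])

/-- the local parameter of a point is close to a given value -/
def Q_Z (v : Pr KK) (r : WithZero (Multiplicative ℤ)) (R : MM) (t : KK) : Prop :=
  E1 v R ∧ vl v (zc R - t) ≤ r ^ 7 ∧ vl v t ≤ r

theorem Q_zero_Z (v : Pr KK) (r : WithZero (Multiplicative ℤ)) : Q_Z v r 0 0 :=
  ⟨.inl rfl, by simp [zc_zero_Z], by simp⟩

theorem Q_neg_Z {v : Pr KK} {r : WithZero (Multiplicative ℤ)} {R : MM} {t : KK}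
    (h : Q_Z v r R t) : Q_Z v r (-R) (-t) := by
  refine ⟨E1_neg_Z h.1, ?_, by rw [Valuation.map_neg]; exact h.2.2⟩
  have : zc (-R) - -t = -(zc R - t) := by rw [zc_neg_Z]; ring
  rw [this, Valuation.map_neg]
  exact h.2.1

theorem Q_add_Z (h1 : L1Stmt) {v : Pr KK} {r : WithZero (Multiplicative ℤ)} (hr : r ≤ 1)
    {R S : MM} {t u : KK} (h : Q_Z v r R t) (h' : Q_Z v r S u) : Q_Z v r (R + S) (t + u) := by
  have h7 : r ^ 7 ≤ r := pow_le_of_le_one zero_le hr (by norm_num)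
  have key : ∀ {R : MM} {t : KK}, Q_Z v r R t → vl v (zc R) ≤ r := fun {R t} h => by
    have : zc R = (zc R - t) + t := by ring
    rw [this]
    exact Valuation.map_add_le _ (h.2.1.trans h7) h.2.2
  obtain ⟨a, b⟩ := (h1 v).2.2 R S r h.1 h'.1 (key h) (key h')
  refine ⟨a, ?_, Valuation.map_add_le _ h.2.2 h'.2.2⟩
  have : zc (R + S) - (t + u) = (zc (R + S) - zc R - zc S) + ((zc R - t) + (zc S - u)) := by ring
  rw [this]
  exact Valuation.map_add_le _ b (Valuation.map_add_le _ h.2.1 h'.2.1)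

theorem Q_int_Z (h1 : L1Stmt) {v : Pr KK} {r : WithZero (Multiplicative ℤ)} (hr : r ≤ 1)
    {R : MM} {t : KK} (h : Q_Z v r R t) (n : ℤ) : Q_Z v r (n • R) (n * t) := by
  induction n using Int.induction_on with
  | zero => simpa using Q_zero_Z v r
  | succ i ih =>
    have := Q_add_Z h1 hr ih h
    rw [add_zsmul, one_zsmul]
    convert this using 1
    push_cast; ring
  | pred i ih =>
    have := Q_add_Z h1 hr ih (Q_neg_Z h)
    rw [sub_zsmul, one_zsmul, sub_eq_add_neg]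
    convert this using 1
    push_cast; ring

theorem Q_smul_Z (h1 : L1Stmt) {v : Pr KK} {S : MM} (h : E1 v S) (a : Zw) :
    Q_Z v (vl v (zc S)) (a • S) (io a * zc S) := by
  have hr : vl v (zc S) ≤ 1 := ((h1 v).1 S h).le
  have q1 : Q_Z v (vl v (zc S)) S (zc S) := ⟨h, by simp, le_rfl⟩
  have q2 : Q_Z v (vl v (zc S)) (om S) (w * zc S) :=
    ⟨E1_om_Z h, by simp [zc_om_Z], by rw [map_mul, vl_w_Z, one_mul]⟩
  have := Q_add_Z h1 hr (Q_int_Z h1 hr q1 a.re) (Q_int_Z h1 hr q2 a.im)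
  rw [smul_def, io_apply]
  convert this using 1
  ring

theorem near_val_Z {v : Pr KK} {x : KK} (h : vl v (x - 1) < 1) : vl v x = 1 := by
  have : x = 1 + (x - 1) := by ring
  rw [this]
  exact Valuation.map_one_add_of_lt _ h

theorem near_mul_Z {v : Pr KK} {x y : KK} (h : vl v (x - 1) < 1) (h' : vl v (y - 1) < 1) :
    vl v (x * y - 1) < 1 := by
  have : x * y - 1 = x * (y - 1) + (x - 1) := by ring
  rw [this]
  refine Valuation.map_add_lt _ ?_ h
  rwa [map_mul, near_val_Z h, one_mul]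

theorem near_ne_Z {v : Pr KK} {x : KK} (h : vl v (x - 1) < 1) : x ≠ 0 := by
  rintro rfl
  simp at h

theorem near_inv_Z {v : Pr KK} {x : KK} (h : vl v (x - 1) < 1) : vl v (x⁻¹ - 1) < 1 := by
  have h0 := near_ne_Z h
  have : x⁻¹ - 1 = -(x - 1) * x⁻¹ := by field_simp; ring
  rw [this, map_mul, Valuation.map_neg, map_inv₀, near_val_Z h, inv_one, mul_one]
  exact h

theorem base_Z (h1 : L1Stmt) {v : Pr KK} {S : MM} (h : E1 v S) (hS : S ≠ 0) {a : Zw}
    (ha : io a ≠ 0) (ho : ord v (io a) ≤ 1) : vl v (zc (a • S) / (io a * zc S) - 1) < 1 := by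
  have hz := ((h1 v).2.1 S hS h).1
  have hr := (h1 v).1 S h
  have hq := (Q_smul_Z h1 h a).2.1
  have e : zc (a • S) / (io a * zc S) - 1 = (zc (a • S) - io a * zc S) / (io a * zc S) := by
    field_simp
  have p1 : vl v (io a) ≠ 0 := (Valuation.ne_zero_iff _).2 ha
  have p2 : vl v (zc S) ≠ 0 := (Valuation.ne_zero_iff _).2 hz
  rw [e, map_div₀, map_mul, div_lt_one₀ (zero_lt_iff.2 (mul_ne_zero p1 p2))]
  refine hq.trans_lt ?_
  unfold ord at ho
  change -WithZero.log (vl v (io a)) ≤ 1 at ho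
  rw [← WithZero.exp_log p2, ← WithZero.exp_zero, WithZero.exp_lt_exp] at hr
  rw [← WithZero.exp_log p1, ← WithZero.exp_log p2, ← WithZero.exp_nsmul, ← WithZero.exp_add,
    WithZero.exp_lt_exp]
  simp only [nsmul_eq_mul, Nat.cast_ofNat]
  omega

theorem all_Z (hK : KFStmt) (h1 : L1Stmt) {v : Pr KK} {S : MM} (h : E1 v S) (hS : S ≠ 0) (n : ℕ) :
    ∀ a : Zw, a ≠ 0 → ord v (io a) ≤ n → vl v (zc (a • S) / (io a * zc S) - 1) < 1 := by
  have inj : ∀ a : Zw, a ≠ 0 → io a ≠ 0 := fun a ha => (map_ne_zero_iff io hK.1).2 ha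
  induction n with
  | zero => exact fun a ha ho => base_Z h1 h hS (inj a ha) (ho.trans (by norm_num))
  | succ n ih =>
    intro a ha ho
    by_cases hb : ord v (io a) ≤ 1
    · exact base_Z h1 h hS (inj a ha) hb
    obtain ⟨l, l1, -, l2⟩ := hK.2.2.2.1 v
    have p1 : vl v (io a) ≠ 0 := (Valuation.ne_zero_iff _).2 (inj a ha)
    have hlt : vl v (io a) < 1 := by
      unfold ord at hb
      change ¬ -WithZero.log (vl v (io a)) ≤ 1 at hb
      rw [← WithZero.exp_log p1, ← WithZero.exp_zero, WithZero.exp_lt_exp]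
      omega
    obtain ⟨b, rfl⟩ := l2 a hlt
    have hl : l ≠ 0 := left_ne_zero_of_mul ha
    have hb0 : b ≠ 0 := right_ne_zero_of_mul ha
    rw [map_mul, ord_mul v (inj l hl) (inj b hb0), l1] at ho
    have i1 := ih b hb0 (by push_cast at ho; omega)
    have z1 : zc (b • S) ≠ 0 := by
      have := near_ne_Z i1
      exact fun e => this (by rw [e, zero_div])
    have s1 : b • S ≠ 0 := fun e => z1 (by rw [e, zc_zero_Z])
    have i2 := base_Z h1 (Q_smul_Z h1 h b).1 s1 (inj l hl) l1.le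
    have := near_mul_Z i2 i1
    rw [mul_smul, map_mul]
    convert this using 3
    have := inj l hl
    have := inj b hb0
    have := ((h1 v).2.1 S hS h).1
    field_simp

theorem zst (hK : KFStmt) (h1 : L1Stmt) : ZStmt := by
  intro v S h a
  have hE := (Q_smul_Z h1 h a).1
  refine ⟨hE, fun hS ha => ?_⟩
  have i1 := all_Z hK h1 h hS (ord v (io a)).toNat a ha (Int.self_le_toNat _)
  have z1 : zc (a • S) ≠ 0 := by
    have := near_ne_Z i1
    exact fun e => this (by rw [e, zero_div])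
  have s1 : a • S ≠ 0 := fun e => z1 (by rw [e, zc_zero_Z])
  refine ⟨s1, ?_⟩
  obtain ⟨z0, p0⟩ := (h1 v).2.1 S hS h
  obtain ⟨-, p1⟩ := (h1 v).2.1 _ s1 hE
  have x0 : px S ≠ 0 := left_ne_zero_of_mul (near_ne_Z p0)
  have a0 : io a ≠ 0 := (map_ne_zero_iff io hK.1).2 ha
  have := near_mul_Z (near_mul_Z p1 (near_inv_Z p0)) (near_mul_Z (near_inv_Z i1) (near_inv_Z i1))
  convert this using 3
  field_simp

end Pool.Agent.MP_adc87d_lc

end
end

section

/-! The tame primes. -/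

set_option autoImplicit false

noncomputable section

namespace Pool.Agent.MP_adc87d_lc

open QuadraticAlgebra NumberField IsDedekindDomain
open Pool.Agent.MP_14ad9d_nt.Full
open Pool.Agent.MP_e23604_nt (Zw nw)

theorem near_Pr {v : Pr KK} (hv : Tm 3 v) {U : KK} (h : vl v (U - 1) < 1) :
    U ≠ 0 ∧ ord v U = 0 ∧ chi 3 w v U = 0 := by
  have h' : vl v (1 - U) < 1 := Sym1Aux.val_symm _ h
  have a1 : vl v U = 1 := Sym1Aux.val_eq_one_of _ (map_one _) h'
  have a0 : U ≠ 0 := by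
    rintro rfl
    simp at a1
  exact ⟨a0, (Sym1Aux.val_eq_one_iff v a0).1 a1,
    (chi_congr hw hv one_ne_zero (ord_one v) h').trans (Sym1Aux.chi_one hw hv)⟩

theorem sq_Pr {v : Pr KK} (hv : Tm 3 v) {B : KK} (hB : B ≠ 0) (h : ord v B = 0) :
    chi 3 w v (B ^ 2) = 2 * chi 3 w v B := by
  rw [sq, chi_mul hw hv hB hB h h, two_mul]

theorem one_Pr {v : Pr KK} (hv : Tm 3 v) {A B : KK} (hA : A ≠ 0) (hB : B ≠ 0)
    (h : vl v (A * B ^ 2 - 1) < 1) : (ord v A : ZMod 3) = ord v B ∧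
      (ord v B = 0 → ord v A = 0 ∧ chi 3 w v A = chi 3 w v B) := by
  obtain ⟨-, h1, h2⟩ := near_Pr hv h
  rw [ord_mul v hA (pow_ne_zero _ hB), ord_pow] at h1
  have e : ord v A = ord v B - 3 * ord v B := by push_cast at h1; omega
  have h3 : (3 : ZMod 3) = 0 := rfl
  refine ⟨by rw [e]; push_cast; rw [h3]; ring, fun h0 => ?_⟩
  have e0 : ord v A = 0 := by omega
  refine ⟨e0, ?_⟩
  rw [chi_mul hw hv hA (pow_ne_zero _ hB) e0 (by rw [ord_pow, h0, mul_zero]), sq_Pr hv hB h0] at h2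
  linear_combination h2 - chi 3 w v B * h3

theorem two_Pr {v : Pr KK} (hv : Tm 3 v) {A B u : KK} (hA : A ≠ 0) (hB : B ≠ 0)
    (hu : vl v (u - 1) < 1) (h : vl v (u * (B / A) ^ 2 - 1) < 1) :
    (ord v A : ZMod 3) = ord v B ∧
      (ord v B = 0 → ord v A = 0 ∧ chi 3 w v A = chi 3 w v B) := by
  obtain ⟨-, h1, h2⟩ := near_Pr hv h
  obtain ⟨u0, u1, u2⟩ := near_Pr hv hu
  have hC : B / A ≠ 0 := div_ne_zero hB hA
  rw [ord_mul v u0 (pow_ne_zero _ hC), ord_pow, u1] at h1
  have c0 : ord v (B / A) = 0 := by push_cast at h1; omega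
  rw [chi_mul hw hv u0 (pow_ne_zero _ hC) u1 (by rw [ord_pow, c0, mul_zero]), u2,
    sq_Pr hv hC c0] at h2
  have eB : B = B / A * A := (div_mul_cancel₀ B hA).symm
  have e : ord v B = ord v A := by
    have := ord_mul v hC hA
    rw [← eB, c0, zero_add] at this
    exact this
  have h3 : (3 : ZMod 3) = 0 := rfl
  refine ⟨by rw [e], fun h0 => ⟨by omega, ?_⟩⟩
  have := chi_mul hw hv hC hA c0 (by omega)
  rw [← eB] at this
  rw [this]
  linear_combination h2 - chi 3 w v (B / A) * h3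

theorem sixteen_Pr {v : Pr KK} (h : vl v 2 = 1) : vl v 16 = 1 := by
  have : (16 : KK) = 2 ^ 4 := by norm_num
  rw [this, map_pow, h, one_pow]

theorem cube_Pr {v : Pr KK} (h : vl v 2 = 1) {x : KK} (hx : vl v x < 1) :
    vl v (x ^ 3 - 16) = 1 := by
  refine Sym1Aux.val_eq_one_of _ (x := -16) (by rw [Valuation.map_neg, sixteen_Pr h]) ?_
  have : (-16 : KK) - (x ^ 3 - 16) = -x ^ 3 := by ring
  rw [this, Valuation.map_neg, map_pow]
  exact pow_lt_one₀ zero_le hx (by norm_num)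

theorem valth_Pr (h2 : L2Stmt) {v : Pr KK} (hv : Tm 3 v) {R : MM} (hR : px R ≠ 0) :
    vl v (px (th • R)) * vl v (px R) ^ 2 = vl v (px R ^ 3 - 16) := by
  have t : vl v (1 - w) = 1 := Sym1Aux.val_tame hw hv
  have x0 : vl v (px R) ≠ 0 := (Valuation.ne_zero_iff _).2 hR
  rw [(h2.2.1 R hR).2, map_div₀, map_mul, map_pow, map_pow, t, one_pow, one_mul,
    div_mul_cancel₀ _ (pow_ne_zero _ x0)]

theorem up_Pr (h2 : L2Stmt) {v : Pr KK} (hv : Tm 3 v) (h : vl v 2 = 1) {R : MM} (hR : px R ≠ 0)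
    (hx : vl v (px R) < 1) : E1 v (th • R) := by
  have e := valth_Pr h2 hv hR
  rw [cube_Pr h hx] at e
  refine .inr (lt_of_not_ge fun c => ?_)
  have a : vl v (px R) ^ 2 < 1 := pow_lt_one₀ zero_le hx (by norm_num)
  exact absurd e (ne_of_lt (lt_of_le_of_lt (mul_le_of_le_one_left' c) a))

theorem down_Pr (h2 : L2Stmt) {v : Pr KK} (hv : Tm 3 v) (h : vl v 2 = 1) {R : MM}
    (hR : px R ≠ 0) (hn : ¬E1 v R) (hE : E1 v (th • R)) : vl v (px R) < 1 := by
  have le : vl v (px R) ≤ 1 := le_of_not_gt fun c => hn (.inr c)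
  refine lt_of_le_of_ne le fun c => ?_
  have e := valth_Pr h2 hv hR
  rw [c, one_pow, mul_one] at e
  have g := hE.resolve_left (h2.2.1 R hR).1
  rw [e] at g
  refine absurd g (not_lt.2 ?_)
  refine (vl v).map_sub_le ?_ (sixteen_Pr h).le
  rw [map_pow, c, one_pow]

theorem pr (hK : KFStmt) (h2 : L2Stmt) (hZ : ZStmt) : PrStmt := by
  intro P hP
  obtain ⟨k1, -, k3, -, -, k6, -, k8, -⟩ := hK
  have i2 : io 2 = 2 := map_ofNat io 2
  have n2 : ¬IsUnit (2 : Zw) := by
    intro hu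
    obtain ⟨u, hu⟩ := hu.exists_right_inv
    have e : (u + u).re = 1 := by rw [← two_mul, hu]; rfl
    rw [re_add] at e
    omega
  have ne : ∀ a : Zw, a ≠ 0 → px (a • P) ≠ 0 := fun a ha => by
    obtain ⟨v, hv⟩ := k6 2 n2
    rw [i2] at hv
    obtain ⟨e1, e2⟩ := hZ v P (.inr (hP.two v hv)) a
    have g := e1.resolve_left (e2 hP.ne ha).1
    intro c
    rw [c, map_zero] at g
    exact absurd g (not_lt.2 zero_le)
  have p0 : px P ≠ 0 := by simpa using ne 1 one_ne_zero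
  have cm : ∀ a : Zw, a • th • P = th • a • P := fun a => smul_comm a th P
  refine ⟨ne, fun v hv => ?_⟩
  have t2 : ¬E1 v P → vl v 2 = 1 := fun hn =>
    le_antisymm (i2 ▸ k3 v 2) (le_of_not_gt fun c => hn (.inr (hP.two v c)))
  refine ⟨fun a ha hn => ?_, fun hE a ha => ?_⟩
  · rw [cm] at hn
    have n1 : ¬E1 v (a • P) := fun c => hn (hZ v _ c th).1
    have n0 : ¬E1 v P := fun c => n1 (hZ v _ c a).1
    refine (Sym1Aux.val_eq_one_iff v (ne a ha)).1 (le_antisymm (le_of_not_gt fun c => n1 (.inr c))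
      (le_of_not_gt fun c => hn (up_Pr h2 hv (t2 n0) (ne a ha) c)))
  · have a0 : a ≠ 0 := by
      rintro rfl
      exact ha (by simp)
    have b0 : io a ≠ 0 := fun c => a0 (k1 (c.trans (map_zero io).symm))
    have q0 : Vq P a ≠ 0 := div_ne_zero (ne a a0) p0
    by_cases hn : E1 v P
    · exact one_Pr hv q0 b0 ((hZ v P hn a).2 hP.ne a0).2
    have t := t2 hn
    have x1 := down_Pr h2 hv t p0 hn hE
    have n1 : ¬E1 v (a • P) := fun c => by
      obtain ⟨p, q, e⟩ := k8 a ha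
      obtain ⟨s0, s1⟩ := h2.1 v P ((-q) • th • P) hP.ne x1.le (hZ v _ hE (-q)).1
      have e2 : P + (-q) • th • P = p • a • P := by
        rw [smul_smul, smul_smul]
        nth_rewrite 1 [← one_smul Zw P]
        rw [← add_smul]
        congr 1
        linear_combination -e
      rw [e2] at s0 s1
      have g := (hZ v _ c p).1.resolve_left s0
      have e3 : px (p • a • P) = px (p • a • P) - px P + px P := by ring
      rw [e3] at g
      exact absurd g (not_lt.2 ((vl v).map_add_lt s1 x1).le)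
    obtain ⟨z1, z2⟩ := hZ v _ hE a
    have z3 := (z2 (h2.2.1 P p0).1 a0).2
    rw [cm] at z1 z3
    have y1 := down_Pr h2 hv t (ne a a0) n1 z1
    have c1 := cube_Pr t x1
    have d0 : px P ^ 3 - 16 ≠ 0 := fun c => by simp [c] at c1
    have w0 : (1 : KK) - w ≠ 0 := sub_ne_zero.2 (hw.ne_one (by norm_num)).symm
    have y0 := ne a a0
    refine two_Pr hv q0 b0 (u := (px (a • P) ^ 3 - 16) / (px P ^ 3 - 16)) ?_ ?_
    · have e : (px (a • P) ^ 3 - 16) / (px P ^ 3 - 16) - 1 =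
          (px (a • P) ^ 3 - px P ^ 3) / (px P ^ 3 - 16) := by
        field_simp
        ring
      rw [e, map_div₀, c1, div_one]
      refine (vl v).map_sub_lt ?_ ?_ <;> rw [map_pow]
      · exact pow_lt_one₀ zero_le y1 (by norm_num)
      · exact pow_lt_one₀ zero_le x1 (by norm_num)
    · rw [(h2.2.1 _ y0).2, (h2.2.1 _ p0).2] at z3
      have e : (px (a • P) ^ 3 - 16) / (px P ^ 3 - 16) * (io a / Vq P a) ^ 2 =
          (px (a • P) ^ 3 - 16) / ((1 - w) ^ 2 * px (a • P) ^ 2) /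
            ((px P ^ 3 - 16) / ((1 - w) ^ 2 * px P ^ 2)) * io a ^ 2 := by
        rw [Vq]
        field_simp
      rw [e]
      exact z3

end Pool.Agent.MP_adc87d_lc

end
end

section

/-! Coprimality and invariance of the cubic symbol. -/

set_option autoImplicit false

noncomputable section

namespace Pool.Agent.MP_adc87d_lc

open QuadraticAlgebra NumberField IsDedekindDomain
open Pool.Agent.MP_14ad9d_nt.Full
open Pool.Agent.MP_e23604_nt (Zw nw)

theorem ne_Inv {a : Zw} (h : Good a) : a ≠ 0 := by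
  rintro rfl
  exact h (by simp)

theorem good_Inv {a : Zw} (h : Good a) (c : Zw) : Good (a + th * c) := by
  intro e
  apply h
  have : (a + th * c).re + (a + th * c).im = a.re + a.im + 3 * c.im := by
    simp [th, re_mul, im_mul]
    ring
  rw [this] at e
  exact (dvd_add_left (dvd_mul_right 3 _)).1 e

theorem add_Inv (h2 : L2Stmt) {v : Pr KK} {R S : MM} (hR : E1 v R) (hS : E1 v S) :
    E1 v (R + S) := by
  by_contra h
  have h0 : R + S ≠ 0 := fun e => h (.inl e)
  have h1 : vl v (px (R + S)) ≤ 1 := not_lt.1 fun e => h (.inr e)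
  have hS' : E1 v (-S) := hS.imp (fun e => by rw [e, neg_zero]) fun e => by rwa [px_neg]
  obtain ⟨a, b⟩ := h2.1 v _ _ h0 h1 hS'
  rw [add_neg_cancel_right] at a b
  have c : vl v (px R) ≤ 1 := by
    have e : px R = px R - px (R + S) + px (R + S) := by ring
    rw [e]
    exact (vl v).map_add_le b.le h1
  exact absurd (hR.resolve_left a) (not_lt.2 c)

theorem loc_Inv (hK : KFStmt) (h2 : L2Stmt) (hZ : ZStmt) (hP : PrStmt) {P : MM} (hS : Std P)
    {a b : Zw} (ha : Good a) (hb : Good b) (hab : IsCoprime a b) {v : Pr KK} (hv : Tm 3 v) :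
    ord v (Vq P b) = 0 ∨ (ord v (Vq P a) = 0 ∧
      ∀ k : Zw, chi 3 w v (Vq P (a + th * k * b)) = chi 3 w v (Vq P a)) := by
  obtain ⟨hne, hpr⟩ := hP P hS
  obtain ⟨p1, p2⟩ := hpr v hv
  obtain ⟨p, q, hpq⟩ := hab
  have ion : ∀ c : Zw, c ≠ 0 → io c ≠ 0 := fun c hc e => hc (hK.1 (e.trans (map_zero io).symm))
  have iole := hK.2.2.1 v
  by_cases hE : E1 v (th • P)
  · by_cases h0 : ord v (io b) = 0
    · exact .inl ((p2 hE b hb).2 h0).1
    have b1 : vl v (io b) < 1 := lt_of_le_of_ne (iole b) fun e =>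
      h0 ((Sym1Aux.val_eq_one_iff v (ion b (ne_Inv hb))).1 e)
    have mul : ∀ c d : Zw, vl v (io d) < 1 → vl v (io (c * d)) < 1 := fun c d h => by
      rw [map_mul, map_mul]
      exact mul_lt_one_of_nonneg_of_lt_one_right (iole c) zero_le h
    have a1 : vl v (io a) = 1 := by
      refine le_antisymm (iole a) (not_lt.1 fun h => ?_)
      have := (vl v).map_add_lt (mul p a h) (mul q b b1)
      rw [← map_add, hpq, map_one, map_one] at this
      exact lt_irrefl _ this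
    have a0 := (Sym1Aux.val_eq_one_iff v (ion a (ne_Inv ha))).1 a1
    refine .inr ⟨((p2 hE a ha).2 a0).1, fun k => ?_⟩
    have g : Good (a + th * k * b) := by
      rw [mul_assoc]
      exact good_Inv ha _
    have d : vl v (io a - io (a + th * k * b)) < 1 := by
      rw [map_add, sub_add_cancel_left, Valuation.map_neg]
      exact mul _ b b1
    have c0 := (Sym1Aux.val_eq_one_iff v (ion _ (ne_Inv g))).1 (Sym1Aux.val_eq_one_of _ a1 d)
    rw [((p2 hE _ g).2 c0).2, ((p2 hE a ha).2 a0).2]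
    exact chi_congr hw hv (ion a (ne_Inv ha)) a0 d
  · have n1 : px P ≠ 0 := by simpa using hne 1 one_ne_zero
    have o1 : ord v (px P) = 0 := by simpa using p1 1 one_ne_zero (by rwa [one_smul])
    have oq : ∀ c : Zw, c ≠ 0 → ¬E1 v (c • th • P) → ord v (Vq P c) = 0 := fun c hc h => by
      rw [Vq, div_eq_mul_inv, ord_mul v (hne c hc) (inv_ne_zero n1), ord_inv, p1 c hc h, o1]
      simp
    by_cases hB : E1 v (b • th • P)
    swap
    · exact .inl (oq b (ne_Inv hb) hB)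
    have hA : ¬E1 v (a • th • P) := fun h => hE (by
      have := add_Inv h2 (hZ v _ h p).1 (hZ v _ hB q).1
      rwa [smul_smul p, smul_smul q, ← add_smul, hpq, one_smul] at this)
    refine .inr ⟨oq a (ne_Inv ha) hA, fun k => ?_⟩
    have na := hne a (ne_Inv ha)
    have a1 := (Sym1Aux.val_eq_one_iff v na).2 (p1 a (ne_Inv ha) hA)
    have e : (a + th * k * b) • P = a • P + k • b • th • P := by
      rw [add_smul, smul_smul, smul_smul]
      congr 2
      ring
    have d := (h2.1 v (a • P) _ (fun h => na (by rw [h, px_zero])) a1.le (hZ v _ hB k).1).2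
    refine chi_congr hw hv (div_ne_zero na n1) (oq a (ne_Inv ha) hA) ?_
    unfold Vq
    rw [← sub_div, map_div₀, (Sym1Aux.val_eq_one_iff v n1).2 o1, div_one, e]
    exact Sym1Aux.val_symm _ d

theorem inv (hK : KFStmt) (h2 : L2Stmt) (hZ : ZStmt) (hP : PrStmt) : InvStmt := by
  intro P hS a b ha hb hab
  refine ⟨fun v hv => ?_, fun k => ?_⟩
  · exact (loc_Inv hK h2 hZ hP hS ha hb hab hv).symm.imp And.left id
  · refine finsum_congr fun v => ?_
    rcases loc_Inv hK h2 hZ hP hS ha hb hab v.2 with h | h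
    · simp [h]
    · rw [h.2 k]

end Pool.Agent.MP_adc87d_lc

end
end

section

set_option autoImplicit false

namespace Pool.Agent.MP_adc87d_lc

open QuadraticAlgebra NumberField IsDedekindDomain
open Pool.Agent.MP_14ad9d_nt.Full
open Pool.Agent.MP_e23604_nt

theorem fin_J (A B : KK) : Function.HasFiniteSupport fun v : {v : Pr KK // Tm 3 v} =>
    (ord v.1 B : ZMod 3) * chi 3 w v.1 A :=
  ((ord_finite B).preimage (f := fun v : {v : Pr KK // Tm 3 v} => v.1)
    Subtype.val_injective.injOn).subset fun v hv e => hv (by simp [e])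

theorem cop_J (hK : KFStmt) {a b : Zw} (h : IsCoprime a b) (v : Pr KK) (hb : vl v (io b) < 1) :
    vl v (io a) = 1 := by
  refine le_antisymm (hK.2.2.1 v a) (not_lt.1 fun ha => ?_)
  obtain ⟨s, t, e⟩ := h
  have e1 : vl v (io s * io a + io t * io b) < 1 := Valuation.map_add_lt _
    (by rw [map_mul]; exact mul_lt_one_of_nonneg_of_lt_one_right (hK.2.2.1 v s) zero_le ha)
    (by rw [map_mul]; exact mul_lt_one_of_nonneg_of_lt_one_right (hK.2.2.1 v t) zero_le hb)
  rw [← map_mul, ← map_mul, ← map_add, e, map_one, map_one] at e1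
  exact lt_irrefl _ e1

theorem key_J {n p q : ℤ} (p0 : 0 ≤ p) (p1 : p < n) (q0 : 0 ≤ q) (q1 : q < n)
    (h : p ≠ 0 ∨ q ≠ 0) (c : ℤ) : ∃ s t : ℤ, 3 ∣ s + t + c ∧
      (p - n * s) ^ 2 - (p - n * s) * (q - n * t) + (q - n * t) ^ 2 < n ^ 2 := by
  have hc : c % 3 = 0 ∨ c % 3 = 1 ∨ c % 3 = 2 := by omega
  rcases le_total p q with e | e
  · have := mul_pos (show 0 < q by omega) (sub_pos.2 q1)
    have := mul_nonneg p0 (sub_nonneg.2 e)
    have := mul_nonneg (sub_nonneg.2 q1.le) (sub_nonneg.2 e)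
    have := mul_nonneg p0 (sub_nonneg.2 q1.le)
    rcases hc with k | k | k
    · exact ⟨0, 0, by omega, by nlinarith⟩
    · exact ⟨1, 1, by omega, by nlinarith⟩
    · exact ⟨0, 1, by omega, by nlinarith⟩
  · have := mul_pos (show 0 < p by omega) (sub_pos.2 p1)
    have := mul_nonneg q0 (sub_nonneg.2 e)
    have := mul_nonneg (sub_nonneg.2 p1.le) (sub_nonneg.2 e)
    have := mul_nonneg q0 (sub_nonneg.2 p1.le)
    rcases hc with k | k | k
    · exact ⟨0, 0, by omega, by nlinarith⟩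
    · exact ⟨1, 1, by omega, by nlinarith⟩
    · exact ⟨1, 0, by omega, by nlinarith⟩

theorem div_J (a b : Zw) (hb : b ≠ 0) (h : ¬b ∣ a) : ∃ k : Zw, nw (a + th * k * b) < nw b := by
  have hn : 0 < nw b := (nw_nonneg b).lt_of_ne fun e => hb (nw_eq_zero e.symm)
  obtain ⟨s, t, ⟨y, hy⟩, e⟩ := key_J (Int.emod_nonneg (a * star b).re hn.ne')
    (Int.emod_lt_of_pos _ hn) (Int.emod_nonneg (a * star b).im hn.ne') (Int.emod_lt_of_pos _ hn)
    (by
      by_contra e
      rw [not_or, not_not, not_not] at e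
      have := intCast_dvd (Int.dvd_of_emod_eq_zero e.1) (Int.dvd_of_emod_eq_zero e.2)
      rw [← mul_star_eq] at this
      exact h ((mul_dvd_mul_iff_right (star_ne_zero.2 hb)).1 this))
    ((a * star b).re / nw b + (a * star b).im / nw b)
  refine ⟨⟨y - s - (a * star b).re / nw b, -y⟩, lt_of_mul_lt_mul_right ?_ hn.le⟩
  rw [← sq]
  refine lt_of_eq_of_lt ?_ e
  rw [show ∀ z, nw z * nw b = nw (z * star b) from fun z => by rw [nw_mul, nw_star], add_mul,
    mul_assoc, mul_star_eq, nw_def, Int.emod_def, Int.emod_def]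
  obtain rfl : t = 3 * y - s - ((a * star b).re / nw b + (a * star b).im / nw b) := by omega
  generalize a * star b = r
  simp [th]
  ring

theorem jst (hK : KFStmt) : JStmt := by
  have ne : ∀ {a : Zw}, a ≠ 0 → io a ≠ 0 := fun ha e => ha (hK.1 (e.trans (map_zero io).symm))
  have lt : ∀ {b : Zw} (v : Pr KK), b ≠ 0 → ord v (io b) ≠ 0 → vl v (io b) < 1 :=
    fun v hb e => (hK.2.2.1 v _).lt_of_ne fun e' => e ((Sym1Aux.val_eq_one_iff v (ne hb)).1 e')
  refine ⟨fun A B hA hB h => ?_, fun a b k hb h => finsum_congr fun v => ?_,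
    fun a b ha hb h v => ?_, div_J, fun b ⟨u, hu⟩ => ?_⟩
  · rw [Jc, Jc, ← finsum_sub_distrib (fin_J A B) (fin_J B A)]
    refine finsum_congr fun v => ?_
    rcases h v.1 v.2 with e | e
    · rw [tame_unit (by norm_num) hw v.2 hA e, e]
      simp
    · rw [tame_swap (by norm_num) hw v.2 hB hA, tame_unit (by norm_num) hw v.2 hB e, e]
      simp
  · by_cases e : ord v.1 (io b) = 0
    · simp [e]
    have h1 := lt v.1 hb e
    have h2 := cop_J hK h v.1 h1
    have h3 : io a ≠ 0 := fun e => by simp [e] at h2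
    rw [chi_congr hw v.2 h3 ((Sym1Aux.val_eq_one_iff _ h3).1 h2) (y := io (a + k * b))]
    rw [map_add, sub_add_cancel_left, Valuation.map_neg, map_mul, map_mul]
    exact mul_lt_one_of_nonneg_of_lt_one_right (hK.2.2.1 _ k) zero_le h1
  · exact or_iff_not_imp_right.2 fun e =>
      (Sym1Aux.val_eq_one_iff v (ne ha)).1 (cop_J hK h v (lt v hb e))
  · have h : nw b = 1 := Int.eq_one_of_mul_eq_one_right (nw_nonneg b) (b := nw (u⁻¹ : Zwˣ)) (by
      rw [← nw_mul, ← hu, u.mul_inv]; rfl)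
    clear hu
    rw [nw_def] at h
    obtain ⟨x, y⟩ := b
    simp only at h
    have hy1 : y ≤ 1 := by nlinarith [sq_nonneg (2 * x - y)]
    have hy2 : -1 ≤ y := by nlinarith [sq_nonneg (2 * x - y)]
    have hx1 : x ≤ 1 := by nlinarith [sq_nonneg (2 * y - x)]
    have hx2 : -1 ≤ x := by nlinarith [sq_nonneg (2 * y - x)]
    interval_cases x <;> interval_cases y <;> simp at h
    exacts [⟨2, by decide⟩, ⟨0, by decide⟩, ⟨1, by decide⟩, ⟨1, by decide⟩, ⟨0, by decide⟩,
      ⟨2, by decide⟩]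

end Pool.Agent.MP_adc87d_lc

end

section

/-! The value of the cubic symbol, by the Euclidean algorithm. -/

set_option autoImplicit false

namespace Pool.Agent.MP_adc87d_lc

open QuadraticAlgebra NumberField IsDedekindDomain
open Pool.Agent.MP_14ad9d_nt.Full
open Pool.Agent.MP_e23604_nt (Zw nw nw_nonneg)

theorem jc_Euc (A : KK) {B : KK} (h : ∀ v : Pr KK, ord v B = 0) : Jc A B = 0 := by
  simp [Jc, h]

theorem ordw_Euc (v : Pr KK) (e : ℕ) : ord v (w ^ e) = 0 := by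
  have := ord_pow v w 3
  rw [w_cube, ord_one] at this
  rw [ord_pow, show ord v w = 0 by omega, mul_zero]

theorem pxw_Euc (P : MM) (e : ℕ) : px (((ω : Zw) ^ e) • P) = w ^ e * px P := by
  induction e with
  | zero => simp
  | succ e ih => rw [pow_succ', mul_smul, omega_smul, px_om, ih]; ring

theorem ne_Euc {a : Zw} (h : Good a) : a ≠ 0 := fun e => h (by simp [e])

theorem good_Euc {a : Zw} (h : Good a) (c : Zw) : Good (a + th * c) := fun e => h (by
  have : (a + th * c).re + (a + th * c).im = a.re + a.im + 3 * c.im := by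
    simp [th]
    ring
  omega)

theorem euc (hK : KFStmt) (hP : PrStmt) (hI : InvStmt) (h3 : L3Stmt) (hW : WildStmt)
    (hJ : JStmt) : EucStmt := by
  intro P hS a b
  have p0 := (hP P hS).1
  have p1 : px P ≠ 0 := by simpa using p0 1 one_ne_zero
  have v0 : ∀ c, Good c → Vq P c ≠ 0 := fun c h => div_ne_zero (p0 c (ne_Euc h)) p1
  have i0 : ∀ c, Good c → io c ≠ 0 := fun c h => (map_ne_zero_iff _ hK.1).2 (ne_Euc h)
  induction hn : (nw b).natAbs using Nat.strong_induction_on generalizing a b with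
  | _ n ih =>
  intro ha hb hab
  by_cases hu : IsUnit b
  · obtain ⟨e, he⟩ := hJ.2.2.2.2 b hu
    have e1 : Vq P b = w ^ e := by
      rcases he with rfl | rfl
      · rw [Vq, pxw_Euc, mul_div_cancel_right₀ _ p1]
      · rw [Vq, neg_smul, px_neg, pxw_Euc, mul_div_cancel_right₀ _ p1]
    rw [e1, jc_Euc _ fun v => ordw_Euc v e, jc_Euc, mul_zero]
    intro v
    rcases he with rfl | rfl
    · rw [map_pow, io_omega, ordw_Euc]
    · rw [map_neg, ord_neg, map_pow, io_omega, ordw_Euc]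
  obtain ⟨k, hk⟩ := hJ.2.2.2.1 a b (ne_Euc hb) fun e => hu (hab.isUnit_of_dvd' e dvd_rfl)
  have hg : Good (a + th * k * b) := mul_assoc th k b ▸ good_Euc ha _
  have hc : IsCoprime (a + th * k * b) b := hab.add_mul_right_left _
  have e1 := ih (nw (a + th * k * b)).natAbs (by
    have := nw_nonneg (a + th * k * b)
    omega) b _ rfl hb hg hc.symm
  have e2 := hJ.1 _ _ (v0 _ hg) (v0 _ hb) (hI P hS _ _ hg hb hc).1
  have e3 := hJ.1 _ _ (i0 _ hg) (i0 _ hb) fun v _ => hJ.2.2.1 _ _ (ne_Euc hg) (ne_Euc hb) hc v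
  have e4 := hW _ _ _ _ (h3 P hS.ne hS.three _ hg).2 (h3 P hS.ne hS.three _ hb).2
  have e5 := (hI P hS a b ha hb hab).2 k
  have e6 := hJ.2.1 a b (th * k) (ne_Euc hb) hab
  linear_combination e1 - e2 + e4 + 2 * e3 - e5 + 2 * e6

end Pool.Agent.MP_adc87d_lc

end
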