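import Mathlib
import Pool.Agent.Mg.Fadc87d.G0908ea

set_option linter.all false

/-! The cells for the variance bound. -/

set_option autoImplicit false

noncomputable section

open Finset
open scoped Classical

namespace Pool.Agent.MP_adc87d_lc.Big

open Pool.Agent.MP_2a1f0e_nt (ex)

/-- the cells in the norm -/
def I_CUpA (V : ℝ) (n : ℕ) (j : Fin n) (N : ℝ) : Prop :=
  V * (1 + (j : ℕ) / n) < N ∧ N ≤ V * (1 + ((j : ℕ) + 1) / n)

theorem ex_CUpA {V N : ℝ} {n : ℕ} (hV : 0 < V) (hn : 0 < n) (h1 : V < N) (h2 : N ≤ 2 * V) :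
    ∃ j : Fin n, I_CUpA V n j N := by
  have n0 : (0 : ℝ) < n := by exact_mod_cast hn
  obtain ⟨u, hu⟩ : ∃ u, u = (N / V - 1) * n := ⟨_, rfl⟩
  have e : N = V * (1 + u / n) := by rw [hu]; field_simp; ring
  have a1 : 0 < u := hu ▸ mul_pos (sub_pos.2 ((one_lt_div hV).2 h1)) n0
  have a2 : u ≤ n := hu ▸ mul_le_of_le_one_left n0.le (by
    have := (div_le_iff₀ hV).2 h2
    linarith)
  obtain ⟨j, hj⟩ : ∃ j, ⌈u⌉₊ = j + 1 := Nat.exists_eq_succ_of_ne_zero (Nat.ceil_pos.2 a1).ne'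
  have a3 := Nat.ceil_le.2 a2
  have a4 := Nat.le_ceil u
  have a5 : (j : ℝ) < u := Nat.lt_ceil.1 (by omega)
  rw [hj] at a4
  push_cast at a4
  refine ⟨⟨j, by omega⟩, ?_, ?_⟩ <;> rw [e] <;> gcongr

theorem uniq_CUpA {V N : ℝ} {n : ℕ} (hV : 0 < V) {i j : Fin n} (h1 : I_CUpA V n i N)
    (h2 : I_CUpA V n j N) : i = j := by
  have n0 : (0 : ℝ) < n := by exact_mod_cast i.pos
  have key : ∀ {i j : Fin n}, I_CUpA V n i N → I_CUpA V n j N → i.val < j.val + 1 := by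
    intro i j h1 h2
    have a := lt_of_mul_lt_mul_left (h1.1.trans_le h2.2) hV.le
    rw [add_lt_add_iff_left, div_lt_div_iff_of_pos_right n0] at a
    exact_mod_cast a
  have a := key h1 h2
  have b := key h2 h1
  exact Fin.ext (by omega)

theorem rg_CUpA {V N : ℝ} {n : ℕ} (hV : 0 < V) {j : Fin n} (h : I_CUpA V n j N) :
    V < N ∧ N ≤ 2 * V := by
  have n0 : (0 : ℝ) < n := by exact_mod_cast j.pos
  have a : ((j : ℕ) + 1 : ℝ) / n ≤ 1 := (div_le_one n0).2 (by exact_mod_cast j.2)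
  have b : (0 : ℝ) ≤ (j : ℕ) / n := by positivity
  exact ⟨by nlinarith [h.1], by nlinarith [h.2]⟩

theorem cl_CUpA {V N N' : ℝ} {n : ℕ} (hV : 0 < V) {j : Fin n} (h : I_CUpA V n j N)
    (h' : I_CUpA V n j N') : |N - N'| ≤ 2 / n * V := by
  have e : V * (1 + ((j : ℕ) + 1) / n) = V * (1 + (j : ℕ) / n) + 1 / n * V := by ring
  have e' : 2 / n * V = 2 * (1 / n * V) := by ring
  have a : 0 ≤ 1 / n * V := by positivity
  rw [abs_le]
  constructor <;> linarith [h.1, h.2, h'.1, h'.2]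

theorem ff0_CUpA (h2 : SplitStmt) {x : O} (hx : 0 < xr x) (h : ¬Prim (vec x)) (k : ℕ) (z w : ℝ) :
    ff k z w x = 0 := by
  rw [ff, dd, if_neg, if_neg fun a : Rough z x => h a.2.1, sub_zero]
  exact fun a => h ((h2 _ a.1).2.2.2 x (Int.natAbs_of_nonneg (Nm_pos hx).le).symm).2.1

theorem ffb_CUpA {x : O} (hx : 0 < xr x) {G w V : ℝ} (h : (Nm x : ℝ) ≤ V) (h1 : Real.log V ≤ G)
    (h2 : 0 ≤ w ∧ w ≤ G) (k : ℕ) (z : ℝ) : |ff k z w x| ≤ G := by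
  have n1 : (1 : ℝ) ≤ Nm x := by exact_mod_cast Nm_pos hx
  have a := Real.log_nonneg n1
  have b := Real.log_le_log (by linarith) h
  rw [ff, dd, abs_le]
  constructor <;> split_ifs <;> linarith [h2.1, h2.2]

theorem proj_CUpA {q u : ℕ} {F : O → ℂ} {T : (Fin 3 → ℤ) → ℂ} (h1 : Proj q F) (h2 : ProjV u T) :
    Proj (q * u) fun x => F x * T (vec x) := by
  refine ⟨fun x y h => ?_, fun n x h => ?_, fun x => ?_⟩
  · rw [Nat.cast_mul] at h
    have a := (O.natCast_dvd u _).1 ((dvd_mul_left _ _).trans h)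
    simp only
    rw [h1.1 x y ((dvd_mul_right _ _).trans h), h2.1 (vec x) (vec y) fun i => ?_]
    fin_cases i
    · simpa [vec_apply] using a.1
    · simpa [vec_apply] using a.2.1
    · simpa [vec_apply] using a.2.2
  · rw [Nat.cast_mul] at h
    simp only
    rw [h1.2.1 n x h.of_mul_right_left, vec_int_mul, h2.2.1 n _ h.of_mul_right_right]
  · rw [norm_mul]
    exact mul_le_one₀ (h1.2.2 x) (norm_nonneg _) (h2.2.2 _)

theorem cupa (h1 : SzStmt) (h2 : SplitStmt) (h3 : PartStmt) (h4 : VarStmt) : UpAStmt := by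
  intro k q T c hq hc
  obtain ⟨s, hs, z1, z2, -⟩ := h1 (T + 1)
  have c1 : 1 ≤ s ^ 2 := one_le_pow₀ hs
  have c2 : 1 ≤ c ^ 2 := one_le_pow₀ hc
  have c3 : 1 ≤ s ^ 2 * c ^ 2 := one_le_mul_of_one_le_of_one_le c1 c2
  obtain ⟨C, hC, hv⟩ := h4 (2 * (s ^ 2 * c ^ 2)) (by linarith)
  obtain ⟨D, hD⟩ : ∃ D, D = 34 * (s ^ 2 * c ^ 2) * s ^ 2 := ⟨_, rfl⟩
  obtain ⟨E, hE⟩ : ∃ E : ℝ, E = (2 * T + 1) ^ 2 * (16 * s ^ 4 * c ^ 2) := ⟨_, rfl⟩
  have d1 : 34 * s ^ 2 ≤ D := by nlinarith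
  have e0 : 0 ≤ C * E := by rw [hE]; positivity
  refine ⟨D + C * E, by linarith, fun Y z K Q G η n w hY hn hK hQ hη hG hw ht => ?_⟩
  obtain ⟨h₁, a, h₂, p1, p2, p3, p4⟩ := h3 T n hn
  have y0 : D ≤ Y := by linarith
  have y1 : 1 ≤ Y := by linarith
  have y2 : 0 < Y := by linarith
  have v0 : 0 < Y ^ 18 := by positivity
  have n0 : 0 < n := by omega
  have g0 : 0 ≤ G := (hw ⟨0, n0⟩).1.trans (hw ⟨0, n0⟩).2
  let J : ℤ → Fin n := fun m => if h : ∃ j, I_CUpA (Y ^ 18) n j m then h.choose else ⟨0, n0⟩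
  have j1 : ∀ x ∈ Rg (T + 1) (Y ^ 18) (2 * Y ^ 18), I_CUpA (Y ^ 18) n (J (Nm x)) (Nm x) := by
    intro x hx
    have h := ex_CUpA v0 n0 (mem_Rg.1 hx).2.2.1 (mem_Rg.1 hx).2.2.2
    simp only [J, dif_pos h]
    exact h.choose_spec
  refine ⟨fun m => w (J m), fun x => ∑ i, h₁ i (eta x), fun m => ⟨_, rfl⟩, fun x =>
    ⟨sum_nonneg fun i _ => ((p1 i).1.1 _).1, (p2 _).2⟩, fun P R hP hR => ?_⟩
  let A := (Rg (T + 1) (Y ^ 18) (2 * Y ^ 18)).filter fun x => Prim (vec x)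
  let f : Fin n × Fin (2 * T * n + 1) × Fin n → O → ℝ := fun i x =>
    if J (Nm x) = i.1 then (if P x then ff k z (w (J (Nm x))) x else 0) *
      (h₁ i.2.1 (eta x) * h₂ i.2.2 (ang x)) else 0
  have f1 : ∀ (t : ℝ → ℝ) (x : O), t 0 = 0 → (∀ a b, 0 ≤ b → t (a * b) = t a * b) →
      ∑ i, t (f i x) = t (if P x then ff k z (w (J (Nm x))) x else 0) * ∑ i, h₁ i (eta x) := by
    intro t x t0 t1
    simp only [f, apply_ite t, t0, Fintype.sum_prod_type]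
    rw [sum_eq_single (J (Nm x)) (fun j _ hj => by simp [hj.symm]) (by simp), mul_sum]
    refine sum_congr rfl fun i _ => ?_
    simp only [if_true, t1 _ _ (mul_nonneg ((p1 i).1.1 _).1 ((p3 _).1.1 _).1), ← mul_sum, p4,
      mul_one, apply_ite t, t0]
  have y6 : 1 ≤ Y ^ 6 := one_le_pow₀ y1
  have h5 := hv (2 * s * Y ^ 6) (c * Y ^ 10) K Q G (1 / n) η _ (A.map vec.toEmbedding) R
    (fun i v => f i (vec.symm v)) (by nlinarith) ?_ hK hQ g0 (by positivity) hη ?_ ?_ ?_ ?_ ?_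
  · refine le_trans (le_of_eq (sum_congr rfl fun r _ => ?_)) (h5.trans ?_)
    · congr 1
      rw [sum_filter, sum_filter, sum_map, sum_filter]
      refine sum_congr rfl fun x hx => ?_
      have h6 := f1 id x rfl fun _ _ _ => rfl
      simp only [id] at h6
      simp only [Equiv.coe_toEmbedding, Equiv.symm_apply_apply, h6]
      by_cases b1 : Prim (vec x)
      · by_cases b2 : r ⬝ᵥ vec x = 0 <;> by_cases b3 : P x <;> simp [b1, b2, b3]
      · simp [b1, ff0_CUpA h2 (mem_Rg.1 hx).1 b1]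
    · obtain ⟨N, hN⟩ : ∃ N : ℝ, N = (Fintype.card (Fin n × Fin (2 * T * n + 1) × Fin n) : ℝ) ^ 2 :=
        ⟨_, rfl⟩
      have n1 : (1 : ℝ) ≤ n := by exact_mod_cast n0
      have t0 : (0 : ℝ) ≤ T := T.cast_nonneg
      have b1 : N ≤ (2 * T + 1) ^ 2 * n ^ 6 := by
        rw [hN, show ((2 * T + 1) ^ 2 * n ^ 6 : ℝ) = (n * (((2 * T + 1) * n) * n)) ^ 2 by ring]
        simp only [Fintype.card_prod, Fintype.card_fin]
        push_cast
        gcongr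
        linarith
      have b2 : (1 : ℝ) ≤ (2 * T + 1) ^ 2 := one_le_pow₀ (by linarith)
      have b3 : 16 * s ^ 4 * c ≤ 16 * s ^ 4 * c ^ 2 := by gcongr; nlinarith
      have b4 : 4 * s ^ 2 * c ^ 2 ≤ 16 * s ^ 4 * c ^ 2 := by gcongr <;> norm_num
      have b5 : 2 * s * c ≤ 16 * s ^ 4 * c ^ 2 :=
        le_trans (by gcongr; norm_num; exact le_self_pow₀ hs (by norm_num)) b3
      have b6 : 0 ≤ N := hN ▸ sq_nonneg _
      rw [← hN]
      generalize (2 * (T : ℝ) + 1) ^ 2 = L at *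
      have k0 : 0 < K := by linarith
      have q0 : 0 < Q := by linarith
      calc _ = C * (16 * s ^ 4 * c * (G ^ 2 * Y ^ 34 * (1 * (1 / K + K ^ 2 / n) + N * (K / Q))) +
            1 * (4 * s ^ 2 * c ^ 2) * (G ^ 2 * Y ^ 32) +
            N * (2 * s * c) * (K * Q ^ 4 * η * G * Y ^ 16)) := by ring
        _ ≤ C * (16 * s ^ 4 * c ^ 2 * (G ^ 2 * Y ^ 34 *
              (L * (1 / K + K ^ 2 / n) + L * n ^ 6 * (K / Q))) +
            L * (16 * s ^ 4 * c ^ 2) * (G ^ 2 * Y ^ 32) +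
            L * n ^ 6 * (16 * s ^ 4 * c ^ 2) * (K * Q ^ 4 * η * G * Y ^ 16)) := by gcongr
        _ = C * E * (G ^ 2 * Y ^ 34 * (1 / K + K ^ 2 / n + (n : ℝ) ^ 6 * K / Q) + G ^ 2 * Y ^ 32 +
            (n : ℝ) ^ 6 * K * Q ^ 4 * η * G * Y ^ 16) := by rw [hE]; ring
        _ ≤ _ := by gcongr; linarith
  · have b1 : Y ≤ Y ^ 4 := le_self_pow₀ y1 (by norm_num)
    have b2 : s ≤ s ^ 2 := le_self_pow₀ hs (by norm_num)
    calc 2 * s * Y ^ 6 ≤ Y ^ 4 * Y ^ 6 := mul_le_mul_of_nonneg_right (by linarith) (by positivity)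
      _ = 1 * Y ^ 10 := by ring
      _ ≤ _ := by gcongr
  · have b1 : 4 * (2 * (s ^ 2 * c ^ 2)) * (2 * s * Y ^ 6) ^ 2 / (c * Y ^ 10) =
        32 * (s ^ 2 * c ^ 2) * s ^ 2 * Y ^ 2 / c := by field_simp; ring
    have b2 : 1 ≤ Y ^ 2 := one_le_pow₀ y1
    have b3 : 1 ≤ (s ^ 2 * c ^ 2) * s ^ 2 * Y ^ 2 :=
      one_le_mul_of_one_le_of_one_le (one_le_mul_of_one_le_of_one_le c3 c1) b2
    have b4 := div_le_self (a := 32 * (s ^ 2 * c ^ 2) * s ^ 2 * Y ^ 2) (by positivity) hc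
    rw [b1]
    calc _ ≤ (D * Y ^ 2) ^ 2 := by gcongr; rw [hD]; linarith
      _ ≤ (Y * Y ^ 2) ^ 2 := by gcongr; exact mul_nonneg (by linarith) (by positivity)
      _ = 1 * Y ^ 6 := by ring
      _ ≤ _ := by gcongr; linarith
  · intro β hβ
    obtain ⟨x, hx, rfl⟩ := mem_map.1 hβ
    obtain ⟨hx, b0⟩ := mem_filter.1 hx
    obtain ⟨b1, b2, b3, b4⟩ := mem_Rg.1 hx
    obtain ⟨b5, b6, -⟩ := z1 x b1 b2
    simp only [Equiv.coe_toEmbedding, Equiv.symm_apply_apply]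
    refine ⟨b0, ?_, le_of_pow_le_pow_left₀ three_ne_zero (by positivity) (b6.trans ?_), ?_⟩
    · have b7 : Y ^ 6 ≤ s * ‖vec x‖ := le_of_pow_le_pow_left₀ three_ne_zero (by positivity)
        (by rw [← pow_mul]; exact b3.le.trans b5)
      rw [div_le_iff₀ (by positivity)]
      calc 2 * s * Y ^ 6 ≤ 2 * s * (s * ‖vec x‖) := by gcongr
        _ = ‖vec x‖ * (2 * (s ^ 2 * 1)) := by ring
        _ ≤ _ := by gcongr
    · calc s ^ 3 * (Nm x : ℝ) ≤ s ^ 3 * (8 * Y ^ 18) := by gcongr; linarith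
        _ = _ := by ring
    · rw [f1 abs x abs_zero fun a b hb => by rw [abs_mul, abs_of_nonneg hb]]
      refine (mul_le_of_le_one_right (abs_nonneg _) (p2 _).1).trans ?_
      split_ifs
      · exact ffb_CUpA b1 b4 hG (hw _) k z
      · rwa [abs_zero]
  · refine fun r hr => ⟨(hR r hr).1, le_trans ?_ (hR r hr).2.1, (hR r hr).2.2⟩
    rw [div_le_div_iff₀ (by positivity) (by positivity)]
    calc c * Y ^ 10 * c = Y ^ 10 * (1 * (1 * c ^ 2)) := by ring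
      _ ≤ _ := by gcongr; norm_num
  · intro i β hβ γ hγ b1 b2
    obtain ⟨x, hx, rfl⟩ := mem_map.1 hβ
    obtain ⟨y, hy, rfl⟩ := mem_map.1 hγ
    replace hx := (mem_filter.1 hx).1
    replace hy := (mem_filter.1 hy).1
    simp only [Equiv.coe_toEmbedding, Equiv.symm_apply_apply, f, ne_eq, ite_eq_right_iff,
      Classical.not_imp, mul_eq_zero, not_or] at b1 b2 ⊢
    obtain ⟨j, hj⟩ := (p3 i.2.2).2 _ _ b1.2.2.2 b2.2.2.2
    have x1 := mem_Rg.1 hx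
    have x2 := mem_Rg.1 hy
    have e : (Y ^ 6) ^ 3 = Y ^ 18 := by ring
    refine (z2 x y (Y ^ 6) (2 / n) j (by positivity) x1.1 x2.1 x1.2.1 x2.2.1 (e ▸ x1.2.2.1.le)
      (e ▸ x1.2.2.2) (e ▸ x2.2.2.1.le) (e ▸ x2.2.2.2)
      (e ▸ cl_CUpA v0 (b1.1 ▸ j1 x hx) (b2.1 ▸ j1 y hy))
      ((p1 i.2.1).2.2.2 _ _ b1.2.2.1 b2.2.2.1) hj).trans (le_of_eq ?_)
    ring
  · rintro ⟨j, i, i'⟩ u F hu hu' hF
    refine le_trans (le_of_eq (congrArg _ ?_)) (ht j (q * u) _ (h₁ i) (h₂ i') (a i)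
      (Nat.mul_pos hq hu) (by push_cast; gcongr) (proj_CUpA hP hF) (p1 i).1 (p3 i').1)
    have m1 : ∀ m : ℕ, m ∈ Ioc ⌊Y ^ 18 * (1 + (j : ℕ) / n)⌋₊ ⌊Y ^ 18 * (1 + ((j : ℕ) + 1) / n)⌋₊ ↔
        I_CUpA (Y ^ 18) n j m := fun m => by
      rw [mem_Ioc, Nat.floor_lt (by positivity), Nat.le_floor_iff (by positivity), I_CUpA]
    rw [← sum_biUnion fun m _ m' _ hm => disjoint_left.2 fun x b1 b2 =>
      hm (Int.ofNat_inj.1 ((mem_Dn.1 b1).2.symm.trans (mem_Dn.1 b2).2)), sum_map]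
    have m2 : ∀ x, x ∈ (Ioc ⌊Y ^ 18 * (1 + (j : ℕ) / n)⌋₊
        ⌊Y ^ 18 * (1 + ((j : ℕ) + 1) / n)⌋₊).biUnion (Dn (a i)) ↔
        Dm (a i) x ∧ I_CUpA (Y ^ 18) n j (Nm x) := fun x => by
      simp only [mem_biUnion, m1, mem_Dn]
      refine ⟨fun ⟨m, b1, b2, b3⟩ => ⟨b2, by rw [b3]; exact_mod_cast b1⟩, fun b =>
        ⟨(Nm x).natAbs, ?_, b.1, (Int.natAbs_of_nonneg (Nm_pos b.1.1).le).symm⟩⟩
      rw [Nat.cast_natAbs, abs_of_pos (Nm_pos b.1.1)]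
      exact b.2
    simp only [Equiv.coe_toEmbedding, Equiv.symm_apply_apply]
    refine sum_congr_of_eq_on_inter (fun x b1 b2 => ?_) (fun x b1 b2 => ?_) fun x b1 b2 => ?_
    · replace b1 := (mem_filter.1 b1).1
      by_cases b3 : J (Nm x) = j
      · have b4 : h₁ i (eta x) = 0 := by
          by_contra b4
          have b5 := (p1 i).1.2.2 _ b4
          exact b2 ((m2 x).2 ⟨⟨(mem_Rg.1 b1).1, by linarith [b5.1], by linarith [b5.2]⟩,
            b3 ▸ j1 x b1⟩)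
        simp [f, b4]
      · simp [f, b3]
    · obtain ⟨b3, b4⟩ := (m2 x).1 b1
      have b5 := rg_CUpA v0 b4
      rw [ff0_CUpA h2 b3.1 fun b6 => b2 (mem_filter.2 ⟨mem_Rg.2 ⟨b3.1, abs_le.2
        ⟨by linarith [b3.2.1, (p1 i).2.1], by linarith [b3.2.2, (p1 i).2.2.1]⟩, b5⟩, b6⟩)]
      simp
    · have b3 : J (Nm x) = j := uniq_CUpA v0 (j1 x (mem_filter.1 b1).1) ((m2 x).1 b2).2
      simp only [f, b3, if_true]
      split_ifs
      · push_cast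
        ring
      · simp

end Pool.Agent.MP_adc87d_lc.Big
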