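import Mathlib
import Pool.Agent.Mg.Fadc87d.G2faaf0

set_option linter.all false

section

/-! The contribution of the prime above three to the cubic reciprocity sum. -/

set_option autoImplicit false

noncomputable section

namespace Pool.Agent.MP_adc87d_lc

open QuadraticAlgebra NumberField IsDedekindDomain
open Pool.Agent.MP_14ad9d_nt.Full
open Pool.Agent.MP_14ad9d_nt.Full.R0Aux
open Pool.Agent.MP_e23604_nt (Zw nw)

instance galois_Wild : IsGalois ℚ KK := IsCyclotomicExtension.isGalois {3} ℚ KK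

theorem h3_Wild : 2 < 3 := by norm_num

theorem p_ne_Wild : (1 - w) ≠ 0 := sub_ne_zero.2 (hw.ne_one (by norm_num)).symm

theorem vw_Wild (v : Pr KK) : vl v w = 1 := Sym1Aux.val_root _ (by norm_num) w_cube

theorem v3_Wild (v : Pr KK) : vl v 3 = vl v (1 - w) ^ 2 := by
  have := val_ell hw v
  simpa using this

/-- congruent to one above three -/
def U_Wild (k : ℕ) (x : KK) : Prop := ∀ v : Pr KK, ¬Tm 3 v → vl v (x - 1) ≤ vl v (1 - w) ^ k

theorem near_Wild {k : ℕ} {x : KK} (h : U_Wild k x) : Near 3 w k x :=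
  ⟨1, one_ne_zero, fun v t => by simpa using h v t⟩

theorem val_U_Wild {k : ℕ} (hk : k ≠ 0) {x : KK} (h : U_Wild k x) {v : Pr KK} (t : ¬Tm 3 v) :
    vl v x = 1 :=
  Sym1Aux.val_eq_one_of _ (map_one _) (Sym1Aux.val_symm _
    ((h v t).trans_lt (pow_lt_one' (val_one_sub_lt hw t) hk)))

theorem ne_U_Wild (hK : KFStmt) {k : ℕ} (hk : k ≠ 0) {x : KK} (h : U_Wild k x) : x ≠ 0 := by
  obtain ⟨v, t⟩ := hK.2.2.2.2.2.2.1
  intro e
  have := val_U_Wild hk h t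
  rw [e, map_zero] at this
  exact zero_ne_one this

theorem uniq_Wild (hK : KFStmt) {v v' : Pr KK} (t : ¬Tm 3 v) (t' : ¬Tm 3 v') : v' = v := by
  by_contra h
  obtain ⟨l, h1, h2, -⟩ := hK.2.2.2.1 v
  have l0 : io l ≠ 0 := fun e => by simp [e, ord] at h1
  have a := ((hK.2.2.2.2.1 v t).2.2 l).1 ((Sym1Aux.val_lt_one_iff v l0).2 (by omega))
  have b := (Sym1Aux.val_lt_one_iff v' l0).1 (((hK.2.2.2.2.1 v' t').2.2 l).2 a)
  have := h2 v' h
  omega

theorem st_Wild (t : KK) (h : 1 - w * t ^ 3 ≠ 0) : Phi 3 w w (1 - w * t ^ 3) = 0 := by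
  rcases eq_or_ne t 0 with rfl | t0
  · simpa using Phi_ell_right h3_Wild hw w_ne one_ne_zero
  have := Phi_steinberg h3_Wild hw (mul_ne_zero w_ne (pow_ne_zero 3 t0))
    fun e => h (by rw [e, sub_self])
  rwa [Phi_mul_left h3_Wild hw w_ne (pow_ne_zero 3 t0) h, Phi_ell_left h3_Wild hw t0 h,
    add_zero] at this

theorem key_Wild (hK : KFStmt) {B : KK} (hB : U_Wild 3 B) : Phi 3 w w B = 0 := by
  obtain ⟨v, t⟩ := hK.2.2.2.2.2.2.1
  have B0 := ne_U_Wild hK (by norm_num) hB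
  have p3 := pow_ne_zero 3 p_ne_Wild
  have pp : 0 < vl v (1 - w) ^ 3 := pow_pos ((Valuation.pos_iff _).2 p_ne_Wild) 3
  obtain ⟨i, hi, h1⟩ := (hK.2.2.2.2.1 v t).2.1 ((B - 1) / (1 - w) ^ 3) (by
    rw [map_div₀, map_pow, div_le_one₀ pp]; exact hB v t)
  have i3 : (i : KK) ^ 3 = i := by rcases hi with rfl | rfl | rfl <;> norm_num
  have vi : vl v i ≤ 1 := by rcases hi with rfl | rfl | rfl <;> simp
  have hC : U_Wild 3 (1 - w * (-(i : KK) * (1 - w)) ^ 3) := fun v' t' => by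
    rw [uniq_Wild hK t t', show 1 - w * (-(i : KK) * (1 - w)) ^ 3 - 1 = w * i * (1 - w) ^ 3 by
      linear_combination w * (1 - w) ^ 3 * i3, map_mul, map_mul, vw_Wild, one_mul, map_pow]
    exact mul_le_of_le_one_left' vi
  have C0 := ne_U_Wild hK (by norm_num) hC
  have hD : U_Wild 4 (B / (1 - w * (-(i : KK) * (1 - w)) ^ 3)) := fun v' t' => by
    rw [uniq_Wild hK t t', div_sub_one C0, map_div₀, val_U_Wild (by norm_num) hC t, div_one,
      show B - (1 - w * (-(i : KK) * (1 - w)) ^ 3) =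
        (1 - w) ^ 3 * (((B - 1) / (1 - w) ^ 3 - i) + (1 - w) * i) by
          linear_combination -w * (1 - w) ^ 3 * i3 - mul_div_cancel₀ (B - 1) p3, map_mul, map_pow, pow_succ _ 3]
    refine mul_le_mul_right (Valuation.map_add_le _ h1 ?_) _
    rw [map_mul]
    exact mul_le_of_le_one_right' vi
  have := r1 h3_Wild finrank_KK hw w_ne (div_ne_zero B0 C0) (near_Wild hD)
  rwa [Phi_div_right h3_Wild hw w_ne B0 C0, st_Wild _ C0, sub_zero] at this

theorem bil_Wild (hK : KFStmt) {x y : KK} (hx : U_Wild 2 x) (hy : U_Wild 2 y) (e f : ℕ) :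
    Phi 3 w (w ^ e * x) (w ^ f * y) = e * Phi 3 w w y - f * Phi 3 w w x := by
  have x0 := ne_U_Wild hK (by norm_num) hx
  have y0 := ne_U_Wild hK (by norm_num) hy
  have we := pow_ne_zero e w_ne
  have wf := pow_ne_zero f w_ne
  rw [Phi_mul_left h3_Wild hw we x0 (mul_ne_zero wf y0),
    Phi_pow_left h3_Wild hw w_ne (mul_ne_zero wf y0), Phi_mul_right h3_Wild hw w_ne wf y0,
    Phi_swap h3_Wild hw wf w_ne, Phi_pow_left h3_Wild hw w_ne w_ne, Phi_self h3_Wild hw,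
    Phi_mul_right h3_Wild hw x0 wf y0, Phi_swap h3_Wild hw wf x0,
    Phi_pow_left h3_Wild hw w_ne x0,
    r2 h3_Wild finrank_KK hw x0 y0 (near_Wild hx) (near_Wild hy)]
  ring

theorem norm_Wild (hK : KFStmt) {a : Zw} {A : KK} (h : Cl a A) :
    ∃ (e : ℕ) (x X : KK), (io a = w ^ e * x ∨ io a = -(w ^ e * x)) ∧ A = w ^ e * X ∧
      U_Wild 2 x ∧ U_Wild 2 X ∧ Phi 3 w w X = 2 * Phi 3 w w x := by
  obtain ⟨e, s, k, hs, ha, hA⟩ := h
  have we := pow_ne_zero e w_ne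
  obtain ⟨κ, hκ⟩ : ∃ κ, io k = w ^ e * κ := ⟨io k / w ^ e, (mul_div_cancel₀ _ we).symm⟩
  obtain ⟨X, rfl⟩ : ∃ X, A = w ^ e * X := ⟨A / w ^ e, (mul_div_cancel₀ _ we).symm⟩
  have vκ : ∀ v, vl v κ ≤ 1 := fun v => by
    have := hK.2.2.1 v k
    rwa [hκ, map_mul, map_pow, vw_Wild, one_pow, one_mul] at this
  have v3κ : ∀ v, vl v (3 * κ) ≤ vl v (1 - w) ^ 2 := fun v => by
    rw [map_mul, v3_Wild]
    exact mul_le_of_le_one_right' (vκ v)
  have hX : ∀ v, ¬Tm 3 v → vl v (X - (1 - 3 * κ)) ≤ vl v (1 - w) ^ 3 := fun v t => by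
    have := hA v t
    rwa [hκ, show w ^ e * X - (w ^ e - 3 * (w ^ e * κ)) = w ^ e * (X - (1 - 3 * κ)) by ring,
      map_mul, map_pow, vw_Wild, one_pow, one_mul] at this
  have ux : U_Wild 2 (1 + 3 * κ) := fun v _ => by
    rw [add_sub_cancel_left]
    exact v3κ v
  have uX : U_Wild 2 X := fun v t => by
    rw [show X - 1 = X - (1 - 3 * κ) - 3 * κ by ring]
    exact Valuation.map_sub_le _ ((hX v t).trans
      (pow_le_pow_right_of_le_one' (val_one_sub_lt hw t).le (by norm_num))) (v3κ v)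
  have x0 := ne_U_Wild hK (by norm_num) ux
  have X0 := ne_U_Wild hK (by norm_num) uX
  have x2 := pow_ne_zero 2 x0
  have uq : U_Wild 3 (X / (1 + 3 * κ) ^ 2) := fun v t => by
    rw [div_sub_one x2, map_div₀, map_pow, val_U_Wild (by norm_num) ux t, one_pow, div_one,
      show X - (1 + 3 * κ) ^ 2 = X - (1 - 3 * κ) - 3 * 3 * (κ * (1 + κ)) by ring]
    refine Valuation.map_sub_le _ (hX v t) ?_
    rw [map_mul, map_mul, map_mul, v3_Wild, ← pow_add]
    exact (mul_le_of_le_one_right' (mul_le_one' (vκ v)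
      (Valuation.map_add_le _ (map_one _).le (vκ v)))).trans
      (pow_le_pow_right_of_le_one' (val_one_sub_lt hw t).le (by norm_num))
  refine ⟨e, 1 + 3 * κ, X, ?_, rfl, ux, uX, ?_⟩
  · have : io a = s * (w ^ e * (1 + 3 * κ)) := by
      rw [ha, map_mul, map_intCast, map_add, map_pow, io_omega, map_mul, hκ, map_ofNat]
      ring
    rcases hs with rfl | rfl
    · exact Or.inl (by simpa using this)
    · exact Or.inr (by simpa using this)
  · have := key_Wild hK uq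
    rw [Phi_div_right h3_Wild hw w_ne X0 x2, sq, Phi_mul_right h3_Wild hw w_ne x0 x0] at this
    linear_combination this

theorem wild (hK : KFStmt) : WildStmt := by
  intro a b A B hA hB
  obtain ⟨e, x, X, h1, rfl, ux, uX, ex⟩ := norm_Wild hK hA
  obtain ⟨f, y, Y, h2, rfl, uy, uY, ey⟩ := norm_Wild hK hB
  have x0 := mul_ne_zero (pow_ne_zero e w_ne) (ne_U_Wild hK (by norm_num) ux)
  have y0 := mul_ne_zero (pow_ne_zero f w_ne) (ne_U_Wild hK (by norm_num) uy)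
  have nr : Phi 3 w (w ^ e * x) (-(w ^ f * y)) = Phi 3 w (w ^ e * x) (w ^ f * y) := by
    rw [Phi_swap h3_Wild hw (neg_ne_zero.2 y0) x0, Phi_neg_left h3_Wild hw y0 x0,
      ← Phi_swap h3_Wild hw y0 x0]
  have : Phi 3 w (io a) (io b) = Phi 3 w (w ^ e * x) (w ^ f * y) := by
    rcases h1 with h1 | h1 <;> rcases h2 with h2 | h2 <;> rw [h1, h2]
    · exact nr
    · exact Phi_neg_left h3_Wild hw x0 y0
    · rw [Phi_neg_left h3_Wild hw x0 (neg_ne_zero.2 y0), nr]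
  rw [this, bil_Wild hK ux uy, bil_Wild hK uX uY, ex, ey]
  ring

end Pool.Agent.MP_adc87d_lc

end
end

section

/-! Descent in the ring generated by the square root of three. -/

set_option autoImplicit false

namespace Pool.Agent.MP_adc87d_lc

theorem nz_D2 (a : Zsqrtd 3) : a.norm = 0 ↔ a = 0 :=
  Zsqrtd.norm_eq_zero (fun n h => by
    have h1 : n ≤ 1 ∨ 2 ≤ n := by omega
    have h2 : -1 ≤ n ∨ n ≤ -2 := by omega
    rcases h1 with h1 | h1
    · rcases h2 with h2 | h2 <;> nlinarith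
    · nlinarith) a

theorem dom_D2 : IsDomain (Zsqrtd 3) := by
  have : NoZeroDivisors (Zsqrtd 3) := ⟨fun {a b} h => by
    have := congrArg Zsqrtd.norm h
    rw [Zsqrtd.norm_mul, Zsqrtd.norm_zero, mul_eq_zero, nz_D2, nz_D2] at this
    exact this⟩
  exact NoZeroDivisors.to_isDomain _

theorem near_D2 (s n : ℤ) (hn : n ≠ 0) : ∃ q e : ℤ, s = n * q + e ∧ 4 * e ^ 2 ≤ n ^ 2 := by
  refine ⟨round ((s : ℚ) / n), s - n * round ((s : ℚ) / n), by ring, ?_⟩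
  have h := abs_le.1 (abs_sub_round ((s : ℚ) / n))
  have hq : (n : ℚ) ≠ 0 := by exact_mod_cast hn
  set q := round ((s : ℚ) / n)
  have e : ((s - n * q : ℤ) : ℚ) = n * ((s : ℚ) / n - q) := by
    push_cast; field_simp
  have h2 : ((s : ℚ) / n - q) ^ 2 ≤ 1 / 4 := by nlinarith [h.1, h.2]
  have : 4 * ((s - n * q : ℤ) : ℚ) ^ 2 ≤ (n : ℚ) ^ 2 := by
    rw [e, mul_pow]; nlinarith [sq_nonneg (n : ℚ)]
  exact_mod_cast this

theorem div_D2 (a b : Zsqrtd 3) (hb : b ≠ 0) :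
    ∃ q : Zsqrtd 3, (a - b * q).norm.natAbs < b.norm.natAbs := by
  have hn : b.norm ≠ 0 := fun h => hb ((nz_D2 b).1 h)
  obtain ⟨q1, e1, h1, k1⟩ := near_D2 (a * star b).re b.norm hn
  obtain ⟨q2, e2, h2, k2⟩ := near_D2 (a * star b).im b.norm hn
  refine ⟨⟨q1, q2⟩, ?_⟩
  have hm : (a - b * ⟨q1, q2⟩) * star b = ⟨e1, e2⟩ := by
    have : (a - b * ⟨q1, q2⟩) * star b = a * star b - (b.norm : Zsqrtd 3) * ⟨q1, q2⟩ := by
      rw [Zsqrtd.norm_eq_mul_conj]; ring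
    rw [this]
    ext
    · rw [Zsqrtd.re_sub, h1]; simp
    · rw [Zsqrtd.im_sub, h2]; simp
  have hN := congrArg Zsqrtd.norm hm
  rw [Zsqrtd.norm_mul, Zsqrtd.norm_conj, Zsqrtd.norm_def ⟨e1, e2⟩] at hN
  simp only at hN
  set m := (a - b * ⟨q1, q2⟩).norm
  set n := b.norm
  have hp : 0 < n ^ 2 := by positivity
  have l1 : m * n < n ^ 2 := by nlinarith [sq_nonneg e1, sq_nonneg e2]
  have l2 : -(n ^ 2) < m * n := by nlinarith [sq_nonneg e1, sq_nonneg e2]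
  rw [Int.natAbs_lt_iff_sq_lt]
  by_contra hc
  push Not at hc
  nlinarith [mul_pos (sub_pos.2 l1) (sub_pos.2 l2)]

theorem pid_D2 : IsPrincipalIdealRing (Zsqrtd 3) := by
  classical
  refine ⟨fun I => ?_⟩
  by_cases h : ∃ n : ℕ, ∃ b ∈ I, b ≠ 0 ∧ b.norm.natAbs = n
  · obtain ⟨b, hb, hb0, hbn⟩ := Nat.find_spec h
    refine ⟨b, le_antisymm (fun a ha => ?_) ((Ideal.span_singleton_le_iff_mem I).2 hb)⟩
    obtain ⟨q, hq⟩ := div_D2 a b hb0
    have hz : a - b * q = 0 := by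
      by_contra hz
      exact Nat.find_min h (hbn ▸ hq) ⟨_, I.sub_mem ha (I.mul_mem_right _ hb), hz, rfl⟩
    exact Ideal.mem_span_singleton'.2 ⟨q, by linear_combination -hz⟩
  · refine ⟨0, le_antisymm (fun a ha => ?_) ((Ideal.span_singleton_le_iff_mem I).2 I.zero_mem)⟩
    have : a = 0 := by
      by_contra h0
      exact h ⟨_, a, ha, h0, rfl⟩
    rw [this]; exact Submodule.zero_mem _

/-- units modulo cubes -/
theorem unit_D2 : ∀ (n : ℕ) (u : Zsqrtd 3), u.im.natAbs = n → u.norm = 1 →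
    ∃ g : Zsqrtd 3, u = g ^ 3 ∨ u = ⟨2, 1⟩ * g ^ 3 ∨ u = ⟨2, -1⟩ * g ^ 3 := by
  intro n
  induction n using Nat.strong_induction_on with
  | _ n ih =>
  rintro ⟨x, y⟩ hn hu
  rw [Zsqrtd.norm_def] at hu
  simp only at hn hu
  have one : (⟨2, 1⟩ : Zsqrtd 3) * ⟨2, -1⟩ = 1 := by ext <;> simp
  by_cases hy : y = 0
  · subst hy
    have : (x - 1) * (x + 1) = 0 := by linear_combination hu
    rcases mul_eq_zero.1 this with h | h
    · have : x = 1 := by omega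
      exact ⟨1, Or.inl (by subst this; ext <;> simp)⟩
    · have : x = -1 := by omega
      exact ⟨-1, Or.inl (by subst this; ext <;> simp [pow_succ])⟩
  have hy2 : 0 < y ^ 2 := by positivity
  have hx : x ≠ 0 := by rintro rfl; nlinarith
  rcases lt_or_gt_of_ne (mul_ne_zero hx hy) with hs | hs
  · obtain ⟨g, hg⟩ := ih (x + 2 * y).natAbs (by
      rw [← hn, Int.natAbs_lt_iff_sq_lt]
      have : (x + y) * (x + 3 * y) < 0 := by
        rcases lt_or_gt_of_ne hy with h | h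
        · have hx0 : 0 < x := by nlinarith
          exact mul_neg_of_pos_of_neg (by nlinarith) (by nlinarith)
        · have hx0 : x < 0 := by nlinarith
          exact mul_neg_of_neg_of_pos (by nlinarith) (by nlinarith)
      nlinarith) ⟨2 * x + 3 * y, x + 2 * y⟩ rfl (by rw [Zsqrtd.norm_def]; simp only; linarith)
    have e : (⟨x, y⟩ : Zsqrtd 3) = ⟨2, -1⟩ * ⟨2 * x + 3 * y, x + 2 * y⟩ := by
      ext <;> simp <;> ring
    rw [e]
    rcases hg with hg | hg | hg <;> rw [hg]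
    · exact ⟨g, Or.inr (Or.inr rfl)⟩
    · exact ⟨g, Or.inl (by linear_combination g ^ 3 * one)⟩
    · exact ⟨⟨2, -1⟩ * g, Or.inr (Or.inl (by
        linear_combination -(⟨2, -1⟩ : Zsqrtd 3) ^ 2 * g ^ 3 * one))⟩
  · obtain ⟨g, hg⟩ := ih (2 * y - x).natAbs (by
      rw [← hn, Int.natAbs_lt_iff_sq_lt]
      have : (x - y) * (x - 3 * y) < 0 := by
        rcases lt_or_gt_of_ne hy with h | h
        · have hx0 : x < 0 := by nlinarith
          exact mul_neg_of_neg_of_pos (by nlinarith) (by nlinarith)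
        · have hx0 : 0 < x := by nlinarith
          exact mul_neg_of_pos_of_neg (by nlinarith) (by nlinarith)
      nlinarith) ⟨2 * x - 3 * y, 2 * y - x⟩ rfl (by rw [Zsqrtd.norm_def]; simp only; linarith)
    have e : (⟨x, y⟩ : Zsqrtd 3) = ⟨2, 1⟩ * ⟨2 * x - 3 * y, 2 * y - x⟩ := by
      ext <;> simp <;> ring
    rw [e]
    rcases hg with hg | hg | hg <;> rw [hg]
    · exact ⟨g, Or.inr (Or.inl rfl)⟩
    · exact ⟨⟨2, 1⟩ * g, Or.inr (Or.inr (by
        linear_combination -(⟨2, 1⟩ : Zsqrtd 3) ^ 2 * g ^ 3 * one))⟩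
    · exact ⟨g, Or.inl (by linear_combination g ^ 3 * one)⟩

theorem normu_D2 (u : Zsqrtd 3) (hu : IsUnit u) : u.norm = 1 := by
  rcases Int.isUnit_iff.1 ((Zsqrtd.isUnit_iff_norm_isUnit u).1 hu) with h | h
  · exact h
  · rw [Zsqrtd.norm_def] at h
    have h3 : u.re % 3 = 0 ∨ u.re % 3 = 1 ∨ u.re % 3 = 2 := by omega
    have : (u.re * u.re) % 3 = 2 := by
      have : u.re * u.re = 3 * (u.im * u.im - 1) + 2 := by linear_combination h
      omega
    rcases h3 with h3 | h3 | h3 <;> simp [Int.mul_emod, h3] at this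

theorem dv3_D2 (b : Zsqrtd 3) (h : 3 ∣ b.norm) : ∃ c, b = ⟨0, 1⟩ * c := by
  obtain ⟨x, y⟩ := b
  rw [Zsqrtd.norm_def] at h
  simp only at h
  have : (3 : ℤ) ∣ x * x := by
    have := h.add (Dvd.intro (y * y) rfl)
    rwa [show x * x - 3 * y * y + 3 * (y * y) = x * x by ring] at this
  obtain ⟨z, rfl⟩ := (Int.prime_three.dvd_mul.1 this).elim id id
  exact ⟨⟨y, z⟩, by ext <;> simp⟩

theorem dv2_D2 (b : Zsqrtd 3) (h : 2 ∣ b.norm) : ∃ c, b = ⟨1, 1⟩ * c := by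
  obtain ⟨x, y⟩ := b
  rw [Zsqrtd.norm_def] at h
  simp only at h
  have : (2 : ℤ) ∣ (x - y) * (x - y) := by
    have := h.add (Dvd.intro (2 * y * y - x * y) rfl)
    rwa [show x * x - 3 * y * y + 2 * (2 * y * y - x * y) = (x - y) * (x - y) by ring] at this
  obtain ⟨z, hz⟩ := (Int.prime_two.dvd_mul.1 this).elim id id
  exact ⟨⟨y - z, z⟩, by ext <;> simp <;> linarith⟩

theorem step_D2 (p : ℤ) (hp : p ≠ 0) (l : Zsqrtd 3) (hl : l.norm = -p)
    (hd : ∀ b : Zsqrtd 3, p ∣ b.norm → ∃ c, b = l * c) (a : Zsqrtd 3) (c : ℤ)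
    (ha : a.norm = (p * c) ^ 3) : ∃ b, a = l ^ 3 * b ∧ b.norm = (-c) ^ 3 := by
  obtain ⟨a1, rfl⟩ := hd a ⟨p ^ 2 * c ^ 3, by rw [ha]; ring⟩
  rw [Zsqrtd.norm_mul, hl] at ha
  have h1 : a1.norm = p * (-p * c ^ 3) := mul_left_cancel₀ hp (by linear_combination -ha)
  obtain ⟨a2, rfl⟩ := hd a1 ⟨_, h1⟩
  rw [Zsqrtd.norm_mul, hl] at h1
  have h2 : a2.norm = p * c ^ 3 := mul_left_cancel₀ hp (by linear_combination -h1)
  obtain ⟨a3, rfl⟩ := hd a2 ⟨_, h2⟩
  rw [Zsqrtd.norm_mul, hl] at h2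
  exact ⟨a3, by ring, mul_left_cancel₀ hp (by linear_combination -h2)⟩

theorem ndvd_D2 {a b : Zsqrtd 3} (h : a ∣ b) : a.norm ∣ b.norm := by
  obtain ⟨c, rfl⟩ := h
  exact ⟨_, Zsqrtd.norm_mul _ _⟩

theorem cube_D2 : ∀ (n : ℕ) (a : Zsqrtd 3) (c : ℤ), c.natAbs = n → c ≠ 0 → a.norm = c ^ 3 →
    (∀ z : Zsqrtd 3, Prime z → z ∣ a → z ∣ star a → 3 ∣ z.norm ∨ 2 ∣ z.norm) →
    ∃ u g : Zsqrtd 3, IsUnit u ∧ a = u * g ^ 3 := by
  have := dom_D2
  have := pid_D2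
  intro n
  induction n using Nat.strong_induction_on with
  | _ n ih =>
  intro a c hn hc ha H
  have key : ∀ (p : ℤ) (l : Zsqrtd 3), 2 ≤ p → l.norm = -p →
      (∀ b : Zsqrtd 3, p ∣ b.norm → ∃ c, b = l * c) → p ∣ c →
      ∃ u g : Zsqrtd 3, IsUnit u ∧ a = u * g ^ 3 := by
    rintro p l hp hl hd ⟨c', rfl⟩
    obtain ⟨b, rfl, hb⟩ := step_D2 p (by omega) l hl hd a c' ha
    have hc' : c' ≠ 0 := right_ne_zero_of_mul hc
    obtain ⟨u, g, hu, rfl⟩ := ih (-c').natAbs (by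
      rw [← hn, Int.natAbs_lt_iff_sq_lt]
      have : 0 < c' ^ 2 := by positivity
      nlinarith [mul_pos this (by nlinarith : 0 < p ^ 2 - 1)]) b (-c') rfl (neg_ne_zero.2 hc') hb
      (fun z hz h1 h2 => H z hz (h1.mul_left _) (by rw [star_mul']; exact h2.mul_left _))
    exact ⟨u, l * g, hu, by ring⟩
  by_cases h3 : (3 : ℤ) ∣ c
  · exact key 3 ⟨0, 1⟩ (by norm_num) (by simp [Zsqrtd.norm_def]) dv3_D2 h3
  by_cases h2 : (2 : ℤ) ∣ c
  · exact key 2 ⟨1, 1⟩ (by norm_num) (by simp [Zsqrtd.norm_def]) dv2_D2 h2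
  have h0 : a ≠ 0 := fun h => by
    rw [h, Zsqrtd.norm_zero] at ha
    exact pow_ne_zero 3 hc ha.symm
  have hco : IsCoprime a (star a) := isCoprime_of_prime_dvd (fun h => h0 h.1) fun z hz h1 h2' => by
    have hd := ndvd_D2 h1
    rw [ha] at hd
    rcases H z hz h1 h2' with h | h
    · exact h3 (Int.prime_three.dvd_of_dvd_pow (h.trans hd))
    · exact h2 (Int.prime_two.dvd_of_dvd_pow (h.trans hd))
  obtain ⟨d, u, hu⟩ := exists_associated_pow_of_mul_eq_pow' hco (k := 3) (c := (c : Zsqrtd 3))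
    (by rw [← Zsqrtd.norm_eq_mul_conj, ha]; push_cast; rfl)
  exact ⟨u, d, u.isUnit, by rw [← hu]; ring⟩

theorem int_D2 (a b e : ℤ) (hco : IsCoprime a e) (he : e ≠ 0) (h : b ^ 2 = a ^ 3 + 108 * e ^ 6) :
    (∃ p q : ℤ, p ^ 2 * q + q ^ 3 = 2 * e ^ 3 ∧ a = p ^ 2 - 3 * q ^ 2) ∨
    ∃ u v : ℤ, u ^ 3 + 6 * u ^ 2 * v + 9 * u * v ^ 2 + 6 * v ^ 3 = 6 * e ^ 3 ∧
      a = u ^ 2 - 3 * v ^ 2 := by
  have := dom_D2
  have hN : (⟨b, 6 * e ^ 3⟩ : Zsqrtd 3).norm = a ^ 3 := by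
    rw [Zsqrtd.norm_def]; simp only; linear_combination h
  have ha : a ≠ 0 := by
    rintro rfl
    have := (nz_D2 _).1 (hN.trans (by norm_num))
    have := congrArg Zsqrtd.im this
    simp [he] at this
  obtain ⟨u, g, hu, hg⟩ := cube_D2 _ _ a rfl ha hN (fun z hz h1 h2 => by
    have d1 : z ∣ (a : Zsqrtd 3) := hz.dvd_of_dvd_pow (n := 3) (by
      have := h1.mul_right (star (⟨b, 6 * e ^ 3⟩ : Zsqrtd 3))
      rw [← Zsqrtd.norm_eq_mul_conj, hN] at this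
      exact_mod_cast this)
    have d2 : ¬z ∣ (e : Zsqrtd 3) := fun d2 =>
      hz.not_isUnit ((hco.map (Int.castRingHom (Zsqrtd 3))).isUnit_of_dvd' d1 d2)
    have d3 := h1.sub h2
    have e3 : (⟨b, 6 * e ^ 3⟩ : Zsqrtd 3) - star (⟨b, 6 * e ^ 3⟩ : Zsqrtd 3) =
        (⟨0, 1⟩ ^ 3 * (⟨1, 1⟩ * ⟨1, -1⟩) ^ 2) * (e : Zsqrtd 3) ^ 3 := by
      ext <;> simp [pow_succ] <;> ring
    rw [e3] at d3
    have d4 := (hz.dvd_mul.1 d3).resolve_right fun d => d2 (hz.dvd_of_dvd_pow d)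
    have nu : z.norm.natAbs ≠ 1 := fun h => hz.not_isUnit (Zsqrtd.norm_eq_one_iff.1 h)
    have fin : ∀ (p : ℕ) (l : Zsqrtd 3), p.Prime → l.norm = -p → z ∣ l → (p : ℤ) ∣ z.norm := by
      intro p l hp hl hd
      have := ndvd_D2 hd
      rw [hl, dvd_neg, ← Int.natAbs_dvd, Int.natCast_dvd_natCast] at this
      have := ((Nat.dvd_prime hp).1 this).resolve_left nu
      rw [← this]; exact Int.natAbs_dvd.2 dvd_rfl
    rcases hz.dvd_mul.1 d4 with d | d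
    · exact Or.inl (fin 3 _ Nat.prime_three (by simp [Zsqrtd.norm_def]) (hz.dvd_of_dvd_pow d))
    · rcases hz.dvd_mul.1 (hz.dvd_of_dvd_pow d) with d | d
      · exact Or.inr (fin 2 _ Nat.prime_two (by simp [Zsqrtd.norm_def]) d)
      · exact Or.inr (fin 2 _ Nat.prime_two (by simp [Zsqrtd.norm_def]) d))
  have hun := normu_D2 u hu
  obtain ⟨t, ht⟩ := unit_D2 _ u rfl hun
  have nrm : ∀ s : Zsqrtd 3, ∀ k : Zsqrtd 3, k.norm = 1 → (⟨b, 6 * e ^ 3⟩ : Zsqrtd 3) = k * s ^ 3 →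
      a = s.re ^ 2 - 3 * s.im ^ 2 := by
    intro s k hk hs
    rw [hs, pow_succ, pow_two, Zsqrtd.norm_mul, Zsqrtd.norm_mul, Zsqrtd.norm_mul, hk] at hN
    have : a ^ 3 = s.norm ^ 3 := by linear_combination -hN
    rw [(Odd.pow_inj (by decide)).1 this, Zsqrtd.norm_def]; ring
  rcases ht with ht | ht | ht
  · have hs : (⟨b, 6 * e ^ 3⟩ : Zsqrtd 3) = 1 * (t * g) ^ 3 := by rw [hg, ht]; ring
    refine Or.inl ⟨(t * g).re, (t * g).im, ?_, nrm _ 1 Zsqrtd.norm_one hs⟩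
    generalize t * g = s at hs
    have := congrArg Zsqrtd.im hs
    simp [pow_succ] at this
    linarith
  · have hs : (⟨b, 6 * e ^ 3⟩ : Zsqrtd 3) = ⟨2, 1⟩ * (t * g) ^ 3 := by rw [hg, ht]; ring
    refine Or.inr ⟨(t * g).re, (t * g).im, ?_, nrm _ _ (by simp [Zsqrtd.norm_def]) hs⟩
    generalize t * g = s at hs
    have := congrArg Zsqrtd.im hs
    simp [pow_succ] at this
    linarith
  · have hs : (⟨b, 6 * e ^ 3⟩ : Zsqrtd 3) = ⟨2, -1⟩ * (t * g) ^ 3 := by rw [hg, ht]; ring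
    refine Or.inr ⟨-(t * g).re, (t * g).im, ?_, by
      rw [nrm _ _ (by simp [Zsqrtd.norm_def]) hs]; ring⟩
    generalize t * g = s at hs
    have := congrArg Zsqrtd.im hs
    simp [pow_succ] at this
    linarith

theorem den_D2 (X Y : ℚ) (h : Y ^ 2 = X ^ 3 + 108) : ∃ e : ℕ, X.den = e ^ 2 ∧ Y.den = e ^ 3 := by
  have h1 : Y.den ^ 2 = X.den ^ 3 := by
    rw [← Rat.den_pow, ← Rat.den_pow, h, Rat.add_ofNat_den]
  obtain ⟨e, he⟩ : X.den ∣ Y.den := (Nat.pow_dvd_pow_iff two_ne_zero).1 ⟨X.den, by rw [h1]; ring⟩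
  have h2 : X.den = e ^ 2 := by
    refine Nat.eq_of_mul_eq_mul_left (pow_pos X.den_pos 2) ?_
    rw [he] at h1
    linarith [mul_pow X.den e 2, pow_succ X.den 2]
  exact ⟨e, h2, by rw [he, h2]; ring⟩

theorem d2 : D2Stmt := by
  intro X Y h
  obtain ⟨e, h1, h2⟩ := den_D2 X Y h
  have he : (e : ℤ) ≠ 0 := by
    have := X.den_pos
    rw [h1] at this
    exact_mod_cast (pow_ne_zero_iff two_ne_zero).1 this.ne'
  have hq : (e : ℚ) ≠ 0 := by exact_mod_cast he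
  have hX : (X.num : ℚ) = X * (e : ℚ) ^ 2 := by
    rw [← Rat.mul_den_eq_num, h1]; push_cast; rfl
  have hY : (Y.num : ℚ) = Y * (e : ℚ) ^ 3 := by
    rw [← Rat.mul_den_eq_num, h2]; push_cast; rfl
  have hco : IsCoprime X.num (e : ℤ) := by
    have := X.isCoprime_num_den
    rw [h1] at this
    push_cast at this
    exact (IsCoprime.pow_right_iff two_pos).1 this
  have hi : Y.num ^ 2 = X.num ^ 3 + 108 * (e : ℤ) ^ 6 := by
    have : (Y.num : ℚ) ^ 2 = (X.num : ℚ) ^ 3 + 108 * (e : ℚ) ^ 6 := by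
      rw [hX, hY]; linear_combination (e : ℚ) ^ 6 * h
    exact_mod_cast this
  rcases int_D2 _ _ _ hco he hi with ⟨p, q, k1, k2⟩ | ⟨p, q, k1, k2⟩
  · have k1' : (p : ℚ) ^ 2 * q + q ^ 3 = 2 * (e : ℚ) ^ 3 := by exact_mod_cast k1
    have k2' : (X.num : ℚ) = p ^ 2 - 3 * q ^ 2 := by exact_mod_cast k2
    refine Or.inl ⟨p / e, q / e, ?_, ?_⟩
    · field_simp; linear_combination k1'
    · field_simp; linear_combination k2' - hX
  · have k1' : (p : ℚ) ^ 3 + 6 * p ^ 2 * q + 9 * p * q ^ 2 + 6 * q ^ 3 = 6 * (e : ℚ) ^ 3 := by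
      exact_mod_cast k1
    have k2' : (X.num : ℚ) = p ^ 2 - 3 * q ^ 2 := by exact_mod_cast k2
    refine Or.inr ⟨p / e, q / e, ?_, ?_⟩
    · unfold Tor; field_simp; linear_combination k1'
    · field_simp; linear_combination k2' - hX

end Pool.Agent.MP_adc87d_lc

end

section

/-! Local facts over the rationals. -/

set_option autoImplicit false

noncomputable section

namespace Pool.Agent.MP_adc87d_lc

open NumberField IsDedekindDomain
open Pool.Agent.MP_14ad9d_nt.Full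

theorem int_le_Loc (v : Pr KK) (n : ℤ) : vl v (n : KK) ≤ 1 := by
  have := v.valuation_le_one (K := KK) (n : 𝓞 KK)
  simpa using this

theorem int_lt_Loc (v : Pr KK) {p n : ℤ} (hp : vl v (p : KK) < 1) (h : p ∣ n) :
    vl v (n : KK) < 1 := by
  obtain ⟨c, rfl⟩ := h
  rw [Int.cast_mul, map_mul]
  exact (mul_le_of_le_one_right' (int_le_Loc v c)).trans_lt hp

theorem int_eq_Loc (v : Pr KK) {p n : ℤ} (hp : vl v (p : KK) < 1) (pp : Prime p) (h : ¬p ∣ n) :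
    vl v (n : KK) = 1 := by
  refine le_antisymm (int_le_Loc v n) (not_lt.1 fun hn => ?_)
  obtain ⟨a, b, e⟩ := (pp.irreducible.coprime_iff_not_dvd).2 h
  have e' : ((a * p : ℤ) : KK) + ((b * n : ℤ) : KK) = 1 := by exact_mod_cast e
  have := (vl v).map_add_lt (int_lt_Loc v hp (Dvd.intro_left a rfl))
    (int_lt_Loc v hn (Dvd.intro_left b rfl))
  rw [e', map_one] at this
  exact lt_irrefl _ this

theorem den_Loc (u t : ℚ) : ∃ a b n : ℤ, n ≠ 0 ∧ u = a / n ∧ t = b / n ∧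
    ¬(3 ∣ a ∧ 3 ∣ b ∧ 3 ∣ n) := by
  have ex : ∃ n : ℕ, n ≠ 0 ∧ ∃ a b : ℤ, u = a / n ∧ t = b / n := by
    refine ⟨u.den * t.den, mul_ne_zero u.den_nz t.den_nz, u.num * t.den, t.num * u.den, ?_, ?_⟩
    · push_cast
      rw [mul_div_mul_right _ _ (by exact_mod_cast t.den_nz), Rat.num_div_den]
    · push_cast
      rw [mul_comm (u.den : ℚ), mul_div_mul_right _ _ (by exact_mod_cast u.den_nz),
        Rat.num_div_den]
  classical
  obtain ⟨h0, a, b, ha, hb⟩ := Nat.find_spec ex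
  refine ⟨a, b, Nat.find ex, by exact_mod_cast h0, by exact_mod_cast ha, by exact_mod_cast hb, ?_⟩
  rintro ⟨⟨a', rfl⟩, ⟨b', rfl⟩, hn⟩
  obtain ⟨m, hm⟩ : 3 ∣ Nat.find ex := by exact_mod_cast hn
  refine Nat.find_min ex (m := m) (by omega) ⟨by omega, a', b', ?_, ?_⟩
  · rw [ha, hm]
    push_cast
    rw [mul_div_mul_left _ _ (by norm_num)]
  · rw [hb, hm]
    push_cast
    rw [mul_div_mul_left _ _ (by norm_num)]

theorem one_Loc (u t : ℚ) (h : Tor u t) (v : Pr KK) (hv : ¬Tm 3 v) :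
    vl v ((((3 * t ^ 2 - u ^ 2) / 3 : ℚ) : KK) - 1) < 1 := by
  have h3 : vl v ((3 : ℤ) : KK) < 1 := by
    have e := val_ell (l := 3) hw v
    have := val_one_sub_lt (l := 3) hw hv
    have e' : vl v ((3 : ℤ) : KK) = vl v (1 - w) ^ 2 := by simpa using e
    rw [e']
    exact pow_lt_one' this (by norm_num)
  obtain ⟨a, b, n, hn, rfl, rfl, hd⟩ := den_Loc u t
  have hn' : (n : ℚ) ≠ 0 := by exact_mod_cast hn
  have e : a ^ 3 + 6 * a ^ 2 * b + 9 * a * b ^ 2 + 6 * b ^ 3 = 6 * n ^ 3 := by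
    unfold Tor at h
    field_simp at h
    have : ((a ^ 3 + 6 * a ^ 2 * b + 9 * a * b ^ 2 + 6 * b ^ 3 : ℤ) : ℚ) = ((6 * n ^ 3 : ℤ) : ℚ) := by
      push_cast
      linear_combination h
    exact_mod_cast this
  obtain ⟨c, rfl⟩ : (3 : ℤ) ∣ a := Int.prime_three.dvd_of_dvd_pow (n := 3)
    ⟨2 * n ^ 3 - 2 * a ^ 2 * b - 3 * a * b ^ 2 - 2 * b ^ 3, by linear_combination e⟩
  have hb : (3 : ℤ) ∣ b - n := Int.prime_three.dvd_of_dvd_pow (n := 3)
    ⟨b ^ 3 - n ^ 3 - b ^ 2 * n + b * n ^ 2 + 3 * c ^ 3 + 6 * c ^ 2 * b + 3 * c * b ^ 2, by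
      have : 3 * (b - n) ^ 3 = 3 * (3 * (b ^ 3 - n ^ 3 - b ^ 2 * n + b * n ^ 2 + 3 * c ^ 3 +
        6 * c ^ 2 * b + 3 * c * b ^ 2)) := by linear_combination -e
      omega⟩
  have hn3 : ¬(3 : ℤ) ∣ n := fun k => hd ⟨Dvd.intro c rfl, by omega, k⟩
  have hk : (n : KK) ≠ 0 := by exact_mod_cast hn
  have e2 : ((((3 * ((b : ℚ) / n) ^ 2 - (((3 * c : ℤ) : ℚ) / n) ^ 2) / 3 : ℚ) : KK) - 1) =
      (((b - n) * (b + n) - 3 * c ^ 2 : ℤ) : KK) / (n : KK) ^ 2 := by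
    push_cast
    field_simp
    ring
  rw [e2, map_div₀, map_pow, int_eq_Loc v h3 Int.prime_three hn3, one_pow, div_one]
  exact int_lt_Loc v h3 (dvd_sub (hb.mul_right _) (Dvd.intro _ rfl))

theorem big_Loc (v : Pr KK) (h2 : vl v 2 < 1) (x : ℚ) (hx : 1 ≤ vl v (x : KK)) :
    1 < vl v ((dbl x : ℚ) : KK) := by
  have h2' : vl v ((2 : ℤ) : KK) < 1 := by simpa using h2
  have h32 : vl v (32 : KK) < 1 := by simpa using int_lt_Loc v h2' (n := 32) (by norm_num)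
  have h4 : vl v (4 : KK) < 1 := by simpa using int_lt_Loc v h2' (n := 4) (by norm_num)
  have h40 : 0 < vl v (4 : KK) := zero_lt_iff.2 ((map_ne_zero _).2 (by norm_num))
  have h3 : 1 ≤ vl v ((x : KK) ^ 3) := by
    rw [map_pow]
    exact one_le_pow_of_one_le' hx 3
  have h30 : 0 < vl v ((x : KK) ^ 3) := zero_lt_one.trans_le h3
  have e : ((dbl x : ℚ) : KK) = x * (x ^ 3 + 32) / (4 * (x ^ 3 - 4)) := by
    unfold dbl
    push_cast
    rfl
  rw [e, map_div₀, map_mul, map_mul, (vl v).map_add_eq_of_lt_left (h32.trans_le h3),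
    (vl v).map_sub_eq_of_lt_left (h4.trans_le h3), mul_div_mul_right _ _ h30.ne',
    one_lt_div₀ h40]
  exact h4.trans_le hx

theorem mid_Loc (v : Pr KK) (h2 : vl v 2 < 1) (x y : ℚ) (h : x ^ 3 + 3 * y ^ 2 = 4) :
    1 ≤ vl v ((dbl x : ℚ) : KK) := by
  have h2' : vl v ((2 : ℤ) : KK) < 1 := by simpa using h2
  have h4 : vl v (4 : KK) < 1 := by simpa using int_lt_Loc v h2' (n := 4) (by norm_num)
  have hb : (x.den : ℚ) ≠ 0 := by exact_mod_cast x.den_nz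
  have hn : (y.den : ℚ) ≠ 0 := by exact_mod_cast y.den_nz
  have hbK : (x.den : KK) ≠ 0 := by exact_mod_cast x.den_nz
  by_cases ha : (2 : ℤ) ∣ x.num
  swap
  · refine (big_Loc v h2 x ?_).le
    have h1 := int_le_Loc v x.den
    rw [Int.cast_natCast] at h1
    rw [Rat.cast_def, map_div₀, int_eq_Loc v h2' Int.prime_two ha,
      one_le_div₀ (zero_lt_iff.2 ((map_ne_zero _).2 hbK))]
    exact h1
  have cop : ∀ q : ℚ, (2 : ℤ) ∣ q.num → ¬(2 : ℤ) ∣ (q.den : ℤ) := fun q h1 h2 => by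
    have := (Rat.isCoprime_num_den q).isUnit_of_dvd' h1 h2
    rcases Int.isUnit_iff.1 this with k | k <;> omega
  have hb2 := cop x ha
  obtain ⟨a, ea⟩ := ha
  have ha2 : ¬(2 : ℤ) ∣ a := by
    rintro ⟨c, rfl⟩
    have e : x.num ^ 3 * y.den ^ 2 + 3 * y.num ^ 2 * x.den ^ 3 = 4 * x.den ^ 3 * y.den ^ 2 := by
      have : ((x.num ^ 3 * y.den ^ 2 + 3 * y.num ^ 2 * x.den ^ 3 : ℤ) : ℚ) =
          ((4 * x.den ^ 3 * y.den ^ 2 : ℤ) : ℚ) := by
        push_cast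
        rw [← Rat.mul_den_eq_num x, ← Rat.mul_den_eq_num y]
        linear_combination (x.den : ℚ) ^ 3 * (y.den : ℚ) ^ 2 * h
      exact_mod_cast this
    rw [ea] at e
    obtain ⟨k, hk⟩ : ∃ k : ℤ, (x.den : ℤ) = 2 * k + 1 := ⟨x.den / 2, by omega⟩
    rw [hk] at e
    have hm : (2 : ℤ) ∣ y.num := by
      by_contra hm
      obtain ⟨j, hj⟩ : ∃ j : ℤ, y.num = 2 * j + 1 := ⟨y.num / 2, by omega⟩
      rw [hj] at e
      have := congrArg (Int.cast : ℤ → ZMod 2) e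
      push_cast at this
      generalize (c : ZMod 2) = c', (y.den : ZMod 2) = d', (j : ZMod 2) = j', (k : ZMod 2) = k'
        at this
      revert c' d' j' k'
      decide
    have hn2 := cop y hm
    obtain ⟨m, hm⟩ := hm
    obtain ⟨j, hj⟩ : ∃ j : ℤ, (y.den : ℤ) = 2 * j + 1 := ⟨y.den / 2, by omega⟩
    rw [hm, hj] at e
    have e' : 16 * c ^ 3 * (2 * j + 1) ^ 2 + 3 * m ^ 2 * (2 * k + 1) ^ 3 =
        (2 * k + 1) ^ 3 * (2 * j + 1) ^ 2 := by
      have : 4 * (16 * c ^ 3 * (2 * j + 1) ^ 2 + 3 * m ^ 2 * (2 * k + 1) ^ 3) =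
        4 * ((2 * k + 1) ^ 3 * (2 * j + 1) ^ 2) := by linear_combination e
      omega
    have := congrArg (Int.cast : ℤ → ZMod 4) e'
    push_cast at this
    generalize (c : ZMod 4) = c', (m : ZMod 4) = d', (j : ZMod 4) = j', (k : ZMod 4) = k' at this
    revert c' d' j' k'
    decide
  obtain ⟨s, hs, es⟩ : ∃ s : KK, vl v s = 1 ∧ (x : KK) = 2 * s := by
    refine ⟨a / x.den, ?_, ?_⟩
    · have h1 := int_eq_Loc v h2' Int.prime_two hb2
      rw [Int.cast_natCast] at h1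
      rw [map_div₀, int_eq_Loc v h2' Int.prime_two ha2, h1, div_one]
    · rw [Rat.cast_def, ea]
      push_cast
      ring
  have h3 : vl v (s ^ 3) = 1 := by rw [map_pow, hs, one_pow]
  have h5 : vl v (1 - 2 * s ^ 3) = 1 := (vl v).map_one_sub_of_lt (by rwa [map_mul, h3, mul_one])
  have h6 : (1 - 2 * s ^ 3 : KK) ≠ 0 := fun k => by
    rw [k, map_zero] at h5
    exact zero_ne_one h5
  have e : ((dbl x : ℚ) : KK) = -(s * (s ^ 3 + 4) / (1 - 2 * s ^ 3)) := by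
    have h7 : (4 * ((2 * s) ^ 3 - 4) : KK) = -16 * (1 - 2 * s ^ 3) := by ring
    unfold dbl
    push_cast
    rw [es, h7]
    field_simp
    ring
  rw [e, Valuation.map_neg, map_div₀, map_mul, (vl v).map_add_eq_of_lt_left (h3 ▸ h4), h3, h5, hs]
  simp

theorem cube_Loc (x : ℚ) (k : ℕ) (hk : ¬3 ∣ k) : x ^ 3 ≠ 2 ^ k := fun h => by
  have := congrArg (padicValRat 2) h
  have e : padicValRat 2 (2 : ℚ) = 1 := by exact_mod_cast padicValRat.self (p := 2) one_lt_two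
  rw [padicValRat.pow, padicValRat.pow, e] at this
  omega

theorem loc (_hK : KFStmt) : LocStmt := by
  refine ⟨one_Loc, fun u t h => ⟨(2 * u ^ 3 + 9 * u ^ 2 * t + 18 * u * t ^ 2 + 9 * t ^ 3) / 9, ?_⟩,
    fun x y h v h2 => big_Loc v h2 _ (mid_Loc v h2 x y h), fun x => ?_, fun x => ?_⟩
  · unfold Tor at h
    linear_combination (u ^ 3 + 6 * u ^ 2 * t + 9 * u * t ^ 2 + 6 * t ^ 3 + 6) / 9 * h
  · have := cube_Loc x 2 (by norm_num)
    norm_num at this ⊢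
    exact this
  · simpa using cube_Loc x 1 (by norm_num)

end Pool.Agent.MP_adc87d_lc

end
end
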