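import Mathlib
import Pool.Agent.Mg.Fadc87d.G0908ea

set_option linter.all false

/-! Many points of the cubic form in a small square of the lattice of a good prime. -/

set_option autoImplicit false

noncomputable section

open Finset
open scoped Classical

namespace Pool.Agent.MP_adc87d_lc.Big

open Pool.Agent.MP_2a1f0e_nt (ex)

lemma crt_CLowZ {q r : ℤ} (h : IsCoprime q r) (a c : ℤ) :
    ∃ x : ℤ, x ≡ a [ZMOD q] ∧ x ≡ c [ZMOD r] := by
  obtain ⟨u, v, huv⟩ := h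
  refine ⟨a * v * r + c * u * q, ?_, ?_⟩
  · refine (Int.modEq_iff_dvd.2 ⟨a * u - c * u, ?_⟩)
    linear_combination (-a) * huv
  · refine (Int.modEq_iff_dvd.2 ⟨c * v - a * v, ?_⟩)
    linear_combination (-c) * huv

lemma fc_mod_CLowZ {l s t s' t' : ℤ} (hs : s ≡ s' [ZMOD l]) (ht : t ≡ t' [ZMOD l]) :
    fc s t ≡ fc s' t' [ZMOD l] := by
  unfold fc
  exact ((hs.pow 3).sub (hs.mul (ht.pow 2))).sub (ht.pow 3)

lemma fc_dvd_CLowZ {p ν s t : ℤ} (hν : p ∣ fc ν 1) (h : p ∣ s - ν * t) : p ∣ fc s t := by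
  have h1 : ν * t ≡ s [ZMOD p] := Int.modEq_iff_dvd.2 h
  have h2 : fc (ν * t) t ≡ fc s t [ZMOD p] := fc_mod_CLowZ h1 (Int.ModEq.refl t)
  have h3 : fc (ν * t) t = fc ν 1 * t ^ 3 := by unfold fc; ring
  have h4 : p ∣ fc (ν * t) t := h3 ▸ hν.mul_right _
  have h5 := (Int.modEq_iff_dvd.1 h2).add h4
  simpa using h5

lemma cub_CLowZ {X s t : ℝ} (hX : 0 < X) (hs : |s - X| ≤ X / 100) (ht : |t| ≤ X / 100) :
    96 / 100 * X ^ 3 ≤ s ^ 3 - s * t ^ 2 - t ^ 3 ∧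
      s ^ 3 - s * t ^ 2 - t ^ 3 ≤ 104 / 100 * X ^ 3 := by
  obtain ⟨hs1, hs2⟩ := abs_le.1 hs
  have hX3 : 0 < X ^ 3 := by positivity
  have a1 : (99 / 100 * X) ^ 3 ≤ s ^ 3 := pow_le_pow_left₀ (by positivity) (by linarith) 3
  have a2 : s ^ 3 ≤ (101 / 100 * X) ^ 3 := pow_le_pow_left₀ (by linarith) (by linarith) 3
  have a3 : t ^ 2 ≤ (X / 100) ^ 2 := by
    rw [← sq_abs t]; exact pow_le_pow_left₀ (abs_nonneg _) ht 2
  have a4 : s * t ^ 2 ≤ (101 / 100 * X) * (X / 100) ^ 2 :=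
    mul_le_mul (by linarith) a3 (sq_nonneg _) (by positivity)
  have a5 : 0 ≤ s * t ^ 2 := mul_nonneg (by linarith) (sq_nonneg _)
  have a6 : |t ^ 3| ≤ (X / 100) ^ 3 := by
    rw [abs_pow]; exact pow_le_pow_left₀ (abs_nonneg _) ht 3
  obtain ⟨a7, a8⟩ := abs_le.1 a6
  constructor <;> nlinarith

lemma near_CLowZ {a c B M N X x y : ℝ} {w : ℝ} (hM : 0 ≤ M) (hB : 0 ≤ B) (ha : |a| ≤ B)
    (hc : |c| ≤ B) (hw : |w - X| ≤ 2 * M * B) (hx : 0 ≤ x) (hy : 0 ≤ y) (hxN : x + 1 ≤ N)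
    (hyN : y + 1 ≤ N) : |w + M * (x * a + y * c) - X| ≤ 2 * M * N * B := by
  have h1 : |x * a| ≤ x * B := by
    rw [abs_mul, abs_of_nonneg hx]; exact mul_le_mul_of_nonneg_left ha hx
  have h2 : |y * c| ≤ y * B := by
    rw [abs_mul, abs_of_nonneg hy]; exact mul_le_mul_of_nonneg_left hc hy
  have h3 : |x * a + y * c| ≤ 2 * (N - 1) * B := by
    refine (abs_add_le _ _).trans ?_
    nlinarith
  have h4 : |M * (x * a + y * c)| ≤ M * (2 * (N - 1) * B) := by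
    rw [abs_mul, abs_of_nonneg hM]; exact mul_le_mul_of_nonneg_left h3 hM
  have h5 : w + M * (x * a + y * c) - X = (w - X) + M * (x * a + y * c) := by ring
  rw [h5]
  refine (abs_add_le _ _).trans ?_
  nlinarith

lemma num_CLowZ {Y L M N : ℝ} (hM : 1 ≤ M) (hL : 2560000 * M ^ 2 ≤ L) (hY : L ^ 6 ≤ Y)
    (hN1 : N ≤ Y / (400 * M * L)) (hN2 : Y / (400 * M * L) < N + 1) :
    0 ≤ N ∧ M ≤ L ^ 2 ∧ Y ≤ N ^ 2 ∧ 12 * Y * L + M + M * N ≤ 14 * Y * L ∧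
      24 * (14 * Y * L) * L ≤ N ^ 2 ∧ Y ^ 2 / L ^ 4 ≤ N ^ 2 / (4 * L) ∧
      400 * M * L * N ≤ Y := by
  have hL1 : 2560000 ≤ L := by nlinarith
  have hL0 : 0 < L := by linarith
  have hM0 : 0 < M := by linarith
  have hML : 800 * M ≤ L := by nlinarith
  have hL2 : L ^ 2 ≤ L ^ 6 := pow_le_pow_right₀ (by linarith) (by norm_num)
  have hL3 : L ^ 3 ≤ L ^ 6 := pow_le_pow_right₀ (by linarith) (by norm_num)
  have hLL : L ≤ L ^ 2 := by nlinarith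
  have hY0 : 0 < Y := by nlinarith
  have hd : 0 < 400 * M * L := by positivity
  have hN1' : N * (400 * M * L) ≤ Y := (le_div_iff₀ hd).1 hN1
  have hN2' : Y < (N + 1) * (400 * M * L) := (div_lt_iff₀ hd).1 hN2
  have h800 : 800 * M * L ≤ Y := by nlinarith
  have hN3 : Y ≤ N * (800 * M * L) := by nlinarith
  have hN0 : 0 ≤ N := by
    by_contra h
    have : N * (800 * M * L) < 0 := mul_neg_of_neg_of_pos (not_le.1 h) (by positivity)
    linarith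
  have hsq : Y ^ 2 ≤ (N * (800 * M * L)) ^ 2 := pow_le_pow_left₀ hY0.le hN3 2
  have hkey : 4 * Y ^ 2 ≤ N ^ 2 * L ^ 3 := by
    have e : (N * (800 * M * L)) ^ 2 * 4 = N ^ 2 * L ^ 2 * (2560000 * M ^ 2) := by ring
    have : N ^ 2 * L ^ 2 * (2560000 * M ^ 2) ≤ N ^ 2 * L ^ 2 * L :=
      mul_le_mul_of_nonneg_left hL (by positivity)
    nlinarith
  have hL30 : 0 < L ^ 3 := by positivity
  refine ⟨hN0, by nlinarith, ?_, ?_, ?_, ?_, by linarith⟩
  · refine le_of_mul_le_mul_right ?_ hL30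
    have : Y * L ^ 3 ≤ Y * Y := mul_le_mul_of_nonneg_left (hL3.trans hY) hY0.le
    nlinarith
  · have e1 : M ≤ Y := by nlinarith
    have e2 : M * N ≤ Y := by
      have : M * N * 1 ≤ M * N * (400 * L) :=
        mul_le_mul_of_nonneg_left (by linarith) (by positivity)
      nlinarith
    have e3 : Y * 1 ≤ Y * L := mul_le_mul_of_nonneg_left (by linarith) hY0.le
    linarith
  · refine le_of_mul_le_mul_right ?_ hL30
    have e1 : 84 * L ^ 5 ≤ Y := by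
      have : 84 * L ^ 5 ≤ L * L ^ 5 := mul_le_mul_of_nonneg_right (by linarith) (by positivity)
      nlinarith
    have e2 : Y * (84 * L ^ 5) ≤ Y * Y := mul_le_mul_of_nonneg_left e1 hY0.le
    nlinarith
  · rw [div_le_div_iff₀ (by positivity) (by positivity)]
    have : 4 * Y ^ 2 * L ≤ N ^ 2 * L ^ 3 * L := mul_le_mul_of_nonneg_right hkey hL0.le
    nlinarith

lemma ev_CLowZ (b : ℕ) (A : ℝ) :
    ∃ Y₀ : ℝ, ∀ Y ≥ Y₀, 2 ≤ Y ∧ A ≤ Real.log Y ∧ Real.log Y ^ b ≤ Y := by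
  have e1 : ∀ᶠ Y : ℝ in Filter.atTop, 2 ≤ Y := Filter.eventually_ge_atTop 2
  have e2 : ∀ᶠ Y : ℝ in Filter.atTop, A ≤ Real.log Y :=
    Real.tendsto_log_atTop.eventually_ge_atTop A
  have e3 := (Real.isLittleO_pow_log_id_atTop (n := b)).bound one_pos
  obtain ⟨Y₀, h⟩ := Filter.eventually_atTop.1 (e1.and (e2.and e3))
  refine ⟨Y₀, fun Y hY => ?_⟩
  obtain ⟨a1, a2, a3⟩ := h Y hY
  refine ⟨a1, a2, ?_⟩
  simp only [id, one_mul, Real.norm_eq_abs] at a3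
  rw [abs_of_nonneg (by linarith : (0 : ℝ) ≤ Y)] at a3
  exact (le_abs_self _).trans a3

lemma cube_CLowZ {Y P : ℝ} (hY : 2 ≤ Y) (h1 : Y ^ 30 < P) (h2 : P ≤ 2 * Y ^ 30) :
    ∃ X : ℝ, X ^ 3 = 49 * P * (3 / 2) * Y ^ 18 ∧ 4 * Y ^ 16 ≤ X ∧ X ≤ 6 * Y ^ 16 ∧ 2 * X < P := by
  have hY0 : 0 < Y := by linarith
  have hP : 0 < P := lt_trans (by positivity) h1
  have hc : 0 ≤ 49 * P * (3 / 2) * Y ^ 18 := by positivity
  obtain ⟨X, hX0, hX⟩ : ∃ X : ℝ, 0 ≤ X ∧ X ^ 3 = 49 * P * (3 / 2) * Y ^ 18 :=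
    ⟨_, Real.rpow_nonneg hc _, Real.rpow_inv_natCast_pow hc (by norm_num)⟩
  have h18 : 0 < Y ^ 18 := by positivity
  have e48 : Y ^ 48 = Y ^ 30 * Y ^ 18 := by ring
  have a1 : Y ^ 30 * Y ^ 18 ≤ P * Y ^ 18 := mul_le_mul_of_nonneg_right h1.le h18.le
  have a2 : P * Y ^ 18 ≤ 2 * Y ^ 30 * Y ^ 18 := mul_le_mul_of_nonneg_right h2 h18.le
  have h48 : 0 < Y ^ 30 * Y ^ 18 := by positivity
  have b1 : 4 * Y ^ 16 ≤ X := by
    refine (pow_le_pow_iff_left₀ (by positivity) hX0 (by norm_num : 3 ≠ 0)).1 ?_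
    have : (4 * Y ^ 16) ^ 3 = 64 * (Y ^ 30 * Y ^ 18) := by ring
    rw [this, hX]; linarith
  have b2 : X ≤ 6 * Y ^ 16 := by
    refine (pow_le_pow_iff_left₀ hX0 (by positivity) (by norm_num : 3 ≠ 0)).1 ?_
    have : (6 * Y ^ 16) ^ 3 = 216 * (Y ^ 30 * Y ^ 18) := by ring
    rw [this, hX]; linarith
  refine ⟨X, hX, b1, b2, ?_⟩
  have c1 : (2 : ℝ) ^ 14 ≤ Y ^ 14 := pow_le_pow_left₀ (by norm_num) hY 14
  have c2 : 2 ^ 14 * Y ^ 16 ≤ Y ^ 14 * Y ^ 16 := mul_le_mul_of_nonneg_right c1 (by positivity)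
  have c3 : Y ^ 14 * Y ^ 16 = Y ^ 30 := by ring
  have c4 : 0 < Y ^ 16 := by positivity
  linarith

theorem clowz (h1 : TileStmt) (h2 : Sv2Stmt) : LowZStmt := by
  intro k q b s₀ t₀ _hk hq hco
  obtain ⟨L₀, hL₀⟩ := h2 b
  have hq1 : 1 ≤ q := by
    rcases Nat.eq_zero_or_pos q with rfl | h
    · simp at hq
    · exact h
  have hq3 : q.Coprime 3087 := by
    have a3 : q.Coprime 3 := hq.coprime_dvd_right (by norm_num)
    have a7 : q.Coprime 7 := hq.coprime_dvd_right (by norm_num)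
    have := (a3.pow_right 2).mul_right (a7.pow_right 3)
    simpa using this
  have hqZ : IsCoprime (q : ℤ) (3087 : ℤ) := by
    have := Nat.isCoprime_iff_coprime.2 hq3
    simpa using this
  obtain ⟨sc, hsc1, hsc2⟩ := crt_CLowZ hqZ s₀ (-1)
  obtain ⟨tc, htc1, htc2⟩ := crt_CLowZ hqZ t₀ 4
  obtain ⟨m, hm⟩ : ∃ m : ℕ, m = 3087 * q := ⟨_, rfl⟩
  have hm1 : 1 ≤ m := by omega
  have hmZ : (m : ℤ) = 3087 * q := by rw [hm]; push_cast; ring
  have hM : (1 : ℝ) ≤ m := by exact_mod_cast hm1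
  obtain ⟨Y₀, hY₀⟩ := ev_CLowZ (b + 6) (max L₀ (2560000 * (m : ℝ) ^ 2))
  refine ⟨Y₀, fun Y hY z p ν hz1 hz2 hG hν => ?_⟩
  obtain ⟨hY2, hA, hpow⟩ := hY₀ Y hY
  obtain ⟨hp, -, hp1, hp2, hN⟩ := hG
  have hY0 : 0 < Y := by linarith
  have hexp : Real.exp (Real.log Y / 2) ^ 2 = Y := by
    rw [← Real.exp_nat_mul]
    have : ((2 : ℕ) : ℝ) * (Real.log Y / 2) = Real.log Y := by push_cast; ring
    rw [this, Real.exp_log hY0]
  unfold Nsk at hN
  generalize Real.log Y = L at *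
  have hLa : L₀ ≤ L := (le_max_left _ _).trans hA
  have hLb : 2560000 * (m : ℝ) ^ 2 ≤ L := (le_max_right _ _).trans hA
  have hL1 : 1 ≤ L := by nlinarith
  have hL0 : 0 < L := by linarith
  have hb : L ^ b ≤ Y := (pow_le_pow_right₀ hL1 (by omega)).trans hpow
  have h6 : L ^ 6 ≤ Y := (pow_le_pow_right₀ hL1 (by omega)).trans hpow
  have hY30 : Y ≤ Y ^ 30 := by
    have := pow_le_pow_right₀ (by linarith : 1 ≤ Y) (by norm_num : 1 ≤ 30)
    simpa using this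
  have hzp : z < p := by linarith
  obtain ⟨n, hn⟩ : ∃ n : ℕ, n = ⌊Y / (400 * m * L)⌋₊ := ⟨_, rfl⟩
  obtain ⟨n0, n1, n2, n3, n4, n5, n6⟩ := num_CLowZ (N := n) hM hLb h6
    (hn ▸ Nat.floor_le (by positivity)) (hn ▸ Nat.lt_floor_add_one _)
  have hmz : (m : ℝ) ≤ z := n1.trans hz1
  have hmp : m.Coprime p := by
    have : m < p := by
      have : (m : ℝ) < p := by linarith
      exact_mod_cast this
    exact (Nat.coprime_of_lt_prime (by omega) this hp).symm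
  obtain ⟨X, hX3, hX4, hX6, hXp⟩ := cube_CLowZ hY2 hp1 hp2
  have h15 : 0 < Y ^ 15 := by positivity
  have h16 : Y ^ 16 = Y ^ 15 * Y := by ring
  have hX0 : 0 < X := lt_of_lt_of_le (by positivity) hX4
  have hlam : 0 < Y ^ 15 / L := by positivity
  obtain ⟨s₁, t₁, s₂, t₂, d1, d2, hdet, b1, b2, b3, b4, hstart⟩ := h1 p ν (Y ^ 15 / L) hp hlam
    fun s t hst hd => hN s t hst (fc_dvd_CLowZ hν hd)
  obtain ⟨u, v, m1, m2, c1, c2, c3, c4⟩ := hstart X 0 m sc tc hm1 hmp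
  have hB : 2 * (p : ℝ) / (Y ^ 15 / L) ≤ 4 * Y ^ 15 * L := by
    rw [div_le_iff₀ hlam]
    have : 4 * Y ^ 15 * L * (Y ^ 15 / L) = 4 * Y ^ 30 := by field_simp
    rw [this]; linarith
  have hB2 : 4 * (m : ℝ) * p / (Y ^ 15 / L) ≤ 2 * m * (4 * Y ^ 15 * L) := by
    have : 4 * (m : ℝ) * p / (Y ^ 15 / L) = 2 * m * (2 * (p : ℝ) / (Y ^ 15 / L)) := by ring
    rw [this]; exact mul_le_mul_of_nonneg_left hB (by positivity)
  have hU : 2 * (|X| + |(0 : ℝ)|) / (Y ^ 15 / L) ≤ 12 * Y * L := by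
    rw [div_le_iff₀ hlam, abs_zero, abs_of_pos hX0]
    have : 12 * Y * L * (Y ^ 15 / L) = 12 * Y ^ 16 := by field_simp
    rw [this]; linarith
  have hen : Real.exp (L / 2) ≤ n :=
    (pow_le_pow_iff_left₀ (Real.exp_pos _).le n0 (by norm_num : 2 ≠ 0)).1 (hexp ▸ n2)
  have hS := hL₀ L hLa z (14 * Y * L) m n p s₁ t₁ s₂ t₂ u v hz1 hz2 ⟨1029 * q, by omega⟩ hm1 hmz
    hp hzp hdet hen (by linarith) (by linarith) n4
  have hp0 : (p : ℤ) ≠ 0 := by exact_mod_cast hp.ne_zero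
  have hm0 : (m : ℤ) ≠ 0 := by omega
  have hinj : Function.Injective fun x : ℕ × ℕ =>
      (((u + m * x.1) * s₁ + (v + m * x.2) * s₂, (u + m * x.1) * t₁ + (v + m * x.2) * t₂) :
        ℤ × ℤ) := by
    intro x y hxy
    obtain ⟨e1, e2⟩ := Prod.mk.inj hxy
    have f1 : (p : ℤ) * (m * ((x.1 : ℤ) - y.1)) = 0 := by
      rw [← hdet]; linear_combination t₂ * e1 - s₂ * e2
    have f2 : (p : ℤ) * (m * ((x.2 : ℤ) - y.2)) = 0 := by
      rw [← hdet]; linear_combination s₁ * e2 - t₁ * e1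
    have g1 := (mul_eq_zero.1 ((mul_eq_zero.1 f1).resolve_left hp0)).resolve_left hm0
    have g2 := (mul_eq_zero.1 ((mul_eq_zero.1 f2).resolve_left hp0)).resolve_left hm0
    exact Prod.ext (by omega) (by omega)
  rw [← card_image_of_injective _ hinj] at hS
  refine ⟨_, n5.trans hS, ?_⟩
  intro y hy
  obtain ⟨x, hx, rfl⟩ := mem_image.1 hy
  obtain ⟨hxr, hx1, hx2⟩ := mem_filter.1 hx
  obtain ⟨r1, r2⟩ := mem_product.1 hxr
  have r1' : (x.1 : ℝ) + 1 ≤ n := by exact_mod_cast mem_range.1 r1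
  have r2' : (x.2 : ℝ) + 1 ≤ n := by exact_mod_cast mem_range.1 r2
  dsimp only
  generalize hs : (u + m * x.1) * s₁ + (v + m * x.2) * s₂ = s at hx1 ⊢
  generalize ht : (u + m * x.1) * t₁ + (v + m * x.2) * t₂ = t at hx1 ⊢
  have hsm : s ≡ sc [ZMOD m] := by
    refine Int.ModEq.trans (Int.modEq_iff_dvd.2 ⟨-(x.1 * s₁ + x.2 * s₂), ?_⟩) m1
    rw [← hs]; ring
  have htm : t ≡ tc [ZMOD m] := by
    refine Int.ModEq.trans (Int.modEq_iff_dvd.2 ⟨-(x.1 * t₁ + x.2 * t₂), ?_⟩) m2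
    rw [← ht]; ring
  rw [hmZ] at hsm htm
  have hsq : s ≡ s₀ [ZMOD q] := hsm.of_mul_left.trans hsc1
  have htq : t ≡ t₀ [ZMOD q] := htm.of_mul_left.trans htc1
  have hfin : 2 * (m : ℝ) * n * (4 * Y ^ 15 * L) ≤ X / 100 := by
    have := mul_le_mul_of_nonneg_left n6 h15.le
    nlinarith
  have hsX : |(s : ℝ) - X| ≤ X / 100 := by
    have := near_CLowZ (by linarith : (0 : ℝ) ≤ m) (by positivity) (b1.trans hB) (b3.trans hB)
      (c1.trans hB2) (Nat.cast_nonneg x.1) (Nat.cast_nonneg x.2) r1' r2'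
    have e : (s : ℝ) = ((u * s₁ + v * s₂ : ℤ) : ℝ) + m * (x.1 * s₁ + x.2 * s₂) := by
      rw [← hs]; push_cast; ring
    rw [e]; exact this.trans hfin
  have htX : |(t : ℝ)| ≤ X / 100 := by
    have := near_CLowZ (by linarith : (0 : ℝ) ≤ m) (by positivity) (b2.trans hB) (b4.trans hB)
      (c2.trans hB2) (Nat.cast_nonneg x.1) (Nat.cast_nonneg x.2) r1' r2'
    have e : (t : ℝ) = ((u * t₁ + v * t₂ : ℤ) : ℝ) + m * (x.1 * t₁ + x.2 * t₂) - 0 := by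
      rw [← ht]; push_cast; ring
    rw [e]; exact this.trans hfin
  obtain ⟨k1, k2⟩ := cub_CLowZ hX0 hsX htX
  obtain ⟨hs1, hs2⟩ := abs_le.1 hsX
  have hs0 : 0 < s := by
    have : (0 : ℝ) < s := by linarith
    exact_mod_cast this
  have hsp : s < p := by
    have : (s : ℝ) < p := by linarith
    exact_mod_cast this
  have hfc : ((fc s t : ℤ) : ℝ) = (s : ℝ) ^ 3 - s * t ^ 2 - t ^ 3 := by
    unfold fc; push_cast; ring
  have hpY : 0 < (p : ℝ) * Y ^ 18 := mul_pos (by linarith) (by positivity)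
  refine ⟨?_, hsq, htq, hsm.of_mul_right.trans hsc2, htm.of_mul_right.trans htc2, hs0, hsp, ?_,
    ?_, ?_, ?_, ?_⟩
  · have e : s - ν * t = (u + m * x.1) * (s₁ - ν * t₁) + (v + m * x.2) * (s₂ - ν * t₂) := by
      rw [← hs, ← ht]; ring
    rw [e]; exact (d1.mul_left _).add (d2.mul_left _)
  · have : (50 : ℝ) * |(t : ℝ)| ≤ s := by linarith
    exact_mod_cast this
  · rw [hfc]; rw [hX3] at k1; linarith
  · rw [hfc]; rw [hX3] at k2; linarith
  · intro l hl hlz h21 hdv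
    by_cases hlm : l ∣ m
    · have hlq : l ∣ q := by
        rw [hm] at hlm
        refine ((Nat.Prime.dvd_mul hl).1 hlm).resolve_left fun h => h21 ?_
        have h' : l ∣ 3 ^ 2 * 7 ^ 3 := by simpa using h
        rcases (Nat.Prime.dvd_mul hl).1 h' with h'' | h''
        · exact (hl.dvd_of_dvd_pow h'').trans (by norm_num)
        · exact (hl.dvd_of_dvd_pow h'').trans (by norm_num)
      have hlq' : (l : ℤ) ∣ q := Int.natCast_dvd_natCast.2 hlq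
      have e1 : (l : ℤ) ∣ fc s₀ t₀ - fc s t :=
        hlq'.trans (Int.modEq_iff_dvd.1 (fc_mod_CLowZ hsq htq))
      have e2 : (l : ℤ) ∣ fc s₀ t₀ := by simpa using e1.add hdv
      have e3 := hco.isUnit_of_dvd' e2 hlq'
      exact (Nat.prime_iff_prime_int.1 hl).not_isUnit e3
    · exact hx1 l hl hlz hlm hdv
  · rintro l hl hlz ⟨e1, e2⟩
    have hlp : ¬(l : ℤ) ∣ p := by
      intro h
      have := (Nat.prime_dvd_prime_iff_eq hl hp).1 (Int.natCast_dvd_natCast.1 h)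
      subst this
      exact absurd (Int.le_of_dvd hs0 e1) (not_le.2 hsp)
    have hlP := Nat.prime_iff_prime_int.1 hl
    refine hx2 l hl hlz ⟨?_, ?_⟩
    · refine (hlP.dvd_or_dvd (a := p) ?_).resolve_left hlp
      have e : (p : ℤ) * (u + m * x.1) = s * t₂ - t * s₂ := by rw [← hs, ← ht, ← hdet]; ring
      rw [e]; exact (e1.mul_right _).sub (e2.mul_right _)
    · refine (hlP.dvd_or_dvd (a := p) ?_).resolve_left hlp
      have e : (p : ℤ) * (v + m * x.2) = t * s₁ - s * t₁ := by rw [← hs, ← ht, ← hdet]; ring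
      rw [e]; exact (e2.mul_right _).sub (e1.mul_right _)

end Pool.Agent.MP_adc87d_lc.Big
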