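import Mathlib
import Pool.Agent.Mg.Fadc87d.G0908ea
import Pool.Agent.MP_e23604_nt.P.SW

set_option linter.all false

/-! A short basis of the lattice of a prime, and the number of good primes. -/

set_option autoImplicit false

noncomputable section

open Finset
open scoped Classical

namespace Pool.Agent.MP_adc87d_lc.Big

open Pool.Agent.MP_2a1f0e_nt (ex)

theorem near_CTile (x : ℝ) (a m : ℤ) (hm : m ≠ 0) :
    ∃ j : ℤ, |((a + j * m : ℤ) : ℝ) - x| ≤ |(m : ℝ)| / 2 := by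
  have h0 : (m : ℝ) ≠ 0 := by exact_mod_cast hm
  refine ⟨round ((x - a) / m), ?_⟩
  have h := abs_sub_round ((x - a) / m)
  have e : ((a + round ((x - a) / m) * m : ℤ) : ℝ) - x =
      -(((x - a) / m - round ((x - a) / m)) * m) := by
    push_cast
    field_simp
    ring
  rw [e, abs_neg, abs_mul]
  have := mul_le_mul_of_nonneg_right h (abs_nonneg (m : ℝ))
  linarith

theorem red_CTile (P : ℤ → ℤ → Prop)
    (hP : ∀ j a b c d : ℤ, P a b → P c d → P (c + j * a) (d + j * b))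
    (hn : ∀ a b : ℤ, P a b → P (-a) (-b)) (D s₁ t₁ s₂ t₂ : ℤ) (h1 : P s₁ t₁) (h2 : P s₂ t₂)
    (hd : s₁ * t₂ - s₂ * t₁ = D) (hD : D ≠ 0)
    (hmin : ∀ a b c d : ℤ, P a b → P c d → a * d - c * b = D → |s₁| ≤ max |a| |b|)
    (hst : |t₁| ≤ |s₁|) :
    ∃ s t : ℤ, P s t ∧ s₁ * t - s * t₁ = D ∧ |s₁| * |s₁| ≤ 2 * |D| ∧ |s| * |s₁| ≤ 2 * |D| ∧
      |t| * |s₁| ≤ 2 * |D| := by
  have hs : s₁ ≠ 0 := by
    rintro rfl
    have : t₁ = 0 := by simpa using hst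
    subst this
    simp at hd
    exact hD hd.symm
  obtain ⟨j, hj⟩ := near_CTile 0 s₂ s₁ hs
  have hj' : 2 * |s₂ + j * s₁| ≤ |s₁| := by
    rw [sub_zero] at hj
    have : (2 : ℝ) * |((s₂ + j * s₁ : ℤ) : ℝ)| ≤ |(s₁ : ℝ)| := by linarith
    exact_mod_cast this
  have q := hP j _ _ _ _ h1 h2
  have hd' : s₁ * (t₂ + j * t₁) - (s₂ + j * s₁) * t₁ = D := by linear_combination hd
  generalize s₂ + j * s₁ = s at *
  generalize t₂ + j * t₁ = t at *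
  have m0 : 0 < |s₁| := abs_pos.2 hs
  have a1 := hmin s t (-s₁) (-t₁) q (hn _ _ h1) (by linear_combination hd')
  have a2 : |s₁| ≤ |t| := by
    rcases le_max_iff.1 a1 with h | h
    · linarith
    · exact h
  have a3 : |s₁| * |t| ≤ |D| + |s| * |t₁| := by
    rw [← abs_mul, ← abs_mul, show s₁ * t = D + s * t₁ by linear_combination hd']
    exact abs_add_le _ _
  have a4 : 2 * (|s| * |t₁|) ≤ |s₁| * |s₁| := by
    rw [← mul_assoc]
    exact mul_le_mul hj' hst (abs_nonneg _) m0.le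
  have a5 : |s₁| * |s₁| ≤ |s₁| * |t| := mul_le_mul_of_nonneg_left a2 m0.le
  have a6 : |s| * |s₁| ≤ |s₁| * |s₁| :=
    mul_le_mul_of_nonneg_right (by linarith [abs_nonneg s]) m0.le
  refine ⟨s, t, q, hd', by linarith, by linarith, ?_⟩
  rw [mul_comm |t|]
  linarith

theorem basis_CTile (p : ℕ) (ν : ℤ) (hp : 0 < p) :
    ∃ s₁ t₁ s₂ t₂ : ℤ, (p : ℤ) ∣ s₁ - ν * t₁ ∧ (p : ℤ) ∣ s₂ - ν * t₂ ∧ s₁ * t₂ - s₂ * t₁ = p ∧
      max |s₁| |t₁| * max |s₁| |t₁| ≤ 2 * p ∧ |s₂| * max |s₁| |t₁| ≤ 2 * p ∧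
      |t₂| * max |s₁| |t₁| ≤ 2 * p := by
  have hex : ∃ n : ℕ, ∃ a b c d : ℤ, (p : ℤ) ∣ a - ν * b ∧ (p : ℤ) ∣ c - ν * d ∧
      a * d - c * b = p ∧ max |a| |b| = n :=
    ⟨p, p, 0, ν, 1, by simp, by simp, by simp, by simp⟩
  obtain ⟨s₁, t₁, s₂, t₂, h1, h2, hd, hn⟩ := Nat.find_spec hex
  have hmin : ∀ a b c d : ℤ, (p : ℤ) ∣ a - ν * b → (p : ℤ) ∣ c - ν * d → a * d - c * b = p →
      max |s₁| |t₁| ≤ max |a| |b| := by
    intro a b c d e1 e2 e3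
    have z : 0 ≤ max |a| |b| := le_max_of_le_left (abs_nonneg a)
    have := Nat.find_min' hex ⟨a, b, c, d, e1, e2, e3, (Int.toNat_of_nonneg z).symm⟩
    rw [hn, ← Int.toNat_of_nonneg z]
    exact_mod_cast this
  have p0 : (p : ℤ) ≠ 0 := by exact_mod_cast hp.ne'
  have k1 : ∀ j a b c d : ℤ, (p : ℤ) ∣ a - ν * b → (p : ℤ) ∣ c - ν * d →
      (p : ℤ) ∣ (c + j * a) - ν * (d + j * b) := fun j a b c d e1 e2 => by
    rw [show (c + j * a) - ν * (d + j * b) = (c - ν * d) + j * (a - ν * b) by ring]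
    exact e2.add (e1.mul_left j)
  have k2 : ∀ a b : ℤ, (p : ℤ) ∣ a - ν * b → (p : ℤ) ∣ -a - ν * -b := fun a b e => by
    rw [show -a - ν * -b = -(a - ν * b) by ring]
    exact e.neg_right
  rcases le_total |t₁| |s₁| with h | h
  · obtain ⟨s, t, a1, a2, a3, a4, a5⟩ := red_CTile (fun a b => (p : ℤ) ∣ a - ν * b) k1 k2 p s₁ t₁ s₂ t₂
      h1 h2 hd p0 (fun a b c d e1 e2 e3 => (le_max_left _ _).trans (hmin a b c d e1 e2 e3)) h
    rw [Nat.abs_cast] at a3 a4 a5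
    exact ⟨s₁, t₁, s, t, h1, a1, a2, by rwa [max_eq_left h], by rwa [max_eq_left h],
      by rwa [max_eq_left h]⟩
  · obtain ⟨t, s, a1, a2, a3, a4, a5⟩ := red_CTile (fun b a => (p : ℤ) ∣ a - ν * b)
      (fun j a b c d => k1 j b a d c) (fun a b => k2 b a) (-p) t₁ s₁ t₂ s₂
      h1 h2 (by linear_combination -hd) (neg_ne_zero.2 p0) (fun a b c d e1 e2 e3 => by
        rw [max_comm]
        exact (le_max_right _ _).trans (hmin b a d c e1 e2 (by linear_combination -e3))) h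
    rw [abs_neg, Nat.abs_cast] at a3 a4 a5
    exact ⟨s₁, t₁, s, t, h1, a1, by linear_combination -a2, by rwa [max_eq_right h],
      by rwa [max_eq_right h], by rwa [max_eq_right h]⟩

theorem ctile : TileStmt := by
  intro p ν lam hp hl hs
  obtain ⟨s₁, t₁, s₂, t₂, h1, h2, hd, a1, a2, a3⟩ := basis_CTile p ν hp.pos
  have p0 : (0 : ℝ) < p := by exact_mod_cast hp.pos
  have hne : s₁ ≠ 0 ∨ t₁ ≠ 0 := by
    by_contra h
    rw [not_or, not_not, not_not] at h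
    rw [h.1, h.2] at hd
    have : (p : ℤ) = 0 := by linear_combination -hd
    exact hp.ne_zero (by exact_mod_cast this)
  have hm := hs s₁ t₁ hne h1
  have b1 : max |(s₁ : ℝ)| |(t₁ : ℝ)| * max |(s₁ : ℝ)| |(t₁ : ℝ)| ≤ 2 * p := by exact_mod_cast a1
  have b2 : |(s₂ : ℝ)| * max |(s₁ : ℝ)| |(t₁ : ℝ)| ≤ 2 * p := by exact_mod_cast a2
  have b3 : |(t₂ : ℝ)| * max |(s₁ : ℝ)| |(t₁ : ℝ)| ≤ 2 * p := by exact_mod_cast a3
  have key : ∀ x : ℝ, 0 ≤ x → x * max |(s₁ : ℝ)| |(t₁ : ℝ)| ≤ 2 * p → x ≤ 2 * p / lam :=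
    fun x hx h => by
      rw [le_div_iff₀ hl]
      exact (mul_le_mul_of_nonneg_left hm hx).trans h
  have c0 := key _ (hl.le.trans hm) b1
  have c1 : |(s₁ : ℝ)| ≤ 2 * p / lam := (le_max_left _ _).trans c0
  have c2 : |(t₁ : ℝ)| ≤ 2 * p / lam := (le_max_right _ _).trans c0
  have c3 := key _ (abs_nonneg _) b2
  have c4 := key _ (abs_nonneg _) b3
  refine ⟨s₁, t₁, s₂, t₂, h1, h2, hd, c1, c2, c3, c4, fun X₁ X₂ m s₀ t₀ hm1 hc => ?_⟩
  obtain ⟨a, b, hab⟩ : IsCoprime (m : ℤ) p := Nat.isCoprime_iff_coprime.2 hc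
  have m0 : (m : ℤ) ≠ 0 := by exact_mod_cast (by omega : m ≠ 0)
  have m1 : (0 : ℝ) ≤ m := Nat.cast_nonneg m
  obtain ⟨i, hi⟩ := near_CTile ((X₁ * t₂ - X₂ * s₂) / p) (b * (s₀ * t₂ - t₀ * s₂)) m m0
  obtain ⟨j, hj⟩ := near_CTile ((X₂ * s₁ - X₁ * t₁) / p) (b * (t₀ * s₁ - s₀ * t₁)) m m0
  rw [Int.cast_natCast, Nat.abs_cast] at hi hj
  refine ⟨b * (s₀ * t₂ - t₀ * s₂) + i * m, b * (t₀ * s₁ - s₀ * t₁) + j * m,
    Int.modEq_iff_dvd.2 ⟨a * s₀ - i * s₁ - j * s₂, ?_⟩,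
    Int.modEq_iff_dvd.2 ⟨a * t₀ - i * t₁ - j * t₂, ?_⟩, ?_⟩
  · linear_combination (-s₀) * hab - b * s₀ * hd
  · linear_combination (-t₀) * hab - b * t₀ * hd
  generalize b * (s₀ * t₂ - t₀ * s₂) + i * m = u at *
  generalize b * (t₀ * s₁ - s₀ * t₁) + j * m = v at *
  have hd' : (s₁ : ℝ) * t₂ - s₂ * t₁ = p := by exact_mod_cast hd
  have W0 : 0 ≤ 2 * (p : ℝ) / lam := by positivity
  have two : ∀ x y z w : ℝ, |x| ≤ m / 2 → |y| ≤ m / 2 → |z| ≤ 2 * p / lam → |w| ≤ 2 * p / lam →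
      |x * z + y * w| ≤ 4 * m * p / lam := fun x y z w e1 e2 e3 e4 => by
    have f1 := mul_le_mul e1 e3 (abs_nonneg _) (by positivity)
    have f2 := mul_le_mul e2 e4 (abs_nonneg _) (by positivity)
    have f3 := abs_add_le (x * z) (y * w)
    rw [abs_mul, abs_mul] at f3
    have f4 : 4 * (m : ℝ) * p / lam = 2 * (m * (2 * p / lam)) := by ring
    have f5 : 0 ≤ m * (2 * (p : ℝ) / lam) := by positivity
    linarith
  have one : ∀ r x y z w : ℝ, |r - (x * z - y * w) / p| ≤ m / 2 → |z| ≤ 2 * p / lam →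
      |w| ≤ 2 * p / lam → |r| ≤ 2 * (|x| + |y|) / lam + m := fun r x y z w e1 e3 e4 => by
    have f1 := mul_le_mul_of_nonneg_left e3 (abs_nonneg x)
    have f2 := mul_le_mul_of_nonneg_left e4 (abs_nonneg y)
    have f3 := abs_sub (x * z) (y * w)
    rw [abs_mul, abs_mul] at f3
    have f4 : |(x * z - y * w) / p| ≤ 2 * (|x| + |y|) / lam := by
      rw [abs_div, abs_of_pos p0, div_le_iff₀ p0]
      have : 2 * (|x| + |y|) / lam * p = |x| * (2 * p / lam) + |y| * (2 * p / lam) := by ring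
      linarith
    have f5 := abs_add_le (r - (x * z - y * w) / p) ((x * z - y * w) / p)
    rw [sub_add_cancel] at f5
    linarith
  refine ⟨?_, ?_, one _ _ _ _ _ hi c4 c3, ?_⟩
  · refine le_of_eq_of_le ?_ (two _ _ _ _ hi hj c1 c3)
    congr 1
    push_cast
    field_simp
    linear_combination X₁ * hd'
  · refine le_of_eq_of_le ?_ (two _ _ _ _ hi hj c2 c4)
    congr 1
    push_cast
    field_simp
    linear_combination X₂ * hd'
  · rw [add_comm |X₁|]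
    exact one _ _ _ _ _ hj c1 c2

theorem fc_ne_CTile {s t : ℤ} (h : s ≠ 0 ∨ t ≠ 0) : fc s t ≠ 0 := fun e => by
  have := Nm_eq_zero ((Nm_lin s t).trans e)
  have a := congrArg O.a this
  have b := congrArg O.b this
  simp only [O.zero_a, O.zero_b, neg_eq_zero] at a b
  tauto

theorem fc_le_CTile {s t : ℤ} {M : ℝ} (hs : |(s : ℝ)| ≤ M) (ht : |(t : ℝ)| ≤ M) :
    |((fc s t : ℤ) : ℝ)| ≤ 3 * M ^ 3 := by
  have m0 : 0 ≤ M := (abs_nonneg _).trans hs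
  have e : ((fc s t : ℤ) : ℝ) = (s : ℝ) ^ 3 - s * t ^ 2 - t ^ 3 := by simp [fc]
  have a1 := abs_sub ((s : ℝ) ^ 3 - s * t ^ 2) ((t : ℝ) ^ 3)
  have a2 := abs_sub ((s : ℝ) ^ 3) (s * t ^ 2)
  rw [abs_mul, abs_pow, abs_pow] at a2
  rw [abs_pow] at a1
  have b1 : |(s : ℝ)| ^ 3 ≤ M ^ 3 := by gcongr
  have b2 : |(t : ℝ)| ^ 3 ≤ M ^ 3 := by gcongr
  have b3 : |(s : ℝ)| * |(t : ℝ)| ^ 2 ≤ M * M ^ 2 := by gcongr
  rw [e]
  linarith [show M * M ^ 2 = M ^ 3 by ring]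

theorem bad_CTile (Y : ℝ) (A : Finset ℕ) (hY : 3 ≤ Y) (hL : 1 ≤ Real.log Y)
    (hA : ∀ p ∈ A, p.Prime ∧ Y ^ 30 < p) :
    ((A.filter fun p => ¬Nsk Y p).card : ℝ) ≤ 9 * Y ^ 30 / Real.log Y ^ 2 := by
  have y0 : 0 < Y := by linarith
  have y1 : 1 ≤ Y := by linarith
  have l1 : Real.log Y ≤ Y ^ 15 :=
    (Real.log_le_self y0.le).trans (le_self_pow₀ y1 (by norm_num))
  obtain ⟨lam, hlam⟩ : ∃ lam, lam = Y ^ 15 / Real.log Y := ⟨_, rfl⟩
  have q1 : 1 ≤ lam := by rw [hlam, le_div_iff₀ (by linarith)]; linarith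
  have q2 : lam ≤ Y ^ 15 := by rw [hlam]; exact div_le_self (by positivity) hL
  have hsub : (A.filter fun p => ¬Nsk Y p) ⊆
      (Icc (-⌊lam⌋) ⌊lam⌋ ×ˢ Icc (-⌊lam⌋) ⌊lam⌋).biUnion fun x : ℤ × ℤ =>
        A.filter fun p => (x.1 ≠ 0 ∨ x.2 ≠ 0) ∧ (p : ℤ) ∣ fc x.1 x.2 := by
    intro p hp
    obtain ⟨h1, h2⟩ := mem_filter.1 hp
    simp only [Nsk, not_forall, not_le] at h2
    obtain ⟨s, t, e1, e2, e3⟩ := h2
    rw [← hlam, max_lt_iff, abs_lt, abs_lt] at e3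
    have f : ∀ z : ℤ, -lam < z ∧ z < lam → z ∈ Icc (-⌊lam⌋) ⌊lam⌋ := fun z hz =>
      mem_Icc.2 ⟨neg_le.1 (Int.le_floor.2 (by push_cast; linarith [hz.1])), Int.le_floor.2 hz.2.le⟩
    exact mem_biUnion.2 ⟨(s, t), mem_product.2 ⟨f s e3.1, f t e3.2⟩, mem_filter.2 ⟨h1, e1, e2⟩⟩
  have hc := (card_le_card hsub).trans (card_biUnion_le_card_mul _ _ 1 fun x hx => by
    refine card_le_one.2 fun p hp q hq => ?_
    obtain ⟨p1, p2, p3⟩ := mem_filter.1 hp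
    obtain ⟨r1, -, r3⟩ := mem_filter.1 hq
    by_contra hne
    have co : IsCoprime (p : ℤ) q :=
      Nat.isCoprime_iff_coprime.2 ((Nat.coprime_primes (hA p p1).1 (hA q r1).1).2 hne)
    have dv := Int.le_of_dvd (abs_pos.2 (fc_ne_CTile p2)) ((dvd_abs _ _).2 (co.mul_dvd p3 r3))
    have dv' : (p : ℝ) * q ≤ |((fc x.1 x.2 : ℤ) : ℝ)| := by exact_mod_cast dv
    have f : ∀ z : ℤ, z ∈ Icc (-⌊lam⌋) ⌊lam⌋ → |(z : ℝ)| ≤ Y ^ 15 := fun z hz => by
      have : |z| ≤ ⌊lam⌋ := abs_le.2 (mem_Icc.1 hz)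
      have : |(z : ℝ)| ≤ ⌊lam⌋ := by exact_mod_cast this
      linarith [Int.floor_le lam]
    have g := fc_le_CTile (f _ (mem_product.1 hx).1) (f _ (mem_product.1 hx).2)
    have g1 : Y ^ 30 * Y ^ 30 < p * q :=
      mul_lt_mul'' (hA p p1).2 (hA q r1).2 (by positivity) (by positivity)
    have g2 : 3 ≤ Y ^ 15 := hY.trans (le_self_pow₀ y1 (by norm_num))
    have g3 : 3 * (Y ^ 15) ^ 3 ≤ Y ^ 15 * (Y ^ 15) ^ 3 := by gcongr
    have g4 : Y ^ 15 * (Y ^ 15) ^ 3 = Y ^ 30 * Y ^ 30 := by ring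
    linarith)
  have f0 : 0 ≤ ⌊lam⌋ := Int.floor_nonneg.2 (by linarith)
  have hI : ((Icc (-⌊lam⌋) ⌊lam⌋).card : ℝ) ≤ 3 * lam := by
    have : ((Icc (-⌊lam⌋) ⌊lam⌋).card : ℤ) = ⌊lam⌋ + 1 - -⌊lam⌋ :=
      Int.card_Icc_of_le _ _ (by linarith)
    have : ((Icc (-⌊lam⌋) ⌊lam⌋).card : ℝ) = ⌊lam⌋ + 1 - -⌊lam⌋ := by exact_mod_cast this
    linarith [Int.floor_le lam]
  rw [mul_one, card_product] at hc
  have hc' : ((A.filter fun p => ¬Nsk Y p).card : ℝ) ≤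
      (Icc (-⌊lam⌋) ⌊lam⌋).card * (Icc (-⌊lam⌋) ⌊lam⌋).card := by exact_mod_cast hc
  refine hc'.trans ((mul_le_mul hI hI (Nat.cast_nonneg _) (by linarith)).trans (le_of_eq ?_))
  rw [hlam]
  ring

theorem cmass : MassStmt := by
  intro k hk
  have co : Nat.Coprime (3 ^ k) 23 := Nat.Coprime.pow_left _ (by norm_num)
  obtain ⟨c, c1, c2⟩ := Nat.chineseRemainder co 1 5
  have cc : Nat.Coprime c (3 ^ k * 23) := by
    refine Nat.Coprime.mul_right ?_ ?_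
    · rw [Nat.Coprime, c1.gcd_eq]; simp
    · rw [Nat.Coprime, c2.gcd_eq]; norm_num
  obtain ⟨d, hd⟩ : ∃ d, d = 3 ^ k * 23 := ⟨_, rfl⟩
  have d1 : 1 ≤ d := by rw [hd]; exact Nat.one_le_iff_ne_zero.2 (by positivity)
  obtain ⟨x0, h0⟩ := Pool.Agent.MP_e23604_nt.P.siegel_walfisz 1 1
  have f0 : (0 : ℝ) < d.totient := by exact_mod_cast Nat.totient_pos.2 d1
  have f1 : (d.totient : ℝ) ≤ d := by exact_mod_cast Nat.totient_le d
  have hev : ∀ᶠ Y : ℝ in Filter.atTop, x0 ≤ Y ∧ 3 ≤ Y ∧ 1116 * (d : ℝ) ≤ Real.log Y := by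
    filter_upwards [Filter.eventually_ge_atTop x0, Filter.eventually_ge_atTop 3,
      Real.tendsto_log_atTop.eventually_ge_atTop (1116 * (d : ℝ))] with Y a b e
    exact ⟨a, b, e⟩
  obtain ⟨Y₀, hY₀⟩ := Filter.eventually_atTop.1 hev
  refine ⟨1 / (124 * d.totient), by positivity, Y₀, fun Y hY => ?_⟩
  obtain ⟨a1, a2, a3⟩ := hY₀ Y hY
  have d2 : (1 : ℝ) ≤ d := by exact_mod_cast d1
  have y0 : 0 < Y := by linarith
  have y1 : 1 ≤ Y := by linarith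
  have L1 : 1 ≤ Real.log Y := by linarith
  obtain ⟨P, hP⟩ : ∃ P, P = Y ^ 30 := ⟨_, rfl⟩
  have p1 : Y ≤ P := by rw [hP]; exact le_self_pow₀ y1 (by norm_num)
  have p0 : 0 < P := by linarith
  have l1 : Real.log P = 30 * Real.log Y := by rw [hP, Real.log_pow]; norm_num
  have l2 : Real.log P ≤ Real.log (2 * P) := Real.log_le_log p0 (by linarith)
  have l3 : Real.log (2 * P) ≤ 31 * Real.log Y := by
    rw [Real.log_mul (by norm_num) p0.ne', l1]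
    linarith [Real.log_le_log (by norm_num : (0 : ℝ) < 2) (by linarith : 2 ≤ Y)]
  have s1 := h0 P (by linarith) d c d1 (by rw [pow_one]; linarith) (hd ▸ cc)
  have s2 := h0 (2 * P) (by linarith) d c d1 (by rw [pow_one]; linarith) (hd ▸ cc)
  rw [pow_one, abs_le] at s1 s2
  obtain ⟨A, hA⟩ : ∃ A, A = ((Icc 1 ⌊2 * P⌋₊).filter fun n => n.Prime ∧ n % d = c % d).filter
    fun n : ℕ => P < n := ⟨_, rfl⟩
  have mA : ∀ p ∈ A, p.Prime ∧ p % d = c % d ∧ P < p ∧ (p : ℝ) ≤ 2 * P := fun p hp => by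
    rw [hA, mem_filter, mem_filter, mem_Icc] at hp
    exact ⟨hp.1.2.1, hp.1.2.2, hp.2, (Nat.le_floor_iff (by linarith)).1 hp.1.1.2⟩
  have sp := sum_filter_add_sum_filter_not
    ((Icc 1 ⌊2 * P⌋₊).filter fun n => n.Prime ∧ n % d = c % d) (fun n : ℕ => P < n)
    fun n => Real.log n
  rw [← hA] at sp
  have s3 : ∑ n ∈ ((Icc 1 ⌊2 * P⌋₊).filter fun n => n.Prime ∧ n % d = c % d).filter
      (fun n : ℕ => ¬P < n), Real.log n ≤
      ∑ n ∈ (Icc 1 ⌊P⌋₊).filter fun n => n.Prime ∧ n % d = c % d, Real.log n := by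
    refine sum_le_sum_of_subset_of_nonneg (fun n hn => ?_) fun n _ _ => Real.log_natCast_nonneg n
    rw [mem_filter, mem_filter, mem_Icc, not_lt] at hn
    exact mem_filter.2 ⟨mem_Icc.2 ⟨hn.1.1.1, Nat.le_floor hn.2⟩, hn.1.2⟩
  have s4 : ∑ n ∈ A, Real.log n ≤ A.card * (31 * Real.log Y) := by
    rw [← nsmul_eq_mul]
    refine sum_le_card_nsmul _ _ _ fun n hn => ?_
    exact (Real.log_le_log (by linarith [(mA n hn).2.2.1]) (mA n hn).2.2.2).trans l3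
  have e1 : P / Real.log P ≤ P / d.totient / 6 := by
    rw [div_div]
    exact div_le_div_of_nonneg_left p0.le (by positivity) (by linarith)
  have e2 : 2 * P / Real.log (2 * P) ≤ 2 * P / d.totient / 6 := by
    rw [div_div]
    exact div_le_div_of_nonneg_left (by linarith) (by positivity) (by linarith)
  have e3 : 2 * P / d.totient = 2 * (P / d.totient) := by ring
  have s5 : P / d.totient / 2 ≤ A.card * (31 * Real.log Y) := by linarith [s1.2, s2.1]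
  have s6 : P / d.totient / (62 * Real.log Y) ≤ A.card := by
    rw [div_le_iff₀ (by positivity)]
    linarith
  have b1 := bad_CTile Y A a2 L1 fun p hp => ⟨(mA p hp).1, hP ▸ (mA p hp).2.2.1⟩
  have b2 : ((A.filter fun p => Nsk Y p).card : ℝ) + (A.filter fun p => ¬Nsk Y p).card = A.card := by
    exact_mod_cast card_filter_add_card_filter_not (s := A) fun p => Nsk Y p
  rw [← hP] at b1 ⊢
  have b3 : 9 * P / Real.log Y ^ 2 ≤ P / d.totient / (124 * Real.log Y) := by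
    rw [div_div, div_le_div_iff₀ (by positivity) (by positivity)]
    have : 1116 * (d.totient : ℝ) ≤ Real.log Y := by linarith
    have := mul_le_mul_of_nonneg_left this (by positivity : 0 ≤ P * Real.log Y)
    nlinarith
  refine ⟨A.filter fun p => Nsk Y p, fun p hp => ?_, ?_⟩
  · obtain ⟨h1, h2⟩ := mem_filter.1 hp
    obtain ⟨g1, g2, g3, g4⟩ := mA p h1
    have g5 : p ≡ c [MOD 3 ^ k * 23] := hd ▸ g2
    refine ⟨g1, ⟨?_, ?_⟩, hP ▸ g3, hP ▸ g4, h2⟩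
    · have : p ≡ 1 [MOD 3 ^ k] := (g5.of_mul_right 23).trans c1
      rw [this, Nat.mod_eq_of_lt (Nat.one_lt_pow (by omega) (by norm_num))]
    · have : p ≡ 5 [MOD 23] := (g5.of_mul_left _).trans c2
      rw [(ZMod.natCast_eq_natCast_iff _ _ _).2 this]
      decide
  · have t1 : P / d.totient / (62 * Real.log Y) = 2 * (P / d.totient / (124 * Real.log Y)) := by
      ring
    have t2 : 1 / (124 * (d.totient : ℝ)) * P / Real.log Y = P / d.totient / (124 * Real.log Y) := by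
      ring
    linarith

end Pool.Agent.MP_adc87d_lc.Big
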