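import Pool.Agent.Mg.Fadc87d.G04e6de
import Mathlib

set_option linter.all false

section

set_option autoImplicit false

namespace Pool.Agent.MP_adc87d_lc.Big

section
variable {p : ℕ} [Fact p.Prime]

/-- congruence of integral elements -/
structure Cn_Cmp (ε : ℝ) (a b : ℚ_[p]) : Prop where
  l : ‖a‖ ≤ 1
  r : ‖b‖ ≤ 1
  d : ‖a - b‖ ≤ ε

lemma add_le_Cmp {a b : ℚ_[p]} {r : ℝ} (ha : ‖a‖ ≤ r) (hb : ‖b‖ ≤ r) : ‖a + b‖ ≤ r :=
  (IsUltrametricDist.norm_add_le_max a b).trans (max_le ha hb)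

lemma mul_le_Cmp {a b : ℚ_[p]} {r : ℝ} (ha : ‖a‖ ≤ 1) (hb : ‖b‖ ≤ r) : ‖a * b‖ ≤ r := by
  rw [norm_mul]
  exact (mul_le_of_le_one_left (norm_nonneg _) ha).trans hb

namespace Cn_Cmp
variable {ε : ℝ} {a b c d : ℚ_[p]}

lemma refl (hε : 0 ≤ ε) (ha : ‖a‖ ≤ 1) : Cn_Cmp ε a a := ⟨ha, ha, by simpa using hε⟩

lemma nat (hε : 0 ≤ ε) (n : ℕ) : Cn_Cmp ε (n : ℚ_[p]) n :=
  refl hε (IsUltrametricDist.norm_natCast_le_one _ n)

lemma symm (h : Cn_Cmp ε a b) : Cn_Cmp ε b a := ⟨h.r, h.l, by rw [norm_sub_rev]; exact h.d⟩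

lemma trans (h : Cn_Cmp ε a b) (h' : Cn_Cmp ε b c) : Cn_Cmp ε a c :=
  ⟨h.l, h'.r, by
    have : a - c = (a - b) + (b - c) := by ring
    rw [this]; exact add_le_Cmp h.d h'.d⟩

lemma of_right (hε : ε ≤ 1) (hb : ‖b‖ ≤ 1) (h : ‖a - b‖ ≤ ε) : Cn_Cmp ε a b :=
  ⟨by
    have : a = (a - b) + b := by ring
    rw [this]; exact add_le_Cmp (h.trans hε) hb, hb, h⟩

lemma add (h : Cn_Cmp ε a b) (h' : Cn_Cmp ε c d) : Cn_Cmp ε (a + c) (b + d) :=
  ⟨add_le_Cmp h.l h'.l, add_le_Cmp h.r h'.r, by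
    have : a + c - (b + d) = (a - b) + (c - d) := by ring
    rw [this]; exact add_le_Cmp h.d h'.d⟩

lemma neg (h : Cn_Cmp ε a b) : Cn_Cmp ε (-a) (-b) :=
  ⟨by rw [norm_neg]; exact h.l, by rw [norm_neg]; exact h.r, by
    have : -a - -b = -(a - b) := by ring
    rw [this, norm_neg]; exact h.d⟩

lemma sub (h : Cn_Cmp ε a b) (h' : Cn_Cmp ε c d) : Cn_Cmp ε (a - c) (b - d) := by
  rw [sub_eq_add_neg, sub_eq_add_neg]; exact h.add h'.neg

lemma mul (h : Cn_Cmp ε a b) (h' : Cn_Cmp ε c d) : Cn_Cmp ε (a * c) (b * d) :=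
  ⟨mul_le_Cmp h.l h'.l, mul_le_Cmp h.r h'.r, by
    have : a * c - b * d = a * (c - d) + d * (a - b) := by ring
    rw [this]; exact add_le_Cmp (mul_le_Cmp h.l h'.d) (mul_le_Cmp h'.r h.d)⟩

lemma pow (h : Cn_Cmp ε a b) (n : ℕ) : Cn_Cmp ε (a ^ n) (b ^ n) := by
  induction n with
  | zero => simpa using refl ((norm_nonneg _).trans h.d) (a := (1 : ℚ_[p])) (by simp)
  | succ n ih => rw [pow_succ, pow_succ]; exact ih.mul h

lemma unit (h : Cn_Cmp ε a b) (hε : ε < 1) (hb : ‖b‖ = 1) : ‖a‖ = 1 := by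
  refine le_antisymm h.l ?_
  by_contra hc
  push Not at hc
  have h1 : b = a + -(a - b) := by ring
  have h2 := IsUltrametricDist.norm_add_le_max a (-(a - b))
  rw [← h1, hb, norm_neg] at h2
  exact absurd h2 (not_le.2 (max_lt hc (h.d.trans_lt hε)))

lemma inv (h : Cn_Cmp ε a b) (hε : ε < 1) (hb : ‖b‖ = 1) : Cn_Cmp ε a⁻¹ b⁻¹ := by
  have ha := h.unit hε hb
  have ha0 : a ≠ 0 := by rintro rfl; simp at ha
  have hb0 : b ≠ 0 := by rintro rfl; simp at hb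
  refine ⟨by simp [ha], by simp [hb], ?_⟩
  have : a⁻¹ - b⁻¹ = -(a - b) * a⁻¹ * b⁻¹ := by field_simp; ring
  rw [this, norm_mul, norm_mul, norm_inv, norm_inv, ha, hb, norm_neg]
  simpa using h.d

lemma div (h : Cn_Cmp ε a b) (h' : Cn_Cmp ε c d) (hε : ε < 1) (hd : ‖d‖ = 1) :
    Cn_Cmp ε (a / c) (b / d) := by
  rw [div_eq_mul_inv, div_eq_mul_inv]; exact h.mul (h'.inv hε hd)

end Cn_Cmp

lemma units_Cmp (hp : ¬p ∣ 2 * 3 * 7 * 23) : ‖(2 : ℚ_[p])‖ = 1 ∧ ‖(3 : ℚ_[p])‖ = 1 ∧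
    ‖(7 : ℚ_[p])‖ = 1 ∧ ‖(23 : ℚ_[p])‖ = 1 := by
  have key : ∀ n : ℕ, n ∣ 2 * 3 * 7 * 23 → ‖(n : ℚ_[p])‖ = 1 := fun n hn =>
    Padic.norm_natCast_eq_one_iff.2
      ((Nat.Prime.coprime_iff_not_dvd Fact.out).2 fun h => hp (h.trans hn))
  exact ⟨key 2 (by norm_num), key 3 (by norm_num), key 7 (by norm_num), key 23 (by norm_num)⟩

lemma unit_Cmp (hp : ¬p ∣ 2 * 3 * 7 * 23) (a b c d : ℕ) (x : ℚ_[p])
    (hx : x = 2 ^ a * 3 ^ b * 7 ^ c * 23 ^ d) : ‖x‖ = 1 := by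
  obtain ⟨h2, h3, h7, h23⟩ := units_Cmp hp
  rw [hx]
  simp [h2, h3, h7, h23]

lemma norm_of_pow_Cmp {x : ℚ_[p]} {n : ℕ} (hn : n ≠ 0) (h : ‖x ^ n‖ = 1) : ‖x‖ = 1 := by
  rw [norm_pow] at h
  exact (pow_eq_one_iff_of_nonneg (norm_nonneg _) hn).1 h

lemma integral_Cmp (hp : ¬p ∣ 2 * 3 * 7 * 23) {s t : ℚ_[p]} (hf : ‖fc s t‖ = 1)
    (hH : ‖Hc s t‖ = 1) : ‖s‖ ≤ 1 ∧ ‖t‖ ≤ 1 := by
  have h23 := (units_Cmp hp).2.2.2
  set m := max ‖s‖ ‖t‖ with hm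
  suffices h : m ≤ 1 from ⟨(le_max_left _ _).trans h, (le_max_right _ _).trans h⟩
  by_contra hc
  push Not at hc
  have hs : ‖s‖ ≤ m := le_max_left _ _
  have ht : ‖t‖ ≤ m := le_max_right _ _
  have hmm : m ≤ m ^ 2 := by nlinarith
  have nat : ∀ n : ℕ, ‖(n : ℚ_[p])‖ ≤ 1 := fun n => IsUltrametricDist.norm_natCast_le_one _ n
  have q : ∀ x y : ℚ_[p], ‖x‖ ≤ m → ‖y‖ ≤ m → ‖x * y‖ ≤ m ^ 2 := fun x y hx hy => by
    rw [norm_mul, sq]; exact mul_le_mul hx hy (norm_nonneg _) (by linarith)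
  have ng : ∀ (x : ℚ_[p]) (r : ℝ), ‖x‖ ≤ r → ‖-x‖ ≤ r := fun x r h => by rwa [norm_neg]
  have e1 : 23 * s ^ 4 = fc s t * (26 * s + 3 * t) + Hc s t * (-(s * s) + 2 * (s * t) + 3 * (t * t)) := by
    simp only [fc, Hc]; ring
  have e2 : 23 * t ^ 4 = fc s t * (-(9 * s) + -(27 * t)) + Hc s t * (3 * (s * s) + -(4 * (t * t))) := by
    simp only [fc, Hc]; ring
  have b1 : ‖23 * s ^ 4‖ ≤ m ^ 2 := by
    rw [e1]
    exact add_le_Cmp (mul_le_Cmp hf.le ((add_le_Cmp (mul_le_Cmp (nat 26) hs)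
      (mul_le_Cmp (nat 3) ht)).trans hmm)) (mul_le_Cmp hH.le (add_le_Cmp (add_le_Cmp
      (ng _ _ (q s s hs hs)) (mul_le_Cmp (nat 2) (q s t hs ht))) (mul_le_Cmp (nat 3) (q t t ht ht))))
  have b2 : ‖23 * t ^ 4‖ ≤ m ^ 2 := by
    rw [e2]
    exact add_le_Cmp (mul_le_Cmp hf.le ((add_le_Cmp (ng _ _ (mul_le_Cmp (nat 9) hs))
      (ng _ _ (mul_le_Cmp (nat 27) ht))).trans hmm)) (mul_le_Cmp hH.le (add_le_Cmp
      (mul_le_Cmp (nat 3) (q s s hs hs)) (ng _ _ (mul_le_Cmp (nat 4) (q t t ht ht)))))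
  rw [norm_mul, h23, one_mul, norm_pow] at b1 b2
  have h4 : m ^ 4 ≤ m ^ 2 := by
    rcases max_choice ‖s‖ ‖t‖ with h | h
    · rw [← hm] at h; rw [← h] at b1; exact b1
    · rw [← hm] at h; rw [← h] at b2; exact b2
  have : m ^ 2 < m ^ 4 := pow_lt_pow_right₀ hc (by norm_num)
  linarith

end

theorem cp : CPStmt := by
  intro p _ hp s₁ t₁ hf hH hX
  have h49 : ‖(49 : ℚ_[p])‖ = 1 := unit_Cmp hp 0 0 2 0 _ (by norm_num)
  have h4 : ‖(4 : ℚ_[p])‖ = 1 := unit_Cmp hp 2 0 0 0 _ (by norm_num)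
  have h9 : ‖(9 : ℚ_[p])‖ = 1 := unit_Cmp hp 0 2 0 0 _ (by norm_num)
  have h27 : ‖(27 : ℚ_[p])‖ = 1 := unit_Cmp hp 0 3 0 0 _ (by norm_num)
  have h621 : ‖(621 : ℚ_[p])‖ = 1 := unit_Cmp hp 0 3 0 1 _ (by norm_num)
  have hf1 : ‖fc s₁ t₁‖ = 1 := norm_of_pow_Cmp two_ne_zero (by rw [hf, norm_pow, h49, one_pow])
  have hH1 : ‖Hc s₁ t₁‖ = 1 := by
    have hpos : 0 < ‖Hc s₁ t₁‖ := norm_pos_iff.2 hH
    have hu : ‖621 * fc s₁ t₁ ^ 2‖ = 1 := by rw [norm_mul, norm_pow, h621, hf1]; norm_num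
    rw [PX, norm_div, norm_mul, norm_mul, h4, h9, one_mul, one_mul, norm_pow,
      div_le_one (by positivity)] at hX
    by_contra hne
    have hne3 : ‖Hc s₁ t₁ ^ 3‖ ≠ ‖621 * fc s₁ t₁ ^ 2‖ := by
      rw [hu]; exact fun h => hne (norm_of_pow_Cmp (by norm_num) h)
    rw [IsUltrametricDist.norm_add_eq_max_of_norm_ne_norm hne3, hu, norm_pow, max_le_iff] at hX
    rcases lt_or_gt_of_ne hne with h | h
    · have : ‖Hc s₁ t₁‖ ^ 2 < 1 := pow_lt_one₀ hpos.le h two_ne_zero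
      linarith [hX.2]
    · have : ‖Hc s₁ t₁‖ ^ 2 < ‖Hc s₁ t₁‖ ^ 3 := pow_lt_pow_right₀ h (by norm_num)
      linarith [hX.1]
  obtain ⟨hs₁, ht₁⟩ := integral_Cmp hp hf1 hH1
  refine ⟨hs₁, ht₁, fun s t l ε hε hl hf' hs ht => ?_⟩
  have hε0 : 0 ≤ ε := (norm_nonneg _).trans hs
  have cs := Cn_Cmp.of_right hε.le (mul_le_Cmp hl hs₁) hs
  have ct := Cn_Cmp.of_right hε.le (mul_le_Cmp hl ht₁) ht
  have n := Cn_Cmp.nat (p := p) hε0
  have cf : Cn_Cmp ε (fc s t) (fc (l * s₁) (l * t₁)) :=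
    ((cs.pow 3).sub (cs.mul (ct.pow 2))).sub (ct.pow 3)
  have cH : Cn_Cmp ε (Hc s t) (Hc (l * s₁) (l * t₁)) :=
    (((n 3).mul (cs.pow 2)).add (((n 9).mul cs).mul ct)).add (ct.pow 2)
  have cG : Cn_Cmp ε (Gc s t) (Gc (l * s₁) (l * t₁)) :=
    ((((n 27).neg.mul (cs.pow 3)).sub (((n 18).mul (cs.pow 2)).mul ct)).sub
      (((n 27).mul cs).mul (ct.pow 2))).sub ((n 25).mul (ct.pow 3))
  have ef : fc (l * s₁) (l * t₁) = l ^ 3 * fc s₁ t₁ := by simp only [fc]; ring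
  have eH : Hc (l * s₁) (l * t₁) = l ^ 2 * Hc s₁ t₁ := by simp only [Hc]; ring
  have eG : Gc (l * s₁) (l * t₁) = l ^ 3 * Gc s₁ t₁ := by simp only [Gc]; ring
  have hl1 : ‖l‖ = 1 := by
    have := cf.symm.unit hε hf'
    rw [ef, norm_mul, hf1, mul_one] at this
    exact norm_of_pow_Cmp (by norm_num) this
  have hl0 : l ≠ 0 := by rintro rfl; simp at hl1
  have hH2 : ‖Hc (l * s₁) (l * t₁)‖ = 1 := by rw [eH, norm_mul, norm_pow, hl1, hH1]; norm_num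
  have cX : Cn_Cmp ε (PX s t) (PX (l * s₁) (l * t₁)) :=
    ((n 4).mul ((cH.pow 3).add ((n 621).mul (cf.pow 2)))).div ((n 9).mul (cH.pow 2)) hε
      (by rw [norm_mul, norm_pow, hH2, one_pow, mul_one]; exact h9)
  have cY : Cn_Cmp ε (PY s t) (PY (l * s₁) (l * t₁)) :=
    (((n 4).mul cG).mul ((cH.pow 3).sub ((n 1242).mul (cf.pow 2)))).div ((n 27).mul (cH.pow 3)) hε
      (by rw [norm_mul, norm_pow, hH2, one_pow, mul_one]; exact h27)
  have eX : PX (l * s₁) (l * t₁) = l ^ 2 * PX s₁ t₁ := by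
    rw [PX, PX, ef, eH]; field_simp
  have eY : PY (l * s₁) (l * t₁) = l ^ 3 * PY s₁ t₁ := by
    rw [PY, PY, ef, eH, eG]; field_simp
  refine ⟨?_, ?_, ?_, ?_⟩
  · intro h0
    have := cH.unit hε hH2
    rw [h0] at this; simp at this
  · have := (cf.pow 2).d
    rwa [ef, mul_pow, hf, ← pow_mul, mul_comm] at this
  · rw [← eX]; exact cX.d
  · rw [← eY]; exact cY.d

lemma root_Cmp {p : ℕ} [Fact p.Prime] (hp : ¬p ∣ 2 * 3 * 7 * 23) (c l : ℚ_[p]) (ε : ℝ)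
    (hε : ε < 1) (hc : ‖c‖ = 1) (hl : ‖l‖ = 1) (h : ‖l ^ 6 - c‖ ≤ ε) :
    ∃ z : ℚ_[p], z ^ 6 = c ∧ ‖z‖ = 1 ∧ ‖z - l‖ ≤ ε := by
  have h6 : ‖(6 : ℚ_[p])‖ = 1 := unit_Cmp hp 1 1 0 0 _ (by norm_num)
  let c' : ℤ_[p] := ⟨c, hc.le⟩
  let l' : ℤ_[p] := ⟨l, hl.le⟩
  have hd : ‖Polynomial.aeval l' (Polynomial.derivative
      (Polynomial.X ^ 6 - Polynomial.C c' : Polynomial ℤ_[p]))‖ = 1 := by
    have : Polynomial.aeval l' (Polynomial.derivative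
        (Polynomial.X ^ 6 - Polynomial.C c' : Polynomial ℤ_[p])) = 6 * l' ^ 5 := by
      simp
      left; norm_num
    rw [this, PadicInt.norm_def]
    push_cast
    rw [norm_mul, norm_pow]
    change ‖(6 : ℚ_[p])‖ * ‖l‖ ^ 5 = 1
    rw [h6, hl]; norm_num
  obtain ⟨z, hz, hzl, -, -⟩ := hensels_lemma
    (F := (Polynomial.X ^ 6 - Polynomial.C c' : Polynomial ℤ_[p])) (a := l') (by
      rw [hd]
      have : Polynomial.aeval l' (Polynomial.X ^ 6 - Polynomial.C c' : Polynomial ℤ_[p])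
          = l' ^ 6 - c' := by simp
      rw [this, PadicInt.norm_def]
      push_cast
      change ‖l ^ 6 - c‖ < 1 ^ 2
      linarith)
  rw [hd] at hzl
  have hz6 : (z : ℚ_[p]) ^ 6 = c := by
    have : z ^ 6 - c' = 0 := by simpa using hz
    have h2 := congrArg (fun x : ℤ_[p] => (x : ℚ_[p])) (sub_eq_zero.1 this)
    simpa using h2
  have hzl' : ‖(z : ℚ_[p]) - l‖ < 1 := by
    rw [PadicInt.norm_def] at hzl
    push_cast at hzl
    exact hzl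
  have cz : Cn_Cmp ‖(z : ℚ_[p]) - l‖ (z : ℚ_[p]) l := ⟨z.2, hl.le, le_rfl⟩
  have cl : Cn_Cmp ‖(z : ℚ_[p]) - l‖ l l := Cn_Cmp.refl (norm_nonneg _) hl.le
  have cS := (((((cz.pow 5).add ((cz.pow 4).mul cl)).add ((cz.pow 3).mul (cl.pow 2))).add
    ((cz.pow 2).mul (cl.pow 3))).add (cz.mul (cl.pow 4))).add (cl.pow 5)
  have hS := cS.unit hzl' (by
    have : l ^ 5 + l ^ 4 * l + l ^ 3 * l ^ 2 + l ^ 2 * l ^ 3 + l * l ^ 4 + l ^ 5 = 6 * l ^ 5 := by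
      ring
    rw [this, norm_mul, norm_pow, h6, hl]; norm_num)
  refine ⟨z, hz6, cz.unit hzl' hl, ?_⟩
  have e : l ^ 6 - c = -(((z : ℚ_[p]) - l) * ((z : ℚ_[p]) ^ 5 + (z : ℚ_[p]) ^ 4 * l
      + (z : ℚ_[p]) ^ 3 * l ^ 2 + (z : ℚ_[p]) ^ 2 * l ^ 3 + z * l ^ 4 + l ^ 5)) := by
    rw [← hz6]; ring
  rwa [e, norm_neg, norm_mul, hS, mul_one] at h

theorem cmp (h3 : L3Stmt) : CmpStmt := by
  intro p _ hp b l ε hε hb hbl
  push_cast at hbl
  have hε0 : 0 ≤ ε := (norm_nonneg _).trans hbl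
  have h49 : ‖(49 : ℚ_[p])‖ = 1 := unit_Cmp hp 0 0 2 0 _ (by norm_num)
  have h368 : ‖(368 : ℚ_[p])‖ = 1 := unit_Cmp hp 4 0 0 1 _ (by norm_num)
  have h432 : ‖(432 : ℚ_[p])‖ = 1 := unit_Cmp hp 4 3 0 0 _ (by norm_num)
  have hb2 : ‖(b : ℚ_[p]) ^ 2‖ = 1 := by rw [norm_pow, hb, one_pow]
  have hl : ‖(l : ℚ_[p])‖ = 1 := by
    have c := Cn_Cmp.of_right (a := 49 ^ 2 * (l : ℚ_[p]) ^ 6) hε.le hb2.le
      (by rw [norm_sub_rev]; exact hbl)
    have := c.unit hε hb2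
    rw [norm_mul, norm_pow, h49, one_pow, one_mul] at this
    exact norm_of_pow_Cmp (by norm_num) this
  obtain ⟨lam, h6, hlam, hll⟩ := root_Cmp hp ((b : ℚ_[p]) ^ 2 / 49 ^ 2) l ε hε
    (by rw [norm_div, hb2, norm_pow, h49]; norm_num) hl (by
      have : (l : ℚ_[p]) ^ 6 - (b : ℚ_[p]) ^ 2 / 49 ^ 2
          = -((b : ℚ_[p]) ^ 2 - 49 ^ 2 * (l : ℚ_[p]) ^ 6) / 49 ^ 2 := by field_simp; ring
      rw [this, norm_div, norm_neg, norm_pow, h49]
      simpa using hbl)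
  have hd1 : ‖db (b : ℚ_[p])‖ = 1 := by
    rw [db, norm_mul, norm_neg, h368, hb2, one_mul]
  have hd0 : db (b : ℚ_[p]) ≠ 0 := by
    intro h; rw [h] at hd1; simp at hd1
  have hlam0 : lam ≠ 0 := by rintro rfl; simp at hlam
  obtain ⟨ψ, hψ, hψx, hψy⟩ := exists_scale (d := db (49 : ℚ)) (Rat.castHom ℚ_[p]) hlam0 hd0 (by
    rw [h6]; simp only [db, Rat.coe_castHom]; push_cast; field_simp)
  obtain ⟨τ, hτ, hτx, hτy⟩ := exists_scale (d := db b) (Rat.castHom ℚ_[p]) one_ne_zero hd0 (by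
    simp only [db, Rat.coe_castHom]; push_cast; ring)
  simp only [Rat.coe_castHom, one_pow, one_mul] at hψx hψy hτx hτy
  refine ⟨lam, ψ, τ, hlam, hll, hψ, hτ, fun P => ⟨hψx P, hψy P⟩, fun P => ⟨hτx P, hτy P⟩, ?_⟩
  intro G P hG hP hGx hx hy
  push_cast at hx hy
  have hGy : ‖((py G : ℚ) : ℚ_[p])‖ ≤ 1 := by
    have e : ((py G : ℚ) : ℚ_[p]) ^ 2 = ((px G : ℚ) : ℚ_[p]) ^ 3 + -(368 * 49 ^ 2) := by
      have h0 : py G ^ 2 = px G ^ 3 + -(368 * 49 ^ 2) := 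
        (eqn hG).trans (congrArg (fun x : ℚ => px G ^ 3 + x) (by norm_num [db]))
      exact_mod_cast congrArg (fun x : ℚ => (x : ℚ_[p])) h0
    have h1 : ‖((py G : ℚ) : ℚ_[p]) ^ 2‖ ≤ 1 := by
      rw [e]
      refine add_le_Cmp ?_ ?_
      · rw [norm_pow]; exact pow_le_one₀ (norm_nonneg _) hGx
      · rw [norm_neg, norm_mul, norm_pow, h368, h49]; norm_num
    rw [norm_pow] at h1
    exact (pow_le_one_iff_of_nonneg (norm_nonneg _) two_ne_zero).1 h1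
  have cl : Cn_Cmp ε (l : ℚ_[p]) lam := (Cn_Cmp.mk hlam.le hl.le hll).symm
  have c1 := (cl.pow 2).mul (Cn_Cmp.refl hε0 hGx)
  have c2 := (cl.pow 3).mul (Cn_Cmp.refl hε0 hGy)
  have cx := (Cn_Cmp.of_right hε.le c1.l hx).trans c1
  have cy := (Cn_Cmp.of_right hε.le c2.l hy).trans c2
  have hu : ‖432 * db (b : ℚ_[p]) ^ 2‖ = 1 := by rw [norm_mul, norm_pow, h432, hd1]; norm_num
  have := (h3 p _ hd0 hd1.le).2.1 (τ P) (ψ G) ε ((map_ne_zero_iff τ hτ).2 hP)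
    ((map_ne_zero_iff ψ hψ).2 hG) (by rw [hτx]; exact cx.l) (by rw [hu]; exact hε)
    (by rw [hτx, hψx]; exact cx.d) (by rw [hτy, hψy]; exact cy.d)
  rwa [hu, mul_one] at this

end Pool.Agent.MP_adc87d_lc.Big

end

section

/-! The cyclotomic polynomial and the certified parameters. -/

set_option autoImplicit false

namespace Pool.Agent.MP_adc87d_lc.Big

open Polynomial

/-- homogenised value of the cyclotomic polynomial -/
noncomputable def hom_Cyc (n : ℕ) (a b : ℤ) : ℤ :=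
  ∑ i ∈ Finset.range (n.totient + 1), (cyclotomic n ℤ).coeff i * a ^ i * b ^ (n.totient - i)

theorem cast_Cyc {K : Type} [Field K] (n : ℕ) (a b : ℤ) (hb : (b : K) ≠ 0) :
    (hom_Cyc n a b : K) = (b : K) ^ n.totient * (cyclotomic n K).eval ((a : K) / b) := by
  rw [eval_eq_sum_range, natDegree_cyclotomic, Finset.mul_sum, hom_Cyc]
  push_cast
  refine Finset.sum_congr rfl fun i hi => ?_
  have hi' : i ≤ n.totient := Nat.lt_succ_iff.1 (Finset.mem_range.1 hi)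
  obtain ⟨c, hc⟩ := Nat.exists_eq_add_of_le hi'
  rw [← map_cyclotomic_int n K, coeff_map, hc, Nat.add_sub_cancel_left, pow_add, div_pow]
  simp only [eq_intCast]
  field_simp

theorem dvd_Cyc (n : ℕ) (a b : ℤ) : b ∣ hom_Cyc n a b - a ^ n.totient := by
  have hm : (cyclotomic n ℤ).coeff n.totient = 1 := by
    have := (cyclotomic.monic n ℤ).coeff_natDegree
    rwa [natDegree_cyclotomic] at this
  rw [hom_Cyc, Finset.sum_range_succ, hm, Nat.sub_self, pow_zero, one_mul, mul_one,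
    add_sub_cancel_right]
  refine Finset.dvd_sum fun i hi => Dvd.dvd.mul_left (dvd_pow_self b ?_) _
  have := Finset.mem_range.1 hi
  omega

theorem cop_Cyc (n : ℕ) {a b : ℤ} (h : IsCoprime a b) : IsCoprime (hom_Cyc n a b) b := by
  obtain ⟨c, hc⟩ := dvd_Cyc n a b
  have e : hom_Cyc n a b = a ^ n.totient + b * c := by linarith
  rw [e]
  exact (h.pow_left).add_mul_left_left c

theorem ratcop_Cyc (x : ℚ) : IsCoprime x.num (x.den : ℤ) := by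
  rw [Int.isCoprime_iff_gcd_eq_one]
  exact x.reduced

theorem phi_Cyc (k : ℕ) (x : ℚ) : ((hom_Cyc (23 * 3 ^ k) x.num x.den : ℤ) : ℚ) =
    (x.den : ℚ) ^ (23 * 3 ^ k).totient * Phi k x := by
  rw [cast_Cyc _ _ _ (by exact_mod_cast x.den_nz), Phi]
  simp only [Int.cast_natCast, Rat.num_div_den]

theorem one_Cyc (k : ℕ) (hk : 1 ≤ k) (x : ℚ) (p : ℕ) [hp : Fact p.Prime]
    (h : ‖((Phi k x : ℚ) : ℚ_[p])‖ < 1) : p = 3 ∨ p = 23 ∨ ¬Hi k p := by
  by_cases h3 : p = 3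
  · exact .inl h3
  by_cases h23 : p = 23
  · exact .inr (.inl h23)
  refine .inr (.inr ?_)
  have e : ((hom_Cyc (23 * 3 ^ k) x.num x.den : ℤ) : ℚ_[p]) =
      (((x.den : ℤ) ^ (23 * 3 ^ k).totient : ℤ) : ℚ_[p]) * ((Phi k x : ℚ) : ℚ_[p]) := by
    have := congrArg (fun q : ℚ => (q : ℚ_[p])) (phi_Cyc k x)
    push_cast at this ⊢
    exact this
  have hd : (p : ℤ) ∣ hom_Cyc (23 * 3 ^ k) x.num x.den := by
    rw [← Padic.norm_intCast_lt_one_iff, e, norm_mul]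
    exact lt_of_le_of_lt (mul_le_of_le_one_left (norm_nonneg _) (Padic.norm_int_le_one _)) h
  have hb : ((x.den : ℤ) : ZMod p) ≠ 0 := by
    rw [Ne, ZMod.intCast_zmod_eq_zero_iff_dvd]
    intro hb
    have := (cop_Cyc (23 * 3 ^ k) (ratcop_Cyc x)).isUnit_of_dvd' hd hb
    exact (Nat.prime_iff_prime_int.1 hp.out).not_isUnit this
  have hz := cast_Cyc (K := ZMod p) (23 * 3 ^ k) x.num x.den hb
  rw [(ZMod.intCast_zmod_eq_zero_iff_dvd _ _).2 hd] at hz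
  have hr : IsRoot (cyclotomic (23 * 3 ^ k) (ZMod p)) ((x.num : ZMod p) / ((x.den : ℤ) : ZMod p)) :=
    (mul_eq_zero.1 hz.symm).resolve_left (pow_ne_zero _ hb)
  have : NeZero ((23 * 3 ^ k : ℕ) : ZMod p) := ⟨by
    rw [Ne, ZMod.natCast_eq_zero_iff]
    intro hh
    rcases (Nat.Prime.dvd_mul hp.out).1 hh with a | a
    · exact h23 ((Nat.prime_dvd_prime_iff_eq hp.out (by norm_num)).1 a)
    · exact h3 ((Nat.prime_dvd_prime_iff_eq hp.out (by norm_num)).1 (hp.out.dvd_of_dvd_pow a))⟩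
  rw [isRoot_cyclotomic_iff] at hr
  have hne := hr.ne_zero (by positivity)
  have hdv : 23 * 3 ^ k ∣ p - 1 := by
    rw [hr.eq_orderOf]
    exact ZMod.orderOf_dvd_card_sub_one hne
  obtain ⟨c, hc⟩ := hdv
  have hp1 : p = 1 + 23 * 3 ^ k * c := by
    have := hp.out.one_le
    omega
  have h3k : 1 < 3 ^ k := Nat.one_lt_pow (by omega) (by norm_num)
  rintro (⟨a, -⟩ | ⟨-, a⟩)
  · apply a
    rw [hp1, mul_comm 23, mul_assoc, Nat.add_mul_mod_self_left, Nat.mod_eq_of_lt h3k]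
  · apply a
    have : ((p : ℕ) : ZMod 23) = 1 := by
      rw [hp1]
      push_cast
      have : (23 : ZMod 23) = 0 := rfl
      rw [this]
      simp
    rw [this]
    exact IsSquare.one

theorem two_Cyc (k : ℕ) (x : ℚ) (hx : 2 ≤ x) : x.num ≤ 2 * (Phi k x).num := by
  have hb : (0 : ℤ) < x.den := by exact_mod_cast x.den_pos
  have hbq : (0 : ℚ) < x.den := by exact_mod_cast x.den_pos
  have hbr : (0 : ℝ) < ((x.den : ℤ) : ℝ) := by exact_mod_cast x.den_pos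
  have e : Phi k x = ((hom_Cyc (23 * 3 ^ k) x.num x.den : ℤ) : ℚ) /
      (((x.den : ℤ) ^ (23 * 3 ^ k).totient : ℤ) : ℚ) := by
    rw [phi_Cyc]
    push_cast
    field_simp
  have hn : (Phi k x).num = hom_Cyc (23 * 3 ^ k) x.num x.den := by
    rw [e]
    refine Rat.num_div_eq_of_coprime (pow_pos hb _) ?_
    exact Int.isCoprime_iff_gcd_eq_one.1 ((cop_Cyc _ (ratcop_Cyc x)).pow_right)
  have hab : 2 * (x.den : ℤ) ≤ x.num := by
    have h1 : (2 : ℚ) * x.den ≤ x.num := by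
      have := mul_le_mul_of_nonneg_right hx hbq.le
      rwa [Rat.mul_den_eq_num] at this
    exact_mod_cast h1
  have habr : 2 * ((x.den : ℤ) : ℝ) ≤ (x.num : ℝ) := by exact_mod_cast hab
  have h2 : 2 ≤ 23 * 3 ^ k := by
    have : 0 < 3 ^ k := by positivity
    omega
  have h1 := sub_one_pow_totient_lt_cyclotomic_eval (q := (x.num : ℝ) / ((x.den : ℤ) : ℝ)) h2
    (by rw [lt_div_iff₀ hbr]; linarith)
  have h3 := cast_Cyc (K := ℝ) (23 * 3 ^ k) x.num x.den hbr.ne'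
  have h4 : ((x.num : ℝ) - ((x.den : ℤ) : ℝ)) ^ (23 * 3 ^ k).totient ≤
      (hom_Cyc (23 * 3 ^ k) x.num x.den : ℝ) := by
    rw [h3]
    refine le_trans (le_of_eq ?_) (mul_le_mul_of_nonneg_left h1.le (pow_pos hbr _).le)
    rw [← mul_pow]
    congr 1
    field_simp
  have h5 : (x.num - (x.den : ℤ)) ^ (23 * 3 ^ k).totient ≤ hom_Cyc (23 * 3 ^ k) x.num x.den := by
    exact_mod_cast h4
  have h6 : x.num - (x.den : ℤ) ≤ (x.num - (x.den : ℤ)) ^ (23 * 3 ^ k).totient :=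
    le_self_pow₀ (by omega) (Nat.totient_pos.2 (by omega)).ne'
  omega

theorem cyc : CycStmt := by
  intro k hk
  refine ⟨fun x p _ h => one_Cyc k hk x p h, two_Cyc k, fun n => ?_⟩
  have h2 : 2 < 23 * 3 ^ k := by
    have : 0 < 3 ^ k := by positivity
    omega
  exact ⟨(cyclotomic (23 * 3 ^ k) ℤ).eval n, (cyclotomic_pos h2 n).ne',
    cyclotomic.eval_apply n _ (Int.castRingHom ℚ)⟩

theorem unit_Cyc {D : Dat} {W : Set ℕ} {c : ℚ} (h : Ce D W c) (p : ℕ) [hp : Fact p.Prime]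
    (hW : p ∉ W) : ‖(c : ℚ_[p])‖ = 1 := by
  obtain ⟨h0, h1, h2, -⟩ := h
  have a1 : ‖(c : ℚ_[p])‖ ≤ 1 := Padic.norm_rat_le_one fun hd => hW (h1 p hp.out hd)
  have a2 : ‖((c⁻¹ : ℚ) : ℚ_[p])‖ ≤ 1 := Padic.norm_rat_le_one fun hd => hW (h2 p hp.out hd)
  have a3 : 0 < ‖(c : ℚ_[p])‖ := norm_pos_iff.2 (by exact_mod_cast h0)
  rw [Rat.cast_inv, norm_inv, inv_le_one₀ a3] at a2
  exact le_antisymm a1 a2

theorem val_Cyc {c : ℚ} {p : ℕ} [hp : Fact p.Prime] (h : ‖(c : ℚ_[p])‖ = 1) :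
    padicValRat p c = 0 := by
  have h0 : (c : ℚ_[p]) ≠ 0 := norm_pos_iff.1 (by rw [h]; exact one_pos)
  rw [Padic.norm_eq_zpow_neg_valuation h0, Padic.valuation_ratCast] at h
  have h1 : (1 : ℝ) < p := by exact_mod_cast hp.out.one_lt
  have := (zpow_eq_one_iff_right₀ (by linarith) h1.ne').1 h
  omega

theorem natval_Cyc {p w : ℕ} (h : ¬p ∣ w) : padicValRat p (w : ℚ) = 0 := by
  rw [← padicValRat_of_nat, padicValNat.eq_zero_of_not_dvd h]
  rfl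

theorem three_Cyc {D : Dat} {W : Set ℕ} (hG : Good D W) {c : ℚ} (h : Ce D W c) {p : ℕ}
    (hp : p.Prime) (hC : D.C < p) (h1 : p % 3 ^ D.k ≠ 1) (h2 : p % 3 ^ D.k ≠ 3 ^ D.k - 1) :
    (3 : ℤ) ∣ padicValRat p c := by
  have := Fact.mk hp
  obtain ⟨h0, -, -, -, ξ, w, w1, w2, e⟩ := h
  have hb := hG.big
  have := hG.cert.1 ξ p hp (by omega) h1 h2
  rwa [e, padicValRat.mul h0 (by exact_mod_cast (by omega : w ≠ 0)),
    natval_Cyc (Nat.not_dvd_of_pos_of_lt (by omega) (by omega)), add_zero] at this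

theorem nice : NiceStmt := by
  intro D W hG c₁ c₂ h₁ h₂
  refine ⟨⟨mul_ne_zero (mul_ne_zero (by norm_num) h₁.1) h₂.1, .inl ?_, ?_⟩,
    fun p _ hW => ⟨unit_Cyc h₁ p hW, unit_Cyc h₂ p hW⟩⟩
  · have : Fact (Nat.Prime 3) := ⟨by norm_num⟩
    have hW : 3 ∉ W := fun h => by
      have := (hG.hi h).1
      have := hG.big
      omega
    have h9 : ‖((9 : ℚ) : ℚ_[3])‖ = 1 / 9 := by
      have e : ((9 : ℚ) : ℚ_[3]) = ((3 : ℕ) : ℚ_[3]) ^ 2 := by norm_num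
      rw [e, norm_pow, Padic.norm_p]
      norm_num
    have a1 := h₁.2.2.2.1 3 hW (by rw [h9]; norm_num)
    have a2 := h₂.2.2.2.1 3 hW (by rw [h9]; norm_num)
    rw [h9] at a1 a2
    have u2 := unit_Cyc h₂ 3 hW
    have i49 : ‖((49 : ℤ) : ℚ_[3])‖ ≤ 1 := Padic.norm_int_le_one _
    have i5 : ‖((5 : ℤ) : ℚ_[3])‖ ≤ 1 := Padic.norm_int_le_one _
    have e : ((49 * c₁ * c₂ - 4 : ℚ) : ℚ_[3]) =
        ((49 : ℤ) : ℚ_[3]) * (c₂ : ℚ_[3]) * ((c₁ - 1 : ℚ) : ℚ_[3]) +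
          (((49 : ℤ) : ℚ_[3]) * ((c₂ - 1 : ℚ) : ℚ_[3]) + ((5 : ℤ) : ℚ_[3]) * ((9 : ℚ) : ℚ_[3])) := by
      push_cast
      ring
    have b : ‖((49 * c₁ * c₂ - 4 : ℚ) : ℚ_[3])‖ ≤ 1 / 9 := by
      rw [e]
      refine (Padic.nonarchimedean _ _).trans (max_le ?_
        ((Padic.nonarchimedean _ _).trans (max_le ?_ ?_)))
      · rw [norm_mul, norm_mul, u2, mul_one]
        exact (mul_le_of_le_one_left (norm_nonneg _) i49).trans a1
      · rw [norm_mul]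
        exact (mul_le_of_le_one_left (norm_nonneg _) i49).trans a2
      · rw [norm_mul]
        exact (mul_le_of_le_one_left (norm_nonneg _) i5).trans h9.le
    rw [Padic.eq_padicNorm] at b
    have b2 : ((padicNorm 3 (49 * c₁ * c₂ - 4) : ℚ) : ℝ) ≤ ((1 / 9 : ℚ) : ℝ) := by
      push_cast
      exact b
    exact_mod_cast b2
  · intro p hp h
    have := Fact.mk hp
    by_cases h7 : p = 7
    · subst h7
      exact ⟨by norm_num, by decide⟩
    have v49 : padicValRat p (49 : ℚ) = 0 := by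
      have := natval_Cyc (p := p) (w := 7 ^ 2) fun hd =>
        h7 ((Nat.prime_dvd_prime_iff_eq hp (by norm_num)).1 (hp.dvd_of_dvd_pow hd))
      simpa using this
    rw [padicValRat.mul (mul_ne_zero (by norm_num) h₁.1) h₂.1,
      padicValRat.mul (by norm_num) h₁.1, v49, zero_add] at h
    by_cases hW : p ∈ W
    · obtain ⟨hC, ⟨a, b⟩ | a⟩ := hG.hi hW
      · exact absurd (dvd_add (three_Cyc hG h₁ hp hC a b) (three_Cyc hG h₂ hp hC a b)) h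
      · exact a
    · rw [val_Cyc (unit_Cyc h₁ p hW), val_Cyc (unit_Cyc h₂ p hW)] at h
      exact absurd (by simp) h

end Pool.Agent.MP_adc87d_lc.Big

end

section

namespace Pool.Agent.MP_adc87d_lc.Big

open Polynomial

theorem ord_ENU {F : Type} [Field F] (h3 : (3 : F) ≠ 0) (j : ℕ) (u : F) :
    (u ^ 3 ^ j) ^ 2 + u ^ 3 ^ j + 1 = 0 ↔ orderOf u = 3 ^ (j + 1) := by
  have : Fact (Nat.Prime 3) := ⟨Nat.prime_three⟩
  constructor
  · intro h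
    refine orderOf_eq_prime_pow (fun e => h3 ?_) ?_
    · rw [e] at h; linear_combination h
    · rw [pow_succ, pow_mul]; linear_combination (u ^ 3 ^ j - 1) * h
  · intro h
    have h1 := pow_orderOf_eq_one u
    rw [h, pow_succ, pow_mul] at h1
    have h2 : u ^ 3 ^ j - 1 ≠ 0 := sub_ne_zero.2 (pow_ne_one_of_lt_orderOf (by positivity)
      (by rw [h]; exact Nat.pow_lt_pow_right (by norm_num) (Nat.lt_succ_self j)))
    exact mul_left_cancel₀ h2 (by linear_combination h1)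

theorem dk_ENU {F : Type} [Field F] {t : F} (ht : t ≠ 0) {x : ℤ} (hx : (x : F) = t + t⁻¹)
    (j : ℕ) : (dk j x : F) = t ^ 3 ^ j + (t ^ 3 ^ j)⁻¹ := by
  induction j with
  | zero => simpa [dk] using hx
  | succ j ih =>
    have : t ^ 3 ^ j ≠ 0 := pow_ne_zero _ ht
    rw [dk, pow_succ 3 j, pow_mul]
    push_cast
    rw [ih]
    field_simp
    ring

theorem dk_iff_ENU {F : Type} [Field F] (h3 : (3 : F) ≠ 0) {t : F} (ht : t ≠ 0) {x : ℤ}
    (hx : (x : F) = t + t⁻¹) (j : ℕ) :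
    ((dk j x + 1 : ℤ) : F) = 0 ↔ orderOf t = 3 ^ (j + 1) := by
  have : t ^ 3 ^ j ≠ 0 := pow_ne_zero _ ht
  rw [← ord_ENU h3, Int.cast_add, dk_ENU ht hx, Int.cast_one, ← mul_right_inj' this, mul_zero,
    mul_add, mul_add, mul_inv_cancel₀ this]
  constructor <;> intro h <;> linear_combination h

theorem qr_ENU {p : ℕ} [Fact p.Prime] (h2 : p ≠ 2) (h23 : p ≠ 23) :
    IsSquare ((-23 : ℤ) : ZMod p) ↔ IsSquare (p : ZMod 23) := by
  have : Fact (Nat.Prime 23) := ⟨by norm_num⟩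
  have hp : p.Prime := Fact.out
  have e1 : ((-23 : ℤ) : ZMod p) ≠ 0 := fun e => by
    have := (ZMod.intCast_zmod_eq_zero_iff_dvd _ p).1 e
    rw [Int.dvd_neg] at this
    exact h23 ((Nat.prime_dvd_prime_iff_eq hp (by norm_num)).1 (by exact_mod_cast this))
  have e3 : ((p : ℤ) : ZMod 23) ≠ 0 := fun e => by
    have := (ZMod.intCast_zmod_eq_zero_iff_dvd _ 23).1 e
    exact h23 ((Nat.prime_dvd_prime_iff_eq (by norm_num) hp).1 (by exact_mod_cast this)).symm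
  have e2 := legendreSym.quadratic_reciprocity' (p := p) (q := 23) h2 (by norm_num)
  rw [mul_comm (p / 2), pow_mul, show ((-1 : ℤ)) ^ (23 / 2) = -1 by norm_num] at e2
  rw [← legendreSym.eq_one_iff p e1, ← Int.cast_natCast, ← legendreSym.eq_one_iff 23 e3, e2,
    show (-23 : ℤ) = -(23 : ℕ) by norm_num, legendreSym.at_neg h2,
    ZMod.χ₄_eq_neg_one_pow (hp.eq_two_or_odd.resolve_left h2)]

theorem fac_ENU (d : ℕ) (h : d % 3 = 2) : ∃ p : ℕ, p.Prime ∧ p ∣ d ∧ p % 3 = 2 := by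
  induction d using Nat.recOnMul with
  | zero => omega
  | one => omega
  | prime p hp => exact ⟨p, hp, dvd_rfl, h⟩
  | mul a b iha ihb =>
    by_cases ha : a % 3 = 2
    · obtain ⟨p, h1, h2, h3⟩ := iha ha
      exact ⟨p, h1, h2.mul_right _, h3⟩
    by_cases hb : b % 3 = 2
    · obtain ⟨p, h1, h2, h3⟩ := ihb hb
      exact ⟨p, h1, h2.mul_left _, h3⟩
    rw [Nat.mul_mod] at h
    have h1 : a % 3 = 0 ∨ a % 3 = 1 := by omega
    have h2 : b % 3 = 0 ∨ b % 3 = 1 := by omega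
    rcases h1 with h1 | h1 <;> rcases h2 with h2 | h2 <;> simp [h1, h2] at h

theorem m1_ENU {N p : ℕ} (hN : 1 < N) (hp : 1 ≤ p) : N ∣ p - 1 ↔ p % N = 1 := by
  rw [← Nat.modEq_iff_dvd' hp, Nat.ModEq, Nat.mod_eq_of_lt hN, eq_comm]

theorem p1_ENU {N p : ℕ} (hN : 0 < N) : N ∣ p + 1 ↔ p % N = N - 1 := by
  have h := Nat.mod_lt p hN
  rw [show p + 1 = N * (p / N) + (p % N + 1) by have := Nat.div_add_mod p N; omega,
    Nat.dvd_add_right (dvd_mul_right _ _)]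
  exact ⟨fun h' => by have := Nat.le_of_dvd (Nat.succ_pos _) h'; omega,
    fun h' => by rw [h', Nat.sub_add_cancel hN]⟩

theorem three_ENU {F : Type} [Field F] {p : ℕ} [CharP F p] (hp : p.Prime) (h : p ≠ 3) :
    (3 : F) ≠ 0 := fun e =>
  h ((Nat.prime_dvd_prime_iff_eq hp Nat.prime_three).1
    ((CharP.cast_eq_zero_iff F p 3).1 (by exact_mod_cast e)))

theorem two_ENU {p : ℕ} (hp : p.Prime) (h3 : p ≠ 3) (j : ℕ) :
    (∃ x : ℤ, (p : ℤ) ∣ x ^ (2 * 3 ^ j) + x ^ 3 ^ j + 1) ↔ p % 3 ^ (j + 1) = 1 := by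
  have : Fact p.Prime := ⟨hp⟩
  have h := three_ENU (F := ZMod p) hp h3
  have k : ∀ x : ℤ, (p : ℤ) ∣ x ^ (2 * 3 ^ j) + x ^ 3 ^ j + 1 ↔
      orderOf (x : ZMod p) = 3 ^ (j + 1) := fun x => by
    rw [← ZMod.intCast_zmod_eq_zero_iff_dvd, ← ord_ENU h, mul_comm, pow_mul]
    push_cast
    rfl
  rw [← m1_ENU (Nat.one_lt_pow (by omega) (by norm_num)) hp.one_le]
  constructor
  · rintro ⟨x, hx⟩
    rw [k] at hx
    rw [← hx]
    refine ZMod.orderOf_dvd_card_sub_one fun e => ?_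
    rw [e, orderOf_zero] at hx
    exact absurd hx.symm (by positivity)
  · intro hd
    obtain ⟨g, hg⟩ := IsCyclic.exists_ofOrder_eq_natCard (α := (ZMod p)ˣ)
    rw [Nat.card_eq_fintype_card, ZMod.card_units] at hg
    have := orderOf_pow_orderOf_div (orderOf_pos g).ne' (hg ▸ hd)
    rw [← orderOf_units] at this
    obtain ⟨x, hx⟩ := ZMod.intCast_surjective ((g ^ (orderOf g / 3 ^ (j + 1)) : (ZMod p)ˣ) : ZMod p)
    exact ⟨x, (k x).2 (hx ▸ this)⟩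

theorem third_ENU {p : ℕ} (hp : p.Prime) (h3 : p % 3 = 2) (j : ℕ) :
    (∃ x : ℤ, (p : ℤ) ∣ dk j x + 1) ↔ p % 3 ^ (j + 1) = 3 ^ (j + 1) - 1 := by
  have : Fact p.Prime := ⟨hp⟩
  have h := three_ENU (F := AlgebraicClosure (ZMod p)) hp (by omega)
  rw [← p1_ENU (by positivity)]
  constructor
  · rintro ⟨x, hx⟩
    obtain ⟨t, ht⟩ := IsAlgClosed.exists_root
      (X ^ 2 - C (x : AlgebraicClosure (ZMod p)) * X + 1) (by
        have : (X ^ 2 - C (x : AlgebraicClosure (ZMod p)) * X + 1).degree = 2 := by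
          compute_degree!
        rw [this]; norm_num)
    have h1 : t ^ 2 - x * t + 1 = 0 := by simpa using ht
    have h0 : t ≠ 0 := by rintro rfl; simp at h1
    have h2 : (x : AlgebraicClosure (ZMod p)) = t + t⁻¹ := by
      field_simp; linear_combination -h1
    have h4 := (dk_iff_ENU h h0 h2 j).1 ((CharP.intCast_eq_zero_iff _ p _).2 hx)
    have h5 := congrArg (frobenius (AlgebraicClosure (ZMod p)) p) h1
    simp only [map_add, map_sub, map_mul, map_pow, map_intCast, map_one, map_zero,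
      frobenius_def] at h5
    have h6 : (t ^ p - t) * (t ^ p * t - 1) = 0 := by
      linear_combination t * h5 - t ^ p * h1
    rw [← h4, orderOf_dvd_iff_pow_eq_one, pow_succ]
    refine sub_eq_zero.1 ((mul_eq_zero.1 h6).resolve_left fun e => ?_)
    have h7 : t ^ (p - 1) = 1 := by
      refine mul_right_cancel₀ h0 ?_
      rw [← pow_succ, Nat.sub_add_cancel hp.one_le, one_mul]; exact sub_eq_zero.1 e
    rw [← orderOf_dvd_iff_pow_eq_one, h4] at h7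
    have := (dvd_pow_self 3 (Nat.succ_ne_zero j)).trans h7
    omega
  · intro hd
    have : NeZero ((3 ^ (j + 1) : ℕ) : AlgebraicClosure (ZMod p)) :=
      ⟨by push_cast; exact pow_ne_zero _ h⟩
    obtain ⟨t, ht⟩ := HasEnoughRootsOfUnity.exists_primitiveRoot (AlgebraicClosure (ZMod p))
      (3 ^ (j + 1))
    have h0 : t ≠ 0 := ht.ne_zero (by positivity)
    have h1 : t ^ p = t⁻¹ := by
      have := (ht.pow_eq_one_iff_dvd _).2 hd
      rw [pow_succ] at this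
      exact eq_inv_of_mul_eq_one_left this
    obtain ⟨x, hx⟩ := (mem_bot_iff_intCast p _).1 ((Subfield.mem_bot_iff_pow_eq_self
      (AlgebraicClosure (ZMod p)) p (x := t + t⁻¹)).2
      (by rw [add_pow_char, inv_pow, h1, inv_inv, add_comm]))
    exact ⟨x, (CharP.intCast_eq_zero_iff _ p _).1 ((dk_iff_ENU h h0 hx j).2 ht.eq_orderOf.symm)⟩

theorem enu : NUStmt := by
  intro k C b hk hC
  obtain ⟨j, rfl⟩ : ∃ j, k = j + 1 := ⟨k - 1, by omega⟩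
  rw [Nat.add_sub_cancel]
  have d3 : 3 ∣ 3 ^ (j + 1) := dvd_pow_self 3 (Nat.succ_ne_zero j)
  constructor
  · rintro ⟨p, hp, hb, h⟩
    have : Fact p.Prime := ⟨hp⟩
    by_cases hc : p ≤ C
    · exact Or.inl ⟨p, hp, hc, hb⟩
    rw [not_and, Hi, not_or, Sil] at h
    obtain ⟨h1, h2⟩ := h (not_le.1 hc)
    right
    by_cases e : p % 3 ^ (j + 1) = 1
    · have e3 : p % 3 = 1 := by rw [← Nat.mod_mod_of_dvd p d3, e]
      obtain ⟨x, hx⟩ := (two_ENU hp (by omega) j).2 e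
      obtain ⟨y, hy⟩ := (qr_ENU (p := p) (by omega) (by omega)).2 (by tauto)
      obtain ⟨y, rfl⟩ := ZMod.intCast_surjective y
      refine Or.inl ⟨p, x, y, hp.one_lt, hb, hp.coprime_iff_not_dvd.2 fun h => ?_, hx,
        (ZMod.intCast_zmod_eq_zero_iff_dvd _ p).1 (by push_cast at hy ⊢; linear_combination -hy)⟩
      rcases hp.dvd_mul.1 (show p ∣ 6 * 23 from h) with h | h <;>
        have := Nat.le_of_dvd (by norm_num) h <;> omega
    · have e' : p % 3 ^ (j + 1) = 3 ^ (j + 1) - 1 := by tauto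
      have e3 : p % 3 = 2 := by
        have := d3.trans ((p1_ENU (by positivity)).2 e')
        omega
      obtain ⟨x, hx⟩ := (third_ENU hp e3 j).2 e'
      exact Or.inr ⟨p, x, e3, hb, hx⟩
  · rintro (⟨p, hp, h1, h2⟩ | ⟨d, x, y, h1, h2, h3, h4, h5⟩ | ⟨d, x, h1, h2, h3⟩)
    · exact ⟨p, hp, h2, fun h => absurd h.1 (not_lt.2 h1)⟩
    · obtain ⟨p, hp, hd⟩ := Nat.exists_prime_and_dvd h1.ne'
      have : Fact p.Prime := ⟨hp⟩
      have hd' := Int.natCast_dvd_natCast.2 hd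
      refine ⟨p, hp, hd.trans h2, fun h => ?_⟩
      have hC' := h.1
      rcases h.2 with h | h
      · exact h.1 ((two_ENU hp (by omega) j).1 ⟨x, hd'.trans h4⟩)
      · refine h.2 ((qr_ENU (by omega) (by omega)).1 ⟨y, ?_⟩)
        have := (ZMod.intCast_zmod_eq_zero_iff_dvd _ p).2 (hd'.trans h5)
        push_cast at this ⊢
        linear_combination -this
    · obtain ⟨p, hp, hd, e3⟩ := fac_ENU d h1
      refine ⟨p, hp, hd.trans h2, fun h => ?_⟩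
      rcases h.2 with h | h
      · exact h.2 ((third_ENU hp e3 j).1 ⟨x, (Int.natCast_dvd_natCast.2 hd).trans h3⟩)
      · have := h.1
        omega

end Pool.Agent.MP_adc87d_lc.Big

end
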