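import Mathlib
import Pool.Agent.Mg.Fadc87d.G0908ea

set_option linter.all false

section

/-! Approximation by trigonometric polynomials, and partitions of unity. -/

set_option autoImplicit false

noncomputable section

open Finset
open scoped Classical

namespace Pool.Agent.MP_adc87d_lc.Big

open Pool.Agent.MP_2a1f0e_nt (ex)
open Pool.Agent.MP_2a1f0e_nt (gs gs_mul gs_add_int norm_ex_sub_one normsq_sum ex_add norm_ex
  ex_zero ex_int)

theorem orth_CAp (n : ℕ) (k : ℤ) (h0 : k ≠ 0) (hk : |k| < n) :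
    ∑ i ∈ range n, ex (i * ((k : ℝ) / n)) = 0 := by
  have hn : (0 : ℝ) < n := by
    have : (0 : ℤ) < n := lt_of_le_of_lt (abs_nonneg k) hk
    exact_mod_cast this
  have h1 := gs_mul n ((k : ℝ) / n)
  rw [mul_div_cancel₀ _ hn.ne', ex_int, sub_self] at h1
  refine (mul_eq_zero.1 h1).resolve_right fun h => ?_
  obtain ⟨m, hm⟩ := Complex.exp_eq_one_iff.1 (sub_eq_zero.1 h)
  have h2 : Complex.I * ((2 * Real.pi * ((k : ℝ) / n) : ℝ) : ℂ) =
      Complex.I * ((2 * Real.pi * (m : ℝ) : ℝ) : ℂ) := by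
    rw [hm]; push_cast; ring
  have h3 := Complex.ofReal_injective (mul_left_cancel₀ Complex.I_ne_zero h2)
  have h4 : (k : ℝ) = m * n := by
    have := mul_left_cancel₀ (by positivity : (2 * Real.pi : ℝ) ≠ 0) h3
    rwa [div_eq_iff hn.ne'] at this
  have h5 : k = m * n := by exact_mod_cast h4
  have h6 : m ≠ 0 := fun e => h0 (by rw [h5, e, zero_mul])
  have h7 : 1 ≤ |m| := Int.one_le_abs h6
  rw [h5, abs_mul, Nat.abs_cast] at hk
  have : (0 : ℤ) ≤ n := Int.natCast_nonneg n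
  nlinarith

theorem sq_CAp (n : ℕ) (t : ℝ) : ((‖gs n t‖ ^ 2 : ℝ) : ℂ) =
    ∑ a ∈ range n, ∑ b ∈ range n, ex ((((a : ℤ) - b : ℤ) : ℝ) * t) := by
  have h := normsq_sum (range n) (fun _ => (1 : ℂ)) fun a : ℕ => (a : ℝ) * t
  simp only [one_mul, map_one] at h
  rw [gs, h]
  refine sum_congr rfl fun a _ => sum_congr rfl fun b _ => ?_
  congr 1
  push_cast
  ring

theorem tot_CAp (n : ℕ) (x : ℝ) :
    ∑ i ∈ range n, ‖gs n (x - i / n)‖ ^ 2 = (n : ℝ) ^ 2 := by
  apply Complex.ofReal_injective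
  rw [Complex.ofReal_sum, sum_congr rfl fun i _ => sq_CAp n _, sum_comm]
  have : ∀ a ∈ range n, ∑ i ∈ range n, ∑ b ∈ range n,
      ex ((((a : ℤ) - b : ℤ) : ℝ) * (x - (i : ℝ) / n)) = n := by
    intro a ha
    rw [sum_comm, sum_eq_single_of_mem a ha]
    · simp [ex_zero]
    · intro b hb hne
      have h1 : ∀ i : ℕ, ex ((((a : ℤ) - b : ℤ) : ℝ) * (x - (i : ℝ) / n)) =
          ex ((((a : ℤ) - b : ℤ) : ℝ) * x) * ex (i * ((((b : ℤ) - a : ℤ) : ℝ) / n)) := fun i => by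
        rw [← ex_add]; congr 1; push_cast; ring
      rw [sum_congr rfl fun i _ => h1 i, ← mul_sum, orth_CAp n _ (by omega), mul_zero]
      have := mem_range.1 ha
      have := mem_range.1 hb
      rw [abs_lt]; constructor <;> omega
  rw [sum_congr rfl this]
  simp [sq]

theorem far_CAp (n : ℕ) (t : ℝ) : ‖gs n t‖ * (4 * |t - round t|) ≤ 2 := by
  have e : gs n t = gs n (t - round t) := by
    have := gs_add_int n (t - round t) (round t)
    rwa [sub_add_cancel] at this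
  rw [e]
  calc _ ≤ ‖gs n (t - round t)‖ * ‖ex (t - round t) - 1‖ :=
        mul_le_mul_of_nonneg_left (norm_ex_sub_one (abs_sub_round t)) (norm_nonneg _)
    _ = ‖ex (n * (t - round t)) - 1‖ := by rw [← norm_mul, gs_mul]
    _ ≤ ‖ex (n * (t - round t))‖ + ‖(1 : ℂ)‖ := norm_sub_le _ _
    _ = 2 := by rw [norm_ex]; norm_num

theorem cap : ApStmt := by
  intro u Λ N hN hΛ hper hb hL
  obtain ⟨n, hn⟩ : ∃ n : ℕ, n = N ^ 3 := ⟨_, rfl⟩
  have hN0 : (0 : ℝ) < N := by exact_mod_cast hN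
  have hnR : (n : ℝ) = (N : ℝ) ^ 3 := by rw [hn]; push_cast; rfl
  have hnZ : ((N : ℤ)) ^ 3 = n := by rw [hn]; push_cast; rfl
  have hn0 : (0 : ℝ) < n := by rw [hnR]; positivity
  have hnC : (n : ℂ) ≠ 0 := by exact_mod_cast hn0.ne'
  obtain ⟨V, hV⟩ : ∃ V : ℤ → ℂ, ∀ j, V j = ∑ i ∈ range n, u (i / n) * ex (-(j * (i / n))) :=
    ⟨_, fun _ => rfl⟩
  have hVn : ∀ j, ‖V j‖ ≤ n := fun j => by
    rw [hV]
    refine (norm_sum_le _ _).trans ((sum_le_sum (g := fun _ => (1 : ℝ)) fun i _ => ?_).trans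
      (by simp))
    rw [norm_mul, norm_ex, mul_one]; exact hb _
  refine ⟨fun j => (∑ a ∈ range n, ∑ b ∈ range n, if (a : ℤ) - b = j then V j else 0) / n ^ 2,
    fun j => ?_, fun x => ?_⟩
  · rw [norm_div, norm_pow, Complex.norm_natCast, div_le_one (by positivity)]
    refine (norm_sum_le _ _).trans ((sum_le_sum (g := fun _ => (n : ℝ)) fun a _ => ?_).trans
      (by simp [sq]))
    by_cases h : ∃ b ∈ range n, (a : ℤ) - b = j
    · obtain ⟨b, hb', e⟩ := h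
      rw [sum_eq_single_of_mem b hb' fun b' _ hne => if_neg (by omega), if_pos e]
      exact hVn j
    · rw [sum_eq_zero fun b hb' => if_neg fun e => h ⟨b, hb', e⟩, norm_zero]
      exact hn0.le
  · have e1 : ∑ j ∈ Icc (-(N : ℤ) ^ 3) (N ^ 3), (∑ a ∈ range n, ∑ b ∈ range n,
        if (a : ℤ) - b = j then V j else 0) / (n : ℂ) ^ 2 * ex (j * x) =
        ∑ i ∈ range n, ((‖gs n (x - i / n)‖ ^ 2 / (n : ℝ) ^ 2 : ℝ) : ℂ) * u (i / n) := by
      have a1 : ∀ j : ℤ, (∑ a ∈ range n, ∑ b ∈ range n,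
          if (a : ℤ) - b = j then V j else 0) / (n : ℂ) ^ 2 * ex (j * x) =
          ∑ a ∈ range n, ∑ b ∈ range n,
            if (a : ℤ) - b = j then V j * ex (j * x) / (n : ℂ) ^ 2 else 0 := fun j => by
        rw [sum_div, sum_mul]
        refine sum_congr rfl fun a _ => ?_
        rw [sum_div, sum_mul]
        refine sum_congr rfl fun b _ => ?_
        split_ifs
        · ring
        · simp
      have a2 : ∀ i : ℕ, ((‖gs n (x - i / n)‖ ^ 2 / (n : ℝ) ^ 2 : ℝ) : ℂ) * u (i / n) =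
          ∑ a ∈ range n, ∑ b ∈ range n, u (i / n) * ex (-((((a : ℤ) - b : ℤ) : ℝ) * (i / n))) *
            ex ((((a : ℤ) - b : ℤ) : ℝ) * x) / (n : ℂ) ^ 2 := fun i => by
        rw [Complex.ofReal_div, sq_CAp, sum_div, sum_mul]
        refine sum_congr rfl fun a _ => ?_
        rw [sum_div, sum_mul]
        refine sum_congr rfl fun b _ => ?_
        rw [mul_assoc, ← ex_add, show -((((a : ℤ) - b : ℤ) : ℝ) * ((i : ℝ) / n)) +
          (((a : ℤ) - b : ℤ) : ℝ) * x = (((a : ℤ) - b : ℤ) : ℝ) * (x - i / n) by ring]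
        push_cast
        ring
      rw [sum_congr rfl fun j _ => a1 j, sum_congr rfl fun i _ => a2 i, sum_comm,
        sum_comm (s := range n) (t := range n)]
      refine sum_congr rfl fun a ha => ?_
      rw [sum_comm, sum_comm (s := range n) (t := range n)]
      refine sum_congr rfl fun b hb' => ?_
      have := mem_range.1 ha
      have := mem_range.1 hb'
      rw [sum_ite_eq, if_pos (by rw [mem_Icc, hnZ]; constructor <;> omega), hV, sum_mul, sum_div]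
    have e2 : ∑ i ∈ range n, ‖gs n (x - i / n)‖ ^ 2 / (n : ℝ) ^ 2 = 1 := by
      rw [← sum_div, tot_CAp, div_self (by positivity)]
    have e3 : u x = ∑ i ∈ range n, ((‖gs n (x - i / n)‖ ^ 2 / (n : ℝ) ^ 2 : ℝ) : ℂ) * u x := by
      rw [← sum_mul, ← Complex.ofReal_sum, e2, Complex.ofReal_one, one_mul]
    rw [e1, e3, ← sum_sub_distrib]
    have key : ∀ i : ℕ, ‖((‖gs n (x - i / n)‖ ^ 2 / (n : ℝ) ^ 2 : ℝ) : ℂ) * u x -
        ((‖gs n (x - i / n)‖ ^ 2 / (n : ℝ) ^ 2 : ℝ) : ℂ) * u (i / n)‖ ≤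
        ‖gs n (x - i / n)‖ ^ 2 / (n : ℝ) ^ 2 * (Λ / N) + (N : ℝ) ^ 2 / (n : ℝ) ^ 2 := fun i => by
      rw [← mul_sub, norm_mul, Complex.norm_real, Real.norm_of_nonneg (by positivity)]
      have hf := far_CAp n (x - i / n)
      have hp : u (i / n + round (x - i / n)) = u (i / n) := by
        have := Function.Periodic.int_mul (f := u) (c := 1) hper (round (x - i / n)) (i / n)
        rwa [mul_one] at this
      have hd := hL x (i / n + round (x - i / n))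
      rw [hp, ← sub_sub] at hd
      generalize |x - i / n - round (x - i / n)| = d at hf hd
      have hg := norm_nonneg (gs n (x - i / n))
      generalize ‖gs n (x - i / n)‖ = g at hf hg
      by_cases hc : d ≤ 1 / N
      · have : Λ * d ≤ Λ / N := by
          rw [div_eq_mul_one_div]; exact mul_le_mul_of_nonneg_left hc hΛ
        have h1 := mul_le_mul_of_nonneg_left (hd.trans this)
          (by positivity : 0 ≤ g ^ 2 / (n : ℝ) ^ 2)
        have : 0 ≤ (N : ℝ) ^ 2 / (n : ℝ) ^ 2 := by positivity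
        linarith
      · have h1 : 1 < d * N := by rwa [not_le, div_lt_iff₀ hN0] at hc
        have h2 : 2 * g ≤ N := by nlinarith [mul_nonneg hg (sub_nonneg.2 h1.le)]
        have h3 : ‖u x - u (i / n)‖ ≤ 2 := (norm_sub_le _ _).trans (by linarith [hb x, hb (i / n)])
        have h4 : g ^ 2 / (n : ℝ) ^ 2 * ‖u x - u (i / n)‖ ≤ (N : ℝ) ^ 2 / (n : ℝ) ^ 2 := by
          rw [div_mul_eq_mul_div]
          refine div_le_div_of_nonneg_right ?_ (by positivity)
          nlinarith [mul_le_mul_of_nonneg_left h3 (sq_nonneg g)]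
        have : 0 ≤ g ^ 2 / (n : ℝ) ^ 2 * (Λ / N) := by positivity
        linarith
    refine (norm_sum_le _ _).trans ((sum_le_sum fun i _ => key i).trans (le_of_eq ?_))
    rw [sum_add_distrib, ← sum_mul, e2, sum_const, card_range, nsmul_eq_mul, hnR]
    field_simp

/-- the tent function -/
def tent_CAp (z : ℝ) : ℝ := max 0 (1 - |z|)

/-- the ramp function -/
def ramp_CAp (z : ℝ) : ℝ := min 1 (max 0 z)

theorem tent_eq_CAp (z : ℝ) : tent_CAp z = ramp_CAp (z + 1) - ramp_CAp z := by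
  unfold tent_CAp ramp_CAp
  rcases abs_cases z with h | h <;> simp only [max_def, min_def] <;> split_ifs <;> linarith [h.1]

theorem tent_bd_CAp (z : ℝ) : 0 ≤ tent_CAp z ∧ tent_CAp z ≤ 1 :=
  ⟨le_max_left _ _, max_le zero_le_one (by linarith [abs_nonneg z])⟩

theorem tent_lip_CAp (a b : ℝ) : |tent_CAp a - tent_CAp b| ≤ |a - b| := by
  unfold tent_CAp
  rw [max_comm 0, max_comm 0]
  refine (abs_max_sub_max_le_abs _ _ _).trans ?_
  rw [show 1 - |a| - (1 - |b|) = -(|a| - |b|) by ring, abs_neg]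
  exact abs_abs_sub_abs_le_abs_sub a b

theorem tent_ne_CAp {z : ℝ} (h : tent_CAp z ≠ 0) : |z| < 1 := by
  by_contra h'
  exact h (max_eq_left (by linarith [not_lt.1 h']))

theorem tent_zero_CAp {z : ℝ} (h : 1 ≤ z ∨ z ≤ -1) : tent_CAp z = 0 := by
  by_contra h'
  have := abs_lt.1 (tent_ne_CAp h')
  rcases h with h | h <;> linarith [this.1, this.2]

theorem tent_sum_CAp (K : ℕ) (z : ℝ) :
    ∑ i ∈ range K, tent_CAp (z - i) = ramp_CAp (z + 1) - ramp_CAp (z - K + 1) := by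
  induction K with
  | zero => simp
  | succ K ih =>
    rw [sum_range_succ, ih, tent_eq_CAp, show z - ((K + 1 : ℕ) : ℝ) + 1 = z - K by push_cast; ring]
    ring

theorem ramp_one_CAp {z : ℝ} (h : 1 ≤ z) : ramp_CAp z = 1 :=
  min_eq_left (h.trans (le_max_right _ _))

theorem ramp_zero_CAp {z : ℝ} (h : z ≤ 0) : ramp_CAp z = 0 := by
  rw [ramp_CAp, max_eq_left h]; exact min_eq_right zero_le_one

theorem three_CAp {n t : ℝ} (hn : 4 ≤ n) (h1 : -1 < t) (h2 : t < 1) :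
    tent_CAp (n * |t - round t|) =
      tent_CAp (n * t + n) + tent_CAp (n * t) + tent_CAp (n * t - n) := by
  have e : tent_CAp (n * |t - round t|) = tent_CAp (n * (t - round t)) := by
    unfold tent_CAp
    rw [abs_mul, abs_mul, abs_abs]
  rw [e]
  have h3 := abs_le.1 (abs_sub_round t)
  have h4 : (-2 : ℤ) < round t := by
    have : ((-2 : ℤ) : ℝ) < round t := by push_cast; linarith [h3.2]
    exact_mod_cast this
  have h5 : round t < (2 : ℤ) := by
    have : (round t : ℝ) < ((2 : ℤ) : ℝ) := by push_cast; linarith [h3.1]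
    exact_mod_cast this
  generalize round t = m at h3 h4 h5
  obtain ⟨h6, h7⟩ := h3
  interval_cases m
  · push_cast at h6 h7 ⊢
    rw [tent_zero_CAp (z := n * t) (Or.inr (by nlinarith)),
      tent_zero_CAp (z := n * t - n) (Or.inr (by nlinarith)), add_zero, add_zero]
    congr 1; ring
  · push_cast at h6 h7 ⊢
    rw [tent_zero_CAp (z := n * t + n) (Or.inl (by nlinarith)),
      tent_zero_CAp (z := n * t - n) (Or.inr (by nlinarith)), add_zero, zero_add, sub_zero]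
  · push_cast at h6 h7 ⊢
    rw [tent_zero_CAp (z := n * t + n) (Or.inl (by nlinarith)),
      tent_zero_CAp (z := n * t) (Or.inl (by nlinarith)), add_zero, zero_add]
    congr 1; ring

theorem dist_lip_CAp (a b : ℝ) : |(|a - round a| - |b - round b|)| ≤ |a - b| := by
  have h : ∀ a b : ℝ, |a - round a| - |b - round b| ≤ |a - b| := fun a b => by
    have h1 := round_le a (round b)
    have h2 := abs_sub_le a b (round b)
    linarith
  rw [abs_le]
  exact ⟨by linarith [h b a, abs_sub_comm a b], h a b⟩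

theorem cpart : PartStmt := by
  intro T n hn
  have hnR : (4 : ℝ) ≤ n := by exact_mod_cast hn
  have hn0 : (0 : ℝ) < n := by linarith
  refine ⟨fun i x => tent_CAp (n * x + T * n - (i : ℕ)), fun i => ((i : ℕ) - T * n) / n - 1 / 2,
    fun i x => tent_CAp (n * |x - (i : ℕ) / n - round (x - (i : ℕ) / n)|),
    fun i => ⟨⟨fun x => tent_bd_CAp _, fun x y => ?_, fun x hx => ?_⟩, ?_, ?_,
      fun x y hx hy => ?_⟩, fun x => ?_,
    fun i => ⟨⟨fun x => tent_bd_CAp _, fun x y => ?_, fun x => ?_⟩, fun x y hx hy => ?_⟩,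
    fun x => ?_⟩
  · refine (tent_lip_CAp _ _).trans (le_of_eq ?_)
    rw [show (n : ℝ) * x + T * n - (i : ℕ) - (n * y + T * n - (i : ℕ)) = n * (x - y) by ring,
      abs_mul, abs_of_pos hn0]
  · obtain ⟨h1, h2⟩ := abs_lt.1 (tent_ne_CAp hx)
    have h3 : x - 1 / 4 ≤ (((i : ℕ) : ℝ) - T * n) / n := by rw [le_div_iff₀ hn0]; nlinarith
    have h4 : (((i : ℕ) : ℝ) - T * n) / n ≤ x + 1 / 4 := by rw [div_le_iff₀ hn0]; nlinarith
    constructor <;> linarith
  · have h3 : -(T : ℝ) ≤ (((i : ℕ) : ℝ) - T * n) / n := by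
      rw [le_div_iff₀ hn0]; nlinarith [Nat.cast_nonneg (α := ℝ) (i : ℕ)]
    linarith
  · have h1 : ((i : ℕ) : ℝ) ≤ 2 * T * n := by exact_mod_cast Nat.lt_succ_iff.1 i.2
    have h3 : (((i : ℕ) : ℝ) - T * n) / n ≤ T := by rw [div_le_iff₀ hn0]; nlinarith
    linarith
  · obtain ⟨h1, h2⟩ := abs_lt.1 (tent_ne_CAp hx)
    obtain ⟨h3, h4⟩ := abs_lt.1 (tent_ne_CAp hy)
    rw [le_div_iff₀ hn0, ← abs_of_pos hn0, ← abs_mul, abs_le]
    constructor <;> nlinarith
  · have e := (Fin.sum_univ_eq_sum_range (fun i : ℕ => tent_CAp (n * x + T * n - i))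
      (2 * T * n + 1)).trans (tent_sum_CAp _ _)
    beta_reduce
    rw [e]
    refine ⟨?_, fun hx => ?_⟩
    · have h1 : ramp_CAp (n * x + T * n + 1) ≤ 1 := min_le_left _ _
      have h2 : 0 ≤ ramp_CAp (n * x + T * n - ((2 * T * n + 1 : ℕ) : ℝ) + 1) :=
        le_min zero_le_one (le_max_left _ _)
      linarith
    · obtain ⟨h1, h2⟩ := abs_le.1 hx
      rw [ramp_one_CAp (by nlinarith), ramp_zero_CAp (by push_cast; nlinarith), sub_zero]
  · refine (tent_lip_CAp _ _).trans ?_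
    rw [← mul_sub, abs_mul, abs_of_pos hn0]
    refine mul_le_mul_of_nonneg_left ((dist_lip_CAp _ _).trans (le_of_eq ?_)) hn0.le
    congr 1; ring
  · beta_reduce
    rw [show x + 1 - ((i : ℕ) : ℝ) / n = x - (i : ℕ) / n + 1 by ring, round_add_one]
    congr 3
    push_cast
    ring
  · have h1 := tent_ne_CAp hx
    have h2 := tent_ne_CAp hy
    rw [abs_mul, abs_abs, abs_of_pos hn0, ← abs_of_pos hn0, ← abs_mul, abs_of_pos hn0,
      abs_lt] at h1 h2
    refine ⟨round (x - (i : ℕ) / n) - round (y - (i : ℕ) / n), ?_⟩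
    rw [le_div_iff₀ hn0, ← abs_of_pos hn0, ← abs_mul, abs_of_pos hn0, abs_le]
    push_cast
    constructor <;> nlinarith [h1.1, h1.2, h2.1, h2.2]
  · have hy0 := Int.fract_nonneg x
    have hy1 := Int.fract_lt_one x
    have e : ∀ i ∈ range n, tent_CAp (n * |x - (i : ℝ) / n - round (x - (i : ℝ) / n)|) =
        tent_CAp (n * Int.fract x + n - i) + tent_CAp (n * Int.fract x - i) +
          tent_CAp (n * Int.fract x - n - i) := fun i hi => by
      have hi' : (i : ℝ) / n < 1 := by rw [div_lt_one hn0]; exact_mod_cast mem_range.1 hi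
      have hi0 : 0 ≤ (i : ℝ) / n := by positivity
      have e1 : x - (i : ℝ) / n = Int.fract x - i / n + ⌊x⌋ := by
        rw [Int.fract]; ring
      have e2 : (n : ℝ) * (Int.fract x - i / n) = n * Int.fract x - i := by field_simp
      rw [e1, round_add_intCast, Int.cast_add, add_sub_add_right_eq_sub,
        three_CAp hnR (by linarith) (by linarith), e2]
      congr 2
      · congr 1; ring
      · ring
    refine (Fin.sum_univ_eq_sum_range (fun i : ℕ =>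
      tent_CAp (n * |x - (i : ℝ) / n - round (x - (i : ℝ) / n)|)) n).trans ?_
    rw [sum_congr rfl e, sum_add_distrib, sum_add_distrib, tent_sum_CAp, tent_sum_CAp,
      tent_sum_CAp, ramp_one_CAp (z := n * Int.fract x + n + 1) (by nlinarith),
      ramp_zero_CAp (z := n * Int.fract x - n - n + 1) (by nlinarith), add_sub_cancel_right]
    ring

end Pool.Agent.MP_adc87d_lc.Big

end
end

section

/-! From characters to test functions. -/

set_option autoImplicit false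

noncomputable section

open Finset
open scoped Classical

namespace Pool.Agent.MP_adc87d_lc.Big

open Pool.Agent.MP_2a1f0e_nt (ex)

/-- expansion of a test function up to a uniform error -/
lemma dec_CEqC (I : Finset ℕ) (D : ℕ → Finset O) (f : O → ℝ) (G : O → ℂ) {ι : Type}
    (J : Finset ι) (c : ι → ℂ) (g : ι → O → ℂ) (δ e m₁ : ℝ) (hδ : 0 ≤ δ)
    (hm : ∑ n ∈ I, ∑ x ∈ D n, |f x| ≤ m₁) (hc : ∀ j ∈ J, ‖c j‖ ≤ 1)
    (hG : ∀ n ∈ I, ∀ x ∈ D n, f x ≠ 0 → ‖G x - ∑ j ∈ J, c j * g j x‖ ≤ δ)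
    (hg : ∀ j ∈ J, ‖∑ n ∈ I, ∑ x ∈ D n, (f x : ℂ) * g j x‖ ≤ e) :
    ‖∑ n ∈ I, ∑ x ∈ D n, (f x : ℂ) * G x‖ ≤ m₁ * δ + J.card * e := by
  have e1 : ∑ n ∈ I, ∑ x ∈ D n, (f x : ℂ) * G x =
      ∑ n ∈ I, ∑ x ∈ D n, (f x : ℂ) * (G x - ∑ j ∈ J, c j * g j x) +
        ∑ j ∈ J, c j * ∑ n ∈ I, ∑ x ∈ D n, (f x : ℂ) * g j x := by
    simp only [mul_sum]
    rw [sum_comm (s := J), ← sum_add_distrib]
    refine sum_congr rfl fun n _ => ?_
    rw [sum_comm (s := J), ← sum_add_distrib]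
    refine sum_congr rfl fun x _ => ?_
    rw [mul_sub, mul_sum, sum_congr rfl fun j _ => mul_left_comm (c j) (f x : ℂ) (g j x)]
    ring
  rw [e1]
  refine (norm_add_le _ _).trans (add_le_add ?_ ?_)
  · refine le_trans ?_ (mul_le_mul_of_nonneg_right hm hδ)
    rw [sum_mul]
    refine norm_sum_le_of_le _ fun n hn => ?_
    rw [sum_mul]
    refine norm_sum_le_of_le _ fun x hx => ?_
    by_cases h : f x = 0
    · simp [h]
    · rw [norm_mul, Complex.norm_real, Real.norm_eq_abs]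
      exact mul_le_mul_of_nonneg_left (hG n hn x hx h) (abs_nonneg _)
  · rw [← nsmul_eq_mul, ← sum_const]
    refine norm_sum_le_of_le _ fun j hj => ?_
    rw [norm_mul]
    exact (mul_le_of_le_one_left (norm_nonneg _) (hc j hj)).trans (hg j hj)

lemma card_CEqC {N : ℕ} (hN : 1 ≤ N) :
    ((Icc (-(N : ℤ) ^ 3) (N ^ 3)).card : ℝ) ≤ 3 * (N : ℝ) ^ 3 := by
  have h1 : (1 : ℤ) ≤ (N : ℤ) ^ 3 := one_le_pow₀ (by exact_mod_cast hN)
  have h2 : ((Icc (-(N : ℤ) ^ 3) (N ^ 3)).card : ℤ) ≤ 3 * (N : ℤ) ^ 3 := by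
    rw [Int.card_Icc_of_le _ _ (by linarith)]
    linarith
  exact_mod_cast h2

lemma abs_CEqC {N : ℕ} {j : ℤ} (hj : j ∈ Icc (-(N : ℤ) ^ 3) (N ^ 3)) :
    |(j : ℝ)| ≤ (N : ℝ) ^ 3 := by
  exact_mod_cast abs_le.2 (mem_Icc.1 hj)

lemma ex_lip_CEqC (a b : ℝ) : ‖ex a - ex b‖ ≤ 7 * |a - b| := by
  have h1 : ex a - ex b = ex b * (ex (a - b) - 1) := by
    rw [mul_sub, ← MP_2a1f0e_nt.ex_add, add_sub_cancel, mul_one]
  rw [h1, norm_mul, MP_2a1f0e_nt.norm_ex, one_mul]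
  refine (Real.norm_exp_I_mul_ofReal_sub_one_le).trans ?_
  rw [Real.norm_eq_abs, abs_mul, abs_of_pos Real.two_pi_pos]
  exact mul_le_mul_of_nonneg_right (by linarith [Real.pi_lt_d2]) (abs_nonneg _)

/-- periodisation of a function that vanishes at both ends -/
lemma lip_CEqC (g : ℝ → ℂ) (L s : ℝ) (hL : 0 ≤ L) (hg : ∀ x y, ‖g x - g y‖ ≤ L * |x - y|)
    (h0 : g s = 0) (h1 : g (s + 1) = 0) (x y : ℝ) :
    ‖g (s + Int.fract (x - s)) - g (s + Int.fract (y - s))‖ ≤ L * |x - y| := by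
  wlog h : x ≤ y generalizing x y
  · rw [norm_sub_rev, abs_sub_comm]
    exact this y x (not_le.1 h).le
  have ex1 := Int.floor_add_fract (x - s)
  have ey1 := Int.floor_add_fract (y - s)
  rcases (Int.floor_mono (show x - s ≤ y - s by linarith)).eq_or_lt with h2 | h2
  · refine (hg _ _).trans (le_of_eq ?_)
    rw [h2] at ex1
    rw [show s + Int.fract (x - s) - (s + Int.fract (y - s)) = x - y by linarith]
  · have h3 : (⌊x - s⌋ : ℝ) + 1 ≤ ⌊y - s⌋ := by exact_mod_cast h2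
    have a1 := hg (s + Int.fract (x - s)) (s + 1)
    have a2 := hg (s + Int.fract (y - s)) s
    rw [h1, sub_zero, abs_of_nonpos (by linarith [Int.fract_lt_one (x - s)])] at a1
    rw [h0, sub_zero, abs_of_nonneg (by linarith [Int.fract_nonneg (y - s)])] at a2
    rw [abs_of_nonpos (by linarith)]
    refine (norm_sub_le _ _).trans ((add_le_add a1 a2).trans ?_)
    rw [← mul_add]
    exact mul_le_mul_of_nonneg_left (by linarith) hL

/-- the weight along the unit group as a trigonometric polynomial -/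
lemma ap_CEqC (h3 : ApStmt) {s Λ σ : ℝ} {h : ℝ → ℝ} {N : ℕ} (hN : 1 ≤ N) (hΛ : 0 ≤ Λ)
    (hh : IsH1 s Λ h) (h0 : 0 ≤ σ) (h1 : σ ≤ 1) : ∃ c : ℤ → ℂ, (∀ j, ‖c j‖ ≤ 1) ∧
      ∀ x, s ≤ x → x < s + 1 →
        ‖(h x : ℂ) - ∑ j ∈ Icc (-(N : ℤ) ^ 3) (N ^ 3), c j * ex ((σ + j) * x)‖ ≤ (Λ + 20) / N := by
  set g : ℝ → ℂ := fun t => (h t : ℂ) * ex (-(σ * t)) with hg
  have hn : ∀ t, ‖(h t : ℂ)‖ ≤ 1 := fun t => by
    rw [Complex.norm_real, Real.norm_of_nonneg (hh.1 t).1]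
    exact (hh.1 t).2
  have g1 : ∀ x y, ‖g x - g y‖ ≤ (Λ + 7) * |x - y| := fun x y => by
    have e : g x - g y = ((h x - h y : ℝ) : ℂ) * ex (-(σ * x)) +
        h y * (ex (-(σ * x)) - ex (-(σ * y))) := by
      simp only [hg]
      push_cast
      ring
    have a1 := ex_lip_CEqC (-(σ * x)) (-(σ * y))
    rw [show -(σ * x) - -(σ * y) = -(σ * (x - y)) by ring, abs_neg, abs_mul,
      abs_of_nonneg h0] at a1
    have a2 := mul_le_of_le_one_left (abs_nonneg (x - y)) h1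
    have a3 := mul_le_of_le_one_left (norm_nonneg (ex (-(σ * x)) - ex (-(σ * y)))) (hn y)
    rw [e]
    refine (norm_add_le _ _).trans ?_
    rw [norm_mul, norm_mul, MP_2a1f0e_nt.norm_ex, mul_one, Complex.norm_real, Real.norm_eq_abs]
    linarith [hh.2.1 x y]
  have g0 : ∀ t, t < s + 1 / 4 ∨ s + 3 / 4 < t → g t = 0 := fun t ht => by
    have : h t = 0 := by
      by_contra hc
      have := hh.2.2 t hc
      rcases ht with ht | ht <;> linarith [this.1, this.2]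
    simp [hg, this]
  obtain ⟨c, hc, hx⟩ := h3 (fun x => g (s + Int.fract (x - s))) (Λ + 7) N hN (by linarith)
    (fun x => by rw [show x + 1 - s = x - s + 1 by ring, Int.fract_add_one])
    (fun x => by
      simp only [hg]
      rw [norm_mul, MP_2a1f0e_nt.norm_ex, mul_one]
      exact hn _)
    (lip_CEqC g _ s (by linarith) g1 (g0 _ (Or.inl (by linarith))) (g0 _ (Or.inr (by linarith))))
  refine ⟨c, hc, fun x h4 h5 => ?_⟩
  have a1 := hx x
  rw [Int.fract_eq_self.2 ⟨by linarith, by linarith⟩, add_sub_cancel] at a1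
  have e : (h x : ℂ) - ∑ j ∈ Icc (-(N : ℤ) ^ 3) (N ^ 3), c j * ex ((σ + j) * x) =
      ex (σ * x) * (g x - ∑ j ∈ Icc (-(N : ℤ) ^ 3) (N ^ 3), c j * ex (j * x)) := by
    rw [mul_sub, mul_sum]
    simp only [hg, add_mul, MP_2a1f0e_nt.ex_add]
    rw [mul_left_comm, ← MP_2a1f0e_nt.ex_add, add_neg_cancel, MP_2a1f0e_nt.ex_zero, mul_one,
      sum_congr rfl fun j _ => mul_left_comm (c j) (ex (σ * x)) (ex (j * x))]
  rw [e, norm_mul, MP_2a1f0e_nt.norm_ex, one_mul]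
  exact a1.trans (div_le_div_of_nonneg_right (by linarith) (Nat.cast_nonneg N))

theorem ceqc (h1 : AlgStmt) (h2 : ChStmt) (h3 : ApStmt) (h4 : FourStmt) : EqCStmt := by
  intro M N₁ N₂ I f T h₁ h₂ s Λ e₁ m₁ hM hN₁ hN₂ hΛ he hT hh₁ hh₂ hf hco hm hΨ
  have hmov := h1.2.2.2.2.2.2.2
  have hm0 : 0 ≤ m₁ := (sum_nonneg fun n _ => sum_nonneg fun x _ => abs_nonneg _).trans hm
  have hm' : ∑ n ∈ I, ∑ x ∈ Dn s n, |f x| ≤ m₁ := by
    refine le_trans (le_of_eq (sum_congr rfl fun n _ => ?_)) hm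
    have := hmov s n (fun x => ((|f x| : ℝ) : ℂ)) fun x hx => by rw [hf x hx]
    exact_mod_cast this
  have ht0 : tO ≠ 0 := tU.ne_zero
  have hn₁ : ∀ t, ‖(h₁ t : ℂ)‖ ≤ 1 := fun t => by
    rw [Complex.norm_real, Real.norm_of_nonneg (hh₁.1 t).1]
    exact (hh₁.1 t).2
  have core : ∀ (φ : O → ℂ) (m : ℤ), IsFin M φ → (∀ n : ℤ, IsCoprime n M → φ n = 1) →
      |(m : ℝ)| ≤ (N₂ : ℝ) ^ 3 →
      ‖∑ n ∈ I, ∑ x ∈ Dn s n, (f x : ℂ) * (φ x * h₁ (eta x) * ex (m * ang x))‖ ≤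
        m₁ * ((Λ + 20) / N₁) + 3 * (N₁ : ℝ) ^ 3 * e₁ := by
    intro φ m hφ hj hm2
    obtain ⟨σ, s0, s1, hs⟩ := h2.2.2.2.2.2.2.2.2 M φ m hφ
    obtain ⟨c, hc, hx⟩ := ap_CEqC h3 hN₁ hΛ hh₁ s0 s1
    refine (dec_CEqC I (Dn s) f _ (Icc (-(N₁ : ℤ) ^ 3) (N₁ ^ 3)) c
      (fun j => (⟨M, φ, σ + j, m⟩ : Chr).val) ((Λ + 20) / N₁) e₁ m₁ (by positivity) hm'
      (fun j _ => hc j) (fun n _ x hx2 _ => ?_) fun j hj2 => ?_).trans
      (add_le_add le_rfl (mul_le_mul_of_nonneg_right (card_CEqC hN₁) he))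
    · obtain ⟨⟨x0, x1, x2⟩, _⟩ := mem_Dn.1 hx2
      have e : φ x * h₁ (eta x) * ex (m * ang x) - ∑ j ∈ Icc (-(N₁ : ℤ) ^ 3) (N₁ ^ 3),
          c j * (⟨M, φ, σ + j, m⟩ : Chr).val x = φ x * ex (m * ang x) * (h₁ (eta x) -
            ∑ j ∈ Icc (-(N₁ : ℤ) ^ 3) (N₁ ^ 3), c j * ex ((σ + j) * eta x)) := by
        rw [mul_sub, mul_sum, mul_right_comm]
        refine congrArg _ (sum_congr rfl fun j _ => ?_)
        simp only [Chr.val, (h2.2.1 _ _ x (ne_of_xr_pos x0)).2]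
        ring
      have a1 : ‖φ x‖ ≤ 1 := by
        by_cases hq : IsCoprime (Nm x) M
        · exact (hφ.unit x hq).le
        · simp [hφ.zero x hq]
      rw [e, norm_mul, norm_mul, MP_2a1f0e_nt.norm_ex, mul_one]
      exact (mul_le_of_le_one_left (norm_nonneg _) a1).trans (hx _ x1 x2)
    · rw [sum_congr rfl fun n _ => hmov s n
        (fun x => (f x : ℂ) * (⟨M, φ, σ + j, m⟩ : Chr).val x) fun x x0 => by
          rw [hf x x0, (h2.2.2.2.2.2.1 _ (hs j)).1 _ _ ht0 (ne_of_xr_pos x0),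
            show (⟨M, φ, σ + j, m⟩ : Chr).val tO = 1 from (hs j).2, one_mul]]
      refine hΨ _ (hs j) rfl hj ((abs_add_le _ _).trans ?_) hm2
      rw [abs_of_nonneg s0]
      linarith [abs_CEqC hj2]
  have hE : 0 ≤ m₁ * ((Λ + 20) / N₁) + 3 * (N₁ : ℝ) ^ 3 * e₁ := by positivity
  obtain ⟨r, φ, d, hr, hd, hTx⟩ := h4 M T hM hT
  have mid : ∀ m : ℤ, |(m : ℝ)| ≤ (N₂ : ℝ) ^ 3 →
      ‖∑ n ∈ I, ∑ x ∈ Dn s n, (f x : ℂ) * (T x * h₁ (eta x) * ex (m * ang x))‖ ≤
        (M : ℝ) ^ 3 * (m₁ * ((Λ + 20) / N₁) + 3 * (N₁ : ℝ) ^ 3 * e₁) := by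
    intro m hm2
    refine (dec_CEqC I (Dn s) f _ univ d (fun i x => φ i x * h₁ (eta x) * ex (m * ang x)) 0 _ m₁
      le_rfl hm' (fun i _ => (hd i).1) (fun n hn x hx hfx => ?_)
      fun i _ => core (φ i) m (hd i).2.1 (hd i).2.2 hm2).trans ?_
    · rw [hTx x (hco n hn x hx hfx), sum_mul, sum_mul, ← sum_sub_distrib,
        sum_eq_zero fun i _ => by ring, norm_zero]
    · rw [mul_zero, zero_add, card_univ, Fintype.card_fin]
      exact mul_le_mul_of_nonneg_right (by exact_mod_cast hr) hE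
  obtain ⟨c, hc, hx⟩ := h3 (fun x => (h₂ x : ℂ)) Λ N₂ hN₂ hΛ (fun x => by rw [hh₂.2.2 x])
    (fun x => by
      rw [Complex.norm_real, Real.norm_of_nonneg (hh₂.1 x).1]
      exact (hh₂.1 x).2)
    (fun x y => by
      rw [← Complex.ofReal_sub, Complex.norm_real, Real.norm_eq_abs]
      exact hh₂.2.1 x y)
  have fin := dec_CEqC I (Dn s) f (fun x => T x * h₁ (eta x) * h₂ (ang x))
    (Icc (-(N₂ : ℤ) ^ 3) (N₂ ^ 3)) c (fun j x => T x * h₁ (eta x) * ex (j * ang x))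
    ((Λ + 1) / N₂) _ m₁ (by positivity) hm' (fun j _ => hc j) (fun n _ x _ _ => by
      have e : T x * h₁ (eta x) * h₂ (ang x) - ∑ j ∈ Icc (-(N₂ : ℤ) ^ 3) (N₂ ^ 3),
          c j * (T x * h₁ (eta x) * ex (j * ang x)) = T x * h₁ (eta x) * (h₂ (ang x) -
            ∑ j ∈ Icc (-(N₂ : ℤ) ^ 3) (N₂ ^ 3), c j * ex (j * ang x)) := by
        rw [mul_sub, mul_sum]
        exact congrArg _ (sum_congr rfl fun j _ => by ring)
      rw [e, norm_mul, norm_mul]
      exact (mul_le_of_le_one_left (norm_nonneg _)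
        (mul_le_one₀ (hT.2.2 x) (norm_nonneg _) (hn₁ _))).trans (hx _))
    fun j hj => mid j (abs_CEqC hj)
  simp only [mul_assoc] at fin ⊢
  refine fin.trans ((add_le_add le_rfl (mul_le_mul_of_nonneg_right (card_CEqC hN₂)
    (by positivity))).trans (le_of_eq ?_))
  ring

end Pool.Agent.MP_adc87d_lc.Big

end
end

section

/-! The Siegel-Walfisz estimate over the good residue classes. -/

set_option autoImplicit false

noncomputable section

open Finset
open scoped Classical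

namespace Pool.Agent.MP_adc87d_lc.Big

open Pool.Agent.MP_2a1f0e_nt (ex)

theorem lo_mod_CSW (k n : ℕ) : Lo k (n % (23 * 3 ^ k)) ↔ Lo k n := by
  unfold Lo
  have h1 : n % (23 * 3 ^ k) % 3 ^ k = n % 3 ^ k := Nat.mod_mod_of_dvd _ (Dvd.intro_left _ rfl)
  have h2 : ((n % (23 * 3 ^ k) : ℕ) : ZMod 23) = (n : ZMod 23) := by
    rw [ZMod.natCast_eq_natCast_iff']
    exact Nat.mod_mod_of_dvd _ (Dvd.intro _ rfl)
  rw [h1, h2]

theorem lo_cop_CSW (k n : ℕ) (h : Lo k n) : n.Coprime (23 * 3 ^ k) := by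
  obtain ⟨h1, h2⟩ := h
  apply Nat.Coprime.mul_right
  · apply Nat.Coprime.symm
    rw [Nat.Prime.coprime_iff_not_dvd (by norm_num)]
    intro hd
    apply h2
    rw [(ZMod.natCast_eq_zero_iff n 23).2 hd]
    exact IsSquare.zero
  · unfold Nat.Coprime
    rw [Nat.gcd_comm, Nat.gcd_rec, h1]
    simp

theorem ind_CSW (k : ℕ) (n : ℕ) (q : ℕ) [NeZero q] (hq : q = 23 * 3 ^ k) :
    (if Lo k n then (1 : ℂ) else 0) =
      ∑ a ∈ (univ : Finset (ZMod q)).filter fun a => IsUnit a ∧ Lo k a.val,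
        ∑ χ : DirichletCharacter ℂ q, (q.totient : ℂ)⁻¹ * χ a⁻¹ * χ (n : ZMod q) := by
  have hφ : (q.totient : ℂ) ≠ 0 := by
    exact_mod_cast (Nat.totient_pos.2 (Nat.pos_of_ne_zero (NeZero.ne q))).ne'
  have e : ∀ a ∈ (univ : Finset (ZMod q)).filter fun a => IsUnit a ∧ Lo k a.val,
      ∑ χ : DirichletCharacter ℂ q, (q.totient : ℂ)⁻¹ * χ a⁻¹ * χ (n : ZMod q) =
        if a = (n : ZMod q) then (1 : ℂ) else 0 := by
    intro a ha
    have hu := (mem_filter.1 ha).2.1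
    have h := DirichletCharacter.sum_char_inv_mul_char_eq ℂ hu (n : ZMod q)
    simp only [mul_assoc]
    rw [← mul_sum, h]
    split_ifs
    · exact inv_mul_cancel₀ hφ
    · simp
  rw [sum_congr rfl e, sum_ite_eq']
  have hv : Lo k (n : ZMod q).val ↔ Lo k n := by
    rw [ZMod.val_natCast, hq]
    exact lo_mod_CSW k n
  by_cases h : Lo k n
  · rw [if_pos h, if_pos]
    refine mem_filter.2 ⟨mem_univ _, ?_, hv.2 h⟩
    rw [ZMod.isUnit_iff_coprime, hq]
    exact lo_cop_CSW k n h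
  · rw [if_neg h, if_neg]
    intro hm
    exact h (hv.1 (mem_filter.1 hm).2.2)

theorem comb_CSW (k q : ℕ) [NeZero q] (hq : q = 23 * 3 ^ k) (P : Finset ℕ) (f : ℕ → ℂ) (D : ℝ)
    (hD : 0 ≤ D) (h : ∀ χ : DirichletCharacter ℂ q, ‖∑ p ∈ P, χ (p : ZMod q) * f p‖ ≤ D) :
    ‖∑ p ∈ P.filter (Lo k), f p‖ ≤
      ((q * Fintype.card (DirichletCharacter ℂ q) : ℕ) : ℝ) * D := by
  set S := (univ : Finset (ZMod q)).filter fun a => IsUnit a ∧ Lo k a.val with hS
  have e : ∑ p ∈ P.filter (Lo k), f p =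
      ∑ a ∈ S, ∑ χ : DirichletCharacter ℂ q,
        (q.totient : ℂ)⁻¹ * χ a⁻¹ * ∑ p ∈ P, χ (p : ZMod q) * f p := by
    rw [sum_filter]
    have e1 : ∀ p ∈ P, (if Lo k p then f p else 0) =
        ∑ a ∈ S, ∑ χ : DirichletCharacter ℂ q,
          (q.totient : ℂ)⁻¹ * χ a⁻¹ * (χ (p : ZMod q) * f p) := by
      intro p _
      have h1 := ind_CSW k p q hq
      have h2 : (if Lo k p then f p else 0) = (if Lo k p then (1 : ℂ) else 0) * f p := by
        split_ifs <;> simp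
      rw [h2, h1, sum_mul]
      refine sum_congr rfl fun a _ => ?_
      rw [sum_mul]
      refine sum_congr rfl fun χ _ => ?_
      ring
    rw [sum_congr rfl e1, sum_comm]
    refine sum_congr rfl fun a _ => ?_
    rw [sum_comm]
    refine sum_congr rfl fun χ _ => ?_
    rw [mul_sum]
  rw [e]
  have hφ : ‖(q.totient : ℂ)⁻¹‖ ≤ 1 := by
    rw [norm_inv, Complex.norm_natCast]
    apply inv_le_one_of_one_le₀
    exact_mod_cast Nat.totient_pos.2 (Nat.pos_of_ne_zero (NeZero.ne q))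
  have hb : ∀ a ∈ S, ‖∑ χ : DirichletCharacter ℂ q,
      (q.totient : ℂ)⁻¹ * χ a⁻¹ * ∑ p ∈ P, χ (p : ZMod q) * f p‖ ≤
      (Fintype.card (DirichletCharacter ℂ q) : ℝ) * D := by
    intro a _
    refine (norm_sum_le _ _).trans ?_
    have : ∀ χ ∈ (univ : Finset (DirichletCharacter ℂ q)),
        ‖(q.totient : ℂ)⁻¹ * χ a⁻¹ * ∑ p ∈ P, χ (p : ZMod q) * f p‖ ≤ D := by
      intro χ _
      rw [norm_mul, norm_mul]
      have h1 : ‖χ a⁻¹‖ ≤ 1 := DirichletCharacter.norm_le_one χ _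
      have h2 : ‖(q.totient : ℂ)⁻¹‖ * ‖χ a⁻¹‖ ≤ 1 := mul_le_one₀ hφ (norm_nonneg _) h1
      calc _ ≤ 1 * D := mul_le_mul h2 (h χ) (norm_nonneg _) zero_le_one
        _ = D := one_mul D
    refine (sum_le_card_nsmul _ _ _ this).trans ?_
    simp
  refine (norm_sum_le _ _).trans ((sum_le_card_nsmul _ _ _ hb).trans ?_)
  have hc : (S.card : ℝ) ≤ q := by
    have : S.card ≤ Fintype.card (ZMod q) := card_le_univ S
    rw [ZMod.card] at this
    exact_mod_cast this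
  rw [nsmul_eq_mul]
  push_cast
  rw [mul_assoc]
  exact mul_le_mul_of_nonneg_right hc (by positivity)

theorem csw (h1 : ChStmt) (h2 : ZBStmt) (h3 : SWAStmt) : SWStmt := by
  intro k E B hk
  obtain ⟨A, hA, hZ⟩ := h2
  obtain ⟨x₀, hx₀⟩ := h3 A (E + 1) (B + 1) hA
  obtain ⟨q, hq⟩ : ∃ q : ℕ, q = 23 * 3 ^ k := ⟨_, rfl⟩
  have : NeZero q := ⟨by rw [hq]; positivity⟩
  obtain ⟨N, hN⟩ : ∃ N : ℕ, N = q * Fintype.card (DirichletCharacter ℂ q) := ⟨_, rfl⟩
  refine ⟨max x₀ (Real.exp (A + N)), fun x hx Ψ hI hd hc hj hne => ?_⟩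
  obtain ⟨-, -, -, -, -, hv, ht, hg, -⟩ := h1
  have hx1 : x₀ ≤ x := le_trans (le_max_left _ _) hx
  have hx2 : Real.exp (A + N) ≤ x := le_trans (le_max_right _ _) hx
  have hxp : 0 < x := lt_of_lt_of_le (Real.exp_pos _) hx2
  have hl : A + N ≤ Real.log x := (Real.le_log_iff_exp_le hxp).2 hx2
  have hN0 : (0 : ℝ) ≤ N := Nat.cast_nonneg _
  have hlp : 0 < Real.log x := by linarith
  have hGen : Ψ.Gen q := by rw [hq]; exact hg Ψ k hk hI hd hj hne
  have hd' : q ∣ Ψ.M := by rw [hq]; exact hd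
  have hPq : Ψ.Pq q := (ht Ψ q 1 hI hd').2.2.2.2.1 hj
  have h23 : 23 ∣ q := by rw [hq]; exact Dvd.intro _ rfl
  have hc1 : 1 ≤ Ψ.cond := (hv Ψ hI).2.2.2.2
  have hb : ∀ χ : DirichletCharacter ℂ q,
      ‖∑ p ∈ (Icc 1 ⌊x⌋₊).filter Nat.Prime, χ (p : ZMod q) * (Ψ.a p * Real.log p)‖ ≤
        x / Real.log x ^ (E + 1) := by
    intro χ
    obtain ⟨i1, i2, i3, i4, -, -⟩ := ht Ψ q χ hI hd'
    obtain ⟨z1, z2⟩ := hZ (Ψ.tw χ) q i1 h23 hd' (i4 hPq) (i3 hGen)
    have hcc : (Ψ.tw χ).cond = Ψ.cond := rfl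
    rw [hcc] at z1 z2
    have hQ1 : 1 ≤ A * Ψ.cond := one_le_mul_of_one_le_of_one_le hA hc1
    have hQ2 : A * Ψ.cond ≤ Real.log x ^ (B + 1) := by
      rw [pow_succ']
      exact mul_le_mul (by linarith) hc (by linarith) hlp.le
    have := hx₀ x hx1 (Ψ.tw χ).a (A * Ψ.cond) hQ1 hQ2 z1 z2
    simp only [i2, mul_assoc] at this
    exact this
  have hD : 0 ≤ x / Real.log x ^ (E + 1) := by positivity
  have hm := comb_CSW k q hq _ (fun p => Ψ.a p * Real.log p) _ hD hb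
  rw [filter_filter, ← hN] at hm
  refine hm.trans ?_
  rw [pow_succ, ← div_div, mul_div_assoc', div_le_iff₀ hlp, mul_comm]
  exact mul_le_mul_of_nonneg_left (by linarith) (by positivity)

end Pool.Agent.MP_adc87d_lc.Big

end
end
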