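import Pool.Agent.Mg.Fadc87d.G04e6de

set_option linter.all false

/-! Divisibility outside W is definable; passage to integer polynomials with variables in R. -/

set_option autoImplicit false

noncomputable section

namespace Pool.Agent.MP_adc87d_lc.Big

open MvPolynomial

theorem congr_Conv {R : Subring ℚ} {ι : Type} {S T : (ι → ℚ) → Prop} (h : DQ R S)
    (e : ∀ v, S v ↔ T v) : DQ R T := by
  obtain ⟨μ, h1, U, P, h2⟩ := h
  exact ⟨μ, h1, U, P, fun v => (e v).symm.trans (h2 v)⟩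

theorem norm_one_Conv {p : ℕ} [Fact p.Prime] {a b w v : ℚ_[p]} (ha : ‖a‖ ≤ 1) (hb : ‖b‖ ≤ 1)
    (hw : ‖w‖ < 1) (hv : ‖v‖ ≤ 1) (h : a * w + b * v = 1) : ‖v‖ = 1 := by
  refine le_antisymm hv (not_lt.1 fun hv' => ?_)
  have h1 := Padic.nonarchimedean (a * w) (b * v)
  rw [h, norm_one, norm_mul, norm_mul] at h1
  have h2 : ‖a‖ * ‖w‖ < 1 := lt_of_le_of_lt (mul_le_of_le_one_left (norm_nonneg _) ha) hw
  have h3 : ‖b‖ * ‖v‖ < 1 := lt_of_le_of_lt (mul_le_of_le_one_left (norm_nonneg _) hb) hv'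
  exact absurd h1 (not_le.2 (max_lt h2 h3))

theorem dv_of_Conv {W : Set ℕ} {R : Subring ℚ} (hR : RW W R) {X z w v u v' a b c d : ℚ}
    (m1 : v ∈ R) (m2 : u ∈ R) (m3 : v' ∈ R) (m4 : a ∈ R) (m5 : b ∈ R) (m6 : c ∈ R) (m7 : d ∈ R)
    (e1 : X * v = w) (e2 : a * w + b * v = 1) (e3 : z * v' = w * u) (e4 : c * w + d * v' = 1) :
    Dv W X z := by
  intro p hp hW hX
  have key : ∀ x ∈ R, ‖(x : ℚ_[p])‖ ≤ 1 := fun x hx =>
    Padic.norm_rat_le_one fun h => hW ((hR x).1 hx p hp.out h)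
  have n1 : ‖(w : ℚ_[p])‖ = ‖(X : ℚ_[p])‖ * ‖(v : ℚ_[p])‖ := by
    rw [← e1, Rat.cast_mul, norm_mul]
  have n2 : ‖(w : ℚ_[p])‖ < 1 :=
    n1 ▸ lt_of_le_of_lt (mul_le_of_le_one_right (norm_nonneg _) (key v m1)) hX
  have n3 := norm_one_Conv (key a m4) (key b m5) n2 (key v m1) (by exact_mod_cast e2)
  have n4 := norm_one_Conv (key c m6) (key d m7) n2 (key v' m3) (by exact_mod_cast e4)
  have n5 : ‖(z : ℚ_[p])‖ * ‖(v' : ℚ_[p])‖ = ‖(w : ℚ_[p])‖ * ‖(u : ℚ_[p])‖ := by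
    rw [← norm_mul, ← norm_mul, ← Rat.cast_mul, ← Rat.cast_mul, e3]
  rw [n4, mul_one, n1, n3, mul_one] at n5
  rw [n5]
  exact mul_le_of_le_one_right (norm_nonneg _) (key u m2)

theorem bez_Conv (x : ℚ) : ∃ a b : ℤ, (a : ℚ) * x.num + b * x.den = 1 := by
  obtain ⟨a, b, h⟩ : IsCoprime x.num (x.den : ℤ) := Int.isCoprime_iff_gcd_eq_one.2 x.reduced
  exact ⟨a, b, by exact_mod_cast h⟩

theorem of_dv_Conv {W : Set ℕ} {R : Subring ℚ} (hR : RW W R) {p₀ : ℕ} (h0 : p₀.Prime)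
    (h0' : p₀ ∉ W) {X z : ℚ} (h : Dv W X z) : ∃ w v u v' a b c d : ℚ,
      v ∈ R ∧ u ∈ R ∧ v' ∈ R ∧ a ∈ R ∧ b ∈ R ∧ c ∈ R ∧ d ∈ R ∧ X * v = w ∧ a * w + b * v = 1 ∧
        z * v' = w * u ∧ c * w + d * v' = 1 := by
  by_cases hX : X = 0
  · have := Fact.mk h0
    have h1 := h p₀ h0' (by simp [hX])
    rw [hX, Rat.cast_zero, norm_zero, norm_le_zero_iff, Rat.cast_eq_zero] at h1
    exact ⟨0, 1, 0, 1, 0, 1, 0, 1, R.one_mem, R.zero_mem, R.one_mem, R.zero_mem, R.one_mem,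
      R.zero_mem, R.one_mem, by simp [hX], by simp, by simp [h1], by simp⟩
  have hw : (X.num : ℚ) ≠ 0 := by exact_mod_cast Rat.num_ne_zero.2 hX
  obtain ⟨a, b, hab⟩ := bez_Conv X
  obtain ⟨y, hy⟩ : ∃ y : ℚ, z = X.num * y := ⟨z / X.num, by field_simp⟩
  obtain ⟨g, hg⟩ : ∃ g : ℕ, g = Int.gcd X.num y.den := ⟨_, rfl⟩
  have g0 : g ≠ 0 := by
    rw [hg]
    exact fun e => y.den_ne_zero (by exact_mod_cast (Int.gcd_eq_zero_iff.1 e).2)
  have g0' : (g : ℚ) ≠ 0 := by exact_mod_cast g0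
  have g1 : (g : ℚ)⁻¹ ∈ R := by
    refine (hR _).2 fun p hp hd => ?_
    rw [Rat.inv_natCast_den_of_pos (Nat.pos_of_ne_zero g0)] at hd
    by_contra hW
    have := Fact.mk hp
    have d0 : (p : ℤ) ∣ g := by exact_mod_cast hd
    have n1 : ‖((X.num : ℚ) : ℚ_[p])‖ < 1 := by
      rw [Rat.cast_intCast]
      exact Padic.norm_intCast_lt_one_iff.2 (d0.trans (hg ▸ Int.gcd_dvd_left _ _))
    have n2 : ‖((y.den : ℚ) : ℚ_[p])‖ < 1 := by
      have := Padic.norm_intCast_lt_one_iff.2 (d0.trans (hg ▸ Int.gcd_dvd_right X.num y.den))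
      simpa using this
    have i1 : ∀ k : ℤ, ‖((k : ℚ) : ℚ_[p])‖ ≤ 1 := fun k => by
      rw [Rat.cast_intCast]
      exact Padic.norm_int_le_one k
    have i2 : ∀ k : ℕ, ‖((k : ℚ) : ℚ_[p])‖ ≤ 1 := fun k => by simpa using i1 k
    have n3 := norm_one_Conv (i1 a) (i1 b) n1 (i2 X.den) (by exact_mod_cast hab)
    obtain ⟨a', b', hab'⟩ := bez_Conv y
    have n4 := norm_one_Conv (i1 b') (i1 a') n2 (i1 y.num)
      (by rw [add_comm]; exact_mod_cast hab')
    have n5 : ‖((X.num : ℚ) : ℚ_[p])‖ = ‖(X : ℚ_[p])‖ := by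
      rw [← Rat.mul_den_eq_num X, Rat.cast_mul, norm_mul, n3, mul_one]
    have n6 := h p hW (n5 ▸ n1)
    have n7 : 0 < ‖((X.num : ℚ) : ℚ_[p])‖ := norm_pos_iff.2 (by exact_mod_cast hw)
    rw [hy, Rat.cast_mul, norm_mul, ← n5, mul_le_iff_le_one_right n7] at n6
    rw [← Rat.mul_den_eq_num y, Rat.cast_mul, norm_mul] at n4
    have n8 := lt_of_le_of_lt (mul_le_of_le_one_left (norm_nonneg _) n6) n2
    exact n8.ne n4
  have g2 : (g : ℚ) = X.num * Int.gcdA X.num y.den + y.den * Int.gcdB X.num y.den := by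
    have := Int.gcd_eq_gcd_ab X.num y.den
    rw [← hg] at this
    exact_mod_cast this
  refine ⟨X.num, X.den, y.num, y.den, a, b, Int.gcdA X.num y.den * (g : ℚ)⁻¹,
    Int.gcdB X.num y.den * (g : ℚ)⁻¹, natCast_mem R _, intCast_mem R _, natCast_mem R _,
    intCast_mem R _, intCast_mem R _, R.mul_mem (intCast_mem R _) g1,
    R.mul_mem (intCast_mem R _) g1, Rat.mul_den_eq_num X, hab, ?_, ?_⟩
  · rw [hy, mul_assoc, Rat.mul_den_eq_num]
  · field_simp
    linarith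

theorem dvs (h : DioStmt) : DvStmt := by
  intro W R hR ι F G hF hG
  have D := h R
  by_cases hW : ∀ p : ℕ, p.Prime → p ∈ W
  · exact congr_Conv (D.eq (D.const 0) (D.const 0)) fun v =>
      ⟨fun _ p hp hp' => absurd (hW p hp.out) hp', fun _ => rfl⟩
  push Not at hW
  obtain ⟨p₀, h0, h0'⟩ := hW
  have key : DQ R fun v : Bool → ℚ => Dv W (v true) (v false) := by
    refine congr_Conv (D.exs (κ := Fin 8) (fun v w => w 1 ∈ R ∧ w 2 ∈ R ∧ w 3 ∈ R ∧ w 4 ∈ R ∧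
      w 5 ∈ R ∧ w 6 ∈ R ∧ w 7 ∈ R ∧ v true * w 1 = w 0 ∧ w 4 * w 0 + w 5 * w 1 = 1 ∧
      v false * w 3 = w 0 * w 2 ∧ w 6 * w 0 + w 7 * w 3 = 1) ?_) fun v => ⟨?_, fun hv => ?_⟩
    · exact D.and (D.mem (D.proj _)) (D.and (D.mem (D.proj _)) (D.and (D.mem (D.proj _))
        (D.and (D.mem (D.proj _)) (D.and (D.mem (D.proj _)) (D.and (D.mem (D.proj _))
        (D.and (D.mem (D.proj _)) (D.and (D.eq (D.mul (D.proj _) (D.proj _)) (D.proj _))
        (D.and (D.eq (D.add (D.mul (D.proj _) (D.proj _)) (D.mul (D.proj _) (D.proj _)))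
          (D.const 1))
        (D.and (D.eq (D.mul (D.proj _) (D.proj _)) (D.mul (D.proj _) (D.proj _)))
          (D.eq (D.add (D.mul (D.proj _) (D.proj _)) (D.mul (D.proj _) (D.proj _)))
            (D.const 1)))))))))))
    · rintro ⟨w, m1, m2, m3, m4, m5, m6, m7, e1, e2, e3, e4⟩
      exact dv_of_Conv hR m1 m2 m3 m4 m5 m6 m7 e1 e2 e3 e4
    · obtain ⟨w, v, u, v', a, b, c, d, hh⟩ := of_dv_Conv hR h0 h0' hv
      exact ⟨![w, v, u, v', a, b, c, d], hh⟩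
  exact D.comp (F := fun j => cond j F G) key fun j => by
    cases j
    · exact hG
    · exact hF

theorem crt_Conv {d : ℕ} (hd : d ≠ 0) : ∃ c : ℤ, (d : ℤ) ∣ (2 * c - 1) * (3 * c - 1) := by
  obtain ⟨i, a, ⟨k, hk⟩, rfl⟩ := Nat.exists_eq_two_pow_mul_odd hd
  have h1 : IsCoprime (2 * k + 1 : ℤ) (2 ^ i) := IsCoprime.pow_right ⟨1, -k, by ring⟩
  have h2 : IsCoprime (3 : ℤ) (2 ^ i) := IsCoprime.pow_right ⟨1, -1, by ring⟩
  obtain ⟨u, v, huv⟩ := h1
  obtain ⟨u', v', huv'⟩ := h2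
  refine ⟨(k + 1) * v * 2 ^ i + u' * u * (2 * k + 1), ?_⟩
  rw [hk]
  push_cast
  rw [mul_comm]
  refine mul_dvd_mul ⟨1 - 2 * (k + 1) * u + 2 * u' * u, ?_⟩
    ⟨3 * (k + 1) * v - 3 * u' * v - v', ?_⟩
  · linear_combination 2 * (k + 1) * huv
  · linear_combination 3 * u' * huv + huv'

open Classical in
theorem homog_Conv {ι μ : Type} (T : Set μ) (P : MvPolynomial (ι ⊕ μ) ℚ) :
    ∃ (N : ℕ) (k : ℤ) (Q : MvPolynomial (ι ⊕ Option μ) ℤ), k ≠ 0 ∧
      ∀ (x : ι → ℚ) (w : Option μ → ℚ) (s : ℚ), s = (2 * w none - 1) * (3 * w none - 1) → s ≠ 0 →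
        aeval (Sum.elim x w) Q = k * s ^ N *
          eval (Sum.elim x fun j => if j ∈ T then w (some j) else w (some j) / s) P := by
  induction P using MvPolynomial.induction_on with
  | C a =>
    refine ⟨0, a.den, C a.num, by exact_mod_cast a.den_ne_zero, fun x w s _ _ => ?_⟩
    simp [mul_comm, Rat.mul_den_eq_num]
  | add p q ih₁ ih₂ =>
    obtain ⟨N₁, k₁, Q₁, a1, b1⟩ := ih₁
    obtain ⟨N₂, k₂, Q₂, a2, b2⟩ := ih₂
    refine ⟨N₁ + N₂, k₁ * k₂,
      C k₂ * ((2 * X (.inr none) - 1) * (3 * X (.inr none) - 1)) ^ N₂ * Q₁ +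
      C k₁ * ((2 * X (.inr none) - 1) * (3 * X (.inr none) - 1)) ^ N₁ * Q₂,
      mul_ne_zero a1 a2, fun x w s hs h0 => ?_⟩
    have e : aeval (Sum.elim x w) ((2 * X (.inr none) - 1) * (3 * X (.inr none) - 1) :
        MvPolynomial (ι ⊕ Option μ) ℤ) = s := by
      simp [hs, map_ofNat]
    rw [map_add, map_mul _ _ Q₁, map_mul _ _ Q₂, map_mul _ (C k₂), map_mul _ (C k₁), map_pow,
      map_pow, e, b1 x w s hs h0, b2 x w s hs h0, aeval_C, aeval_C, map_add, algebraMap_int_eq,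
      eq_intCast, eq_intCast]
    generalize eval _ p = A
    generalize eval _ q = B
    push_cast
    ring
  | mul_X p i ih =>
    obtain ⟨N, k, Q, a1, b1⟩ := ih
    rcases i with i | j
    · refine ⟨N, k, Q * X (.inl i), a1, fun x w s hs h0 => ?_⟩
      simp only [map_mul, b1 x w s hs h0, aeval_X, eval_X, Sum.elim_inl]
      ring
    · by_cases hj : j ∈ T
      · refine ⟨N, k, Q * X (.inr (some j)), a1, fun x w s hs h0 => ?_⟩
        simp only [map_mul, b1 x w s hs h0, aeval_X, eval_X, Sum.elim_inr, if_pos hj]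
        ring
      · refine ⟨N + 1, k, Q * X (.inr (some j)), a1, fun x w s hs h0 => ?_⟩
        simp only [map_mul, b1 x w s hs h0, aeval_X, eval_X, Sum.elim_inr, if_neg hj]
        field_simp
        ring

theorem conv : ConvStmt := by
  classical
  rintro W R hR h2 h3 n S ⟨μ, hμ, T, P, hP⟩
  obtain ⟨N, k, Q, k0, hQ⟩ := homog_Conv T P
  obtain ⟨m, ⟨e⟩⟩ := Finite.exists_equiv_fin (Option μ)
  have k0' : (k : ℚ) ≠ 0 := by exact_mod_cast k0
  have hs : ∀ c ∈ R, (2 * c - 1) * (3 * c - 1) ≠ 0 := by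
    intro c hc h
    rcases mul_eq_zero.1 h with h | h
    · obtain rfl : c = 1 / 2 := by linarith
      exact h2 ((hR _).1 hc 2 Nat.prime_two (by norm_num))
    · obtain rfl : c = 1 / 3 := by linarith
      exact h3 ((hR _).1 hc 3 Nat.prime_three (by norm_num))
  have hren : ∀ (x : Fin n → ℚ) (w : Fin m → ℚ), aeval (Sum.elim x w) (rename (Sum.map id e) Q) =
      aeval (Sum.elim x fun o => w (e o)) Q := by
    intro x w
    rw [aeval_rename]
    congr 2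
    funext i
    cases i <;> rfl
  refine ⟨m, rename (Sum.map id e) Q, fun x => (hP x).trans ⟨?_, ?_⟩⟩
  · rintro ⟨a, ha, h0⟩
    have := Fintype.ofFinite μ
    obtain ⟨c, hc⟩ := crt_Conv (d := ∏ j, (a j).den)
      (Finset.prod_ne_zero_iff.2 fun j _ => (a j).den_ne_zero)
    obtain ⟨s, hs'⟩ : ∃ s : ℚ, s = (2 * c - 1) * (3 * c - 1) := ⟨_, rfl⟩
    have s0 : s ≠ 0 := hs' ▸ hs c (intCast_mem R c)
    obtain ⟨w, w1, w2⟩ : ∃ w : Option μ → ℚ, w none = c ∧
        ∀ j, w (some j) = if j ∈ T then a j else a j * s :=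
      ⟨fun o => o.elim c fun j => if j ∈ T then a j else a j * s, rfl, fun _ => rfl⟩
    refine ⟨fun j => w (e.symm j), fun j => ?_, ?_⟩
    · show w (e.symm j) ∈ R
      rcases e.symm j with _ | j
      · exact w1 ▸ intCast_mem R c
      · rw [w2]
        split_ifs with hj
        · exact ha j hj
        · have d1 : ((a j).den : ℤ) ∣ (2 * c - 1) * (3 * c - 1) :=
            (Int.natCast_dvd_natCast.2 (Finset.dvd_prod_of_mem (fun j => (a j).den)
              (Finset.mem_univ j))).trans hc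
          obtain ⟨t, ht⟩ := d1
          have : s = (a j).den * t := by
            rw [hs']
            exact_mod_cast ht
          rw [this, ← mul_assoc, Rat.mul_den_eq_num]
          exact R.mul_mem (intCast_mem R _) (intCast_mem R _)
    · rw [hren]
      simp only [Equiv.symm_apply_apply]
      rw [hQ x w s (by rw [w1, hs']) s0]
      have : (fun j => if j ∈ T then w (some j) else w (some j) / s) = a := by
        funext j
        rw [w2]
        split_ifs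
        · rfl
        · field_simp
      rw [this, h0, mul_zero]
  · rintro ⟨w, hw, h0⟩
    have s0 := hs _ (hw (e none))
    rw [hren, hQ x _ _ rfl s0] at h0
    refine ⟨_, fun j hj => ?_, (mul_eq_zero.1 h0).resolve_left (mul_ne_zero k0' (pow_ne_zero _ s0))⟩
    simp only [if_pos hj]
    exact hw _

end Pool.Agent.MP_adc87d_lc.Big
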