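import Pool.Agent.Mg.Fadc87d.G0908ea
import Pool.Agent.MP_e23604_nt.P.Bonf
import Pool.Agent.MP_fdd1d3_nt.Mertens

set_option linter.all false

/-! The fundamental lemma of the sieve. -/

set_option autoImplicit false

noncomputable section

open Finset
open scoped Classical

namespace Pool.Agent.MP_adc87d_lc.Big

open Pool.Agent.MP_2a1f0e_nt (ex)

theorem fac_CSv {x ν : ℝ} (hx : 0 ≤ x) (h1 : ν ≤ 3 * x) (h2 : ν ≤ 3 / 5) :
    1 + 2 * ν ≤ (1 + x) ^ 8 ∧ 1 ≤ (1 - ν) * (1 + x) ^ 8 := by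
  have h := one_add_mul_le_pow (a := x) (by linarith) 8
  push_cast at h
  refine ⟨by linarith, le_trans ?_ (mul_le_mul_of_nonneg_left h (by linarith))⟩
  rcases le_total x (1 / 5) with h3 | h3
  · nlinarith [mul_le_mul_of_nonneg_right h1 (by linarith : (0 : ℝ) ≤ 1 + 8 * x)]
  · nlinarith [mul_le_mul_of_nonneg_right h2 (by linarith : (0 : ℝ) ≤ 1 + 8 * x)]

theorem mer_CSv {W : ℕ} (hW : 2 ≤ W) (I : Finset ℕ) (hI : ∀ l ∈ I, l.Prime ∧ l ≤ W) :
    ∏ l ∈ I, (1 + 1 / (l : ℝ)) ≤ 15 * Real.log W := by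
  have h := MP_fdd1d3_nt.mertens_b W hW
  have h2 : ∏ q ∈ MP_fdd1d3_nt.PP 0 W, (1 + 1 / (q : ℝ)) =
      ∑ s ∈ (MP_fdd1d3_nt.PP 0 W).powerset, 1 / MP_fdd1d3_nt.nn (fun p => p) s := by
    rw [prod_one_add]
    refine sum_congr rfl fun s _ => ?_
    simp [MP_fdd1d3_nt.nn]
  rw [← h2] at h
  refine le_trans (prod_le_prod_of_subset_of_one_le (fun l hl => ?_) (fun l _ => by positivity)
    fun l _ _ => le_add_of_nonneg_right (by positivity)) h
  exact (MP_fdd1d3_nt.mem_PP _ _ _).2 ⟨⟨(hI l hl).1.pos, (hI l hl).2⟩, (hI l hl).1⟩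

theorem ev_CSv (C : ℝ) (n : ℕ) : ∀ᶠ x : ℝ in Filter.atTop, C * Real.log x ^ n ≤ x := by
  filter_upwards [((Real.isLittleO_pow_log_id_atTop (n := n)).const_mul_left C).eventuallyLE,
    Filter.eventually_ge_atTop 0] with x hx h0
  rw [id, Real.norm_of_nonneg h0] at hx
  exact (le_abs_self _).trans hx

theorem csv : SvStmt := by
  intro E B θ hθ
  obtain ⟨L₀, hL₀⟩ := Filter.eventually_atTop.1 ((ev_CSv ((15 * ((B : ℝ) + 1)) ^ 8) 8).and
    ((ev_CSv (((3 * (B : ℝ) + 2) * (2 * E + 6) + E + 2) / θ) 2).and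
      (Filter.eventually_ge_atTop (3 : ℝ))))
  refine ⟨L₀, fun L hL Ω S G I y ν A R T hG hI hA hAT hR hRT h => ?_⟩
  obtain ⟨e1, e2, h3⟩ := hL₀ L hL
  have hL0 : 0 < L := by linarith
  have hL1 : 1 ≤ L := by linarith
  have hu : 1 ≤ Real.log L := by
    rw [Real.le_log_iff_exp_le hL0]
    linarith [Real.exp_one_lt_d9]
  have hT : 0 ≤ T := hA.trans hAT
  have hB1 : 1 ≤ L ^ B := one_le_pow₀ hL1
  have hBB : L ^ B ≤ L ^ (B + 1) := pow_le_pow_right₀ hL1 (Nat.le_succ B)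
  have hB3 : 3 ≤ L ^ (B + 1) := by
    rw [pow_succ]
    nlinarith
  set W := ⌊L ^ (B + 1)⌋₊ with hWd
  have hW2 : 2 ≤ W := Nat.le_floor (by push_cast; linarith)
  have hWL : (W : ℝ) ≤ L ^ (B + 1) := Nat.floor_le (by linarith)
  have hIW : ∀ l ∈ I, l.Prime ∧ l ≤ W := fun l hl =>
    ⟨(hI l hl).1, Nat.le_floor ((hI l hl).2.1.trans hBB)⟩
  have p0 : 0 ≤ ∏ l ∈ I, (1 + 1 / (l : ℝ)) := prod_nonneg fun l _ => by positivity
  have p1 : ∏ l ∈ I, (1 + 1 / (l : ℝ)) ^ 8 ≤ L := by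
    rw [prod_pow]
    refine le_trans (pow_le_pow_left₀ p0 ((mer_CSv hW2 I hIW).trans ?_) 8) ((mul_pow _ _ _).le.trans e1)
    have h4 : Real.log W ≤ Real.log (L ^ (B + 1)) :=
      Real.log_le_log (by exact_mod_cast (by omega : 0 < W)) hWL
    rw [Real.log_pow] at h4
    push_cast at h4
    linarith
  have fac : ∀ l ∈ I, 1 + 2 * ν l ≤ (1 + 1 / (l : ℝ)) ^ 8 ∧
      1 ≤ (1 - ν l) * (1 + 1 / (l : ℝ)) ^ 8 := fun l hl =>
    fac_CSv (by positivity) (by rw [mul_one_div]; exact (hI l hl).2.2.2.1) (hI l hl).2.2.2.2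
  have hν : ∀ l ∈ I, 0 ≤ ν l ∧ ν l ≤ 1 := fun l hl =>
    ⟨(hI l hl).2.2.1, by linarith [(hI l hl).2.2.2.2]⟩
  have p2 : ∏ l ∈ I, (1 + 2 * ν l) ≤ L :=
    (prod_le_prod (fun l hl => by linarith [(hν l hl).1]) fun l hl => (fac l hl).1).trans p1
  refine ⟨?_, ?_⟩
  swap
  · have p3 : 0 ≤ ∏ l ∈ I, (1 - ν l) := prod_nonneg fun l hl => by linarith [(hν l hl).2]
    have p4 : ∏ _l ∈ I, (1 : ℝ) ≤ ∏ l ∈ I, (1 - ν l) * (1 + 1 / (l : ℝ)) ^ 8 :=
      prod_le_prod (fun _ _ => zero_le_one) fun l hl => (fac l hl).2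
    rw [prod_const_one, prod_mul_distrib] at p4
    rw [div_le_iff₀ hL0]
    exact p4.trans (mul_le_mul_of_nonneg_left p1 p3)
  set u := Real.log L with hud
  have hLu : ∀ n : ℕ, L ^ n = Real.exp (n * u) := fun n => by
    rw [Real.exp_nat_mul, hud, Real.exp_log hL0]
  have hE0 : (0 : ℝ) ≤ E := Nat.cast_nonneg E
  have hB0 : (0 : ℝ) ≤ B := Nat.cast_nonneg B
  set k := ⌈2 * ((E : ℝ) + 2) * u⌉₊ with hk
  have k1 : 2 * ((E : ℝ) + 2) * u ≤ k := Nat.le_ceil _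
  have k2 : (k : ℝ) + 1 ≤ (2 * E + 6) * u := by
    have := Nat.ceil_lt_add_one (by positivity : 0 ≤ 2 * ((E : ℝ) + 2) * u)
    linarith
  have f := MP_e23604_nt.P.fund S G hG I y ν hν hA k (R := ((L ^ B) ^ (k + 1)) ^ 2 * R)
    fun J hJ hc => (h J hJ).trans (mul_le_mul_of_nonneg_right (pow_le_pow_left₀
      (prod_nonneg fun l _ => Nat.cast_nonneg l) (by
        refine le_trans ?_ (pow_le_pow_right₀ hB1 hc)
        rw [← prod_const]
        exact prod_le_prod (fun l _ => Nat.cast_nonneg l) fun l hl => (hI l (hJ hl)).2.1) 2) hR)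
  refine f.trans ?_
  have hLE : 0 < L ^ E := pow_pos hL0 E
  have t1 : A * (∏ l ∈ I, (1 + 2 * ν l)) / 2 ^ k ≤ T / L ^ E / 2 := by
    have a1 : L ^ (E + 2) ≤ 2 ^ k := by
      rw [hLu, ← Real.exp_log (by norm_num : (0 : ℝ) < 2), ← Real.exp_nat_mul, Real.exp_le_exp]
      push_cast
      nlinarith [Real.log_two_gt_d9, (Nat.cast_nonneg k : (0 : ℝ) ≤ k)]
    have a2 : A * ∏ l ∈ I, (1 + 2 * ν l) ≤ T * L :=
      mul_le_mul hAT p2 (prod_nonneg fun l hl => by linarith [(hν l hl).1]) hT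
    refine (div_le_div₀ (by positivity) a2 (by positivity) a1).trans ?_
    rw [div_div, div_le_div_iff₀ (by positivity) (by positivity), pow_add]
    have a3 : 0 ≤ T * L ^ E * L := by positivity
    nlinarith
  have t2 : 2 * ((I.card : ℝ) + 1) ^ (k + 1) * (((L ^ B) ^ (k + 1)) ^ 2 * R) ≤ T / L ^ E / 2 := by
    have a1 : I.card ≤ W := by
      have := card_le_card (fun l hl => mem_Ioc.2 ⟨(hIW l hl).1.pos, (hIW l hl).2⟩ : I ⊆ Ioc 0 W)
      simpa using this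
    have a2 : (I.card : ℝ) + 1 ≤ L ^ (B + 2) := by
      have : (I.card : ℝ) ≤ W := by exact_mod_cast a1
      rw [pow_succ L (B + 1)]
      nlinarith
    have a3 : ((I.card : ℝ) + 1) ^ (k + 1) * ((L ^ B) ^ (k + 1)) ^ 2 ≤
        L ^ ((3 * B + 2) * (k + 1)) := by
      refine (mul_le_mul_of_nonneg_right (pow_le_pow_left₀ (by positivity) a2 _)
        (by positivity)).trans (le_of_eq ?_)
      ring
    have a4 : L ^ ((3 * B + 2) * (k + 1)) * L ^ (E + 2) * Real.exp (-θ * L) ≤ 1 := by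
      rw [hLu, hLu, ← Real.exp_add, ← Real.exp_add, Real.exp_le_one_iff]
      rw [div_mul_eq_mul_div, div_le_iff₀ hθ] at e2
      push_cast
      have b1 := mul_le_mul_of_nonneg_left (mul_le_mul_of_nonneg_right k2 (by linarith : 0 ≤ u))
        (by positivity : 0 ≤ 3 * (B : ℝ) + 2)
      have b2 : ((E : ℝ) + 2) * u ≤ (E + 2) * u ^ 2 :=
        mul_le_mul_of_nonneg_left (by nlinarith) (by positivity)
      nlinarith
    have a5 : ((I.card : ℝ) + 1) ^ (k + 1) * ((L ^ B) ^ (k + 1)) ^ 2 * R ≤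
        L ^ ((3 * B + 2) * (k + 1)) * (T * Real.exp (-θ * L)) :=
      mul_le_mul a3 hRT hR (by positivity)
    have a6 : 0 ≤ L ^ ((3 * B + 2) * (k + 1)) * L ^ E * Real.exp (-θ * L) := by positivity
    have a7 : 4 * (L ^ ((3 * B + 2) * (k + 1)) * L ^ E * Real.exp (-θ * L)) ≤ 1 := by
      refine le_trans ?_ a4
      rw [pow_add]
      nlinarith [mul_le_mul_of_nonneg_left (by nlinarith : 4 ≤ L ^ 2) a6]
    rw [div_div, le_div_iff₀ (by positivity)]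
    nlinarith [mul_le_mul_of_nonneg_left a7 hT, mul_le_mul_of_nonneg_right a5 hLE.le]
  linarith

end Pool.Agent.MP_adc87d_lc.Big
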