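import Pool.Agent.Mg.Fadc87d.G2faaf0

set_option linter.all false

section

/-! First coordinates are distinct modulo cubes. -/

set_option autoImplicit false

noncomputable section

namespace Pool.Agent.MP_adc87d_lc

open QuadraticAlgebra NumberField IsDedekindDomain
open Pool.Agent.MP_14ad9d_nt.Full
open Pool.Agent.MP_e23604_nt (Zw nw)

theorem E1_add_Fin (h2 : L2Stmt) {v : Pr KK} {R S : MM} (hR : E1 v R) (hS : E1 v S) :
    E1 v (R + S) := by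
  by_contra h
  rw [E1, not_or, not_lt] at h
  obtain ⟨a, b⟩ := h2.1 v (R + S) (-S) h.1 h.2 (hS.imp (fun e => by rw [e, neg_zero])
    fun e => by rwa [px_neg])
  rw [add_neg_cancel_right] at a b
  have c : vl v (px R) ≤ 1 := by
    have := (vl v).map_add_le b.le h.2
    rwa [sub_add_cancel] at this
  exact absurd (hR.resolve_left a) (not_lt.2 c)

theorem not_E1_Fin {v : Pr KK} {R : MM} (h : vl v (px R - 1) < 1) : ¬E1 v R := by
  rintro (rfl | e)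
  · simp [px_zero] at h
  · have := (vl v).map_add_le h.le (le_of_eq (vl v).map_one)
    rw [sub_add_cancel] at this
    exact absurd e (not_lt.2 this)

theorem three_E1_Fin (hT : TyStmt) (hR : RkStmt) {v : Pr KK} (hv : ¬Tm 3 v) {Q : MM} (hQ : Rm Q)
    (h0 : Q ≠ 0) (h : vl v (px Q - 1) < 1) : E1 v ((3 : ℤ) • Q) := by
  obtain ⟨t1, t2, t3, t4, t5⟩ := hT v hv
  have hm : Rm ((3 : ℤ) • Q) := by simpa using hR.1 Q Q hQ hQ 3 0
  refine (t5 _ hm).elim id fun h3 => ?_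
  by_cases h30 : (3 : ℤ) • Q = 0
  · exact .inl h30
  have clash : ∀ (e : ℤ) (R : MM), (e = 1 ∨ e = -1) → Ty v e R → Ty v (-e) R → False := by
    rintro e R (rfl | rfl) a b
    · exact t2 R ⟨a, b⟩
    · exact t2 R ⟨by simpa using b, a⟩
  have key : ∀ e : ℤ, (e = 1 ∨ e = -1) → Ty v e Q →
      (Ty v e ((3 : ℤ) • Q) ∨ Ty v (-e) ((3 : ℤ) • Q)) → False := by
    intro e he a b
    have he' : -e = 1 ∨ -e = -1 := by omega
    have d := (t4 e Q Q he a a).1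
    rcases b with b | b
    · have d' := (t3 _ _ d).1
      rw [neg_neg] at d'
      have := (t4 e _ _ he b d').1
      rw [show (3 : ℤ) • Q + -(Q + Q) = Q by abel] at this
      exact clash e Q he a this
    · have := (t4 (-e) _ _ he' b (t3 _ _ a).1).1
      rw [show (3 : ℤ) • Q + -Q = Q + Q by abel] at this
      exact clash _ _ he' d this
  exfalso
  rcases t1 Q h0 h with a | a
  · exact key 1 (.inl rfl) a (t1 _ h30 h3)
  · exact key (-1) (.inr rfl) a (by simpa using (t1 _ h30 h3).symm)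

theorem std_smul_Fin (hZ : ZStmt) (hP : PrStmt) (h3 : L3Stmt) {P : MM} (h : Std P) {a : Zw}
    (ha : Good a) : Std (a • P) := by
  have a0 : a ≠ 0 := by
    rintro rfl
    exact ha (by simp)
  have n : a • P ≠ 0 := fun e => (hP P h).1 a a0 (by rw [e, px_zero])
  exact ⟨n, fun v hv => (hZ v P (.inr (h.two v hv)) a).1.resolve_left n,
    (h3 P h.ne h.three a ha).1⟩

theorem unit_Fin (hK : KFStmt) (h2 : L2Stmt) (hZ : ZStmt) (hP : PrStmt) (h3 : L3Stmt)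
    (hE : EucStmt) {Q₀ : MM} (h₀ : Std Q₀) {j j' : Zw} (hj : Good j) (hj' : Good j')
    (hc : IsCoprime j j') {c : KK} (e : px (j • Q₀) = c ^ 3 * px (j' • Q₀)) : IsUnit j := by
  obtain ⟨inj, sur, le, gen, wild, nu, -, -, gm⟩ := hK
  by_contra hu
  obtain ⟨v, hv⟩ := nu j hu
  have tv : Tm 3 v := by
    by_contra t
    exact ((wild v t).2.2 j).1 hv hj
  obtain ⟨l, l1, l0, ld⟩ := gen v
  obtain ⟨a, rfl⟩ := ld j hv
  obtain ⟨gl, ga⟩ := (gm l a).1 hj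
  have ne : ∀ b : Zw, Good b → b ≠ 0 := by
    rintro b hb rfl
    exact hb (by simp)
  have ne' : ∀ b : Zw, Good b → io b ≠ 0 := fun b hb h =>
    ne b hb (inj (h.trans (map_zero io).symm))
  have hQ := std_smul_Fin hZ hP h3 h₀ ga
  have x1 := (hP _ h₀).1 _ (ne _ hj)
  have x2 := (hP _ h₀).1 _ (ne _ hj')
  have x3 := (hP _ h₀).1 _ (ne _ ga)
  have c0 : c ≠ 0 := by
    rintro rfl
    exact x1 (by rw [e]; simp)
  have B : ∀ u : Pr KK, Tm 3 u → ¬E1 u (th • a • Q₀) →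
      (ord u (Vq (a • Q₀) l) : ZMod 3) = 0 := fun u tu hn => by
    have o1 := ((hP _ hQ).2 u tu).1 1 one_ne_zero (by rwa [one_smul])
    rw [one_smul] at o1
    rw [Vq, ← mul_smul, div_eq_mul_inv, ord_mul u x1 (inv_ne_zero x3), ord_inv, o1, neg_zero,
      add_zero]
    by_contra hh
    have b1 : E1 u ((l * a) • th • Q₀) := by
      by_contra b
      exact hh (by rw [((hP _ h₀).2 u tu).1 _ (ne _ hj) b, Int.cast_zero])
    have b2 : E1 u (j' • th • Q₀) := by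
      by_contra b
      refine hh ?_
      rw [e, ord_mul u (pow_ne_zero _ c0) x2, ((hP _ h₀).2 u tu).1 _ (ne _ hj') b, ord_pow]
      push_cast
      rw [show (3 : ZMod 3) = 0 from rfl, zero_mul, add_zero]
    obtain ⟨p, q, hpq⟩ := hc
    have b3 := E1_add_Fin h2 (hZ u _ b1 p).1 (hZ u _ b2 q).1
    rw [← mul_smul, ← mul_smul q, ← add_smul, hpq, one_smul] at b3
    refine hn ?_
    rw [smul_comm]
    exact (hZ u _ b3 a).1
  have lv : vl v (io l) < 1 := (Sym1Aux.val_lt_one_iff v (ne' l gl)).2 (by omega)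
  obtain ⟨μ, gμ, vμ, cμ⟩ : ∃ μ : Zw, Good μ ∧ ord v (io μ) = 0 ∧ chi 3 w v (io μ) = 1 := by
    obtain ⟨b, hb, cb⟩ := chi_surj hw tv 1
    obtain ⟨β, hβ⟩ := sur b
    have v1 : vl v (io β) = 1 := by rw [hβ]; exact (Sym1Aux.val_int_eq v b).2 hb
    have β0 : io β ≠ 0 := fun h => by simp [h] at v1
    have o := (Sym1Aux.val_eq_one_iff v β0).1 v1
    by_cases g : Good β
    · exact ⟨β, g, o, hβ ▸ cb⟩
    have d : vl v (io β - io (β + l)) < 1 := by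
      rw [map_add, sub_add_cancel_left, Valuation.map_neg]; exact lv
    have g' : Good (β + l) := by
      simp only [Good, re_add, im_add, not_not] at g gl ⊢
      omega
    exact ⟨β + l, g', (Sym1Aux.val_eq_one_iff v (ne' _ g')).1 (Sym1Aux.val_eq_one_of _ v1 d),
      by rw [chi_congr hw tv β0 o d, hβ, cb]⟩
  have cop : IsCoprime μ l := by
    have v1 := (Sym1Aux.val_eq_one_iff v (ne' _ gμ)).2 vμ
    obtain ⟨b, hb⟩ := Sym1Aux.exists_approx v (x := (io μ)⁻¹) (by rw [map_inv₀, v1, inv_one])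
    obtain ⟨β, hβ⟩ := sur b
    obtain ⟨k, hk⟩ := ld (1 - β * μ) (by
      rw [map_sub, map_one, map_mul, hβ, show 1 - (b : KK) * io μ = ((io μ)⁻¹ - b) * io μ by
        rw [sub_mul, inv_mul_cancel₀ (ne' _ gμ)], map_mul, v1, mul_one]
      exact hb)
    exact ⟨β, k, by linear_combination -hk⟩
  have E := hE _ hQ μ l gμ gl cop
  rw [Jc, Jc, finsum_eq_single _ ⟨v, tv⟩, finsum_eq_single _ ⟨v, tv⟩] at E
  · simp only [l1, cμ] at E
    by_cases h : E1 v (th • a • Q₀)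
    · have s := ((hP _ hQ).2 v tv).2 h
      rw [(s l gl).1, ((s μ gμ).2 vμ).2, l1, cμ] at E
      revert E
      decide
    · rw [B v tv h] at E
      revert E
      rw [zero_mul]
      decide
  · intro u hu
    rw [l0 u.1 fun h => hu (Subtype.ext h), Int.cast_zero, zero_mul]
  · intro u hu
    have : (ord u.1 (Vq (a • Q₀) l) : ZMod 3) = 0 := by
      by_cases h : E1 u.1 (th • a • Q₀)
      · rw [(((hP _ hQ).2 u.1 u.2).2 h l gl).1, l0 u.1 fun h => hu (Subtype.ext h), Int.cast_zero]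
      · exact B u.1 u.2 h
    rw [this, zero_mul]

theorem px_unit_Fin {j : ℤ} (h : IsUnit (j : Zw)) (Q : MM) : px (j • Q) = px Q := by
  have h1 : IsUnit (nw (j : Zw)) := h.map QuadraticAlgebra.norm
  rw [Pool.Agent.MP_e23604_nt.nw_def] at h1
  have h2 : IsUnit j := by
    refine isUnit_of_dvd_unit ⟨j, ?_⟩ h1
    simp [sq]
  rcases Int.isUnit_iff.1 h2 with rfl | rfl
  · rw [one_smul]
  · rw [neg_smul, one_smul, px_neg]

theorem fin (hK : KFStmt) (h2 : L2Stmt) (hZ : ZStmt) (hP : PrStmt) (hT : TyStmt) (h3 : L3Stmt)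
    (hE : EucStmt) (hR : RkStmt) : FinStmt := by
  intro R S sR sS mR mS c e
  obtain ⟨v₂, hv₂⟩ := hK.2.2.2.2.2.1 2 fun h => by
    have h1 : IsUnit (nw (2 : Zw)) := h.map QuadraticAlgebra.norm
    rw [Int.isUnit_iff] at h1
    revert h1
    decide
  rw [map_ofNat] at hv₂
  obtain ⟨v₃, hv₃⟩ := hK.2.2.2.2.2.2.1
  have zs : ∀ (v : Pr KK) (T : MM) (n : ℤ), E1 v T → E1 v (n • T) := fun v T n h => by
    rw [← int_smul]; exact (hZ v T h n).1
  have tf : ∀ (T : MM) (n : ℤ), E1 v₂ T → n ≠ 0 → n • T = 0 → T = 0 := fun T n h hn h0 => by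
    by_contra h1
    refine ((hZ v₂ T h n).2 h1 (fun h => hn ?_)).1 (by rwa [int_smul])
    simpa using congrArg QuadraticAlgebra.re h
  obtain ⟨m, n, hmn, emn⟩ := hR.2.1 R S mR mS
  have g0 : 0 < Int.gcd m n := Int.gcd_pos_iff.2 hmn
  obtain ⟨j', j, hc, hm, hn⟩ := Int.exists_gcd_one g0
  have ej : j' • R = j • S := by
    rw [← sub_eq_zero]
    refine tf _ (Int.gcd m n) ?_ (by exact_mod_cast g0.ne') ?_
    · rw [sub_eq_add_neg, ← neg_smul]
      exact E1_add_Fin h2 (zs _ _ _ (.inr (sR.two _ hv₂))) (zs _ _ _ (.inr (sS.two _ hv₂)))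
    · rw [smul_sub, ← mul_smul, ← mul_smul, mul_comm, ← hm, mul_comm, ← hn, emn, sub_self]
  obtain ⟨q, p, hpq⟩ := Int.isCoprime_iff_gcd_eq_one.2 hc
  obtain ⟨Q, hQ⟩ : ∃ Q, Q = p • R + q • S := ⟨_, rfl⟩
  have eR : R = j • Q := by
    rw [hQ, smul_add, smul_comm j q, ← ej, ← mul_smul, ← mul_smul, ← add_smul,
      show j * p + q * j' = 1 by linear_combination hpq, one_smul]
  have eS : S = j' • Q := by
    rw [hQ, smul_add, smul_comm j' p, ej, ← mul_smul, ← mul_smul, ← add_smul,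
      show p * j + j' * q = 1 by linear_combination hpq, one_smul]
  have mQ : Rm Q := hQ ▸ hR.1 R S mR mS p q
  have Q0 : Q ≠ 0 := fun h => sR.ne (by rw [eR, h, smul_zero])
  have sQ : Std Q := ⟨Q0, fun v hv => Or.resolve_left (hQ ▸ E1_add_Fin h2
      (zs _ _ _ (.inr (sR.two _ hv))) (zs _ _ _ (.inr (sS.two _ hv)))) Q0, fun v hv =>
    ((hT v hv).2.2.2.2 Q mQ).resolve_left fun h =>
      not_E1_Fin (sR.three v hv) (eR ▸ zs _ _ j h)⟩
  have good : ∀ i : ℤ, Std (i • Q) → Good (i : Zw) := by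
    rintro i hi ⟨k, hk⟩
    have : i = k * 3 := by simpa [mul_comm] using hk
    refine not_E1_Fin (hi.three v₃ hv₃) ?_
    rw [this, mul_smul]
    exact zs _ _ _ (three_E1_Fin hT hR hv₃ mQ Q0 (sQ.three v₃ hv₃))
  have gj := good j (eR ▸ sR)
  have gj' := good j' (eS ▸ sS)
  have cop : IsCoprime (j : Zw) (j' : Zw) := ⟨p, q, by exact_mod_cast (add_comm _ _).trans hpq⟩
  have x1 : px R ≠ 0 := by simpa using (hP R sR).1 1 one_ne_zero
  have c0 : c ≠ 0 := by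
    rintro rfl
    exact x1 (by rw [e]; simp)
  have u1 := unit_Fin hK h2 hZ hP h3 hE sQ gj gj' cop (c := c)
    (by rw [int_smul, int_smul, ← eR, ← eS, e])
  have u2 := unit_Fin hK h2 hZ hP h3 hE sQ gj' gj cop.symm (c := c⁻¹)
    (by rw [int_smul, int_smul, ← eR, ← eS, e]; field_simp)
  rw [eR, eS, px_unit_Fin u1, px_unit_Fin u2]

end Pool.Agent.MP_adc87d_lc

end
end

section

/-! The Diophantine set. -/

set_option autoImplicit false

noncomputable section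

namespace Pool.Agent.MP_adc87d_lc

open QuadraticAlgebra NumberField IsDedekindDomain
open Pool.Agent.MP_14ad9d_nt.Full
open Pool.Agent.MP_e23604_nt (Zw nw)

/-- the Diophantine set -/
def DD : Set ℚ := {x | ∃ u t : ℚ, Tor u t ∧ x = dbl (dbl ((3 * t ^ 2 - u ^ 2) / 3))}

/-- the defining polynomial -/
def Fp {A : Type} [CommRing A] (x u t a b : A) : A :=
  (u ^ 3 + 6 * u ^ 2 * t + 9 * u * t ^ 2 + 6 * t ^ 3 - 6) ^ 2 + (3 * a - (3 * t ^ 2 - u ^ 2)) ^ 2 +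
    (4 * (a ^ 3 - 4) * b - a * (a ^ 3 + 32)) ^ 2 + (4 * (b ^ 3 - 4) * x - b * (b ^ 3 + 32)) ^ 2

open MvPolynomial in
theorem dioph_Main (hL : LocStmt) : ∃ P : MvPolynomial (Fin 1 ⊕ Fin 4) ℚ,
    ∀ x : ℚ, x ∈ DD ↔ ∃ z : Fin 4 → ℚ, eval (Sum.elim ![x] z) P = 0 := by
  have d : ∀ a b : ℚ, b = dbl a ↔ 4 * (a ^ 3 - 4) * b - a * (a ^ 3 + 32) = 0 := fun a b => by
    rw [dbl, eq_div_iff (mul_ne_zero (by norm_num) (sub_ne_zero.2 (hL.2.2.2.1 a))), sub_eq_zero,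
      mul_comm]
  refine ⟨Fp (X (.inl 0)) (X (.inr 0)) (X (.inr 1)) (X (.inr 2)) (X (.inr 3)), fun x => ?_⟩
  simp only [Fp, map_add, map_sub, map_mul, map_pow, eval_X, Sum.elim_inr, Sum.elim_inl,
    Matrix.cons_val_zero, map_ofNat]
  constructor
  · rintro ⟨u, t, h, e⟩
    refine ⟨![u, t, (3 * t ^ 2 - u ^ 2) / 3, dbl ((3 * t ^ 2 - u ^ 2) / 3)], ?_⟩
    simp only [Matrix.cons_val_zero, Matrix.cons_val_one, Matrix.cons_val]
    rw [(d _ _).1 e, (d _ _).1 rfl, show u ^ 3 + 6 * u ^ 2 * t + 9 * u * t ^ 2 + 6 * t ^ 3 = 6 from h]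
    ring
  · rintro ⟨z, hz⟩
    have key : ∀ a b c e : ℚ, a ^ 2 + b ^ 2 + c ^ 2 + e ^ 2 = 0 → a = 0 ∧ b = 0 ∧ c = 0 ∧ e = 0 :=
      fun a b c e h => by
        have := sq_nonneg a
        have := sq_nonneg b
        have := sq_nonneg c
        have := sq_nonneg e
        refine ⟨?_, ?_, ?_, ?_⟩ <;> refine pow_eq_zero_iff two_ne_zero |>.1 ?_ <;> linarith
    obtain ⟨h1, h2, h3, h4⟩ := key _ _ _ _ hz
    refine ⟨z 0, z 1, sub_eq_zero.1 h1, ?_⟩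
    rw [show (3 * z 1 ^ 2 - z 0 ^ 2) / 3 = z 2 by linear_combination (-1 / 3 : ℚ) * h2,
      ← (d _ _).2 h3, ← (d _ _).2 h4]

theorem four_Main (h2 : L2Stmt) (h3 : L3Stmt) (hL : LocStmt) (hR : RkStmt) {R : MM} (h0 : R ≠ 0)
    {x y : ℚ} (hx : px R = x) (hy : py R = (1 + 2 * w) * y)
    (ht : ∀ v : Pr KK, ¬Tm 3 v → vl v (px R - 1) < 1) {v₃ : Pr KK} (hv₃ : ¬Tm 3 v₃) :
    px ((4 : ℤ) • R) = (dbl (dbl x) : ℚ) ∧ Std ((4 : ℤ) • R) ∧ Rm ((4 : ℤ) • R) := by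
  have t : ∀ n : ℤ, ¬3 ∣ n → n • R ≠ 0 ∧ ∀ v : Pr KK, ¬Tm 3 v → vl v (px (n • R) - 1) < 1 :=
    fun n hn => by
      have := (h3 R h0 ht n (by simpa [Good] using hn)).1
      rw [int_smul] at this
      exact ⟨fun e => not_E1_Fin (this v₃ hv₃) (.inl e), this⟩
  have e2 : (2 : ℤ) • R = R + R := two_smul _ _
  have e4 : (4 : ℤ) • R = R + R + (R + R) := by abel
  have n2 := (t 2 (by norm_num)).1
  obtain ⟨n4, t4⟩ := t 4 (by norm_num)
  have x2 : px (R + R) = (dbl x : ℚ) := by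
    rw [h2.2.2 R h0 (e2 ▸ n2), hx, dbl]; push_cast; rfl
  have x4 : px ((4 : ℤ) • R) = (dbl (dbl x) : ℚ) := by
    rw [e4, h2.2.2 _ (e2 ▸ n2) (e4 ▸ n4), x2, dbl.eq_1 (dbl x)]; push_cast; rfl
  have q : x ^ 3 + 3 * y ^ 2 = 4 := by
    have := eqn h0
    rw [hx, hy] at this
    have : (x : KK) ^ 3 + 3 * y ^ 2 = 4 := by linear_combination -this + 4 * y ^ 2 * w_rel
    exact_mod_cast this
  exact ⟨x4, ⟨n4, fun v hv => x4 ▸ hL.2.2.1 x y q v hv, t4⟩,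
    by simpa using hR.1 R R ⟨x, y, hx, hy⟩ ⟨x, y, hx, hy⟩ 4 0⟩

theorem mem_Main (hK : KFStmt) (h2 : L2Stmt) (h3 : L3Stmt) (hL : LocStmt) (hR : RkStmt) {x : ℚ}
    (h : x ∈ DD) : ∃ R : MM, px R = x ∧ Std R ∧ Rm R := by
  obtain ⟨u, t, h, rfl⟩ := h
  obtain ⟨v₃, hv₃⟩ := hK.2.2.2.2.2.2.1
  obtain ⟨y, hy⟩ := hL.2.1 u t h
  have h1 := hL.1 u t h
  generalize (3 * t ^ 2 - u ^ 2) / 3 = x at hy h1
  obtain ⟨R, h0, a, b⟩ := exists_pt (d := (-4 : KK)) (by norm_num) (x := x)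
    (y := (1 + 2 * w) * y) (by
      have : (x : KK) ^ 3 + 3 * y ^ 2 = 4 := by exact_mod_cast hy
      linear_combination -this + 4 * y ^ 2 * w_rel)
  exact ⟨_, four_Main h2 h3 hL hR h0 a b (a ▸ h1) hv₃⟩

theorem inf_Main (hK : KFStmt) (h2 : L2Stmt) (hP : PrStmt) (h3 : L3Stmt) (hL : LocStmt)
    (hR : RkStmt) : DD.Infinite := by
  obtain ⟨v₃, hv₃⟩ := hK.2.2.2.2.2.2.1
  obtain ⟨G, G0, gx, gy⟩ := exists_pt (d := (-4 : KK)) (by norm_num) (x := ((1 : ℚ) : KK))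
    (y := (1 + 2 * w) * ((1 : ℚ) : KK)) (by push_cast; linear_combination 4 * w_rel)
  have gt : ∀ v : Pr KK, ¬Tm 3 v → vl v (px G - 1) < 1 := fun v _ => by simp [gx]
  have mG : Rm G := ⟨1, 1, gx, gy⟩
  have sG := (four_Main h2 h3 hL hR G0 gx gy gt hv₃).2.1
  have : ∀ k : ℕ, ∃ x ∈ DD, px ((1 + 3 * k : ℤ) • (4 : ℤ) • G) = x := fun k => by
    have t := (h3 G G0 gt (1 + 3 * k : ℤ) (by
      simp only [Good, re_intCast, im_intCast, Int.cast_id]; omega)).1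
    rw [int_smul] at t
    have n : (1 + 3 * k : ℤ) • G ≠ 0 := fun e => not_E1_Fin (t v₃ hv₃) (.inl e)
    have m : Rm ((1 + 3 * k : ℤ) • G) := by simpa only [zero_smul, add_zero] using hR.1 G G mG mG _ 0
    obtain ⟨u, s, hT, hx⟩ := hR.2.2 _ m n t
    obtain ⟨x, y, a, b⟩ := m
    refine ⟨_, ⟨u, s, hT, rfl⟩, ?_⟩
    rw [smul_comm]
    exact (four_Main h2 h3 hL hR n hx b t hv₃).1
  choose f fD hf using this
  have tf : ∀ n : ℤ, n • (4 : ℤ) • G = 0 → n = 0 := fun n h => by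
    by_contra hn
    refine (hP _ sG).1 n (fun e => hn ?_) (by rw [int_smul, h, px_zero])
    simpa using congrArg QuadraticAlgebra.re e
  refine Set.infinite_of_injective_forall_mem (f := f) (fun k k' e => ?_) fD
  rcases eq_or_neg (R := (1 + 3 * k : ℤ) • (4 : ℤ) • G) (S := (1 + 3 * k' : ℤ) • (4 : ℤ) • G)
    (fun h => by have := tf _ h; omega) (fun h => by have := tf _ h; omega)
    (by rw [hf, hf, e]) with h | h
  · have := tf ((1 + 3 * k) - (1 + 3 * k')) (by rw [sub_smul, h, sub_self])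
    omega
  · have := tf ((1 + 3 * k) + (1 + 3 * k')) (by rw [add_smul, h, neg_add_cancel])
    omega

theorem main_of (hK : KFStmt) (h2 : L2Stmt) (hP : PrStmt) (h3 : L3Stmt) (hL : LocStmt)
    (hR : RkStmt) (hF : FinStmt) :
    ∃ D : Set ℚ, D.Infinite ∧
      (∃ (n : ℕ) (P : MvPolynomial (Fin 1 ⊕ Fin n) ℚ), ∀ x : ℚ,
        x ∈ D ↔ ∃ z : Fin n → ℚ, MvPolynomial.eval (Sum.elim ![x] z) P = 0) ∧
      0 ∉ D ∧ (∀ x ∈ D, ∀ y ∈ D, ∀ c : ℚ, x = c ^ 3 * y → x = y) ∧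
      Set.InjOn (fun p : ℚ × ℚ => (p.1 ^ 3 - 2) ^ 3 * p.2) (Set.univ ×ˢ D) := by
  have h0 : 0 ∉ DD := fun h => by
    obtain ⟨R, a, b, -⟩ := mem_Main hK h2 h3 hL hR h
    exact (hP R b).1 1 one_ne_zero (by rw [one_smul, a, Rat.cast_zero])
  have hc : ∀ x ∈ DD, ∀ y ∈ DD, ∀ c : ℚ, x = c ^ 3 * y → x = y := fun x hx y hy c e => by
    obtain ⟨R, a, b, b'⟩ := mem_Main hK h2 h3 hL hR hx
    obtain ⟨S, a1, b1, b1'⟩ := mem_Main hK h2 h3 hL hR hy
    have := hF R S b b1 b' b1' c (by rw [a, a1, e]; push_cast; rfl)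
    rw [a, a1] at this
    exact_mod_cast this
  refine ⟨DD, inf_Main hK h2 hP h3 hL hR, ⟨4, dioph_Main hL⟩, h0, hc, ?_⟩
  rintro ⟨t, x⟩ ⟨-, hx⟩ ⟨t', x'⟩ ⟨-, hx'⟩ e
  dsimp only at e hx hx'
  have n := sub_ne_zero.2 (hL.2.2.2.2 t)
  obtain rfl : x = x' := hc x hx x' hx' ((t' ^ 3 - 2) / (t ^ 3 - 2)) (by
    field_simp
    linear_combination e)
  have x0 : x ≠ 0 := fun h => h0 (h ▸ hx)
  have o : Odd 3 := by decide
  have e1 := o.pow_injective (mul_right_cancel₀ x0 e)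
  have e2 : t = t' := o.pow_injective (by simpa using e1)
  rw [e2]

end Pool.Agent.MP_adc87d_lc

end
end

section

/-! The types of the points at the prime above three. -/

set_option autoImplicit false

noncomputable section

namespace Pool.Agent.MP_adc87d_lc

open QuadraticAlgebra NumberField IsDedekindDomain
open Pool.Agent.MP_14ad9d_nt.Full
open Pool.Agent.MP_e23604_nt (Zw nw)

section ring

variable {O : Type} [CommRing O] [IsDomain O] {u p : O} (hu : u ^ 2 + u + 1 = 0) (e : p = 1 - u)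
  (hp : Prime p)

include hu e hp

omit [IsDomain O] in
theorem two_Ty {ε a : O} (h : ε ^ 2 = 1) : ¬p ∣ 2 * ε * u + p * a := fun ⟨c, hc⟩ =>
  hp.not_dvd_one ⟨2 * ε * (c - a + 2 * ε) + u ^ 2 * p, by
    subst e
    linear_combination 2 * ε * hc - 4 * h + (-u ^ 2 + 3 * u - 3) * hu⟩

theorem type_Ty (h3 : ∀ t, p ∣ t ^ 3 - t) {x y : O} (hx : p ∣ x - 1) (h : y ^ 2 = x ^ 3 - 4) :
    p ^ 2 ∣ y - (1 + 2 * u) ∨ p ^ 2 ∣ y + (1 + 2 * u) := by
  obtain ⟨t, ht⟩ := hx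
  obtain ⟨c, hc⟩ := h3 t
  obtain rfl := eq_add_of_sub_eq ht
  have k : y ^ 2 = p ^ 2 * (u ^ 2 + p ^ 2 * (c + (1 + u) * t - u ^ 2 * t ^ 2)) := by
    subst e
    linear_combination h + (1 - u) ^ 3 * hc +
      (u ^ 2 - 3 * u + 3) * (-1 + (1 - u) * t + (1 - u) ^ 2 * t ^ 2) * hu
  obtain ⟨z, rfl⟩ := hp.dvd_of_dvd_pow (n := 2) (k ▸ (dvd_pow_self p two_ne_zero).mul_right _)
  rw [mul_pow, mul_right_inj' (pow_ne_zero 2 hp.ne_zero)] at k
  refine (hp.dvd_or_dvd (a := z - u) (b := z + u)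
    ⟨p * (c + (1 + u) * t - u ^ 2 * t ^ 2), by linear_combination k⟩).imp ?_ ?_ <;>
    rintro ⟨d, hd⟩ <;> refine ⟨d, ?_⟩ <;> subst e
  · linear_combination (1 - u) * hd - hu
  · linear_combination (1 - u) * hd + hu

omit [IsDomain O] hp in
theorem add_Ty (h3 : ∀ t, p ∣ t ^ 3 - t) {ε a t₁ t₂ m : O} (h : ε ^ 2 = 1)
    (hm : m * (2 * ε * u + p * a) = t₁ ^ 2 + t₁ * t₂ + t₂ ^ 2 - u ^ 2 * (1 + p * (t₁ + t₂))) :
    p ∣ m ^ 2 - u ^ 2 + (t₁ - t₂) ^ 2 := by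
  let f := Ideal.Quotient.mk (Ideal.span {p})
  have f0 : f p = 0 := (Ideal.Quotient.eq_zero_iff_dvd _ _).2 dvd_rfl
  have f1 : f u = 1 := by
    have := congrArg f e
    rw [map_sub, map_one, f0] at this
    linear_combination this
  have a1 := congrArg f hu
  have a2 := congrArg f h
  have a3 := congrArg f hm
  have a4 := (Ideal.Quotient.eq_zero_iff_dvd _ _).2 (h3 (t₁ - t₂))
  refine (Ideal.Quotient.eq_zero_iff_dvd _ _).1 ?_
  change f _ = 0 at a4 ⊢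
  simp only [map_add, map_sub, map_mul, map_pow, map_one, map_zero, map_ofNat, f0, f1] at *
  linear_combination (2 * f ε * f m + (f t₁ ^ 2 + f t₁ * f t₂ + f t₂ ^ 2 - 1)) * a3 +
    (f t₁ * f t₂ * (2 * (f t₁ - f t₂) ^ 2 - 2 + 3 * f t₁ * f t₂) - f m ^ 2) * a1 +
    (f t₁ - f t₂) * a4 - 4 * f m ^ 2 * a2

end ring

theorem main_Ty {K Γ : Type} [Field K] [CharZero K] [LinearOrderedCommGroupWithZero Γ]
    {V : Valuation K Γ} {w : K} (hw : w ^ 2 + w + 1 = 0) (p0 : 1 - w ≠ 0) (p1 : V (1 - w) < 1)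
    (k1 : ∀ t, V t < 1 → V t ≤ V (1 - w))
    (k2 : ∀ t, V t ≤ 1 → ∃ i : ℤ, (i = 0 ∨ i = 1 ∨ i = -1) ∧ V (t - i) ≤ V (1 - w))
    (vi : ∀ n : ℤ, V n < 1 ↔ 3 ∣ n) :
    V w = 1 ∧ (∀ x y, y ^ 2 = x ^ 3 + -4 → V (x - 1) < 1 →
      V (y - (1 : ℤ) * (1 + 2 * w)) ≤ V (1 - w) ^ 2 ∨
        V (y - (-1 : ℤ) * (1 + 2 * w)) ≤ V (1 - w) ^ 2) ∧
    (∀ y, V (y - (1 : ℤ) * (1 + 2 * w)) ≤ V (1 - w) ^ 2 →
      ¬V (y - (-1 : ℤ) * (1 + 2 * w)) ≤ V (1 - w) ^ 2) ∧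
    (∀ (e : ℤ) x₁ y₁ x₂ y₂, (e = 1 ∨ e = -1) → V (x₁ - 1) < 1 →
      V (y₁ - e * (1 + 2 * w)) ≤ V (1 - w) ^ 2 → V (x₂ - 1) < 1 →
      V (y₂ - e * (1 + 2 * w)) ≤ V (1 - w) ^ 2 → y₁ + y₂ ≠ 0 ∧ ∀ m x y,
        m * (y₁ + y₂) = x₁ ^ 2 + x₁ * x₂ + x₂ ^ 2 → x = m ^ 2 - x₁ - x₂ → y = m * (x₁ - x) - y₁ →
        (V (x - 1) < 1 ∧ V (y - (-e : ℤ) * (1 + 2 * w)) ≤ V (1 - w) ^ 2) ∧
          V (x - (-3 - (x₁ - x₂) ^ 2 - x₁ - x₂)) ≤ V (1 - w) ^ 3) ∧
    ∀ x (y : ℚ), 3 * (y : K) ^ 2 = 4 - x ^ 3 → V x ≤ 1 → V (x - 1) < 1 := by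
  have w1 : V w = 1 := by
    have := congrArg V (show w ^ 3 = 1 by linear_combination (w - 1) * hw)
    rwa [map_pow, map_one, pow_eq_one_iff, or_iff_left three_ne_zero] at this
  set O := V.integer
  let u : O := ⟨w, w1.le⟩
  let p : O := 1 - u
  have hu : u ^ 2 + u + 1 = 0 := Subtype.ext hw
  have dv : ∀ (k : ℕ) (a : O), p ^ k ∣ a ↔ V a ≤ V (1 - w) ^ k := fun k a => by
    rw [(Valuation.integer.integers V).dvd_iff_le, map_pow, map_pow]
    rfl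
  have d1 : ∀ a : O, p ∣ a ↔ V a < 1 := fun a => by
    have := dv 1 a
    rw [pow_one, pow_one] at this
    exact this.trans ⟨fun h => h.trans_lt p1, k1 _⟩
  have hp : Prime p := ⟨fun h => p0 (congrArg Subtype.val h),
    fun h => by simpa using (d1 1).1 h.dvd, fun a b h => by
      rw [d1, d1]
      by_contra! c
      exact ((d1 _).1 h).not_ge (by simpa using one_le_mul c.1 c.2)⟩
  have h3 : ∀ t : O, p ∣ t ^ 3 - t := fun t => by
    obtain ⟨i, hi, h⟩ := k2 t t.2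
    have := (d1 (t - i)).2 (h.trans_lt p1)
    rcases hi with rfl | rfl | rfl
    · exact this.trans ⟨t ^ 2 - 1, by push_cast; ring⟩
    · exact this.trans ⟨t ^ 2 + t, by push_cast; ring⟩
    · exact this.trans ⟨t ^ 2 - t, by push_cast; ring⟩
  have dec : ∀ (k : ℕ) (x y : K), V (x - y) ≤ V (1 - w) ^ k →
      ∃ a : O, x = y + (1 - w) ^ k * a := fun k x y h =>
    ⟨⟨(x - y) / (1 - w) ^ k, by
      rw [Valuation.mem_integer_iff, map_div₀, map_pow]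
      exact div_le_one_of_le₀ h zero_le⟩, by field_simp; ring⟩
  have dec' : ∀ x : K, V (x - 1) < 1 → ∃ a : O, x = 1 + (1 - w) * a := fun x h => by
    simpa using dec 1 x 1 (by simpa using k1 _ h)
  have un : ∀ (e : ℤ) (a : O), e = 1 ∨ e = -1 → V (2 * e * w + (1 - w) * a) = 1 :=
    fun e a he => le_antisymm (2 * e * u + p * a : O).2 (not_lt.1 fun h =>
      two_Ty hu rfl hp (ε := e) (a := a) (by rcases he with rfl | rfl <;> simp) ((d1 _).2 h))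
  refine ⟨w1, fun x y h h1 => ?_, fun y h1 h2 => ?_, fun e x₁ y₁ x₂ y₂ he a1 a2 a3 a4 => ?_,
    fun x y e1 h1 => ?_⟩
  · lift x to O using by simpa using O.add_mem (x := x - 1) h1.le O.one_mem
    lift y to O using by
      have : V (y ^ 2) ≤ 1 := by
        rw [h]
        exact O.add_mem (O.pow_mem x.2 3) (O.neg_mem (ofNat_mem O 4))
      rwa [map_pow, pow_le_one_iff two_ne_zero] at this
    refine (type_Ty hu rfl hp h3 ((d1 (x - 1)).2 h1)
      (Subtype.ext (h.trans (sub_eq_add_neg _ _).symm))).imp (fun h => ?_) fun h => ?_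
    · rw [Int.cast_one, one_mul]
      exact (dv _ _).1 h
    · rw [Int.cast_neg, Int.cast_one, neg_one_mul, sub_neg_eq_add]
      exact (dv _ _).1 h
  · obtain ⟨a, ha⟩ := dec _ _ _ h1
    obtain ⟨b, hb⟩ := dec _ _ _ h2
    have := un 1 (a - b) (.inl rfl)
    rw [mul_left_cancel₀ p0 (show (1 - w) * (2 * ((1 : ℤ) : K) * w + (1 - w) * (a - b : O)) =
      (1 - w) * 0 by push_cast at *; linear_combination hb - ha - 2 * hw)] at this
    simp at this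
  · obtain ⟨t₁, x1⟩ := dec' _ a1
    obtain ⟨t₂, x2⟩ := dec' _ a3
    obtain ⟨a₁, y1⟩ := dec _ _ _ a2
    obtain ⟨a₂, y2⟩ := dec _ _ _ a4
    have v1 := un e (a₁ + a₂) he
    have s1 : y₁ + y₂ = (1 - w) * (2 * e * w + (1 - w) * (a₁ + a₂ : O)) := by
      push_cast
      linear_combination y1 + y2 + 2 * e * hw
    refine ⟨s1 ▸ mul_ne_zero p0 fun h => by rw [h] at v1; simp at v1, fun m x y m2 m3 m4 => ?_⟩
    obtain ⟨m, rfl⟩ : ∃ m', m = (1 - w) * m' := ⟨_, (mul_div_cancel₀ m p0).symm⟩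
    have m5 : m * (2 * e * w + (1 - w) * (a₁ + a₂ : O)) =
        (t₁ ^ 2 + t₁ * t₂ + t₂ ^ 2 - u ^ 2 * (1 + p * (t₁ + t₂)) : O) := by
      refine mul_left_cancel₀ (pow_ne_zero 2 p0) ?_
      rw [s1, x1, x2] at m2
      change _ = _ * ((t₁ : K) ^ 2 + t₁ * t₂ + t₂ ^ 2 - w ^ 2 * (1 + (1 - w) * (t₁ + t₂)))
      linear_combination m2 + (w ^ 2 - 3 * w + 3) * (1 + (1 - w) * (t₁ + t₂)) * hw
    lift m to O using by
      have := congrArg V m5
      rw [map_mul, v1, mul_one] at this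
      exact this.trans_le (t₁ ^ 2 + t₁ * t₂ + t₂ ^ 2 - u ^ 2 * (1 + p * (t₁ + t₂)) : O).2
    obtain ⟨c, hc⟩ := add_Ty hu rfl h3 (ε := e) (a := a₁ + a₂) (m := m)
      (by rcases he with rfl | rfl <;> simp) (Subtype.ext m5)
    have hc : (m : K) ^ 2 - w ^ 2 + (t₁ - t₂) ^ 2 = (1 - w) * c := congrArg Subtype.val hc
    have x3 : x - 1 = (1 - w) * ((1 - w) * ((m : K) ^ 2 + w ^ 2) - t₁ - t₂) := by
      linear_combination m3 - x1 - x2 - (w ^ 2 - 3 * w + 3) * hw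
    refine ⟨⟨x3 ▸ (d1 _).1 (dvd_mul_right p (p * (m ^ 2 + u ^ 2) - t₁ - t₂)), ?_⟩, ?_⟩
    · rw [show y - (-e : ℤ) * (1 + 2 * w) =
        (1 - w) ^ 2 * (m * (t₁ - ((1 - w) * ((m : K) ^ 2 + w ^ 2) - t₁ - t₂)) - a₁) by
          push_cast
          linear_combination m4 - y1 + (1 - w) * m * (x1 - x3)]
      exact (dv 2 _).1 (dvd_mul_right _ (m * (t₁ - (p * (m ^ 2 + u ^ 2) - t₁ - t₂)) - a₁))
    · rw [show x - (-3 - (x₁ - x₂) ^ 2 - x₁ - x₂) = (1 - w) ^ 3 * c by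
        rw [m3, x1, x2]
        linear_combination (1 - w) ^ 2 * hc + (w ^ 2 - 3 * w + 3) * hw]
      exact (dv 3 _).1 (dvd_mul_right _ c)
  · have v3 : p ∣ 3 := ⟨-u ^ 2 * p, by linear_combination (u ^ 2 - 3 * u + 3) * hu⟩
    have vy : V y ≤ 1 := by
      by_contra! c
      have i1 : ∀ n : ℤ, V n ≤ 1 := fun n => intCast_mem O n
      have a1 : V y * V (y.den : ℤ) = V y.num := by
        rw [← map_mul]
        congr 1
        exact_mod_cast y.mul_den_eq_num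
      obtain ⟨b, hb⟩ := (vi y.den).1 (not_le.1 fun h => c.not_ge (by
        rw [le_antisymm (i1 _) h, mul_one] at a1
        exact a1 ▸ i1 _))
      have a3 : V y.num = 1 := le_antisymm (i1 _) (not_lt.1 fun h =>
        absurd (y.isCoprime_num_den.isUnit_of_dvd' ((vi _).1 h) ⟨b, hb⟩) (by decide))
      have a4 : V (3 * (y : K) ^ 2) ≤ 1 := by
        rw [e1]
        exact O.sub_mem (ofNat_mem O 4) (O.pow_mem h1 3)
      have a5 : V (3 * (y : K) ^ 2 * b) = V y := by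
        rw [← mul_one (V y), ← a3, ← a1, hb, ← map_mul, ← map_mul]
        congr 1
        push_cast
        ring
      exact c.not_ge (a5 ▸ O.mul_mem a4 (i1 b))
    lift x to O using h1
    lift (y : K) to O using vy with z hz
    have e2 : 3 * z ^ 2 = 4 - x ^ 3 := Subtype.ext e1
    exact (d1 (x - 1)).1 (hp.dvd_of_dvd_pow (n := 3) (v3.trans
      ⟨1 - z ^ 2 - x * (x - 1), by linear_combination e2⟩))

theorem ty (hK : KFStmt) : TyStmt := by
  intro v hv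
  obtain ⟨k1, k2, k3⟩ := hK.2.2.2.2.1 v hv
  have p1 : vl v (1 - w) < 1 := val_one_sub_lt hw hv
  obtain ⟨w1, A, B, C, D⟩ := main_Ty w_rel (sub_ne_zero.2 (hw.ne_one (by norm_num)).symm) p1 k1 k2
    fun n => by simpa [Good] using k3 n
  refine ⟨fun R h0 h1 => (A _ _ (eqn h0) h1).imp (⟨h0, h1, ·⟩) (⟨h0, h1, ·⟩),
    fun R ⟨h1, h2⟩ => B _ h1.2.2 h2.2.2, fun e R ⟨h0, h1, h2⟩ => ⟨⟨neg_ne_zero.2 h0,
    by rwa [px_neg], ?_⟩, ?_⟩, fun e R S he h1 h2 => ?_, fun R ⟨x, y, hx, hy⟩ => ?_⟩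
  · rw [py_neg, ← Valuation.map_neg]
    convert h2 using 2
    push_cast
    ring
  · have : vl v (px (om R) - 1) < 1 := by
      rw [px_om, show w * px R - 1 = w * (px R - 1) - (1 - w) by ring]
      exact Valuation.map_sub_lt _ (by rwa [map_mul, w1, one_mul]) p1
    exact ⟨fun h => by simp [h, px_zero] at this, this, by rwa [py_om]⟩
  · obtain ⟨n, H⟩ := C e _ _ _ _ he h1.2.1 h1.2.2 h2.2.1 h2.2.2
    have h0 : R + S ≠ 0 := fun h => n (by
      rw [((add_eq_zero_iff h1.1 h2.1).1 h).2, add_neg_cancel])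
    obtain ⟨m, -, m2, m3, m4⟩ := add_data h1.1 h2.1 h0
    obtain ⟨a, b⟩ := H m _ _ m2 m3 m4
    exact ⟨⟨h0, a⟩, b⟩
  · by_cases h0 : R = 0
    · exact .inl (.inl h0)
    refine (lt_or_ge 1 (vl v (px R))).imp .inr (D _ y ?_)
    have := eqn h0
    rw [hy] at this
    linear_combination -this + 4 * y ^ 2 * w_rel

end Pool.Agent.MP_adc87d_lc

end
end
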