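import Mathlib
import Pool.Agent.Mg.Fadc87d.G0908ea

set_option linter.all false

section

/-! From characters to test functions: the choice of parameters. -/

set_option autoImplicit false

noncomputable section

open Finset
open scoped Classical

namespace Pool.Agent.MP_adc87d_lc.Big

open Pool.Agent.MP_2a1f0e_nt (ex)

theorem dvd_vec_CEq (l : ℕ) (x : O) : (∀ i, (l : ℤ) ∣ vec x i) ↔ (l : O) ∣ x := by
  rw [O.natCast_dvd]
  constructor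
  · exact fun h => ⟨h 0, h 1, h 2⟩
  · rintro ⟨a, b, c⟩ i
    fin_cases i
    · exact a
    · exact b
    · exact c

theorem ff_tO_CEq (k : ℕ) (z w : ℝ) (x : O) : ff k z w (tO * x) = ff k z w x := by
  have e : Nm (tO * x) = Nm x := by rw [Nm_mul, Nm_tO, one_mul]
  have p : Prim (vec (tO * x)) ↔ Prim (vec x) := by
    simp only [Prim, dvd_vec_CEq, ← tU_val, Units.dvd_mul_left]
  have r : Rough z (tO * x) ↔ Rough z x := by
    simp only [Rough, N9, e, p]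
  have d : dd k (tO * x) = dd k x := by
    unfold dd
    rw [e]
  unfold ff
  rw [d]
  by_cases h : Rough z x
  · rw [if_pos h, if_pos (r.2 h)]
  · rw [if_neg h, if_neg fun h' => h (r.1 h')]

theorem supp_CEq (k M n : ℕ) (z w : ℝ) (x : O) (hM : 1 ≤ M) (hz : (M : ℝ) ≤ z) (hn : M < n)
    (hx : Nm x = n) (h : ff k z w x ≠ 0) : IsCoprime (Nm x) M := by
  rw [hx, Nat.isCoprime_iff_coprime]
  by_cases hr : Rough z x
  · refine Nat.coprime_of_dvd fun l hl h1 h2 => hr.1 l hl ?_ ?_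
    · exact le_trans (by exact_mod_cast Nat.le_of_dvd hM h2) hz
    · rw [hx]
      exact_mod_cast h1
  · unfold ff at h
    rw [if_neg hr, sub_zero] at h
    unfold dd at h
    have hp : (Nm x).natAbs.Prime := by
      by_contra hc
      exact h (if_neg fun h' => hc h'.1)
    rw [hx, Int.natAbs_natCast] at hp
    exact Nat.coprime_of_lt_prime (by omega) hn hp

theorem mass_CEq (h1 : SzStmt) : ∃ c : ℝ, 1 ≤ c ∧ ∀ (k : ℕ) (z w V : ℝ) (I : Finset ℕ),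
    1 ≤ Real.log V → 0 < V → 0 ≤ w → w ≤ 2 * Real.log V → (∀ n ∈ I, (n : ℝ) ≤ 2 * V) →
    ∑ n ∈ I, ∑ x ∈ Dn 0 n, |ff k z w x| ≤ 8 * c * Real.log V * V := by
  obtain ⟨c, hc, -, -, h⟩ := h1 1
  refine ⟨c, hc, fun k z w V I hL hV hw0 hw hI => ?_⟩
  have hb : ∀ n ∈ I, ∀ x ∈ Dn 0 n, |ff k z w x| ≤ 4 * Real.log V := by
    intro n hn x hx
    obtain ⟨hx1, hx2⟩ := mem_Dn.1 hx
    have p : (1 : ℝ) ≤ Nm x := by exact_mod_cast Nm_pos hx1.1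
    have q : (Nm x : ℝ) ≤ 2 * V := by
      rw [hx2]
      exact_mod_cast hI n hn
    have l0 : 0 ≤ Real.log (Nm x) := Real.log_nonneg p
    have l1 : Real.log (Nm x) ≤ 2 * Real.log V := by
      have a := Real.log_le_log (by linarith) q
      rw [Real.log_mul (by norm_num) hV.ne'] at a
      have b := Real.log_two_lt_d9
      linarith
    unfold ff dd
    rw [abs_le]
    constructor <;> split_ifs <;> linarith
  have hcard : ((∑ n ∈ I, (Dn 0 n).card : ℕ) : ℝ) ≤ c * (2 * V) := by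
    refine le_trans ?_ (h 0 (2 * V) (by linarith))
    rw [← card_biUnion]
    · refine Nat.cast_le.2 (card_le_card fun x hx => ?_)
      obtain ⟨n, hn, hx⟩ := mem_biUnion.1 hx
      obtain ⟨hx1, hx2⟩ := mem_Dn.1 hx
      refine mem_Rg.2 ⟨hx1.1, abs_le.2 ⟨by linarith [hx1.2.1], by linarith [hx1.2.2]⟩,
        by exact_mod_cast Nm_pos hx1.1, ?_⟩
      rw [hx2]
      exact_mod_cast hI n hn
    · intro n _ m _ hnm
      refine disjoint_left.2 fun x hx hx' => hnm ?_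
      have := (mem_Dn.1 hx).2.symm.trans (mem_Dn.1 hx').2
      exact_mod_cast this
  calc ∑ n ∈ I, ∑ x ∈ Dn 0 n, |ff k z w x|
      ≤ ∑ n ∈ I, ((Dn 0 n).card : ℝ) * (4 * Real.log V) := sum_le_sum fun n hn => by
        rw [← nsmul_eq_mul]
        exact sum_le_card_nsmul _ _ _ (hb n hn)
    _ = ((∑ n ∈ I, (Dn 0 n).card : ℕ) : ℝ) * (4 * Real.log V) := by
        rw [← sum_mul, Nat.cast_sum]
    _ ≤ c * (2 * V) * (4 * Real.log V) := by gcongr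
    _ = _ := by ring

theorem num_CEq (L A V M N₁ N₂ : ℝ) (hL : 200 ≤ L) (hA : 1 ≤ A) (hV : 0 ≤ V) (hM0 : 0 ≤ M)
    (hM : M ≤ A * L) (a₁ : A ^ 11 * L ^ 18 ≤ N₁) (b₁ : N₁ ≤ A ^ 11 * L ^ 19)
    (a₂ : A ^ 2 * L ^ 3 ≤ N₂) (b₂ : N₂ ≤ A ^ 2 * L ^ 4) :
    9 * M ^ 3 * N₁ ^ 3 * N₂ ^ 3 * (V / (A ^ 43 * L ^ 73)) +
      L ^ 2 * V * ((A + 1) / N₂ + 3 * M ^ 3 * N₂ ^ 3 * (A + 20) / N₁) ≤ V / A := by
  have L0 : 0 < L := by linarith
  have A0 : 0 < A := by linarith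
  have n₁ : 0 < N₁ := lt_of_lt_of_le (by positivity) a₁
  have n₂ : 0 < N₂ := lt_of_lt_of_le (by positivity) a₂
  have t1 : 9 * M ^ 3 * N₁ ^ 3 * N₂ ^ 3 * (V / (A ^ 43 * L ^ 73)) ≤ 9 * (V / A / L) :=
    calc _ ≤ 9 * (A * L) ^ 3 * (A ^ 11 * L ^ 19) ^ 3 * (A ^ 2 * L ^ 4) ^ 3 *
          (V / (A ^ 43 * L ^ 73)) := by gcongr
      _ = _ := by field_simp
  have t2 : (A + 1) / N₂ ≤ 2 * (1 / A / L ^ 3) :=
    calc _ ≤ (A + A) / (A ^ 2 * L ^ 3) := by gcongr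
      _ = _ := by field_simp; ring
  have t3 : 3 * M ^ 3 * N₂ ^ 3 * (A + 20) / N₁ ≤ 63 * (1 / A / L ^ 3) :=
    calc _ ≤ 3 * (A * L) ^ 3 * (A ^ 2 * L ^ 4) ^ 3 * (21 * A) / (A ^ 11 * L ^ 18) := by
          gcongr
          linarith
      _ = _ := by field_simp; ring
  have t4 : L ^ 2 * V * ((A + 1) / N₂ + 3 * M ^ 3 * N₂ ^ 3 * (A + 20) / N₁) ≤ 65 * (V / A / L) :=
    calc _ ≤ L ^ 2 * V * (2 * (1 / A / L ^ 3) + 63 * (1 / A / L ^ 3)) := by gcongr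
      _ = _ := by field_simp; ring
  have t5 : V / A / L ≤ V / A / 200 := by gcongr
  have t6 : 0 ≤ V / A := by positivity
  linarith

theorem cond_CEq (L A M N₁ N₂ σ m : ℝ) (hL : 200 ≤ L) (hA : 1 ≤ A) (hM : M ≤ A * L)
    (n₁ : 0 ≤ N₁) (b₁ : N₁ ≤ A ^ 11 * L ^ 19) (n₂ : 0 ≤ N₂) (b₂ : N₂ ≤ A ^ 2 * L ^ 4)
    (hσ : |σ| ≤ N₁ ^ 3 + 1) (hm : |m| ≤ N₂ ^ 3) : M * (1 + |σ| + |m|) ≤ A ^ 43 * L ^ 73 := by
  have L1 : 1 ≤ L := by linarith
  have x1 : 1 ≤ (A ^ 11 * L ^ 19) ^ 3 :=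
    one_le_pow₀ (one_le_mul_of_one_le_of_one_le (one_le_pow₀ hA) (one_le_pow₀ L1))
  have x2 : N₁ ^ 3 ≤ (A ^ 11 * L ^ 19) ^ 3 := by gcongr
  have x3 : N₂ ^ 3 ≤ (A ^ 11 * L ^ 19) ^ 3 := by
    refine pow_le_pow_left₀ n₂ (b₂.trans ?_) 3
    gcongr <;> first | assumption | norm_num
  calc _ ≤ A * L * (L * (A ^ 11 * L ^ 19) ^ 3) := by
        gcongr
        nlinarith
    _ = A ^ 34 * L ^ 59 := by ring
    _ ≤ _ := by gcongr <;> first | assumption | norm_num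

theorem ceil_CEq (X L : ℝ) (hX : 1 ≤ X) (hL : 2 ≤ L) :
    ∃ N : ℕ, 1 ≤ N ∧ X ≤ N ∧ (N : ℝ) ≤ X * L := by
  refine ⟨⌈X⌉₊, Nat.one_le_ceil_iff.2 (by linarith), Nat.le_ceil _, ?_⟩
  have := Nat.ceil_lt_add_one (a := X) (by linarith)
  nlinarith

theorem ceq (h1 : SzStmt) (h2 : BalStmt) (h3 : EqCStmt) : EqStmt := by
  intro k hk
  obtain ⟨c, hc, H⟩ := h2 k hk
  obtain ⟨c₁, hc₁, hmass⟩ := mass_CEq h1
  refine ⟨c, hc, fun a => ⟨43 * a + 73 + 4, fun b => ?_⟩⟩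
  obtain ⟨V₁, H⟩ := H (43 * a + 73) b
  refine ⟨max V₁ (Real.exp (200 + 8 * c₁ + 23 * 3 ^ k + (a + 2).factorial)),
    fun V hV z y₁ y₂ hz hz' hy₁ hy₂ hy => ?_⟩
  have hV1 : V₁ ≤ V := le_trans (le_max_left _ _) hV
  have hV2 := le_trans (le_max_right _ _) hV
  have V0 : 0 < V := lt_of_lt_of_le (Real.exp_pos _) hV2
  have hL := (Real.le_log_iff_exp_le V0).2 hV2
  have eV : Real.exp (Real.log V) = V := Real.exp_log V0
  have q0 : (0 : ℝ) < 23 * 3 ^ k := by positivity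
  have f0 : (0 : ℝ) < (a + 2).factorial := by positivity
  have hmass := fun w => hmass k z w V (Ioc ⌊y₁⌋₊ ⌊y₂⌋₊) (by linarith) V0
  have H := H V hV1 z y₁ y₂ hz hz' hy₁ hy₂
  generalize Real.log V = L at *
  have L200 : 200 ≤ L := by linarith
  have L1 : 1 ≤ L := by linarith
  have A1 : 1 ≤ L ^ a := one_le_pow₀ L1
  have eA : L ^ (43 * a + 73) = (L ^ a) ^ 43 * L ^ 73 := by ring
  have hAV : L ^ a * L ≤ V := by
    have h := Real.pow_div_factorial_le_exp L (by linarith) (a + 2)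
    rw [eV, div_le_iff₀ f0] at h
    have h' : L ^ a * L * L ≤ V * L := by
      calc _ = L ^ (a + 2) := by ring
        _ ≤ _ := h
        _ ≤ _ := by gcongr; linarith
    exact le_of_mul_le_mul_right h' (by linarith)
  have hAz : L ^ a * L ≤ z := by
    refine le_trans ?_ hz
    rw [← pow_succ]
    exact pow_le_pow_right₀ L1 (by omega)
  obtain ⟨w, hw1, hw2, H⟩ := H (le_trans (by gcongr; omega) hy)
  refine ⟨w, hw1, hw2, fun M T h₁ h₂ s hM hMa hT hh₁ hh₂ => ?_⟩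
  obtain ⟨N₁, p₁, a₁, b₁⟩ := ceil_CEq ((L ^ a) ^ 11 * L ^ 18) L
    (one_le_mul_of_one_le_of_one_le (one_le_pow₀ A1) (one_le_pow₀ L1)) (by linarith)
  obtain ⟨N₂, p₂, a₂, b₂⟩ := ceil_CEq ((L ^ a) ^ 2 * L ^ 3) L
    (one_le_mul_of_one_le_of_one_le (one_le_pow₀ A1) (one_le_pow₀ L1)) (by linarith)
  replace b₁ : (N₁ : ℝ) ≤ (L ^ a) ^ 11 * L ^ 19 := b₁.trans_eq (by ring)
  replace b₂ : (N₂ : ℝ) ≤ (L ^ a) ^ 2 * L ^ 4 := b₂.trans_eq (by ring)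
  have hM' : ((23 * 3 ^ k * M : ℕ) : ℝ) ≤ L ^ a * L := by
    push_cast
    rw [mul_comm]
    gcongr
    linarith
  have hM1 : 1 ≤ 23 * 3 ^ k * M := Nat.mul_pos (by positivity) hM
  have hT' : Proj (23 * 3 ^ k * M) T := by
    refine ⟨fun x y h => hT.1 x y (dvd_trans ?_ h), fun n x h => hT.2.1 n x ?_, hT.2.2⟩
    · exact Nat.cast_dvd_cast (Dvd.intro_left _ rfl)
    · rw [Nat.cast_mul] at h
      exact h.of_mul_right_right
  have key := h3 (23 * 3 ^ k * M) N₁ N₂ (Ioc ⌊y₁⌋₊ ⌊y₂⌋₊) (ff k z w) T h₁ h₂ s (L ^ a)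
    (V / L ^ (43 * a + 73)) (L ^ 2 * V) hM1 p₁ p₂ (by linarith) (by positivity) hT' hh₁ hh₂
    (fun x _ => ff_tO_CEq k z w x) ?_ ?_ ?_
  · refine key.trans ?_
    rw [eA]
    exact num_CEq L _ V _ _ _ L200 A1 V0.le (Nat.cast_nonneg _) hM' a₁ b₁ a₂ b₂
  · intro n hn x hx h
    refine supp_CEq k _ n z w x hM1 (hM'.trans hAz) ?_ (mem_Dn.1 hx).2 h
    have := (Nat.floor_lt (by linarith)).1 (mem_Ioc.1 hn).1
    exact_mod_cast (show ((23 * 3 ^ k * M : ℕ) : ℝ) < n by linarith)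
  · refine (hmass w (by linarith) hw2 fun n hn => ?_).trans ?_
    · have hy0 : 0 ≤ y₂ := by
        have : 0 ≤ V / L ^ a := by positivity
        linarith
      exact ((Nat.le_floor_iff hy0).1 (mem_Ioc.1 hn).2).trans hy₂
    · rw [pow_two]
      gcongr
      linarith
  · intro Ψ hΨ e hp hσ hm
    refine H Ψ hΨ (e ▸ Dvd.intro _ rfl) ?_ hp
    rw [eA, Chr.cond, e]
    exact cond_CEq L _ _ _ _ _ _ L200 A1 hM' (Nat.cast_nonneg _) b₁ (Nat.cast_nonneg _) b₂ hσ hm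

end Pool.Agent.MP_adc87d_lc.Big

end
end

section

/-! Counting lattice points. -/

set_option autoImplicit false

noncomputable section

open Finset
open scoped Classical

namespace Pool.Agent.MP_adc87d_lc.Big

open Pool.Agent.MP_2a1f0e_nt (ex)

lemma bez_CV1 {β : Fin 3 → ℤ} (h : Prim β) :
    ∃ u₀ u₁ u₂ : ℤ, u₀ * β 0 + u₁ * β 1 + u₂ * β 2 = 1 := by
  have h1 : Int.gcd (β 0) (Int.gcd (β 1) (β 2)) = 1 := by
    by_contra hne
    obtain ⟨p, hp, hd⟩ := Nat.exists_prime_and_dvd hne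
    have a1 : (p : ℤ) ∣ (Int.gcd (β 0) (Int.gcd (β 1) (β 2)) : ℤ) := Int.natCast_dvd_natCast.2 hd
    have a2 := a1.trans (Int.gcd_dvd_right _ _)
    refine h p hp fun i => ?_
    fin_cases i
    · exact a1.trans (Int.gcd_dvd_left _ _)
    · exact a2.trans (Int.gcd_dvd_left _ _)
    · exact a2.trans (Int.gcd_dvd_right _ _)
  have e1 := Int.gcd_eq_gcd_ab (β 0) (Int.gcd (β 1) (β 2))
  have e2 := Int.gcd_eq_gcd_ab (β 1) (β 2)
  rw [h1, Nat.cast_one] at e1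
  refine ⟨Int.gcdA (β 0) (Int.gcd (β 1) (β 2)),
    Int.gcdA (β 1) (β 2) * Int.gcdB (β 0) (Int.gcd (β 1) (β 2)),
    Int.gcdB (β 1) (β 2) * Int.gcdB (β 0) (Int.gcd (β 1) (β 2)), ?_⟩
  linear_combination -e1 - Int.gcdB (β 0) (Int.gcd (β 1) (β 2)) * e2

lemma cr0_CV1 (a b : Fin 3 → ℤ) : crossProduct a b 0 = a 1 * b 2 - a 2 * b 1 := rfl
lemma cr1_CV1 (a b : Fin 3 → ℤ) : crossProduct a b 1 = a 2 * b 0 - a 0 * b 2 := rfl
lemma cr2_CV1 (a b : Fin 3 → ℤ) : crossProduct a b 2 = a 0 * b 1 - a 1 * b 0 := rfl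

lemma dot_CV1 (a b : Fin 3 → ℤ) : a ⬝ᵥ b = a 0 * b 0 + a 1 * b 1 + a 2 * b 2 := by
  rw [dotProduct, Fin.sum_univ_three]

lemma all3_CV1 {P : Fin 3 → Prop} (h0 : P 0) (h1 : P 1) (h2 : P 2) (i : Fin 3) : P i := by
  fin_cases i
  exacts [h0, h1, h2]

lemma par_CV1 {β : Fin 3 → ℤ} (h : Prim β) (γ : Fin 3 → ℤ) (v : ℤ) :
    (∀ i, v ∣ crossProduct β γ i) ↔ ∃ l : ℤ, ∀ i, v ∣ γ i - l * β i := by
  constructor
  · intro hc
    obtain ⟨u₀, u₁, u₂, hu⟩ := bez_CV1 h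
    obtain ⟨c₀, h0⟩ := hc 0
    obtain ⟨c₁, h1⟩ := hc 1
    obtain ⟨c₂, h2⟩ := hc 2
    rw [cr0_CV1] at h0
    rw [cr1_CV1] at h1
    rw [cr2_CV1] at h2
    refine ⟨u₀ * γ 0 + u₁ * γ 1 + u₂ * γ 2, all3_CV1 ⟨u₂ * c₁ - u₁ * c₂, ?_⟩
      ⟨u₀ * c₂ - u₂ * c₀, ?_⟩ ⟨u₁ * c₀ - u₀ * c₁, ?_⟩⟩
    · linear_combination (-γ 0) * hu + u₂ * h1 - u₁ * h2
    · linear_combination (-γ 1) * hu + u₀ * h2 - u₂ * h0
    · linear_combination (-γ 2) * hu + u₁ * h0 - u₀ * h1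
  · rintro ⟨l, hl⟩
    obtain ⟨c₀, h0⟩ := hl 0
    obtain ⟨c₁, h1⟩ := hl 1
    obtain ⟨c₂, h2⟩ := hl 2
    refine all3_CV1 ⟨β 1 * c₂ - β 2 * c₁, ?_⟩ ⟨β 2 * c₀ - β 0 * c₂, ?_⟩ ⟨β 0 * c₁ - β 1 * c₀, ?_⟩
    · rw [cr0_CV1]
      linear_combination β 1 * h2 - β 2 * h1
    · rw [cr1_CV1]
      linear_combination β 2 * h0 - β 0 * h2
    · rw [cr2_CV1]
      linear_combination β 0 * h1 - β 1 * h0

lemma par0_CV1 {β γ : Fin 3 → ℤ} (h : Prim β) (hc : ∀ i, crossProduct β γ i = 0) :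
    ∃ l : ℤ, ∀ i, γ i = l * β i := by
  obtain ⟨l, hl⟩ := (par_CV1 h γ 0).1 fun i => by rw [hc i]
  exact ⟨l, fun i => sub_eq_zero.1 (zero_dvd_iff.1 (hl i))⟩

/-- an arithmetic progression in an interval -/
def AP_CV1 (B : ℝ) (c : ℤ) (m : ℕ) : Finset ℤ :=
  (Icc (-⌊B⌋) ⌊B⌋).filter fun x => (m : ℤ) ∣ x - c

lemma mem_AP_CV1 {B : ℝ} {c : ℤ} {m : ℕ} {r : Fin 3 → ℤ} (hr : ‖r‖ ≤ B) {i : Fin 3}
    (h : (m : ℤ) ∣ r i - c) : r i ∈ AP_CV1 B c m := by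
  have a1 := (norm_le_pi_norm r i).trans hr
  rw [Int.norm_eq_abs, abs_le] at a1
  refine mem_filter.2 ⟨mem_Icc.2 ⟨neg_le.1 (Int.le_floor.2 ?_), Int.le_floor.2 a1.2⟩, h⟩
  push_cast
  linarith [a1.1]

lemma card_AP_CV1 {B : ℝ} (hB : 0 ≤ B) (c : ℤ) {m : ℕ} (hm : 1 ≤ m) :
    ((AP_CV1 B c m).card : ℝ) ≤ 2 * B / m + 1 := by
  have hm0 : (0 : ℝ) < m := by exact_mod_cast hm
  have h1 : (AP_CV1 B c m).card ≤ (Icc ⌈(-B - c) / m⌉ ⌊(B - c) / m⌋).card := by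
    refine card_le_card_of_injOn (fun x => (x - c) / m) (fun x hx => ?_) fun x hx y hy e => ?_
    · obtain ⟨a1, k, a2⟩ := mem_filter.1 (mem_coe.1 hx)
      obtain ⟨a3, a4⟩ := mem_Icc.1 a1
      have a5 : (x - c) / m = k := by
        rw [a2]
        exact Int.mul_ediv_cancel_left _ (by omega)
      have a6 : (x : ℝ) - c = m * k := by exact_mod_cast a2
      have a7 : (x : ℝ) ≤ B := Int.le_floor.1 a4
      have a8 : ((-x : ℤ) : ℝ) ≤ B := Int.le_floor.1 (neg_le.1 a3)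
      push_cast at a8
      refine mem_coe.2 (mem_Icc.2 ⟨?_, ?_⟩)
      · show _ ≤ (x - c) / m
        rw [a5, Int.ceil_le, div_le_iff₀ hm0]
        linarith
      · show (x - c) / m ≤ _
        rw [a5, Int.le_floor, le_div_iff₀ hm0]
        linarith
    · have a1 := Int.mul_ediv_cancel' (mem_filter.1 (mem_coe.1 hx)).2
      have a2 := Int.mul_ediv_cancel' (mem_filter.1 (mem_coe.1 hy)).2
      have a3 : (x - c) / m = (y - c) / m := e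
      rw [a3] at a1
      omega
  rw [Int.card_Icc] at h1
  have h2 : 0 ≤ 2 * B / m := by positivity
  have h3 : (B - c) / m - (-B - c) / m = 2 * B / m := by ring
  have h4 := Int.floor_le ((B - c) / m)
  have h5 := Int.le_ceil ((-B - c) / m)
  refine le_trans (Nat.cast_le.2 h1) ?_
  rcases le_total 0 (⌊(B - c) / m⌋ + 1 - ⌈(-B - c) / m⌉) with h | h
  · rw [← Int.cast_natCast, Int.toNat_of_nonneg h]
    push_cast
    linarith
  · rw [Int.toNat_eq_zero.2 h]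
    push_cast
    linarith

lemma card_AP3_CV1 {B : ℝ} (c : ℤ) {m : ℕ} (hm : 1 ≤ m) (hB : (m : ℝ) ≤ B) :
    ((AP_CV1 B c m).card : ℝ) ≤ 3 * B / m := by
  have hm0 : (0 : ℝ) < m := by exact_mod_cast hm
  have h1 := card_AP_CV1 (hm0.le.trans hB) c hm
  have h2 : 1 ≤ B / m := (one_le_div hm0).2 hB
  have h3 : 3 * B / m = 2 * B / m + B / m := by ring
  linarith

lemma red_CV1 {m : ℕ} (hm : 1 ≤ m) (l : ℤ) :
    ∃ l' ∈ range m, ∀ x a : ℤ, (m : ℤ) ∣ x - l * a → (m : ℤ) ∣ x - (l' : ℤ) * a := by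
  have h0 : (0 : ℤ) < m := by omega
  have h1 := Int.emod_nonneg l h0.ne'
  have h2 := Int.emod_lt_of_pos l h0
  refine ⟨(l % m).toNat, mem_range.2 (by omega), fun x a ⟨k, hk⟩ => ⟨k + l / m * a, ?_⟩⟩
  rw [Int.toNat_of_nonneg h1, Int.emod_def]
  linear_combination hk

lemma three_CV1 {B : ℝ} {m : ℕ} (hm : 1 ≤ m) (hB : (m : ℝ) ≤ B) (β : Fin 3 → ℤ)
    (S : Finset (Fin 3 → ℤ)) (h : ∀ γ ∈ S, ‖γ‖ ≤ B ∧ ∃ l : ℤ, ∀ i, (m : ℤ) ∣ γ i - l * β i) :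
    (S.card : ℝ) ≤ 27 * B ^ 3 / (m : ℝ) ^ 2 := by
  have hm0 : (0 : ℝ) < m := by exact_mod_cast hm
  have h1 : S ⊆ (range m).biUnion fun l : ℕ =>
      Fintype.piFinset fun i => AP_CV1 B (l * β i) m := by
    intro γ hγ
    obtain ⟨a1, l, a2⟩ := h γ hγ
    obtain ⟨l', a3, a4⟩ := red_CV1 hm l
    exact mem_biUnion.2 ⟨l', a3, Fintype.mem_piFinset.2 fun i => mem_AP_CV1 a1 (a4 _ _ (a2 i))⟩
  have h2 : (S.card : ℝ) ≤ ∑ l ∈ range m,
      ((Fintype.piFinset fun i => AP_CV1 B ((l : ℕ) * β i) m).card : ℝ) := by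
    exact_mod_cast (card_le_card h1).trans card_biUnion_le
  have h3 : ∀ l ∈ range m, ((Fintype.piFinset fun i => AP_CV1 B ((l : ℕ) * β i) m).card : ℝ) ≤
      (3 * B / m) ^ 3 := by
    intro l _
    rw [Fintype.card_piFinset, Nat.cast_prod]
    refine (prod_le_prod (fun i _ => Nat.cast_nonneg _) fun i _ => card_AP3_CV1 _ hm hB).trans ?_
    rw [prod_const, card_univ, Fintype.card_fin]
  have h4 := h2.trans (sum_le_sum h3)
  rw [sum_const, card_range, nsmul_eq_mul] at h4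
  refine h4.trans (le_of_eq ?_)
  field_simp
  ring

lemma two_CV1 {H : ℝ} {m : ℕ} (hm : 1 ≤ m) (hH : (m : ℝ) ≤ H) (a b : ℤ) (j k : Fin 3)
    (S : Finset (Fin 3 → ℤ)) (inj : ∀ r ∈ S, ∀ r' ∈ S, r j = r' j → r k = r' k → r = r')
    (h : ∀ r ∈ S, ‖r‖ ≤ H ∧ ∃ l : ℤ, (m : ℤ) ∣ r j - l * a ∧ (m : ℤ) ∣ r k - l * b) :
    (S.card : ℝ) ≤ 16 * H ^ 2 / m := by
  have hm0 : (0 : ℝ) < m := by exact_mod_cast hm
  have h1 : S.card ≤ ((range m).biUnion fun l : ℕ =>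
      AP_CV1 H (l * a) m ×ˢ AP_CV1 H (l * b) m).card := by
    refine card_le_card_of_injOn (fun r => (r j, r k)) (fun r hr => ?_) fun r hr r' hr' e => ?_
    · obtain ⟨a1, l, a2, a2'⟩ := h r hr
      obtain ⟨l', a3, a4⟩ := red_CV1 hm l
      exact mem_coe.2 (mem_biUnion.2 ⟨l', a3, mem_product.2
        ⟨mem_AP_CV1 a1 (a4 _ _ a2), mem_AP_CV1 a1 (a4 _ _ a2')⟩⟩)
    · exact inj r hr r' hr' (congrArg Prod.fst e) (congrArg Prod.snd e)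
  have h2 : (S.card : ℝ) ≤ ∑ l ∈ range m,
      ((AP_CV1 H ((l : ℕ) * a) m ×ˢ AP_CV1 H ((l : ℕ) * b) m).card : ℝ) := by
    exact_mod_cast h1.trans card_biUnion_le
  have h0 : 0 ≤ 3 * H / m := div_nonneg (by linarith) hm0.le
  have h3 : ∀ l ∈ range m, ((AP_CV1 H ((l : ℕ) * a) m ×ˢ AP_CV1 H ((l : ℕ) * b) m).card : ℝ) ≤
      3 * H / m * (3 * H / m) := by
    intro l _
    rw [card_product, Nat.cast_mul]
    exact mul_le_mul (card_AP3_CV1 _ hm hH) (card_AP3_CV1 _ hm hH) (Nat.cast_nonneg _) h0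
  have h4 := h2.trans (sum_le_sum h3)
  rw [sum_const, card_range, nsmul_eq_mul] at h4
  have h5 : (m : ℝ) * (3 * H / m * (3 * H / m)) = 9 * H ^ 2 / m := by
    field_simp
    ring
  rw [h5] at h4
  exact h4.trans (div_le_div_of_nonneg_right (by nlinarith [sq_nonneg H]) hm0.le)

lemma top_CV1 {β : Fin 3 → ℤ} (h : Prim β) :
    ∃ i, 1 ≤ (β i).natAbs ∧ ‖β‖ = (β i).natAbs := by
  obtain ⟨i, -, hi⟩ := exists_max_image univ (fun i => ‖β i‖) univ_nonempty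
  have e : ‖β‖ = ‖β i‖ := le_antisymm
    ((pi_norm_le_iff_of_nonneg (norm_nonneg _)).2 fun j => hi j (mem_univ j)) (norm_le_pi_norm β i)
  refine ⟨i, ?_, by rw [e, Int.norm_eq_abs, Nat.cast_natAbs, Int.cast_abs]⟩
  by_contra hc
  have a1 : β i = 0 := by omega
  rw [a1, norm_zero, norm_eq_zero] at e
  exact h 2 Nat.prime_two fun j => by simp [e]

theorem cv1 : V1Stmt := by
  refine ⟨fun B S hB h => ?_, fun β H S hβ hH h => ?_, fun β c B S hβ hB h => ?_,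
    fun β γ v hβ => par_CV1 hβ γ v, fun β v B S hβ hv hB h => ?_, fun β γ hβ hγ hc => ?_,
    fun β γ r hr h1 h2 => ?_, fun β γ ζ r v v' _ hγ _ _ h3 h4 h5 => ?_⟩
  · have := three_CV1 (m := 1) le_rfl (by rwa [Nat.cast_one]) 0 S fun γ hγ =>
      ⟨h γ hγ, 0, fun i => by simp⟩
    simpa using this
  · obtain ⟨i, h1, h2⟩ := top_CV1 hβ
    obtain ⟨u₀, u₁, u₂, hu⟩ := bez_CV1 hβ
    have h3 : β i ≠ 0 := by omega
    have h4 : ∀ r ∈ S, r 0 * β 0 + r 1 * β 1 + r 2 * β 2 = 0 := fun r hr =>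
      dot_CV1 r β ▸ (h r hr).2
    rw [h2] at hH ⊢
    revert h1 h3 hH
    refine all3_CV1 (P := fun i => (((β i).natAbs : ℕ) : ℝ) ≤ H → 1 ≤ (β i).natAbs → β i ≠ 0 →
      (S.card : ℝ) ≤ 16 * H ^ 2 / ((β i).natAbs : ℕ)) ?_ ?_ ?_ i
    · intro hH h1 h3
      refine two_CV1 h1 hH (β 2) (-β 1) 1 2 S (fun r hr r' hr' e1 e2 => ?_) fun r hr => ?_
      · refine funext (all3_CV1 (mul_right_cancel₀ h3 ?_) e1 e2)
        linear_combination h4 r hr - h4 r' hr' - β 1 * e1 - β 2 * e2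
      · refine ⟨(h r hr).1, r 1 * u₂ - r 2 * u₁, Int.natAbs_dvd.2 ⟨r 1 * u₀ - r 0 * u₁, ?_⟩,
          Int.natAbs_dvd.2 ⟨r 2 * u₀ - r 0 * u₂, ?_⟩⟩
        · linear_combination (-r 1) * hu + u₁ * h4 r hr
        · linear_combination (-r 2) * hu + u₂ * h4 r hr
    · intro hH h1 h3
      refine two_CV1 h1 hH (β 2) (-β 0) 0 2 S (fun r hr r' hr' e1 e2 => ?_) fun r hr => ?_
      · refine funext (all3_CV1 e1 (mul_right_cancel₀ h3 ?_) e2)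
        linear_combination h4 r hr - h4 r' hr' - β 0 * e1 - β 2 * e2
      · refine ⟨(h r hr).1, r 0 * u₂ - r 2 * u₀, Int.natAbs_dvd.2 ⟨r 0 * u₁ - r 1 * u₀, ?_⟩,
          Int.natAbs_dvd.2 ⟨r 2 * u₁ - r 1 * u₂, ?_⟩⟩
        · linear_combination (-r 0) * hu + u₀ * h4 r hr
        · linear_combination (-r 2) * hu + u₂ * h4 r hr
    · intro hH h1 h3
      refine two_CV1 h1 hH (β 1) (-β 0) 0 1 S (fun r hr r' hr' e1 e2 => ?_) fun r hr => ?_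
      · refine funext (all3_CV1 e1 e2 (mul_right_cancel₀ h3 ?_))
        linear_combination h4 r hr - h4 r' hr' - β 0 * e1 - β 1 * e2
      · refine ⟨(h r hr).1, r 0 * u₁ - r 1 * u₀, Int.natAbs_dvd.2 ⟨r 0 * u₂ - r 2 * u₀, ?_⟩,
          Int.natAbs_dvd.2 ⟨r 1 * u₂ - r 2 * u₁, ?_⟩⟩
        · linear_combination (-r 0) * hu + u₀ * h4 r hr
        · linear_combination (-r 1) * hu + u₁ * h4 r hr
  · obtain ⟨i, h1, h2⟩ := top_CV1 hβ
    have h3 : β i ≠ 0 := by omega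
    rw [h2]
    rcases S.eq_empty_or_nonempty with rfl | ⟨γ₀, h0⟩
    · rw [card_empty, Nat.cast_zero]
      positivity
    have key : ∀ γ ∈ S, ∃ l : ℤ, ∀ j, γ j - γ₀ j = l * β j := fun γ hγ =>
      par0_CV1 (γ := γ - γ₀) hβ fun j => by
        rw [map_sub, (h γ hγ).2, (h γ₀ h0).2, sub_self, Pi.zero_apply]
    refine le_trans (Nat.cast_le.2 ?_) (card_AP_CV1 hB (γ₀ i) h1)
    refine card_le_card_of_injOn (fun γ => γ i) (fun γ hγ => ?_) fun γ hγ γ' hγ' e => ?_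
    · obtain ⟨l, hl⟩ := key γ hγ
      exact mem_coe.2 (mem_AP_CV1 (h γ hγ).1 (Int.natAbs_dvd.2 ⟨l, by rw [hl, mul_comm]⟩))
    · obtain ⟨l, hl⟩ := key γ hγ
      obtain ⟨l', hl'⟩ := key γ' hγ'
      have e1 : γ i = γ' i := e
      have e2 : l = l' := mul_right_cancel₀ h3 (by rw [← hl, ← hl', e1])
      funext j
      linear_combination hl j - hl' j + β j * e2
  · exact three_CV1 hv hB β S fun γ hγ => ⟨(h γ hγ).1, (par_CV1 hβ γ v).1 (h γ hγ).2⟩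
  · obtain ⟨l, hl⟩ := par0_CV1 (γ := γ) hβ fun i => by rw [hc, Pi.zero_apply]
    obtain ⟨u₀, u₁, u₂, hu⟩ := bez_CV1 hγ
    have e : l * (u₀ * β 0 + u₁ * β 1 + u₂ * β 2) = 1 := by
      rw [hl 0, hl 1, hl 2] at hu
      linear_combination hu
    rcases Int.eq_one_or_neg_one_of_mul_eq_one e with rfl | rfl
    · exact Or.inl (funext fun i => by rw [hl, one_mul])
    · exact Or.inr (funext fun i => by rw [hl, neg_one_mul, Pi.neg_apply])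
  · rw [dot_CV1] at h1 h2
    obtain ⟨l, hl⟩ := par0_CV1 (γ := crossProduct β γ) hr (all3_CV1
      (by rw [cr0_CV1, cr1_CV1, cr2_CV1]; linear_combination β 0 * h2 - γ 0 * h1)
      (by rw [cr1_CV1, cr0_CV1, cr2_CV1]; linear_combination β 1 * h2 - γ 1 * h1)
      (by rw [cr2_CV1, cr0_CV1, cr1_CV1]; linear_combination β 2 * h2 - γ 2 * h1))
    exact ⟨l, funext fun i => by rw [hl, Pi.smul_apply, smul_eq_mul]⟩
  · obtain ⟨u₀, u₁, u₂, hu⟩ := bez_CV1 hγ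
    rw [dot_CV1] at h3
    have a0 : β 1 * γ 2 - β 2 * γ 1 = v * r 0 := congrFun h4 0
    have a1 : β 2 * γ 0 - β 0 * γ 2 = v * r 1 := congrFun h4 1
    have a2 : β 0 * γ 1 - β 1 * γ 0 = v * r 2 := congrFun h4 2
    have b0 : γ 1 * ζ 2 - γ 2 * ζ 1 = v' * r 0 := congrFun h5 0
    have b1 : γ 2 * ζ 0 - γ 0 * ζ 2 = v' * r 1 := congrFun h5 1
    have b2 : γ 0 * ζ 1 - γ 1 * ζ 0 = v' * r 2 := congrFun h5 2
    have d : ζ 0 * (β 1 * γ 2 - β 2 * γ 1) + ζ 1 * (β 2 * γ 0 - β 0 * γ 2) +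
        ζ 2 * (β 0 * γ 1 - β 1 * γ 0) = 0 := by
      linear_combination ζ 0 * a0 + ζ 1 * a1 + ζ 2 * a2 + v * h3
    refine ⟨(u₀ * β 0 + u₁ * β 1 + u₂ * β 2) * v' + (u₀ * ζ 0 + u₁ * ζ 1 + u₂ * ζ 2) * v,
      funext (all3_CV1 ?_ ?_ ?_)⟩
    · rw [cr0_CV1, Pi.smul_apply, smul_eq_mul]
      linear_combination (u₀ * β 0 + u₁ * β 1 + u₂ * β 2) * b0 +
        (u₀ * ζ 0 + u₁ * ζ 1 + u₂ * ζ 2) * a0 - (β 1 * ζ 2 - β 2 * ζ 1) * hu - u₀ * d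
    · rw [cr1_CV1, Pi.smul_apply, smul_eq_mul]
      linear_combination (u₀ * β 0 + u₁ * β 1 + u₂ * β 2) * b1 +
        (u₀ * ζ 0 + u₁ * ζ 1 + u₂ * ζ 2) * a1 - (β 2 * ζ 0 - β 0 * ζ 2) * hu - u₁ * d
    · rw [cr2_CV1, Pi.smul_apply, smul_eq_mul]
      linear_combination (u₀ * β 0 + u₁ * β 1 + u₂ * β 2) * b2 +
        (u₀ * ζ 0 + u₁ * ζ 1 + u₂ * ζ 2) * a2 - (β 0 * ζ 1 - β 1 * ζ 0) * hu - u₂ * d

end Pool.Agent.MP_adc87d_lc.Big

end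
end
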