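import Mathlib
import Pool.Agent.Mg.Fadc87d.G04e6de

set_option linter.all false

section

/-! The congruences on the twist hold. -/

set_option autoImplicit false

noncomputable section

namespace Pool.Agent.MP_adc87d_lc.Big

section

variable {p : ℕ} [Fact p.Prime]

theorem norm_nat_CGH {m : ℕ} (hp : ¬p ∣ m) : ‖(m : ℚ_[p])‖ = 1 := by
  rw [Padic.norm_natCast_eq_one_iff]
  exact ((Nat.Prime.coprime_iff_not_dvd Fact.out).2 hp)

theorem norm_db_CGH (hp : ¬p ∣ 2 * 3 * 7 * 23) {b : ℚ_[p]} (hb : ‖b‖ = 1) :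
    ‖db b‖ = 1 ∧ ‖6 * db b‖ = 1 := by
  have h2 : ‖((2 : ℕ) : ℚ_[p])‖ = 1 := norm_nat_CGH fun h => hp (h.trans (by norm_num))
  have h3 : ‖((3 : ℕ) : ℚ_[p])‖ = 1 := norm_nat_CGH fun h => hp (h.trans (by norm_num))
  have h23 : ‖((23 : ℕ) : ℚ_[p])‖ = 1 := norm_nat_CGH fun h => hp (h.trans (by norm_num))
  have e : db b = -(((2 : ℕ) : ℚ_[p]) ^ 4 * ((23 : ℕ) : ℚ_[p]) * b ^ 2) := by
    unfold db; push_cast; ring
  have h1 : ‖db b‖ = 1 := by
    rw [e, norm_neg, norm_mul, norm_mul, norm_pow, norm_pow, h2, h23, hb]; norm_num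
  refine ⟨h1, ?_⟩
  have e6 : (6 : ℚ_[p]) = ((2 : ℕ) : ℚ_[p]) * ((3 : ℕ) : ℚ_[p]) := by push_cast; norm_num
  rw [norm_mul, h1, e6, norm_mul, h2, h3]; norm_num

theorem add_le_CGH {x y : ℚ_[p]} {r : ℝ} (hx : ‖x‖ ≤ r) (hy : ‖y‖ ≤ r) : ‖x + y‖ ≤ r :=
  (Padic.nonarchimedean x y).trans (max_le hx hy)

theorem sub_le_CGH {x y : ℚ_[p]} {r : ℝ} (hx : ‖x‖ ≤ r) (hy : ‖y‖ ≤ r) : ‖x - y‖ ≤ r := by
  rw [sub_eq_add_neg]
  exact add_le_CGH hx (by rwa [norm_neg])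

theorem mul_le_CGH {x y : ℚ_[p]} {r : ℝ} (hx : ‖x‖ ≤ r) (hy : ‖y‖ ≤ 1) : ‖x * y‖ ≤ r := by
  rw [norm_mul]
  exact (mul_le_of_le_one_right (norm_nonneg _) hy).trans hx

theorem py_le_CGH {d : ℚ_[p]} (hd : ‖d‖ ≤ 1) {P : Pt d} (h0 : P ≠ 0) (h : ‖px P‖ ≤ 1) :
    ‖py P‖ ≤ 1 := by
  have e := eqn h0
  have h1 : ‖py P ^ 2‖ ≤ 1 := by
    rw [e]
    exact add_le_CGH (by rw [norm_pow]; exact pow_le_one₀ (norm_nonneg _) h) hd
  rw [norm_pow] at h1
  exact (pow_le_one_iff_of_nonneg (norm_nonneg _) two_ne_zero).1 h1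

end

theorem cg (_h1 : L1Stmt) (h2 : L2Stmt) (h3 : L3Stmt) (h5 : CmpStmt) : CGStmt := by
  intro D W hD n i b l P hn hi hni hP hcl
  have hG := hD.base.2.2.1
  have key : ∀ (p : ℕ) [Fact p.Prime], ‖((px (i • D.G) : ℚ) : ℚ_[p])‖ < 1 →
      ‖((px (n • P) - l ^ 2 * px (n • D.G) : ℚ) : ℚ_[p])‖ ≤ ‖((px (i • D.G) : ℚ) : ℚ_[p])‖ ∧
      ‖((py (n • P) - l ^ 3 * py (n • D.G) : ℚ) : ℚ_[p])‖ ≤ ‖((px (i • D.G) : ℚ) : ℚ_[p])‖ ∧
      ‖((px (n • D.G) : ℚ) : ℚ_[p])‖ ≤ 1 := by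
    intro p _ hu
    obtain ⟨hp, hb, hx, c1, c2, c3⟩ := hcl p hu
    obtain ⟨lam, ψ, τ, l1, l2, hψ, -, eψ, eτ, hc⟩ := h5 p hp b l _ hu hb c1
    have hG1 : D.G ≠ 0 := by simpa using hG 1 one_ne_zero
    obtain ⟨e1, e2⟩ := hc D.G P hG1 hP hx c2 c3
    have hd := (norm_db_CGH hp hb).1
    have hd0 : db (b : ℚ_[p]) ≠ 0 := by
      intro h; rw [h, norm_zero] at hd; exact zero_ne_one hd
    obtain ⟨f1, -, f3, -⟩ := h2 p _ hd0 hd.le _ e1 n
    have f4 : ‖zc (n • (τ P - ψ D.G))‖ ≤ ‖((px (i • D.G) : ℚ) : ℚ_[p])‖ := by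
      rw [f3]
      exact (mul_le_of_le_one_left (norm_nonneg _) (Padic.norm_int_le_one n)).trans e2
    have hnx : ∀ A, ‖px (ψ A)‖ = ‖((px A : ℚ) : ℚ_[p])‖ := fun A => by
      rw [(eψ A).1, norm_mul, norm_pow, l1]; simp
    have hny : ∀ A, ‖py (ψ A)‖ = ‖((py A : ℚ) : ℚ_[p])‖ := fun A => by
      rw [(eψ A).2, norm_mul, norm_pow, l1]; simp
    have hN0 : ψ (n • D.G) ≠ 0 := fun h => hG n hn (hψ (by rw [h, map_zero]))
    have hN : ‖px (ψ (n • D.G))‖ ≤ 1 := by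
      by_contra hlt
      obtain ⟨m, rfl⟩ := hni
      have g := (h2 p _ hd0 hd.le _ (Or.inr (not_le.1 hlt) : E1 (ψ (n • D.G))) m).1
      rw [← map_zsmul, ← mul_zsmul, mul_comm m n] at g
      rcases g with g | g
      · exact hG _ hi (hψ (by rw [g, map_zero]))
      · rw [hnx] at g
        exact lt_asymm g hu
    have hNy := py_le_CGH hd.le hN0 hN
    obtain ⟨-, g1, g2⟩ := (h3 p _ hd0 hd.le).1 _ _ hN0 hN f1
    have es : ψ (n • D.G) + n • (τ P - ψ D.G) = τ (n • P) := by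
      rw [map_zsmul, map_zsmul, smul_sub]; abel
    rw [es] at g1 g2
    rw [hnx] at hN
    rw [hny] at hNy
    have hl : ‖(l : ℚ_[p])‖ ≤ 1 := by
      have : (l : ℚ_[p]) = lam - (lam - l) := by ring
      rw [this]
      exact sub_le_CGH l1.le (l2.trans hu.le)
    rw [(eτ _).1, (eψ _).1] at g1
    rw [(eτ _).2, (eψ _).2] at g2
    refine ⟨?_, ?_, hN⟩
    · have : ((px (n • P) - l ^ 2 * px (n • D.G) : ℚ) : ℚ_[p]) =
          ((px (n • P) : ℚ) - lam ^ 2 * (px (n • D.G) : ℚ)) +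
            (lam - l) * (lam + l) * (px (n • D.G) : ℚ) := by push_cast; ring
      rw [this]
      exact add_le_CGH (g1.trans f4) (mul_le_CGH (mul_le_CGH l2 (add_le_CGH l1.le hl)) hN)
    · have : ((py (n • P) - l ^ 3 * py (n • D.G) : ℚ) : ℚ_[p]) =
          ((py (n • P) : ℚ) - lam ^ 3 * (py (n • D.G) : ℚ)) +
            (lam - l) * (lam * lam + lam * l + l * l) * (py (n • D.G) : ℚ) := by
        push_cast; ring
      rw [this]
      exact add_le_CGH (g2.trans f4) (mul_le_CGH (mul_le_CGH l2 (add_le_CGH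
        (add_le_CGH (mul_le_CGH l1.le l1.le) (mul_le_CGH l1.le hl)) (mul_le_CGH hl hl))) hNy)
  refine ⟨fun p _ _ hu => (hcl p hu).2.2.2.1, fun p _ _ hu => (hcl p hu).2.2.2.2.1,
    fun p _ _ hu => (hcl p hu).2.2.2.2.2, fun p _ _ hu => (key p hu).1,
    fun p _ _ hu => (key p hu).2.1, fun p _ _ hu => ?_⟩
  rw [Rat.cast_mul]
  exact mul_le_CGH le_rfl (key p hu).2.2

theorem one_lt_px_CGH {A : Pt (db (49 : ℚ))} (h : A ≠ 0) : 1 < px A := by
  have e : py A ^ 2 = px A ^ 3 + -368 * 49 ^ 2 := eqn h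
  by_contra hle
  have h1 : px A ≤ 1 := not_lt.1 hle
  have h2 : px A ^ 3 ≤ 1 := by
    have : 0 ≤ (1 - px A) * ((px A + 1 / 2) ^ 2 + 3 / 4) :=
      mul_nonneg (by linarith) (by positivity)
    nlinarith
  nlinarith [sq_nonneg (py A)]

theorem exists_prime_CGH {y : ℚ} (h : 1 < y) :
    ∃ (p : ℕ) (_ : Fact p.Prime), ‖(y : ℚ_[p])‖ < 1 := by
  have hd : (0 : ℚ) < y.den := by exact_mod_cast y.den_pos
  have h1 : (y.den : ℚ) < y.num := by
    rw [← Rat.mul_den_eq_num]; nlinarith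
  have h2 : (y.den : ℤ) < y.num := by exact_mod_cast h1
  have h3 : y.num.natAbs ≠ 1 := by have := y.den_pos; omega
  obtain ⟨p, hp, hpd⟩ := Nat.exists_prime_and_dvd h3
  have : Fact p.Prime := ⟨hp⟩
  refine ⟨p, ⟨hp⟩, ?_⟩
  have hden : ¬p ∣ y.den := fun hq =>
    hp.one_lt.ne' (Nat.eq_one_of_dvd_coprimes y.reduced hpd hq)
  rw [Rat.cast_def, norm_div, norm_nat_CGH hden, div_one, Padic.norm_intCast_lt_one_iff]
  exact Int.natCast_dvd.2 hpd

theorem ch (h1 : L1Stmt) (h2 : L2Stmt) (h3 : L3Stmt) (h5 : CmpStmt) (h6 : RkStmt) : CHStmt := by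
  intro D W hD n j b l P hn hj hb hP hcl
  have hG := hD.base.2.2.1
  have hKj : (3 : ℤ) ^ D.K * j ≠ 0 := mul_ne_zero (pow_ne_zero _ (by norm_num)) hj
  have hy := one_lt_px_CGH (hG _ hKj)
  have hT : ∀ m : ℕ, (3 ^ m : ℕ) • P ≠ 0 := by
    intro m
    induction m with
    | zero => simpa using hP
    | succ m ih =>
      intro h
      rw [pow_succ', mul_smul] at h
      exact ih ((h6 b hb).2.2.1 _ h)
  have ecomm : (3 ^ (D.K + 1) : ℕ) • n • P = n • (3 ^ (D.K + 1) : ℕ) • P := smul_comm _ _ _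
  rw [ecomm]
  generalize hR : (3 ^ (D.K + 1) : ℕ) • P = R
  have hR0 : R ≠ 0 := hR ▸ hT _
  have key : ∀ (p : ℕ) [Fact p.Prime], ‖((px (((3 : ℤ) ^ D.K * j) • D.G) : ℚ) : ℚ_[p])‖ < 1 →
      n • R ≠ 0 ∧
      ‖(((px R)⁻¹ : ℚ) : ℚ_[p])‖ ≤ ‖((px (((3 : ℤ) ^ D.K * j) • D.G) : ℚ) : ℚ_[p])‖ ^ 2 ∧
      ‖(((px (n • R))⁻¹ : ℚ) : ℚ_[p])‖ ≤
        ‖((px (((3 : ℤ) ^ D.K * j) • D.G) : ℚ) : ℚ_[p])‖ ^ 2 ∧
      ‖((zc (n • R) / zc R - n : ℚ) : ℚ_[p])‖ ≤
        ‖((px (((3 : ℤ) ^ D.K * j) • D.G) : ℚ) : ℚ_[p])‖ := by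
    intro p _ hu
    obtain ⟨hp, hbn, hx, c1, c2, c3⟩ := hcl p hu
    obtain ⟨lam, ψ, τ, l1, -, hψ, hτ, eψ, eτ, hc⟩ := h5 p hp b l _ hu hbn c1
    obtain ⟨e1, e2⟩ := hc (j • D.G) P (hG j hj) hP hx c2 c3
    obtain ⟨hd, hd6⟩ := norm_db_CGH hp hbn
    have hd0 : db (b : ℚ_[p]) ≠ 0 := by
      intro h; rw [h, norm_zero] at hd; exact zero_ne_one hd
    have hnx : ∀ A, ‖px (ψ A)‖ = ‖((px A : ℚ) : ℚ_[p])‖ := fun A => by
      rw [(eψ A).1, norm_mul, norm_pow, l1]; simp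
    generalize hA : ((3 : ℤ) ^ D.K * j) • D.G = A at hu e2 hy ⊢
    have hA0 : ψ A ≠ 0 := fun h => hG _ hKj (hψ (by rw [hA, h, map_zero]))
    have hAx : px (ψ A) ≠ 0 := by
      rw [← norm_ne_zero_iff, hnx, norm_ne_zero_iff, Rat.cast_ne_zero]
      linarith
    obtain ⟨-, g1, g2⟩ := (h3 p _ hd0 hd.le).2.2 _ hA0 hAx hd6 (by rwa [hnx])
    rw [hnx] at g2
    obtain ⟨f1, -, f3, -⟩ := h2 p _ hd0 hd.le _ e1 ((3 : ℤ) ^ (D.K + 1))
    have f4 : ‖zc (((3 : ℤ) ^ (D.K + 1)) • (τ P - ψ (j • D.G)))‖ ≤ ‖((px A : ℚ) : ℚ_[p])‖ := by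
      rw [f3]
      exact (mul_le_of_le_one_left (norm_nonneg _) (Padic.norm_int_le_one _)).trans e2
    obtain ⟨k1, k2⟩ := (h1 p _ hd0 hd.le).2 _ _ _ f1 g1 f4 g2.le
    have es : ((3 : ℤ) ^ (D.K + 1)) • (τ P - ψ (j • D.G)) + (3 : ℕ) • ψ A = τ R := by
      rw [← hR, ← hA, map_nsmul, map_zsmul, map_zsmul, ← natCast_zsmul, ← natCast_zsmul]
      push_cast
      module
    rw [es] at k1 k2
    have h7 : ‖((px A : ℚ) : ℚ_[p])‖ ^ 7 ≤ ‖((px A : ℚ) : ℚ_[p])‖ :=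
      pow_le_of_le_one (norm_nonneg _) hu.le (by norm_num)
    have hz : ‖zc (τ R)‖ ≤ ‖((px A : ℚ) : ℚ_[p])‖ := by
      have := add_le_CGH (add_le_CGH (k2.trans h7) g2.le) f4
      rwa [sub_add_cancel, sub_add_cancel] at this
    have hτ0 : τ R ≠ 0 := fun h => hR0 (hτ (by rw [h, map_zero]))
    obtain ⟨m1, m2, m3, m4⟩ := h2 p _ hd0 hd.le _ k1 n
    have m5 := m4 hτ0 hn
    have hzn : ‖zc (n • τ R)‖ ≤ ‖((px A : ℚ) : ℚ_[p])‖ := by
      rw [m3]
      exact (mul_le_of_le_one_left (norm_nonneg _) (Padic.norm_int_le_one _)).trans hz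
    have inv : ∀ S : Pt (db b), τ S ≠ 0 → E1 (τ S) → ‖zc (τ S)‖ ≤ ‖((px A : ℚ) : ℚ_[p])‖ →
        ‖(((px S)⁻¹ : ℚ) : ℚ_[p])‖ ≤ ‖((px A : ℚ) : ℚ_[p])‖ ^ 2 := fun S s0 s1 s2 => by
      have := ((h1 p _ hd0 hd.le).1 _ s0 s1).2
      rw [Rat.cast_inv, norm_inv, ← (eτ S).1, inv_eq_of_mul_eq_one_right this]
      exact pow_le_pow_left₀ (norm_nonneg _) s2 2
    have hzc : ∀ S : Pt (db b), ((zc S : ℚ) : ℚ_[p]) = zc (τ S) := fun S => by
      unfold zc; rw [(eτ S).1, (eτ S).2, Rat.cast_div]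
    rw [← map_zsmul] at m1 m2 m5 hzn
    refine ⟨fun h => m5 (by rw [h, map_zero]), inv _ hτ0 k1 hz, inv _ m5 m1 hzn, ?_⟩
    have hz0 : zc (τ R) ≠ 0 := by
      intro h
      have := ((h1 p _ hd0 hd.le).1 _ hτ0 k1).2
      rw [h] at this
      simp at this
    have e : ((zc (n • R) / zc R - n : ℚ) : ℚ_[p]) =
        (zc (τ (n • R)) - n * zc (τ R)) / zc (τ R) := by
      rw [Rat.cast_sub, Rat.cast_div, hzc, hzc, Rat.cast_intCast]
      field_simp
    have hpos : 0 < ‖zc (τ R)‖ := norm_pos_iff.2 hz0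
    rw [e, norm_div, div_le_iff₀ hpos]
    refine m2.trans ?_
    rw [pow_succ]
    refine mul_le_mul_of_nonneg_right ?_ hpos.le
    exact (pow_le_of_le_one hpos.le (hz.trans hu.le) (by norm_num)).trans hz
  have sq : ∀ (p : ℕ) [Fact p.Prime] {y : ℚ}, ‖((y ^ 2 : ℚ) : ℚ_[p])‖ < 1 →
      ‖(y : ℚ_[p])‖ < 1 := fun p _ y h => by
    rw [Rat.cast_pow, norm_pow] at h
    exact (pow_lt_one_iff_of_nonneg (norm_nonneg _) two_ne_zero).1 h
  obtain ⟨q, hq, hq1⟩ := exists_prime_CGH hy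
  refine ⟨hR0, (key q hq1).1, fun p _ _ hu => ?_, fun p _ _ hu => ?_,
    fun p _ _ hu => (key p hu).2.2.2⟩
  · rw [Rat.cast_pow, norm_pow]
    exact (key p (sq p hu)).2.1
  · rw [Rat.cast_pow, norm_pow]
    exact (key p (sq p hu)).2.2.1

end Pool.Agent.MP_adc87d_lc.Big

end
end

section

/-! Descent in the field generated by the square root of 69. -/

set_option autoImplicit false

noncomputable section

namespace Pool.Agent.MP_adc87d_lc.Big

/-- the ring of integers -/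
abbrev O_D2 := QuadraticAlgebra ℤ 17 1

/-- the fundamental unit -/
def ep_D2 : ℝ := (25 + 3 * √69) / 2

theorem sq_D2 : √69 * √69 = (69 : ℝ) := Real.mul_self_sqrt (by norm_num)

theorem ep0_D2 : ep_D2 ≠ 0 := by
  unfold ep_D2
  positivity

theorem epi_D2 : ep_D2⁻¹ = (25 - 3 * √69) / 2 :=
  inv_eq_of_mul_eq_one_right (by unfold ep_D2; linear_combination (-9 / 4) * sq_D2)

/-- the real embedding -/
def ph_D2 : O_D2 →+* ℝ where
  toFun z := z.re + z.im * ((1 + √69) / 2)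
  map_one' := by simp [QuadraticAlgebra.re_one, QuadraticAlgebra.im_one]
  map_mul' z w := by
    simp only [QuadraticAlgebra.re_mul, QuadraticAlgebra.im_mul]
    push_cast
    linear_combination (-(z.im : ℝ) * w.im / 4) * sq_D2
  map_zero' := by simp
  map_add' z w := by
    simp only [QuadraticAlgebra.re_add, QuadraticAlgebra.im_add]
    push_cast
    ring

theorem ph_mk_D2 (c B : ℤ) : ph_D2 ⟨c, B⟩ = c + B * ((1 + √69) / 2) := rfl

theorem nm_D2 (c B : ℤ) :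
    QuadraticAlgebra.norm (⟨c, B⟩ : O_D2) = c ^ 2 + c * B - 17 * B ^ 2 := by
  rw [QuadraticAlgebra.norm_def]
  ring

/-- elements of the quadratic field -/
def Kq_D2 (z : ℝ) : Prop := ∃ u v : ℚ, z = u + v * √69

theorem Kq_mul_D2 {z w : ℝ} (hz : Kq_D2 z) (hw : Kq_D2 w) : Kq_D2 (z * w) := by
  obtain ⟨u, v, rfl⟩ := hz
  obtain ⟨u', v', rfl⟩ := hw
  exact ⟨u * u' + 69 * v * v', u * v' + v * u', by
    push_cast
    linear_combination (v : ℝ) * v' * sq_D2⟩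

theorem Kq_ph_D2 (z : O_D2) : Kq_D2 (ph_D2 z) :=
  ⟨z.re + z.im / 2, z.im / 2, by
    rw [ph_mk_D2 z.re z.im]
    push_cast
    ring⟩

theorem Kq_ep_D2 (m : ℤ) : Kq_D2 (ep_D2 ^ m) := by
  induction m using Int.induction_on with
  | zero => exact ⟨1, 0, by simp⟩
  | succ m ih =>
    rw [zpow_add_one₀ ep0_D2]
    exact Kq_mul_D2 ih ⟨25 / 2, 3 / 2, by unfold ep_D2; push_cast; ring⟩
  | pred m ih =>
    rw [zpow_sub_one₀ ep0_D2, epi_D2]
    exact Kq_mul_D2 ih ⟨25 / 2, -3 / 2, by push_cast; ring⟩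

theorem range_D2 {c B : ℤ} (hB : 0 < B)
    (h : c ^ 2 + c * B - 17 * B ^ 2 = 1 ∨ c ^ 2 + c * B - 17 * B ^ 2 = -1) :
    (10 * B < 3 * c ∧ c < 4 * B) ∨ (-5 * B < c ∧ 3 * c < -13 * B) := by
  have h1 : c < 4 * B := by
    by_contra hc
    rcases h with h | h <;> nlinarith
  have h2 : -5 * B < c := by
    by_contra hc
    rcases h with h | h <;> nlinarith
  by_contra hc
  have h3 : 0 ≤ (10 * B - 3 * c) * (3 * c + 13 * B) := mul_nonneg (by omega) (by omega)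
  rcases h with h | h <;> nlinarith

/-- the units -/
theorem unit_D2 : ∀ (n : ℕ) (c B : ℤ), B.natAbs = n →
    (c ^ 2 + c * B - 17 * B ^ 2 = 1 ∨ c ^ 2 + c * B - 17 * B ^ 2 = -1) →
    ∃ m : ℤ, ph_D2 ⟨c, B⟩ = ep_D2 ^ m ∨ ph_D2 ⟨c, B⟩ = -ep_D2 ^ m := by
  intro n
  induction n using Nat.strong_induction_on with
  | _ n ih =>
  intro c B hn h
  by_cases hB : B = 0
  · subst hB
    have h1 : (c - 1) * (c + 1) = 0 := by rcases h with h | h <;> nlinarith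
    rcases mul_eq_zero.1 h1 with h2 | h2
    · exact ⟨0, Or.inl (by rw [ph_mk_D2, show c = 1 by omega]; simp)⟩
    · exact ⟨0, Or.inr (by rw [ph_mk_D2, show c = -1 by omega]; simp)⟩
  have key : (11 * B - 3 * c).natAbs < n ∨ (3 * c + 14 * B).natAbs < n := by
    rcases lt_or_gt_of_ne hB with h0 | h0
    · have := range_D2 (c := -c) (B := -B) (by omega) (by simpa using h)
      omega
    · have := range_D2 h0 h
      omega
  rcases key with k | k
  · obtain ⟨m, hm⟩ := ih _ k (14 * c - 51 * B) (11 * B - 3 * c) rfl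
      (h.imp (fun h => by linear_combination h) fun h => by linear_combination h)
    have e : ph_D2 ⟨c, B⟩ = ph_D2 ⟨14 * c - 51 * B, 11 * B - 3 * c⟩ * ep_D2 := by
      rw [ph_mk_D2, ph_mk_D2, ep_D2]
      push_cast
      linear_combination (-3 / 4 * (11 * (B : ℝ) - 3 * c)) * sq_D2
    refine ⟨m + 1, ?_⟩
    rw [e, zpow_add_one₀ ep0_D2]
    exact hm.imp (fun h => by rw [h]) fun h => by rw [h, neg_mul]
  · obtain ⟨m, hm⟩ := ih _ k (11 * c + 51 * B) (3 * c + 14 * B) rfl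
      (h.imp (fun h => by linear_combination h) fun h => by linear_combination h)
    have e : ph_D2 ⟨c, B⟩ = ph_D2 ⟨11 * c + 51 * B, 3 * c + 14 * B⟩ * ep_D2⁻¹ := by
      rw [ph_mk_D2, ph_mk_D2, epi_D2]
      push_cast
      linear_combination (3 / 4 * (3 * (c : ℝ) + 14 * B)) * sq_D2
    refine ⟨m - 1, ?_⟩
    rw [e, zpow_sub_one₀ ep0_D2]
    exact hm.imp (fun h => by rw [h]) fun h => by rw [h, neg_mul]

theorem red_D2 {A M C : ℤ} (h : M ^ 2 - 4 * A * C = 69) (h1 : |M| ≤ |A|) (h2 : |A| ≤ |C|) :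
    ∃ k v : ℤ, A * k ^ 2 + M * k * v + C * v ^ 2 = 1 ∨ A * k ^ 2 + M * k * v + C * v ^ 2 = -1 := by
  have e1 : M ^ 2 ≤ A ^ 2 := sq_le_sq.mpr h1
  have e2 : A ^ 2 ≤ |A * C| := by
    rw [abs_mul, ← sq_abs, sq]
    exact mul_le_mul_of_nonneg_left h2 (abs_nonneg A)
  have e3 : A ^ 2 ≤ 17 := by
    rcases abs_cases (A * C) with k | k <;> nlinarith [k.1, k.2, sq_nonneg M]
  have a1 : -4 ≤ A := by nlinarith
  have a2 : A ≤ 4 := by nlinarith
  have m1 : -4 ≤ M := by nlinarith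
  have m2 : M ≤ 4 := by nlinarith
  by_cases hA : A = 1 ∨ A = -1
  · exact ⟨1, 0, hA.imp (fun h => by rw [h]; ring) fun h => by rw [h]; ring⟩
  have k : A + M + C = 1 ∨ A + M + C = -1 ∨ A - M + C = 1 ∨ A - M + C = -1 := by
    clear e2 e3 h1 h2
    interval_cases A <;> interval_cases M <;> omega
  rcases k with k | k | k | k
  · exact ⟨1, 1, Or.inl (by linear_combination k)⟩
  · exact ⟨1, 1, Or.inr (by linear_combination k)⟩
  · exact ⟨1, -1, Or.inl (by linear_combination k)⟩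
  · exact ⟨1, -1, Or.inr (by linear_combination k)⟩

/-- forms of discriminant 69 take one of the values 1, -1 -/
theorem form_D2 : ∀ (n : ℕ) (A M C : ℤ), A.natAbs = n → M ^ 2 - 4 * A * C = 69 →
    ∃ k v : ℤ, A * k ^ 2 + M * k * v + C * v ^ 2 = 1 ∨ A * k ^ 2 + M * k * v + C * v ^ 2 = -1 := by
  intro n
  induction n using Nat.strong_induction_on with
  | _ n ih =>
  intro A M C hn h
  have hA : A ≠ 0 := by
    rintro rfl
    have m1 : -8 ≤ M := by nlinarith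
    have m2 : M ≤ 8 := by nlinarith
    interval_cases M <;> omega
  obtain ⟨t, ht⟩ : ∃ t : ℤ, |M + 2 * A * t| ≤ |A| := by
    have p : 0 < |A| := abs_pos.mpr hA
    have r1 := Int.emod_nonneg (M + |A|) (b := 2 * A) (by omega)
    have r2 := Int.emod_lt_abs (M + |A|) (b := 2 * A) (by omega)
    have r3 := Int.emod_add_mul_ediv (M + |A|) (2 * A)
    rw [abs_mul, abs_two] at r2
    exact ⟨-((M + |A|) / (2 * A)), abs_le.mpr ⟨by linarith, by linarith⟩⟩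
  have h' : (M + 2 * A * t) ^ 2 - 4 * A * (A * t ^ 2 + M * t + C) = 69 := by linear_combination h
  obtain ⟨k, v, hk⟩ : ∃ k v : ℤ,
      A * k ^ 2 + (M + 2 * A * t) * k * v + (A * t ^ 2 + M * t + C) * v ^ 2 = 1 ∨
      A * k ^ 2 + (M + 2 * A * t) * k * v + (A * t ^ 2 + M * t + C) * v ^ 2 = -1 := by
    by_cases hc : |A| ≤ |A * t ^ 2 + M * t + C|
    · exact red_D2 h' ht hc
    · obtain ⟨k, v, hk⟩ := ih (A * t ^ 2 + M * t + C).natAbs (by
        rw [← hn]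
        exact_mod_cast (by simpa only [Int.natCast_natAbs] using not_le.mp hc :
          ((A * t ^ 2 + M * t + C).natAbs : ℤ) < A.natAbs))
        (A * t ^ 2 + M * t + C) (M + 2 * A * t) A rfl (by linear_combination h)
      exact ⟨v, k, hk.imp (fun h => by linear_combination h) fun h => by linear_combination h⟩
  exact ⟨k + t * v, v, hk.imp (fun h => by linear_combination h) fun h => by linear_combination h⟩

/-- primitive elements whose norm is a cube -/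
theorem prim_D2 {c B a : ℤ} (hc : IsCoprime c B) (ha : a ≠ 0)
    (h : c ^ 2 + c * B - 17 * B ^ 2 = a ^ 3) :
    ∃ (m : ℤ) (g : ℝ), Kq_D2 g ∧ ph_D2 ⟨c, B⟩ = ep_D2 ^ m * g ^ 3 := by
  have c1 : IsCoprime (a ^ 3) B := by
    rw [← h, show c ^ 2 + c * B - 17 * B ^ 2 = c ^ 2 + B * (c - 17 * B) by ring]
    exact hc.pow_left.add_mul_left_left _
  obtain ⟨j, i, hij⟩ := c1
  obtain ⟨m, hm⟩ : a ^ 3 ∣ (i * c) ^ 2 + i * c - 17 := by
    refine IsCoprime.dvd_of_dvd_mul_left (y := B ^ 2) (IsCoprime.pow_right ⟨j, i, hij⟩)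
      ⟨1 - 2 * c ^ 2 * j + c ^ 2 * j ^ 2 * a ^ 3 - c * B * j, ?_⟩
    have e : i * B = 1 - j * a ^ 3 := by linear_combination hij
    linear_combination h + (c ^ 2 * (i * B + 1 - j * a ^ 3) + c * B) * e
  obtain ⟨k, v, hk⟩ := form_D2 _ a (2 * (i * c) + 1) (a ^ 2 * m) rfl (by
    linear_combination 4 * hm)
  obtain ⟨η, hη, e⟩ : ∃ η : ℤ, (η = 1 ∨ η = -1) ∧
    a * k ^ 2 + (2 * (i * c) + 1) * k * v + a ^ 2 * m * v ^ 2 = η := ⟨_, hk, rfl⟩
  have η3 : η ^ 3 = η := by rcases hη with rfl | rfl <;> norm_num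
  have η2 : (η : ℝ) * η = 1 := by rcases hη with rfl | rfl <;> norm_num
  set θ : O_D2 := ⟨i * c, 1⟩ with hθ
  set θ' : O_D2 := ⟨i * c + 1, -1⟩ with hθ'
  have t1 : θ * θ' = (a : O_D2) ^ 3 * m := by
    rw [← Int.cast_pow, ← Int.cast_mul, ← hm]
    ext
    · simp only [hθ, hθ', QuadraticAlgebra.re_mul, QuadraticAlgebra.re_intCast, Int.cast_id]
      ring
    · simp only [hθ, hθ', QuadraticAlgebra.im_mul, QuadraticAlgebra.im_intCast]
      ring
  have t2 : (⟨c, B⟩ : O_D2) = B * θ + c * j * (a : O_D2) ^ 3 := by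
    rw [← Int.cast_pow, ← Int.cast_mul, ← Int.cast_mul]
    ext
    · simp only [hθ, QuadraticAlgebra.re_mul, QuadraticAlgebra.re_add, QuadraticAlgebra.re_intCast,
        QuadraticAlgebra.im_intCast, Int.cast_id]
      linear_combination (-c) * hij
    · simp only [hθ, QuadraticAlgebra.im_mul, QuadraticAlgebra.im_add, QuadraticAlgebra.re_intCast,
        QuadraticAlgebra.im_intCast, Int.cast_id]
      ring
  have t3 : (v : O_D2) * θ' + a * k = ⟨v * (i * c + 1) + a * k, -v⟩ := by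
    ext <;> simp [hθ', QuadraticAlgebra.re_intCast, QuadraticAlgebra.im_intCast]
  obtain ⟨δ, hδ⟩ : ∃ δ : O_D2, (a : O_D2) ^ 3 * δ = ⟨c, B⟩ * (v * θ' + a * k) ^ 3 :=
    ⟨B * (m * (v ^ 3 * θ' ^ 2 + 3 * v ^ 2 * θ' * a * k + 3 * v * a ^ 2 * k ^ 2) + θ * k ^ 3) +
      c * j * (v * θ' + a * k) ^ 3, by
      rw [t2]
      linear_combination
        -(B * (v ^ 3 * θ' ^ 2 + 3 * v ^ 2 * θ' * a * k + 3 * v * a ^ 2 * k ^ 2)) * t1⟩
  rw [t3] at hδ
  have n1 : (v * (i * c + 1) + a * k) ^ 2 + (v * (i * c + 1) + a * k) * -v - 17 * (-v) ^ 2 =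
      a * η := by linear_combination a * e + v ^ 2 * hm
  have n2 := congrArg QuadraticAlgebra.norm hδ
  rw [map_mul, map_mul, map_pow, map_pow, QuadraticAlgebra.norm_intCast, nm_D2 c B, nm_D2 _ (-v), h,
    n1, Int.cast_id] at n2
  have n3 : QuadraticAlgebra.norm δ = η :=
    mul_left_cancel₀ (pow_ne_zero 6 ha) (by linear_combination n2 + a ^ 6 * η3)
  obtain ⟨s, hs⟩ := unit_D2 _ δ.re δ.im rfl (by rw [← nm_D2, n3]; exact hη)
  have p1 := congrArg ph_D2 hδ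
  rw [map_mul, map_mul, map_pow, map_pow, map_intCast] at p1
  have p2 : ph_D2 ⟨v * (i * c + 1) + a * k, -v⟩ * ph_D2 ⟨v * (i * c) + a * k, v⟩ = a * η := by
    have n4 : (((v * (i * c + 1) + a * k) ^ 2 + (v * (i * c + 1) + a * k) * -v -
      17 * (-v) ^ 2 : ℤ) : ℝ) = (a * η : ℤ) := by rw [n1]
    rw [ph_mk_D2, ph_mk_D2]
    push_cast at n4 ⊢
    linear_combination n4 - (v : ℝ) ^ 2 / 4 * sq_D2
  have a0 : (a : ℝ) ^ 3 ≠ 0 := pow_ne_zero 3 (Int.cast_ne_zero.mpr ha)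
  have p3 : ph_D2 ⟨c, B⟩ = ph_D2 δ * (η * ph_D2 ⟨v * (i * c) + a * k, v⟩) ^ 3 := by
    refine mul_left_cancel₀ a0 ?_
    generalize ph_D2 ⟨v * (i * c + 1) + a * k, -v⟩ = y at p1 p2
    generalize ph_D2 ⟨v * (i * c) + a * k, v⟩ = z at p2 ⊢
    have p4 : (y * z) ^ 3 = (a * η) ^ 3 := by rw [p2]
    linear_combination -((η : ℝ) * z) ^ 3 * p1 - ph_D2 ⟨c, B⟩ * η ^ 3 * p4 -
      ph_D2 ⟨c, B⟩ * a ^ 3 * ((η * η) ^ 2 + η * η + 1) * η2
  have kq := Kq_mul_D2 (z := η) ⟨η, 0, by simp⟩ (Kq_ph_D2 ⟨v * (i * c) + a * k, v⟩)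
  rcases hs with hs | hs
  · exact ⟨s, _, kq, by rw [p3, ← hs]⟩
  · refine ⟨s, _, Kq_mul_D2 (z := -1) ⟨-1, 0, by simp⟩ kq, ?_⟩
    rw [p3, show ph_D2 δ = -ep_D2 ^ s from hs]
    ring

theorem inert_D2 {p : ℕ} (hp : p.Prime) (hs : Sil p) {c B : ℤ}
    (h : (p : ℤ) ∣ c ^ 2 + c * B - 17 * B ^ 2) : (p : ℤ) ∣ B := by
  have : Fact p.Prime := ⟨hp⟩
  have : Fact (Nat.Prime 23) := ⟨by norm_num⟩
  have h1 := hs.1
  have ho : Odd p := hp.odd_of_ne_two (by omega)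
  have j1 : jacobiSym p 3 = 1 := by
    rw [jacobiSym.mod_left' (a₂ := 1) (by exact_mod_cast h1), jacobiSym.one_left]
  have j2 : jacobiSym p 23 = -1 :=
    ZMod.nonsquare_iff_jacobiSym_eq_neg_one.mpr (by simpa using hs.2)
  have j3 : jacobiSym ((69 : ℕ) : ℤ) p = -1 := by
    rw [jacobiSym.quadratic_reciprocity_one_mod_four (by norm_num) ho,
      show 69 = 3 * 23 from rfl, jacobiSym.mul_right' _ (by norm_num) (by norm_num), j1, j2,
      one_mul]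
  refine (jacobiSym.prime_dvd_of_eq_neg_one j3 (x := 2 * c + B) (y := B) ?_).2
  rw [show (2 * c + B) ^ 2 - ((69 : ℕ) : ℤ) * B ^ 2 = 4 * (c ^ 2 + c * B - 17 * B ^ 2) by
    push_cast; ring]
  exact h.mul_left 4

theorem cube_D2 {r : ℚ} (hr : r ≠ 0) (h : ∀ p : ℕ, p.Prime → (3 : ℤ) ∣ padicValRat p r) :
    ∃ s : ℚ, r = s ^ 3 := by
  have hn : r.num.natAbs * r.den ^ 2 ≠ 0 :=
    mul_ne_zero (Int.natAbs_ne_zero.mpr (Rat.num_ne_zero.mpr hr)) (pow_ne_zero 2 r.den_ne_zero)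
  have h1 : (∏ p ∈ (r.num.natAbs * r.den ^ 2).primeFactors,
      p ^ ((r.num.natAbs * r.den ^ 2).factorization p / 3)) ^ 3 = r.num.natAbs * r.den ^ 2 := by
    rw [← Finset.prod_pow]
    refine Eq.trans (Finset.prod_congr rfl fun p hp => ?_) (Nat.prod_factorization_pow_eq_self hn)
    have pp := Nat.prime_of_mem_primeFactors hp
    have : Fact p.Prime := ⟨pp⟩
    have h2 := h p pp
    rw [← pow_mul, Nat.div_mul_cancel]
    rw [Nat.factorization_def _ pp, padicValNat.mul (left_ne_zero_of_mul hn)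
      (right_ne_zero_of_mul hn), padicValNat.pow]
    rw [padicValRat_def, padicValInt] at h2
    omega
  generalize (∏ p ∈ (r.num.natAbs * r.den ^ 2).primeFactors,
    p ^ ((r.num.natAbs * r.den ^ 2).factorization p / 3)) = m at h1
  have h2 : (m : ℚ) ^ 3 = |(r.num : ℚ)| * r.den ^ 2 := by
    have := congrArg (Nat.cast : ℕ → ℚ) h1
    simpa using this
  have hd : (r.den : ℚ) ≠ 0 := Nat.cast_ne_zero.mpr r.den_ne_zero
  have h3 := Rat.mul_den_eq_num r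
  rcases abs_cases (r.num : ℚ) with k | k
  · refine ⟨m / r.den, ?_⟩
    rw [div_pow, h2, k.1, ← h3]
    field_simp
  · refine ⟨-m / r.den, ?_⟩
    rw [div_pow, Odd.neg_pow (by decide), h2, k.1, ← h3]
    field_simp

theorem icube_D2 {N : ℤ} {t : ℚ} (h : (N : ℚ) = t ^ 3) : N = t.num ^ 3 := by
  have h1 := congrArg Rat.num h
  rwa [Rat.num_intCast, Rat.num_pow] at h1

theorem d2 : D2Stmt := by
  intro b hb X Y h
  obtain ⟨b0, -, hv⟩ := hb
  suffices H : ∃ (m : ℤ) (g : ℝ), Kq_D2 g ∧ (Y : ℝ) + 12 * b * √69 = ep_D2 ^ m * g ^ 3 by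
    obtain ⟨m, g, hg, e⟩ := H
    obtain ⟨u, v, huv⟩ := Kq_mul_D2 (Kq_ep_D2 ((m + 1) / 3)) hg
    refine ⟨(m + 1) % 3 - 1, u, v, by omega, ?_⟩
    rw [← huv, e, mul_pow, ← mul_assoc, ← zpow_natCast (ep_D2 ^ _), ← zpow_mul,
      show (25 + 3 * √69) / 2 = ep_D2 from rfl, ← zpow_add₀ ep0_D2]
    congr 2
    push_cast
    omega
  obtain ⟨c, B, r, hc, r0, e1, e2⟩ : ∃ (c B : ℤ) (r : ℚ), IsCoprime c B ∧ r ≠ 0 ∧
      b = r * B ∧ Y = 12 * r * (2 * c + B) := by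
    have hd : (((Y - 12 * b) / (24 * b)).den : ℚ) ≠ 0 := Nat.cast_ne_zero.mpr (Rat.den_ne_zero _)
    have h3 := Rat.mul_den_eq_num ((Y - 12 * b) / (24 * b))
    refine ⟨_, _, b / ((Y - 12 * b) / (24 * b)).den,
      Rat.isCoprime_num_den ((Y - 12 * b) / (24 * b)), div_ne_zero b0 hd, ?_, ?_⟩
    · rw [Int.cast_natCast, div_mul_cancel₀ _ hd]
    · rw [Int.cast_natCast, ← h3]
      generalize (((Y - 12 * b) / (24 * b)).den : ℚ) = D at hd
      field_simp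
      ring
  have B0 : (B : ℚ) ≠ 0 := fun k => b0 (by rw [e1, k, mul_zero])
  have hα : (Y : ℝ) + 12 * b * √69 = 24 * r * ph_D2 ⟨c, B⟩ := by
    rw [e1, e2, ph_mk_D2]
    push_cast
    ring
  have hN : (3 * r) ^ 2 * ((c ^ 2 + c * B - 17 * B ^ 2 : ℤ) : ℚ) = (X / 4) ^ 3 := by
    rw [e1, e2, db] at h
    push_cast
    linear_combination h / 64
  have cp : ∀ p : ℕ, p.Prime → (p : ℤ) ∣ c ^ 2 + c * B - 17 * B ^ 2 → ¬ (p : ℤ) ∣ B := by
    intro p hp k1 k2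
    have pp := Nat.prime_iff_prime_int.mp hp
    have k3 : (p : ℤ) ∣ c ^ 2 := by
      rw [show c ^ 2 = c ^ 2 + c * B - 17 * B ^ 2 - (c - 17 * B) * B by ring]
      exact k1.sub (k2.mul_left _)
    exact pp.not_isUnit (hc.isUnit_of_dvd' (pp.dvd_of_dvd_pow k3) k2)
  have N0 : c ^ 2 + c * B - 17 * B ^ 2 ≠ 0 := fun k =>
    cp 7 (by norm_num) (k ▸ dvd_zero _)
      (inert_D2 (by norm_num) ⟨by norm_num, by decide⟩ (k ▸ dvd_zero _))
  have v1 : ∀ p : ℕ, p.Prime → (p : ℤ) ∣ c ^ 2 + c * B - 17 * B ^ 2 →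
      (3 : ℤ) ∣ padicValRat p r := by
    intro p hp k1
    have : Fact p.Prime := ⟨hp⟩
    have k2 : (3 : ℤ) ∣ padicValRat p b := by
      by_contra k
      exact cp p hp k1 (inert_D2 hp (hv p hp k) k1)
    rwa [e1, padicValRat.mul r0 B0, padicValRat.of_int,
      padicValInt.eq_zero_of_not_dvd (cp p hp k1), Nat.cast_zero, add_zero] at k2
  have r3 : 3 * r ≠ 0 := mul_ne_zero three_ne_zero r0
  have v2 : ∀ p : ℕ, p.Prime → ¬ (p : ℤ) ∣ c ^ 2 + c * B - 17 * B ^ 2 →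
      (3 : ℤ) ∣ padicValRat p (3 * r) := by
    intro p hp k1
    have : Fact p.Prime := ⟨hp⟩
    have k2 := congrArg (padicValRat p) hN
    rw [padicValRat.mul (pow_ne_zero 2 r3) (Int.cast_ne_zero.mpr N0), padicValRat.of_int,
      padicValInt.eq_zero_of_not_dvd k1, padicValRat.pow, padicValRat.pow] at k2
    push_cast at k2
    omega
  have v3 : ∀ p : ℕ, p.Prime → p ≠ 3 → padicValRat p (3 * r) = padicValRat p r := by
    intro p hp k
    have : Fact p.Prime := ⟨hp⟩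
    have : Fact (Nat.Prime 3) := ⟨Nat.prime_three⟩
    rw [padicValRat.mul three_ne_zero r0, show (3 : ℚ) = ((3 : ℕ) : ℚ) by norm_num,
      padicValRat.of_nat, padicValNat_primes k, Nat.cast_zero, zero_add]
  by_cases h3 : ((3 : ℕ) : ℤ) ∣ c ^ 2 + c * B - 17 * B ^ 2
  · obtain ⟨s, rfl⟩ := cube_D2 r0 fun p hp => by
      by_cases k : (p : ℤ) ∣ c ^ 2 + c * B - 17 * B ^ 2
      · exact v1 p hp k
      · rw [← v3 p hp fun e => k (e ▸ h3)]
        exact v2 p hp k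
    have s0 : s ≠ 0 := fun k => r0 (by rw [k]; norm_num)
    obtain ⟨k, hk⟩ : (3 : ℤ) ∣ c - B := Int.prime_three.dvd_of_dvd_pow (n := 2) (by
      rw [show (c - B) ^ 2 = c ^ 2 + c * B - 17 * B ^ 2 - 3 * (c * B - 6 * B ^ 2) by ring]
      exact dvd_sub h3 (dvd_mul_right _ _))
    obtain rfl : c = B + 3 * k := by omega
    have q1 : (((5 * k - 4 * B) ^ 2 + (5 * k - 4 * B) * (B - k) - 17 * (B - k) ^ 2 : ℤ) : ℚ) =
        (X / (12 * s ^ 2)) ^ 3 := by
      push_cast at hN ⊢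
      field_simp
      linear_combination 64 * hN
    obtain ⟨i, j, hij⟩ := hc
    obtain ⟨m, g, hg, e⟩ := prim_D2 (c := 5 * k - 4 * B) (B := B - k)
      ⟨4 * i + j, 17 * i + 5 * j, by linear_combination hij⟩ (fun k0 => N0 (by
        have := icube_D2 q1
        rw [k0] at this
        linear_combination 3 * this)) (icube_D2 q1)
    refine ⟨m - 1, 2 * s * ((9 + √69) / 2) * g, Kq_mul_D2 ⟨9 * s, s, by push_cast; ring⟩ hg, ?_⟩
    have q2 : ph_D2 ⟨B + 3 * k, B⟩ = (9 + √69) / 2 * ph_D2 ⟨5 * k - 4 * B, B - k⟩ := by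
      rw [ph_mk_D2, ph_mk_D2]
      push_cast
      linear_combination (-((B : ℝ) - k) / 4) * sq_D2
    have q3 : ep_D2⁻¹ * ((9 + √69) / 2) ^ 2 = 3 := by
      rw [epi_D2]
      linear_combination (-29 / 8 - 3 / 8 * √69) * sq_D2
    rw [hα, q2, e, zpow_sub_one₀ ep0_D2]
    push_cast
    linear_combination (-8 * (s : ℝ) ^ 3 * ((9 + √69) / 2) * ep_D2 ^ m * g ^ 3) * q3
  · obtain ⟨s, hs⟩ := cube_D2 r3 fun p hp => by
      by_cases k : (p : ℤ) ∣ c ^ 2 + c * B - 17 * B ^ 2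
      · rw [v3 p hp fun e => h3 (e ▸ k)]
        exact v1 p hp k
      · exact v2 p hp k
    have s0 : s ≠ 0 := fun k => r3 (by rw [hs, k]; norm_num)
    have q1 : ((c ^ 2 + c * B - 17 * B ^ 2 : ℤ) : ℚ) = (X / (4 * s ^ 2)) ^ 3 := by
      rw [hs] at hN
      field_simp
      linear_combination 64 * hN
    obtain ⟨m, g, hg, e⟩ := prim_D2 hc (fun k0 => N0 (by
      have := icube_D2 q1
      rw [k0] at this
      linear_combination this)) (icube_D2 q1)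
    refine ⟨m, 2 * s * g, Kq_mul_D2 ⟨2 * s, 0, by push_cast; ring⟩ hg, ?_⟩
    have q2 : (3 * r : ℝ) = s ^ 3 := by exact_mod_cast hs
    rw [hα, e]
    linear_combination 8 * ep_D2 ^ m * g ^ 3 * q2

end Pool.Agent.MP_adc87d_lc.Big

end
end

section

/-! Closure properties of existential definitions. -/

set_option autoImplicit false

noncomputable section

namespace Pool.Agent.MP_adc87d_lc.Big

open MvPolynomial

variable {R : Subring ℚ} {ι κ : Type}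

theorem cg_Dio {S T : (ι → ℚ) → Prop} (h : DQ R S) (e : ∀ v, T v ↔ S v) : DQ R T := by
  rwa [show T = S from funext fun v => propext (e v)]

theorem ev_Dio {μ ι' μ' : Type} (f : ι ⊕ μ → ι' ⊕ μ') (P : MvPolynomial (ι ⊕ μ) ℚ) (v : ι → ℚ)
    (a : μ → ℚ) (w : ι' ⊕ μ' → ℚ) (h1 : ∀ i, w (f (.inl i)) = v i) (h2 : ∀ j, w (f (.inr j)) = a j) :
    eval w (rename f P) = eval (Sum.elim v a) P := by
  rw [eval_rename, show w ∘ f = Sum.elim v a from funext fun x => by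
    cases x
    · exact h1 _
    · exact h2 _]

theorem ren_Dio {S : (κ → ℚ) → Prop} (f : κ → ι) (h : DQ R S) : DQ R fun v => S fun j => v (f j) := by
  obtain ⟨μ, hμ, T, P, h⟩ := h
  refine ⟨μ, hμ, T, rename (Sum.map f id) P, fun v => (h _).trans (exists_congr fun a => ?_)⟩
  rw [ev_Dio _ P (fun j => v (f j)) a _ (fun _ => rfl) fun _ => rfl]

theorem pz_Dio (P : MvPolynomial ι ℚ) : DQ R fun v => eval v P = 0 :=
  ⟨Empty, inferInstance, ∅, rename .inl P, fun v => by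
    simp only [eval_rename, Sum.elim_comp_inl, Set.mem_empty_iff_false, false_implies, implies_true,
      true_and, exists_const]⟩

theorem two_Dio {S T : (ι → ℚ) → Prop} (hS : DQ R S) (hT : DQ R T) :
    (DQ R fun v => S v ∧ T v) ∧ DQ R fun v => S v ∨ T v := by
  obtain ⟨μ, hμ, A, P, h⟩ := hS
  obtain ⟨ν, hν, B, Q, h'⟩ := hT
  have e1 : ∀ (v : ι → ℚ) (a : μ ⊕ ν → ℚ), eval (Sum.elim v a) (rename (Sum.map id .inl) P) =
      eval (Sum.elim v fun j => a (.inl j)) P := fun v a =>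
    ev_Dio _ P v _ _ (fun _ => rfl) fun _ => rfl
  have e2 : ∀ (v : ι → ℚ) (a : μ ⊕ ν → ℚ), eval (Sum.elim v a) (rename (Sum.map id .inr) Q) =
      eval (Sum.elim v fun j => a (.inr j)) Q := fun v a =>
    ev_Dio _ Q v _ _ (fun _ => rfl) fun _ => rfl
  have e3 : ∀ (a : μ → ℚ) (b : ν → ℚ), (∀ j ∈ A, a j ∈ R) → (∀ j ∈ B, b j ∈ R) →
      ∀ j ∈ {x : μ ⊕ ν | Sum.elim (· ∈ A) (· ∈ B) x}, Sum.elim a b j ∈ R := fun a b ha hb j hj => by
    cases j
    · exact ha _ hj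
    · exact hb _ hj
  refine ⟨⟨μ ⊕ ν, inferInstance, {x | Sum.elim (· ∈ A) (· ∈ B) x},
    rename (Sum.map id .inl) P ^ 2 + rename (Sum.map id .inr) Q ^ 2, fun v => ?_⟩,
    μ ⊕ ν, inferInstance, {x | Sum.elim (· ∈ A) (· ∈ B) x},
    rename (Sum.map id .inl) P * rename (Sum.map id .inr) Q, fun v => ?_⟩
  · simp only [h, h', map_add, map_pow, e1, e2]
    refine ⟨fun ⟨⟨a, ha, h1⟩, b, hb, h2⟩ => ⟨Sum.elim a b, e3 a b ha hb, ?_⟩, fun ⟨a, ha, h1⟩ => ?_⟩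
    · simp only [Sum.elim_inl, Sum.elim_inr]
      rw [h1, h2]
      norm_num
    · rw [add_eq_zero_iff_of_nonneg (sq_nonneg _) (sq_nonneg _), sq_eq_zero_iff,
        sq_eq_zero_iff] at h1
      exact ⟨⟨_, fun j hj => ha (.inl j) hj, h1.1⟩, _, fun j hj => ha (.inr j) hj, h1.2⟩
  · simp only [h, h', map_mul, e1, e2, mul_eq_zero]
    refine ⟨?_, fun ⟨a, ha, h1⟩ => h1.imp (fun h1 => ⟨_, fun j hj => ha (.inl j) hj, h1⟩)
      fun h1 => ⟨_, fun j hj => ha (.inr j) hj, h1⟩⟩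
    rintro (⟨a, ha, h1⟩ | ⟨a, ha, h1⟩)
    · exact ⟨Sum.elim a 0, e3 a 0 ha fun _ _ => R.zero_mem, .inl h1⟩
    · exact ⟨Sum.elim 0 a, e3 0 a (fun _ _ => R.zero_mem) ha, .inr h1⟩

theorem exs_Dio [Finite κ] (S : (ι → ℚ) → (κ → ℚ) → Prop)
    (h : DQ R fun v : ι ⊕ κ → ℚ => S (fun i => v (.inl i)) fun j => v (.inr j)) :
    DQ R fun v => ∃ w, S v w := by
  obtain ⟨μ, hμ, T, P, h⟩ := h
  have e1 : ∀ (v : ι → ℚ) (a : κ ⊕ μ → ℚ), eval (Sum.elim v a) (rename (Equiv.sumAssoc ι κ μ) P) =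
      eval (Sum.elim (Sum.elim v fun j => a (.inl j)) fun j => a (.inr j)) P := fun v a =>
    ev_Dio _ P _ _ _ (fun i => by cases i <;> rfl) fun _ => rfl
  refine ⟨κ ⊕ μ, inferInstance, {x | Sum.elim (fun _ => False) (· ∈ T) x},
    rename (Equiv.sumAssoc ι κ μ) P, fun v => ⟨fun ⟨w, hw⟩ => ?_, fun ⟨a, ha, h1⟩ => ?_⟩⟩
  · obtain ⟨a, ha, h1⟩ := (h (Sum.elim v w)).1 hw
    refine ⟨Sum.elim w a, fun j hj => ?_, (e1 _ _).trans h1⟩
    cases j
    · exact hj.elim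
    · exact ha _ hj
  · exact ⟨_, (h (Sum.elim v fun j => a (.inl j))).2
      ⟨_, fun j hj => ha (.inr j) hj, (e1 _ _).symm.trans h1⟩⟩

theorem ex_Dio (S : (ι → ℚ) → ℚ → Prop)
    (h : DQ R fun v : Option ι → ℚ => S (fun i => v (some i)) (v none)) :
    DQ R fun v => ∃ t, S v t :=
  cg_Dio (exs_Dio (fun v (w : Unit → ℚ) => S v (w ()))
    (ren_Dio (fun o : Option ι => o.elim (Sum.inr ()) Sum.inl) h))
    fun _ => ⟨fun ⟨t, ht⟩ => ⟨fun _ => t, ht⟩, fun ⟨_, hw⟩ => ⟨_, hw⟩⟩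

theorem all_Dio [Finite κ] {S : κ → (ι → ℚ) → Prop} (h : ∀ j, DQ R (S j)) :
    DQ R fun v => ∀ j, S j v := by
  classical
  have := Fintype.ofFinite κ
  have key : ∀ s : Finset κ, DQ R fun v => ∀ j ∈ s, S j v := fun s => by
    induction s using Finset.induction_on with
    | empty => exact cg_Dio (pz_Dio 0) fun v => by simp
    | insert a s _ ih => exact cg_Dio (two_Dio (h a) ih).1 fun v => Finset.forall_mem_insert _ _ _
  exact cg_Dio (key Finset.univ) fun v => by simp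

theorem comp_Dio [Finite κ] {S : (κ → ℚ) → Prop} {F : κ → (ι → ℚ) → ℚ} (h : DQ R S)
    (hF : ∀ j, DF R (F j)) : DQ R fun v => S fun j => F j v :=
  cg_Dio (exs_Dio (fun v w => S w ∧ ∀ j, w j = F j v) (two_Dio (ren_Dio Sum.inr h) (all_Dio fun j =>
    ren_Dio (fun o : Option ι => o.elim (Sum.inr j) Sum.inl) (hF j))).1)
    fun _ => ⟨fun h => ⟨_, h, fun _ => rfl⟩, fun ⟨_, h1, h2⟩ => funext h2 ▸ h1⟩

theorem pf_Dio (P : MvPolynomial ι ℚ) : DF R fun v => eval v P :=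
  cg_Dio (pz_Dio (X none - rename some P)) fun v => by
    rw [map_sub, eval_X, eval_rename, sub_eq_zero]
    rfl

theorem const_Dio (c : ℚ) : DF R fun _ : ι → ℚ => c := by simpa using pf_Dio (ι := ι) (C c)

theorem proj_Dio (i : ι) : DF R fun v : ι → ℚ => v i := by simpa using pf_Dio (X i)

variable {F G : (ι → ℚ) → ℚ}

theorem up_Dio (h : DF R F) : DF R fun v : Option ι → ℚ => F fun i => v (some i) :=
  ren_Dio (Option.map some) h

theorem rel_Dio (r : ℚ → ℚ → Prop) (h : DQ R fun v : Bool → ℚ => r (v true) (v false))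
    (hF : DF R F) (hG : DF R G) : DQ R fun v => r (F v) (G v) :=
  comp_Dio (F := fun b => bif b then F else G) h fun b => by cases b <;> assumption

theorem fn_Dio (g : ℚ → ℚ → ℚ) (P : MvPolynomial Bool ℚ)
    (h : ∀ v, eval v P = g (v true) (v false)) (hF : DF R F) (hG : DF R G) :
    DF R fun v => g (F v) (G v) :=
  cg_Dio (comp_Dio (F := fun (o : Option Bool) (v : Option ι → ℚ) => o.elim (v none)
    fun b => bif b then F fun i => v (some i) else G fun i => v (some i)) (pf_Dio P) fun o => by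
      rcases o with _ | _ | _
      exacts [proj_Dio none, up_Dio hG, up_Dio hF]) fun _ => by
    simp only [h]
    rfl

theorem add_Dio (hF : DF R F) (hG : DF R G) : DF R fun v => F v + G v :=
  fn_Dio (· + ·) (X true + X false) (by simp) hF hG

theorem sub_Dio (hF : DF R F) (hG : DF R G) : DF R fun v => F v - G v :=
  fn_Dio (· - ·) (X true - X false) (by simp) hF hG

theorem mul_Dio (hF : DF R F) (hG : DF R G) : DF R fun v => F v * G v :=
  fn_Dio (· * ·) (X true * X false) (by simp) hF hG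

theorem eq_Dio (hF : DF R F) (hG : DF R G) : DQ R fun v => F v = G v :=
  rel_Dio (· = ·) (cg_Dio (pz_Dio (X true - X false)) fun v => by simp [sub_eq_zero]) hF hG

theorem ne_Dio (hF : DF R F) (hG : DF R G) : DQ R fun v => F v ≠ G v :=
  cg_Dio (ex_Dio (fun v t => (F v - G v) * t = 1) (eq_Dio
    (mul_Dio (sub_Dio (up_Dio hF) (up_Dio hG)) (proj_Dio none)) (const_Dio 1))) fun v =>
    ⟨fun h => ⟨_, mul_inv_cancel₀ (sub_ne_zero.2 h)⟩, fun ⟨t, ht⟩ h => by simp [h] at ht⟩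

theorem sq_Dio {x : ℚ} (h : 0 ≤ x) : ∃ w : Fin 4 → ℚ, x = ∑ j, w j ^ 2 := by
  obtain ⟨a, b, c, d, e⟩ := Nat.sum_four_squares (x.num.natAbs * x.den)
  have h1 : ((x.num.natAbs : ℕ) : ℚ) = x * x.den := by
    rw [Rat.mul_den_eq_num, Nat.cast_natAbs, abs_of_nonneg (Rat.num_nonneg.2 h)]
  have h2 : (x.den : ℚ) ≠ 0 := Nat.cast_ne_zero.2 x.den_nz
  have h3 := congrArg (Nat.cast (R := ℚ)) e
  push_cast at h3
  rw [h1] at h3
  refine ⟨![a / x.den, b / x.den, c / x.den, d / x.den], ?_⟩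
  simp only [Fin.sum_univ_four, Matrix.cons_val]
  field_simp
  linarith

theorem le_Dio (hF : DF R F) (hG : DF R G) : DQ R fun v => F v ≤ G v :=
  rel_Dio (· ≤ ·) (cg_Dio (exs_Dio (fun v (w : Fin 4 → ℚ) => v false - v true = ∑ j, w j ^ 2)
    (cg_Dio (pz_Dio (X (.inl false) - X (.inl true) - ∑ j, X (.inr j) ^ 2)) fun v => by
      simp [sub_eq_zero])) fun v => ⟨fun h => sq_Dio (sub_nonneg.2 h), fun ⟨w, hw⟩ =>
        sub_nonneg.1 (hw ▸ Finset.sum_nonneg fun _ _ => sq_nonneg _)⟩) hF hG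

theorem mem_Dio (hF : DF R F) : DQ R fun v => F v ∈ R :=
  rel_Dio (fun x _ => x ∈ R) ⟨Unit, inferInstance, Set.univ, X (.inl true) - X (.inr ()), fun v =>
    ⟨fun h => ⟨fun _ => v true, fun _ _ => h, by simp⟩, fun ⟨a, ha, h⟩ => by
      rw [map_sub, eval_X, eval_X, sub_eq_zero] at h
      exact (show v true = a () from h) ▸ ha () trivial⟩⟩ hF hF

theorem inv_Dio (hF : DF R F) : DF R fun v => (F v)⁻¹ :=
  cg_Dio (two_Dio (two_Dio (eq_Dio (up_Dio hF) (const_Dio 0))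
    (eq_Dio (proj_Dio none) (const_Dio 0))).1
    (eq_Dio (mul_Dio (proj_Dio none) (up_Dio hF)) (const_Dio 1))).2 fun v => by
    by_cases h : (F fun i => v (some i)) = 0
    · simp [h]
    · simp [h, mul_eq_one_iff_eq_inv₀ h]

theorem dio : DioStmt := fun R =>
  { and := fun h h' => (two_Dio h h').1
    or := fun h h' => (two_Dio h h').2
    ex := ex_Dio
    exs := exs_Dio
    comp := comp_Dio
    eq := eq_Dio
    ne := ne_Dio
    le := le_Dio
    mem := mem_Dio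
    const := const_Dio
    proj := proj_Dio
    add := add_Dio
    sub := sub_Dio
    mul := mul_Dio
    div := fun h h' => by simpa only [div_eq_mul_inv] using mul_Dio h (inv_Dio h')
    neg := fun h => by simpa only [zero_sub] using sub_Dio (const_Dio 0) h
    inv := inv_Dio
    pow := fun n h => by
      induction n with
      | zero => simpa only [pow_zero] using const_Dio 1
      | succ n ih => simpa only [pow_succ] using mul_Dio ih h
    poly := fun P _ h => by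
      induction P using MvPolynomial.induction_on with
      | C a => simpa only [eval_C] using const_Dio a
      | add p q hp hq => simpa only [map_add] using add_Dio hp hq
      | mul_X p j hp => simpa only [map_mul, eval_X] using mul_Dio hp (h j)
    poly1 := fun P _ h => by
      induction P using Polynomial.recOnHorner with
      | M0 => simpa only [Polynomial.eval_zero] using const_Dio 0
      | MC p a _ _ hp =>
        simpa only [Polynomial.eval_add, Polynomial.eval_C] using add_Dio hp (const_Dio a)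
      | MX p _ hp => simpa only [Polynomial.eval_mul_X] using mul_Dio hp h
    ite := fun hF hG hA hB => cg_Dio (two_Dio
      (two_Dio (eq_Dio (up_Dio hF) (up_Dio hG)) (eq_Dio (proj_Dio none) (up_Dio hA))).1
      (two_Dio (ne_Dio (up_Dio hF) (up_Dio hG)) (eq_Dio (proj_Dio none) (up_Dio hB))).1).2
      fun v => by
        dsimp only
        split_ifs with h <;> simp [h] }

end Pool.Agent.MP_adc87d_lc.Big

end
end
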