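import Mathlib
import Pool.Agent.Mg.Fadc87d.G0908ea

set_option linter.all false

section

/-! The logarithmic derivative of the Dirichlet series of a character. -/

set_option autoImplicit false

noncomputable section

open Finset
open scoped Classical

namespace Pool.Agent.MP_adc87d_lc.Big

open Pool.Agent.MP_2a1f0e_nt (ex)

/-- absolute norm -/
def NA_CConv : O →* ℕ where
  toFun x := (Nm x).natAbs
  map_one' := by simp [Nm_one]
  map_mul' x y := by rw [Nm_mul, Int.natAbs_mul]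

theorem NA_apply_CConv (x : O) : NA_CConv x = (Nm x).natAbs := rfl

theorem NA_ne_CConv {x : O} (hx : x ≠ 0) : NA_CConv x ≠ 0 := fun h =>
  hx (Nm_eq_zero (Int.natAbs_eq_zero.1 h))

theorem NA_assoc_CConv {x y : O} (h : Associated x y) : NA_CConv x = NA_CConv y :=
  Nat.dvd_antisymm (map_dvd NA_CConv h.dvd) (map_dvd NA_CConv h.symm.dvd)

theorem dvd_NA_CConv (x : O) : x ∣ (NA_CConv x : O) := by
  have h := dvd_Nm x
  rw [NA_apply_CConv]
  rcases Int.natAbs_eq (Nm x) with e | e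
  · rw [e, Int.cast_natCast] at h
    exact h
  · rw [e, Int.cast_neg, Int.cast_natCast, dvd_neg] at h
    exact h

theorem NA_prime_CConv {x : O} (hx : Prime x) : 1 < NA_CConv x := by
  have h0 := NA_ne_CConv hx.ne_zero
  have h1 : NA_CConv x ≠ 1 := fun e => by
    have := dvd_NA_CConv x
    rw [e, Nat.cast_one] at this
    exact hx.not_isUnit (isUnit_of_dvd_one this)
  omega

theorem NA_nat_CConv (p : ℕ) : NA_CConv (p : O) = p ^ 3 := by
  rw [NA_apply_CConv, Nm_nat, Int.natAbs_pow, Int.natAbs_natCast]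

theorem NA_Dn_CConv {s : ℝ} {n : ℕ} {x : O} (h : x ∈ Dn s n) : NA_CConv x = n := by
  rw [NA_apply_CConv, (mem_Dn.1 h).2, Int.natAbs_natCast]

theorem mem_Dn_NA_CConv {s : ℝ} {x : O} (h : Dm s x) : x ∈ Dn s (NA_CConv x) := by
  refine mem_Dn.2 ⟨h, ?_⟩
  rw [NA_apply_CConv, Int.natAbs_of_nonneg (Nm_pos h.1).le]

/-- prime powers up to units -/
def PP_CConv (g π : O) : Prop := Prime π ∧ ∃ j : ℕ, Associated g (π ^ (j + 1))

/-- the von Mangoldt weight of the ring -/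
def Lam_CConv (g : O) : ℝ :=
  if h : ∃ π, PP_CConv g π then Real.log (NA_CConv h.choose) else 0

theorem PP_uniq_CConv {g π ρ : O} (a : PP_CConv g π) (b : PP_CConv g ρ) : Associated π ρ := by
  obtain ⟨pa, j, ha⟩ := a
  obtain ⟨pb, k, hb⟩ := b
  refine pa.associated_of_dvd pb (pa.dvd_of_dvd_pow (n := k + 1) ?_)
  exact ((dvd_pow_self π (Nat.succ_ne_zero j)).trans ha.symm.dvd).trans hb.dvd

theorem Lam_eq_CConv {g π : O} (a : PP_CConv g π) : Lam_CConv g = Real.log (NA_CConv π) := by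
  have h : ∃ π, PP_CConv g π := ⟨π, a⟩
  rw [Lam_CConv, dif_pos h, NA_assoc_CConv (PP_uniq_CConv h.choose_spec a)]

theorem Lam_ne_CConv {g : O} (h : Lam_CConv g ≠ 0) : ∃ π, PP_CConv g π := by
  by_contra hc
  exact h (by rw [Lam_CConv, dif_neg hc])

theorem Lam_nonneg_CConv (g : O) : 0 ≤ Lam_CConv g := by
  by_cases h : ∃ π, PP_CConv g π
  · rw [Lam_CConv, dif_pos h]
    exact Real.log_natCast_nonneg _
  · rw [Lam_CConv, dif_neg h]

theorem rep_CConv (h1 : AlgStmt) {x : O} (hx : x ≠ 0) : ∃ g, Dm 0 g ∧ Associated g x := by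
  obtain ⟨-, -, -, -, h, -⟩ := h1
  rcases lt_or_gt_of_ne (xr_ne hx) with a | a
  · obtain ⟨n, hn⟩ := h 0 (-x) (by rw [map_neg]; linarith)
    exact ⟨_, hn, ((associated_unit_mul_left _ _ (tU ^ n).isUnit)).trans (Associated.neg_left (.refl x))⟩
  · obtain ⟨n, hn⟩ := h 0 x a
    exact ⟨_, hn, associated_unit_mul_left _ _ (tU ^ n).isUnit⟩

/-- normalised divisors -/
def Dv_CConv (x : O) : Finset O :=
  (NA_CConv x).divisors.biUnion fun d => (Dn 0 d).filter fun g => g ∣ x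

theorem mem_Dv_CConv {x g : O} (hx : x ≠ 0) : g ∈ Dv_CConv x ↔ Dm 0 g ∧ g ∣ x := by
  simp only [Dv_CConv, mem_biUnion, mem_filter, Nat.mem_divisors]
  constructor
  · rintro ⟨d, -, a, b⟩
    exact ⟨(mem_Dn.1 a).1, b⟩
  · rintro ⟨a, b⟩
    exact ⟨_, ⟨map_dvd NA_CConv b, NA_ne_CConv hx⟩, mem_Dn_NA_CConv a, b⟩

theorem sum_Dv_CConv (h1 : AlgStmt) (x : O) :
    x ≠ 0 → ∑ g ∈ Dv_CConv x, Lam_CConv g = Real.log (NA_CConv x) := by
  have : IsPrincipalIdealRing O := h1.1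
  refine UniqueFactorizationMonoid.induction_on_prime
    (P := fun x => x ≠ 0 → ∑ g ∈ Dv_CConv x, Lam_CConv g = Real.log (NA_CConv x)) x
    (fun h => absurd rfl h) (fun u hu h0 => ?_) (fun y π hy hπ ih h0 => ?_)
  · rw [NA_assoc_CConv (associated_one_iff_isUnit.2 hu), map_one, Nat.cast_one, Real.log_one]
    refine sum_eq_zero fun g hg => ?_
    by_contra hc
    obtain ⟨ρ, hρ, j, hj⟩ := Lam_ne_CConv hc
    exact hρ.not_isUnit (isUnit_of_dvd_unit (((dvd_pow_self ρ (Nat.succ_ne_zero j)).trans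
      hj.symm.dvd).trans ((mem_Dv_CConv h0).1 hg).2) hu)
  · obtain ⟨k, z, hz, rfl⟩ := WfDvdMonoid.max_power_factor hy hπ.irreducible
    obtain ⟨g₀, a₀, b₀⟩ := rep_CConv h1 (pow_ne_zero (k + 1) hπ.ne_zero)
    have e : π * (π ^ k * z) = π ^ (k + 1) * z := by ring
    have nd : ∀ i : ℕ, ¬π ^ (i + 1) ∣ π ^ i * z := fun i h => by
      rw [pow_succ] at h
      exact hz ((mul_dvd_mul_iff_left (pow_ne_zero i hπ.ne_zero)).1 h)
    have n₀ : g₀ ∉ Dv_CConv (π ^ k * z) := fun h =>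
      nd k (b₀.symm.dvd.trans ((mem_Dv_CConv hy).1 h).2)
    have p1 : (NA_CConv π : ℝ) ≠ 0 := by exact_mod_cast NA_ne_CConv hπ.ne_zero
    have p2 : (NA_CConv (π ^ k * z) : ℝ) ≠ 0 := by exact_mod_cast NA_ne_CConv hy
    rw [map_mul, Nat.cast_mul, Real.log_mul p1 p2, ← ih hy,
      ← Lam_eq_CConv (g := g₀) ⟨hπ, k, b₀⟩, ← sum_insert n₀]
    symm
    refine sum_subset (fun g hg => ?_) (fun g hg hn => ?_)
    · rw [mem_Dv_CConv h0]
      rcases mem_insert.1 hg with rfl | hg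
      · exact ⟨a₀, by rw [e]; exact b₀.dvd.mul_right z⟩
      · rw [mem_Dv_CConv hy] at hg
        exact ⟨hg.1, hg.2.mul_left π⟩
    · by_contra hc
      obtain ⟨ρ, hρ, j, hj⟩ := Lam_ne_CConv hc
      rw [mem_Dv_CConv h0] at hg
      rw [mem_insert, not_or, mem_Dv_CConv hy] at hn
      have d1 : ρ ^ (j + 1) ∣ π * (π ^ k * z) := hj.symm.dvd.trans hg.2
      have d2 : ¬ρ ^ (j + 1) ∣ π ^ k * z := fun h => hn.2 ⟨hg.1, hj.dvd.trans h⟩
      have d3 : ρ ∣ π := by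
        by_contra h
        exact d2 (hρ.pow_dvd_of_dvd_mul_left _ h d1)
      have as : Associated (ρ ^ (j + 1)) (π ^ (j + 1)) := (hρ.associated_of_dvd hπ d3).pow_pow
      have d4 : π ^ (j + 1) ∣ π ^ (k + 1) * z := by rw [← e]; exact as.symm.dvd.trans d1
      have d5 : ¬π ^ (j + 1) ∣ π ^ k * z := fun h => d2 (as.dvd.trans h)
      have jk : j = k := by
        rcases lt_trichotomy j k with h | h | h
        · exact absurd ((pow_dvd_pow π (by omega)).mul_right z) d5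
        · exact h
        · exact absurd ((pow_dvd_pow π (by omega)).trans d4) (nd (k + 1))
      subst jk
      exact hn.1 (h1.2.2.2.1 0 g g₀ hg.1 a₀ ((hj.trans as).trans b₀.symm))

theorem exists_p_CConv {π : O} (hπ : Prime π) : ∃ p : ℕ, p.Prime ∧ π ∣ (p : O) := by
  have key : ∀ n : ℕ, n ≠ 0 → π ∣ (n : O) → ∃ p : ℕ, p.Prime ∧ π ∣ (p : O) := by
    intro n
    induction n using induction_on_primes with
    | zero => exact fun h => absurd rfl h
    | one => exact fun _ h => absurd (isUnit_of_dvd_one (by simpa using h)) hπ.not_isUnit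
    | prime_mul p a hp ih =>
      intro h0 h
      rw [Nat.cast_mul] at h
      rcases hπ.dvd_or_dvd h with h | h
      · exact ⟨p, hp, h⟩
      · exact ih (fun e => h0 (by rw [e, mul_zero])) h
  exact key _ (NA_ne_CConv hπ.ne_zero) (dvd_NA_CConv π)

theorem PP_p_CConv {n : ℕ} {g π : O} (hg : g ∈ Dn 0 n) (a : PP_CConv g π) :
    π ∣ (n.minFac : O) ∧ n.minFac ≠ 0 ∧
      ArithmeticFunction.vonMangoldt n = Real.log n.minFac := by
  obtain ⟨hπ, j, hj⟩ := a
  obtain ⟨p, hp, d⟩ := exists_p_CConv hπ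
  have d' := map_dvd NA_CConv d
  rw [NA_nat_CConv, Nat.dvd_prime_pow hp] at d'
  obtain ⟨i, -, hi⟩ := d'
  have i0 : i ≠ 0 := by
    rintro rfl
    have := NA_prime_CConv hπ
    rw [hi] at this
    simp at this
  have e : n = p ^ (i * (j + 1)) := by
    rw [← NA_Dn_CConv hg, NA_assoc_CConv hj, map_pow, hi, pow_mul]
  have m0 : i * (j + 1) ≠ 0 := mul_ne_zero i0 (Nat.succ_ne_zero j)
  have mf : n.minFac = p := by rw [e, Nat.pow_minFac m0, hp.minFac_eq]
  rw [mf]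
  refine ⟨d, hp.ne_zero, ?_⟩
  rw [e, ArithmeticFunction.vonMangoldt_apply_pow m0, ArithmeticFunction.vonMangoldt_apply_prime hp]

theorem sum_Lam_CConv (h1 : AlgStmt) (n : ℕ) :
    ∑ g ∈ Dn 0 n, Lam_CConv g ≤ 3 * ArithmeticFunction.vonMangoldt n := by
  have : IsPrincipalIdealRing O := h1.1
  rw [← sum_filter_ne_zero]
  set S := (Dn 0 n).filter fun g => Lam_CConv g ≠ 0 with hS
  rcases S.eq_empty_or_nonempty with h | ⟨g₁, hg₁⟩
  · rw [h, sum_empty]
    exact mul_nonneg (by norm_num) ArithmeticFunction.vonMangoldt_nonneg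
  have ex : ∀ g : O, ∃ π, g ∈ S → PP_CConv g π := fun g => by
    by_cases h : g ∈ S
    · obtain ⟨π, hπ⟩ := Lam_ne_CConv (mem_filter.1 h).2
      exact ⟨π, fun _ => hπ⟩
    · exact ⟨0, fun h' => absurd h' h⟩
  choose P hP using ex
  obtain ⟨-, m0, vm⟩ := PP_p_CConv (mem_filter.1 hg₁).1 (hP g₁ hg₁)
  have dv : ∏ g ∈ S, P g ∣ (n.minFac : O) := by
    refine Finset.prod_dvd_of_coprime (fun g hg g' hg' hne => ?_)
      fun g hg => (PP_p_CConv (mem_filter.1 hg).1 (hP g hg)).1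
    obtain ⟨p1, j, hj⟩ := hP g hg
    obtain ⟨p2, k, hk⟩ := hP g' hg'
    have m1 := (mem_filter.1 (mem_coe.1 hg)).1
    have m2 := (mem_filter.1 (mem_coe.1 hg')).1
    refine p1.coprime_iff_not_dvd.2 fun d => hne ?_
    have as := p1.associated_of_dvd p2 d
    have e : NA_CConv (P g) ^ (j + 1) = NA_CConv (P g) ^ (k + 1) := by
      rw [← map_pow, ← NA_assoc_CConv hj, NA_Dn_CConv m1, NA_assoc_CConv as, ← map_pow,
        ← NA_assoc_CConv hk, NA_Dn_CConv m2]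
    have jk : j + 1 = k + 1 := Nat.pow_right_injective (NA_prime_CConv p1) e
    rw [jk] at hj
    exact h1.2.2.2.1 0 g g' (mem_Dn.1 m1).1 (mem_Dn.1 m2).1 ((hj.trans as.pow_pow).trans hk.symm)
  have d' := map_dvd NA_CConv dv
  rw [NA_nat_CConv, map_prod] at d'
  have le := Nat.le_of_dvd (pow_pos (Nat.pos_of_ne_zero m0) 3) d'
  have ne : ∀ g ∈ S, (NA_CConv (P g) : ℝ) ≠ 0 := fun g hg => by
    exact_mod_cast NA_ne_CConv (hP g hg).1.ne_zero
  rw [sum_congr rfl fun g hg => Lam_eq_CConv (hP g hg), ← Real.log_prod ne, vm]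
  have e3 : 3 * Real.log n.minFac = Real.log ((n.minFac : ℝ) ^ 3) := by
    rw [Real.log_pow]; norm_num
  rw [e3]
  refine Real.log_le_log (prod_pos fun g hg => lt_of_le_of_ne (Nat.cast_nonneg _) (ne g hg).symm) ?_
  exact_mod_cast le

theorem sum_mult_CConv (h1 : AlgStmt) (h2 : ChStmt) (Ψ : Chr) (hΨ : Ψ.Is) {d e : ℕ} {g : O}
    (hg : g ∈ Dn 0 d) :
    ∑ x ∈ (Dn 0 (d * e)).filter fun x => g ∣ x, Ψ.val x = Ψ.val g * Ψ.a e := by
  obtain ⟨vm, -, -, vu, -⟩ := h2.2.2.2.2.2.1 Ψ hΨ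
  obtain ⟨⟨g1, -, -⟩, g2⟩ := mem_Dn.1 hg
  have g0 := ne_of_xr_pos g1
  have t0 : tO ≠ 0 := tU.ne_zero
  have vt : Ψ.val tO = 1 := by simpa [tU_val] using vu 1
  rw [Chr.a, ← h1.2.2.2.2.2.2.2 (-eta g) e Ψ.val fun x hx => by
    rw [vm _ _ t0 (ne_of_xr_pos hx), vt, one_mul], mul_sum]
  symm
  refine sum_bij (fun y _ => g * y) (fun y hy => ?_) (fun y _ y' _ h => mul_left_cancel₀ g0 h)
    (fun x hx => ?_) fun y hy => (vm _ _ g0 (ne_of_xr_pos (mem_Dn.1 hy).1.1)).symm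
  · obtain ⟨⟨a, b, c⟩, f⟩ := mem_Dn.1 hy
    refine mem_filter.2 ⟨mem_Dn.2 ⟨⟨?_, ?_, ?_⟩, ?_⟩, dvd_mul_right g y⟩
    · rw [map_mul]; exact mul_pos g1 a
    · rw [eta_mul g0 (ne_of_xr_pos a)]; linarith
    · rw [eta_mul g0 (ne_of_xr_pos a)]; linarith
    · rw [Nm_mul, g2, f, Nat.cast_mul]
  · obtain ⟨hx, y, rfl⟩ := mem_filter.1 hx
    obtain ⟨⟨a, b, c⟩, f⟩ := mem_Dn.1 hx
    rw [map_mul] at a
    have a' : 0 < xr y := (mul_pos_iff_of_pos_left g1).1 a
    rw [eta_mul g0 (ne_of_xr_pos a')] at b c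
    rw [Nm_mul, g2, Nat.cast_mul] at f
    have d0 : (d : ℤ) ≠ 0 := by rw [← g2]; exact (Nm_pos g1).ne'
    exact ⟨y, mem_Dn.2 ⟨⟨a', by linarith, by linarith⟩, mul_left_cancel₀ d0 f⟩, rfl⟩

theorem cconv (h1 : AlgStmt) (h2 : ChStmt) : ConvO := by
  intro Ψ hΨ
  refine ⟨fun n => ∑ g ∈ Dn 0 n, (Lam_CConv g : ℂ) * Ψ.val g, fun n => ?_, fun n hn => ?_⟩
  · refine ((norm_sum_le _ _).trans (sum_le_sum fun g _ => ?_)).trans (sum_Lam_CConv h1 n)
    rw [norm_mul, Complex.norm_real, Real.norm_of_nonneg (Lam_nonneg_CConv g)]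
    exact mul_le_of_le_one_right (Lam_nonneg_CConv g) ((h2.2.2.2.2.2.1 Ψ hΨ).2.1 g)
  · rw [Nat.sum_divisorsAntidiagonal
      (fun d e => (∑ g ∈ Dn 0 d, (Lam_CConv g : ℂ) * Ψ.val g) * Ψ.a e)]
    have l : Ψ.a n * Real.log n = ∑ x ∈ Dn 0 n, ∑ d ∈ n.divisors, ∑ g ∈ Dn 0 d,
        if g ∣ x then (Lam_CConv g : ℂ) * Ψ.val x else 0 := by
      rw [Chr.a, sum_mul]
      refine sum_congr rfl fun x hx => ?_
      have s := sum_Dv_CConv h1 x (ne_of_xr_pos (mem_Dn.1 hx).1.1)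
      rw [Dv_CConv, NA_Dn_CConv hx, sum_biUnion] at s
      · rw [← s, Complex.ofReal_sum, mul_sum]
        refine sum_congr rfl fun d _ => ?_
        rw [Complex.ofReal_sum, mul_sum, sum_filter]
        refine sum_congr rfl fun g _ => ?_
        rw [mul_comm]
      · intro d _ d' _ hne
        refine disjoint_left.2 fun g a b => hne ?_
        rw [← NA_Dn_CConv (mem_filter.1 a).1, NA_Dn_CConv (mem_filter.1 b).1]
    rw [l, sum_comm]
    refine sum_congr rfl fun d hd => ?_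
    rw [sum_comm, sum_mul]
    refine sum_congr rfl fun g hg => ?_
    have s := sum_mult_CConv h1 h2 Ψ hΨ (e := n / d) hg
    rw [Nat.mul_div_cancel' (Nat.dvd_of_mem_divisors hd)] at s
    rw [mul_assoc, ← s, mul_sum, sum_filter]

end Pool.Agent.MP_adc87d_lc.Big

end
end

section

/-! Finite Fourier expansion of functions on projective space modulo M. -/

set_option autoImplicit false

noncomputable section

open Finset
open scoped Classical

namespace Pool.Agent.MP_adc87d_lc.Big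

open Pool.Agent.MP_2a1f0e_nt (ex)

theorem norm_CFour {A : Type} [CommMonoid A] [Finite A] (χ : MulChar A ℂ) (a : Aˣ) :
    ‖χ a‖ = 1 := by
  refine (pow_eq_one_iff_of_nonneg (norm_nonneg _) (Nat.card_pos (α := Aˣ)).ne').mp ?_
  rw [← norm_pow, ← map_pow, ← Units.val_pow_eq_pow_val, pow_card_eq_one', Units.val_one, map_one,
    norm_one]

theorem orth_CFour {A : Type} [CommMonoid A] [Finite A] [Fintype (MulChar A ℂ)] (a : Aˣ) :
    ∑ χ : MulChar A ℂ, χ a = if a = 1 then (Nat.card Aˣ : ℂ) else 0 := by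
  split_ifs with ha
  · simp only [ha, Units.val_one, map_one, sum_const, card_univ, nsmul_eq_mul, mul_one,
      ← Nat.card_eq_fintype_card]
    rw [MulChar.card_eq_card_units_of_hasEnoughRootsOfUnity]
  · obtain ⟨χ, hχ⟩ := MulChar.exists_apply_ne_one_of_hasEnoughRootsOfUnity A ℂ
      (a := a) (by rwa [Ne, Units.val_eq_one])
    refine eq_zero_of_mul_eq_self_left hχ ?_
    simp only [mul_sum, ← MulChar.mul_apply]
    exact Fintype.sum_bijective _ (Group.mulLeft_bijective χ) _ _ fun χ' => rfl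

theorem fourier_CFour {A : Type} [CommMonoid A] [Finite A] [Fintype (MulChar A ℂ)] (t : A → ℂ)
    (ht : ∀ x, ‖t x‖ ≤ 1) : ∃ c : MulChar A ℂ → ℂ, (∀ χ, ‖c χ‖ ≤ 1) ∧
      (∀ (χ : MulChar A ℂ) (n : Aˣ), (∀ x, t (n * x) = t x) → χ n ≠ 1 → c χ = 0) ∧
      ∀ x : Aˣ, t x = ∑ χ, c χ * χ x := by
  have : Fintype Aˣ := Fintype.ofFinite _
  have h0 : 0 < Nat.card Aˣ := Nat.card_pos
  have h0' : (Nat.card Aˣ : ℂ) ≠ 0 := by exact_mod_cast h0.ne'
  refine ⟨fun χ => (∑ u : Aˣ, t u * χ (u⁻¹ : Aˣ)) / (Nat.card Aˣ : ℂ), fun χ => ?_,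
    fun χ n hn hχ => ?_, fun x => ?_⟩
  · rw [norm_div, Complex.norm_natCast, div_le_one (by exact_mod_cast h0)]
    refine (norm_sum_le_of_le _ (n := fun _ => (1 : ℝ)) fun u _ => ?_).trans ?_
    · rw [norm_mul, norm_CFour, mul_one]
      exact ht _
    · simp
  · have : ∑ u : Aˣ, t u * χ (u⁻¹ : Aˣ) = 0 := by
      refine eq_zero_of_mul_eq_self_left hχ ?_
      rw [mul_sum]
      refine (Fintype.sum_bijective _ (Group.mulLeft_bijective n) _ _ fun u => ?_).symm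
      rw [Units.val_mul, hn, mul_left_comm, ← map_mul, ← Units.val_mul, mul_inv,
        mul_inv_cancel_left]
    simp only [this, zero_div]
  · simp only [div_mul_eq_mul_div, ← sum_div, sum_mul]
    rw [sum_comm, eq_div_iff h0']
    simp only [mul_assoc, ← map_mul, ← mul_sum, ← Units.val_mul, orth_CFour, inv_mul_eq_one,
      mul_ite, mul_zero, sum_ite_eq', mem_univ, if_true]

theorem unit_CFour (M : ℕ) (x : O) :
    IsUnit (Ideal.Quotient.mk (Ideal.span {(M : O)}) x) ↔ IsCoprime (Nm x) M := by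
  constructor
  · intro h
    obtain ⟨y, hy⟩ := h.exists_right_inv
    obtain ⟨y, rfl⟩ := Ideal.Quotient.mk_surjective y
    rw [← map_mul, ← map_one (Ideal.Quotient.mk _), Ideal.Quotient.eq,
      Ideal.mem_span_singleton, ← Int.cast_natCast] at hy
    have h1 := Nm_modEq hy
    rw [Nm_mul, Nm_one] at h1
    obtain ⟨k, hk⟩ := h1.dvd
    exact ⟨Nm y, k, by linear_combination -hk⟩
  · rintro ⟨a, b, h⟩
    obtain ⟨y, hy⟩ := dvd_Nm x
    refine IsUnit.of_mul_eq_one (Ideal.Quotient.mk _ (y * a)) ?_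
    rw [← map_mul, ← map_one (Ideal.Quotient.mk _), Ideal.Quotient.eq, Ideal.mem_span_singleton]
    have h' : (a : O) * (Nm x : O) + (b : O) * (M : O) = 1 := by
      exact_mod_cast congrArg (Int.cast : ℤ → O) h
    exact ⟨-b, by linear_combination h' - (a : O) * hy⟩

theorem surj_CFour {M : ℕ} (hM : 1 ≤ M) : Function.Surjective
    fun v : Fin M × Fin M × Fin M => Ideal.Quotient.mk (Ideal.span {(M : O)})
      ⟨(v.1 : ℕ), (v.2.1 : ℕ), (v.2.2 : ℕ)⟩ := by
  have key : ∀ a : ℤ, ∃ i : Fin M, (M : ℤ) ∣ ((i : ℕ) : ℤ) - a := fun a => by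
    have h0 : (0 : ℤ) < M := by exact_mod_cast hM
    have h1 := Int.emod_nonneg a h0.ne'
    have h2 := Int.emod_lt_of_pos a h0
    refine ⟨⟨(a % M).toNat, by omega⟩, ?_⟩
    simp only [Int.toNat_of_nonneg h1]
    exact (Int.mod_modEq a M).symm.dvd
  intro y
  obtain ⟨x, rfl⟩ := Ideal.Quotient.mk_surjective y
  obtain ⟨i, hi⟩ := key x.a
  obtain ⟨j, hj⟩ := key x.b
  obtain ⟨k, hk⟩ := key x.c
  refine ⟨(i, j, k), ?_⟩
  simp only
  rw [Ideal.Quotient.eq, Ideal.mem_span_singleton, O.natCast_dvd]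
  simpa using ⟨hi, hj, hk⟩

theorem isFin_CFour {M : ℕ} (hM : 1 ≤ M) (χ : MulChar (O ⧸ Ideal.span {(M : O)}) ℂ) :
    IsFin M fun x => χ (Ideal.Quotient.mk _ x) := by
  have := Finite.of_surjective _ (surj_CFour hM)
  refine ⟨hM, fun x y => by simp only [map_mul], by simp only [map_one], fun x y h => ?_,
    fun x h => ?_, fun x h => χ.map_nonunit fun h' => h ((unit_CFour M x).1 h')⟩
  · rw [Ideal.Quotient.eq.2 (Ideal.mem_span_singleton.2 h)]
  · exact norm_CFour χ ((unit_CFour M x).2 h).unit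

theorem cfour : FourStmt := by
  intro M T hM ⟨hper, hn, hb⟩
  have hfin := Finite.of_surjective _ (surj_CFour hM)
  have hft : Fintype (MulChar (O ⧸ Ideal.span {(M : O)}) ℂ) := Fintype.ofFinite _
  obtain ⟨s, hs⟩ := (Ideal.Quotient.mk_surjective
    (I := Ideal.span {(M : O)})).hasRightInverse
  have hT : ∀ x, T (s (Ideal.Quotient.mk _ x)) = T x := fun x =>
    hper _ _ (Ideal.mem_span_singleton.1 (Ideal.Quotient.eq.1 (hs _)))
  obtain ⟨c, hc1, hc2, hc3⟩ := fourier_CFour (fun a => T (s a)) fun a => hb _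
  have hu : ∀ n : ℤ, IsCoprime n M →
      IsUnit (Ideal.Quotient.mk (Ideal.span {(M : O)}) (n : O)) := fun n h =>
    (unit_CFour M n).2 (by rw [Nm_int]; exact h.pow_left)
  let e := (Fintype.equivFin (MulChar (O ⧸ Ideal.span {(M : O)}) ℂ)).symm
  refine ⟨_, fun i x => (if c (e i) = 0 then 1 else e i) (Ideal.Quotient.mk _ x),
    fun i => c (e i), ?_, fun i => ⟨hc1 _, isFin_CFour hM _, fun n h => ?_⟩, fun x hx => ?_⟩
  · rw [← Nat.card_eq_fintype_card, MulChar.card_eq_card_units_of_hasEnoughRootsOfUnity]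
    refine (Nat.card_le_card_of_injective _ Units.val_injective).trans
      ((Nat.card_le_card_of_surjective _ (surj_CFour hM)).trans (le_of_eq ?_))
    simp [pow_succ, mul_assoc]
  · simp only
    split_ifs with h0
    · exact MulChar.one_apply (hu n h)
    · by_contra h1
      refine h0 (hc2 _ (hu n h).unit (fun y => ?_) h1)
      obtain ⟨y, rfl⟩ := Ideal.Quotient.mk_surjective y
      rw [IsUnit.unit_spec, ← map_mul, hT, hT, hn n y h]
  · have h := hc3 ((unit_CFour M x).2 hx).unit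
    rw [IsUnit.unit_spec, hT] at h
    rw [h, ← e.sum_comp]
    refine sum_congr rfl fun i _ => ?_
    simp only
    split_ifs with h0
    · simp only [h0, zero_mul]
    · rfl

end Pool.Agent.MP_adc87d_lc.Big

end
end

section

/-! Mean values of periodic functions. -/

set_option autoImplicit false

noncomputable section

open Finset
open scoped Classical

namespace Pool.Agent.MP_adc87d_lc.Big

open Pool.Agent.MP_2a1f0e_nt (ex)

theorem card_CMean (M : ℕ) : (Cu M).card = M ^ 3 := by simp [Cu]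

theorem mem_CMean {M : ℕ} {v : Fin 3 → ℤ} : v ∈ Cu M ↔ ∀ i, 0 ≤ v i ∧ v i < M := by simp [Cu]

theorem dvd_CMean (M : ℕ) (x : O) : (M : O) ∣ x ↔ ∀ i, (M : ℤ) ∣ vec x i := by
  simp [O.natCast_dvd, vec_apply, Fin.forall_fin_succ]

theorem inj_CMean {M : ℕ} {v w : Fin 3 → ℤ} (hv : v ∈ Cu M) (hw : w ∈ Cu M)
    (h : (M : O) ∣ vec.symm v - vec.symm w) : v = w := by
  funext i
  have h1 := (dvd_CMean M _).1 h i
  rw [vec_sub, Equiv.apply_symm_apply, Equiv.apply_symm_apply, Pi.sub_apply] at h1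
  have h2 := mem_CMean.1 hv i
  have h3 := mem_CMean.1 hw i
  have := Int.eq_zero_of_abs_lt_dvd h1 (by rw [abs_lt]; omega)
  omega

theorem rep_CMean {ι : Type} {M : ℕ} (hM : 1 ≤ M) {F : O → ℂ} (hF : Per M F) (s : Finset ι)
    (φ : ι → O) (hc : s.card = M ^ 3) (hi : ∀ i ∈ s, ∀ j ∈ s, (M : O) ∣ φ i - φ j → i = j) :
    ∑ v ∈ Cu M, F (vec.symm v) = ∑ i ∈ s, F (φ i) := by
  have h0 : (0 : ℤ) < M := by exact_mod_cast hM
  set r : ι → Fin 3 → ℤ := fun i k => vec (φ i) k % M with hr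
  have h1 : ∀ i, (M : O) ∣ φ i - vec.symm (r i) := fun i => (dvd_CMean M _).2 fun k => by
    rw [vec_sub, Equiv.apply_symm_apply, Pi.sub_apply]
    exact Int.dvd_self_sub_of_emod_eq rfl
  have h2 : Set.InjOn r s := fun i hi' j hj h => hi i hi' j hj (by
    have := (h1 i).sub (h1 j)
    rwa [h, sub_sub_sub_cancel_right] at this)
  have h3 : s.image r = Cu M := eq_of_subset_of_card_le (fun v hv => by
    obtain ⟨i, -, rfl⟩ := mem_image.1 hv
    exact mem_CMean.2 fun k => ⟨Int.emod_nonneg _ h0.ne', Int.emod_lt_of_pos _ h0⟩)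
    (by rw [card_image_of_injOn h2, hc, card_CMean])
  rw [← h3, sum_image h2]
  exact sum_congr rfl fun i _ => (hF _ _ (h1 i)).symm

theorem cop_CMean {M : ℕ} {g : O} (h : IsCoprime (Nm g) M) : IsCoprime (M : O) g := by
  have := h.map (Int.castRingHom O)
  simp only [eq_intCast, Int.cast_natCast] at this
  exact (this.of_isCoprime_of_dvd_left (dvd_Nm g)).symm

theorem mul_CMean {M : ℕ} {F : O → ℂ} {g : O} (hM : 1 ≤ M) (hF : Per M F)
    (h : IsCoprime (M : O) g) :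
    ∑ v ∈ Cu M, F (g * vec.symm v) = ∑ v ∈ Cu M, F (vec.symm v) :=
  (rep_CMean hM hF _ _ (card_CMean M) fun _ hv _ hw e =>
    inj_CMean hv hw (h.dvd_of_dvd_mul_left (by rwa [mul_sub]))).symm

theorem cnt_CMean {l : ℕ} (hl : l.Prime) :
    ((Cu l).filter fun v => (l : ℤ) ∣ Nm (vec.symm v)).card ≤ 3 * l ^ 2 := by
  have := Fact.mk hl
  refine (card_le_mul_card_image_of_maps_to (t := Ico (0 : ℤ) l ×ˢ Ico (0 : ℤ) l)
    (f := fun v => (v 1, v 2)) (fun v hv => ?_) 3 fun q _ => ?_).trans (by simp [sq])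
  · have := mem_CMean.1 (mem_filter.1 hv).1
    simp only [mem_product, mem_Ico]
    exact ⟨this 1, this 2⟩
  · set P : Cubic (ZMod l) := ⟨1, 2 * q.2, q.2 ^ 2 - q.1 ^ 2 - 3 * q.1 * q.2,
      q.1 ^ 3 + q.2 ^ 3 - q.1 * q.2 ^ 2⟩ with hP
    refine le_trans (card_le_card_of_injOn (fun v => (v 0 : ZMod l)) (fun v hv => ?_)
      fun v hv w hw h => ?_) P.card_roots_le
    · obtain ⟨h1, rfl⟩ := mem_filter.1 hv
      have h2 := (ZMod.intCast_zmod_eq_zero_iff_dvd _ _).2 (mem_filter.1 h1).2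
      rw [mem_coe, Multiset.mem_toFinset, Cubic.mem_roots_iff
        (Cubic.ne_zero_of_a_ne_zero one_ne_zero), ← h2]
      simp only [hP, Nm, nf, vec_symm_apply]
      push_cast
      ring
    · obtain ⟨h1, e1⟩ := mem_filter.1 hv
      obtain ⟨h2, e2⟩ := mem_filter.1 hw
      have e := e1.trans e2.symm
      refine inj_CMean (mem_filter.1 h1).1 (mem_filter.1 h2).1 ((O.natCast_dvd _ _).2 ?_)
      simp only [vec_symm_apply, O.sub_a, O.sub_b, O.sub_c, (Prod.mk.inj e).1, (Prod.mk.inj e).2,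
        sub_self, dvd_zero, and_true]
      exact (ZMod.intCast_eq_intCast_iff_dvd_sub _ _ _).1 h.symm

theorem two_CMean : ((Cu 2).filter fun v => ((2 : ℕ) : ℤ) ∣ Nm (vec.symm v)).card ≤ 1 := by
  have key : ∀ a b c : ZMod 2, nf a b c = 0 → a = 0 ∧ b = 0 ∧ c = 0 := by
    simp only [nf]; decide
  have h : ∀ x : O, ((2 : ℕ) : ℤ) ∣ Nm x → ((2 : ℕ) : O) ∣ x := fun x hx => by
    obtain ⟨a, b, c⟩ := key x.a x.b x.c (by
      simpa [Nm, nf] using (ZMod.intCast_zmod_eq_zero_iff_dvd _ _).2 hx)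
    rw [ZMod.intCast_zmod_eq_zero_iff_dvd] at a b c
    exact (O.natCast_dvd 2 x).2 ⟨a, b, c⟩
  exact card_le_one.2 fun v hv w hw => inj_CMean (mem_filter.1 hv).1 (mem_filter.1 hw).1
    ((h _ (mem_filter.1 hv).2).sub (h _ (mem_filter.1 hw).2))

theorem cmean : MeanStmt := by
  refine ⟨fun M F g hM hF h => ?_, fun M d F G hM hd h hF hG => ?_, fun M F hM h => ?_,
    fun l hl h3 => ?_⟩
  · rw [mean, mean, mul_CMean hM hF (cop_CMean h)]
  · have hc : IsCoprime (M : O) d := Nat.Coprime.cast h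
    have hp : Per (M * d) fun x => F x * G x := fun x y e => by
      rw [Nat.cast_mul] at e
      simp only [hF x y (dvd_of_mul_right_dvd e), hG x y (dvd_of_mul_left_dvd e)]
    rw [mean, mean, mean, rep_CMean (Nat.mul_pos hM hd) hp (Cu M ×ˢ Cu d)
      (fun q => d * vec.symm q.1 + M * vec.symm q.2) (by simp [card_CMean, mul_pow]),
      ← mul_CMean hM hF hc, ← mul_CMean hd hG hc.symm, div_mul_div_comm, sum_mul_sum, sum_product,
      Nat.cast_mul, mul_pow]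
    · congr 1
      refine sum_congr rfl fun v _ => sum_congr rfl fun w _ => ?_
      rw [hF _ (d * vec.symm v) (by simp), hG _ (M * vec.symm w) (by simp)]
    · intro q hq q' hq' e
      rw [Nat.cast_mul, add_sub_add_comm, ← mul_sub, ← mul_sub] at e
      exact Prod.ext (inj_CMean (mem_product.1 hq).1 (mem_product.1 hq').1 (hc.dvd_of_dvd_mul_left
        ((dvd_add_left (dvd_mul_right _ _)).1 (dvd_of_mul_right_dvd e))))
        (inj_CMean (mem_product.1 hq).2 (mem_product.1 hq').2 (hc.symm.dvd_of_dvd_mul_left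
          ((dvd_add_right (dvd_mul_right _ _)).1 (dvd_of_mul_left_dvd e))))
  · have h0 : (0 : ℝ) < M := by exact_mod_cast hM
    rw [mean, norm_div, norm_pow, Complex.norm_natCast, div_le_one (by positivity)]
    refine (norm_sum_le_of_le _ fun v _ => h _).trans ?_
    simp [card_CMean]
  · have h0 : (0 : ℝ) < l := by exact_mod_cast hl.pos
    have h1 : (((Cu l).filter fun v => (l : ℤ) ∣ Nm (vec.symm v)).card : ℝ) / (l : ℝ) ^ 3 ≤
        3 / l := by
      rw [div_le_div_iff₀ (by positivity) h0]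
      have : (((Cu l).filter fun v => (l : ℤ) ∣ Nm (vec.symm v)).card : ℝ) ≤ 3 * l ^ 2 := by
        exact_mod_cast cnt_CMean hl
      nlinarith
    refine ⟨_, by positivity, h1, ?_, by simp [mean]⟩
    by_cases h2 : l = 2
    · subst h2
      have : (((Cu 2).filter fun v => ((2 : ℕ) : ℤ) ∣ Nm (vec.symm v)).card : ℝ) ≤ 1 := by
        exact_mod_cast two_CMean
      rw [div_le_iff₀ (by positivity)]
      refine this.trans (by norm_num)
    · have h5 : (5 : ℝ) ≤ l := by exact_mod_cast hl.five_le_of_ne_two_of_ne_three h2 h3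
      exact h1.trans (by gcongr)

end Pool.Agent.MP_adc87d_lc.Big

end
end

section

/-! The variance for primes minus model: choice of the parameters. -/

set_option autoImplicit false

noncomputable section

open Finset
open scoped Classical

namespace Pool.Agent.MP_adc87d_lc.Big

open Pool.Agent.MP_2a1f0e_nt (ex)

theorem num_CUp {C L Y n η : ℝ} (hL : 8 ≤ L) (hC : 5 * C ≤ L) (hY : L ^ 8 ≤ Y)
    (hn1 : L ^ 48 ≤ n) (hn2 : n ≤ 2 * L ^ 48) (hη0 : 0 ≤ η) (hη : η ≤ Y ^ 18 / L ^ 1700) :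
    C * ((L ^ 2) ^ 2 * Y ^ 34 * (1 / L ^ 16 + (L ^ 16) ^ 2 / n + n ^ 6 * L ^ 16 / L ^ 322) +
      (L ^ 2) ^ 2 * Y ^ 32 + n ^ 6 * L ^ 16 * (L ^ 322) ^ 4 * η * L ^ 2 * Y ^ 16) ≤
      Y ^ 34 / L ^ 11 := by
  have L0 : 0 < L := by linarith
  have L1 : 1 ≤ L := by linarith
  have Y0 : 0 < Y := lt_of_lt_of_le (by positivity) hY
  have n0 : 0 < n := lt_of_lt_of_le (by positivity) hn1
  have h1 : n ^ 6 ≤ L ^ 290 := by
    calc n ^ 6 ≤ (2 * L ^ 48) ^ 6 := by gcongr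
      _ = 8 ^ 2 * L ^ 288 := by ring
      _ ≤ L ^ 2 * L ^ 288 := by gcongr
      _ = L ^ 290 := by ring
  have h2 : (L ^ 16) ^ 2 / n ≤ 1 / L ^ 16 := by
    calc (L ^ 16) ^ 2 / n ≤ (L ^ 16) ^ 2 / L ^ 48 := by gcongr
      _ = 1 / L ^ 16 := by field_simp
  have h3 : n ^ 6 * L ^ 16 / L ^ 322 ≤ 1 / L ^ 16 := by
    calc n ^ 6 * L ^ 16 / L ^ 322 ≤ L ^ 290 * L ^ 16 / L ^ 322 := by gcongr
      _ = 1 / L ^ 16 := by field_simp
  have h4 : (L ^ 2) ^ 2 * Y ^ 34 * (1 / L ^ 16 + (L ^ 16) ^ 2 / n + n ^ 6 * L ^ 16 / L ^ 322) ≤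
      3 * (Y ^ 34 / L ^ 12) := by
    calc _ ≤ (L ^ 2) ^ 2 * Y ^ 34 * (1 / L ^ 16 + 1 / L ^ 16 + 1 / L ^ 16) := by gcongr
      _ = _ := by field_simp; ring
  have h5 : (L ^ 2) ^ 2 * Y ^ 32 ≤ Y ^ 34 / L ^ 12 := by
    rw [le_div_iff₀ (by positivity)]
    calc (L ^ 2) ^ 2 * Y ^ 32 * L ^ 12 = (L ^ 8) ^ 2 * Y ^ 32 := by ring
      _ ≤ Y ^ 2 * Y ^ 32 := by gcongr
      _ = Y ^ 34 := by ring
  have h6 : n ^ 6 * L ^ 16 * (L ^ 322) ^ 4 * η * L ^ 2 * Y ^ 16 ≤ Y ^ 34 / L ^ 12 := by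
    calc _ ≤ L ^ 290 * L ^ 16 * (L ^ 322) ^ 4 * (Y ^ 18 / L ^ 1700) * L ^ 2 * Y ^ 16 := by gcongr
      _ = Y ^ 34 / L ^ 104 := by field_simp
      _ ≤ Y ^ 34 / L ^ 12 := by gcongr; norm_num
  have h7 : 0 ≤ (L ^ 2) ^ 2 * Y ^ 34 *
      (1 / L ^ 16 + (L ^ 16) ^ 2 / n + n ^ 6 * L ^ 16 / L ^ 322) +
      (L ^ 2) ^ 2 * Y ^ 32 + n ^ 6 * L ^ 16 * (L ^ 322) ^ 4 * η * L ^ 2 * Y ^ 16 := by positivity
  calc _ ≤ L / 5 * (5 * (Y ^ 34 / L ^ 12)) :=
        mul_le_mul (by linarith) (by linarith) h7 (by positivity)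
    _ = _ := by field_simp

theorem cup (h1 : EqStmt) (h2 : UpAStmt) : UpStmt := by
  intro k q T c hk hq hc
  obtain ⟨c₁, hc₁, h⟩ := h1 k hk
  obtain ⟨a', h⟩ := h 1700
  obtain ⟨V₀, h⟩ := h (a' + 2)
  obtain ⟨C, hC, hU⟩ := h2 k q T c hq hc
  refine ⟨c₁, hc₁, 2 * (a' + 2), max (max V₀ C) (Real.exp (362880 + 5 * C + q)), fun Y hY => ?_⟩
  have y1 : V₀ ≤ Y := (le_max_left _ _).trans ((le_max_left _ _).trans hY)
  have y2 : C ≤ Y := (le_max_right _ _).trans ((le_max_left _ _).trans hY)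
  have y3 : Real.exp (362880 + 5 * C + q) ≤ Y := (le_max_right _ _).trans hY
  have Y1 : 1 ≤ Y := hC.trans y2
  have Y0 : 0 < Y := by linarith
  have q0 : (0 : ℝ) ≤ q := q.cast_nonneg
  have l1 : 362880 + 5 * C + q ≤ Real.log Y := (Real.le_log_iff_exp_le Y0).2 y3
  have l2 : Real.log (Y ^ 18) = 18 * Real.log Y := by rw [Real.log_pow]; norm_num
  have l3 : Real.log (2 * Y ^ 18) ≤ 1 + 18 * Real.log Y := by
    rw [Real.log_mul two_ne_zero (by positivity), l2]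
    linarith [Real.log_le_sub_one_of_pos (show (0 : ℝ) < 2 by norm_num)]
  have l4 : Real.log Y ^ 8 ≤ Y := by
    have a1 := Real.pow_div_factorial_le_exp (Real.log Y) (by linarith) 9
    rw [Real.exp_log Y0, div_le_iff₀ (by positivity)] at a1
    have a2 : ((Nat.factorial 9 : ℕ) : ℝ) = 362880 := by norm_num [Nat.factorial]
    have a3 : Real.log Y ^ 8 * 362880 ≤ Real.log Y ^ 8 * Real.log Y :=
      mul_le_mul_of_nonneg_left (by linarith) (by positivity)
    rw [a2, pow_succ] at a1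
    linarith
  replace h := h (Y ^ 18) (y1.trans (le_self_pow₀ Y1 (by norm_num)))
  generalize Real.log (Y ^ 18) = ℓ at h l2
  generalize Real.log Y = L at *
  have L1 : 1 ≤ L := by linarith
  have L0 : 0 < L := by linarith
  have a1 : L ≤ ℓ := by linarith
  have a2 : ℓ ≤ L ^ 2 := by nlinarith
  have a3 : 1 ≤ ℓ := by linarith
  have a4 : ∀ i, i ≤ 1700 → L ^ i ≤ ℓ ^ 1700 := fun i hi =>
    (pow_le_pow_right₀ L1 hi).trans (pow_le_pow_left₀ L0.le a1 _)
  obtain ⟨n, n1, n2⟩ : ∃ n : ℕ, L ^ 48 ≤ n ∧ n ≤ 2 * L ^ 48 :=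
    ⟨⌈L ^ 48⌉₊, Nat.le_ceil _, by
      linarith [Nat.ceil_lt_add_one (show 0 ≤ L ^ 48 by positivity), one_le_pow₀ (n := 48) L1]⟩
  have n3 : (4 : ℝ) ≤ n := by linarith [le_self_pow₀ L1 (show 48 ≠ 0 by norm_num)]
  have n0 : (0 : ℝ) < n := by linarith
  have n4 : (n : ℝ) ≤ ℓ ^ 1700 := by
    refine n2.trans (le_trans ?_ (a4 49 (by norm_num)))
    rw [pow_succ' L 48]
    exact mul_le_mul_of_nonneg_right (by linarith) (by positivity)
  have V0 : 0 < Y ^ 18 := by positivity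
  choose w w1 w2 w3 using fun j : Fin n => h (ℓ ^ (a' + 2)) (Y ^ 18 * (1 + (j : ℕ) / n))
    (Y ^ 18 * (1 + ((j : ℕ) + 1) / n)) (pow_le_pow_right₀ a3 (by omega)) le_rfl
    (le_mul_of_one_le_right V0.le (le_add_of_nonneg_right (by positivity)))
    (by
      have b1 : ((j : ℕ) : ℝ) + 1 ≤ n := by exact_mod_cast j.2
      have b2 := (div_le_one n0).2 b1
      nlinarith)
    (by
      refine (div_le_div_of_nonneg_left V0.le n0 n4).trans_eq ?_
      ring)
  obtain ⟨W, g, W1, g1, hv⟩ := hU Y (ℓ ^ (a' + 2)) (L ^ 16) (L ^ 322) (L ^ 2) (Y ^ 18 / ℓ ^ 1700)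
    n w y2 (by exact_mod_cast n3) (one_le_pow₀ L1) (one_le_pow₀ L1) (by positivity)
    (by nlinarith) (fun j => ⟨hc₁.le.trans (w1 j), (w2 j).trans (by nlinarith)⟩)
    fun j M F h₁ h₂ s m1 m2 hF i1 i2 => w3 j M F h₁ h₂ s m1
      (by
        refine m2.trans (le_trans ?_ (a4 323 (by norm_num)))
        rw [pow_succ' L 322]
        exact mul_le_mul_of_nonneg_right (by linarith) (by positivity)) hF
      ⟨i1.1, fun x y => (i1.2.1 x y).trans (mul_le_mul_of_nonneg_right n4 (abs_nonneg _)), i1.2.2⟩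
      ⟨i2.1, fun x y => (i2.2.1 x y).trans (mul_le_mul_of_nonneg_right n4 (abs_nonneg _)), i2.2.2⟩
  refine ⟨ℓ ^ (a' + 2), W, g,
    (pow_le_pow_left₀ L0.le a1 2).trans (pow_le_pow_right₀ a3 (by omega)), ?_, fun m => ?_, g1,
    fun P R hP hR => (hv P R hP hR).trans ?_⟩
  · rw [pow_mul]
    exact pow_le_pow_left₀ (by linarith) a2 _
  · obtain ⟨j, hj⟩ := W1 m
    rw [hj]
    exact w1 j
  · exact num_CUp (by linarith) (by linarith) l4 n1 n2 (by positivity)
      (div_le_div_of_nonneg_left V0.le (by positivity) (a4 1700 le_rfl))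

end Pool.Agent.MP_adc87d_lc.Big

end
end
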