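import Pool.Agent.Mg.Fadc87d.G04e6de
import Pool.Agent.MP_e23604_nt.Mordell
import Mathlib

set_option linter.all false

section

/-! The canonical height of the multiples of a point of infinite order. -/

set_option autoImplicit false

noncomputable section

namespace Pool.Agent.MP_adc87d_lc.Big

open WeierstrassCurve Height Filter Topology

theorem quad_Ht (a : ℤ → ℝ) (C : ℝ)
    (h : ∀ m n, |a (m + n) + a (m - n) - 2 * (a m + a n)| ≤ C) :
    ∃ hh c : ℝ, ∀ n : ℤ, |a n - hh * (n : ℝ) ^ 2| ≤ c := by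
  set u : ℤ → ℕ → ℝ := fun n k => a (2 ^ k * n) / 4 ^ k with hu
  have hd : ∀ n k, dist (u n k) (u n (k + 1)) ≤ (C + |a 0|) * (1 / 4) ^ k := by
    intro n k
    have h1 := h (2 ^ k * n) (2 ^ k * n)
    rw [sub_self] at h1
    have e : (2 : ℤ) ^ k * n + 2 ^ k * n = 2 ^ (k + 1) * n := by ring
    rw [e] at h1
    have h4 : (0 : ℝ) < 4 ^ k := by positivity
    have e2 : u n k - u n (k + 1) = (4 * a (2 ^ k * n) - a (2 ^ (k + 1) * n)) / 4 * (1 / 4) ^ k := by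
      simp only [hu, one_div, inv_pow]
      field_simp
      ring
    rw [Real.dist_eq, e2, abs_mul, abs_of_pos (by positivity : (0 : ℝ) < (1 / 4) ^ k)]
    refine mul_le_mul_of_nonneg_right ?_ (by positivity)
    have h2 := le_abs_self (a 0)
    have h3 := neg_abs_le (a 0)
    have h5 := abs_nonneg (a 0)
    have h6 := (abs_nonneg _).trans h1
    rw [abs_le] at h1 ⊢
    constructor <;> linarith [h1.1, h1.2]
  have hc : ∀ n, ∃ b, Tendsto (u n) atTop (𝓝 b) := fun n =>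
    cauchySeq_tendsto_of_complete (cauchySeq_of_le_geometric (1 / 4) _ (by norm_num) (hd n))
  choose b hb using hc
  have hb0 : ∀ n, |a n - b n| ≤ (C + |a 0|) / (1 - 1 / 4) := by
    intro n
    have := dist_le_of_le_geometric_of_tendsto₀ (1 / 4) _ (by norm_num) (hd n) (hb n)
    simpa [hu, Real.dist_eq] using this
  have hp : ∀ m n, b (m + n) + b (m - n) = 2 * (b m + b n) := by
    intro m n
    have t1 : Tendsto (fun k => |u (m + n) k + u (m - n) k - 2 * (u m k + u n k)|) atTop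
        (𝓝 |b (m + n) + b (m - n) - 2 * (b m + b n)|) :=
      (((hb _).add (hb _)).sub (((hb _).add (hb _)).const_mul 2)).abs
    have t2 : Tendsto (fun k : ℕ => C * (1 / 4 : ℝ) ^ k) atTop (𝓝 (C * 0)) :=
      (tendsto_pow_atTop_nhds_zero_of_lt_one (by norm_num) (by norm_num)).const_mul C
    have := le_of_tendsto_of_tendsto' t1 t2 fun k => by
      have h1 := h (2 ^ k * m) (2 ^ k * n)
      rw [← mul_add, ← mul_sub] at h1
      have e : u (m + n) k + u (m - n) k - 2 * (u m k + u n k) = (a (2 ^ k * (m + n)) +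
          a (2 ^ k * (m - n)) - 2 * (a (2 ^ k * m) + a (2 ^ k * n))) * (1 / 4) ^ k := by
        simp only [hu, one_div, inv_pow]
        field_simp
      rw [e, abs_mul, abs_of_pos (by positivity : (0 : ℝ) < (1 / 4) ^ k)]
      exact mul_le_mul_of_nonneg_right h1 (by positivity)
    rw [mul_zero, abs_nonpos_iff] at this
    linarith
  have z : b 0 = 0 := by
    have := hp 0 0
    simp only [add_zero, sub_zero] at this
    linarith
  have hn : ∀ n : ℕ, b n = b 1 * (n : ℝ) ^ 2 ∧ b (n + 1) = b 1 * ((n : ℝ) + 1) ^ 2 := by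
    intro n
    induction n with
    | zero => simp [z]
    | succ n ih =>
      have := hp (n + 1) 1
      rw [add_sub_cancel_right] at this
      push_cast
      exact ⟨ih.2, by linear_combination this - ih.1 + 2 * ih.2⟩
  refine ⟨b 1, _, fun n => le_of_eq_of_le ?_ (hb0 n)⟩
  congr 2
  obtain ⟨k, rfl | rfl⟩ := Int.eq_nat_or_neg n
  · rw [(hn k).1]
    simp
  · have := hp 0 k
    rw [zero_add, zero_sub, z] at this
    have h2 := (hn k).1
    push_cast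
    linear_combination -h2 - this

theorem par_Ht (d : ℚ) (hd : d ≠ 0) : ∃ C : ℝ, ∀ P Q : Pt d,
    |logHeight₁ (px (P + Q)) + logHeight₁ (px (P - Q)) -
      2 * (logHeight₁ (px P) + logHeight₁ (px Q))| ≤ C := by
  have : (Ed d).IsElliptic := ⟨by simp [Ed, WeierstrassCurve.Δ, b₂, b₄, b₆, b₈, hd]⟩
  have hx : ∀ P : Pt d, logHeight₁ (px P) = logHeight (Affine.Point.xRep P) := by
    rintro (_ | ⟨x, y, e⟩)
    · change logHeight₁ (0 : ℚ) = logHeight ![1, 0]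
      rw [logHeight₁_eq_logHeight, logHeight_swap]
    · exact logHeight₁_eq_logHeight x
  obtain ⟨C₁, h1⟩ := abs_logHeight_addSubMap_sub_two_mul_logHeight_le (Ed d)
  obtain ⟨C₂, h2⟩ := abs_logHeight_sym2_sub_le ℚ
  have h3 : ∀ P Q : Pt d, |logHeight (Affine.Point.sym2x P Q) -
      (logHeight₁ (px P) + logHeight₁ (px Q))| ≤ C₂ := by
    intro P Q
    have e : ∀ v : Fin 2 → ℚ, ![v 0, v 1] = v := fun v => by ext i; fin_cases i <;> rfl
    have := h2 (a := Affine.Point.xRep P 0) (b := Affine.Point.xRep P 1)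
      (c := Affine.Point.xRep Q 0) (d := Affine.Point.xRep Q 1)
      (by rw [e]; exact Affine.Point.xRep_ne_zero P) (by rw [e]; exact Affine.Point.xRep_ne_zero Q)
    rw [hx, hx]
    rwa [e, e] at this
  refine ⟨C₁ + 3 * C₂, fun P Q => ?_⟩
  obtain ⟨c, c0, hc⟩ := @MP_e23604_nt.addSub ℚ _ (Classical.decEq ℚ) (Ed d) _ P Q
  have a1 := h1 (Affine.Point.sym2x P Q)
  rw [hc, logHeight_smul_eq_logHeight _ c0] at a1
  have a2 := h3 P Q
  have a3 := h3 (P + Q) (P - Q)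
  change |logHeight (Affine.Point.sym2x (P + Q) (P - Q)) - _| ≤ _ at a1
  rw [abs_le] at *
  constructor <;> linarith [a1.1, a1.2, a2.1, a2.2, a3.1, a3.2]

theorem fin_Ht (d : ℚ) (B : ℝ) : {P : Pt d | logHeight₁ (px P) ≤ B}.Finite := by
  have f1 : {x : ℚ | logHeight₁ x ≤ B}.Finite := Northcott.finite_le B
  refine f1.preimage' (f := fun P : Pt d => px P) fun v _ => ?_
  by_cases hv : ∃ P : Pt d, P ≠ 0 ∧ px P = v
  · obtain ⟨P, hP, rfl⟩ := hv
    refine (Set.toFinite {0, P, -P}).subset fun Q hQ => ?_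
    by_cases h0 : Q = 0
    · exact Or.inl h0
    · exact Or.inr (eq_or_neg h0 hP hQ)
  · refine (Set.finite_singleton 0).subset fun Q hQ => ?_
    by_contra h0
    exact hv ⟨Q, h0, hQ⟩

theorem ht : HtStmt := by
  intro d G hd hG
  obtain ⟨C, hC⟩ := par_Ht d hd
  obtain ⟨h, c, hh⟩ := quad_Ht (fun n => logHeight₁ (px (n • G))) C fun m n => by
    simpa only [add_smul, sub_smul] using hC (m • G) (n • G)
  refine ⟨h, c, ?_, fun n => ?_⟩
  · by_contra h0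
    have hi : Function.Injective fun n : ℤ => n • G := by
      intro m n e
      by_contra hne
      refine hG (m - n) (sub_ne_zero.2 hne) ?_
      have e' : m • G = n • G := e
      rw [sub_smul, e', sub_self]
    refine Set.infinite_range_of_injective hi ((fin_Ht d c).subset ?_)
    rintro _ ⟨n, rfl⟩
    have h1 := (abs_le.1 (hh n)).2
    have h2 : h * (n : ℝ) ^ 2 ≤ 0 := mul_nonpos_of_nonpos_of_nonneg (not_lt.1 h0) (sq_nonneg _)
    change logHeight₁ (px (n • G)) ≤ c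
    linarith
  · have := hh n
    rw [Rat.logHeight₁_eq_log_max] at this
    simpa [Nat.cast_max, Nat.cast_natAbs] using this

end Pool.Agent.MP_adc87d_lc.Big

end
end

section

/-! The formal group of the curve y^2 = x^3 + d over the p-adic numbers. -/

set_option autoImplicit false

namespace Pool.Agent.MP_adc87d_lc.Big

section

variable {F : Type} [Field F] {Γ : Type} [LinearOrderedCommGroupWithZero Γ] (V : Valuation F Γ)

theorem nat_le_L12 (n : ℕ) : V (n : F) ≤ 1 := by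
  induction n with
  | zero => simp
  | succ k ih =>
    rw [Nat.cast_succ]
    exact (V.map_add _ _).trans (max_le ih (by simp))

theorem three_le_L12 {k : F} (hk : V k ≤ 1) : V (3 * k) ≤ 1 := by
  have := nat_le_L12 V 3
  rw [map_mul]
  exact mul_le_one' (by simpa using this) hk

theorem unit_L12 {t : F} (h : V t < 1) : V (1 + t) = 1 := V.map_one_add_of_lt h

theorem mul_lt_L12 {a b : F} (ha : V a ≤ 1) (hb : V b < 1) : V (a * b) < 1 := by
  rw [map_mul]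
  exact lt_of_le_of_lt (mul_le_of_le_one_left' ha) hb

theorem add_lt_L12 {a b : F} (ha : V a < 1) (hb : V b < 1) : V (a + b) < 1 :=
  lt_of_le_of_lt (V.map_add _ _) (max_lt ha hb)

/-- sizes of the coordinates of a point at infinity -/
theorem size_L12 {k x y : F} (hk : V k ≤ 1) (e : y ^ 2 = x ^ 3 + -k) (hx : 1 < V x) :
    V y ^ 2 = V x ^ 3 ∧ 1 < V y ∧ V x < V y := by
  have h3 : 1 < V x ^ 3 := one_lt_pow₀ hx (by norm_num)
  have h : V y ^ 2 = V x ^ 3 := by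
    rw [← map_pow, e, ← map_pow]
    refine V.map_add_eq_of_lt_left ?_
    rw [Valuation.map_neg, map_pow]
    exact lt_of_le_of_lt hk h3
  have hx0 : 0 < V x := lt_trans zero_lt_one hx
  have h2 : V x < V y := by
    refine lt_of_pow_lt_pow_left₀ 2 zero_le ?_
    rw [h]
    exact pow_lt_pow_right₀ hx (by norm_num)
  exact ⟨h, hx.trans h2, h2⟩

theorem big_L12 {k x y : F} (hk : V k ≤ 1) (e : y ^ 2 = x ^ 3 + -k) (hy : 1 < V y) : 1 < V x := by
  by_contra hx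
  rw [not_lt] at hx
  have h : V (y ^ 2) ≤ 1 := by
    rw [e]
    refine (V.map_add _ _).trans (max_le ?_ ?_)
    · rw [map_pow]; exact pow_le_one₀ zero_le hx
    · rw [Valuation.map_neg]; exact hk
  rw [map_pow] at h
  exact absurd (one_lt_pow₀ hy (by norm_num : (2 : ℕ) ≠ 0)) (not_lt.2 h)

theorem z_lt_L12 {k x y : F} (hk : V k ≤ 1) (e : y ^ 2 = x ^ 3 + -k) (hx : 1 < V x) : V (x / y) < 1 := by
  obtain ⟨_, h1, h2⟩ := size_L12 V hk e hx
  rw [map_div₀]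
  exact (div_lt_one₀ (lt_trans zero_lt_one h1)).2 h2

theorem u_lt_L12 {k x y : F} (hk : V k ≤ 1) (e : y ^ 2 = x ^ 3 + -k) (hx : 1 < V x) : V y⁻¹ < 1 := by
  obtain ⟨_, h1, _⟩ := size_L12 V hk e hx
  rw [map_inv₀]
  exact inv_lt_one_of_one_lt₀ h1

theorem ne_L12 {x : F} (hx : 1 < V x) : x ≠ 0 := by
  rintro rfl
  simp at hx

theorem u_eq_L12 {k x y : F} (hk : V k ≤ 1) (e : y ^ 2 = x ^ 3 + -k) (hx : 1 < V x) : V y⁻¹ = V (x / y) ^ 3 := by
  obtain ⟨_, h1, _⟩ := size_L12 V hk e hx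
  have hy := ne_L12 V h1
  have hu := u_lt_L12 V hk e hx
  have h : y⁻¹ * (1 + k * (y⁻¹ * y⁻¹)) = (x / y) ^ 3 := by
    field_simp
    linear_combination e
  have h2 := congrArg V h
  rw [map_mul, map_pow, unit_L12 V (mul_lt_L12 V hk (mul_lt_L12 V hu.le hu)),
    mul_one] at h2
  exact h2

theorem two_L12 {k x y : F} (hk : V k ≤ 1) (e : y ^ 2 = x ^ 3 + -k) (hx : 1 < V x) :
    x / y ≠ 0 ∧ V (x * (x / y) ^ 2 - 1) < 1 := by
  obtain ⟨_, h1, _⟩ := size_L12 V hk e hx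
  have hy := ne_L12 V h1
  have hu := u_lt_L12 V hk e hx
  refine ⟨div_ne_zero (ne_L12 V hx) hy, ?_⟩
  have h : x * (x / y) ^ 2 - 1 = k * (y⁻¹ * y⁻¹) := by
    field_simp
    linear_combination -e
  rw [h]
  exact mul_lt_L12 V hk (mul_lt_L12 V hu.le hu)

/-- the slope in the coordinates at infinity -/
theorem slope_L12 [CharZero F] {k x1 y1 x2 y2 m : F} (e1 : y1 ^ 2 = x1 ^ 3 + -k)
    (e2 : y2 ^ 2 = x2 ^ 3 + -k) (h1 : y1 ≠ 0) (h2 : y2 ≠ 0) (a1 : y2 - y1 = m * (x2 - x1))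
    (a2 : m * (y1 + y2) = x1 ^ 2 + x1 * x2 + x2 ^ 2)
    (hD : 1 + k * (y1⁻¹ * y1⁻¹ + y1⁻¹ * y2⁻¹ + y2⁻¹ * y2⁻¹) ≠ 0) :
    m * (1 + k * (y1⁻¹ * y1⁻¹ + y1⁻¹ * y2⁻¹ + y2⁻¹ * y2⁻¹)) +
      (y1 - m * x1) * ((x1 / y1) ^ 2 + (x1 / y1) * (x2 / y2) + (x2 / y2) ^ 2) = 0 := by
  obtain ⟨u1, hu1, rfl⟩ : ∃ u, u ≠ 0 ∧ y1 = u⁻¹ := ⟨y1⁻¹, inv_ne_zero h1, (inv_inv _).symm⟩
  obtain ⟨u2, hu2, rfl⟩ : ∃ u, u ≠ 0 ∧ y2 = u⁻¹ := ⟨y2⁻¹, inv_ne_zero h2, (inv_inv _).symm⟩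
  obtain ⟨z1, rfl⟩ : ∃ z, x1 = z * u1⁻¹ := ⟨x1 * u1, by field_simp⟩
  obtain ⟨z2, rfl⟩ : ∃ z, x2 = z * u2⁻¹ := ⟨x2 * u2, by field_simp⟩
  simp only [inv_inv] at hD ⊢
  rw [mul_div_cancel_right₀ z1 h1, mul_div_cancel_right₀ z2 h2]
  have f1 : u1 + k * u1 ^ 3 = z1 ^ 3 := by
    field_simp at e1
    linear_combination e1
  have f2 : u2 + k * u2 ^ 3 = z2 ^ 3 := by
    field_simp at e2
    linear_combination e2
  set c := u1⁻¹ - m * (z1 * u1⁻¹) with hc
  have g1 : m * z1 + c * u1 = 1 := by rw [hc]; field_simp; ring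
  have g2 : m * z2 + c * u2 = 1 := by
    have : c = u2⁻¹ - m * (z2 * u2⁻¹) := by rw [hc]; linear_combination -a1
    rw [this]; field_simp; ring
  by_cases hz : z1 = z2
  · subst hz
    have : (u1 - u2) * (1 + k * (u1 * u1 + u1 * u2 + u2 * u2)) = 0 := by
      linear_combination f1 - f2
    obtain rfl : u1 = u2 := sub_eq_zero.1 ((mul_eq_zero.1 this).resolve_right hD)
    have b : 2 * m * u1 = 3 * z1 ^ 2 := by
      field_simp at a2
      linear_combination a2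
    have : (2 * (u1 * u1)) * (m * (1 + k * (u1 * u1 + u1 * u1 + u1 * u1)) +
        c * (z1 ^ 2 + z1 * z1 + z1 ^ 2)) = 0 := by
      linear_combination (u1 * (1 + 3 * k * u1 ^ 2) - 3 * z1 ^ 3) * b + 6 * u1 * z1 ^ 2 * g1 +
        9 * z1 ^ 2 * f1
    exact (mul_eq_zero.1 this).resolve_left (mul_ne_zero two_ne_zero (mul_ne_zero hu1 hu1))
  · have : (z1 - z2) * (m * (1 + k * (u1 * u1 + u1 * u2 + u2 * u2)) +
        c * (z1 ^ 2 + z1 * z2 + z2 ^ 2)) = 0 := by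
      linear_combination (1 + k * (u1 * u1 + u1 * u2 + u2 * u2)) * (g1 - g2) - c * (f1 - f2)
    exact (mul_eq_zero.1 this).resolve_left (sub_ne_zero.2 hz)

/-- the sum of two points at infinity -/
theorem main_L12 [CharZero F] {k x1 y1 x2 y2 m x3 y3 : F} (hk : V k ≤ 1)
    (e1 : y1 ^ 2 = x1 ^ 3 + -k)
    (e2 : y2 ^ 2 = x2 ^ 3 + -k) (e3 : y3 ^ 2 = x3 ^ 3 + -k) (hx1 : 1 < V x1) (hx2 : 1 < V x2)
    (a1 : y2 - y1 = m * (x2 - x1)) (a2 : m * (y1 + y2) = x1 ^ 2 + x1 * x2 + x2 ^ 2)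
    (a3 : x3 = m ^ 2 - x1 - x2) (a4 : y3 = m * (x1 - x3) - y1) {r : Γ} (r1 : V (x1 / y1) ≤ r)
    (r2 : V (x2 / y2) ≤ r) (hr : r < 1) :
    1 < V x3 ∧ V (x3 / y3 - x1 / y1 - x2 / y2) ≤ r ^ 7 := by
  have h1 := ne_L12 V (size_L12 V hk e1 hx1).2.1
  have h2 := ne_L12 V (size_L12 V hk e2 hx2).2.1
  have u1 := u_lt_L12 V hk e1 hx1
  have u2 := u_lt_L12 V hk e2 hx2
  have vD : V (1 + k * (y1⁻¹ * y1⁻¹ + y1⁻¹ * y2⁻¹ + y2⁻¹ * y2⁻¹)) = 1 :=
    unit_L12 V (mul_lt_L12 V hk (add_lt_L12 V (add_lt_L12 V (mul_lt_L12 V u1.le u1)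
      (mul_lt_L12 V u1.le u2)) (mul_lt_L12 V u2.le u2)))
  have hD : 1 + k * (y1⁻¹ * y1⁻¹ + y1⁻¹ * y2⁻¹ + y2⁻¹ * y2⁻¹) ≠ 0 := by
    intro h
    rw [h] at vD
    simp at vD
  have key := slope_L12 e1 e2 h1 h2 a1 a2 hD
  obtain ⟨D, hDe⟩ : ∃ D, D = 1 + k * (y1⁻¹ * y1⁻¹ + y1⁻¹ * y2⁻¹ + y2⁻¹ * y2⁻¹) := ⟨_, rfl⟩
  rw [← hDe] at vD hD key
  obtain ⟨c, hc⟩ : ∃ c, c = y1 - m * x1 := ⟨_, rfl⟩
  rw [← hc] at key
  obtain ⟨l, hl⟩ : ∃ l, l = ((x1 / y1) ^ 2 + (x1 / y1) * (x2 / y2) + (x2 / y2) ^ 2) / D :=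
    ⟨_, rfl⟩
  have vl : V l ≤ r ^ 2 := by
    rw [hl, map_div₀, vD, div_one]
    refine (V.map_add _ _).trans (max_le ((V.map_add _ _).trans (max_le ?_ ?_)) ?_)
    · rw [map_pow]; exact pow_le_pow_left₀ zero_le r1 2
    · rw [map_mul, pow_two]; exact mul_le_mul' r1 r2
    · rw [map_pow]; exact pow_le_pow_left₀ zero_le r2 2
  have cl : c * l = -m := by
    rw [hl, ← mul_div_assoc, div_eq_iff hD]
    linear_combination key
  obtain ⟨n, hn⟩ : ∃ n, n = y1⁻¹ - l * (x1 / y1) := ⟨_, rfl⟩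
  have vn : V n ≤ r ^ 3 := by
    rw [hn]
    refine (V.map_sub _ _).trans (max_le ?_ ?_)
    · rw [u_eq_L12 V hk e1 hx1]; exact pow_le_pow_left₀ zero_le r1 3
    · rw [map_mul, pow_succ r 2]; exact mul_le_mul' vl r1
  have cn : c * n = 1 := by
    have : c * n = c * y1⁻¹ - c * l * (x1 / y1) := by rw [hn]; ring
    rw [this, cl, hc]
    field_simp
    ring
  have mn : m * n = -l := by linear_combination n * cl - l * cn
  have b1 : y1 = m * x1 + c := by rw [hc]; ring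
  have b2 : y2 = m * x2 + c := by rw [hc]; linear_combination a1
  have b3 : y3 = -(m * x3 + c) := by rw [hc, a4]; ring
  have s1 : x1 + x2 + x3 = m ^ 2 := by rw [a3]; ring
  have s2 : x1 * x2 + x3 * (x1 + x2) = -2 * m * c := by
    rw [a3]; linear_combination a2 - m * b1 - m * b2
  have s3 : x1 * x2 * x3 = c ^ 2 + k := by
    linear_combination -e1 + (y1 + m * x1 + c) * b1 + x1 * s2 - x1 ^ 2 * s1
  have p1 : y1 * y2 * y3 = -(c ^ 3 + k * m ^ 3) := by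
    rw [b1, b2, b3]
    linear_combination -m ^ 3 * s3 - m ^ 2 * c * s2 - m * c ^ 2 * s1
  have p2 : x3 * (y1 * y2) - x1 * (y2 * y3) - x2 * (y1 * y3) = 3 * k * m ^ 2 := by
    rw [b1, b2, b3]
    linear_combination 3 * m ^ 2 * s3 + 2 * m * c * s2 + c ^ 2 * s1
  have l1 : V l < 1 := lt_of_le_of_lt vl (pow_lt_one₀ zero_le hr (by norm_num))
  have n1 : V n < 1 := lt_of_le_of_lt vn (pow_lt_one₀ zero_le hr (by norm_num))
  have vE : V (1 + -k * (l * (l * l))) = 1 := by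
    refine unit_L12 V (mul_lt_L12 V ?_ (mul_lt_L12 V l1.le (mul_lt_L12 V l1.le l1)))
    rw [Valuation.map_neg]; exact hk
  have q1 : n ^ 3 * (y1 * y2 * y3) = -(1 + -k * (l * (l * l))) := by
    rw [p1]
    linear_combination -((c * n) ^ 2 + c * n + 1) * cn -
      k * ((m * n) ^ 2 - m * n * l + l ^ 2) * mn
  have hE : 1 + -k * (l * (l * l)) ≠ 0 := by
    intro h
    rw [h] at vE
    simp at vE
  have h3 : y3 ≠ 0 := by
    intro h
    rw [h, mul_zero, mul_zero] at q1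
    exact hE (neg_eq_zero.1 q1.symm)
  have q2 : (x3 / y3 - x1 / y1 - x2 / y2) * (1 + -k * (l * (l * l))) = -(3 * k * (l ^ 2 * n)) := by
    have t : (x3 / y3 - x1 / y1 - x2 / y2) * (y1 * y2 * y3) = 3 * k * m ^ 2 := by
      rw [← p2]; field_simp
    linear_combination (x3 / y3 - x1 / y1 - x2 / y2) * q1 - n ^ 3 * t -
      3 * k * n * (m * n - l) * mn
  have fin : V (x3 / y3 - x1 / y1 - x2 / y2) ≤ r ^ 7 := by
    have := congrArg V q2
    rw [map_mul, vE, mul_one, Valuation.map_neg, map_mul, map_mul V (l ^ 2), map_pow] at this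
    rw [this]
    refine (mul_le_of_le_one_left' (three_le_L12 V hk)).trans ?_
    calc V l ^ 2 * V n ≤ (r ^ 2) ^ 2 * r ^ 3 := mul_le_mul' (pow_le_pow_left₀ zero_le vl 2) vn
      _ = r ^ 7 := by rw [← pow_mul, ← pow_add]
  refine ⟨big_L12 V hk e3 ?_, fin⟩
  have z3 : V (x3 / y3) < 1 := by
    have : x3 / y3 = (x3 / y3 - x1 / y1 - x2 / y2) + (x1 / y1 + x2 / y2) := by ring
    rw [this]
    exact add_lt_L12 V (lt_of_le_of_lt fin (pow_lt_one₀ zero_le hr (by norm_num)))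
      (add_lt_L12 V (lt_of_le_of_lt r1 hr) (lt_of_le_of_lt r2 hr))
  have u3 : y3⁻¹ = -n + l * (x3 / y3) := by
    have : n * y3 = l * x3 - 1 := by linear_combination n * b3 - x3 * mn - cn
    field_simp
    linear_combination this
  have v3 : V y3⁻¹ < 1 := by
    rw [u3]
    refine add_lt_L12 V ?_ (mul_lt_L12 V l1.le z3)
    rw [Valuation.map_neg]; exact n1
  rw [map_inv₀] at v3
  exact (inv_lt_one₀ (zero_lt_iff.2 ((V.ne_zero_iff).2 h3))).1 v3

end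

theorem z0_L12 {F : Type} [Field F] {d : F} : zc (0 : Pt d) = 0 := by rw [zc, px_zero, zero_div]

theorem zneg_L12 {F : Type} [Field F] {d : F} (P : Pt d) : zc (-P) = -zc P := by
  rw [zc, zc, px_neg, py_neg, div_neg]

theorem eqn_L12 {F : Type} [Field F] {d : F} {P : Pt d} (h : P ≠ 0) :
    py P ^ 2 = px P ^ 3 + - -d := by rw [neg_neg]; exact eqn h

theorem l1 : L1Stmt := by
  intro p _ d _ hd
  obtain ⟨V, hV⟩ : ∃ V : Valuation ℚ_[p] NNReal, ∀ x, (V x : ℝ) = ‖x‖ :=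
    ⟨NormedField.valuation, fun x => rfl⟩
  have hk : V (-d) ≤ 1 := by rw [← NNReal.coe_le_coe, hV, norm_neg]; exact hd
  have h1 : ∀ x, 1 < ‖x‖ ↔ 1 < V x := fun x => by rw [← NNReal.coe_lt_coe, hV, NNReal.coe_one]
  have zl : ∀ P : Pt d, E1 P → V (zc P) < 1 := fun P h => by
    by_cases hP : P = 0
    · rw [hP, z0_L12, map_zero]; exact zero_lt_one
    · exact z_lt_L12 V hk (eqn_L12 hP) ((h1 _).1 (h.resolve_left hP))
  refine ⟨fun P hP h => ⟨?_, ?_⟩, fun R S r e1 e2 r1 r2 => ?_⟩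
  · rw [← hV]; exact_mod_cast zl P h
  · have a := (two_L12 V hk (eqn_L12 hP) ((h1 _).1 (h.resolve_left hP))).2
    have b := congrArg NNReal.toReal (unit_L12 V a)
    rwa [add_sub_cancel, hV, norm_mul, norm_pow] at b
  have r0 : 0 ≤ r ^ 7 := pow_nonneg ((norm_nonneg _).trans r1) 7
  by_cases hR : R = 0
  · rw [hR, zero_add, z0_L12, sub_zero, sub_self, norm_zero]
    exact ⟨e2, r0⟩
  by_cases hS : S = 0
  · rw [hS, add_zero, z0_L12, sub_zero, sub_self, norm_zero]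
    exact ⟨e1, r0⟩
  by_cases h : R + S = 0
  · have : zc (R + S) - zc R - zc S = 0 := by
      rw [h, z0_L12, eq_neg_of_add_eq_zero_left h, zneg_L12]; ring
    rw [this, norm_zero]
    exact ⟨.inl h, r0⟩
  obtain ⟨m, a1, a2, a3, a4⟩ := add_data hR hS h
  obtain ⟨c1, c2⟩ := main_L12 V hk (eqn_L12 hR) (eqn_L12 hS) (eqn_L12 h)
    ((h1 _).1 (e1.resolve_left hR)) ((h1 _).1 (e2.resolve_left hS)) a1 a2 a3 a4
    (r := max (V (zc R)) (V (zc S))) (le_max_left _ _) (le_max_right _ _)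
    (max_lt (zl R e1) (zl S e2))
  refine ⟨.inr ((h1 _).2 c1), ?_⟩
  rw [← NNReal.coe_le_coe, hV, NNReal.coe_pow, NNReal.coe_max, hV, hV] at c2
  exact c2.trans (pow_le_pow_left₀ (le_max_of_le_left (norm_nonneg _)) (max_le r1 r2) 7)

section

variable {p : ℕ} [Fact p.Prime] {d : ℚ_[p]}

theorem lt_L12 (h : L1Stmt) (h0 : d ≠ 0) (hd : ‖d‖ ≤ 1) {P : Pt d} (hP : E1 P) : ‖zc P‖ < 1 := by
  by_cases e : P = 0
  · rw [e, z0_L12, norm_zero]; exact zero_lt_one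
  · exact ((h p d h0 hd).1 P e hP).1

theorem nsmul_L12 (h : L1Stmt) (h0 : d ≠ 0) (hd : ‖d‖ ≤ 1) {P : Pt d} (hP : E1 P) (n : ℕ) :
    E1 (n • P) ∧ ‖zc (n • P) - n * zc P‖ ≤ ‖zc P‖ ^ 7 := by
  have z1 := lt_L12 h h0 hd hP
  induction n with
  | zero => exact ⟨.inl (zero_smul _ _), by simp [z0_L12]⟩
  | succ n ih =>
    have a : ‖zc (n • P)‖ ≤ ‖zc P‖ := by
      rw [← sub_add_cancel (zc (n • P)) (n * zc P)]
      refine (IsUltrametricDist.norm_add_le_max _ _).trans (max_le (ih.2.trans ?_) ?_)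
      · exact pow_le_of_le_one (norm_nonneg _) z1.le (by norm_num)
      · rw [norm_mul]
        exact mul_le_of_le_one_left (norm_nonneg _) (IsUltrametricDist.norm_natCast_le_one _ n)
    obtain ⟨b, c⟩ := (h p d h0 hd).2 _ _ _ ih.1 hP a le_rfl
    rw [succ_nsmul]
    refine ⟨b, ?_⟩
    have e : zc (n • P + P) - (n + 1 : ℕ) * zc P =
        (zc (n • P + P) - zc (n • P) - zc P) + (zc (n • P) - n * zc P) := by push_cast; ring
    rw [e]
    exact (IsUltrametricDist.norm_add_le_max _ _).trans (max_le c ih.2)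

theorem eq_L12 (h : L1Stmt) (h0 : d ≠ 0) (hd : ‖d‖ ≤ 1) {P : Pt d} (hP : E1 P) {n : ℕ}
    (hn : (p : ℝ)⁻¹ ≤ ‖(n : ℚ_[p])‖) : ‖zc (n • P)‖ = ‖(n : ℚ_[p])‖ * ‖zc P‖ := by
  have a := (nsmul_L12 h h0 hd hP n).2
  have z1 := lt_L12 h h0 hd hP
  by_cases z : zc P = 0
  · simpa [z] using a
  have z0 : 0 < ‖zc P‖ := norm_pos_iff.2 z
  have z2 : ‖zc P‖ ≤ (p : ℝ)⁻¹ := by
    have := (Padic.norm_le_pow_iff_norm_lt_pow_add_one (zc P) (-1)).2 (by simpa using z1)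
    simpa using this
  have b : ‖zc P‖ ^ 7 < ‖(n : ℚ_[p]) * zc P‖ := by
    rw [norm_mul, pow_succ]
    refine mul_lt_mul_of_pos_right (lt_of_lt_of_le ?_ (z2.trans hn)) z0
    exact pow_lt_self_of_lt_one₀ z0 z1 (by norm_num)
  rw [← norm_mul, ← sub_add_cancel (zc (n • P)) (n * zc P),
    IsUltrametricDist.norm_add_eq_max_of_norm_ne_norm (a.trans_lt b).ne, max_eq_right (a.trans b.le)]

theorem norm_L12 (h : L1Stmt) (h0 : d ≠ 0) (hd : ‖d‖ ≤ 1) {P : Pt d} (hP : E1 P) (n : ℕ) :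
    ‖zc (n • P)‖ = ‖(n : ℚ_[p])‖ * ‖zc P‖ := by
  have hp : p.Prime := Fact.out
  induction n using Nat.strong_induction_on with
  | _ n ih =>
    rcases Nat.eq_zero_or_pos n with rfl | hn
    · simp [z0_L12]
    by_cases e : p ∣ n
    · obtain ⟨m, rfl⟩ := e
      have hm : m < p * m := lt_mul_of_one_lt_left (Nat.pos_of_mul_pos_left hn) hp.one_lt
      rw [mul_smul, eq_L12 h h0 hd (nsmul_L12 h h0 hd hP m).1 (by rw [Padic.norm_p]), ih m hm,
        Nat.cast_mul, norm_mul, mul_assoc]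
    · refine eq_L12 h h0 hd hP ?_
      rw [Padic.norm_natCast_eq_one_iff.2 ((Nat.Prime.coprime_iff_not_dvd hp).2 e)]
      exact inv_le_one_of_one_le₀ (by exact_mod_cast hp.one_le)

end

theorem l2 (h : L1Stmt) : L2Stmt := by
  intro p _ d h0 hd P hP a
  have k : E1 (a • P) ∧ ‖zc (a • P) - a * zc P‖ ≤ ‖zc P‖ ^ 7 ∧
      ‖zc (a • P)‖ = ‖(a : ℚ_[p])‖ * ‖zc P‖ := by
    obtain ⟨n, rfl | rfl⟩ := Int.eq_nat_or_neg a
    · rw [natCast_zsmul, Int.cast_natCast]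
      exact ⟨(nsmul_L12 h h0 hd hP n).1, (nsmul_L12 h h0 hd hP n).2, norm_L12 h h0 hd hP n⟩
    · rw [neg_smul, natCast_zsmul, zneg_L12, Int.cast_neg, Int.cast_natCast, norm_neg, norm_neg,
        neg_mul, neg_sub_neg, norm_sub_rev]
      refine ⟨?_, (nsmul_L12 h h0 hd hP n).2, norm_L12 h h0 hd hP n⟩
      rw [E1, neg_eq_zero, px_neg]
      exact (nsmul_L12 h h0 hd hP n).1
  refine ⟨k.1, k.2.1, k.2.2, fun e ha c => ?_⟩
  have b := ((h p d h0 hd).1 P e hP).2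
  have z := k.2.2
  rw [c, z0_L12, norm_zero, eq_comm, mul_eq_zero, norm_eq_zero, Int.cast_eq_zero] at z
  rw [z.resolve_left ha] at b
  simp at b

end Pool.Agent.MP_adc87d_lc.Big

end

section

/-! The twists have rank at most one and no point of order three. -/

set_option autoImplicit false

noncomputable section

namespace Pool.Agent.MP_adc87d_lc.Big

theorem db_ne_Rk {b : ℚ} (hb : b ≠ 0) : db b ≠ 0 := by
  unfold db
  exact mul_ne_zero (by norm_num) (pow_ne_zero _ hb)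

theorem px_ne_Rk {b : ℚ} (hb : b ≠ 0) {P : Pt (db b)} (hP : P ≠ 0) : px P ≠ 0 := fun h => by
  have e := eqn hP
  rw [h] at e
  unfold db at e
  have : 0 < b ^ 2 := by positivity
  nlinarith [sq_nonneg (py P)]

theorem px_ne_dual_Rk {b : ℚ} (hb : b ≠ 0) {P : Pt (-27 * db b)} (hP : P ≠ 0) : px P ≠ 0 :=
  fun h => by
  have e := eqn hP
  rw [h] at e
  generalize py P = y at e
  have h69 : IsSquare (69 : ℚ) := ⟨y / (12 * b), by
    unfold db at e
    field_simp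
    linear_combination (-1 : ℚ) * e⟩
  have h2 : IsSquare (69 : ℕ) := Rat.isSquare_natCast_iff.1 (by exact_mod_cast h69)
  obtain ⟨r, hr⟩ := h2
  have : r < 9 := by nlinarith
  interval_cases r <;> omega

theorem fg_three_Rk {d : ℚ} (hd : d ≠ 0)
    (H : (nsmulAddMonoidHom (α := Pt d) 3).range.FiniteIndex) : AddGroup.FG (Pt d) := by
  have ell : (Ed d).IsElliptic := ⟨by
    rw [isUnit_iff_ne_zero]
    simp [Ed, WeierstrassCurve.Δ, WeierstrassCurve.b₂, WeierstrassCurve.b₄, WeierstrassCurve.b₆,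
      WeierstrassCurve.b₈, hd]⟩
  exact @Pool.Agent.MP_e23604_nt.fg_of_three (Classical.decEq ℚ) (Ed d) ell H

theorem one_gen_Rk {A : Type} [AddCommGroup A] (G₁ G₂ : A)
    (h : ∀ R, ∃ S, R = (3 : ℕ) • S ∨ R - G₁ = (3 : ℕ) • S ∨ R - G₂ = (3 : ℕ) • S) :
    ∃ G : A, ∀ R, ∃ (S : A) (a : ℤ), (a = 0 ∨ a = 1 ∨ a = -1) ∧ R = a • G + (3 : ℕ) • S := by
  have triv : (∃ T, G₁ = (3 : ℕ) • T) →
      ∃ G : A, ∀ R, ∃ (S : A) (a : ℤ), (a = 0 ∨ a = 1 ∨ a = -1) ∧ R = a • G + (3 : ℕ) • S := by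
    rintro ⟨T, hT⟩
    refine ⟨G₂, fun R => ?_⟩
    obtain ⟨S, e | e | e⟩ := h R
    · exact ⟨S, 0, .inl rfl, by rw [e]; simp⟩
    · exact ⟨S + T, 0, .inl rfl, by rw [smul_add, ← e, ← hT]; simp⟩
    · exact ⟨S, 1, .inr (.inl rfl), by rw [← e]; simp⟩
  obtain ⟨T, t | t | t⟩ := h (-G₁)
  · exact triv ⟨-T, by rw [smul_neg, ← t, neg_neg]⟩
  · exact triv ⟨G₁ + T, by rw [smul_add, ← t]; abel⟩
  · refine ⟨G₁, fun R => ?_⟩
    obtain ⟨S, e | e | e⟩ := h R
    · exact ⟨S, 0, .inl rfl, by rw [e]; simp⟩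
    · exact ⟨S, 1, .inr (.inl rfl), by rw [← e]; simp⟩
    · exact ⟨S - T, -1, .inr (.inr rfl), by rw [smul_sub, ← e, ← t]; abel⟩

theorem rank_one_Rk {A : Type} [AddCommGroup A]
    (fg : (nsmulAddMonoidHom (α := A) 3).range.FiniteIndex → AddGroup.FG A) (G : A)
    (h : ∀ R, ∃ (S : A) (a : ℤ), (a = 0 ∨ a = 1 ∨ a = -1) ∧ R = a • G + (3 : ℕ) • S) :
    AddGroup.FG A ∧ ∀ R S : A, ∃ m n : ℤ, (m ≠ 0 ∨ n ≠ 0) ∧ m • R = n • S := by
  have mem : ∀ S : A, (3 : ℕ) • S ∈ (nsmulAddMonoidHom (α := A) 3).range := fun S => ⟨S, rfl⟩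
  have fin : Finite (A ⧸ (nsmulAddMonoidHom (α := A) 3).range) := by
    refine Finite.of_surjective
      (fun j : Fin 3 => ((![0, G, -G] j : A) : A ⧸ (nsmulAddMonoidHom (α := A) 3).range))
      fun c => ?_
    obtain ⟨R, rfl⟩ := QuotientAddGroup.mk_surjective c
    obtain ⟨S, a, rfl | rfl | rfl, e⟩ := h R
    · exact ⟨0, (QuotientAddGroup.eq_iff_sub_mem.2 (by
        change R - 0 ∈ _
        rw [e, zero_smul, zero_add, sub_zero]; exact mem S)).symm⟩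
    · exact ⟨1, (QuotientAddGroup.eq_iff_sub_mem.2 (by
        change R - G ∈ _
        rw [e, one_smul, add_sub_cancel_left]; exact mem S)).symm⟩
    · exact ⟨2, (QuotientAddGroup.eq_iff_sub_mem.2 (by
        change R - -G ∈ _
        rw [e, neg_smul, one_smul, add_sub_cancel_left]; exact mem S)).symm⟩
  have hfg0 : AddGroup.FG A := fg AddSubgroup.finiteIndex_of_finite_quotient
  refine ⟨hfg0, fun R S => ?_⟩
  have hfg : Module.Finite ℤ A := Module.Finite.iff_addGroup_fg.2 hfg0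
  have m3 : ∀ S : A, (3 : ℕ) • S ∈ (Ideal.span {(3 : ℤ)}) • (⊤ : Submodule ℤ A) := fun S => by
    have : (3 : ℕ) • S = (3 : ℤ) • S := by module
    rw [this]
    exact Submodule.smul_mem_smul (Ideal.mem_span_singleton_self _) Submodule.mem_top
  have mG : G ∈ Submodule.span ℤ {G} := Submodule.mem_span_singleton_self G
  obtain ⟨r, hr, hle⟩ := Submodule.exists_sub_one_mem_and_smul_le_of_fg_of_le_sup
    (I := Ideal.span {(3 : ℤ)}) (N := Submodule.span ℤ {G}) (N' := ⊤) (P := ⊤) hfg.fg_top le_rfl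
    (fun R _ => by
      obtain ⟨S, a, -, e⟩ := h R
      exact Submodule.mem_sup.2 ⟨a • G, Submodule.smul_mem _ a mG, _, m3 S, e.symm⟩)
  have r0 : r ≠ 0 := by
    rintro rfl
    rw [Ideal.mem_span_singleton] at hr
    omega
  have key : ∀ R : A, ∃ a : ℤ, a • G = r • R := fun R =>
    Submodule.mem_span_singleton.1 (hle (Submodule.smul_mem_pointwise_smul R r ⊤ trivial))
  obtain ⟨a, ha⟩ := key R
  obtain ⟨b, hb⟩ := key S
  by_cases a0 : a = 0
  · exact ⟨r, 0, .inl r0, by rw [← ha, a0, zero_smul, zero_smul]⟩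
  · refine ⟨b * r, a * r, .inr (mul_ne_zero a0 r0), ?_⟩
    rw [mul_smul, mul_smul, ← ha, ← hb, smul_comm]

theorem rk (h1 : D1Stmt) (h2 : D2Stmt) (h3 : IsoStmt) (h4 : ClsStmt) : RkStmt := by
  intro b hb
  have b0 : b ≠ 0 := hb.1
  have d0 := db_ne_Rk b0
  have d1 : -27 * db b ≠ 0 := mul_ne_zero (by norm_num) d0
  obtain ⟨ψ, φ, h33, hψ, hφ⟩ := h3 (db b) d0
  obtain ⟨c1, c2, c3⟩ := h4 b b0
  have onto : ∀ P : Pt (db b), ∃ S, φ S = P := fun P => by
    by_cases hP : P = 0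
    · exact ⟨0, by rw [map_zero, hP]⟩
    obtain ⟨u, v, e1, -, e3⟩ := h1 b hb _ _ (eqn hP)
    have v0 : v ≠ 0 := by
      rintro rfl
      exact b0 (by linear_combination (1 / 4 : ℚ) * e1)
    obtain ⟨S, S0, Sx, -⟩ := exists_pt d1 (x := 12 * b / v) (y := 36 * b * u / v) (by
      unfold db
      field_simp
      linear_combination (-432 : ℚ) * e1)
    obtain ⟨a1, a2, -⟩ := hφ S (px_ne_dual_Rk b0 S0)
    have e : px P = px (φ S) := by
      rw [a2, Sx, e3]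
      unfold db
      field_simp
      linear_combination (-432 : ℚ) * e1
    rcases eq_or_neg hP a1 e with r | r
    · exact ⟨S, r.symm⟩
    · exact ⟨-S, by rw [map_neg, r]⟩
  have zero : ∀ (S : Pt (-27 * db b)) (u v : ℚ), S ≠ 0 →
      ((py S : ℚ) : ℝ) + 12 * b * √69 = (u + v * √69) ^ 3 → ∃ T, ψ T = S := fun S u v S0 e => by
    obtain ⟨v0, e1, e2⟩ := c2 S u v S0 e
    obtain ⟨T, T0, Tx, -⟩ := exists_pt d0 e1
    obtain ⟨a1, a2, -⟩ := hψ T (px_ne_Rk b0 T0)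
    rcases eq_or_neg S0 a1 (by rw [a2, Tx, e2]) with r | r
    · exact ⟨T, r.symm⟩
    · exact ⟨-T, by rw [map_neg, r]⟩
  have cls : ∀ z : ℝ, ∃ S₁ : Pt (-27 * db b), ∀ (S : Pt (-27 * db b)) (u v : ℚ), S ≠ 0 →
      ((py S : ℚ) : ℝ) + 12 * b * √69 = z * (u + v * √69) ^ 3 → ∃ T, ψ T = S - S₁ := fun z => by
    by_cases hz : ∃ (S₁ : Pt (-27 * db b)) (u v : ℚ), S₁ ≠ 0 ∧
        ((py S₁ : ℚ) : ℝ) + 12 * b * √69 = z * (u + v * √69) ^ 3
    · obtain ⟨S₁, u', v', n1, e1⟩ := hz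
      refine ⟨S₁, fun S u v S0 e => ?_⟩
      by_cases hs : S - S₁ = 0
      · exact ⟨0, by rw [map_zero, hs]⟩
      obtain ⟨u'', v'', e2⟩ := c1 S S₁ z u v u' v' S0 n1 hs e e1
      exact zero _ u'' v'' hs e2
    · exact ⟨0, fun S u v S0 e => absurd ⟨S, u, v, S0, e⟩ hz⟩
  obtain ⟨S₁, k1⟩ := cls (((25 + 3 * √69) / 2) ^ (1 : ℤ))
  obtain ⟨S₂, k2⟩ := cls (((25 + 3 * √69) / 2) ^ (-1 : ℤ))
  obtain ⟨G, hG⟩ := one_gen_Rk (φ S₁) (φ S₂) fun R => by
    obtain ⟨S, rfl⟩ := onto R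
    by_cases S0 : S = 0
    · exact ⟨0, .inl (by rw [S0, map_zero, smul_zero])⟩
    obtain ⟨e, u, v, rfl | rfl | rfl, he⟩ := h2 b hb _ _ (eqn S0)
    · obtain ⟨T, hT⟩ := zero S u v S0 (by rw [he, zpow_zero, one_mul])
      exact ⟨T, .inl (by rw [← hT, h33])⟩
    · obtain ⟨T, hT⟩ := k1 S u v S0 he
      exact ⟨T, .inr (.inl (by rw [← map_sub, ← hT, h33]))⟩
    · obtain ⟨T, hT⟩ := k2 S u v S0 he
      exact ⟨T, .inr (.inr (by rw [← map_sub, ← hT, h33]))⟩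
  obtain ⟨f1, f2⟩ := rank_one_Rk (fg_three_Rk d0) G hG
  refine ⟨f1, f2, fun P hP => ?_, fun P hP => ?_⟩
  · by_contra P0
    exact (hφ _ (px_ne_dual_Rk b0 (hψ P (px_ne_Rk b0 P0)).1)).1 ((h33 P).trans hP)
  · obtain ⟨S, rfl⟩ := onto P
    have S0 : S ≠ 0 := by
      rintro rfl
      exact hP ⟨0, by rw [map_zero, smul_zero]⟩
    obtain ⟨e, u, v, he0, he⟩ := h2 b hb _ _ (eqn S0)
    have he1 : e = 1 ∨ e = -1 := by
      refine he0.resolve_left ?_
      rintro rfl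
      obtain ⟨T, hT⟩ := zero S u v S0 (by rw [he, zpow_zero, one_mul])
      exact hP ⟨T, by rw [← hT, h33]⟩
    obtain ⟨s, t, g1, g2, g3, g4⟩ := c3 S e u v S0 he1 he
    obtain ⟨-, a2, a3⟩ := hφ S (px_ne_dual_Rk b0 S0)
    refine ⟨s, t, g1, g2, ?_, ?_⟩
    · rw [a2, g3, PX, g1]
      unfold db
      field_simp
      ring
    · rw [a3, g3, g4, PY, g1]
      unfold db
      field_simp
      ring

end Pool.Agent.MP_adc87d_lc.Big

end
end
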