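import Pool.Agent.Mg.Fadc87d.G04e6de

set_option linter.all false

/-! Descent in the ring of integers of discriminant -23. -/

set_option autoImplicit false

namespace Pool.Agent.MP_adc87d_lc.Big

theorem red_D1 (n : ℕ) : ∀ A B C : ℤ, A ≤ n → 0 < A → B ^ 2 - 4 * A * C = -23 →
    ∃ k v : ℤ, A * k ^ 2 + B * k * v + C * v ^ 2 = 1 ∨ A * k ^ 2 + B * k * v + C * v ^ 2 = 2 := by
  induction n with
  | zero => intro A B C h1 h2 _; omega
  | succ n ih =>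
    intro A B C h1 h2 h
    obtain ⟨q, h3, h4⟩ : ∃ q, -A ≤ B - 2 * A * q ∧ B - 2 * A * q < A := by
      have e1 := Int.emod_add_mul_ediv (B + A) (2 * A)
      have e2 := Int.emod_nonneg (B + A) (by omega : 2 * A ≠ 0)
      have e3 := Int.emod_lt_of_pos (B + A) (by omega : 0 < 2 * A)
      exact ⟨(B + A) / (2 * A), by omega, by omega⟩
    have e : (B - 2 * A * q) ^ 2 - 4 * (A * q ^ 2 - B * q + C) * A = -23 := by linear_combination h
    have h5 : (B - 2 * A * q) ^ 2 ≤ A ^ 2 := sq_le_sq' h3 h4.le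
    by_cases h6 : A * q ^ 2 - B * q + C < A
    · obtain ⟨k, v, hk⟩ := ih _ _ _ (by omega) (by nlinarith [sq_nonneg (B - 2 * A * q)]) e
      exact ⟨v - q * k, k, hk.imp (fun a => by linear_combination a) fun a => by linear_combination a⟩
    · have : A ≤ 2 := by nlinarith
      exact ⟨1, 0, by omega⟩

theorem mod9_D1 : ∀ u v B : ZMod 9, (B = 4 ∨ B = -4 ∨ B = 0) →
    (8 * B = u ^ 3 + 6 * u ^ 2 * v - 12 * u * v ^ 2 - 16 * v ^ 3 ∨
      8 * B = -(u ^ 3 + 6 * u ^ 2 * v - 12 * u * v ^ 2 - 16 * v ^ 3) ∨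
      8 * B = -u ^ 3 + 3 * u ^ 2 * v + 21 * u * v ^ 2 + v ^ 3 ∨
      8 * B = -(-u ^ 3 + 3 * u ^ 2 * v + 21 * u * v ^ 2 + v ^ 3)) → 3 * u = 0 ∧ 3 * v = 0 := by
  decide

theorem core_D1 (c B a : ℤ) (hc : IsCoprime c B) (ha : 0 < a) (h : c ^ 2 + c * B + 6 * B ^ 2 = a ^ 3)
    (h9 : (B : ZMod 9) = 4 ∨ (B : ZMod 9) = -4 ∨ (B : ZMod 9) = 0) :
    ∃ s t : ℤ, c = s ^ 3 - 18 * s * t ^ 2 - 6 * t ^ 3 ∧ B = 3 * s ^ 2 * t + 3 * s * t ^ 2 - 5 * t ^ 3 := by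
  have c1 : IsCoprime (a ^ 3) B := by
    rw [← h, show c ^ 2 + c * B + 6 * B ^ 2 = c ^ 2 + B * (c + 6 * B) by ring]
    exact hc.pow_left.add_mul_left_left _
  obtain ⟨x, y, hxy⟩ := id c1
  obtain ⟨ν, t, hν⟩ : ∃ ν t, c = ν * B + a ^ 3 * t := ⟨c * y, c * x, by linear_combination -c * hxy⟩
  obtain ⟨m, hm⟩ : a ^ 3 ∣ ν ^ 2 + ν + 6 := (c1.pow_right (n := 2)).dvd_of_dvd_mul_right
    ⟨1 - t * (2 * c + B) + a ^ 3 * t ^ 2, by
      linear_combination h - (c + ν * B - a ^ 3 * t + B) * hν⟩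
  obtain ⟨k, v, hj⟩ := red_D1 a.toNat a (2 * ν + 1) (a ^ 2 * m) (by omega) ha
    (by linear_combination 4 * hm)
  obtain ⟨j, hj, hj'⟩ : ∃ j, a * k ^ 2 + (2 * ν + 1) * k * v + a ^ 2 * m * v ^ 2 = j ∧
      (j = 1 ∨ j = 2) := ⟨_, rfl, hj⟩
  obtain ⟨u, hu⟩ : ∃ u, u = v * ν + a * k := ⟨_, rfl⟩
  have hn : u ^ 2 + u * v + 6 * v ^ 2 = a * j := by
    rw [hu]; linear_combination a * hj + v ^ 2 * hm
  let w : QuadraticAlgebra ℤ (-6) 1 := ⟨0, 1⟩
  have hw : w ^ 2 - w + 6 = 0 := by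
    ext <;> simp [w, sq, QuadraticAlgebra.re_ofNat, QuadraticAlgebra.im_ofNat]
  have cast := fun {p q : ℤ} (e : p = q) => congrArg (Int.cast : ℤ → QuadraticAlgebra ℤ (-6) 1) e
  have eν := cast hν
  have em := cast hm
  have eu := cast hu
  have en := cast hn
  push_cast at eν em eu en
  obtain ⟨δ, hδ⟩ : ∃ δ : QuadraticAlgebra ℤ (-6) 1,
      (c + B * w) * (u + v * (1 - w)) ^ 3 = a ^ 3 * δ :=
    ⟨B * m * (v ^ 3 * (ν + 1 - w) ^ 2 + 3 * v ^ 2 * (ν + 1 - w) * a * k + 3 * v * a ^ 2 * k ^ 2) +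
      B * (ν + w) * k ^ 3 + t * (u + v * (1 - w)) ^ 3, by
      rw [eν, eu]
      linear_combination B * (v ^ 3 * (ν + 1 - w) ^ 2 + 3 * v ^ 2 * (ν + 1 - w) * a * k +
        3 * v * a ^ 2 * k ^ 2) * (em - hw)⟩
  have e1 : (u + v * w) * (u + v * (1 - w)) = (a : QuadraticAlgebra ℤ (-6) 1) * j := by
    linear_combination en - v ^ 2 * hw
  have e2 : (a : QuadraticAlgebra ℤ (-6) 1) ^ 3 * (j ^ 3 * (c + B * w)) =
      a ^ 3 * (δ * (u + v * w) ^ 3) := by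
    linear_combination (u + v * w) ^ 3 * hδ - (c + B * w) *
      (((u + v * w) * (u + v * (1 - w))) ^ 2 + (u + v * w) * (u + v * (1 - w)) * (a * j) +
        (a * j) ^ 2) * e1
  obtain ⟨d, e⟩ := δ
  have r := congrArg QuadraticAlgebra.re e2
  have i := congrArg QuadraticAlgebra.im e2
  have a3 : a ^ 3 ≠ 0 := pow_ne_zero 3 ha.ne'
  simp [w, pow_succ, ha.ne'] at r i
  have r' : j ^ 3 * c = d * (u ^ 3 - 18 * u * v ^ 2 - 6 * v ^ 3) -
      6 * e * (3 * u ^ 2 * v + 3 * u * v ^ 2 - 5 * v ^ 3) := by linear_combination r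
  have i' : j ^ 3 * B = e * (u ^ 3 - 18 * u * v ^ 2 - 6 * v ^ 3) +
      (d + e) * (3 * u ^ 2 * v + 3 * u * v ^ 2 - 5 * v ^ 3) := by linear_combination i
  have hN : (j ^ 3 * c) ^ 2 + (j ^ 3 * c) * (j ^ 3 * B) + 6 * (j ^ 3 * B) ^ 2 =
      (d ^ 2 + d * e + 6 * e ^ 2) * (u ^ 2 + u * v + 6 * v ^ 2) ^ 3 := by rw [r', i']; ring
  rw [hn] at hN
  rcases hj' with rfl | rfl
  · have n1 : d ^ 2 + d * e + 6 * e ^ 2 = 1 := mul_left_cancel₀ a3 (by linear_combination h - hN)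
    have e0 : e = 0 := by nlinarith [sq_nonneg (2 * d + e), sq_nonneg (e - 1), sq_nonneg (e + 1)]
    subst e0
    have : d = 1 ∨ d = -1 := sq_eq_one_iff.1 (by linarith)
    rcases this with rfl | rfl
    · exact ⟨u, v, by linear_combination r', by linear_combination i'⟩
    · exact ⟨-u, -v, by linear_combination r', by linear_combination i'⟩
  · exfalso
    have n1 : 8 * (d ^ 2 + d * e + 6 * e ^ 2) = 64 :=
      mul_left_cancel₀ a3 (by linear_combination 64 * h - hN)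
    have b1 : -1 ≤ e := by nlinarith [sq_nonneg (2 * d + e)]
    have b2 : e ≤ 1 := by nlinarith [sq_nonneg (2 * d + e)]
    have b3 : -3 ≤ d := by nlinarith [sq_nonneg (d + e)]
    have b4 : d ≤ 3 := by nlinarith [sq_nonneg (d + e)]
    have i9 := congrArg (Int.cast : ℤ → ZMod 9) i'
    obtain ⟨g1, g2⟩ := mod9_D1 u v B h9 (by
      interval_cases e <;> interval_cases d <;> first | omega | skip
      all_goals push_cast at i9
      · exact .inr (.inl (by linear_combination i9))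
      · exact .inr (.inr (.inl (by linear_combination i9)))
      · exact .inr (.inr (.inr (by linear_combination i9)))
      · exact .inl (by linear_combination i9))
    have k1 : ∀ z : ℤ, 3 * (z : ZMod 9) = 0 → ∃ z', z = 3 * z' := fun z hz => by
      have := (ZMod.intCast_zmod_eq_zero_iff_dvd (3 * z) 9).1 (by push_cast; exact hz)
      exact ⟨z / 3, by omega⟩
    obtain ⟨u', rfl⟩ := k1 u g1
    obtain ⟨v', rfl⟩ := k1 v g2
    have d1 : (3 : ℤ) ∣ c := by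
      have : (3 : ℤ) ∣ 2 ^ 3 * c := by rw [r']; exact ⟨9 * (d * (u' ^ 3 - 18 * u' * v' ^ 2 - 6 * v' ^ 3) -
        6 * e * (3 * u' ^ 2 * v' + 3 * u' * v' ^ 2 - 5 * v' ^ 3)), by ring⟩
      omega
    have d2 : (3 : ℤ) ∣ B := by
      have : (3 : ℤ) ∣ 2 ^ 3 * B := by rw [i']; exact ⟨9 * (e * (u' ^ 3 - 18 * u' * v' ^ 2 - 6 * v' ^ 3) +
        (d + e) * (3 * u' ^ 2 * v' + 3 * u' * v' ^ 2 - 5 * v' ^ 3)), by ring⟩
      omega
    exact Int.prime_three.not_isUnit (hc.isUnit_of_dvd' d1 d2)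

theorem inert_D1 {p : ℕ} [hp : Fact p.Prime] (hs : Sil p) {c B : ℤ} (hB : ¬(p : ℤ) ∣ B)
    (h : (p : ℤ) ∣ c ^ 2 + c * B + 6 * B ^ 2) : False := by
  have : Fact (Nat.Prime 23) := ⟨by norm_num⟩
  have h0 : (B : ZMod p) ≠ 0 := fun e => hB ((ZMod.intCast_zmod_eq_zero_iff_dvd B p).1 e)
  have h1 := (ZMod.intCast_zmod_eq_zero_iff_dvd _ p).2 h
  push_cast at h1
  have h2 : IsSquare (-23 : ZMod p) := ⟨(2 * c + B) / B, by
    field_simp; linear_combination -4 * h1⟩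
  have h3 := hs.1
  have h4 : p % 2 = 1 := hp.out.eq_two_or_odd.resolve_left (by rintro rfl; omega)
  have h5 : p ≠ 23 := by rintro rfl; omega
  by_cases h6 : p % 4 = 3
  · have h7 := (ZMod.exists_sq_eq_prime_iff_of_mod_four_eq_three h6 (by norm_num) h5).2 hs.2
    have h8 : ((23 : ℕ) : ZMod p) ≠ 0 := fun e =>
      h5 ((Nat.prime_dvd_prime_iff_eq hp.out this.out).1 ((ZMod.natCast_eq_zero_iff 23 p).1 e))
    push_cast at h7 h8
    refine ZMod.exists_sq_eq_neg_one_iff.1 ?_ h6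
    simpa [neg_div, h8] using h2.div h7
  · refine hs.2 ((ZMod.exists_sq_eq_prime_iff_of_mod_four_eq_one (by omega) (by norm_num)).1 ?_)
    simpa using (ZMod.exists_sq_eq_neg_one_iff.2 h6).mul h2

theorem cube_D1 {n : ℕ} (h0 : n ≠ 0) (h : ∀ p : ℕ, p.Prime → 3 ∣ padicValNat p n) :
    ∃ a : ℕ, n = a ^ 3 := by
  refine ⟨∏ p ∈ n.primeFactors, p ^ (n.factorization p / 3), ?_⟩
  rw [← Finset.prod_pow]
  conv_lhs => rw [← Nat.prod_factorization_pow_eq_self h0]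
  refine Finset.prod_congr rfl fun p hp => ?_
  have hp' := Nat.prime_of_mem_primeFactors hp
  rw [← pow_mul, Nat.div_mul_cancel (by rw [Nat.factorization_def _ hp']; exact h p hp')]

theorem unit9_D1 : ∀ m e B : ZMod 9, 3 * e ≠ 0 → (m ^ 3 * B - 4 * e ^ 3 = 0 ∨ m ^ 3 * B + 4 * e ^ 3 = 0) →
    B = 4 ∨ B = -4 ∨ B = 0 := by decide

theorem three_D1 {μ : ℚ} {B : ℤ}
    (h : padicNorm 3 (μ ^ 3 * B - 4) ≤ 1 / 9 ∨ padicNorm 3 (μ ^ 3 * B + 4) ≤ 1 / 9) :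
    (B : ZMod 9) = 4 ∨ (B : ZMod 9) = -4 ∨ (B : ZMod 9) = 0 := by
  have : Fact (Nat.Prime 3) := ⟨by norm_num⟩
  have key : ∀ ε : ℤ, padicNorm 3 (μ ^ 3 * B + ε) ≤ 1 / 9 →
      (9 : ℤ) ∣ μ.num ^ 3 * B + ε * μ.den ^ 3 := fun ε hε => by
    refine (padicNorm.dvd_iff_norm_le (p := 3) (n := 2)).2 ?_
    have e : ((μ.num ^ 3 * B + ε * μ.den ^ 3 : ℤ) : ℚ) = (μ ^ 3 * B + ε) * ((μ.den ^ 3 : ℕ) : ℚ) := by
      push_cast; rw [← Rat.mul_den_eq_num]; ring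
    rw [e, padicNorm.mul]
    exact (mul_le_of_le_one_right (padicNorm.nonneg _) (padicNorm.of_nat _)).trans
      (hε.trans (by norm_num))
  have h2 : (μ.num : ZMod 9) ^ 3 * B - 4 * (μ.den : ℤ) ^ 3 = 0 ∨
      (μ.num : ZMod 9) ^ 3 * B + 4 * (μ.den : ℤ) ^ 3 = 0 := by
    refine h.imp (fun h => ?_) fun h => ?_
    · have := (ZMod.intCast_zmod_eq_zero_iff_dvd _ 9).2 (key (-4) (by simpa [sub_eq_add_neg] using h))
      push_cast at this ⊢
      linear_combination this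
    · have := (ZMod.intCast_zmod_eq_zero_iff_dvd _ 9).2 (key 4 (by simpa using h))
      push_cast at this ⊢
      linear_combination this
  by_cases h3 : 3 * (((μ.den : ℤ)) : ZMod 9) = 0
  · have h4 : 3 * (μ.num : ZMod 9) ≠ 0 := fun e => by
      have a1 := (ZMod.intCast_zmod_eq_zero_iff_dvd (3 * μ.num) 9).1 (by push_cast; exact e)
      have a2 := (ZMod.intCast_zmod_eq_zero_iff_dvd (3 * μ.den) 9).1 (by push_cast at h3 ⊢; exact h3)
      exact Int.prime_three.not_isUnit ((Rat.isCoprime_num_den μ).isUnit_of_dvd' (by omega) (by omega))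
    revert h2 h3 h4
    generalize (μ.num : ZMod 9) = m
    generalize (((μ.den : ℤ)) : ZMod 9) = e
    generalize (B : ZMod 9) = b
    revert m e b
    decide
  · exact unit9_D1 _ _ _ h3 h2

theorem d1 : D1Stmt := by
  intro b hb X Y h
  obtain ⟨c, B, l, hc, hB, ey, eb⟩ : ∃ (c B : ℤ) (l : ℚ), IsCoprime c B ∧ 0 < B ∧
      (Y - 4 * b) / 8 = l * c ∧ b = l * B := by
    obtain ⟨r, hr⟩ : ∃ r, (Y - 4 * b) / 8 = r * b := ⟨_, (div_mul_cancel₀ _ hb.1).symm⟩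
    have hd : (r.den : ℚ) ≠ 0 := by exact_mod_cast Rat.den_nz _
    refine ⟨r.num, r.den, b / r.den, Rat.isCoprime_num_den _, by exact_mod_cast Rat.den_pos _,
      ?_, ?_⟩
    · rw [hr, ← Rat.mul_den_eq_num]; field_simp
    · push_cast; rw [div_mul_cancel₀ _ hd]
  have hl : l ≠ 0 := fun e => hb.1 (by rw [eb, e, zero_mul])
  have hB' : (B : ℚ) ≠ 0 := by exact_mod_cast hB.ne'
  obtain ⟨n, hn⟩ := Int.eq_ofNat_of_zero_le (a := c ^ 2 + c * B + 6 * B ^ 2)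
    (by nlinarith [sq_nonneg (2 * c + B)])
  have hn0 : n ≠ 0 := by
    rintro rfl
    rw [Nat.cast_zero] at hn
    nlinarith [sq_nonneg (2 * c + B), mul_pos hB hB]
  have hn' : (c : ℚ) ^ 2 + c * B + 6 * B ^ 2 = n := by exact_mod_cast hn
  have eY : Y = 8 * (l * c) + 4 * (l * B) := by rw [← ey, ← eb]; ring
  have e1 : l ^ 2 * n = (X / 4) ^ 3 := by
    rw [← hn']; rw [eY, eb, db] at h; linear_combination h / 64
  obtain ⟨a, rfl⟩ := cube_D1 hn0 fun p hp => by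
    have : Fact p.Prime := ⟨hp⟩
    by_cases hpn : p ∣ n
    · have h1 : (p : ℤ) ∣ c ^ 2 + c * B + 6 * B ^ 2 := hn ▸ Int.natCast_dvd_natCast.2 hpn
      have h2 : ¬(p : ℤ) ∣ B := fun hd => (Nat.prime_iff_prime_int.1 hp).not_isUnit
        (hc.isUnit_of_dvd' ((Nat.prime_iff_prime_int.1 hp).dvd_of_dvd_pow (n := 2)
          ((dvd_add_left (hd.mul_right (c + 6 * B))).1 (by rwa [mul_add, mul_comm B c, mul_left_comm, ← sq, ← add_assoc]))) hd)
      have h3 : (3 : ℤ) ∣ padicValRat p b := not_not.1 fun k => inert_D1 (hb.2.2 p hp k) h2 h1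
      rw [eb, padicValRat.mul hl hB', padicValRat.of_int, padicValInt.eq_zero_of_not_dvd h2] at h3
      have h4 := congrArg (padicValRat p) e1
      rw [padicValRat.mul (pow_ne_zero 2 hl) (by exact_mod_cast hn0), padicValRat.pow,
        padicValRat.pow, padicValRat.of_nat] at h4
      push_cast at h3 h4
      obtain ⟨z, hz⟩ := h3
      exact Int.natCast_dvd_natCast.1 ⟨padicValRat p (X / 4) - 2 * z, by
        push_cast; linear_combination h4 - 2 * hz⟩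
    · rw [padicValNat.eq_zero_of_not_dvd hpn]; exact dvd_zero 3
  have ha : (a : ℚ) ≠ 0 := by exact_mod_cast (pow_ne_zero_iff three_ne_zero).1 hn0
  have hX : X ≠ 0 := fun e => mul_ne_zero (pow_ne_zero 2 hl) (Nat.cast_ne_zero.2 hn0)
    (by rw [e1, e]; norm_num)
  obtain ⟨μ, rfl⟩ : ∃ μ, l = μ ^ 3 := ⟨l * (4 * a) / X, by
    push_cast at e1
    field_simp
    linear_combination -64 * e1⟩
  obtain ⟨s, t, e2, e3⟩ := core_D1 c B a hc (by exact_mod_cast Nat.pos_of_ne_zero (by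
    exact_mod_cast ha)) (by rw [hn]; push_cast; rfl) (three_D1 (μ := μ) (eb ▸ hb.2.1))
  have f2 : (c : ℚ) = s ^ 3 - 18 * s * t ^ 2 - 6 * t ^ 3 := by exact_mod_cast e2
  have f3 : (B : ℚ) = 3 * s ^ 2 * t + 3 * s * t ^ 2 - 5 * t ^ 3 := by exact_mod_cast e3
  refine ⟨μ * (2 * s + t), μ * t, by rw [eb, f3]; ring, by rw [eY, f2, f3]; ring, ?_⟩
  apply (Odd.pow_injective (by decide : Odd 3))
  rw [eY, eb, db, f2, f3] at h
  simp only
  linear_combination -h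

end Pool.Agent.MP_adc87d_lc.Big
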