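import Pool.Agent.Mg.Fadc87d.G04e6de

set_option linter.all false

section

/-! Existence of the twist. -/

set_option autoImplicit false

noncomputable section

namespace Pool.Agent.MP_adc87d_lc.Big

theorem nice_CT : Nice 49 := by
  refine ⟨by norm_num, .inl ?_, fun p hp h => ?_⟩
  · have : Fact (Nat.Prime 3) := ⟨Nat.prime_three⟩
    have := (padicNorm.dvd_iff_norm_le (p := 3) (n := 2) (z := 45)).1 (by norm_num)
    norm_num at this ⊢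
    exact this
  · have : Fact p.Prime := ⟨hp⟩
    by_cases e : p = 7
    · subst e
      exact ⟨rfl, by decide⟩
    · refine (h ?_).elim
      have : ¬p ∣ 49 := fun d =>
        e ((Nat.prime_dvd_prime_iff_eq hp (by norm_num)).1 (hp.dvd_of_dvd_pow (n := 2) d))
      rw [show (49 : ℚ) = ((49 : ℕ) : ℚ) by norm_num, padicValRat.of_nat,
        padicValNat.eq_zero_of_not_dvd this]
      simp

section

variable {p : ℕ} [Fact p.Prime]

theorem dvd_CT {a b : ℤ} (h : a ∣ b) : ‖(b : ℚ_[p])‖ ≤ ‖(a : ℚ_[p])‖ := by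
  obtain ⟨c, rfl⟩ := h
  rw [Int.cast_mul, norm_mul]
  exact mul_le_of_le_one_right (norm_nonneg _) (Padic.norm_int_le_one c)

theorem num_CT (u : ℚ) : ‖(u.num : ℚ_[p])‖ = ‖(u : ℚ_[p])‖ * ‖(u.den : ℚ_[p])‖ := by
  rw [← norm_mul, ← Rat.cast_natCast, ← Rat.cast_mul, Rat.mul_den_eq_num, Rat.cast_intCast]

theorem numle_CT (u : ℚ) : ‖(u.num : ℚ_[p])‖ ≤ ‖(u : ℚ_[p])‖ := by
  rw [num_CT]
  exact mul_le_of_le_one_right (norm_nonneg _) (by simpa using Padic.norm_int_le_one (p := p) u.den)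

theorem den_CT {u : ℚ} (h : ‖(u : ℚ_[p])‖ ≤ 1) : ‖(u.den : ℚ_[p])‖ = 1 := by
  rw [Padic.norm_natCast_eq_one_iff, (Fact.out : p.Prime).coprime_iff_not_dvd]
  intro d
  have a : ‖(u.num : ℚ_[p])‖ < 1 := by
    rw [num_CT]
    exact mul_lt_one_of_nonneg_of_lt_one_right h (norm_nonneg _)
      (Padic.norm_natCast_lt_one_iff.2 d)
  exact (Fact.out : p.Prime).one_lt.ne' (Nat.eq_one_of_dvd_coprimes u.reduced
    (Int.natCast_dvd.1 (Padic.norm_intCast_lt_one_iff.1 a)) d)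

theorem lt_CT {u : ℚ} : ‖(u : ℚ_[p])‖ < 1 ↔ (p : ℤ) ∣ u.num := by
  refine ⟨fun h => Padic.norm_intCast_lt_one_iff.1 ((numle_CT u).trans_lt h), fun h => ?_⟩
  have d : ¬p ∣ u.den := fun d => (Fact.out : p.Prime).one_lt.ne'
    (Nat.eq_one_of_dvd_coprimes u.reduced (Int.natCast_dvd.1 h) d)
  have := Padic.norm_intCast_lt_one_iff.2 h
  rwa [num_CT, den_CT (Padic.norm_rat_le_one d), mul_one] at this

theorem add_CT {a b : ℚ_[p]} {ε : ℝ} (h1 : ‖a‖ ≤ ε) (h2 : ‖b‖ ≤ ε) : ‖a + b‖ ≤ ε :=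
  (Padic.nonarchimedean a b).trans (max_le h1 h2)

theorem int_CT (h2 : L2Stmt) (A : Pt (db (49 : ℚ))) {m : ℤ} (hm : m ≠ 0)
    (h : ‖((px (m • A) : ℚ) : ℚ_[p])‖ < 1) : ‖((px A : ℚ) : ℚ_[p])‖ ≤ 1 := by
  by_contra c
  rw [not_le] at c
  have e : (((-883568 : ℤ) : ℚ_[p])) = 1 ^ 6 * Rat.castHom ℚ_[p] (db 49) := by
    norm_num [db]
  have d0 : (((-883568 : ℤ) : ℚ_[p])) ≠ 0 := Int.cast_ne_zero.2 (by norm_num)
  obtain ⟨ψ, -, hx, -⟩ := exists_scale (Rat.castHom ℚ_[p]) one_ne_zero d0 e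
  simp only [one_pow, one_mul, Rat.coe_castHom] at hx
  have a0 : ψ A ≠ 0 := fun z => by
    rw [← hx, z, px_zero, norm_zero] at c
    exact absurd c (by norm_num)
  obtain ⟨e1, -, -, n0⟩ := h2 p _ d0 (Padic.norm_int_le_one _) (ψ A) (.inr (by rwa [hx])) m
  rcases e1 with z | z
  · exact n0 a0 hm z
  · rw [← map_zsmul, hx] at z
    exact lt_asymm z h

theorem unit_CT (hp : ¬p ∣ 2 * 3 * 7 * 23) {s t : ℚ_[p]} {a b : ℤ} (hs : ‖s‖ ≤ 1) (ht : ‖t‖ ≤ 1)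
    (h : fc s t ^ 2 = 49 ^ 2) (ha : ‖(a : ℚ_[p]) - s‖ < 1) (hb : ‖(b : ℚ_[p]) - t‖ < 1) :
    ¬(p : ℤ) ∣ fc a b := by
  rintro ⟨c, hc⟩
  obtain ⟨s, rfl⟩ : ∃ x : ℤ_[p], (x : ℚ_[p]) = s := ⟨⟨s, hs⟩, rfl⟩
  obtain ⟨t, rfl⟩ : ∃ x : ℤ_[p], (x : ℚ_[p]) = t := ⟨⟨t, ht⟩, rfl⟩
  obtain ⟨x, hx⟩ := (PadicInt.norm_lt_one_iff_dvd ((a : ℤ_[p]) - s)).1 ha
  obtain ⟨y, hy⟩ := (PadicInt.norm_lt_one_iff_dvd ((b : ℤ_[p]) - t)).1 hb
  have h' : fc s t ^ 2 = 49 ^ 2 := Subtype.ext h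
  have hc' : fc (a : ℤ_[p]) b = p * c := by
    have := congrArg (Int.cast : ℤ → ℤ_[p]) hc
    simpa [fc] using this
  have d : (p : ℤ_[p]) ∣ fc s t := by
    rw [sub_eq_iff_eq_add] at hx hy
    rw [hx, hy] at hc'
    refine ⟨c - (x * ((p * x + s) ^ 2 + (p * x + s) * s + s ^ 2 - (p * y + t) ^ 2) -
      y * (s * (p * y + 2 * t) + (p * y + t) ^ 2 + (p * y + t) * t + t ^ 2)), ?_⟩
    unfold fc at hc' ⊢
    linear_combination hc'
  have d2 : (p : ℤ_[p]) ∣ ((7 ^ 4 : ℤ) : ℤ_[p]) := by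
    have := dvd_pow d two_ne_zero
    rw [h'] at this
    norm_num at this ⊢
    exact this
  have d3 := (PadicInt.norm_int_lt_one_iff_dvd _).1 ((PadicInt.norm_lt_one_iff_dvd _).2 d2)
  have d4 : p ∣ 7 := (Fact.out : p.Prime).dvd_of_dvd_pow (n := 4) (by exact_mod_cast d3)
  exact hp (d4.trans (by norm_num))

end

theorem apx_CT (r : ℚ) (U : ℤ)
    (h : ∀ (p : ℕ) [Fact p.Prime], (p : ℤ) ∣ U → ‖(r : ℚ_[p])‖ ≤ 1) :
    ∃ a : ℤ, ∀ (p : ℕ) [Fact p.Prime], (p : ℤ) ∣ U → ‖(a : ℚ_[p]) - r‖ ≤ ‖(U : ℚ_[p])‖ := by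
  have c : r.den.Coprime U.natAbs := Nat.coprime_of_dvd fun p hp d1 d2 => by
    have : Fact p.Prime := ⟨hp⟩
    exact (Padic.norm_natCast_lt_one_iff.2 d1).ne (den_CT (h p (Int.natCast_dvd.2 d2)))
  obtain ⟨x, y, e⟩ : IsCoprime (r.den : ℤ) U := Int.isCoprime_iff_gcd_eq_one.2 c
  refine ⟨x * r.num, fun p _ d => ?_⟩
  have e1 : ((x * r.num : ℤ) : ℚ_[p]) - r = -(y * r) * U := by
    have e2 : (x : ℚ_[p]) * r.den + y * U = 1 := by exact_mod_cast congrArg (Int.cast : ℤ → ℚ_[p]) e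
    have e3 : (r : ℚ_[p]) * r.den = r.num := by exact_mod_cast Rat.mul_den_eq_num r
    push_cast
    linear_combination (r : ℚ_[p]) * e2 - x * e3
  rw [e1, norm_mul, norm_neg, norm_mul]
  exact mul_le_of_le_one_left (norm_nonneg _)
    (mul_le_one₀ (Padic.norm_int_le_one y) (norm_nonneg _) (h p d))

theorem crt_CT (r r' : ℚ) {U Y : ℤ} (c : IsCoprime U Y)
    (h : ∀ (p : ℕ) [Fact p.Prime], (p : ℤ) ∣ U → ‖(r : ℚ_[p])‖ ≤ 1)
    (h' : ∀ (p : ℕ) [Fact p.Prime], (p : ℤ) ∣ Y → ‖(r' : ℚ_[p])‖ ≤ 1) :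
    ∃ a : ℤ, (∀ (p : ℕ) [Fact p.Prime], (p : ℤ) ∣ U → ‖(a : ℚ_[p]) - r‖ ≤ ‖(U : ℚ_[p])‖) ∧
      ∀ (p : ℕ) [Fact p.Prime], (p : ℤ) ∣ Y → ‖(a : ℚ_[p]) - r'‖ ≤ ‖(Y : ℚ_[p])‖ := by
  obtain ⟨a, ha⟩ := apx_CT r U h
  obtain ⟨b, hb⟩ := apx_CT r' Y h'
  obtain ⟨x, y, e⟩ := c
  refine ⟨a + U * (x * (b - a)), fun p _ d => ?_, fun p _ d => ?_⟩
  · rw [Int.cast_add, add_sub_right_comm]
    exact add_CT (ha p d) (dvd_CT (dvd_mul_right _ _))
  · rw [show a + U * (x * (b - a)) = b + Y * (y * (a - b)) by linear_combination (b - a) * e,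
      Int.cast_add, add_sub_right_comm]
    exact add_CT (hb p d) (dvd_CT (dvd_mul_right _ _))

/-- the data on one side -/
structure Sd_CT (u : ℚ) (A : Pt (db (49 : ℚ))) (s t : ℚ) : Prop where
  f : fc s t ^ 2 = 49 ^ 2
  h : Hc s t ≠ 0
  x : px A = PX s t
  y : py A = PY s t
  b : ∀ (p : ℕ) [Fact p.Prime], (p : ℤ) ∣ u.num → ¬p ∣ 2 * 3 * 7 * 23
  i : ∀ (p : ℕ) [Fact p.Prime], (p : ℤ) ∣ u.num → ‖((px A : ℚ) : ℚ_[p])‖ ≤ 1

theorem cast_CT (p : ℕ) [Fact p.Prime] (s t : ℚ) :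
    ((fc s t : ℚ) : ℚ_[p]) = fc (s : ℚ_[p]) t ∧ ((Hc s t : ℚ) : ℚ_[p]) = Hc (s : ℚ_[p]) t ∧
    ((PX s t : ℚ) : ℚ_[p]) = PX (s : ℚ_[p]) t ∧ ((PY s t : ℚ) : ℚ_[p]) = PY (s : ℚ_[p]) t := by
  unfold PX PY fc Hc Gc
  push_cast
  exact ⟨rfl, rfl, rfl, rfl⟩

theorem cp_CT (h5 : CPStmt) {u : ℚ} {A : Pt (db (49 : ℚ))} {s₁ t₁ : ℚ} (S : Sd_CT u A s₁ t₁)
    (p : ℕ) [Fact p.Prime] (d : (p : ℤ) ∣ u.num) :
    fc (s₁ : ℚ_[p]) t₁ ^ 2 = 49 ^ 2 ∧ ‖(s₁ : ℚ_[p])‖ ≤ 1 ∧ ‖(t₁ : ℚ_[p])‖ ≤ 1 ∧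
      ∀ (s t l : ℚ_[p]) (ε : ℝ), ε < 1 →
      ‖l‖ ≤ 1 → ‖fc s t‖ = 1 → ‖s - l * s₁‖ ≤ ε → ‖t - l * t₁‖ ≤ ε →
      Hc s t ≠ 0 ∧ ‖fc s t ^ 2 - 49 ^ 2 * l ^ 6‖ ≤ ε ∧ ‖PX s t - l ^ 2 * PX (s₁ : ℚ_[p]) t₁‖ ≤ ε ∧
        ‖PY s t - l ^ 3 * PY (s₁ : ℚ_[p]) t₁‖ ≤ ε := by
  obtain ⟨c1, c2, c3, -⟩ := cast_CT p s₁ t₁
  have f : fc (s₁ : ℚ_[p]) t₁ ^ 2 = 49 ^ 2 := by
    rw [← c1]
    exact_mod_cast S.f
  exact ⟨f, h5 p (S.b p d) s₁ t₁ f (c2 ▸ Rat.cast_ne_zero.2 S.h) (c3 ▸ S.x ▸ S.i p d)⟩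

theorem cl_CT (h5 : CPStmt) {u : ℚ} {A : Pt (db (49 : ℚ))} {s₁ t₁ : ℚ} (S : Sd_CT u A s₁ t₁)
    {s₀ t₀ s t l : ℤ} {q p₁ p₂ : ℕ} (q0 : q ≠ 0) (hq : u.num ∣ q) (h1 : p₁.Prime) (h2 : p₂.Prime)
    (l1 : q < p₁) (l2 : q < p₂)
    (hs : ∀ (p : ℕ) [Fact p.Prime], (p : ℤ) ∣ u.num → ‖(s₀ : ℚ_[p]) - s₁‖ ≤ ‖(u.num : ℚ_[p])‖)
    (ht : ∀ (p : ℕ) [Fact p.Prime], (p : ℤ) ∣ u.num → ‖(t₀ : ℚ_[p]) - t₁‖ ≤ ‖(u.num : ℚ_[p])‖)
    (es : s ≡ l * s₀ [ZMOD q]) (et : t ≡ l * t₀ [ZMOD q])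
    (ef : fc (s : ℚ) t ^ 2 = (49 * p₁ * p₂) ^ 2) {P : Pt (db (49 * (p₁ : ℚ) * p₂))}
    (ex : px P = PX (s : ℚ) t) (ey : py P = PY (s : ℚ) t) : Cl u (49 * p₁ * p₂) l A P := by
  intro p _ hu
  have d := lt_CT.1 hu
  have pp : p.Prime := Fact.out
  have lq : p ≤ q := Nat.le_of_dvd (Nat.pos_of_ne_zero q0) (Int.natCast_dvd_natCast.1 (d.trans hq))
  have b1 : ‖((49 * p₁ * p₂ : ℚ) : ℚ_[p])‖ = 1 := by
    rw [show ((49 * p₁ * p₂ : ℚ) : ℚ_[p]) = ((7 ^ 2 * p₁ * p₂ : ℕ) : ℚ_[p]) by push_cast; rfl,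
      Padic.norm_natCast_eq_one_iff]
    refine Nat.Coprime.mul_right (Nat.Coprime.mul_right (Nat.Coprime.pow_right _ ?_) ?_) ?_
    · exact pp.coprime_iff_not_dvd.2 fun e => S.b p d (e.trans (by norm_num))
    · exact (Nat.coprime_primes pp h1).2 (by omega)
    · exact (Nat.coprime_primes pp h2).2 (by omega)
  obtain ⟨c1, -, c3, c4⟩ := cast_CT p s t
  obtain ⟨-, -, c5, c6⟩ := cast_CT p s₁ t₁
  simp only [Rat.cast_intCast] at c1 c3 c4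
  have ef' : fc (s : ℚ_[p]) t ^ 2 = ((49 * p₁ * p₂ : ℚ) : ℚ_[p]) ^ 2 := by
    rw [← c1, ← Rat.cast_pow, ef, Rat.cast_pow]
  have n1 : ‖fc (s : ℚ_[p]) t‖ = 1 := by
    have := congrArg norm ef'
    rw [norm_pow, norm_pow, b1] at this
    exact (pow_left_inj₀ (norm_nonneg _) zero_le_one two_ne_zero).1 this
  have ap : ∀ (a a₀ : ℤ) (a₁ : ℚ_[p]), a ≡ l * a₀ [ZMOD q] → ‖(a₀ : ℚ_[p]) - a₁‖ ≤ ‖(u.num : ℚ_[p])‖ →
      ‖(a : ℚ_[p]) - l * a₁‖ ≤ ‖(u : ℚ_[p])‖ := fun a a₀ a₁ e h => by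
    rw [show (a : ℚ_[p]) - l * a₁ = ((a - l * a₀ : ℤ) : ℚ_[p]) + l * (a₀ - a₁) by push_cast; ring]
    refine (add_CT (dvd_CT (hq.trans e.symm.dvd)) ?_).trans (numle_CT u)
    rw [norm_mul]
    exact (mul_le_of_le_one_left (norm_nonneg _) (Padic.norm_int_le_one l)).trans h
  obtain ⟨-, k1, k2, k3⟩ := (cp_CT h5 S p d).2.2.2 s t l _ hu (Padic.norm_int_le_one l) n1
    (ap s s₀ _ es (hs p d)) (ap t t₀ _ et (ht p d))
  refine ⟨S.b p d, b1, S.i p d, ?_, ?_, ?_⟩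
  · rw [ef'] at k1
    simpa using k1
  · rw [ex, S.x, Rat.cast_sub, Rat.cast_mul, c3, c5]
    simpa using k2
  · rw [ey, S.y, Rat.cast_sub, Rat.cast_mul, c4, c6]
    simpa using k3

theorem ce_CT {D : Dat} {W : Set ℕ} (h : Good D W) {p : ℕ} (hp : p.Prime) (l : D.C < p)
    (lo : Lo D.k p) : Ce D W p := by
  refine ⟨Nat.cast_ne_zero.2 hp.ne_zero, fun r hr d => ?_, fun r hr d => ?_, fun r _ _ _ => ?_, ?_⟩
  · rw [Rat.den_natCast] at d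
    exact absurd (Nat.dvd_one.1 d) hr.one_lt.ne'
  · rw [Rat.inv_natCast_den_of_pos hp.pos] at d
    rw [(Nat.prime_dvd_prime_iff_eq hr hp).1 d]
    exact h.lo l lo
  · have e : p % 3 ^ 2 = 1 := by
      rw [← Nat.mod_mod_of_dvd p (pow_dvd_pow 3 h.two), lo.1]
      rfl
    have := dvd_CT (p := r) (show (9 : ℤ) ∣ p - 1 by omega)
    simpa using this
  · exact h.cert.2 p hp lo.1

theorem pt_CT {s t b : ℚ} (hb : b ≠ 0) (h : fc s t ^ 2 = b ^ 2) :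
    PY s t ^ 2 = PX s t ^ 3 + db b := by
  have H : Hc s t ≠ 0 := fun z => by
    unfold Hc at z
    have s0 : s = 0 := by
      by_contra s0
      have : IsSquare (69 : ℚ) := ⟨(2 * t + 9 * s) / s, by
        field_simp
        linear_combination -4 * z⟩
      norm_num at this
    subst s0
    have t0 : t = 0 := by simpa using z
    subst t0
    exact pow_ne_zero 2 hb (by rw [← h]; simp [fc])
  have G : Gc s t ^ 2 = 4 * Hc s t ^ 3 + 621 * fc s t ^ 2 := by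
    unfold Gc Hc fc
    ring
  unfold PX PY db
  rw [← h]
  generalize Hc s t = x at *
  generalize fc s t = y at *
  generalize Gc s t = z at *
  field_simp
  linear_combination (11664 * (x ^ 3 - 1242 * y ^ 2) ^ 2) * G

theorem ct (h2 : L2Stmt) (h3 : RkStmt) (h4 : ThmC) (h5 : CPStmt) : CTStmt := by
  intro D W h i j i0 ⟨n, hn⟩ hj hc
  obtain ⟨-, -, -, g3, hb, -⟩ := h.base
  have rk := (h3 49 nice_CT).2.2.2
  have j0 : j ≠ 0 := by omega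
  have n0 : n ≠ 0 := by
    rintro rfl
    exact i0 (by simpa using hn)
  obtain ⟨s₁, t₁, a1, a2, a3, a4⟩ := rk D.G g3
  obtain ⟨s₂, t₂, b1, b2, b3, b4⟩ := rk (j • D.G) fun ⟨Q, e⟩ => g3 ⟨Q - (j / 3) • D.G, by
    rw [smul_sub, ← e, ← natCast_zsmul, ← mul_smul, ← sub_smul,
      show j - ((3 : ℕ) : ℤ) * (j / 3) = 1 by omega, one_smul]⟩
  have S1 : Sd_CT (px (i • D.G)) D.G s₁ t₁ := ⟨a1, a2, a3, a4,
    fun p _ d e => lt_asymm (lt_CT.2 d) (hn ▸ hb p e n n0),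
    fun p _ d => int_CT h2 _ i0 (lt_CT.2 d)⟩
  have S2 : Sd_CT (px (((3 : ℤ) ^ D.K * j) • D.G)) (j • D.G) s₂ t₂ := ⟨b1, b2, b3, b4,
    fun p _ d e => lt_asymm (lt_CT.2 d) (hb p e j j0),
    fun p _ d => int_CT h2 _ (pow_ne_zero D.K three_ne_zero) (by
      rw [← mul_smul]
      exact lt_CT.2 d)⟩
  generalize px (i • D.G) = u at *
  generalize px (((3 : ℤ) ^ D.K * j) • D.G) = y at *
  obtain ⟨s₀, s1, s2⟩ := crt_CT s₁ s₂ hc (fun p _ d => (cp_CT h5 S1 p d).2.1)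
    fun p _ d => (cp_CT h5 S2 p d).2.1
  obtain ⟨t₀, t1, t2⟩ := crt_CT t₁ t₂ hc (fun p _ d => (cp_CT h5 S1 p d).2.2.1)
    fun p _ d => (cp_CT h5 S2 p d).2.2.1
  have pr : ∀ p : ℕ, p.Prime → p ∣ (u.num * y.num).natAbs →
      ¬p ∣ 2 * 3 * 7 * 23 ∧ ¬(p : ℤ) ∣ fc s₀ t₀ := fun p hp d => by
    have : Fact p.Prime := ⟨hp⟩
    rcases (Nat.prime_iff_prime_int.1 hp).dvd_or_dvd (Int.natCast_dvd.2 d) with e | e
    · obtain ⟨c1, c2, c3, -⟩ := cp_CT h5 S1 p e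
      have l := Padic.norm_intCast_lt_one_iff.2 e
      exact ⟨S1.b p e, unit_CT (S1.b p e) c2 c3 c1 ((s1 p e).trans_lt l) ((t1 p e).trans_lt l)⟩
    · obtain ⟨c1, c2, c3, -⟩ := cp_CT h5 S2 p e
      have l := Padic.norm_intCast_lt_one_iff.2 e
      exact ⟨S2.b p e, unit_CT (S2.b p e) c2 c3 c1 ((s2 p e).trans_lt l) ((t2 p e).trans_lt l)⟩
  have d1 : u.num ∣ ((u.num * y.num).natAbs : ℤ) := Int.dvd_natAbs.2 (dvd_mul_right _ _)
  have d2 : y.num ∣ ((u.num * y.num).natAbs : ℤ) := Int.dvd_natAbs.2 (dvd_mul_left _ _)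
  generalize (u.num * y.num).natAbs = q at *
  have q0 : q ≠ 0 := by
    rintro rfl
    exact (pr 2 Nat.prime_two (dvd_zero 2)).1 (by norm_num)
  obtain ⟨s, t, l, p₁, p₂, e1, e2, l1, l2, o1, o2, es, et, ef⟩ := h4 D.k q (max D.C q) s₀ t₀ h.two
    (Nat.coprime_of_dvd fun p hp d => (pr p hp d).1)
    (Int.isCoprime_iff_gcd_eq_one.2 (Nat.coprime_of_dvd fun p hp a b =>
      (pr p hp (by simpa using b)).2 (Int.natCast_dvd.2 a)))
  rw [max_lt_iff] at l1 l2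
  have ef' : fc (s : ℚ) t ^ 2 = (49 * p₁ * p₂) ^ 2 := by
    have := congrArg (Int.cast : ℤ → ℚ) ef
    simpa [fc] using this
  have b0 : (49 * p₁ * p₂ : ℚ) ≠ 0 := mul_ne_zero (mul_ne_zero (by norm_num)
    (Nat.cast_ne_zero.2 e1.ne_zero)) (Nat.cast_ne_zero.2 e2.ne_zero)
  obtain ⟨P, P0, ex, ey⟩ := exists_pt (d := db (49 * (p₁ : ℚ) * p₂))
    (mul_ne_zero (by norm_num) (pow_ne_zero 2 b0)) (pt_CT b0 ef')
  exact ⟨p₁, p₂, l, ce_CT h e1 l1.1 o1, ce_CT h e2 l2.1 o2, P, P0,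
    cl_CT h5 S1 q0 d1 e1 e2 l1.2 l2.2 s1 t1 es et ef' ex ey,
    cl_CT h5 S2 q0 d2 e1 e2 l1.2 l2.2 s2 t2 es et ef' ex ey⟩

end Pool.Agent.MP_adc87d_lc.Big

end
end

section

/-! The norm form of a cyclotomic field of three power conductor. -/

set_option autoImplicit false

noncomputable section

namespace Pool.Agent.MP_adc87d_lc.Big

open NumberField Ideal
open scoped nonZeroDivisors

theorem ord_Cert {k p : ℕ} (hp : p.Prime) (h3 : p ≠ 3) (h1 : p % 3 ^ (k + 1) ≠ 1)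
    (h2 : p % 3 ^ (k + 1) ≠ 3 ^ (k + 1) - 1) : 3 ∣ orderOf (p : ZMod (3 ^ (k + 1))) := by
  by_contra hn
  have hc : Nat.Coprime p (3 ^ (k + 1)) :=
    Nat.Coprime.pow_right _ ((Nat.coprime_primes hp Nat.prime_three).2 h3)
  have e1 : (p : ZMod (3 ^ (k + 1))) ^ (3 ^ k * 2) = 1 := by
    have := Nat.ModEq.pow_totient hc
    rw [Nat.totient_prime_pow_succ Nat.prime_three] at this
    have := (ZMod.natCast_eq_natCast_iff _ _ _).2 this
    simpa using this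
  have e2 : orderOf (p : ZMod (3 ^ (k + 1))) ∣ 2 :=
    Nat.Coprime.dvd_of_dvd_mul_left (Nat.Coprime.pow_right _
      ((Nat.Prime.coprime_iff_not_dvd Nat.prime_three).2 hn).symm) (orderOf_dvd_of_pow_eq_one e1)
  have e3 : ((3 : ℤ) ^ (k + 1)) ∣ ((p : ℤ) - 1) * (p + 1) := by
    have h := orderOf_dvd_iff_pow_eq_one.1 e2
    have := (ZMod.intCast_zmod_eq_zero_iff_dvd (((p : ℤ) - 1) * (p + 1)) (3 ^ (k + 1))).1 (by
      push_cast
      linear_combination h)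
    exact_mod_cast this
  have hM : 1 < 3 ^ (k + 1) := Nat.one_lt_pow (by omega) (by norm_num)
  by_cases h : (3 : ℤ) ∣ (p : ℤ) + 1
  · have h' : ¬(3 : ℤ) ∣ (p : ℤ) - 1 := by omega
    have e4 : ((3 ^ (k + 1) : ℕ) : ℤ) ∣ ((p + 1 : ℕ) : ℤ) := by
      push_cast
      exact Int.prime_three.pow_dvd_of_dvd_mul_left _ h' e3
    obtain ⟨c, hc⟩ := Int.natCast_dvd_natCast.1 e4
    apply h2
    generalize 3 ^ (k + 1) = M at hc hM
    rcases c with _ | c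
    · omega
    · rw [show p = M - 1 + M * c by rw [Nat.mul_succ] at hc; omega, Nat.add_mul_mod_self_left]
      exact Nat.mod_eq_of_lt (by omega)
  · have e4 : ((3 ^ (k + 1) : ℕ) : ℤ) ∣ (p : ℤ) - (1 : ℕ) := by
      push_cast
      exact Int.prime_three.pow_dvd_of_dvd_mul_right _ h e3
    exact h1 (Eq.trans (Nat.modEq_iff_dvd.2 e4).symm (Nat.mod_eq_of_lt hM))

section

variable {m : ℕ} [NeZero m] {K : Type} [Field K] [NumberField K] [IsCyclotomicExtension {m} ℚ K]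

theorem ideal_Cert {p : ℕ} (hp : p.Prime) (hm : ¬p ∣ m) (ho : 3 ∣ orderOf (p : ZMod m))
    (I : Ideal (𝓞 K)) : 3 ∣ padicValNat p (absNorm I) := by
  have := Fact.mk hp
  induction I using UniqueFactorizationMonoid.induction_on_prime with
  | h₁ => simp
  | h₂ x hx => simp [Ideal.isUnit_iff.1 hx]
  | h₃ a P ha hP ih =>
    have : P.IsPrime := (Ideal.prime_iff_isPrime hP.ne_zero).1 hP
    have : NeZero P := ⟨hP.ne_zero⟩
    rw [map_mul, padicValNat.mul (absNorm_eq_zero_iff.not.2 hP.ne_zero)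
      (absNorm_eq_zero_iff.not.2 ha)]
    refine dvd_add ?_ ih
    have hq := Nat.absNorm_under_prime P
    have hl := Int.liesOver_span_absNorm P
    generalize absNorm (under ℤ P) = q at hq hl
    rw [← pow_inertiaDeg q P]
    by_cases h : p = q
    · subst h
      rwa [padicValNat.prime_pow, IsCyclotomicExtension.Rat.inertiaDeg_eq_of_not_dvd p K P hm]
    · have := Fact.mk hq
      rw [padicValNat_prime_prime_pow _ h]
      exact dvd_zero _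

theorem norm_Cert {p : ℕ} (hp : p.Prime) (hm : ¬p ∣ m) (ho : 3 ∣ orderOf (p : ZMod m))
    (hd : 3 ∣ m.totient) (α : K) : (3 : ℤ) ∣ padicValRat p (Algebra.norm ℚ α) := by
  have := Fact.mk hp
  rcases eq_or_ne α 0 with rfl | h0
  · simp
  obtain ⟨y, hy, hi⟩ := ((IsFractionRing.isAlgebraic_iff ℤ ℚ K).2
    (Algebra.IsAlgebraic.isAlgebraic α)).exists_integral_multiple
  have e1 : Algebra.norm ℚ (y • α) = (y : ℚ) ^ m.totient * Algebra.norm ℚ α := by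
    rw [zsmul_eq_mul, map_mul, ← IsCyclotomicExtension.Rat.finrank m K, ← Algebra.norm_algebraMap]
    simp
  obtain ⟨β, hβ⟩ : ∃ β : 𝓞 K, (β : K) = y • α := ⟨⟨y • α, hi⟩, rfl⟩
  have e2 := Algebra.coe_norm_int β
  have e3 := ideal_Cert hp hm ho (span {β})
  rw [absNorm_span_singleton] at e3
  have e4 : (3 : ℤ) ∣ padicValRat p (Algebra.norm ℚ (y • α)) := by
    rw [← hβ, ← e2, padicValRat.of_int, padicValInt]
    exact_mod_cast e3
  have hy' : (y : ℚ) ≠ 0 := by exact_mod_cast hy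
  rw [e1, padicValRat.mul (pow_ne_zero _ hy') (Algebra.norm_ne_zero_iff.2 h0),
    padicValRat.pow] at e4
  exact (dvd_add_right (Dvd.dvd.mul_right (by exact_mod_cast hd) _)).1 e4

omit [NeZero m] [IsCyclotomicExtension {m} ℚ K] in
theorem cls_Cert : ∃ C : ℕ, 23 ≤ C ∧ ∀ P : Ideal (𝓞 K), P ≠ 0 → ∃ (x : 𝓞 K) (w : ℕ),
    1 ≤ w ∧ w ≤ C ∧ (Algebra.norm ℤ x).natAbs = absNorm P * w := by
  choose rep hrep using ClassGroup.mk0_surjective (R := 𝓞 K)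
  refine ⟨23 + ∑ c, absNorm (rep c : Ideal (𝓞 K)), by omega, fun P hP => ?_⟩
  set J : (Ideal (𝓞 K))⁰ := ⟨P, mem_nonZeroDivisors_iff_ne_zero.2 hP⟩ with hJ
  obtain ⟨x, -, hx⟩ := ClassGroup.mk0_eq_mk0_inv_iff.1 (hrep (ClassGroup.mk0 J)⁻¹)
  refine ⟨x, absNorm (rep (ClassGroup.mk0 J)⁻¹ : Ideal (𝓞 K)),
    Nat.pos_of_ne_zero (absNorm_ne_zero_of_nonZeroDivisors _), ?_, ?_⟩
  · exact (Finset.single_le_sum (f := fun c => absNorm (rep c : Ideal (𝓞 K)))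
      (fun _ _ => Nat.zero_le _) (Finset.mem_univ _)).trans (Nat.le_add_left _ _)
  · rw [← absNorm_span_singleton, ← hx, map_mul, mul_comm]

theorem prime_Cert {p : ℕ} (hp : p.Prime) (hm : ¬p ∣ m) (ho : (p : ZMod m) = 1) :
    ∃ P : Ideal (𝓞 K), P ≠ 0 ∧ absNorm P = p := by
  have := Fact.mk hp
  obtain ⟨⟨P, _, _⟩⟩ := (span {(p : ℤ)}).nonempty_primesOver (S := 𝓞 K)
  have h : absNorm P = p := by
    rw [← pow_inertiaDeg p P, IsCyclotomicExtension.Rat.inertiaDeg_eq_of_not_dvd p K P hm, ho,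
      orderOf_one, pow_one]
  refine ⟨P, fun h0 => hp.ne_zero ?_, h⟩
  rw [← h, h0, map_zero]

omit [NeZero m] [IsCyclotomicExtension {m} ℚ K] in
theorem poly_Cert : ∃ (n : ℕ) (Nm : MvPolynomial (Fin n) ℚ),
    (∀ ξ, ∃ (τ : ℚ) (α : K), MvPolynomial.eval ξ Nm = τ ^ 3 * Algebra.norm ℚ α) ∧
    ∀ (τ : ℚ) (α : K), ∃ ξ, MvPolynomial.eval ξ Nm = τ ^ 3 * Algebra.norm ℚ α := by
  set b := Module.finBasis ℚ K
  set Nm : MvPolynomial (Fin (Module.finrank ℚ K + 1)) ℚ := MvPolynomial.X 0 ^ 3 *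
    (Matrix.of fun r c => ∑ i, MvPolynomial.X (Fin.succ i) *
      MvPolynomial.C (Algebra.leftMulMatrix b (b i) r c)).det with hN
  have key : ∀ ξ, MvPolynomial.eval ξ Nm =
      ξ 0 ^ 3 * Algebra.norm ℚ (∑ i, ξ (Fin.succ i) • b i) := fun ξ => by
    rw [hN, map_mul, map_pow, MvPolynomial.eval_X, RingHom.map_det, Algebra.norm_eq_matrix_det b]
    congr 2
    ext r c
    simp [map_sum, Matrix.sum_apply]
  refine ⟨_, Nm, fun ξ => ⟨_, _, key ξ⟩, fun τ α => ⟨Fin.cons τ (b.repr α), ?_⟩⟩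
  rw [key]
  simp

end

theorem cert : CertStmt := by
  intro k hk
  obtain ⟨k, rfl⟩ : ∃ j, k = j + 1 + 1 := ⟨k - 2, by omega⟩
  have : NeZero (3 ^ (k + 1 + 1)) := ⟨by positivity⟩
  have : IsCyclotomicExtension {3 ^ (k + 1 + 1)} ℚ (CyclotomicField (3 ^ (k + 1 + 1)) ℚ) :=
    CyclotomicField.isCyclotomicExtension _ ℚ
  obtain ⟨C, hC, h1⟩ := cls_Cert (K := CyclotomicField (3 ^ (k + 1 + 1)) ℚ)
  obtain ⟨n, Nm, h2, h3⟩ := poly_Cert (K := CyclotomicField (3 ^ (k + 1 + 1)) ℚ)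
  have nd : ∀ p : ℕ, p.Prime → p ≠ 3 → ¬p ∣ 3 ^ (k + 1 + 1) := fun p hp h h' =>
    h ((Nat.prime_dvd_prime_iff_eq hp Nat.prime_three).1 (hp.dvd_of_dvd_pow h'))
  refine ⟨C, n, Nm, hC, fun ξ p hp a1 a2 a3 => ?_, fun p hp a1 => ?_⟩
  · have := Fact.mk hp
    obtain ⟨τ, α, e⟩ := h2 ξ
    have h4 := norm_Cert hp (nd p hp a1) (ord_Cert hp a1 a2 a3) (by
      rw [Nat.totient_prime_pow_succ Nat.prime_three]
      exact Dvd.dvd.mul_right (dvd_pow_self 3 (by omega)) _) α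
    rw [e]
    rcases eq_or_ne τ 0 with rfl | hτ
    · simp
    rcases eq_or_ne (Algebra.norm ℚ α) 0 with h0 | h0
    · simp [h0]
    rw [padicValRat.mul (pow_ne_zero _ hτ) h0, padicValRat.pow]
    exact dvd_add (Dvd.intro _ rfl) h4
  · have hM : 3 ^ 2 ≤ 3 ^ (k + 1 + 1) := Nat.pow_le_pow_right (by norm_num) (by omega)
    have a2 : p ≠ 3 := by
      rintro rfl
      rw [Nat.mod_eq_of_lt (by omega)] at a1
      omega
    obtain ⟨P, hP, e⟩ := prime_Cert (K := CyclotomicField (3 ^ (k + 1 + 1)) ℚ) hp (nd p hp a2)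
      (by rw [← ZMod.natCast_mod, a1, Nat.cast_one])
    obtain ⟨x, w, w1, w2, e2⟩ := h1 P hP
    rw [e] at e2
    have e3 := Algebra.coe_norm_int x
    rcases Int.natAbs_eq_iff.1 e2 with e4 | e4
    · obtain ⟨ξ, e5⟩ := h3 1 x
      refine ⟨ξ, w, w1, w2, ?_⟩
      rw [e5, ← e3, e4]
      push_cast
      ring
    · obtain ⟨ξ, e5⟩ := h3 (-1) x
      refine ⟨ξ, w, w1, w2, ?_⟩
      rw [e5, ← e3, e4]
      push_cast
      ring

end Pool.Agent.MP_adc87d_lc.Big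

end
end

section

set_option autoImplicit false

noncomputable section

namespace Pool.Agent.MP_adc87d_lc.Big

theorem irr_Cls : Irrational (√69) := by
  rw [irrational_sqrt_ofNat_iff]
  rintro ⟨k, hk⟩
  have : k ≤ 8 := by nlinarith
  interval_cases k <;> omega

theorem sq_Cls : (√69 : ℝ) ^ 2 = 69 := Real.sq_sqrt (by norm_num)

theorem coef_Cls {a b c d : ℚ} (h : (a : ℝ) + b * √69 = c + d * √69) : a = c ∧ b = d := by
  have hb : b = d := by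
    by_contra hb
    have h0 : ((b : ℝ) - d) ≠ 0 := sub_ne_zero.2 (by exact_mod_cast hb)
    refine irr_Cls ⟨(c - a) / (b - d), ?_⟩
    push_cast
    rw [div_eq_iff h0]
    linear_combination -h
  subst hb
  exact ⟨by exact_mod_cast add_right_cancel h, rfl⟩

theorem norm_Cls {a b : ℚ} (h : a ^ 2 = 69 * b ^ 2) : a = 0 ∧ b = 0 := by
  have h' : (a : ℝ) ^ 2 = 69 * (b : ℝ) ^ 2 := by exact_mod_cast h
  have : ((a : ℝ) + b * √69) * (a + (-b : ℚ) * √69) = 0 := by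
    push_cast
    linear_combination h' - (b : ℝ) ^ 2 * sq_Cls
  rcases mul_eq_zero.1 this with e | e
  · exact coef_Cls (c := 0) (d := 0) (by simpa using e)
  · have := coef_Cls (c := 0) (d := 0) (a := a) (b := -b) (by simpa using e)
    exact ⟨this.1, neg_eq_zero.1 this.2⟩

theorem eqn_Cls {b : ℚ} {P : Pt (-27 * db b)} (hP : P ≠ 0) :
    py P ^ 2 = px P ^ 3 + 9936 * b ^ 2 :=
  (eqn hP).trans (congrArg _ (by rw [db]; ring))

theorem px_Cls {b : ℚ} (hb : b ≠ 0) {P : Pt (-27 * db b)} (hP : P ≠ 0) : px P ≠ 0 := by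
  intro h
  have e := eqn_Cls hP
  rw [h] at e
  exact hb (by
    have := (norm_Cls (a := py P) (b := 12 * b) (by linear_combination e)).2
    linear_combination this / 12)

theorem cube_Cls {x y : ℚ} (h : x ^ 3 = y ^ 3) : x = y :=
  (Odd.pow_injective (by decide : Odd 3)) h

theorem one_Cls {b : ℚ} (hb : b ≠ 0) (P Q : Pt (-27 * db b)) (z : ℝ) (u v u' v' : ℚ) (hP : P ≠ 0)
    (hQ : Q ≠ 0) (hPQ : P - Q ≠ 0)
    (h1 : ((py P : ℚ) : ℝ) + 12 * b * √69 = z * (u + v * √69) ^ 3)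
    (h2 : ((py Q : ℚ) : ℝ) + 12 * b * √69 = z * (u' + v' * √69) ^ 3) :
    ∃ u'' v'' : ℚ, ((py (P - Q) : ℚ) : ℝ) + 12 * b * √69 = (u'' + v'' * √69) ^ 3 := by
  rw [sub_eq_add_neg] at hPQ ⊢
  obtain ⟨m, a1, a2, a3, a4⟩ := add_data hP (neg_ne_zero.2 hQ) hPQ
  have e1 := eqn_Cls hP
  have e2 := eqn_Cls hQ
  have hx1 := px_Cls hb hP
  have hx2 := px_Cls hb hQ
  rw [px_neg] at a1 a2 a3
  rw [py_neg] at a1 a2
  rw [a3] at a4
  generalize py (P + -Q) = y3 at a4 ⊢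
  generalize px P = x1 at *
  generalize py P = y1 at *
  generalize px Q = x2 at *
  generalize py Q = y2 at *
  obtain ⟨c, rfl⟩ : ∃ c, y1 = m * x1 + c := ⟨y1 - m * x1, by ring⟩
  obtain rfl : y2 = -(m * x2 + c) := by linear_combination -a1
  have s2 : x1 * x2 + (x1 + x2) * (m ^ 2 - x1 - x2) = -2 * m * c := by linear_combination a2
  have s3 : x1 * x2 * (m ^ 2 - x1 - x2) = c ^ 2 - 9936 * b ^ 2 := by
    linear_combination x1 * s2 - e1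
  have w := sq_Cls
  generalize (√69 : ℝ) = r at h1 h2 w ⊢
  have S2 := congrArg (Rat.cast : ℚ → ℝ) s2
  have S3 := congrArg (Rat.cast : ℚ → ℝ) s3
  have E1 := congrArg (Rat.cast : ℚ → ℝ) e1
  have E2 := congrArg (Rat.cast : ℚ → ℝ) e2
  have A4 := congrArg (Rat.cast : ℚ → ℝ) a4
  push_cast at S2 S3 E1 E2 A4 h1 h2
  have X1 : (x1 : ℝ) ≠ 0 := by exact_mod_cast hx1
  have X2 : (x2 : ℝ) ≠ 0 := by exact_mod_cast hx2
  have n1 : ((m : ℝ) * x1 + c - 12 * b * r) * (z * (u + v * r) ^ 3) = (x1 : ℝ) ^ 3 := by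
    rw [← h1]; linear_combination E1 - 144 * (b : ℝ) ^ 2 * w
  have n2 : (-((m : ℝ) * x2 + c) - 12 * b * r) * (z * (u' + v' * r) ^ 3) = (x2 : ℝ) ^ 3 := by
    rw [← h2]; linear_combination E2 - 144 * (b : ℝ) ^ 2 * w
  have hβ : (u' : ℝ) + v' * r ≠ 0 := fun e => by
    rw [e] at n2
    exact pow_ne_zero 3 X2 (by rw [← n2]; ring)
  have hN : u' ^ 2 - 69 * v' ^ 2 ≠ 0 := fun e => by
    obtain ⟨rfl, rfl⟩ := norm_Cls (a := u') (b := v') (by linear_combination e)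
    exact hβ (by simp)
  have hN' : (u' : ℝ) ^ 2 - 69 * (v' : ℝ) ^ 2 ≠ 0 := by exact_mod_cast hN
  have key : ((m : ℝ) * x1 + c - 12 * b * r) * (z * (u' + v' * r) ^ 3) * (y3 + 12 * b * r) =
      (c - 12 * b * r) ^ 3 := by
    rw [← h2, A4]
    linear_combination (m : ℝ) ^ 3 * S3 + (m : ℝ) ^ 2 * (c - 12 * b * r) * S2 +
      144 * (m : ℝ) ^ 3 * (b : ℝ) ^ 2 * w
  have key2 : (x1 * ((u' : ℝ) + v' * r)) ^ 3 * (y3 + 12 * b * r) =
      ((c - 12 * b * r) * (u + v * r)) ^ 3 := by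
    linear_combination ((u : ℝ) + v * r) ^ 3 * key -
      ((u' : ℝ) + v' * r) ^ 3 * (y3 + 12 * b * r) * n1
  refine ⟨((c * u - 828 * b * v) * u' - 69 * (c * v - 12 * b * u) * v') /
      (x1 * (u' ^ 2 - 69 * v' ^ 2)),
    ((c * v - 12 * b * u) * u' - (c * u - 828 * b * v) * v') / (x1 * (u' ^ 2 - 69 * v' ^ 2)), ?_⟩
  have h0 : (x1 : ℝ) * ((u' : ℝ) + v' * r) ≠ 0 := mul_ne_zero X1 hβ
  apply mul_left_cancel₀ (pow_ne_zero 3 h0)
  rw [key2, ← mul_pow]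
  congr 1
  push_cast
  have gen : ∀ A B N : ℝ, N ≠ 0 → (x1 : ℝ) * (u' + v' * r) * (A / (x1 * N) + B / (x1 * N) * r) =
      (A + B * r) * (u' + v' * r) / N := fun A B N h => by field_simp
  rw [gen _ _ _ hN', eq_div_iff hN']
  linear_combination (-12 * (b : ℝ) * v * (u' ^ 2 - 69 * v' ^ 2) -
    ((c * v - 12 * b * u) * u' - (c * u - 828 * b * v) * v') * v') * w

theorem cls : ClsStmt := by
  intro b hb
  have w := sq_Cls
  refine ⟨one_Cls hb, fun P u v hP h => ?_, fun P e u v hP he h => ?_⟩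
  · obtain ⟨h1, h2⟩ := coef_Cls (a := py P) (b := 12 * b) (c := u ^ 3 + 207 * u * v ^ 2)
      (d := 3 * u ^ 2 * v + 69 * v ^ 3) (by
        push_cast
        linear_combination h + (3 * (u : ℝ) * v ^ 2 + (v : ℝ) ^ 3 * √69) * w)
    have e1 := eqn_Cls hP
    have hv : v ≠ 0 := by
      rintro rfl
      exact hb (by linear_combination h2 / 12)
    have hx : px P = u ^ 2 - 69 * v ^ 2 := cube_Cls (by
      rw [h1] at e1
      linear_combination -e1 - 69 * (12 * b + 3 * u ^ 2 * v + 69 * v ^ 3) * h2)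
    have h4 : 4 * b = (u ^ 2 + 23 * v ^ 2) * v := by linear_combination h2 / 3
    have h5 : 4 * b / v = u ^ 2 + 23 * v ^ 2 := by rw [div_eq_iff hv, h4]
    have h6 : u ^ 2 + 23 * v ^ 2 ≠ 0 := by positivity
    have h7 : db b = -23 * ((u ^ 2 + 23 * v ^ 2) * v) ^ 2 := by rw [← h4, db]; ring
    refine ⟨hv, ?_, ?_⟩
    · rw [mul_div_right_comm, h5, h7]; ring
    · rw [h5, hx, h7, eq_div_iff (pow_ne_zero 2 h6)]; ring
  · have e1 := eqn_Cls hP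
    have hx0 := px_Cls hb hP
    rcases he with rfl | rfl
    · obtain ⟨h1, h2⟩ := coef_Cls (a := py P) (b := 12 * b)
        (c := 4 * Gc v (-(u + 9 * v) / 2)) (d := 12 * fc v (-(u + 9 * v) / 2)) (by
          rw [zpow_one] at h
          simp only [Gc, fc]
          push_cast
          linear_combination h + (25 / 2 * (3 * (u : ℝ) * v ^ 2 + (v : ℝ) ^ 3 * √69) +
            3 / 2 * (3 * (u : ℝ) ^ 2 * v + 3 * u * v ^ 2 * √69 + (v : ℝ) ^ 3 * (√69 ^ 2 + 69))) * w)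
      have h3 : b ^ 2 = fc v (-(u + 9 * v) / 2) ^ 2 := by
        linear_combination (b + fc v (-(u + 9 * v) / 2)) * h2 / 12
      have hx : px P = 4 * Hc v (-(u + 9 * v) / 2) := cube_Cls (by
        rw [h1, h3] at e1
        simp only [Gc, fc, Hc] at e1 ⊢
        linear_combination -e1)
      exact ⟨_, _, h3.symm, fun e => hx0 (by rw [hx, e, mul_zero]), hx, h1⟩
    · have hε : ((25 + 3 * √69) / 2 : ℝ) ^ (-1 : ℤ) = (25 - 3 * √69) / 2 := by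
        rw [zpow_neg_one]
        exact inv_eq_of_mul_eq_one_right (by linear_combination -9 / 4 * w)
      obtain ⟨h1, h2⟩ := coef_Cls (a := py P) (b := 12 * b)
        (c := 4 * Gc (-v) (-(u - 9 * v) / 2)) (d := -12 * fc (-v) (-(u - 9 * v) / 2)) (by
          rw [hε] at h
          simp only [Gc, fc]
          push_cast
          linear_combination h + (25 / 2 * (3 * (u : ℝ) * v ^ 2 + (v : ℝ) ^ 3 * √69) -
            3 / 2 * (3 * (u : ℝ) ^ 2 * v + 3 * u * v ^ 2 * √69 + (v : ℝ) ^ 3 * (√69 ^ 2 + 69))) * w)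
      have h3 : b ^ 2 = fc (-v) (-(u - 9 * v) / 2) ^ 2 := by
        linear_combination (b - fc (-v) (-(u - 9 * v) / 2)) * h2 / 12
      have hx : px P = 4 * Hc (-v) (-(u - 9 * v) / 2) := cube_Cls (by
        rw [h1, h3] at e1
        simp only [Gc, fc, Hc] at e1 ⊢
        linear_combination -e1)
      exact ⟨_, _, h3.symm, fun e => hx0 (by rw [hx, e, mul_zero]), hx, h1⟩

end Pool.Agent.MP_adc87d_lc.Big

end
end

section

/-! Reduction modulo p and visible primes. -/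

set_option autoImplicit false

noncomputable section

namespace Pool.Agent.MP_adc87d_lc.Big

open Polynomial

section

variable {p : ℕ} [Fact p.Prime]

theorem ker_Vis (z : ℤ_[p]) : PadicInt.toZMod z = 0 ↔ ‖z‖ < 1 := by
  rw [← RingHom.mem_ker, PadicInt.ker_toZMod, IsLocalRing.mem_maximalIdeal, PadicInt.mem_nonunits]

theorem hen_Vis (n : ℕ) (c a : ℤ_[p]) (h0 : PadicInt.toZMod (a ^ (n + 1) + c) = 0)
    (h1 : PadicInt.toZMod (((n + 1 : ℕ) : ℤ_[p]) * a ^ n) ≠ 0) :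
    ∃ z : ℤ_[p], z ^ (n + 1) + c = 0 ∧ PadicInt.toZMod z = PadicInt.toZMod a := by
  have e1 : ‖(derivative (X ^ (n + 1) + C c : ℤ_[p][X])).aeval a‖ = 1 := by
    rw [Ne, ker_Vis, not_lt] at h1
    refine le_antisymm (PadicInt.norm_le_one _) ?_
    simpa [derivative_X_pow] using h1
  obtain ⟨z, hz, hz', -⟩ := hensels_lemma (F := (X ^ (n + 1) + C c : ℤ_[p][X])) (a := a) (by
    rw [e1, one_pow]; simpa using (ker_Vis _).1 h0)
  refine ⟨z, by simpa using hz, ?_⟩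
  rw [← sub_eq_zero, ← map_sub, ker_Vis]
  rwa [e1] at hz'

open Classical in
/-- reduction of a p-adic number -/
def rd_Vis (x : ℚ_[p]) : ZMod p := if h : ‖x‖ ≤ 1 then PadicInt.toZMod (⟨x, h⟩ : ℤ_[p]) else 0

theorem rd_coe_Vis (z : ℤ_[p]) : rd_Vis (z : ℚ_[p]) = PadicInt.toZMod z := by
  unfold rd_Vis
  rw [dif_pos z.2]
  rfl

theorem rd_eq_Vis {x y : ℚ_[p]} (hx : ‖x‖ ≤ 1) (hy : ‖y‖ ≤ 1) :
    rd_Vis x = rd_Vis y ↔ ‖x - y‖ < 1 := by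
  obtain ⟨x, rfl⟩ : ∃ z : ℤ_[p], (z : ℚ_[p]) = x := ⟨⟨x, hx⟩, rfl⟩
  obtain ⟨y, rfl⟩ : ∃ z : ℤ_[p], (z : ℚ_[p]) = y := ⟨⟨y, hy⟩, rfl⟩
  rw [rd_coe_Vis, rd_coe_Vis, ← sub_eq_zero, ← map_sub, ker_Vis, PadicInt.norm_def,
    PadicInt.coe_sub]

theorem int_Vis {d : ℤ} {P : Pt (d : ℚ_[p])} (h : ¬E1 P) :
    P ≠ 0 ∧ ‖px P‖ ≤ 1 ∧ ‖py P‖ ≤ 1 ∧ rd_Vis (py P) ^ 2 = rd_Vis (px P) ^ 3 + (d : ZMod p) := by
  have h0 : P ≠ 0 := fun e => h (.inl e)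
  have hx : ‖px P‖ ≤ 1 := not_lt.1 fun e => h (.inr e)
  have e := eqn h0
  have hy : ‖py P‖ ≤ 1 := by
    refine (pow_le_one_iff_of_nonneg (norm_nonneg _) two_ne_zero).1 ?_
    rw [← norm_pow, e]
    refine (Padic.nonarchimedean _ _).trans (max_le ?_ (Padic.norm_int_le_one d))
    rw [norm_pow]
    exact pow_le_one₀ (norm_nonneg _) hx
  refine ⟨h0, hx, hy, ?_⟩
  generalize px P = x, py P = y at *
  obtain ⟨x, rfl⟩ : ∃ z : ℤ_[p], (z : ℚ_[p]) = x := ⟨⟨x, hx⟩, rfl⟩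
  obtain ⟨y, rfl⟩ : ∃ z : ℤ_[p], (z : ℚ_[p]) = y := ⟨⟨y, hy⟩, rfl⟩
  have : y ^ 2 = x ^ 3 + (d : ℤ_[p]) := Subtype.ext (by push_cast; exact e)
  rw [rd_coe_Vis, rd_coe_Vis, ← map_pow, this]
  simp

theorem unit_Vis {n : ℤ} (h : ¬(p : ℤ) ∣ n) : ‖(n : ℚ_[p])‖ = 1 :=
  le_antisymm (Padic.norm_int_le_one n) (not_lt.1 fun e => h (Padic.norm_intCast_lt_one_iff.1 e))

/-- the kernel of reduction as a subgroup -/
def sub_Vis (h1 : L1Stmt) {d : ℚ_[p]} (h0 : d ≠ 0) (hd : ‖d‖ ≤ 1) : AddSubgroup (Pt d) where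
  carrier := {P | E1 P}
  zero_mem' := .inl rfl
  add_mem' := fun {P Q} hP hQ =>
    ((h1 p d h0 hd).2 P Q _ hP hQ (le_max_left _ _) (le_max_right _ _)).1
  neg_mem' := fun {P} hP => hP.imp (fun e => by rw [e, neg_zero]) fun e => by rwa [px_neg]

theorem lift_Vis {d : ℤ} (hd : ¬(p : ℤ) ∣ 6 * d) {a b : ZMod p} (h : b ^ 2 = a ^ 3 + d) :
    ∃ x y : ℤ_[p], y ^ 2 = x ^ 3 + d ∧ PadicInt.toZMod x = a ∧ PadicInt.toZMod y = b := by
  obtain ⟨x, rfl⟩ := ZMod.ringHom_surjective (PadicInt.toZMod (p := p)) a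
  obtain ⟨y, rfl⟩ := ZMod.ringHom_surjective (PadicInt.toZMod (p := p)) b
  have h6 : (2 : ZMod p) * 3 * d ≠ 0 := fun e =>
    hd ((ZMod.intCast_zmod_eq_zero_iff_dvd _ p).1 (by push_cast; rw [← e]; ring))
  have h2 := (mul_ne_zero_iff.1 (mul_ne_zero_iff.1 h6).1).1
  have h3 := (mul_ne_zero_iff.1 (mul_ne_zero_iff.1 h6).1).2
  have h4 := (mul_ne_zero_iff.1 h6).2
  by_cases hy : PadicInt.toZMod y = 0
  · have hx : PadicInt.toZMod x ≠ 0 := fun e => h4 (by simpa [hy, e] using h.symm)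
    obtain ⟨z, hz, hz'⟩ := hen_Vis 2 ((d : ℤ_[p]) - y ^ 2) x
      (by simp only [map_add, map_sub, map_pow, map_intCast]; linear_combination -h)
      (by simp only [map_mul, map_pow, map_natCast]
          exact mul_ne_zero (by exact_mod_cast h3) (pow_ne_zero _ hx))
    exact ⟨z, y, by linear_combination -hz, hz', rfl⟩
  · obtain ⟨z, hz, hz'⟩ := hen_Vis 1 (-(x ^ 3 + (d : ℤ_[p]))) y
      (by simp only [map_add, map_neg, map_pow, map_intCast]; linear_combination h)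
      (by simp only [map_mul, map_pow, map_natCast]
          exact mul_ne_zero (by exact_mod_cast h2) (pow_ne_zero _ hy))
    exact ⟨x, z, by linear_combination hz, rfl, hz'⟩

end

theorem red (h1 : L1Stmt) (h3 : L3Stmt) : RedStmt := by
  classical
  intro p _ d hd P
  have hp : Prime (p : ℤ) := Nat.prime_iff_prime_int.1 Fact.out
  have h0 : (d : ℚ_[p]) ≠ 0 := Int.cast_ne_zero.2 fun e => hd (by simp [e])
  have hd1 := Padic.norm_int_le_one (p := p) d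
  have hu : ‖432 * (d : ℚ_[p]) ^ 2‖ = 1 := by
    have := unit_Vis (p := p) (n := 432 * d ^ 2) fun e =>
      hd (hp.dvd_of_dvd_pow (n := 4) (e.trans ⟨3 * d ^ 2, by ring⟩))
    exact_mod_cast this
  obtain ⟨a1, a2, -⟩ := h3 p d h0 hd1
  set H := sub_Vis h1 h0 hd1 with hH
  have hm : ∀ Q, Q ∈ H ↔ E1 Q := fun Q => Iff.rfl
  let ρ : Pt (d : ℚ_[p]) → Option {x : ZMod p × ZMod p // x.2 ^ 2 = x.1 ^ 3 + (d : ZMod p)} :=
    fun Q => if h : E1 Q then none else some ⟨(rd_Vis (px Q), rd_Vis (py Q)), (int_Vis h).2.2.2⟩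
  have hs : Function.Surjective ρ := by
    rintro (_ | ⟨⟨a, b⟩, h⟩)
    · exact ⟨0, dif_pos (.inl rfl)⟩
    obtain ⟨x, y, e, rfl, rfl⟩ := lift_Vis hd h
    obtain ⟨R, r0, rx, ry⟩ := exists_pt h0 (x := x) (y := y) (by exact_mod_cast congrArg Subtype.val e)
    have hR : ¬E1 R := fun h' => h'.elim r0 fun h'' => not_le.2 h'' (rx ▸ x.2)
    refine ⟨R, ?_⟩
    simp only [ρ, dif_neg hR, rx, ry, rd_coe_Vis]
  have hk : ∀ Q R, QuotientAddGroup.leftRel H Q R ↔ Setoid.ker ρ Q R := by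
    intro Q R
    rw [QuotientAddGroup.leftRel_apply, Setoid.ker_def, neg_add_eq_sub]
    by_cases hQ : E1 Q <;> by_cases hR : E1 R
    · simp only [ρ, dif_pos hQ, dif_pos hR, iff_true]
      exact H.sub_mem hR hQ
    · simp only [ρ, dif_pos hQ, dif_neg hR, reduceCtorEq, iff_false]
      exact fun h => hR ((hm R).1 (by simpa using H.add_mem h ((hm Q).2 hQ)))
    · simp only [ρ, dif_neg hQ, dif_pos hR, reduceCtorEq, iff_false]
      exact fun h => hQ ((hm Q).1 (by simpa using H.sub_mem ((hm R).2 hR) h))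
    obtain ⟨q0, qx, qy, -⟩ := int_Vis hQ
    obtain ⟨r0, rx, ry, -⟩ := int_Vis hR
    simp only [ρ, dif_neg hQ, dif_neg hR, Option.some.injEq, Subtype.mk.injEq, Prod.mk.injEq]
    rw [eq_comm, eq_comm (a := rd_Vis (py Q)), rd_eq_Vis rx qx, rd_eq_Vis ry qy]
    constructor
    · intro h
      obtain ⟨-, b1, b2⟩ := a1 Q (R - Q) q0 qx h
      have b3 : ‖zc (R - Q)‖ < 1 := by
        by_cases e : R - Q = 0
        · rw [e, zc, px_zero, zero_div, norm_zero]; exact one_pos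
        · exact ((h1 p d h0 hd1).1 _ e h).1
      rw [add_sub_cancel] at b1 b2
      exact ⟨b1.trans_lt b3, b2.trans_lt b3⟩
    · intro h
      exact (a2 R Q _ r0 q0 rx (by rw [hu]; exact max_lt h.1 h.2) (le_max_left _ _)
        (le_max_right _ _)).1
  have hi : H.index = np p d := by
    have e : Nat.card (Pt (d : ℚ_[p]) ⧸ H) = _ := Nat.card_congr
      ((Quotient.congrRight hk).trans (Setoid.quotientKerEquivOfSurjective ρ hs))
    rw [Finite.card_option] at e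
    rw [np, add_comm]
    exact e
  rw [← hi]
  exact H.nsmul_index_mem P

theorem qr_Vis {p : ℕ} [Fact p.Prime] (h : ¬p ∣ 2 * 3 * 7 * 23)
    (hs : IsSquare ((-368 * 49 ^ 2 : ℤ) : ZMod p)) : IsSquare (p : ZMod 23) := by
  have : Fact (Nat.Prime 23) := ⟨by norm_num⟩
  have hp : p.Prime := Fact.out
  have h2 : p ≠ 2 := by rintro rfl; exact h (by norm_num)
  have h23 : p ≠ 23 := by rintro rfl; exact h (by norm_num)
  have hne : ∀ n : ℤ, n ∣ (2 * 3 * 7 * 23) ^ 4 → (n : ZMod p) ≠ 0 := fun n hn e => by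
    have := ((ZMod.intCast_zmod_eq_zero_iff_dvd _ p).1 e).trans hn
    exact h (hp.dvd_of_dvd_pow (n := 4) (by exact_mod_cast this))
  have e1 := (legendreSym.eq_one_iff p (hne _ (by norm_num))).2 hs
  rw [show (-368 * 49 ^ 2 : ℤ) = -(23 : ℕ) * 196 ^ 2 by norm_num, legendreSym.mul,
    legendreSym.sq_one' p (hne _ (by norm_num)), mul_one, legendreSym.at_neg h2,
    ZMod.χ₄_eq_neg_one_pow (hp.eq_two_or_odd.resolve_left h2)] at e1
  have e2 := legendreSym.quadratic_reciprocity' (p := p) (q := 23) h2 (by norm_num)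
  rw [mul_comm (p / 2), pow_mul, show ((-1 : ℤ)) ^ (23 / 2) = -1 by norm_num, e1] at e2
  have e3 : ((p : ℤ) : ZMod 23) ≠ 0 := fun e => by
    have := (ZMod.intCast_zmod_eq_zero_iff_dvd _ 23).1 e
    exact h23 ((Nat.prime_dvd_prime_iff_eq (by norm_num) hp).1 (by exact_mod_cast this)).symm
  simpa using (legendreSym.eq_one_iff 23 e3).1 e2

theorem vis (h1 : L1Stmt) (_h2 : L2Stmt) (h3 : L3Stmt) (h4 : CntStmt) (h5 : RedStmt) :
    VisStmt := by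
  intro p k K _ hk hK hp P hP hx
  have hpp : p.Prime := Fact.out
  have hd : ¬(p : ℤ) ∣ 6 * (-368 * 49 ^ 2) := fun e =>
    hp (hpp.dvd_of_dvd_pow (n := 5) (by
      exact_mod_cast e.trans (by norm_num : (6 * (-368 * 49 ^ 2) : ℤ) ∣ (2 * 3 * 7 * 23) ^ 5)))
  have h0 : ((-368 * 49 ^ 2 : ℤ) : ℚ_[p]) ≠ 0 := Int.cast_ne_zero.2 (by norm_num)
  have hd1 := Padic.norm_int_le_one (p := p) (-368 * 49 ^ 2)
  obtain ⟨ψ, hinj, ψx, -⟩ := exists_scale (d := db (49 : ℚ)) (Rat.castHom ℚ_[p]) one_ne_zero h0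
    (by simp only [db, map_mul, map_neg, map_pow, map_ofNat]; push_cast; ring)
  have m0 : ψ ((3 ^ K : ℕ) • P) ≠ 0 := fun e => hP (hinj (e.trans ψ.map_zero.symm))
  have mx : px (ψ ((3 ^ K : ℕ) • P)) = (px ((3 ^ K : ℕ) • P) : ℚ) := by simp only [ψx]; simp
  have mx0 : px (ψ ((3 ^ K : ℕ) • P)) ≠ 0 := by
    rw [mx, Rat.cast_ne_zero]
    intro e
    have : py ((3 ^ K : ℕ) • P) ^ 2 = px ((3 ^ K : ℕ) • P) ^ 3 + -368 * 49 ^ 2 := eqn hP
    rw [e] at this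
    nlinarith [sq_nonneg (py ((3 ^ K : ℕ) • P))]
  rw [← mx] at hx
  have n1 : ¬E1 (ψ ((3 ^ K : ℕ) • P)) := fun e => e.elim m0 fun e' => lt_asymm hx e'
  have n3 := ((h3 p _ h0 hd1).2.2 _ m0 mx0 (by exact_mod_cast unit_Vis hd) hx).2.1
  set H := sub_Vis h1 h0 hd1 with hH
  have hq : ∀ n : ℕ, n • (QuotientAddGroup.mk (ψ P) : _ ⧸ H) = 0 ↔ E1 (n • ψ P) := fun n => by
    rw [← QuotientAddGroup.mk_nsmul, QuotientAddGroup.eq_zero_iff]; rfl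
  have : Fact (Nat.Prime 3) := ⟨Nat.prime_three⟩
  have ho := addOrderOf_eq_prime_pow (p := 3) (n := K) (x := (QuotientAddGroup.mk (ψ P) : _ ⧸ H))
    (by rw [hq, ← map_nsmul]; exact n1)
    (by rw [hq, pow_succ' 3 K, mul_smul, ← map_nsmul ψ (3 ^ K)]; exact n3)
  have hdv := addOrderOf_dvd_of_nsmul_eq_zero ((hq _).2 (h5 p _ hd (ψ P)))
  rw [ho] at hdv
  have hc := h4 p k _ hpp hd hk ((pow_dvd_pow 3 (by omega)).trans hdv)
  rintro (h | h)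
  · exact hc.elim h.1 h.2
  · refine h.2 (qr_Vis hp ⟨rd_Vis (py (ψ ((3 ^ K : ℕ) • P))), ?_⟩)
    have e0 : rd_Vis (px (ψ ((3 ^ K : ℕ) • P))) = 0 := by
      have := (rd_eq_Vis hx.le (y := ((0 : ℤ_[p]) : ℚ_[p])) (by simp)).2 (by simpa using hx)
      rw [this, rd_coe_Vis, map_zero]
    rw [← sq, (int_Vis n1).2.2.2, e0]
    simp

end Pool.Agent.MP_adc87d_lc.Big

end
end
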