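import Mathlib
import Pool.Agent.Mg.Fadc87d.G04e6de

set_option linter.all false

/-! Every rational number that satisfies the definition is an integer. -/

set_option autoImplicit false

noncomputable section

namespace Pool.Agent.MP_adc87d_lc.Big

theorem nrm_Sound (p : ℕ) [hp : Fact p.Prime] (x : ℚ) (h : (p : ℤ) ∣ x.num) :
    ‖(x : ℚ_[p])‖ = ‖((x.num : ℤ) : ℚ_[p])‖ := by
  have h1 : ¬(p : ℤ) ∣ (x.den : ℤ) := fun h2 => by
    have := (Rat.isCoprime_num_den x).isUnit_of_dvd' h h2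
    rw [Int.isUnit_iff_natAbs_eq, Int.natAbs_natCast] at this
    exact hp.out.one_lt.ne' this
  have h2 : ‖(((x.den : ℤ)) : ℚ_[p])‖ = 1 :=
    le_antisymm (Padic.norm_int_le_one _) (not_lt.1 fun h3 =>
      h1 (Padic.norm_intCast_lt_one_iff.1 h3))
  have h3 : (x : ℚ_[p]) * ((x.den : ℤ) : ℚ_[p]) = ((x.num : ℤ) : ℚ_[p]) := by
    exact_mod_cast congrArg (fun t : ℚ => (t : ℚ_[p])) (Rat.mul_den_eq_num x)
  rw [← h3, norm_mul, h2, mul_one]

theorem dvd_Sound {W : Set ℕ} {X Z : ℚ} (hZ : Z ≠ 0)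
    (hW : ∀ (p : ℕ) [Fact p.Prime], ‖(X : ℚ_[p])‖ < 1 → p ∉ W) (h : Dv W X Z⁻¹) :
    X.num.natAbs ∣ Z.den := by
  rw [Nat.dvd_iff_prime_pow_dvd_dvd]
  intro p k hp hk
  rcases Nat.eq_zero_or_pos k with rfl | k0
  · simp
  have : Fact p.Prime := ⟨hp⟩
  have h1 : ((p : ℤ) ^ k) ∣ X.num := by
    rw [← Int.dvd_natAbs]
    exact_mod_cast hk
  have h2 : (p : ℤ) ∣ X.num := (dvd_pow_self _ k0.ne').trans h1
  have h3 := nrm_Sound p X h2
  have h4 : ‖(X : ℚ_[p])‖ < 1 := by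
    rw [h3]; exact Padic.norm_intCast_lt_one_iff.2 h2
  have h5 := h p (hW p h4) h4
  have h6 : (((Z.den : ℤ)) : ℚ_[p]) = ((Z.num : ℤ) : ℚ_[p]) * ((Z⁻¹ : ℚ) : ℚ_[p]) := by
    have : (Z.den : ℚ) = Z.num * Z⁻¹ := by
      rw [← Rat.mul_den_eq_num]; field_simp
    exact_mod_cast congrArg (fun t : ℚ => (t : ℚ_[p])) this
  have h7 : ‖(((Z.den : ℤ)) : ℚ_[p])‖ ≤ (p : ℝ) ^ (-k : ℤ) := by
    rw [h6, norm_mul]
    refine le_trans (mul_le_of_le_one_left (norm_nonneg _) (Padic.norm_int_le_one _)) ?_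
    refine h5.trans ?_
    rw [h3]
    exact (Padic.norm_int_le_pow_iff_dvd _ _).2 h1
  exact_mod_cast (Padic.norm_int_le_pow_iff_dvd _ _).1 h7

theorem one_lt_Sound {P : Pt (db (49 : ℚ))} (hP : P ≠ 0) : 1 < px P := by
  have h := eqn hP
  generalize px P = x at h ⊢
  generalize py P = y at h
  unfold db at h
  by_contra hc
  have h1 : x ≤ 1 := not_lt.1 hc
  have h2 : x ^ 3 ≤ 1 ^ 3 := (Odd.strictMono_pow (by decide : Odd 3)).monotone h1
  nlinarith [sq_nonneg y]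

theorem den_le_Sound {x : ℚ} (h : 1 ≤ x) : (x.den : ℤ) ≤ x.num := by
  have h1 : (x.den : ℚ) ≤ x.num := by
    rw [← Rat.mul_den_eq_num]
    exact le_mul_of_one_le_left (by positivity) h
  exact_mod_cast h1

theorem ht_Sound {x : ℚ} {t c : ℝ} (h1 : 1 < x)
    (h : |Real.log (max |(x.num : ℝ)| x.den) - t| ≤ c) :
    Real.exp (t - c) ≤ x.num ∧ (x.den : ℝ) ≤ Real.exp (t + c) := by
  have a1 : ((x.den : ℤ) : ℝ) ≤ x.num := by exact_mod_cast den_le_Sound h1.le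
  rw [Int.cast_natCast] at a1
  have a2 : (0 : ℝ) < x.den := by exact_mod_cast x.pos
  have a3 : (0 : ℝ) < x.num := a2.trans_le a1
  rw [abs_of_pos a3, max_eq_left a1, abs_le] at h
  constructor
  · rw [← Real.le_log_iff_exp_le a3]; linarith [h.1]
  · refine a1.trans ?_
    rw [← Real.log_le_iff_le_exp a3]; linarith [h.2]

/-- the two size estimates -/
theorem size_Sound {h c M X Y n i : ℝ} (hh : 0 < h) (hc : 0 ≤ c) (hM : 0 ≤ M)
    (h1 : 4 * (1 + 1 / h) * Real.exp (5 * c) < X) (h2 : X ≤ 2 * Real.exp (M + c))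
    (h3 : h * n ^ 2 ≤ M + 2 * c) (hn : 1 ≤ |n|) (h4 : Real.exp (3 * M - c) ≤ Y) (h5 : Y ≤ |i|)
    (hi : 1 ≤ |i|) : X * (1 + |n|) < Y ∧ 3 * c < h * i ^ 2 := by
  have hq : 0 < 1 / h := by positivity
  have hq1 : h * (1 / h) = 1 := by field_simp
  generalize 1 / h = q at *
  have e1 : Real.exp (M + c) = Real.exp M * Real.exp c := Real.exp_add _ _
  have e2 : Real.exp (5 * c) = Real.exp c ^ 5 := by rw [← Real.exp_nat_mul]; norm_num
  have e3 : Real.exp (3 * M - c) * Real.exp c = Real.exp M ^ 3 := by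
    rw [← Real.exp_add, ← Real.exp_nat_mul]; norm_num
  have e4 : M + 2 * c + 1 ≤ Real.exp M * Real.exp c ^ 2 := by
    rw [← Real.exp_nat_mul, ← Real.exp_add]
    exact_mod_cast Real.add_one_le_exp (M + 2 * c)
  have e5 : 3 * c + 1 ≤ Real.exp c ^ 3 := by
    rw [← Real.exp_nat_mul]
    exact_mod_cast Real.add_one_le_exp (3 * c)
  have a1 : 1 ≤ Real.exp M := Real.one_le_exp hM
  have a2 : 1 ≤ Real.exp c := Real.one_le_exp hc
  rw [e1] at h2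
  rw [e2] at h1
  generalize Real.exp M = A at *
  generalize Real.exp c = B at *
  have b1 : 2 * (1 + q) * B ^ 4 < A := by
    refine lt_of_mul_lt_mul_right (a := 2 * B) ?_ (by positivity)
    nlinarith
  have b2 : A ^ 3 ≤ Y * B := by
    rw [← e3]; exact mul_le_mul_of_nonneg_right h4 (by positivity)
  have b3 : |n| ≤ q * (M + 2 * c) := by
    have s1 : |n| ≤ n ^ 2 := by rw [← sq_abs]; nlinarith
    have s2 : q * (h * n ^ 2) ≤ q * (M + 2 * c) := mul_le_mul_of_nonneg_left h3 hq.le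
    have s3 : q * (h * n ^ 2) = n ^ 2 := by rw [← mul_assoc, mul_comm q h, hq1, one_mul]
    linarith
  have b4 : 1 + |n| ≤ (1 + q) * (A * B ^ 2) := by
    refine le_trans ?_ (mul_le_mul_of_nonneg_left e4 (by positivity))
    nlinarith
  constructor
  · refine lt_of_mul_lt_mul_right (a := B) ?_ (by positivity)
    calc X * (1 + |n|) * B ≤ 2 * (A * B) * ((1 + q) * (A * B ^ 2)) * B := by gcongr
      _ = 2 * (1 + q) * B ^ 4 * A ^ 2 := by ring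
      _ < A * A ^ 2 := by gcongr
      _ = A ^ 3 := by ring
      _ ≤ Y * B := b2
  · have s1 : |i| ≤ i ^ 2 := by rw [← sq_abs]; nlinarith
    have s2 : A ≤ A ^ 3 := le_self_pow₀ a1 (by norm_num)
    have s3 : 2 * (1 + q) * B ^ 3 < Y := by
      refine lt_of_mul_lt_mul_right (a := B) ?_ (by positivity)
      nlinarith
    have s4 : h * (2 * (1 + q) * B ^ 3) < h * i ^ 2 := by gcongr; linarith
    have s5 : h * (2 * (1 + q) * B ^ 3) = 2 * (h + h * q) * B ^ 3 := by ring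
    rw [s5, hq1] at s4
    have s6 : 0 ≤ h * B ^ 3 := by positivity
    nlinarith

/-- the divisibility step -/
theorem div_Sound {y i z g : ℤ} {K : ℕ} (hy2 : ¬(2 : ℤ) ∣ y) (hy3 : ¬(3 : ℤ) ∣ y) (hi : y ∣ i)
    (hg : g ∣ 3 * i) (hg0 : 0 < g) (hlt : i ^ 2 < g ^ 2) (hi0 : i ≠ 0)
    (hz : g ∣ 3 ^ K * z) : y ∣ z := by
  have c2 : IsCoprime y 2 := ((Int.prime_two.coprime_iff_not_dvd).2 hy2).symm
  have c3 : IsCoprime y 3 := ((Int.prime_three.coprime_iff_not_dvd).2 hy3).symm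
  obtain ⟨t, ht⟩ := (dvd_abs _ _).2 hg
  have a1 : |i| < g := abs_lt_of_sq_lt_sq hlt hg0.le
  have a2 : 0 < |i| := abs_pos.2 hi0
  rw [abs_mul, abs_of_pos (by norm_num : (0 : ℤ) < 3)] at ht
  have t1 : 0 < t := by
    by_contra hc
    nlinarith
  have t2 : t < 3 := by
    by_contra hc
    nlinarith
  have a3 : y ∣ g * t := ht ▸ ((dvd_abs _ _).2 hi).mul_left 3
  have a4 : y ∣ g := by
    have : t = 1 ∨ t = 2 := by omega
    rcases this with rfl | rfl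
    · simpa using a3
    · exact c2.dvd_of_dvd_mul_right a3
  exact (c3.pow_right (n := K)).dvd_of_dvd_mul_left (a4.trans hz)

theorem sound (h1 : HtStmt) (h2 : CycStmt) (h3 : VisStmt) (h4 : NiceStmt) (h5 : SGStmt)
    (h6 : SEStmt) (h7 : SHStmt) : SoundStmt := by
  intro D
  by_cases hG : ∀ n : ℤ, n ≠ 0 → n • D.G ≠ 0
  swap
  · exact ⟨0, fun W hW => absurd hW.base.2.2.1 hG⟩
  obtain ⟨h, c, hh, hc⟩ := h1 _ D.G (by unfold db; norm_num) hG
  have hc0 : 0 ≤ c := (abs_nonneg _).trans (hc 0)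
  have H : ∀ n : ℤ, n ≠ 0 → Real.exp (h * (n : ℝ) ^ 2 - c) ≤ (px (n • D.G)).num ∧
      ((px (n • D.G)).den : ℝ) ≤ Real.exp (h * (n : ℝ) ^ 2 + c) := fun n hn =>
    ht_Sound (one_lt_Sound (hG n hn)) (hc n)
  have Hp : ∀ n : ℤ, n ≠ 0 → 0 < (px (n • D.G)).num := fun n hn =>
    Rat.num_pos.2 (one_pos.trans (one_lt_Sound (hG n hn)))
  obtain ⟨x₀, hx₀⟩ := exists_nat_gt (4 * (1 + 1 / h) * Real.exp (5 * c))
  refine ⟨x₀, fun W hW x hx => ?_⟩
  obtain ⟨hx1, A, B, E, hA, hB, hE, d1, d2, d3, c₁, c₂, l, hc₁, hc₂, P, Q, hCg, hCh⟩ := hx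
  obtain ⟨hK, -, -, -, hbad, hall⟩ := hW.base
  have hk := hW.two
  have hC := hW.big
  obtain ⟨n', eA⟩ := hall A
  obtain ⟨i', eB⟩ := hall B
  obtain ⟨e', eE⟩ := hall E
  have eE3 : (3 * D.io) • E = ((3 : ℤ) ^ D.K * e' * 3) • D.G := by
    rw [mul_smul, eE, mul_comm _ (3 : ℤ), mul_smul (3 : ℤ)]
    exact (natCast_zsmul _ 3).symm
  have ez : ∀ {t : ℤ}, t • D.G ≠ 0 → t ≠ 0 := fun ht e => ht (by rw [e, zero_smul])
  rw [eE3] at hE d1 d2 d3 hCh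
  rw [eA] at hA d2 hCg
  rw [eB] at hB d3 hCg
  have hm0 := ez hE
  have hn0 := ez hA
  have hi0 := ez hB
  obtain ⟨m, hm⟩ : ∃ m, m = (3 : ℤ) ^ D.K * e' * 3 := ⟨_, rfl⟩
  rw [← hm] at hE d1 d2 d3 hCh hm0
  have ey : (3 ^ D.K : ℕ) • (D.G + m • D.G) = ((3 : ℤ) ^ D.K * (1 + m)) • D.G := by
    rw [mul_smul, add_smul, one_smul, ← natCast_zsmul]
    push_cast
    rfl
  rw [ey] at d3 hCh
  have hj0 : 1 + m ≠ 0 := by omega
  have h3K : (3 : ℤ) ^ D.K ≠ 0 := by positivity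
  have hy0 : (3 : ℤ) ^ D.K * (1 + m) ≠ 0 := mul_ne_zero h3K hj0
  have hZ : px (m • D.G) ≠ 0 := (one_pos.trans (one_lt_Sound hE)).ne'
  -- size of x
  have hx4 : (4 : ℝ) < x₀ := by
    refine lt_of_le_of_lt ?_ hx₀
    have a1 : 1 ≤ Real.exp (5 * c) := Real.one_le_exp (by positivity)
    have a2 : 0 < 1 / h := by positivity
    nlinarith
  have hx2 : (2 : ℚ) ≤ x := by
    refine le_trans ?_ hx1
    have : (4 : ℕ) < x₀ := by exact_mod_cast hx4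
    exact_mod_cast (by omega : 2 ≤ x₀)
  have hxn : (x₀ : ℝ) ≤ x.num := by
    have a1 : x ≤ x.num := by
      rw [← Rat.mul_den_eq_num]
      exact le_mul_of_one_le_right (by linarith) (by exact_mod_cast x.pos)
    exact_mod_cast hx1.trans a1
  obtain ⟨cy1, cy2, -⟩ := h2 D.k (by omega)
  have s1 : (x.num : ℝ) ≤ 2 * Real.exp (h * (m : ℝ) ^ 2 + c) := by
    have a1 := dvd_Sound hZ (fun p _ hp hpW => by
      have := hW.hi hpW
      rcases cy1 x p hp with e | e | e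
      · omega
      · omega
      · exact e this.2) d1
    have a2 := Nat.le_of_dvd (px (m • D.G)).pos a1
    have a3 := cy2 x hx2
    have a4 : x.num ≤ 2 * ((px (m • D.G)).den : ℤ) := by omega
    have a5 : (x.num : ℝ) ≤ 2 * ((px (m • D.G)).den : ℝ) := by exact_mod_cast a4
    linarith [(H m hm0).2]
  -- size of n
  have s2 : h * (((3 : ℤ) ^ D.K * n' : ℤ) : ℝ) ^ 2 ≤ h * (m : ℝ) ^ 2 + 2 * c := by
    have e : ((3 : ℤ) ^ D.K * n') • D.G = (3 ^ D.K : ℕ) • (n' • D.G) := by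
      rw [mul_smul, ← natCast_zsmul]
      push_cast
      rfl
    have a1 := dvd_Sound hZ (fun p hpp hp hpW => by
      have hh' := hW.hi hpW
      by_cases hd : p ∣ 2 * 3 * 7 * 23
      · exact absurd (hbad p hd n' (right_ne_zero_of_mul hn0)) (not_lt.2 hp.le)
      · rw [e] at hp hA
        exact h3 p D.k D.K (by omega) hK hd _ hA hp hh'.2) d2
    have a2 := Nat.le_of_dvd (px (m • D.G)).pos a1
    have a3 := Hp _ hn0
    have a4 : (px (((3 : ℤ) ^ D.K * n') • D.G)).num ≤ ((px (m • D.G)).den : ℤ) := by omega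
    have a5 : ((px (((3 : ℤ) ^ D.K * n') • D.G)).num : ℝ) ≤ ((px (m • D.G)).den : ℝ) := by
      exact_mod_cast a4
    have a6 := Real.exp_le_exp.1 (((H _ hn0).1.trans a5).trans (H m hm0).2)
    linarith
  -- size of y
  have s3 : Real.exp (3 * (h * (m : ℝ) ^ 2) - c) ≤
      (px (((3 : ℤ) ^ D.K * (1 + m)) • D.G)).num := by
    refine le_trans (Real.exp_le_exp.2 ?_) (H _ hy0).1
    have a1 : (3 : ℤ) ^ 2 ≤ 3 ^ D.K := pow_le_pow_right₀ (by norm_num) (by omega)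
    have a2 : 3 ≤ m ∨ m ≤ -3 := by omega
    have a3 : m ^ 2 ≤ 4 * (1 + m) ^ 2 := by rcases a2 with a | a <;> nlinarith
    have a4 : 3 * m ^ 2 ≤ ((3 : ℤ) ^ D.K * (1 + m)) ^ 2 := by
      rw [mul_pow]
      have b1 : (81 : ℤ) ≤ ((3 : ℤ) ^ D.K) ^ 2 := by nlinarith
      nlinarith [sq_nonneg (1 + m), mul_le_mul_of_nonneg_right b1 (sq_nonneg (1 + m))]
    have a5 : 3 * (m : ℝ) ^ 2 ≤ (((3 : ℤ) ^ D.K * (1 + m) : ℤ) : ℝ) ^ 2 := by exact_mod_cast a4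
    nlinarith [mul_le_mul_of_nonneg_left a5 hh.le]
  have s4 := h6 D W hW _ _ hi0 hj0 d3
  have s5 : ((px (((3 : ℤ) ^ D.K * (1 + m)) • D.G)).num : ℝ) ≤
      |(((3 : ℤ) ^ D.K * i' : ℤ) : ℝ)| := by
    exact_mod_cast Int.le_of_dvd (abs_pos.2 hi0) ((dvd_abs _ _).2 s4)
  have one : ∀ t : ℤ, t ≠ 0 → 1 ≤ |(t : ℝ)| := fun t ht => by
    exact_mod_cast Int.one_le_abs ht
  obtain ⟨z1, z2⟩ := size_Sound hh hc0 (by positivity) (hx₀.trans_le hxn) s1 s2 (one _ hn0) s3 s5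
    (one _ hi0)
  -- the twist
  obtain ⟨hN, hu⟩ := h4 D W hW c₁ c₂ hc₁ hc₂
  have hb : ∀ (p : ℕ) [Fact p.Prime], p ∉ W → p ≠ 7 →
      ‖((49 * c₁ * c₂ : ℚ) : ℚ_[p])‖ = 1 := by
    intro p hp hpW h7'
    have a1 : ‖(((49 : ℤ)) : ℚ_[p])‖ = 1 := by
      refine le_antisymm (Padic.norm_int_le_one _) (not_lt.1 fun h3 => h7' ?_)
      have a2 : p ∣ 7 ^ 2 := by exact_mod_cast Padic.norm_intCast_lt_one_iff.1 h3
      exact (Nat.prime_dvd_prime_iff_eq hp.out (by norm_num)).1 (hp.out.dvd_of_dvd_pow a2)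
    push_cast at a1 ⊢
    rw [norm_mul, norm_mul, a1, (hu p hpW).1, (hu p hpW).2]
    norm_num
  obtain ⟨a, c', hac, hfin⟩ := h7 D W hW (1 + m) _ x _ _ hj0 hN hb hCh
  have hP : P ≠ 0 := fun e => hCh.1 (by rw [e, smul_zero])
  have hQ : Q ≠ 0 := fun e => hCh.2.1 (by rw [e, smul_zero])
  have g1 := h5 D W hW i' _ a c' _ l P Q (right_ne_zero_of_mul hi0) hn0 hP hQ hb hCg hac
  obtain ⟨g, hg⟩ : ∃ g : ℤ, g = (Int.gcd (3 ^ (D.K + 1) * (a * (3 ^ D.K * n') - c'))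
    (3 * (3 ^ D.K * i')) : ℤ) := ⟨_, rfl⟩
  have g2 : 0 < g := by
    rw [hg]
    exact_mod_cast Int.gcd_pos_of_ne_zero_right _ (mul_ne_zero (by norm_num) hi0)
  have g3 : g ∣ 3 * (3 ^ D.K * i') := hg ▸ Int.gcd_dvd_right _ _
  have g4 : g ∣ 3 ^ (D.K + 1) * (a * (3 ^ D.K * n') - c') := hg ▸ Int.gcd_dvd_left _ _
  rw [← hg] at g1
  have g5 : ((3 : ℤ) ^ D.K * i') ^ 2 < g ^ 2 := by
    have a1 := Nat.le_of_dvd (px (g • D.G)).pos g1
    have a2 : (px (((3 : ℤ) ^ D.K * i') • D.G)).num ^ 2 ≤ ((px (g • D.G)).den : ℤ) := by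
      rw [← Int.natAbs_sq]
      exact_mod_cast a1
    have a3 : ((px (((3 : ℤ) ^ D.K * i') • D.G)).num : ℝ) ^ 2 ≤ ((px (g • D.G)).den : ℝ) := by
      exact_mod_cast a2
    have a4 := pow_le_pow_left₀ (Real.exp_pos _).le (H _ hi0).1 2
    rw [← Real.exp_nat_mul] at a4
    have a5 := Real.exp_le_exp.1 ((a4.trans a3).trans (H g g2.ne').2)
    have a6 : h * (((3 : ℤ) ^ D.K * i' : ℤ) : ℝ) ^ 2 < h * (g : ℝ) ^ 2 := by
      push_cast at a5 z2 ⊢
      linarith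
    exact_mod_cast lt_of_mul_lt_mul_left a6 hh.le
  have nd : ∀ p : ℕ, p.Prime → p ∣ 2 * 3 * 7 * 23 →
      ¬(p : ℤ) ∣ (px (((3 : ℤ) ^ D.K * (1 + m)) • D.G)).num := by
    intro p hp hd hdv
    have : Fact p.Prime := ⟨hp⟩
    have a1 := hbad p hd (1 + m) hj0
    rw [nrm_Sound p _ hdv] at a1
    exact absurd a1 (not_lt.2 (Padic.norm_int_le_one _))
  have g6 := hfin _ (div_Sound (nd 2 Nat.prime_two (by norm_num))
    (nd 3 Nat.prime_three (by norm_num)) s4 g3 g2 g5 hi0 g4)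
  have z3 : x.num * (1 + |(3 : ℤ) ^ D.K * n'|) < (px (((3 : ℤ) ^ D.K * (1 + m)) • D.G)).num := by
    exact_mod_cast z1
  generalize (3 : ℤ) ^ D.K * n' = n at g6 z3
  have f1 := den_le_Sound (x := x) (by linarith)
  have f2 : (0 : ℤ) < x.den := by exact_mod_cast x.pos
  have f3 : |x.num - n * x.den| ≤ x.num * (1 + |n|) := by
    refine (abs_sub _ _).trans ?_
    rw [abs_mul, abs_of_pos f2, abs_of_pos (f2.trans_le f1)]
    nlinarith [abs_nonneg n]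
  have f4 := Int.eq_zero_of_abs_lt_dvd g6 (f3.trans_lt z3)
  refine ⟨n, ?_⟩
  have f5 : (x.num : ℚ) = n * x.den := by exact_mod_cast sub_eq_zero.1 f4
  rw [← Rat.mul_den_eq_num] at f5
  exact mul_right_cancel₀ (by positivity) f5

end Pool.Agent.MP_adc87d_lc.Big
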