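import Mathlib
import Pool.Agent.Mg.Fadc87d.G04e6de

set_option linter.all false

section

/-! Curves modulo p whose number of points is divisible by a large power of three. -/

set_option autoImplicit false

noncomputable section

namespace Pool.Agent.MP_adc87d_lc.Big

open Finset

theorem three_Cnt (A B : ℤ) (h : (9 : ℤ) ∣ A ^ 2 - A * B + B ^ 2) : (3 : ℤ) ∣ A ∧ (3 : ℤ) ∣ B := by
  have h3 : (3 : ℤ) ∣ A + B := by
    apply Int.prime_three.dvd_of_dvd_pow (n := 2)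
    have e : (A + B) ^ 2 = (A ^ 2 - A * B + B ^ 2) + 3 * (A * B) := by ring
    rw [e]
    exact dvd_add (dvd_trans (by norm_num) h) (dvd_mul_right _ _)
  obtain ⟨c, hc⟩ := h3
  obtain ⟨e, he⟩ := h
  have hB : B = 3 * c - A := by linarith
  have hA : (3 : ℤ) ∣ A := by
    apply Int.prime_three.dvd_of_dvd_pow (n := 2)
    refine ⟨e + A * c - c ^ 2, ?_⟩
    rw [hB] at he
    linarith
  exact ⟨hA, hB ▸ dvd_sub (dvd_mul_right _ _) hA⟩

theorem pow_Cnt (k : ℕ) : ∀ A B : ℤ, (3 : ℤ) ^ (2 * k) ∣ A ^ 2 - A * B + B ^ 2 →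
    (3 : ℤ) ^ k ∣ A ∧ (3 : ℤ) ^ k ∣ B := by
  induction k with
  | zero => intro A B _; simp
  | succ k ih =>
    intro A B h
    have e : (3 : ℤ) ^ (2 * (k + 1)) = 9 * 3 ^ (2 * k) := by ring
    rw [e] at h
    obtain ⟨⟨a, rfl⟩, ⟨b, rfl⟩⟩ := three_Cnt A B (dvd_trans (dvd_mul_right _ _) h)
    have e2 : (3 * a) ^ 2 - 3 * a * (3 * b) + (3 * b) ^ 2 = 9 * (a ^ 2 - a * b + b ^ 2) := by ring
    rw [e2] at h
    obtain ⟨h1, h2⟩ := ih a b (Int.dvd_of_mul_dvd_mul_left (by norm_num) h)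
    rw [pow_succ']
    exact ⟨mul_dvd_mul_left _ h1, mul_dvd_mul_left _ h2⟩

section

variable {F : Type} [Field F] [Fintype F] [DecidableEq F]

/-- the quadratic character with complex values -/
def rho_Cnt (F : Type) [Field F] [Fintype F] [DecidableEq F] : MulChar F ℂ :=
  (quadraticChar F).ringHomComp (Int.castRingHom ℂ)

theorem sum_Cnt (hF : ringChar F ≠ 2) (ψ : MulChar F ℂ) (hψ : ψ ≠ 1) (d : F) (hd : d ≠ 0) :
    ∑ y : F, ψ (y ^ 2 - d) = rho_Cnt F d * ψ (-d) * jacobiSum (rho_Cnt F) ψ := by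
  have h1 : ∑ y : F, ψ (y ^ 2 - d) = ∑ v : F, (rho_Cnt F v + 1) * ψ (v - d) := by
    rw [← Finset.sum_fiberwise' univ (fun y : F => y ^ 2) (fun v => ψ (v - d))]
    refine sum_congr rfl fun v _ => ?_
    rw [sum_const, nsmul_eq_mul]
    congr 1
    have h := quadraticChar_card_sqrts hF v
    have e : ({x : F | x ^ 2 = v} : Set F).toFinset = univ.filter fun x : F => x ^ 2 = v := by
      ext x; simp
    rw [e] at h
    have h' := congrArg (Int.cast : ℤ → ℂ) h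
    push_cast at h'
    rw [h']
    rfl
  have h2 : ∑ v : F, ψ (v - d) = 0 := by
    rw [← MulChar.sum_eq_zero_of_ne_one hψ]
    exact Equiv.sum_comp (Equiv.subRight d) (fun v => ψ v)
  have h3 : ∑ v : F, rho_Cnt F v * ψ (v - d) =
      rho_Cnt F d * ψ (-d) * jacobiSum (rho_Cnt F) ψ := by
    rw [jacobiSum, mul_sum, ← Equiv.sum_comp (Equiv.mulLeft₀ d hd)]
    refine sum_congr rfl fun t _ => ?_
    have e : d * t - d = -d * (1 - t) := by ring
    simp only [Equiv.mulLeft₀_apply]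
    rw [e, map_mul, map_mul]
    ring
  rw [h1]
  simp only [add_mul, one_mul, sum_add_distrib]
  rw [h2, h3, add_zero]

theorem cube_Cnt (χ : MulChar F ℂ) (h3 : χ ^ 3 = 1) (u : F) (hu : u ≠ 0) : χ u ^ 3 = 1 := by
  rw [← MulChar.pow_apply' χ (by norm_num), h3, MulChar.one_apply (Ne.isUnit hu)]

theorem roots_Cnt (χ : MulChar F ℂ) (h1 : χ ≠ 1) (h3 : χ ^ 3 = 1) (u : F) :
    ((#(univ.filter fun x : F => x ^ 3 = u) : ℕ) : ℂ) = 1 + χ u + χ⁻¹ u := by
  classical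
  let r : F → ℕ := fun u => if u = 0 then 1 else if χ u = 1 then 3 else 0
  have hr : ∀ u, (r u : ℂ) = 1 + χ u + χ⁻¹ u := by
    intro u
    by_cases hu : u = 0
    · simp [r, hu, MulChar.map_zero]
    · rw [MulChar.inv_apply_eq_inv']
      by_cases h : χ u = 1
      · simp only [r, hu, h, if_true, if_false]; norm_num
      · have hc := cube_Cnt χ h3 u hu
        have hz : χ u ≠ 0 := by
          intro h0; rw [h0] at hc; norm_num at hc
        have h4 : χ u ^ 2 + χ u + 1 = 0 := by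
          have : (χ u - 1) * (χ u ^ 2 + χ u + 1) = 0 := by linear_combination hc
          exact (mul_eq_zero.1 this).resolve_left (sub_ne_zero.2 h)
        simp only [r, hu, h, if_false]
        field_simp
        push_cast
        linear_combination -h4
  have hle : ∀ u ∈ (univ : Finset F), #(univ.filter fun x : F => x ^ 3 = u) ≤ r u := by
    intro u _
    by_cases hu : u = 0
    · simp only [r, hu, if_true]
      refine card_le_one.2 fun a ha b hb => ?_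
      have ha' := pow_eq_zero_iff (n := 3) (by norm_num) |>.1 (mem_filter.1 ha).2
      have hb' := pow_eq_zero_iff (n := 3) (by norm_num) |>.1 (mem_filter.1 hb).2
      rw [ha', hb']
    · by_cases h : χ u = 1
      · simp only [r, hu, h, if_true, if_false]
        have hs : (univ.filter fun x : F => x ^ 3 = u) ⊆ (Polynomial.nthRoots 3 u).toFinset := by
          intro x hx
          rw [Multiset.mem_toFinset, Polynomial.mem_nthRoots (by norm_num)]
          exact (mem_filter.1 hx).2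
        exact (card_le_card hs).trans
          ((Multiset.toFinset_card_le _).trans (Polynomial.card_nthRoots 3 u))
      · simp only [r, hu, h, if_false, Nat.le_zero, card_eq_zero]
        refine filter_eq_empty_iff.2 fun x _ hx => h ?_
        have hx0 : x ≠ 0 := by
          rintro rfl; exact hu (by rw [← hx]; norm_num)
        rw [← hx, map_pow]
        exact cube_Cnt χ h3 x hx0
  have hs1 : ∑ u : F, #(univ.filter fun x : F => x ^ 3 = u) = Fintype.card F := by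
    rw [← card_univ]
    exact (card_eq_sum_card_fiberwise (f := fun x : F => x ^ 3) (fun x _ => mem_univ _)).symm
  have hs2 : ∑ u : F, r u = Fintype.card F := by
    have : ((∑ u : F, r u : ℕ) : ℂ) = (Fintype.card F : ℕ) := by
      push_cast
      simp only [hr, sum_add_distrib]
      rw [MulChar.sum_eq_zero_of_ne_one h1, MulChar.sum_eq_zero_of_ne_one (inv_ne_one.2 h1)]
      simp
    exact_mod_cast this
  have := (sum_eq_sum_iff_of_le hle).1 (hs1.trans hs2.symm) u (mem_univ _)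
  rw [this, hr]

theorem card_Cnt (d : F) : Nat.card {x : F × F // x.2 ^ 2 = x.1 ^ 3 + d} =
    ∑ y : F, #(univ.filter fun x : F => x ^ 3 = y ^ 2 - d) := by
  rw [Nat.card_eq_fintype_card, Fintype.card_subtype,
    card_eq_sum_card_fiberwise (f := Prod.snd) (t := univ) (fun x _ => mem_univ _)]
  refine sum_congr rfl fun y _ => ?_
  refine card_bij (fun x _ => x.1) ?_ ?_ ?_
  · intro x hx
    simp only [mem_filter, mem_univ, true_and] at hx ⊢
    rw [← hx.2, hx.1]; ring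
  · intro x hx x' hx' h
    simp only [mem_filter, mem_univ, true_and] at hx hx'
    exact Prod.ext h (hx.2.trans hx'.2.symm)
  · intro x hx
    simp only [mem_filter, mem_univ, true_and] at hx
    refine ⟨(x, y), ?_, rfl⟩
    simp only [mem_filter, mem_univ, true_and, and_true]
    rw [hx]; ring

theorem norm_Cnt (hF : ringChar F ≠ 2) (h0 : ringChar F ≠ 0) (h3 : 3 ∣ Fintype.card F - 1)
    (d : F) (hd : d ≠ 0) : ∃ m n : ℤ, (Fintype.card F : ℤ) = m ^ 2 - m * n + n ^ 2 ∧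
      (Nat.card {x : F × F // x.2 ^ 2 = x.1 ^ 3 + d} : ℤ) = Fintype.card F + 2 * m - n := by
  have hζ := Complex.isPrimitiveRoot_exp 3 (by norm_num)
  set ω := Complex.exp (2 * Real.pi * Complex.I / (3 : ℕ))
  obtain ⟨χ, hχ⟩ := MulChar.exists_mulChar_orderOf F h3 hζ
  have hχ3 : χ ^ 3 = 1 := by rw [← hχ]; exact pow_orderOf_eq_one χ
  have hχ1 : χ ≠ 1 := by
    intro h; rw [h, orderOf_one] at hχ; norm_num at hχ
  have hω : ω ^ 2 + ω + 1 = 0 := by
    have h1 : ω ≠ 1 := hζ.ne_one (by norm_num)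
    have : (ω - 1) * (ω ^ 2 + ω + 1) = 0 := by linear_combination hζ.pow_eq_one
    exact (mul_eq_zero.1 this).resolve_left (sub_ne_zero.2 h1)
  have hval : ∀ u : F, ∃ m n : ℤ, χ u = m + n * ω ∧ χ⁻¹ u = m + n * ω ^ 2 := by
    intro u
    by_cases hu : u = 0
    · exact ⟨0, 0, by simp [hu, MulChar.map_zero], by simp [hu, MulChar.map_zero]⟩
    · have hc := cube_Cnt χ hχ3 u hu
      have hi : χ⁻¹ u = χ u ^ 2 := by
        rw [MulChar.inv_apply_eq_inv']
        exact inv_eq_of_mul_eq_one_right (by linear_combination hc)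
      have hp : (χ u - 1) * ((χ u - ω) * (χ u - ω ^ 2)) = 0 := by
        linear_combination hc + (-(χ u) ^ 2 + χ u * ω - ω + 1) * hω
      rw [hi]
      rcases mul_eq_zero.1 hp with h | h
      · exact ⟨1, 0, by push_cast; linear_combination h, by
          rw [sub_eq_zero.1 h]; push_cast; ring⟩
      · rcases mul_eq_zero.1 h with h | h
        · exact ⟨0, 1, by push_cast; linear_combination h, by
            rw [sub_eq_zero.1 h]; push_cast; ring⟩
        · exact ⟨-1, -1, by push_cast; linear_combination h + hω, by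
            rw [sub_eq_zero.1 h]; push_cast; linear_combination (ω ^ 2 - ω + 1) * hω⟩
  choose m n hm hn using hval
  have hq : (rho_Cnt F).IsQuadratic := (quadraticChar_isQuadratic F).comp _
  have hρ : rho_Cnt F ≠ 1 :=
    (MulChar.ringHomComp_ne_one_iff (Int.castRingHom ℂ).injective_int).2 (quadraticChar_ne_one hF)
  have hρχ : rho_Cnt F * χ ≠ 1 := by
    intro h
    have h2 : χ ^ 2 = 1 := by
      have := congrArg (· ^ 2) h
      simpa only [mul_pow, hq.sq_eq_one, one_mul, one_pow] using this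
    have := orderOf_dvd_of_pow_eq_one h2
    rw [hχ] at this
    norm_num at this
  have hJ := jacobiSum_mul_jacobiSum_inv (F := F) (F' := ℂ)
    (by rw [ringChar.eq_zero]; exact h0.symm) hρ hχ1 hρχ
  rw [hq.inv] at hJ
  have ha := sum_Cnt hF χ hχ1 d hd
  have hb := sum_Cnt hF χ⁻¹ (inv_ne_one.2 hχ1) d hd
  have hρd : rho_Cnt F d ^ 2 = 1 := by
    rw [← MulChar.pow_apply' _ (by norm_num), hq.sq_eq_one, MulChar.one_apply (Ne.isUnit hd)]
  have hχd : χ (-d) * χ⁻¹ (-d) = 1 := by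
    rw [← MulChar.mul_apply, mul_inv_cancel, MulChar.one_apply (Ne.isUnit (neg_ne_zero.2 hd))]
  have hA : ∑ y : F, χ (y ^ 2 - d) =
      ((∑ y : F, m (y ^ 2 - d) : ℤ) : ℂ) + ((∑ y : F, n (y ^ 2 - d) : ℤ) : ℂ) * ω := by
    push_cast
    rw [sum_mul, ← sum_add_distrib]
    exact sum_congr rfl fun y _ => hm _
  have hB : ∑ y : F, χ⁻¹ (y ^ 2 - d) =
      ((∑ y : F, m (y ^ 2 - d) : ℤ) : ℂ) + ((∑ y : F, n (y ^ 2 - d) : ℤ) : ℂ) * ω ^ 2 := by
    push_cast
    rw [sum_mul, ← sum_add_distrib]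
    exact sum_congr rfl fun y _ => hn _
  have hN : ((Nat.card {x : F × F // x.2 ^ 2 = x.1 ^ 3 + d} : ℕ) : ℂ) =
      Fintype.card F + ∑ y : F, χ (y ^ 2 - d) + ∑ y : F, χ⁻¹ (y ^ 2 - d) := by
    rw [card_Cnt, Nat.cast_sum]
    simp only [roots_Cnt χ hχ1 hχ3, sum_add_distrib]
    simp
  have hP : (∑ y : F, χ (y ^ 2 - d)) * ∑ y : F, χ⁻¹ (y ^ 2 - d) = Fintype.card F := by
    rw [ha, hb, ← hJ]
    linear_combination (jacobiSum (rho_Cnt F) χ * jacobiSum (rho_Cnt F) χ⁻¹) *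
      (χ (-d) * χ⁻¹ (-d) * hρd + hχd)
  rw [hA, hB] at hN hP
  generalize (∑ y : F, m (y ^ 2 - d) : ℤ) = M at hN hP
  generalize (∑ y : F, n (y ^ 2 - d) : ℤ) = N at hN hP
  refine ⟨M, N, ?_, ?_⟩
  · have : ((Fintype.card F : ℤ) : ℂ) = ((M ^ 2 - M * N + N ^ 2 : ℤ) : ℂ) := by
      push_cast
      linear_combination -hP + ((M : ℂ) * N + (N : ℂ) ^ 2 * (ω - 1)) * hω
    exact_mod_cast this
  · have : (((Nat.card {x : F × F // x.2 ^ 2 = x.1 ^ 3 + d} : ℕ) : ℤ) : ℂ) =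
        ((Fintype.card F + 2 * M - N : ℤ) : ℂ) := by
      push_cast
      linear_combination hN + (N : ℂ) * hω
    exact_mod_cast this

theorem two_Cnt (j : ℕ) (hj : Fintype.card F = 3 * j + 2) (d : F) :
    Nat.card {x : F × F // x.2 ^ 2 = x.1 ^ 3 + d} = Fintype.card F := by
  have hx : ∀ x : F, (x ^ 3) ^ (2 * j + 1) = x := by
    intro x
    have h := FiniteField.pow_card x
    rw [hj] at h
    calc (x ^ 3) ^ (2 * j + 1) = x ^ (3 * j + 2) * x ^ (3 * j + 1) := by ring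
      _ = x ^ (3 * j + 2) := by rw [h, ← pow_succ']; exact h
      _ = x := h
  have hinj : Function.Injective fun x : F => x ^ 3 := by
    intro x y h
    rw [← hx x, ← hx y]
    exact congrArg (· ^ (2 * j + 1)) h
  have hsurj := Finite.surjective_of_injective hinj
  rw [card_Cnt]
  have h1 : ∀ u : F, #(univ.filter fun x : F => x ^ 3 = u) = 1 := by
    intro u
    obtain ⟨x, rfl⟩ := hsurj u
    refine card_eq_one.2 ⟨x, ?_⟩
    ext y
    simp only [mem_filter, mem_univ, true_and, mem_singleton]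
    exact ⟨fun h => hinj h, fun h => by rw [h]⟩
  simp [h1]

end

theorem cnt : CntStmt := by
  intro p k d hp hd hk h
  haveI := Fact.mk hp
  have hp2 : p ≠ 2 := by
    rintro rfl
    exact hd ⟨3 * d, by push_cast; ring⟩
  have hp3 : p ≠ 3 := by
    rintro rfl
    exact hd ⟨2 * d, by push_cast; ring⟩
  have hd0 : (d : ZMod p) ≠ 0 := by
    intro h0
    exact hd (((ZMod.intCast_zmod_eq_zero_iff_dvd d p).1 h0).mul_left 6)
  have hm : p % 3 ≠ 0 := by
    intro h0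
    exact hp3 ((Nat.prime_dvd_prime_iff_eq Nat.prime_three hp).1 (Nat.dvd_of_mod_eq_zero h0)).symm
  have h3k : 1 < 3 ^ k := Nat.one_lt_pow (by omega) (by norm_num)
  unfold np at h
  by_cases h1 : p % 3 = 1
  · left
    obtain ⟨m, n, e1, e2⟩ := norm_Cnt (F := ZMod p) (by rw [ZMod.ringChar_zmod_n]; exact hp2)
      (by rw [ZMod.ringChar_zmod_n]; exact hp.ne_zero) (by rw [ZMod.card]; omega) d hd0
    rw [ZMod.card] at e1 e2
    have h' : (3 : ℤ) ^ (2 * k) ∣ (1 + m) ^ 2 - (1 + m) * n + n ^ 2 := by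
      have := Int.natCast_dvd_natCast.2 h
      push_cast at this
      rw [e2, e1] at this
      have e : (1 + m) ^ 2 - (1 + m) * n + n ^ 2 = 1 + (m ^ 2 - m * n + n ^ 2 + 2 * m - n) := by
        ring
      rw [e]
      exact this
    obtain ⟨⟨a, ha⟩, ⟨b, hb⟩⟩ := pow_Cnt k _ _ h'
    have hdv : ((3 ^ k : ℕ) : ℤ) ∣ (p : ℤ) - (1 : ℕ) := by
      refine ⟨a * (m - 1) - m * b + b * n, ?_⟩
      push_cast
      rw [e1]
      linear_combination (m - 1) * ha + (n - m) * hb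
    have := (Nat.modEq_iff_dvd.2 hdv).symm
    rw [Nat.ModEq, Nat.mod_eq_of_lt h3k] at this
    exact this
  · right
    have e := two_Cnt (F := ZMod p) (p / 3) (by rw [ZMod.card]; omega) (d : ZMod p)
    rw [e, ZMod.card] at h
    obtain ⟨c, hc⟩ : 3 ^ k ∣ 1 + p := dvd_trans (pow_dvd_pow 3 (by omega)) h
    obtain ⟨c, rfl⟩ : ∃ c', c = c' + 1 := ⟨c - 1, by
      rcases c with _ | c
      · omega
      · rfl⟩
    have : p = 3 ^ k - 1 + 3 ^ k * c := by
      rw [mul_add, mul_one] at hc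
      omega
    rw [this, Nat.add_mul_mod_self_left, Nat.mod_eq_of_lt (by omega)]

end Pool.Agent.MP_adc87d_lc.Big

end
end

section

/-! The two isogenies of degree three between y^2 = x^3 + d and y^2 = x^3 - 27 d. -/

set_option autoImplicit false

noncomputable section

namespace Pool.Agent.MP_adc87d_lc.Big

theorem om_Iso {K : Type} [Field K] [CharZero K] {w d : K} (hw : w ^ 2 + w + 1 = 0) (hd : d ≠ 0) :
    ∃ ψ : Pt d →+ Pt d, Function.Injective ψ ∧ (∀ R, px (ψ R) = w * px R) ∧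
      (∀ R, py (ψ R) = py R) ∧ ∀ R, ψ (ψ R) = -R - ψ R := by
  have wc : w ^ 3 = 1 := by linear_combination (w - 1) * hw
  have w0 : w ≠ 0 := fun h => by rw [h] at hw; norm_num at hw
  have w1 : w - 1 ≠ 0 := fun h => by
    have : w = 1 := by linear_combination h
    rw [this] at hw; norm_num at hw
  have h2 : (w ^ 2) ^ 2 = w := by linear_combination w * wc
  have h3 : (w ^ 2) ^ 3 = 1 := by linear_combination (w ^ 3 + 1) * wc
  obtain ⟨ψ, h0, hx, hy⟩ := exists_scale (d := d) (RingHom.id K) (u := w ^ 2) (d' := d)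
    (pow_ne_zero _ w0) hd (by
      rw [RingHom.id_apply]; linear_combination -d * ((w ^ 2) ^ 3 + 1) * h3)
  simp only [h2, h3, RingHom.id_apply, one_mul] at hx hy
  refine ⟨ψ, h0, hx, hy, fun R => ?_⟩
  by_cases hR : R = 0
  · simp [hR]
  have n : ∀ S : Pt d, S ≠ 0 → ψ S ≠ 0 := fun S hS e => hS (h0 (e.trans (map_zero ψ).symm))
  have e := eqn hR
  have h : R + ψ R ≠ 0 := fun h => by
    obtain ⟨a, b⟩ := (add_eq_zero_iff hR (n R hR)).1 h
    rw [hx] at a
    rw [hy] at b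
    have b' : py R = 0 := by linear_combination (1 / 2 : K) * b
    have a' : (w - 1) * px R = 0 := by linear_combination a
    have := (mul_eq_zero.1 a').resolve_left w1
    rw [b', this] at e
    exact hd (by linear_combination -e)
  obtain ⟨c1, c2⟩ := add_of hR (n R hR) h (m := 0) (by rw [hy]; ring)
    (by rw [hx]; linear_combination -px R ^ 2 * hw)
  rw [← neg_add', eq_neg_iff_add_eq_zero, add_eq_zero_iff (n _ (n R hR)) h, c2, c1]
  simp only [hx, hy]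
  exact ⟨by linear_combination -px R * hw, by ring⟩

theorem th_Iso {K : Type} [Field K] [CharZero K] {s d : K} (hs : s ^ 2 = -3) (hd : d ≠ 0) :
    ∃ θ : Pt d →+ Pt d, (∀ R, θ (θ R) = -((3 : ℕ) • R)) ∧ (∀ R, px R = 0 → θ R = 0) ∧
      ∀ R, px R ≠ 0 → θ R ≠ 0 ∧ s ^ 2 * px (θ R) * px R ^ 2 = px R ^ 3 + 4 * d ∧
        s ^ 3 * py (θ R) * px R ^ 3 = py R * (px R ^ 3 - 8 * d) := by
  obtain ⟨w, rfl⟩ : ∃ w : K, s = 1 + 2 * w := ⟨(s - 1) / 2, by ring⟩
  have hw : w ^ 2 + w + 1 = 0 := by linear_combination (1 / 4 : K) * hs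
  have w0 : w ≠ 0 := fun h => by rw [h] at hw; norm_num at hw
  have s0 : (1 + 2 * w) ≠ 0 := fun h => by rw [h] at hs; norm_num at hs
  obtain ⟨om, inj, hx, hy, hoo⟩ := om_Iso hw hd
  have n : ∀ S : Pt d, S ≠ 0 → om S ≠ 0 := fun S hS e => hS (inj (e.trans (map_zero om).symm))
  refine ⟨om - om.comp om, fun R => ?_, fun R hR => ?_, fun R hR => ?_⟩
  · simp only [AddMonoidHom.sub_apply, AddMonoidHom.comp_apply, map_sub, map_neg, hoo]
    module
  · have : om R = R := by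
      by_cases h0 : R = 0
      · rw [h0, map_zero]
      · exact ext_pt (n R h0) h0 (by rw [hx, hR, mul_zero]) (hy R)
    simp only [AddMonoidHom.sub_apply, AddMonoidHom.comp_apply, this, sub_self]
  · have h0 : R ≠ 0 := fun h => hR (by rw [h, px_zero])
    have hA := n R h0
    have hB : -om (om R) ≠ 0 := neg_ne_zero.2 (n _ hA)
    have h : om R + -om (om R) ≠ 0 := fun h => by
      have := ((add_eq_zero_iff hA hB).1 h).1
      rw [px_neg, hx, hx] at this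
      exact mul_ne_zero s0 hR (by linear_combination -this + px R * hw)
    obtain ⟨m, a1, -, a3, a4⟩ := add_data hA hB h
    rw [px_neg, py_neg] at a1
    rw [px_neg] at a3
    simp only [hx, hy] at a1 a3 a4
    have e1 := eqn h0
    have hm : m * ((1 + 2 * w) * px R) = 2 * py R := by
      linear_combination a1 + m * px R * hw
    have ee : (om - om.comp om) R = om R + -om (om R) := by
      rw [AddMonoidHom.sub_apply, AddMonoidHom.comp_apply, sub_eq_add_neg]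
    rw [ee]
    have hX : (1 + 2 * w) ^ 2 * px (om R + -om (om R)) * px R ^ 2 = px R ^ 3 + 4 * d := by
      rw [a3]
      linear_combination (m * ((1 + 2 * w) * px R) + 2 * py R) * hm + 4 * e1 -
        (w + w * w) * px R ^ 3 * hs + 3 * px R ^ 3 * hw
    refine ⟨h, hX, ?_⟩
    rw [a4]
    linear_combination ((1 + 2 * w) ^ 2 * px R ^ 2 * (w * px R - px (om R + -om (om R)))) * hm -
      2 * py R * hX - py R * px R ^ 3 * hs

theorem descend_Iso {A B C : Type} [AddCommGroup A] [AddCommGroup B] [AddCommGroup C]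
    (ι : A →+ C) (hι : Function.Injective ι) (g : B →+ C) (h : ∀ b, ∃ a, ι a = g b) :
    ∃ ψ : B →+ A, ∀ b, ι (ψ b) = g b := by
  choose f hf using h
  exact ⟨AddMonoidHom.mk' f fun a b => hι (by rw [map_add, hf, hf, hf, map_add]), hf⟩

theorem iso : IsoStmt := by
  intro d hd
  obtain ⟨s, hs⟩ := IsAlgClosed.exists_pow_nat_eq (-3 : ℂ) (n := 2) (by norm_num)
  have s0 : s ≠ 0 := fun h => by rw [h] at hs; norm_num at hs
  have hdc : (d : ℂ) ≠ 0 := by exact_mod_cast hd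
  have hd' : -27 * d ≠ 0 := mul_ne_zero (by norm_num) hd
  have s6 : s ^ 6 = -27 := by linear_combination (s ^ 4 - 3 * s ^ 2 + 9) * hs
  obtain ⟨θ, t1, t2, t3⟩ := th_Iso hs hdc
  obtain ⟨i1, inj1, x1, y1⟩ := exists_scale (d := d) (Rat.castHom ℂ) (u := 1) (d' := (d : ℂ))
    one_ne_zero hdc (by simp)
  obtain ⟨i2, inj2, x2, y2⟩ := exists_scale (d := -27 * d) (Rat.castHom ℂ) (u := s⁻¹)
    (d' := (d : ℂ)) (inv_ne_zero s0) hdc (by
      rw [inv_pow, s6]
      simp only [Rat.coe_castHom]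
      push_cast
      ring)
  simp only [Rat.coe_castHom, one_pow, one_mul] at x1 y1 x2 y2
  have n1 : ∀ S, S ≠ 0 → i1 S ≠ 0 := fun S hS e => hS (inj1 (e.trans (map_zero i1).symm))
  have n2 : ∀ S, S ≠ 0 → i2 S ≠ 0 := fun S hS e => hS (inj2 (e.trans (map_zero i2).symm))
  have k1 : ∀ P : Pt d, px P ≠ 0 → ∃ Q : Pt (-27 * d), i2 Q = θ (i1 P) ∧ Q ≠ 0 ∧
      px Q = (px P ^ 3 + 4 * d) / px P ^ 2 ∧ py Q = py P * (px P ^ 3 - 8 * d) / px P ^ 3 := by
    intro P hP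
    have h0 : P ≠ 0 := fun h => hP (by rw [h, px_zero])
    have e := eqn h0
    obtain ⟨Q, q0, qx, qy⟩ := exists_pt hd' (x := (px P ^ 3 + 4 * d) / px P ^ 2)
      (y := py P * (px P ^ 3 - 8 * d) / px P ^ 3) (by
        field_simp
        linear_combination (px P ^ 3 - 8 * d) ^ 2 * e)
    have hP' : ((px P : ℚ) : ℂ) ≠ 0 := by exact_mod_cast hP
    obtain ⟨a0, a1, a2⟩ := t3 (i1 P) (by rw [x1]; exact hP')
    rw [x1] at a1
    rw [x1, y1] at a2
    refine ⟨Q, ext_pt (n2 Q q0) a0 ?_ ?_, q0, qx, qy⟩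
    · rw [x2, qx]
      push_cast
      field_simp
      linear_combination -a1
    · rw [y2, qy]
      push_cast
      field_simp
      linear_combination -a2
  have k2 : ∀ P : Pt (-27 * d), px P ≠ 0 → ∃ Q : Pt d, i1 Q = -θ (i2 P) ∧ Q ≠ 0 ∧
      px Q = (px P ^ 3 - 108 * d) / (9 * px P ^ 2) ∧
      py Q = py P * (px P ^ 3 + 216 * d) / (27 * px P ^ 3) := by
    intro P hP
    have h0 : P ≠ 0 := fun h => hP (by rw [h, px_zero])
    have e := eqn h0
    obtain ⟨Q, q0, qx, qy⟩ := exists_pt hd (x := (px P ^ 3 - 108 * d) / (9 * px P ^ 2))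
      (y := py P * (px P ^ 3 + 216 * d) / (27 * px P ^ 3)) (by
        field_simp
        linear_combination 729 * (px P ^ 3 + 216 * d) ^ 2 * e)
    have hP' : ((px P : ℚ) : ℂ) ≠ 0 := by exact_mod_cast hP
    obtain ⟨a0, a1, a2⟩ := t3 (i2 P) (by
      rw [x2]; exact mul_ne_zero (pow_ne_zero _ (inv_ne_zero s0)) hP')
    have i2' : s⁻¹ ^ 2 = -1 / 3 := by rw [inv_pow, hs]; norm_num
    have i3' : s⁻¹ ^ 3 = s / 9 := by
      rw [inv_pow]
      refine inv_eq_of_mul_eq_one_right ?_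
      linear_combination (s ^ 2 - 3) / 9 * hs
    rw [x2, i2'] at a1
    rw [x2, y2, i2', i3'] at a2
    refine ⟨Q, ext_pt (n1 Q q0) (neg_ne_zero.2 a0) ?_ ?_, q0, qx, qy⟩
    · rw [x1, qx, px_neg]
      push_cast
      field_simp
      linear_combination 27 * a1 - 3 * px (θ (i2 P)) * ((px P : ℚ) : ℂ) ^ 2 * hs
    · rw [y1, qy, py_neg]
      push_cast
      field_simp
      refine mul_left_cancel₀ s0 ?_
      linear_combination 243 * a2 + 9 * s * py (θ (i2 P)) * ((px P : ℚ) : ℂ) ^ 3 * hs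
  obtain ⟨ψ, hψ⟩ := descend_Iso i2 inj2 (θ.comp i1) fun P => by
    by_cases hP : px P = 0
    · exact ⟨0, by rw [map_zero, AddMonoidHom.comp_apply, t2 _ (by rw [x1, hP]; simp)]⟩
    · obtain ⟨Q, h, -⟩ := k1 P hP
      exact ⟨Q, h⟩
  obtain ⟨φ, hφ⟩ := descend_Iso i1 inj1 (-(θ.comp i2)) fun P => by
    by_cases hP : px P = 0
    · exact ⟨0, by
        rw [map_zero, AddMonoidHom.neg_apply, AddMonoidHom.comp_apply, t2 _ (by rw [x2, hP]; simp),
          neg_zero]⟩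
    · obtain ⟨Q, h, -⟩ := k2 P hP
      exact ⟨Q, h⟩
  refine ⟨ψ, φ, fun P => inj1 ?_, fun P hP => ?_, fun P hP => ?_⟩
  · rw [hφ, AddMonoidHom.neg_apply, AddMonoidHom.comp_apply, hψ, AddMonoidHom.comp_apply, t1,
      neg_neg, map_nsmul]
  · obtain ⟨Q, h, h'⟩ := k1 P hP
    rwa [inj2 ((hψ P).trans h.symm)]
  · obtain ⟨Q, h, h'⟩ := k2 P hP
    rwa [inj1 ((hφ P).trans h.symm)]

end Pool.Agent.MP_adc87d_lc.Big

end
end

section

/-! Translation, close points, tripling, and deep multiples. -/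

set_option autoImplicit false

noncomputable section

namespace Pool.Agent.MP_adc87d_lc.Big

open Filter Topology

section

variable {p : ℕ} [Fact p.Prime] {a b d : ℚ_[p]} {r : ℝ}

theorem nadd_L34 (h : ‖a‖ ≤ r) (h' : ‖b‖ ≤ r) : ‖a + b‖ ≤ r :=
  (Padic.nonarchimedean a b).trans (max_le h h')

theorem nsub_L34 (h : ‖a‖ ≤ r) (h' : ‖b‖ ≤ r) : ‖a - b‖ ≤ r := by
  rw [sub_eq_add_neg]
  exact nadd_L34 h (by rwa [norm_neg])

theorem eadd_L34 (h : ‖b‖ < ‖a‖) : ‖a + b‖ = ‖a‖ := by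
  rw [Padic.add_eq_max_of_ne h.ne', max_eq_left h.le]

theorem esub_L34 (h : ‖b‖ < ‖a‖) : ‖a - b‖ = ‖a‖ := by
  rw [sub_eq_add_neg, eadd_L34 (by rwa [norm_neg])]

theorem nmul_L34 (h : ‖a‖ ≤ r) (h' : b ∈ PadicInt.subring p) : ‖a * b‖ ≤ r := by
  rw [norm_mul]
  exact (mul_le_of_le_one_right (norm_nonneg _) h').trans h

theorem ny_L34 (hd : ‖d‖ ≤ 1) {P : Pt d} (hP : P ≠ 0) (h : ‖px P‖ ≤ 1) : ‖py P‖ ≤ 1 := by
  have h1 : ‖py P ^ 2‖ ≤ 1 := by
    rw [eqn hP]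
    exact nadd_L34 (by rw [norm_pow]; exact pow_le_one₀ (norm_nonneg _) h) hd
  rw [norm_pow] at h1
  exact (pow_le_one_iff_of_nonneg (norm_nonneg _) two_ne_zero).1 h1

theorem trans_L34 (hd : ‖d‖ ≤ 1) {P Q : Pt d} (hP : P ≠ 0) (h : ‖px P‖ ≤ 1) (hQ : Q ≠ 0)
    (h1 : 1 < ‖px Q‖) (z1 : ‖zc Q‖ < 1) (z2 : ‖px Q‖ * ‖zc Q‖ ^ 2 = 1) :
    P + Q ≠ 0 ∧ ‖px (P + Q) - px P‖ ≤ ‖zc Q‖ ∧ ‖py (P + Q) - py P‖ ≤ ‖zc Q‖ := by
  have h0 : P + Q ≠ 0 := fun c => by
    rw [((add_eq_zero_iff hP hQ).1 c).1] at h1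
    linarith
  obtain ⟨m, a1, -, a3, a4⟩ := add_data hP hQ h0
  have hy := ny_L34 hd hP h
  have e1 := eqn hP
  have e2 := eqn hQ
  have z0 : zc Q ≠ 0 := fun c => by simp [c] at z2
  have y0 : py Q ≠ 0 := fun c => z0 (by rw [zc, c, div_zero])
  have x0 : px Q ≠ 0 := fun c => z0 (by rw [zc, c, zero_div])
  obtain ⟨s, hs⟩ : ∃ s, s = (px Q * zc Q ^ 2)⁻¹ := ⟨_, rfl⟩
  have s1 : ‖s‖ = 1 := by rw [hs, norm_inv, norm_mul, norm_pow, z2, inv_one]
  have s0 : s ≠ 0 := fun c => by simp [c] at s1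
  have hX : px Q * (zc Q ^ 2 * s) = 1 := by rw [hs]; field_simp
  have hY : py Q * (zc Q ^ 3 * s) = 1 := by rw [hs, zc]; field_simp
  generalize zc Q = z at *
  generalize px (P + Q) = X3 at *
  generalize py (P + Q) = Y3 at *
  generalize px Q = X2 at *
  generalize py Q = Y2 at *
  generalize px P = X at *
  generalize py P = Y at *
  have k0 : s = 1 + d * z ^ 6 * s ^ 3 := by
    linear_combination z ^ 6 * s ^ 3 * e2 - s * (Y2 * (z ^ 3 * s) + 1) * hY +
      ((X2 * (z ^ 2 * s)) ^ 2 + X2 * (z ^ 2 * s) + 1) * hX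
  obtain ⟨v, hv⟩ : ∃ v, v = 1 - z * (X * z * s) := ⟨_, rfl⟩
  have mX : X ∈ PadicInt.subring p := h
  have mY : Y ∈ PadicInt.subring p := hy
  have md : d ∈ PadicInt.subring p := hd
  have ms : s ∈ PadicInt.subring p := s1.le
  have mz : z ∈ PadicInt.subring p := z1.le
  have v1 : ‖v‖ = 1 := by
    rw [hv, esub_L34, norm_one]
    rw [norm_one]
    exact (nmul_L34 le_rfl (mul_mem (mul_mem mX mz) ms)).trans_lt z1
  have mv : v ∈ PadicInt.subring p := v1.le
  have hm : m * (z * v) = 1 - Y * z ^ 3 * s := by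
    rw [hv]
    linear_combination -(z ^ 3 * s) * a1 + hY - m * z * hX
  obtain ⟨N, hN⟩ : ∃ N, N = 3 * X ^ 2 * z * s + (2 * d - X ^ 3) * z ^ 3 * s ^ 2 - 2 * Y * s :=
    ⟨_, rfl⟩
  have mN : N ∈ PadicInt.subring p := by
    rw [hN]
    apply_rules (maxDepth := 100) [sub_mem, add_mem, mul_mem, pow_mem, ofNat_mem]
  have k1 : (X3 - X) * v ^ 2 = z * N := by
    refine mul_right_cancel₀ (mul_ne_zero (pow_ne_zero 2 z0) s0) ?_
    rw [a3, hN]
    linear_combination (exp := 1) s * (m * (z * v) + (1 - Y * z ^ 3 * s)) * hm - v ^ 2 * hX + k0 +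
      z ^ 6 * s ^ 3 * e1 - (1 + 2 * (z * (X * z * s))) * (v + (1 - z * (X * z * s))) * hv
  have k2 : (Y3 - Y) * v ^ 3 = z * (2 * Y * d * z ^ 5 * s ^ 3 - 3 * X ^ 2 * s -
      (2 * d - X ^ 3) * z ^ 2 * s ^ 2 + Y * z ^ 2 * s * N + 2 * Y * X * z * s * (v ^ 2 + v + 1)) := by
    rw [a4]
    linear_combination -(m * v) * k1 - N * hm - hN + 2 * Y * k0 - 2 * Y * (v ^ 2 + v + 1) * hv
  refine ⟨h0, ?_, ?_⟩
  · have := nmul_L34 (le_refl ‖z‖) mN
    rwa [← k1, norm_mul, norm_pow, v1, one_pow, mul_one] at this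
  · have : ‖(Y3 - Y) * v ^ 3‖ ≤ ‖z‖ := by
      rw [k2]
      refine nmul_L34 le_rfl ?_
      apply_rules (maxDepth := 100) [sub_mem, add_mem, mul_mem, pow_mem, ofNat_mem, one_mem]
    rwa [norm_mul, norm_pow, v1, one_pow, mul_one] at this

theorem close_L34 (hd : ‖d‖ ≤ 1) {P Q : Pt d} {ε : ℝ} (hP : P ≠ 0) (hQ : Q ≠ 0) (h0 : P - Q ≠ 0)
    (h : ‖px P‖ ≤ 1) (hε : ε < ‖432 * d ^ 2‖) (hx : ‖px P - px Q‖ ≤ ε) (hy : ‖py P - py Q‖ ≤ ε) :
    ∃ μ : ℝ, 1 < μ ∧ ‖432 * d ^ 2‖ ≤ μ * ε ∧ ‖px (P - Q)‖ = μ ^ 2 := by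
  rw [sub_eq_add_neg] at h0 ⊢
  obtain ⟨m, a1, a2, a3, -⟩ := add_data hP (neg_ne_zero.2 hQ) h0
  rw [px_neg] at a1 a2 a3
  rw [py_neg] at a1 a2
  have e1 := eqn hP
  have mX : px P ∈ PadicInt.subring p := h
  have mY : py P ∈ PadicInt.subring p := ny_L34 hd hP h
  have md : d ∈ PadicInt.subring p := hd
  have d1 : ‖432 * d ^ 2‖ ≤ 1 := (mul_mem (ofNat_mem _ _) (pow_mem md 2) : _ ∈ PadicInt.subring p)
  have mX' : px Q ∈ PadicInt.subring p := by
    have := nsub_L34 h (hx.trans (hε.le.trans d1))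
    rwa [sub_sub_cancel] at this
  have e0 : 0 ≤ ε := (norm_nonneg _).trans hx
  have b1 : ε ≤ max ‖m‖ 1 * ε := le_mul_of_one_le_left e0 (le_max_right _ _)
  have b2 : ∀ c : ℚ_[p], ‖c‖ ≤ ε → ‖m * c‖ ≤ max ‖m‖ 1 * ε := fun c hc => by
    rw [norm_mul]
    exact mul_le_mul (le_max_left _ _) hc (norm_nonneg _) (by positivity)
  have c1 : ‖2 * py P‖ ≤ max ‖m‖ 1 * ε := by
    rw [show 2 * py P = m * (px P - px Q) + (py P - py Q) by linear_combination -a1]
    exact nadd_L34 (b2 _ hx) (hy.trans b1)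
  have c2 : ‖3 * px P ^ 2‖ ≤ max ‖m‖ 1 * ε := by
    rw [show 3 * px P ^ 2 = m * (py P - py Q) + (px P - px Q) * (2 * px P + px Q) by
      linear_combination -a2]
    exact nadd_L34 (b2 _ hy) (nmul_L34 (hx.trans b1) (add_mem (mul_mem (ofNat_mem _ _) mX) mX'))
  have c3 : ‖432 * d ^ 2‖ ≤ max ‖m‖ 1 * ε := by
    rw [show 432 * d ^ 2 = 3 * px P ^ 2 * (144 * px P ^ 4) -
      2 * py P * (216 * py P * (py P ^ 2 - 2 * d)) by
        linear_combination 432 * (py P ^ 2 + px P ^ 3 - d) * e1]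
    refine nsub_L34 (nmul_L34 c2 ?_) (nmul_L34 c1 ?_) <;>
      apply_rules [sub_mem, mul_mem, pow_mem, ofNat_mem]
  have m1 : 1 < ‖m‖ := by
    by_contra c
    rw [max_eq_right (not_lt.1 c)] at c3
    linarith
  rw [max_eq_left m1.le] at c3
  refine ⟨‖m‖, m1, c3, ?_⟩
  rw [a3, sub_sub, esub_L34, norm_pow]
  rw [norm_pow]
  exact (nadd_L34 h mX').trans_lt (one_lt_pow₀ m1 two_ne_zero)

theorem triple_L34 {P : Pt d} (hP : P ≠ 0) (x0 : px P ≠ 0) (h6 : ‖6 * d‖ = 1) (hd : ‖d‖ ≤ 1)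
    (h : ‖px P‖ < 1) : P + P + P ≠ 0 ∧ ‖px (P + P + P)‖ * ‖px P‖ ^ 2 = 1 := by
  have n2 : ‖(2 : ℚ_[p])‖ ≤ 1 := (ofNat_mem _ _ : _ ∈ PadicInt.subring p)
  have n3 : ‖(3 : ℚ_[p])‖ ≤ 1 := (ofNat_mem _ _ : _ ∈ PadicInt.subring p)
  rw [show 6 * d = 2 * 3 * d by ring, norm_mul, norm_mul] at h6
  have u : ∀ x y : ℝ, 0 ≤ x → 0 ≤ y → x ≤ 1 → y ≤ 1 → x * y = 1 → x = 1 ∧ y = 1 :=
    fun x y _ _ _ _ _ => ⟨by nlinarith, by nlinarith⟩
  obtain ⟨u1, ud⟩ := u _ _ (by positivity) (norm_nonneg _) (mul_le_one₀ n2 (norm_nonneg _) n3) hd h6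
  obtain ⟨u2, u3⟩ := u _ _ (norm_nonneg _) (norm_nonneg _) n2 n3 u1
  have ξ0 : 0 < ‖px P‖ := norm_pos_iff.2 x0
  have y1 : ‖py P‖ = 1 := by
    have : ‖py P ^ 2‖ = 1 := by
      rw [eqn hP, add_comm, eadd_L34, ud]
      rw [ud, norm_pow]
      exact pow_lt_one₀ ξ0.le h three_ne_zero
    rw [norm_pow] at this
    exact (pow_eq_one_iff_of_nonneg (norm_nonneg _) two_ne_zero).1 this
  have y2 : ‖py P + py P‖ = 1 := by rw [← two_mul, norm_mul, u2, y1, one_mul]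
  have h2 : P + P ≠ 0 := fun c => by
    rw [eq_neg_iff_add_eq_zero.1 ((add_eq_zero_iff hP hP).1 c).2] at y2
    simp at y2
  obtain ⟨m, -, a2, a3, a4⟩ := add_data hP hP h2
  have m1 : ‖m‖ = ‖px P‖ ^ 2 := by
    have := congrArg norm a2
    rwa [norm_mul, y2, mul_one, show px P ^ 2 + px P * px P + px P ^ 2 = 3 * px P ^ 2 by ring,
      norm_mul, u3, one_mul, norm_pow] at this
  have m2 : ‖m‖ < 1 := m1 ▸ pow_lt_one₀ ξ0.le h two_ne_zero
  have b1 : ‖px P - px (P + P)‖ = ‖px P‖ := by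
    rw [a3, show px P - (m ^ 2 - px P - px P) = 3 * px P - m ^ 2 by ring, esub_L34, norm_mul, u3,
      one_mul]
    rw [norm_mul, u3, one_mul, norm_pow, m1, ← pow_mul]
    exact pow_lt_self_of_lt_one₀ ξ0 h (by norm_num)
  have h3 : P + P + P ≠ 0 := fun c => by
    rw [← ((add_eq_zero_iff h2 hP).1 c).1, sub_self, norm_zero] at b1
    linarith
  obtain ⟨n, c1, -, c3, -⟩ := add_data h2 hP h3
  have n1 : ‖n‖ * ‖px P‖ = 1 := by
    rw [← b1, ← norm_mul, ← c1, a4, show py P - (m * (px P - px (P + P)) - py P) =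
      py P + py P - m * (px P - px (P + P)) by ring, esub_L34, y2]
    rw [y2, norm_mul, b1]
    exact mul_lt_one_of_nonneg_of_lt_one_left (norm_nonneg _) m2 h.le
  have n4 : 1 < ‖n‖ := by nlinarith [norm_nonneg n]
  have b2 : ‖px (P + P)‖ ≤ 1 := by
    have := nsub_L34 h.le (b1.le.trans h.le)
    rwa [sub_sub_cancel] at this
  refine ⟨h3, ?_⟩
  rw [c3, sub_sub, esub_L34, norm_pow, ← mul_pow, n1, one_pow]
  rw [norm_pow]
  exact (nadd_L34 b2 h.le).trans_lt (one_lt_pow₀ n4 two_ne_zero)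

end

theorem l3 (h : L1Stmt) : L3Stmt := by
  intro p _ d d0 hd
  have H := (h p d d0 hd).1
  refine ⟨fun P Q hP h1 hQ => ?_, fun P Q ε hP hQ h1 hε hx hy => ?_, fun P hP x0 h6 h1 => ?_⟩
  · by_cases h0 : Q = 0
    · simp [h0, hP]
    · exact trans_L34 hd hP h1 h0 (hQ.resolve_left h0) (H Q h0 hQ).1 (H Q h0 hQ).2
  · have e0 : 0 ≤ ε := (norm_nonneg _).trans hx
    by_cases h0 : P - Q = 0
    · rw [h0]
      exact ⟨.inl rfl, by simpa [zc, px_zero] using e0⟩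
    · obtain ⟨μ, m1, m2, m3⟩ := close_L34 hd hP hQ h0 h1 hε hx hy
      have e : E1 (P - Q) := .inr (m3 ▸ one_lt_pow₀ m1 two_ne_zero)
      have h2 := (H _ h0 e).2
      rw [m3, ← mul_pow, pow_eq_one_iff_of_nonneg (by positivity) two_ne_zero] at h2
      refine ⟨e, (mul_le_mul_of_nonneg_left m2 (norm_nonneg _)).trans_eq ?_⟩
      rw [← mul_assoc, mul_comm _ μ, h2, one_mul]
  · obtain ⟨h3, h4⟩ := triple_L34 hP x0 h6 hd h1
    rw [show (3 : ℕ) • P = P + P + P by abel]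
    have ξ0 : 0 < ‖px P‖ := norm_pos_iff.2 x0
    have h5 : 1 < ‖px (P + P + P)‖ := by
      have := pow_lt_one₀ ξ0.le h1 two_ne_zero
      nlinarith [norm_nonneg (px (P + P + P))]
    have h2 := (H _ h3 (.inr h5)).2
    rw [← h4] at h2
    exact ⟨h3, .inr h5, (pow_left_inj₀ (norm_nonneg _) ξ0.le two_ne_zero).1
      (mul_left_cancel₀ (by linarith) h2)⟩

theorem ex_L34 (h3 : L3Stmt) {p : ℕ} [Fact p.Prime] {d : ℚ_[p]} (d0 : d ≠ 0) (hd : ‖d‖ ≤ 1)
    (G : Pt d) : ∃ n : ℕ, 0 < n ∧ E1 (n • G) := by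
  by_contra c
  push Not at c
  have c0 : ∀ n : ℕ, (n + 1) • G ≠ 0 := fun n e => c _ n.succ_pos (.inl e)
  have c1 : ∀ n : ℕ, ‖px ((n + 1) • G)‖ ≤ 1 := fun n => not_lt.1 fun e => c _ n.succ_pos (.inr e)
  obtain ⟨a, -, φ, hφ, ht⟩ := tendsto_subseq_of_bounded
    (Metric.isBounded_closedBall (x := (0 : ℚ_[p] × ℚ_[p])) (r := 1))
    (x := fun n => (px ((n + 1) • G), py ((n + 1) • G))) fun n => by
      rw [mem_closedBall_zero_iff, Prod.norm_mk]
      exact max_le (c1 n) (ny_L34 hd (c0 n) (c1 n))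
  have δ0 : 0 < ‖432 * d ^ 2‖ := norm_pos_iff.2 (mul_ne_zero (by norm_num) (pow_ne_zero 2 d0))
  obtain ⟨N, hN⟩ := Metric.cauchySeq_iff'.1 ht.cauchySeq _ (half_pos δ0)
  have h1 := (hN (N + 1) N.le_succ).le
  simp only [Function.comp_apply, dist_eq_norm, Prod.mk_sub_mk, Prod.norm_mk, max_le_iff] at h1
  have h2 := ((h3 p d d0 hd).2.1 _ _ _ (c0 _) (c0 _) (c1 _) (half_lt_self δ0) h1.1 h1.2).1
  have h4 : φ N < φ (N + 1) := hφ N.lt_succ_self
  refine c (φ (N + 1) - φ N) (Nat.sub_pos_of_lt h4) ?_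
  rwa [show φ (N + 1) + 1 = φ (N + 1) - φ N + (φ N + 1) by omega, add_nsmul, add_sub_cancel_right]
    at h2

theorem l4 (h1 : L1Stmt) (h2 : L2Stmt) (h3 : L3Stmt) : L4Stmt := by
  intro d G d0 hd hG D
  induction D using Nat.recOnPosPrimePosCoprime with
  | zero => exact fun h => absurd rfl h
  | one => exact fun _ => ⟨1, one_pos, fun t _ => one_dvd _⟩
  | coprime a b ha hb hab iha ihb =>
    obtain ⟨m, m0, hm⟩ := iha (by omega)
    obtain ⟨n, n0, hn⟩ := ihb (by omega)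
    refine fun _ => ⟨m * n, mul_pos m0 n0, fun t ht => hab.mul_dvd_of_dvd_of_dvd ?_ ?_⟩
    · rw [Nat.cast_mul, mul_assoc]
      exact hm _ (mul_ne_zero (Nat.cast_ne_zero.2 n0.ne') ht)
    · rw [Nat.cast_mul, mul_comm (m : ℤ), mul_assoc]
      exact hn _ (mul_ne_zero (Nat.cast_ne_zero.2 m0.ne') ht)
  | prime_pow p e hp _ =>
    haveI := Fact.mk hp
    have d1 : (d : ℚ_[p]) ≠ 0 := Rat.cast_ne_zero.2 d0
    have d2 : ‖(d : ℚ_[p])‖ ≤ 1 := Padic.norm_rat_le_one (by rw [hd]; simpa using hp.ne_one)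
    obtain ⟨ψ, ψ1, ψ2, -⟩ := exists_scale (d := d) (Rat.castHom ℚ_[p]) (u := 1) one_ne_zero d1
      (by simp)
    obtain ⟨n, n0, hn⟩ := ex_L34 h3 d1 d2 (ψ G)
    have r0 : n • ψ G ≠ 0 := fun c => hG n (Nat.cast_ne_zero.2 n0.ne') (ψ1 (by
      rw [natCast_zsmul, map_nsmul, c, map_zero]))
    refine fun _ => ⟨p ^ e * n, mul_pos (pow_pos hp.pos e) n0, fun t ht => ?_⟩
    obtain ⟨a1, -, a3, a4⟩ := h2 p _ d1 d2 _ hn (p ^ e * t)
    have b1 := (h1 p _ d1 d2).1 _ (a4 r0 (mul_ne_zero (pow_ne_zero _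
      (Nat.cast_ne_zero.2 hp.ne_zero)) ht)) a1
    have b2 := ((h1 p _ d1 d2).1 _ r0 hn).1
    have b3 := (Padic.norm_int_le_pow_iff_dvd (p := p) (p ^ e * t) e).2 (dvd_mul_right _ _)
    have e1 : ((p : ℤ) ^ e * t) • n • ψ G = ψ ((((p ^ e * n : ℕ) : ℤ) * t) • G) := by
      rw [map_zsmul, ← natCast_zsmul, smul_smul]
      push_cast
      rw [mul_right_comm]
    rw [e1] at a3 b1
    rw [ψ2, one_pow, one_mul, Rat.coe_castHom] at b1
    generalize px ((((p ^ e * n : ℕ) : ℤ) * t) • G) = x at *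
    generalize ‖zc (ψ ((((p ^ e * n : ℕ) : ℤ) * t) • G))‖ = ζ at *
    have b4 : ζ ≤ (p : ℝ) ^ (-e : ℤ) :=
      a3 ▸ (mul_le_of_le_one_right (norm_nonneg _) b2.le).trans b3
    have b5 : ‖(x : ℚ_[p])‖ * ‖((x.den : ℤ) : ℚ_[p])‖ ≤ 1 := by
      rw [← norm_mul, Int.cast_natCast, ← Rat.cast_natCast, ← Rat.cast_mul, Rat.mul_den_eq_num,
        Rat.cast_intCast]
      exact Padic.norm_int_le_one _
    have z0 : 0 ≤ ζ := a3 ▸ by positivity
    have b6 : ‖((x.den : ℤ) : ℚ_[p])‖ ≤ ζ ^ 2 := by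
      have := mul_le_mul_of_nonneg_right b5 (sq_nonneg ζ)
      rwa [mul_right_comm, b1.2, one_mul, one_mul] at this
    have b7 : ζ ^ 2 ≤ ζ := by nlinarith [b1.1]
    exact_mod_cast (Padic.norm_int_le_pow_iff_dvd (p := p) x.den e).1 (b6.trans (b7.trans b4))

end Pool.Agent.MP_adc87d_lc.Big

end
end
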