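import Mathlib
import Pool.Agent.Mg.Fadc87d.G04e6de
import Pool.Agent.MP_e23604_nt.P.SW
import Pool.Agent.Mg.Fadc87d.G9d46eb
import Pool.Agent.Mg.Fadc87d.Gcb29e2
import Pool.Agent.Mg.Fadc87d.G6b1215
import Pool.Agent.Mg.Fadc87d.Gfa6e6f
import Pool.Agent.Mg.Fadc87d.G9093fc
import Pool.Agent.Mg.Fadc87d.Gc69268
import Pool.Agent.Mg.Fadc87d.Gbc7068
import Pool.Agent.Mg.Fadc87d.Gf86ef9

set_option linter.all false

section

/-! Assembly of the definition. -/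

set_option autoImplicit false

namespace Pool.Agent.MP_adc87d_lc.Big

theorem exists_RW (W : Set ℕ) : ∃ R : Subring ℚ, RW W R := by
  refine ⟨{ carrier := {x | ∀ p : ℕ, p.Prime → p ∣ x.den → p ∈ W}
            mul_mem' := fun {a b} ha hb p hp h => ?_
            one_mem' := fun p hp h => absurd (Nat.dvd_one.1 h) hp.ne_one
            add_mem' := fun {a b} ha hb p hp h => ?_
            zero_mem' := fun p hp h => absurd (Nat.dvd_one.1 h) hp.ne_one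
            neg_mem' := fun {a} ha p hp h => ha p hp (by simpa using h) }, fun x => Iff.rfl⟩
  · exact (hp.dvd_mul.1 (h.trans (Rat.mul_den_dvd a b))).elim (ha p hp) (hb p hp)
  · exact (hp.dvd_mul.1 (h.trans (Rat.add_den_dvd a b))).elim (ha p hp) (hb p hp)

theorem mainA (hconv : ConvStmt) (hform : FormStmt) (hinj : InjStmt) (hcert : CertStmt)
    (hbase : BaseStmt) (hsound : SoundStmt) (hcompl : ComplStmt) (hdens : DensStmt)
    (ε : ℝ) (hε : 0 < ε) :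
    ∃ (k C : ℕ) (R : Subring ℚ), (∀ᶠ N : ℕ in Filter.atTop, (1 - ε) * (Nat.primeCounting N : ℝ) ≤
      (Set.ncard {p : ℕ | p ≤ N ∧ p.Prime ∧ C < p ∧ Hi k p} : ℝ)) ∧
      (∀ x : ℚ, x ∈ R ↔ ∀ p : ℕ, p.Prime → p ∣ x.den → C < p ∧ Hi k p) ∧
      (∃ (m : ℕ) (P : MvPolynomial (Fin 1 ⊕ Fin m) ℤ), ∀ x : R, (∃ n : ℤ, x = n) ↔
        ∃ w : Fin m → R, MvPolynomial.aeval (Sum.elim ![x] w) P = 0) ∧
      ∃ f : R × R → R, Function.Injective f ∧
        ∃ (m : ℕ) (P : MvPolynomial (Fin 3 ⊕ Fin m) ℤ), ∀ x y z : R, z = f (x, y) ↔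
          ∃ w : Fin m → R, MvPolynomial.aeval (Sum.elim ![x, y, z] w) P = 0 := by
  obtain ⟨k, hk, hd⟩ := hdens ε hε
  obtain ⟨C, n, Nm, hC, hc⟩ := hcert k hk
  obtain ⟨K, io, G, hb⟩ := hbase k
  let D : Dat := ⟨k, C, n, Nm, K, io, G⟩
  let W : Set ℕ := {p | C < p ∧ Hi k p}
  have hG : Good D W := ⟨hk, hC, hc, hb, fun _ => Iff.rfl⟩
  obtain ⟨R, hR⟩ := exists_RW W
  obtain ⟨x₀, hs⟩ := hsound D
  obtain ⟨hZ, f, hf, hF⟩ := hinj R (Psi D W x₀) x₀ io hb.2.1 (hform D W R hR x₀) (hs W hG)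
    (hcompl D W hG x₀)
  have h2 : 2 ∉ W := fun h => by have := h.1; omega
  have h3 : 3 ∉ W := fun h => by have := h.1; omega
  have key : ∀ (n m : ℕ) (P : MvPolynomial (Fin n ⊕ Fin m) ℤ) (x : Fin n → R),
      (∃ w : Fin m → ℚ, (∀ j, w j ∈ R) ∧
        MvPolynomial.aeval (Sum.elim (fun i => (x i : ℚ)) w) P = 0) ↔
      ∃ w : Fin m → R, MvPolynomial.aeval (Sum.elim x w) P = 0 := by
    intro n m P x
    have e : ∀ w : Fin m → R, ((MvPolynomial.aeval (Sum.elim x w) P : R) : ℚ) =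
        MvPolynomial.aeval (Sum.elim (fun i => (x i : ℚ)) fun j => (w j : ℚ)) P := fun w => by
      have := MvPolynomial.comp_aeval_apply (f := Sum.elim x w) R.subtype.toIntAlgHom P
      refine this.trans ?_
      congr 2
      funext i
      rcases i with i | i <;> rfl
    constructor
    · rintro ⟨w, hw, h⟩
      exact ⟨fun j => ⟨w j, hw j⟩, Subtype.ext ((e _).trans h)⟩
    · rintro ⟨w, h⟩
      exact ⟨fun j => w j, fun j => (w j).2, by rw [← e, h]; rfl⟩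
  refine ⟨k, C, R, hd C, hR, ?_, fun v => (f (v.1, v.2) : R), fun v v' h => ?_, ?_⟩
  · obtain ⟨m, P, hP⟩ := hconv W R hR h2 h3 1 _ hZ
    refine ⟨m, P, fun x => ?_⟩
    rw [← key, ← hP]
    simp [Subtype.ext_iff]
  · have h1 : f (v.1, v.2) = f (v'.1, v'.2) := by
      have := congrArg (fun t : R => (t : ℚ)) h
      simpa using this
    have h2 := hf h1
    simp only [Prod.mk.injEq] at h2
    exact Prod.ext (Subtype.ext h2.1) (Subtype.ext h2.2)
  · obtain ⟨m, P, hP⟩ := hconv W R hR h2 h3 3 _ hF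
    refine ⟨m, P, fun x y z => ?_⟩
    rw [← key, ← hP]
    simp [Subtype.ext_iff]

end Pool.Agent.MP_adc87d_lc.Big

end

section

set_option autoImplicit false

noncomputable section

namespace Pool.Agent.MP_adc87d_lc.Big

theorem nice_Base : Nice 49 := by
  refine ⟨by norm_num, .inl ?_, fun p hp h => ?_⟩
  · haveI : Fact (Nat.Prime 3) := ⟨by norm_num⟩
    have := (padicNorm.dvd_iff_norm_le (p := 3) (n := 2) (z := 45)).1 (by norm_num)
    norm_num at this ⊢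
    exact this
  · obtain rfl : p = 7 := by
      by_contra hne
      refine h ?_
      have e : padicValRat p ((49 : ℕ) : ℚ) = 0 := by
        rw [padicValRat.of_nat, padicValNat.eq_zero_of_not_dvd, Nat.cast_zero]
        intro hd
        exact hne ((Nat.prime_dvd_prime_iff_eq hp (by norm_num)).1
          (hp.dvd_of_dvd_pow (n := 2) (m := 7) hd))
      rw [show (49 : ℚ) = ((49 : ℕ) : ℚ) by norm_num, e]
      exact dvd_zero _
    refine ⟨rfl, ?_⟩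
    rintro ⟨r, hr⟩
    revert r
    decide

theorem root_Base (x : ℚ) : x ^ 3 + 68 * x ^ 2 - 3534272 ≠ 0 := by
  intro h
  have h1 : x.num ^ 3 + 68 * x.num ^ 2 * x.den - 3534272 * (x.den : ℤ) ^ 3 = 0 := by
    have e : (x.num : ℚ) = x * x.den := (Rat.mul_den_eq_num x).symm
    have : ((x.num ^ 3 + 68 * x.num ^ 2 * x.den - 3534272 * (x.den : ℤ) ^ 3 : ℤ) : ℚ) = 0 := by
      push_cast
      rw [e]
      linear_combination (x.den : ℚ) ^ 3 * h
    exact_mod_cast this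
  have h2 : ∀ a b : ZMod 13, a ^ 3 + 3 * a ^ 2 * b - b ^ 3 = 0 → a = 0 ∧ b = 0 := by decide
  have h3 := congrArg (Int.cast : ℤ → ZMod 13) h1
  push_cast at h3
  obtain ⟨h4, h5⟩ := h2 (x.num : ZMod 13) (x.den : ZMod 13) (by
    rw [show (68 : ZMod 13) = 3 by decide, show (3534272 : ZMod 13) = 1 from rfl,
      one_mul] at h3
    exact h3)
  rw [ZMod.intCast_zmod_eq_zero_iff_dvd] at h4
  rw [ZMod.natCast_eq_zero_iff] at h5
  have := Nat.eq_one_of_dvd_coprimes x.reduced (Int.natCast_dvd.1 h4) h5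
  omega

theorem third_Base {A : Type} [AddCommGroup A] {G Q : A} {m : ℕ} (hm : ¬3 ∣ m)
    (h : (m : ℤ) • G = (3 : ℕ) • Q) : ∃ Q', G = (3 : ℕ) • Q' := by
  obtain ⟨x, y, e⟩ : IsCoprime ((3 : ℕ) : ℤ) (m : ℤ) :=
    Nat.isCoprime_iff_coprime.2 ((Nat.Prime.coprime_iff_not_dvd Nat.prime_three).2 hm)
  refine ⟨x • G + y • Q, ?_⟩
  rw [smul_add, smul_comm (3 : ℕ) y, ← h, ← natCast_zsmul, ← mul_smul, ← mul_smul, ← add_smul,
    mul_comm _ x, e, one_smul]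

theorem inf_Base {A : Type} [AddCommGroup A] {G : A} (h3 : ∀ P : A, (3 : ℕ) • P = 0 → P = 0)
    (hG : ¬∃ Q, G = (3 : ℕ) • Q) (n : ℤ) (hn : n ≠ 0) : n • G ≠ 0 := by
  have key : ∀ m : ℕ, m ≠ 0 → (m : ℤ) • G ≠ 0 := by
    intro m
    induction m using Nat.strong_induction_on with
    | _ m ih =>
      intro hm e
      by_cases hd : 3 ∣ m
      · obtain ⟨k, rfl⟩ := hd
        refine ih k (by omega) (by omega) (h3 _ ?_)
        rw [← natCast_zsmul, ← mul_smul, ← Nat.cast_mul, e]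
      · exact hG (third_Base (Q := 0) hd (by rw [e, smul_zero]))
  intro e
  refine key n.natAbs (Int.natAbs_ne_zero.2 hn) ?_
  rcases Int.natAbs_eq n with h | h
  · rwa [← h]
  · rw [h, neg_smul, neg_eq_zero] at e
    exact e

theorem index_Base {A : Type} [AddCommGroup A] {G : A} (hf : AddGroup.FG A)
    (h : ∀ P : A, ∃ m : ℕ, 0 < m ∧ ∃ n : ℤ, m • P = n • G) :
    ∃ io : ℕ, 0 < io ∧ ∀ P : A, ∃ n : ℤ, io • P = n • G := by
  classical
  obtain ⟨S, hS⟩ := hf.out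
  choose m hm n hn using h
  refine ⟨∏ s ∈ S, m s, Finset.prod_pos fun s _ => hm s, fun P => ?_⟩
  have hP : P ∈ AddSubgroup.closure (S : Set A) := hS ▸ AddSubgroup.mem_top P
  induction hP using AddSubgroup.closure_induction with
  | mem s hs =>
    obtain ⟨c, hc⟩ := Finset.dvd_prod_of_mem m hs
    exact ⟨c * n s, by rw [hc, mul_comm, mul_smul, hn, mul_smul, natCast_zsmul]⟩
  | zero => exact ⟨0, by simp⟩
  | add x y _ _ hx hy =>
    obtain ⟨a, ha⟩ := hx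
    obtain ⟨b, hb⟩ := hy
    exact ⟨a + b, by rw [smul_add, ha, hb, add_smul]⟩
  | neg x _ hx =>
    obtain ⟨a, ha⟩ := hx
    exact ⟨-a, by rw [smul_neg, ha, neg_smul]⟩

theorem norm_Base {p : ℕ} [Fact p.Prime] {x : ℚ} (h : p ∣ x.den) : 1 < ‖(x : ℚ_[p])‖ := by
  have h1 : ‖(x.den : ℚ_[p])‖ < 1 := Padic.norm_natCast_lt_one_iff.2 h
  have h2 : ‖(x.num : ℚ_[p])‖ = 1 := by
    refine le_antisymm (Padic.norm_int_le_one _) (not_lt.1 fun hl => ?_)
    have := Nat.eq_one_of_dvd_coprimes x.reduced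
      (Int.natCast_dvd.1 (Padic.norm_intCast_lt_one_iff.1 hl)) h
    exact (Fact.out : p.Prime).ne_one this
  rw [Rat.cast_def, norm_div, h2]
  exact one_lt_one_div (norm_pos_iff.2 (Nat.cast_ne_zero.2 x.den_ne_zero)) h1

theorem base (h1 : IsoStmt) (h2 : RkStmt) (h3 : L4Stmt) : BaseStmt := by
  intro k
  have hd : db (49 : ℚ) = -883568 := by norm_num [db]
  have hd0 : db (49 : ℚ) ≠ 0 := by rw [hd]; norm_num
  obtain ⟨ψ, φ, i1, i2, i3⟩ := h1 _ hd0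
  obtain ⟨r1, r2, r3, -⟩ := h2 49 nice_Base
  obtain ⟨S, hS0, hSx, -⟩ := exists_pt (d := -27 * db (49 : ℚ)) (x := -68) (y := -4852)
    (by rw [hd]; norm_num) (by rw [hd]; norm_num)
  have hφ : Function.Injective φ := by
    rw [injective_iff_map_eq_zero]
    intro P hP
    by_contra h0
    refine (i3 P fun hx => ?_).1 hP
    have := eqn h0
    rw [hx] at this
    have hs : IsSquare ((69 : ℕ) : ℚ) := ⟨py P / 588, by
      push_cast
      linear_combination (-1 / 588 ^ 2 : ℚ) * this + (27 / 588 ^ 2 : ℚ) * hd⟩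
    obtain ⟨r, hr⟩ := Rat.isSquare_natCast_iff.1 hs
    have : r ≤ 8 := by nlinarith
    interval_cases r <;> omega
  have hG3 : ¬∃ Q, φ S = (3 : ℕ) • Q := by
    rintro ⟨Q, hQ⟩
    rw [← i1] at hQ
    have e := hφ hQ
    have hQ0 : Q ≠ 0 := by
      rintro rfl
      exact hS0 (e.trans ψ.map_zero)
    have hx : px Q ≠ 0 := by
      intro hx
      have := eqn hQ0
      rw [hx] at this
      nlinarith [sq_nonneg (py Q)]
    have := (i2 Q hx).2.1
    rw [← e, hSx, eq_div_iff (pow_ne_zero _ hx)] at this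
    refine root_Base (px Q) ?_
    linear_combination (-1 : ℚ) * this - 4 * hd
  have hinf := inf_Base r3 hG3
  obtain ⟨m, hm, hL⟩ := h3 _ (φ S) hd0 (by rw [hd]; rfl) hinf (2 * 3 * 7 * 23) (by norm_num)
  obtain ⟨e, m1, hm1, rfl⟩ := Nat.exists_eq_pow_mul_and_not_dvd hm.ne' 3 (by norm_num)
  have hG3' : ¬∃ Q, (m1 : ℤ) • φ S = (3 : ℕ) • Q := fun ⟨Q, hQ⟩ => hG3 (third_Base hm1 hQ)
  have hinf' := inf_Base r3 hG3'
  obtain ⟨io, hio, hI⟩ := index_Base (G := (m1 : ℤ) • φ S) r1 fun P => by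
    obtain ⟨a, b, hab, e⟩ := r2 P ((m1 : ℤ) • φ S)
    have ha : a ≠ 0 := by
      rintro rfl
      rw [zero_smul] at e
      exact hinf' b (hab.resolve_left (not_not.2 rfl)) e.symm
    refine ⟨a.natAbs, Int.natAbs_pos.2 ha, ?_⟩
    rcases Int.natAbs_eq a with h | h
    · exact ⟨b, by rw [← natCast_zsmul, ← h, e]⟩
    · refine ⟨-b, ?_⟩
      rw [neg_smul, ← e, ← natCast_zsmul, ← neg_smul]
      congr 1
      omega
  refine ⟨2 * k + e, 3 ^ (2 * k + e) * io, (m1 : ℤ) • φ S, by omega, by positivity, hinf', hG3',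
    fun p _ hp n hn => norm_Base (hp.trans ?_), fun A => ?_⟩
  · have := hL (3 ^ (2 * k) * n) (mul_ne_zero (pow_ne_zero _ (by norm_num)) hn)
    have e2 : (3 : ℤ) ^ (2 * k + e) * n * m1 = ((3 ^ e * m1 : ℕ) : ℤ) * (3 ^ (2 * k) * n) := by
      push_cast
      ring
    rw [← mul_smul, e2]
    exact this
  · obtain ⟨n, hn⟩ := hI A
    exact ⟨n, by rw [mul_smul, hn, mul_smul, ← natCast_zsmul]; simp⟩

end Pool.Agent.MP_adc87d_lc.Big

end
end

section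

/-! Almost all primes are inverted. -/

set_option autoImplicit false

noncomputable section

namespace Pool.Agent.MP_adc87d_lc.Big

open Finset Filter

lemma card_le_Dens {N : ℕ} (hN : 1 ≤ N) (S : Finset ℕ) (hS : ∀ n ∈ S, 1 ≤ n) :
    (S.card : ℝ) * Real.log N ≤ √N * Real.log N + 2 * ∑ n ∈ S, Real.log n := by
  have hN1 : (1 : ℝ) ≤ N := by exact_mod_cast hN
  have hL : 0 ≤ Real.log N := Real.log_nonneg hN1
  have h1 : ∀ n ∈ S, Real.log N ≤
      (if n ≤ Nat.sqrt N then Real.log N else 0) + 2 * Real.log n := by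
    intro n hn
    have hn1 : (1 : ℝ) ≤ n := by exact_mod_cast hS n hn
    have hl := Real.log_nonneg hn1
    split_ifs with h
    · linarith
    · have a1 : N < n ^ 2 := Nat.sqrt_lt'.1 (not_le.1 h)
      have a2 : (N : ℝ) ≤ (n : ℝ) ^ 2 := by exact_mod_cast a1.le
      have a3 := Real.log_le_log (by linarith) a2
      rw [Real.log_pow] at a3
      push_cast at a3
      linarith
  have h2 := Finset.sum_le_sum h1
  rw [Finset.sum_const, nsmul_eq_mul, Finset.sum_add_distrib, ← Finset.mul_sum,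
    ← Finset.sum_filter, Finset.sum_const, nsmul_eq_mul] at h2
  have h3 : (S.filter fun n => n ≤ Nat.sqrt N).card ≤ Nat.sqrt N := by
    have : (S.filter fun n => n ≤ Nat.sqrt N) ⊆ Icc 1 (Nat.sqrt N) := fun n hn =>
      mem_Icc.2 ⟨hS n (mem_filter.1 hn).1, (mem_filter.1 hn).2⟩
    simpa using card_le_card this
  have h4 : ((S.filter fun n => n ≤ Nat.sqrt N).card : ℝ) ≤ √N :=
    le_trans (by exact_mod_cast h3) Real.nat_sqrt_le_real_sqrt
  have h5 := mul_le_mul_of_nonneg_right h4 hL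
  linarith

lemma pi_eq_Dens (N : ℕ) : Nat.primeCounting N = ((Icc 1 N).filter Nat.Prime).card := by
  rw [Nat.primeCounting, Nat.primeCounting', Nat.count_eq_card_filter_range]
  refine congrArg Finset.card (Finset.ext fun n => ?_)
  simp only [mem_filter, mem_range, mem_Icc]
  exact ⟨fun h => ⟨⟨h.2.one_lt.le, by omega⟩, h.2⟩, fun h => ⟨by omega, h.2⟩⟩

lemma sqrt_log_Dens {δ : ℝ} (hδ : 0 < δ) : ∀ᶠ x : ℝ in atTop, √x * Real.log x ≤ δ * x := by
  have h := (isLittleO_log_rpow_atTop (r := 1 / 2) (by norm_num)).bound hδ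
  filter_upwards [h, eventually_ge_atTop 1] with x hx hx1
  rw [Real.norm_of_nonneg (Real.log_nonneg hx1), ← Real.sqrt_eq_rpow,
    Real.norm_of_nonneg (Real.sqrt_nonneg _)] at hx
  have a1 := mul_le_mul_of_nonneg_left hx (Real.sqrt_nonneg x)
  have a2 : √x * √x = x := Real.mul_self_sqrt (by linarith)
  calc √x * Real.log x ≤ √x * (δ * √x) := a1
    _ = δ * (√x * √x) := by ring
    _ = δ * x := by rw [a2]

theorem dens : DensStmt := by
  classical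
  intro ε hε
  obtain ⟨j, hj⟩ := pow_unbounded_of_one_lt (32 / ε) (by norm_num : (1 : ℝ) < 3)
  refine ⟨j + 2, by omega, fun C => ?_⟩
  obtain ⟨x0, hx0⟩ := Pool.Agent.MP_e23604_nt.P.siegel_walfisz 1 1
  set d : ℕ := 3 ^ (j + 2) with hd
  have hd1 : 1 < d := Nat.one_lt_pow (by omega) (by norm_num)
  have hφ : 32 / ε ≤ (d.totient : ℝ) := by
    rw [hd, Nat.totient_prime_pow_succ Nat.prime_three]
    push_cast
    have : (0 : ℝ) < 3 ^ j := by positivity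
    rw [pow_succ]
    linarith
  have hφ0 : (0 : ℝ) < d.totient := lt_of_lt_of_le (by positivity) hφ
  have tN := tendsto_natCast_atTop_atTop (R := ℝ)
  have tL := Real.tendsto_log_atTop.comp tN
  filter_upwards [tN.eventually_ge_atTop x0, tL.eventually_ge_atTop (d : ℝ),
    tL.eventually_ge_atTop 2, tL.eventually_ge_atTop (32 / ε), eventually_ge_atTop 1,
    tN.eventually (sqrt_log_Dens (δ := ε / (4 * (C + 2))) (by positivity))]
    with N e1 e2 e3 e4 e5 e6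
  simp only [Function.comp] at e2 e3 e4
  have hN1 : (1 : ℝ) ≤ N := by exact_mod_cast e5
  set L : ℝ := Real.log N with hL
  have hL0 : 0 < L := by linarith
  have hsw : ∀ c : ℕ, Nat.Coprime c d →
      (((Icc 1 N).filter fun n => n.Prime ∧ n % d = c % d).card : ℝ) * L ≤
        √N * L + ε / 8 * N := by
    intro c hc
    have a1 := (abs_le.1 (hx0 N e1 d c hd1.le (by rwa [pow_one]) hc)).2
    rw [Nat.floor_natCast, pow_one] at a1
    have a2 := card_le_Dens e5 ((Icc 1 N).filter fun n => n.Prime ∧ n % d = c % d)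
      fun n hn => (mem_Icc.1 (mem_filter.1 hn).1).1
    have a3 : (N : ℝ) / d.totient ≤ ε / 32 * N := by
      rw [div_le_iff₀ hφ0]
      rw [div_le_iff₀ hε] at hφ
      nlinarith
    have a4 : (N : ℝ) / L ≤ ε / 32 * N := by
      rw [div_le_iff₀ hL0]
      rw [div_le_iff₀ hε] at e4
      nlinarith
    linarith
  have hpi : (N : ℝ) / 2 ≤ (Nat.primeCounting N : ℝ) * L := by
    have a1 := (abs_le.1 (hx0 N e1 1 1 le_rfl (by rw [pow_one]; push_cast; linarith)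
      (Nat.coprime_one_left 1))).1
    rw [Nat.floor_natCast, pow_one] at a1
    simp only [Nat.mod_one, and_true, Nat.totient_one, Nat.cast_one, div_one] at a1
    have a2 : ∑ n ∈ (Icc 1 N).filter Nat.Prime, Real.log n ≤
        ∑ n ∈ (Icc 1 N).filter Nat.Prime, L := by
      refine Finset.sum_le_sum fun n hn => ?_
      have b1 := mem_Icc.1 (mem_filter.1 hn).1
      exact Real.log_le_log (by exact_mod_cast b1.1) (by exact_mod_cast b1.2)
    rw [Finset.sum_const, nsmul_eq_mul, ← pi_eq_Dens] at a2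
    have a3 : (N : ℝ) / L ≤ N / 2 := div_le_div_of_nonneg_left (by linarith) (by norm_num) e3
    linarith
  have hset : {p : ℕ | p ≤ N ∧ p.Prime ∧ C < p ∧ Hi (j + 2) p} =
      ↑((Icc 1 N).filter fun p => p.Prime ∧ C < p ∧ Hi (j + 2) p) := by
    ext p
    simp only [Set.mem_ofPred_eq, coe_filter, mem_Icc]
    exact ⟨fun h => ⟨⟨h.2.1.one_lt.le, h.1⟩, h.2⟩, fun h => ⟨h.1.2, h.2⟩⟩
  rw [hset, Set.ncard_coe_finset]
  have hsub : (Icc 1 N).filter Nat.Prime ⊆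
      ((Icc 1 N).filter fun p => p.Prime ∧ C < p ∧ Hi (j + 2) p) ∪ (Icc 1 C ∪
        (((Icc 1 N).filter fun n => n.Prime ∧ n % d = 1 % d) ∪
          ((Icc 1 N).filter fun n => n.Prime ∧ n % d = (d - 1) % d))) := by
    intro p hp
    obtain ⟨h1, h2⟩ := mem_filter.1 hp
    rw [Nat.mod_eq_of_lt hd1, Nat.mod_eq_of_lt (show d - 1 < d by omega)]
    simp only [mem_union, mem_filter]
    by_cases c1 : p ≤ C
    · exact Or.inr (Or.inl (mem_Icc.2 ⟨h2.one_lt.le, c1⟩))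
    by_cases c2 : p % d = 1
    · exact Or.inr (Or.inr (Or.inl ⟨h1, h2, c2⟩))
    by_cases c3 : p % d = d - 1
    · exact Or.inr (Or.inr (Or.inr ⟨h1, h2, c3⟩))
    exact Or.inl ⟨h1, h2, not_le.1 c1, Or.inl ⟨c2, c3⟩⟩
  have hcard := (card_le_card hsub).trans ((card_union_le _ _).trans (Nat.add_le_add_left
    ((card_union_le _ _).trans (Nat.add_le_add_left (card_union_le _ _) _)) _))
  rw [← pi_eq_Dens, Nat.card_Icc, Nat.add_sub_cancel] at hcard
  have b1 := hsw 1 (Nat.coprime_one_left d)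
  have b2 := hsw (d - 1) ((Nat.coprime_self_sub_left hd1.le).2 (Nat.coprime_one_left d))
  set G : ℕ := ((Icc 1 N).filter fun p => p.Prime ∧ C < p ∧ Hi (j + 2) p).card
  set B1 : ℕ := ((Icc 1 N).filter fun n => n.Prime ∧ n % d = 1 % d).card
  set B2 : ℕ := ((Icc 1 N).filter fun n => n.Prime ∧ n % d = (d - 1) % d).card
  have hc : (Nat.primeCounting N : ℝ) ≤ G + (C + (B1 + B2)) := by exact_mod_cast hcard
  have hs1 : 1 ≤ √(N : ℝ) := Real.one_le_sqrt.2 hN1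
  have hC0 : (0 : ℝ) ≤ C := Nat.cast_nonneg _
  have b3 : (C : ℝ) * L ≤ C * (√N * L) :=
    mul_le_mul_of_nonneg_left (le_mul_of_one_le_left hL0.le hs1) hC0
  have b4 : ((C : ℝ) + 2) * (√N * L) ≤ ε / 4 * N := by
    have := mul_le_mul_of_nonneg_left e6 (show (0 : ℝ) ≤ C + 2 by positivity)
    have e : ((C : ℝ) + 2) * (ε / (4 * (C + 2)) * N) = ε / 4 * N := by field_simp
    linarith
  have b5 : ((C : ℝ) + (B1 + B2)) * L ≤ ε * Nat.primeCounting N * L := by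
    have := mul_le_mul_of_nonneg_left hpi hε.le
    nlinarith
  have b6 := le_of_mul_le_mul_right b5 hL0
  linarith

end Pool.Agent.MP_adc87d_lc.Big

end
end

section

/-! From large multiples of a fixed number to all integers, and an injective pairing. -/

set_option autoImplicit false

noncomputable section

namespace Pool.Agent.MP_adc87d_lc.Big

theorem congr_Inj {R : Subring ℚ} {ι : Type} {S T : (ι → ℚ) → Prop} (h : DQ R S)
    (e : ∀ v, S v ↔ T v) : DQ R T := by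
  rwa [show T = S from funext fun v => propext (e v).symm]

theorem app_Inj {R : Subring ℚ} (D : Dio R) {S : ℚ → Prop}
    (hS : DQ R fun v : Fin 1 → ℚ => S (v 0)) {ι : Type} {F : (ι → ℚ) → ℚ} (hF : DF R F) :
    DQ R fun v => S (F v) :=
  D.comp (κ := Fin 1) (F := fun _ => F) hS fun _ => hF

theorem fin_Inj {R : Subring ℚ} (D : Dio R) {ι : Type} {F : (ι → ℚ) → ℚ} (hF : DF R F) (m : ℕ) :
    DQ R fun v => ∃ r : ℕ, r < m ∧ F v = r := by
  induction m with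
  | zero => exact congr_Inj (D.eq (D.const 0) (D.const 1)) fun v => by simp
  | succ m ih =>
    refine congr_Inj (D.or ih (D.eq hF (D.const m))) fun v => ⟨?_, ?_⟩
    · rintro (⟨r, h1, h2⟩ | h)
      · exact ⟨r, by omega, h2⟩
      · exact ⟨m, by omega, h⟩
    · rintro ⟨r, h1, h2⟩
      rcases Nat.lt_succ_iff_lt_or_eq.1 h1 with h | rfl
      · exact Or.inl ⟨r, h, h2⟩
      · exact Or.inr h2

theorem int_Inj {R : Subring ℚ} (D : Dio R) (S : ℚ → Prop) (x₀ io : ℕ) (hio : 0 < io)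
    (hS : DQ R fun v : Fin 1 → ℚ => S (v 0)) (h1 : ∀ x, S x → ∃ n : ℤ, x = n)
    (h2 : ∀ n : ℕ, 0 < n → x₀ ≤ n → io ∣ n → S n) :
    DQ R fun v : Fin 1 → ℚ => ∃ n : ℤ, v 0 = n := by
  have key := D.exs (ι := Fin 1) (κ := Fin 2)
    (fun v w => S (w 0) ∧ S (w 1) ∧ ∃ r : ℕ, r < io ∧ v 0 - w 0 + w 1 = r)
    (D.and (app_Inj D hS (D.proj (Sum.inr 0))) (D.and (app_Inj D hS (D.proj (Sum.inr 1)))
      (fin_Inj D (D.add (D.sub (D.proj (Sum.inl 0)) (D.proj (Sum.inr 0)))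
        (D.proj (Sum.inr 1))) io)))
  refine congr_Inj key fun v => ⟨?_, ?_⟩
  · rintro ⟨w, a1, a2, r, -, a3⟩
    obtain ⟨m, hm⟩ := h1 _ a1
    obtain ⟨n, hn⟩ := h1 _ a2
    refine ⟨r + m - n, ?_⟩
    push_cast
    linarith
  · rintro ⟨n, hn⟩
    have hz : (0 : ℤ) < io := by exact_mod_cast hio
    have e1 := Int.emod_add_mul_ediv n io
    have e2 := Int.emod_nonneg n hz.ne'
    have e3 := Int.emod_lt_of_pos n hz
    generalize n % (io : ℤ) = r at e1 e2 e3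
    generalize n / (io : ℤ) = q at e1
    lift r to ℕ using e2
    obtain ⟨a, b, hab⟩ : ∃ a b : ℕ, q = a - b := ⟨q.toNat, (-q).toNat, by omega⟩
    have hs : ∀ c : ℕ, S ((io * (x₀ + 1 + c) : ℕ) : ℚ) := fun c =>
      h2 _ (Nat.mul_pos hio (by omega))
        (le_trans (by omega) (Nat.le_mul_of_pos_left (x₀ + 1 + c) hio)) (dvd_mul_right _ _)
    refine ⟨![((io * (x₀ + 1 + a) : ℕ) : ℚ), ((io * (x₀ + 1 + b) : ℕ) : ℚ)], hs a, hs b, r,
      by exact_mod_cast e3, ?_⟩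
    rw [hn, ← e1, hab]
    simp only [Matrix.cons_val_zero, Matrix.cons_val_one]
    push_cast
    ring

/-- pairing of nonnegative integers -/
def pair_Inj (m n : ℤ) : ℤ := (m + n) ^ 2 + m

theorem pair_nonneg_Inj {m n : ℤ} (hm : 0 ≤ m) : 0 ≤ pair_Inj m n := by
  unfold pair_Inj; positivity

theorem pair_inj_Inj {m n m' n' : ℤ} (hm : 0 ≤ m) (hn : 0 ≤ n) (hm' : 0 ≤ m') (hn' : 0 ≤ n')
    (h : pair_Inj m n = pair_Inj m' n') : m = m' ∧ n = n' := by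
  unfold pair_Inj at h
  have e : m + n = m' + n' := by
    rcases lt_trichotomy (m + n) (m' + n') with c | c | c
    · have : m + n + 1 ≤ m' + n' := c
      nlinarith [mul_self_le_mul_self (by omega) this]
    · exact c
    · have : m' + n' + 1 ≤ m + n := c
      nlinarith [mul_self_le_mul_self (by omega) this]
  rw [e] at h
  omega

/-- code of a rational number -/
def code_Inj (x : ℚ) : ℤ := pair_Inj (2 * x.num ^ 2 + x.num) x.den

theorem g_nonneg_Inj (a : ℤ) : 0 ≤ 2 * a ^ 2 + a := by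
  rcases le_or_gt 0 a with h | h
  · positivity
  · nlinarith

theorem code_inj_Inj {x y : ℚ} (h : code_Inj x = code_Inj y) : x = y := by
  obtain ⟨e1, e2⟩ := pair_inj_Inj (g_nonneg_Inj _) (Int.natCast_nonneg _) (g_nonneg_Inj _)
    (Int.natCast_nonneg _) h
  have e3 : (x.num - y.num) * (2 * x.num + 2 * y.num + 1) = 0 := by linear_combination e1
  refine Rat.ext ?_ (by exact_mod_cast e2)
  rcases mul_eq_zero.1 e3 with c | c <;> omega

theorem graph_Inj {R : Subring ℚ} (D : Dio R)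
    (hZ : DQ R fun v : Fin 1 → ℚ => ∃ n : ℤ, v 0 = n) {ι : Type} (i j : ι) :
    DQ R fun v : ι → ℚ => v j = (code_Inj (v i) : ℚ) := by
  have hI : ∀ k : ι ⊕ Fin 4, DQ R fun v : ι ⊕ Fin 4 → ℚ => ∃ n : ℤ, v k = n := fun k =>
    app_Inj D (S := fun x => ∃ n : ℤ, x = n) hZ (D.proj k)
  have p : ∀ k : Fin 4, DF R fun v : ι ⊕ Fin 4 → ℚ => v (Sum.inr k) := fun k => D.proj _
  have hg := D.add (D.mul (D.const 2) (D.pow 2 (p 0))) (p 0)
  have key := D.exs (ι := ι) (κ := Fin 4)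
    (fun v w => (∃ n : ℤ, w 0 = n) ∧ (∃ n : ℤ, w 1 = n) ∧ (∃ n : ℤ, w 2 = n) ∧
      (∃ n : ℤ, w 3 = n) ∧ 1 ≤ w 1 ∧ w 2 * w 0 + w 3 * w 1 = 1 ∧ v i * w 1 = w 0 ∧
      v j = (2 * w 0 ^ 2 + w 0 + w 1) ^ 2 + (2 * w 0 ^ 2 + w 0))
    (D.and (hI _) (D.and (hI _) (D.and (hI _) (D.and (hI _) (D.and (D.le (D.const 1) (p 1))
      (D.and (D.eq (D.add (D.mul (p 2) (p 0)) (D.mul (p 3) (p 1))) (D.const 1))
        (D.and (D.eq (D.mul (D.proj (Sum.inl i)) (p 1)) (p 0))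
          (D.eq (D.proj (Sum.inl j)) (D.add (D.pow 2 (D.add hg (p 1))) hg)))))))))
  refine congr_Inj key fun v => ⟨?_, ?_⟩
  · rintro ⟨w, ⟨a, ha⟩, ⟨b, hb⟩, ⟨c, hc⟩, ⟨d, hd⟩, h1, h2, h3, h4⟩
    rw [ha, hb] at h3 h4
    rw [ha, hb, hc, hd] at h2
    rw [hb] at h1
    have hb0 : 0 < b := by exact_mod_cast (lt_of_lt_of_le one_pos h1)
    have hco : IsCoprime a b := ⟨c, d, by exact_mod_cast h2⟩
    have hco' : Nat.Coprime a.natAbs b.natAbs := Int.isCoprime_iff_gcd_eq_one.1 hco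
    have hx : v i = (a : ℚ) / b := eq_div_of_mul_eq (by positivity) h3
    rw [h4, hx, code_Inj, pair_Inj, Rat.num_div_eq_of_coprime hb0 hco',
      Rat.den_div_eq_of_coprime hb0 hco']
    push_cast
    ring
  · intro h
    obtain ⟨c, d, hcd⟩ := Rat.isCoprime_num_den (v i)
    refine ⟨![((v i).num : ℚ), ((v i).den : ℚ), c, d], ⟨_, rfl⟩, ⟨((v i).den : ℤ), rfl⟩,
      ⟨_, rfl⟩, ⟨_, rfl⟩, ?_, ?_, ?_, ?_⟩
    · show (1 : ℚ) ≤ ((v i).den : ℚ)
      exact_mod_cast (v i).pos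
    · show (c : ℚ) * ((v i).num : ℚ) + d * ((v i).den : ℚ) = 1
      exact_mod_cast hcd
    · exact Rat.mul_den_eq_num (v i)
    · show v j = (2 * ((v i).num : ℚ) ^ 2 + (v i).num + ((v i).den : ℚ)) ^ 2 +
        (2 * ((v i).num : ℚ) ^ 2 + (v i).num)
      rw [h, code_Inj, pair_Inj]
      push_cast
      ring

theorem inj (h : DioStmt) : InjStmt := by
  intro R S x₀ io hio hS h1 h2
  have D := h R
  have hZ := int_Inj D S x₀ io hio hS h1 h2
  refine ⟨hZ, fun q => pair_Inj (code_Inj q.1) (code_Inj q.2), ?_, ?_⟩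
  · intro q q' e
    have hn : ∀ x, 0 ≤ code_Inj x := fun x => pair_nonneg_Inj (g_nonneg_Inj _)
    obtain ⟨e1, e2⟩ := pair_inj_Inj (hn _) (hn _) (hn _) (hn _) e
    exact Prod.ext (code_inj_Inj e1) (code_inj_Inj e2)
  · have c : ∀ i : Fin 3, DF R fun v : Fin 3 → ℚ => (code_Inj (v i) : ℚ) := fun i =>
      graph_Inj D hZ (some i) none
    refine congr_Inj (D.eq (D.proj 2) (D.add (D.pow 2 (D.add (c 0) (c 1))) (c 0))) fun v => ?_
    simp [pair_Inj]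

end Pool.Agent.MP_adc87d_lc.Big

end
end

section

/-! Two divisibility statements obtained from the formal group. -/

set_option autoImplicit false

noncomputable section

namespace Pool.Agent.MP_adc87d_lc.Big

section

variable {p : ℕ} [Fact p.Prime]

theorem add_SEH {x y : ℚ_[p]} {r : ℝ} (hx : ‖x‖ ≤ r) (hy : ‖y‖ ≤ r) : ‖x + y‖ ≤ r :=
  (Padic.nonarchimedean x y).trans (max_le hx hy)

theorem sub_SEH {x y : ℚ_[p]} {r : ℝ} (hx : ‖x‖ ≤ r) (hy : ‖y‖ ≤ r) : ‖x - y‖ ≤ r := by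
  rw [sub_eq_add_neg]
  exact add_SEH hx (by rwa [norm_neg])

theorem mul_SEH (k : ℤ) {x : ℚ_[p]} {r : ℝ} (hx : ‖x‖ ≤ r) : ‖(k : ℚ_[p]) * x‖ ≤ r := by
  rw [norm_mul]
  exact (mul_le_of_le_one_left (norm_nonneg _) (Padic.norm_int_le_one k)).trans hx

theorem num_SEH (y : ℚ) : ((y.num : ℤ) : ℚ_[p]) = ((y.den : ℤ) : ℚ_[p]) * (y : ℚ_[p]) := by
  have := congrArg (fun q : ℚ => (q : ℚ_[p])) (Rat.den_mul_eq_num y)
  push_cast at this ⊢
  exact this.symm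

theorem loc_SEH (p : ℕ) [Fact p.Prime] {b : ℚ} (hb : b ≠ 0) :
    ((db b : ℚ) : ℚ_[p]) ≠ 0 ∧ ∃ τ : Pt (db b) →+ Pt ((db b : ℚ) : ℚ_[p]), Function.Injective τ ∧
      (∀ R, px (τ R) = (px R : ℚ)) ∧ ∀ R, zc (τ R) = (zc R : ℚ) := by
  have h0 : ((db b : ℚ) : ℚ_[p]) ≠ 0 := by
    rw [Rat.cast_ne_zero, db]
    exact mul_ne_zero (by norm_num) (pow_ne_zero _ hb)
  obtain ⟨τ, h1, h2, h3⟩ := exists_scale (d := db b) (Rat.castHom ℚ_[p]) one_ne_zero h0 (by simp)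
  refine ⟨h0, τ, h1, fun R => by simp [h2], fun R => by simp [zc, h2, h3]⟩

theorem dn_SEH {b : ℚ} (h : ‖(b : ℚ_[p])‖ ≤ 1) : ‖((db b : ℚ) : ℚ_[p])‖ ≤ 1 := by
  have e : ((db b : ℚ) : ℚ_[p]) = ((-368 : ℤ) : ℚ_[p]) * (b : ℚ_[p]) ^ 2 := by
    unfold db
    push_cast
    ring
  rw [e]
  refine mul_SEH _ ?_
  rw [norm_pow]
  exact pow_le_one₀ (norm_nonneg _) h

end

theorem px_SEH {b : ℚ} (hb : b ≠ 0) {P : Pt (db b)} (hP : P ≠ 0) : px P ≠ 0 := fun h => by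
  have : py P ^ 2 = px P ^ 3 + -368 * b ^ 2 := eqn hP
  rw [h] at this
  nlinarith [sq_nonneg (py P), sq_pos_of_ne_zero hb]

theorem deep_SEH (h1 : L1Stmt) {p : ℕ} [Fact p.Prime] {d : ℚ_[p]} (h0 : d ≠ 0) (hd : ‖d‖ ≤ 1)
    {P : Pt d} (hP : P ≠ 0) (hx : px P ≠ 0) {r : ℝ} (r0 : 0 ≤ r) (r1 : r < 1)
    (h : ‖(px P)⁻¹‖ ≤ r ^ 2) : E1 P ∧ ‖zc P‖ ≤ r ∧ zc P ≠ 0 := by
  rw [norm_inv] at h
  have a0 : 0 < ‖px P‖ := norm_pos_iff.2 hx
  have a1 : E1 P := .inr ((inv_lt_one₀ a0).1 (h.trans_lt (pow_lt_one₀ r0 r1 two_ne_zero)))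
  have a2 := ((h1 p d h0 hd).1 P hP a1).2
  refine ⟨a1, le_of_pow_le_pow_left₀ two_ne_zero r0 ?_, fun h => by simp [h] at a2⟩
  rwa [eq_inv_of_mul_eq_one_right a2]

theorem dvd_SEH {y : ℚ} {i : ℤ}
    (h : ∀ (p : ℕ) [Fact p.Prime], ‖(y : ℚ_[p])‖ < 1 → ‖(i : ℚ_[p])‖ ≤ ‖(y : ℚ_[p])‖) :
    y.num ∣ i := by
  rw [← Int.natAbs_dvd_natAbs, Nat.dvd_iff_prime_pow_dvd_dvd]
  intro p k hp hk
  rcases k.eq_zero_or_pos with rfl | k0
  · simp
  have := Fact.mk hp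
  have a1 : (p : ℤ) ^ k ∣ y.num := by exact_mod_cast Int.natCast_dvd.2 hk
  have a2 : ‖((y.den : ℤ) : ℚ_[p])‖ = 1 := by
    rw [Int.cast_natCast, Padic.norm_natCast_eq_one_iff]
    exact y.reduced.coprime_dvd_left ((dvd_pow_self p k0.ne').trans hk)
  have a3 : ‖((y.num : ℤ) : ℚ_[p])‖ = ‖(y : ℚ_[p])‖ := by rw [num_SEH, norm_mul, a2, one_mul]
  have a4 := h p (a3 ▸ Padic.norm_intCast_lt_one_iff.2 ((dvd_pow_self _ k0.ne').trans a1))
  rw [← Int.natCast_dvd]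
  exact_mod_cast (Padic.norm_int_le_pow_iff_dvd i k).1
    (a4.trans (a3 ▸ (Padic.norm_int_le_pow_iff_dvd _ k).2 a1))

theorem vis_SEH (h4 : VisStmt) {D : Dat} {W : Set ℕ} (hG : Good D W) {j : ℤ} (hj : j ≠ 0) (p : ℕ)
    [Fact p.Prime] (h : ‖((px (((3 : ℤ) ^ D.K * j) • D.G) : ℚ) : ℚ_[p])‖ < 1) :
    ¬p ∣ 2 * 3 * 7 * 23 ∧ p ∉ W := by
  obtain ⟨b1, -, b3, -, b5, -⟩ := hG.base
  have a1 : ¬p ∣ 2 * 3 * 7 * 23 := fun hp => (b5 p hp j hj).not_gt h
  have e : (3 ^ D.K : ℕ) • j • D.G = ((3 : ℤ) ^ D.K * j) • D.G := by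
    rw [mul_smul, ← natCast_zsmul]
    push_cast
    rfl
  refine ⟨a1, fun hp => h4 p D.k D.K (by have := hG.two; omega) b1 a1 (j • D.G) ?_ ?_ (hG.hi hp).2⟩
  · rw [e]
    exact b3 _ (mul_ne_zero (pow_ne_zero _ (by norm_num)) hj)
  · rwa [e]

theorem se (h1 : L1Stmt) (h2 : L2Stmt) (h3 : L3Stmt) (h4 : VisStmt) : SEStmt := by
  intro D W hG i j hi hj hD
  refine dvd_SEH fun p _ hy => ?_
  obtain ⟨v1, v2⟩ := vis_SEH h4 hG hj p hy
  have b3 := hG.base.2.2.1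
  have h49 : (49 : ℚ) ≠ 0 := by norm_num
  obtain ⟨d0, τ, t1, t2, -⟩ := loc_SEH p h49
  have d1 : ‖((db (49 : ℚ) : ℚ) : ℚ_[p])‖ ≤ 1 := dn_SEH (by
    exact_mod_cast Padic.norm_int_le_one (p := p) 49)
  have d6 : ‖6 * ((db (49 : ℚ) : ℚ) : ℚ_[p])‖ = 1 := by
    have e : 6 * ((db (49 : ℚ) : ℚ) : ℚ_[p]) = -((5301408 : ℕ) : ℚ_[p]) := by
      unfold db
      push_cast
      norm_num
    rw [e, norm_neg, Padic.norm_natCast_eq_one_iff]
    exact (((Nat.Prime.coprime_iff_not_dvd Fact.out).2 v1).pow_right 5).coprime_dvd_right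
      (by norm_num)
  set N : ℤ := 3 ^ D.K * j with hN
  have N0 : N ≠ 0 := mul_ne_zero (pow_ne_zero _ (by norm_num)) hj
  have tz : ∀ n : ℤ, n ≠ 0 → τ (n • D.G) ≠ 0 := fun n hn h => b3 n hn (t1 (h.trans τ.map_zero.symm))
  have tx : ∀ n : ℤ, n ≠ 0 → px (τ (n • D.G)) ≠ 0 := fun n hn => by
    rw [t2, Rat.cast_ne_zero]
    exact px_SEH h49 (b3 n hn)
  have y0 : 0 < ‖((px (N • D.G) : ℚ) : ℚ_[p])‖ := by
    rw [← t2]
    exact norm_pos_iff.2 (tx N N0)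
  obtain ⟨-, c2, c3⟩ := (h3 p _ d0 d1).2.2 (τ (N • D.G)) (tz N N0) (tx N N0) d6 (by rwa [t2])
  rw [t2] at c3
  have a1 := hD p v2 (by
    push_cast
    rw [norm_pow]
    exact pow_lt_one₀ y0.le hy four_ne_zero)
  push_cast at a1
  rw [norm_pow, ← t2] at a1
  obtain ⟨a2, a3, -⟩ := deep_SEH h1 d0 d1 (tz i hi) (tx i hi) (sq_nonneg _)
    (pow_lt_one₀ y0.le hy two_ne_zero) (a1.trans_eq (by ring))
  rw [map_zsmul, ← natCast_zsmul, ← mul_smul] at c2 c3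
  rw [map_zsmul] at a2 a3
  generalize τ D.G = G at c2 c3 a2 a3
  have g1 : E1 ((Int.gcd i ((3 : ℕ) * N) : ℤ) • G) := by
    rw [Int.gcd_eq_gcd_ab, add_smul, mul_comm i, mul_comm (((3 : ℕ) : ℤ) * N), mul_smul,
      mul_smul _ (((3 : ℕ) : ℤ) * N)]
    exact ((h1 p _ d0 d1).2 _ _ _ (h2 p _ d0 d1 _ a2 _).1 (h2 p _ d0 d1 _ c2 _).1
      (le_max_left _ _) (le_max_right _ _)).1
  obtain ⟨i', n', -, e1, e2⟩ := Int.exists_gcd_one (Int.gcd_pos_of_ne_zero_left ((3 : ℕ) * N) hi)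
  generalize (Int.gcd i ((3 : ℕ) * N) : ℤ) = g at g1 e1 e2
  rw [e2, mul_smul, (h2 p _ d0 d1 _ g1 n').2.2.1] at c3
  rw [e1, mul_smul, (h2 p _ d0 d1 _ g1 i').2.2.1] at a3
  have f1 := mul_le_of_le_one_left (norm_nonneg (zc (g • G))) (Padic.norm_int_le_one (p := p) n')
  have f2 := mul_le_mul_of_nonneg_left (c3 ▸ f1) (norm_nonneg (i' : ℚ_[p]))
  rw [e1, Int.cast_mul, mul_comm]
  exact mul_SEH g (le_of_mul_le_mul_right (f2.trans (a3.trans_eq (sq _))) y0)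

theorem sh (h1 : L1Stmt) (h2 : L2Stmt) (h4 : VisStmt) (h5 : RkStmt) : SHStmt := by
  intro D W hG j b x P Q hj hb hn ⟨hP, hQ, c1, c2, c3⟩
  set y := px (((3 : ℤ) ^ D.K * j) • D.G) with hy
  have key : ∀ (p : ℕ) [Fact p.Prime], ‖(y : ℚ_[p])‖ < 1 → p ∉ W ∧ ∃ (d : ℚ_[p])
      (τ : Pt (db b) →+ Pt d), d ≠ 0 ∧ ‖d‖ ≤ 1 ∧ Function.Injective τ ∧
      (∀ R, zc (τ R) = (zc R : ℚ)) ∧ E1 (τ P) ∧ E1 (τ Q) ∧ ‖zc (τ P)‖ ≤ ‖(y : ℚ_[p])‖ ∧
      zc (τ P) ≠ 0 := fun p _ h => by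
    obtain ⟨v1, v2⟩ := vis_SEH h4 hG hj p h
    obtain ⟨d0, τ, t1, t2, t3⟩ := loc_SEH p hb.1
    have d1 := dn_SEH (hn p v2 fun h7 => v1 (by rw [h7]; norm_num)).le
    have a : ∀ R : Pt (db b), R ≠ 0 → Dv W (y ^ 2) (px R)⁻¹ →
        E1 (τ R) ∧ ‖zc (τ R)‖ ≤ ‖(y : ℚ_[p])‖ ∧ zc (τ R) ≠ 0 := fun R hR hD => by
      have a1 := hD p v2 (by
        push_cast
        rw [norm_pow]
        exact pow_lt_one₀ (norm_nonneg _) h two_ne_zero)
      push_cast at a1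
      rw [norm_pow, ← t2] at a1
      exact deep_SEH h1 d0 d1 (fun h => hR (t1 (h.trans τ.map_zero.symm)))
        (by rw [t2, Rat.cast_ne_zero]; exact px_SEH hb.1 hR) (norm_nonneg _) h a1
    exact ⟨v2, _, τ, d0, d1, t1, t3, (a P hP c1).1, (a Q hQ c2).1, (a P hP c1).2⟩
  by_cases hp : ∃ (p : ℕ) (_ : Fact p.Prime), ‖(y : ℚ_[p])‖ < 1
  swap
  · exact ⟨0, 0, by simp, fun n _ => dvd_SEH fun p i h => absurd ⟨p, i, h⟩ hp⟩
  obtain ⟨q, _, hq⟩ := hp
  obtain ⟨m, n, h0, e⟩ := (h5 b hb).2.1 P Q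
  have g0 : 0 < Int.gcd m n := Int.gcd_pos_iff.2 h0
  obtain ⟨c, a, hc, e1, e2⟩ := Int.exists_gcd_one g0
  have g1 : (Int.gcd m n : ℤ) ≠ 0 := by exact_mod_cast g0.ne'
  generalize (Int.gcd m n : ℤ) = g at e1 e2 g1
  have hac : a • Q = c • P := by
    obtain ⟨-, d, τ, d0, d1, t1, -, a1, a2, -⟩ := key q hq
    by_contra hne
    refine (h2 q d d0 d1 (a • τ Q + (-c) • τ P) ((h1 q d d0 d1).2 _ _ _ (h2 q d d0 d1 _ a2 _).1
      (h2 q d d0 d1 _ a1 _).1 (le_max_left _ _) (le_max_right _ _)).1 g).2.2.2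
      (fun h => hne (t1 ?_)) g1 ?_
    · rwa [neg_smul, ← sub_eq_add_neg, sub_eq_zero, ← map_zsmul, ← map_zsmul] at h
    · rw [neg_smul, ← sub_eq_add_neg, smul_sub, ← mul_smul, ← mul_smul, mul_comm g, mul_comm g,
        ← e1, ← e2, ← map_zsmul, ← map_zsmul, e, sub_self]
  refine ⟨a, c, hac, fun n hn' => dvd_SEH fun p _ h => ?_⟩
  obtain ⟨v2, d, τ, d0, d1, -, t3, a1, a2, a3, a4⟩ := key p h
  have f1 : ‖((a * n - c : ℤ) : ℚ_[p])‖ ≤ ‖(y : ℚ_[p])‖ := by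
    obtain ⟨k, hk⟩ := hn'
    rw [hk, mul_comm, Int.cast_mul, num_SEH]
    exact mul_SEH _ (mul_SEH _ le_rfl)
  have f2 : ‖(a : ℚ_[p])‖ = 1 := by
    refine (Padic.norm_int_le_one a).antisymm (not_lt.1 fun ha => ?_)
    obtain ⟨u, v, huv⟩ := Int.isCoprime_iff_gcd_eq_one.2 hc
    have e3 : (1 : ℚ_[p]) = (u * n + v : ℤ) * (a : ℚ_[p]) - u * ((a * n - c : ℤ) : ℚ_[p]) := by
      have := congrArg (fun k : ℤ => (k : ℚ_[p])) huv
      push_cast at this ⊢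
      linear_combination -this
    have := sub_SEH (mul_SEH (u * n + v) (le_max_left ‖(a : ℚ_[p])‖ ‖(y : ℚ_[p])‖))
      (mul_SEH u (f1.trans (le_max_right _ _)))
    rw [← e3, norm_one] at this
    exact (max_lt ha h).not_ge this
  obtain ⟨-, k1, k2, -⟩ := h2 p d d0 d1 _ a1 c
  obtain ⟨-, k3, k4, -⟩ := h2 p d d0 d1 _ a2 a
  rw [← map_zsmul, hac, map_zsmul] at k3 k4
  rw [k2, f2, one_mul] at k4
  have z0 : 0 < ‖zc (τ P)‖ := norm_pos_iff.2 a4
  have f3 : ‖zc (τ Q)‖ ≤ ‖zc (τ P)‖ :=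
    k4 ▸ mul_le_of_le_one_left z0.le (Padic.norm_int_le_one c)
  have f4 := sub_SEH k1 (k3.trans (pow_le_pow_left₀ (norm_nonneg _) f3 7))
  have f5 : ‖(a : ℚ_[p]) * (zc (τ Q) / zc (τ P)) - c‖ ≤ ‖(y : ℚ_[p])‖ := by
    rw [show (a : ℚ_[p]) * (zc (τ Q) / zc (τ P)) - c = (zc (c • τ P) - c * zc (τ P) -
      (zc (c • τ P) - a * zc (τ Q))) / zc (τ P) by field_simp; ring, norm_div, div_le_iff₀ z0]
    refine f4.trans ?_
    rw [pow_succ]
    exact mul_le_mul_of_nonneg_right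
      ((pow_le_of_le_one z0.le (a3.trans h.le) (by norm_num)).trans a3) z0.le
  have f6 := c3 p v2 h
  push_cast at f6 f1
  rw [← t3, ← t3] at f6
  have f7 := sub_SEH (sub_SEH f5 (mul_SEH a f6)) f1
  rw [show (a : ℚ_[p]) * (zc (τ Q) / zc (τ P)) - c - a * (zc (τ Q) / zc (τ P) - x) - (a * n - c) =
    a * (x - n) by ring, norm_mul, f2, one_mul] at f7
  rw [Int.cast_sub, Int.cast_mul, num_SEH, mul_comm (n : ℚ_[p]), ← mul_sub]
  exact mul_SEH _ f7

end Pool.Agent.MP_adc87d_lc.Big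

end
end

section

/-! The steps of parts A and B put together. -/

set_option autoImplicit false

namespace Pool.Agent.MP_adc87d_lc.Big

theorem l2A : L2Stmt := l2 l1
theorem l3A : L3Stmt := l3 l1
theorem l4A : L4Stmt := l4 l1 l2A l3A
theorem rkA : RkStmt := rk d1 d2 iso cls
theorem visA : VisStmt := vis l1 l2A l3A cnt (red l1 l3A)
theorem cmpA : CmpStmt := cmp l3A
theorem formA : FormStmt := form dio (dvs dio) (pts dio)
theorem baseA : BaseStmt := base iso rkA l4A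

theorem soundA : SoundStmt :=
  sound ht cyc visA nice (sg l1 l2A l3A visA cmpA) (se l1 l2A l3A visA) (sh l1 l2A visA rkA)

theorem complA (h : ThmC) : ComplStmt :=
  compl l4A cyc nice (ct l2A rkA h cp) (cg l1 l2A l3A cmpA) (ch l1 l2A l3A cmpA rkA)

end Pool.Agent.MP_adc87d_lc.Big

end
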