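import Mathlib
import Pool.Agent.Mg.Fadc87d.G0908ea

set_option linter.all false

section

/-! The sieve model has mass on every good plane. -/

set_option autoImplicit false

noncomputable section

open Finset
open scoped Classical

namespace Pool.Agent.MP_adc87d_lc.Big

open Pool.Agent.MP_2a1f0e_nt (ex)

theorem emb_CLow {s t : ℤ} (hs : 0 < s) (ht : 50 * |t| ≤ s) :
    0 < xr ⟨s, -t, 0⟩ ∧ |eta ⟨s, -t, 0⟩| ≤ Real.log 16 / (3 * Real.log thr) := by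
  have hs' : (0 : ℝ) < s := by exact_mod_cast hs
  have ht' : 50 * |(t : ℝ)| ≤ s := by exact_mod_cast ht
  have g1 := thr_gt
  have g2 := thr_lt
  have a1 := le_abs_self (t : ℝ)
  have a2 := neg_abs_le (t : ℝ)
  have a0 := abs_nonneg (t : ℝ)
  have hx : xr ⟨s, -t, 0⟩ = s - t * thr := by rw [xr_apply]; push_cast; ring
  have hz : zr ⟨s, -t, 0⟩ = s - t * zt := by rw [zr_apply]; push_cast; ring
  have x1 : (s : ℝ) / 2 ≤ xr ⟨s, -t, 0⟩ := by rw [hx]; nlinarith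
  have x2 : xr ⟨s, -t, 0⟩ ≤ 2 * s := by rw [hx]; nlinarith
  have n1 : ‖zt‖ ≤ 1 := by
    have := norm_zt_sq
    have h0 := norm_nonneg zt
    by_contra hc
    rw [not_le] at hc
    nlinarith
  have n2 : ‖(t : ℂ) * zt‖ ≤ |(t : ℝ)| := by
    rw [norm_mul, Complex.norm_intCast]
    exact mul_le_of_le_one_right a0 n1
  have n3 : ‖(s : ℂ)‖ = s := by rw [Complex.norm_intCast, abs_of_pos hs']
  have z1 : (s : ℝ) / 2 ≤ ‖zr ⟨s, -t, 0⟩‖ := by
    have := norm_sub_norm_le (s : ℂ) (t * zt)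
    rw [hz]; linarith
  have z2 : ‖zr ⟨s, -t, 0⟩‖ ≤ 2 * s := by
    have := norm_sub_le (s : ℂ) (t * zt)
    rw [hz]; linarith
  refine ⟨by linarith, ?_⟩
  have hl := log_thr_pos
  rw [eta_eq, abs_div, abs_of_pos (by positivity : 0 < 3 * Real.log thr)]
  refine div_le_div_of_nonneg_right ?_ (by positivity)
  generalize xr ⟨s, -t, 0⟩ = X at x1 x2
  generalize ‖zr ⟨s, -t, 0⟩‖ = Z at z1 z2
  have hX : 0 < X := by linarith
  have hZ : 0 < Z := by linarith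
  rw [abs_le, ← Real.log_inv]
  constructor
  · refine Real.log_le_log (by norm_num) ?_
    rw [le_div_iff₀ (by positivity)]
    nlinarith
  · refine Real.log_le_log (by positivity) ?_
    rw [div_le_iff₀ (by positivity)]
    nlinarith

theorem xr_mu_CLow : 0 < xr mu := by
  have := thr_gt
  rw [xr_apply]
  simp only [mu]
  push_cast
  linarith

theorem point_CLow {k q p : ℕ} {s₀ t₀ s t : ℤ} {Y z : ℝ} {ρ : O} (hk : 2 ≤ k) (hp : p.Prime)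
    (hlo : Lo k p) (hρ : ρ ∈ Dn 0 p) (hco : IsCoprime mu ρ) (hd : ρ ∣ ⟨s, -t, 0⟩)
    (c1 : s ≡ s₀ [ZMOD q]) (c2 : t ≡ t₀ [ZMOD q]) (c3 : s ≡ -1 [ZMOD 3087])
    (c4 : t ≡ 4 [ZMOD 3087]) (hs : 0 < s) (ht : 50 * |t| ≤ s)
    (l1 : 49 * p * Y ^ 18 < ((fc s t : ℤ) : ℝ)) (l2 : ((fc s t : ℤ) : ℝ) ≤ 49 * p * (2 * Y ^ 18))
    (r1 : ∀ l : ℕ, l.Prime → (l : ℝ) ≤ z → ¬l ∣ 21 → ¬(l : ℤ) ∣ fc s t)
    (r2 : ∀ l : ℕ, l.Prime → z < l → ¬((l : ℤ) ∣ s ∧ (l : ℤ) ∣ t)) :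
    ∃ β : O, mu * ρ * β = ⟨s, -t, 0⟩ ∧
      β ∈ Rg (⌈Real.log 16 / (3 * Real.log thr) + |eta mu| + 1⌉₊ : ℕ) (Y ^ 18) (2 * Y ^ 18) ∧
      rv (mu * ρ) ⬝ᵥ vec β = 0 ∧ (q : O) ∣ mu * ρ * β - ⟨s₀, -t₀, 0⟩ ∧ Rough z β := by
  obtain ⟨⟨ρ1, ρ2, ρ3⟩, ρ4⟩ := mem_Dn.1 hρ
  obtain ⟨a, ha⟩ := c3.symm.dvd
  obtain ⟨b, hb⟩ := c4.symm.dvd
  have hmu : mu ∣ ⟨s, -t, 0⟩ := by
    have h1 : ((49 : ℤ) : O) ∣ ⟨s, -t, 0⟩ + mu := by
      rw [O.intCast_dvd]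
      simp only [mu, O.add_a, O.add_b, O.add_c]
      exact ⟨⟨63 * a, by linarith⟩, ⟨-63 * b, by linarith⟩, by simp⟩
    have h2 := dvd_Nm mu
    rw [Nm_mu] at h2
    exact (dvd_add_left dvd_rfl).1 (h2.trans h1)
  obtain ⟨β, hβ⟩ := hco.mul_dvd hmu hd
  obtain ⟨e1, e2⟩ := emb_CLow hs ht
  have hN : fc s t = 49 * p * Nm β := by rw [← Nm_lin, hβ, Nm_mul, Nm_mul, Nm_mu, ρ4]
  have hx : 0 < xr β := by
    rw [hβ, map_mul, map_mul] at e1
    exact (mul_pos_iff_of_pos_left (mul_pos xr_mu_CLow ρ1)).1 e1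
  have hp0 : (0 : ℝ) < 49 * p := by
    have : (0 : ℝ) < p := by exact_mod_cast hp.pos
    positivity
  have h63 : (63 : ℤ) ∣ p * Nm β + 1 := by
    have h1 : fc s t ≡ fc (-1) 4 [ZMOD 3087] := by
      simp only [fc]
      gcongr
    have h2 : (49 * 63 : ℤ) ∣ 49 * (p * Nm β + 1) := by
      have h3 := h1.symm.dvd
      rw [hN] at h3
      have e : 49 * (p * Nm β + 1) = 49 * p * Nm β - fc (-1) 4 := by simp only [fc]; ring
      rw [e]
      exact h3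
    exact Int.dvd_of_mul_dvd_mul_left (by norm_num) h2
  have hr : ∀ l : ℕ, l.Prime → (l : ℝ) ≤ z → ¬(l : ℤ) ∣ Nm β := by
    intro l hl hz hdv
    by_cases h21 : l ∣ 21
    · have h1 : (l : ℤ) ∣ 63 := (Int.natCast_dvd_natCast.2 h21).trans (by norm_num)
      have h2 := (dvd_add_right (hdv.mul_left p)).1 (h1.trans h63)
      exact hl.one_lt.ne' (by exact_mod_cast Int.eq_one_of_dvd_one (by positivity) h2)
    · exact r1 l hl hz h21 (hN ▸ hdv.mul_left _)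
  refine ⟨β, hβ.symm, mem_Rg.2 ⟨hx, ?_, ?_, ?_⟩, ?_, ?_, hr, ?_, ?_⟩
  · rw [hβ, eta_mul (mul_ne_zero (ne_of_xr_pos xr_mu_CLow) (ne_of_xr_pos ρ1)) (ne_of_xr_pos hx),
      eta_mul (ne_of_xr_pos xr_mu_CLow) (ne_of_xr_pos ρ1), abs_le] at e2
    refine le_trans ?_ (Nat.le_ceil _)
    have m1 := le_abs_self (eta mu)
    have m2 := neg_abs_le (eta mu)
    rw [abs_le]
    constructor <;> linarith [e2.1, e2.2]
  · rw [hN] at l1
    push_cast at l1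
    exact lt_of_mul_lt_mul_left l1 hp0.le
  · rw [hN] at l2
    push_cast at l2
    exact le_of_mul_le_mul_left l2 hp0
  · rw [rv_dot, ← hβ]
  · rw [← hβ, O.natCast_dvd]
    simp only [O.sub_a, O.sub_b, O.sub_c]
    refine ⟨c1.symm.dvd, ?_, by simp⟩
    have e : -t - -t₀ = t₀ - t := by ring
    rw [e]
    exact c2.dvd
  · intro l hl hv
    have h1 : (l : O) ∣ β := (O.natCast_dvd l β).2 ⟨hv 0, hv 1, hv 2⟩
    have h2 : (l : O) ∣ ⟨s, -t, 0⟩ := hβ ▸ h1.mul_left _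
    obtain ⟨u1, u2, -⟩ := (O.natCast_dvd l _).1 h2
    rcases le_or_gt (l : ℝ) z with hz | hz
    · obtain ⟨γ, rfl⟩ := h1
      refine hr l hl hz ?_
      rw [Nm_mul, Nm_nat]
      exact (dvd_pow_self _ (by norm_num)).mul_right _
    · exact r2 l hl hz ⟨u1, (dvd_neg).1 u2⟩
  · right
    have h9 : p % 9 = 1 := by
      have h3 : 9 ∣ 3 ^ k := (pow_dvd_pow 3 hk : 3 ^ 2 ∣ 3 ^ k)
      rw [← Nat.mod_mod_of_dvd p h3, hlo.1]
    obtain ⟨c, hc⟩ := h63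
    obtain ⟨m, hm⟩ : ∃ m : ℤ, (p : ℤ) = 9 * m + 1 := ⟨p / 9, by omega⟩
    rw [hm] at hc
    have e : Nm β = 9 * (7 * c - m * Nm β - 1) + 8 := by linear_combination hc
    omega

theorem clow (h1 : SplitStmt) (h2 : LowZStmt) : LowStmt := by
  refine ⟨⌈Real.log 16 / (3 * Real.log thr) + |eta mu| + 1⌉₊, fun k q b s₀ t₀ hk hq hc => ?_⟩
  obtain ⟨Y₀, hY⟩ := h2 k q b s₀ t₀ hk hq hc
  refine ⟨max Y₀ 2, fun Y hY' z p ρ z1 z2 hG hρ => ?_⟩
  have hp := hG.1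
  have h7 : p ≠ 7 := by
    rintro rfl
    have a1 : (2 : ℝ) ^ 30 ≤ Y ^ 30 := pow_le_pow_left₀ (by norm_num) (le_of_max_le_right hY') 30
    have a2 := hG.2.2.1
    norm_num at a1 a2
    linarith
  obtain ⟨-, -, h3, ν, h4, h5⟩ := (h1 p hp).2.2.2 ρ (mem_Dn.1 hρ).2
  obtain ⟨S, hS, hx⟩ := hY Y (le_of_max_le_left hY') z p ν z1 z2 hG h4
  refine hS.trans (Nat.cast_le.2 ?_)
  have key := fun x (h : x ∈ S) => point_CLow hk hp hG.2.1 hρ (h3 h7).2 (h5 _ _ (hx x h).1)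
    (hx x h).2.1 (hx x h).2.2.1 (hx x h).2.2.2.1 (hx x h).2.2.2.2.1 (hx x h).2.2.2.2.2.1
    (hx x h).2.2.2.2.2.2.2.1 (hx x h).2.2.2.2.2.2.2.2.1 (hx x h).2.2.2.2.2.2.2.2.2.1
    (hx x h).2.2.2.2.2.2.2.2.2.2.1 (hx x h).2.2.2.2.2.2.2.2.2.2.2
  choose! f hf using key
  refine card_le_card_of_injOn f (fun x h => ?_) fun x h y h' e => ?_
  · exact mem_coe.2 (mem_filter.2 (hf x h).2)
  · have e1 := (hf x h).1
    rw [e, (hf y h').1] at e1
    have e2 := congrArg O.a e1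
    have e3 := congrArg O.b e1
    exact Prod.ext e2.symm (neg_injective e3).symm

end Pool.Agent.MP_adc87d_lc.Big

end
end

section

/-! Fourier expansion of the condition that two vectors are proportional modulo `v`. -/

set_option autoImplicit false

noncomputable section

open Finset
open scoped Classical

namespace Pool.Agent.MP_adc87d_lc.Big

open Pool.Agent.MP_2a1f0e_nt (ex)

/-- the additive character modulo `u` -/
def E_CV3a (u : ℕ) (x : ℤ) : ℂ := ex ((x : ℝ) / u)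

lemma Eadd_CV3a (u : ℕ) (x y : ℤ) : E_CV3a u (x + y) = E_CV3a u x * E_CV3a u y := by
  unfold E_CV3a
  rw [← MP_2a1f0e_nt.ex_add, Int.cast_add, add_div]

lemma Enorm_CV3a (u : ℕ) (x : ℤ) : ‖E_CV3a u x‖ = 1 := MP_2a1f0e_nt.norm_ex _

lemma Eone_CV3a {u : ℕ} (hu : 1 ≤ u) (x : ℤ) : E_CV3a u x = 1 ↔ (u : ℤ) ∣ x := by
  have h0 : (u : ℝ) ≠ 0 := by positivity
  constructor
  · intro h
    obtain ⟨n, hn⟩ := Complex.exp_eq_one_iff.1 h
    have h1 := congrArg Complex.im hn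
    simp only [Complex.mul_im, Complex.I_re, Complex.ofReal_im, Complex.I_im, Complex.ofReal_re,
      Complex.intCast_re, Complex.intCast_im, Complex.mul_re, Complex.re_ofNat,
      Complex.im_ofNat] at h1
    have h2 : (x : ℝ) = u * n := by
      have := Real.pi_pos
      field_simp at h1
      nlinarith
    exact ⟨n, by exact_mod_cast h2⟩
  · rintro ⟨n, rfl⟩
    unfold E_CV3a
    rw [Int.cast_mul, Int.cast_natCast, mul_div_cancel_left₀ _ h0, MP_2a1f0e_nt.ex_int]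

lemma Econgr_CV3a {u : ℕ} (hu : 1 ≤ u) {x y : ℤ} (h : (u : ℤ) ∣ x - y) :
    E_CV3a u x = E_CV3a u y := by
  rw [show x = y + (x - y) by ring, Eadd_CV3a, (Eone_CV3a hu _).2 h, mul_one]

lemma Escale_CV3a {d : ℕ} (hd : 1 ≤ d) (u : ℕ) (x : ℤ) :
    E_CV3a (d * u) (d * x) = E_CV3a u x := by
  have h0 : (d : ℝ) ≠ 0 := by positivity
  unfold E_CV3a
  push_cast
  rw [mul_div_mul_left _ _ h0]

lemma Epow_CV3a (u n : ℕ) (x : ℤ) : E_CV3a u (n * x) = E_CV3a u x ^ n := by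
  unfold E_CV3a
  rw [← MP_2a1f0e_nt.ex_nat_mul]
  push_cast
  rw [mul_div_assoc]

lemma orth1_CV3a {v : ℕ} (hv : 1 ≤ v) (w : ℤ) :
    ∑ a ∈ Ico (0 : ℤ) v, E_CV3a v (a * w) = if (v : ℤ) ∣ w then (v : ℂ) else 0 := by
  have e : Ico (0 : ℤ) v = (range v).image Nat.cast := by
    ext a
    simp only [mem_Ico, mem_image, mem_range]
    constructor
    · intro h
      exact ⟨a.toNat, by omega, by omega⟩
    · rintro ⟨n, h, rfl⟩
      omega
  rw [e, sum_image fun a _ b _ h => by exact_mod_cast h]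
  simp only [Epow_CV3a]
  split_ifs with h
  · simp [(Eone_CV3a hv w).2 h]
  · have h1 := geom_sum_mul (E_CV3a v w) v
    rw [← Epow_CV3a, (Eone_CV3a hv _).2 (dvd_mul_right _ _), sub_self] at h1
    exact (mul_eq_zero.1 h1).resolve_right fun h2 => h ((Eone_CV3a hv w).1 (sub_eq_zero.1 h2))

lemma orth3_CV3a {v : ℕ} (hv : 1 ≤ v) (w : Fin 3 → ℤ) :
    ∑ a ∈ Cu v, E_CV3a v (a ⬝ᵥ w) = if ∀ i, (v : ℤ) ∣ w i then (v : ℂ) ^ 3 else 0 := by
  have e : ∀ a : Fin 3 → ℤ, E_CV3a v (a ⬝ᵥ w) = ∏ i, E_CV3a v (a i * w i) := fun a => by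
    simp only [dotProduct, Fin.sum_univ_three, Fin.prod_univ_three, Eadd_CV3a]
  simp only [e]
  rw [Cu, ← prod_univ_sum (fun _ => Ico (0 : ℤ) v) fun i a => E_CV3a v (a * w i)]
  simp only [orth1_CV3a hv]
  split_ifs with h
  · simp [h]
  · obtain ⟨i, hi⟩ := not_forall.1 h
    exact prod_eq_zero (mem_univ i) (if_neg hi)

lemma prim_dvd_CV3a {β : Fin 3 → ℤ} (hβ : Prim β) {v c : ℤ} (hv : v ≠ 0)
    (h : ∀ i, v ∣ c * β i) : v ∣ c := by
  obtain ⟨g, v', c', hg, h1, rfl, rfl⟩ := Int.exists_gcd_one' (Int.gcd_pos_of_ne_zero_left c hv)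
  have hg' : (g : ℤ) ≠ 0 := by positivity
  have h2 : ∀ i, v' ∣ β i := fun i => by
    have := h i
    rw [mul_right_comm, mul_dvd_mul_iff_right hg'] at this
    exact (Int.isCoprime_iff_gcd_eq_one.2 h1).dvd_of_dvd_mul_left this
  by_cases e : v'.natAbs = 1
  · exact mul_dvd_mul_right ((Int.isUnit_iff_natAbs_eq.2 e).dvd) _
  · obtain ⟨p, hp, hd⟩ := Nat.exists_prime_and_dvd e
    exact absurd (fun i => (Int.natCast_dvd.2 hd).trans (h2 i)) (hβ p hp)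

/-- the representative of a unit -/
def r_CV3a {v : ℕ} (l : (ZMod v)ˣ) : ℤ := ((l : ZMod v).val : ℤ)

lemma rcast_CV3a {v u : ℕ} [NeZero v] (h : u ∣ v) (l : (ZMod v)ˣ) :
    ((r_CV3a l : ℤ) : ZMod u) = ZMod.unitsMap h l := by
  rw [r_CV3a, Int.cast_natCast, ZMod.natCast_val, ZMod.unitsMap_val]

lemma rself_CV3a {v : ℕ} [NeZero v] (l : (ZMod v)ˣ) : ((r_CV3a l : ℤ) : ZMod v) = l := by
  rw [r_CV3a, Int.cast_natCast, ZMod.natCast_zmod_val]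

lemma ind_CV3a (h : V1Stmt) {v : ℕ} [NeZero v] {β γ : Fin 3 → ℤ} (hβ : Prim β) (hγ : Prim γ) :
    (if ∀ i, (v : ℤ) ∣ crossProduct β γ i then (v : ℂ) ^ 3 else 0) =
      ∑ l : (ZMod v)ˣ, if ∀ i, (v : ℤ) ∣ (γ - r_CV3a l • β) i then (v : ℂ) ^ 3 else 0 := by
  have h4 := h.2.2.2.1 β γ v hβ
  have hv : (v : ℤ) ≠ 0 := by exact_mod_cast NeZero.ne v
  split_ifs with hc
  · obtain ⟨l, hl⟩ := h4.1 hc
    have hcop : IsCoprime l v := by
      rw [Int.isCoprime_iff_gcd_eq_one]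
      by_contra e
      obtain ⟨p, hp, hd⟩ := Nat.exists_prime_and_dvd e
      have d1 : (p : ℤ) ∣ l := (Int.natCast_dvd_natCast.2 hd).trans (Int.gcd_dvd_left _ _)
      have d2 : (p : ℤ) ∣ v := (Int.natCast_dvd_natCast.2 hd).trans (Int.gcd_dvd_right _ _)
      refine hγ p hp fun i => ?_
      have := dvd_add (d2.trans (hl i)) (d1.mul_right (β i))
      rwa [sub_add_cancel] at this
    have key : ∀ m : (ZMod v)ˣ, (∀ i, (v : ℤ) ∣ (γ - r_CV3a m • β) i) ↔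
        m = ZMod.unitOfIsCoprime l hcop := fun m => by
      rw [Units.ext_iff, ZMod.coe_unitOfIsCoprime, ← rself_CV3a,
        ZMod.intCast_eq_intCast_iff_dvd_sub]
      constructor
      · intro hm
        refine prim_dvd_CV3a hβ hv fun i => ?_
        have := dvd_sub (hm i) (hl i)
        simp only [Pi.sub_apply, Pi.smul_apply, smul_eq_mul] at this
        rwa [show γ i - r_CV3a m * β i - (γ i - l * β i) = (l - r_CV3a m) * β i by ring] at this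
      · intro hm i
        have := dvd_add (hl i) (hm.mul_right (β i))
        simp only [Pi.sub_apply, Pi.smul_apply, smul_eq_mul]
        rwa [show γ i - l * β i + (l - r_CV3a m) * β i = γ i - r_CV3a m * β i by ring] at this
    simp only [key]
    rw [sum_ite_eq']
    simp
  · exact (sum_eq_zero fun l _ => if_neg fun hl => hc (h4.2 ⟨r_CV3a l, hl⟩)).symm

lemma Ex_CV3a (S : Finset (Fin 3 → ℤ)) (g : (Fin 3 → ℤ) → ℝ) (a : Fin 3 → ℤ) (v : ℕ) :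
    Ex S g a v = ∑ β ∈ S, (g β : ℂ) * E_CV3a v (a ⬝ᵥ β) := rfl

lemma expand_CV3a (h : V1Stmt) (S : Finset (Fin 3 → ℤ)) (g g' : (Fin 3 → ℤ) → ℝ) {v : ℕ}
    [NeZero v] (hS : ∀ β ∈ S, Prim β) : (Ev S g g' v : ℂ) * (v : ℂ) ^ 3 =
      ∑ a ∈ Cu v, Ex S g' a v * ∑ l : (ZMod v)ˣ, Ex S g (-r_CV3a l • a) v := by
  have hv : 1 ≤ v := NeZero.pos v
  have e1 : (Ev S g g' v : ℂ) * (v : ℂ) ^ 3 = ∑ β ∈ S, ∑ γ ∈ S, ∑ l : (ZMod v)ˣ, ∑ a ∈ Cu v,
      (g' γ * E_CV3a v (a ⬝ᵥ γ)) * (g β * E_CV3a v ((-r_CV3a l • a) ⬝ᵥ β)) := by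
    rw [Ev]
    push_cast
    rw [sum_mul]
    refine sum_congr rfl fun β hβ => ?_
    rw [sum_mul]
    refine sum_congr rfl fun γ hγ => ?_
    have e2 : ∀ (l : (ZMod v)ˣ) (a : Fin 3 → ℤ),
        (g' γ * E_CV3a v (a ⬝ᵥ γ)) * (g β * E_CV3a v ((-r_CV3a l • a) ⬝ᵥ β)) =
          (g β * g' γ : ℂ) * E_CV3a v (a ⬝ᵥ (γ - r_CV3a l • β)) := fun l a => by
      rw [show a ⬝ᵥ (γ - r_CV3a l • β) = a ⬝ᵥ γ + (-r_CV3a l • a) ⬝ᵥ β by
        rw [dotProduct_sub, dotProduct_smul, smul_dotProduct, smul_eq_mul, smul_eq_mul]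
        ring, Eadd_CV3a]
      ring
    simp only [e2, ← mul_sum, orth3_CV3a hv]
    rw [← ind_CV3a h (hS β hβ) (hS γ hγ)]
    split_ifs <;> simp
  rw [e1]
  simp only [Ex_CV3a, sum_mul, mul_sum]
  refine (sum_congr rfl fun β _ => (sum_congr rfl fun γ _ => sum_comm).trans sum_comm).trans
    (sum_comm.trans (sum_congr rfl fun a _ => ?_))
  exact (sum_congr rfl fun β _ => sum_comm).trans sum_comm

lemma mem_Cu_CV3a {v : ℕ} {a : Fin 3 → ℤ} : a ∈ Cu v ↔ ∀ i, 0 ≤ a i ∧ a i < v := by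
  simp [Cu, Fintype.mem_piFinset]

lemma card_Cp_CV3a (u : ℕ) : (Cp u).card ≤ u ^ 3 := by
  refine (card_filter_le _ _).trans ?_
  simp [Cu]

lemma split_CV3a (v : ℕ) : 1 ≤ v → ∀ a ∈ Cu v, ∃ (d u : ℕ) (b : Fin 3 → ℤ), v = d * u ∧
    b ∈ Cp u ∧ a = (d : ℤ) • b := by
  induction v using Nat.strong_induction_on with
  | _ v ih =>
    intro hv a ha
    by_cases e : a ∈ Cp v
    · exact ⟨1, v, a, (one_mul v).symm, e, by simp⟩
    · obtain ⟨p, hp, ⟨v', rfl⟩, hd⟩ : ∃ p : ℕ, p.Prime ∧ p ∣ v ∧ ∀ i, (p : ℤ) ∣ a i := by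
        by_contra hc
        exact e (mem_filter.2 ⟨ha, fun p hp hd h => hc ⟨p, hp, hd, h⟩⟩)
      choose b hb using hd
      have p2 := hp.two_le
      have h1 : 1 ≤ v' := Nat.pos_of_mul_pos_left hv
      have p0 : (0 : ℤ) < p := by omega
      obtain ⟨d, u, c, h2, h3, h4⟩ := ih v' (by nlinarith) h1 b (mem_Cu_CV3a.2 fun i => by
        have := mem_Cu_CV3a.1 ha i
        rw [hb i, Nat.cast_mul] at this
        exact ⟨nonneg_of_mul_nonneg_right this.1 p0,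
          lt_of_mul_lt_mul_left this.2 p0.le⟩)
      refine ⟨p * d, u, c, by rw [h2, mul_assoc], h3, funext fun i => ?_⟩
      rw [hb i, h4]
      simp [mul_assoc]

lemma Exscale_CV3a (S : Finset (Fin 3 → ℤ)) (g : (Fin 3 → ℤ) → ℝ) {d : ℕ} (hd : 1 ≤ d) (u : ℕ)
    (a : Fin 3 → ℤ) : Ex S g ((d : ℤ) • a) (d * u) = Ex S g a u := by
  simp only [Ex_CV3a, smul_dotProduct, smul_eq_mul, Escale_CV3a hd]

lemma dot_CV3a {u : ℤ} (a : Fin 3 → ℤ) {β γ : Fin 3 → ℤ} (h : ∀ i, u ∣ β i - γ i) :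
    u ∣ a ⬝ᵥ β - a ⬝ᵥ γ := by
  rw [← dotProduct_sub]
  exact dvd_sum fun i _ => (h i).mul_left _

lemma perm_CV3a (S : Finset (Fin 3 → ℤ)) (g : (Fin 3 → ℤ) → ℝ) {u : ℕ} (hu : 1 ≤ u) {m : ℤ}
    (hm : IsCoprime m u) :
    ∑ a ∈ Cp u, ‖Ex S g (m • a) u‖ ^ 2 ≤ ∑ a ∈ Cp u, ‖Ex S g a u‖ ^ 2 := by
  have u0 : (0 : ℤ) < u := by omega
  have hd : ∀ (a : Fin 3 → ℤ) (i : Fin 3), (u : ℤ) ∣ m * a i - m * a i % u := fun a i =>
    Int.dvd_self_sub_emod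
  have e : ∀ a : Fin 3 → ℤ, Ex S g (m • a) u = Ex S g (fun i => m * a i % u) u := fun a => by
    refine sum_congr rfl fun β _ => congrArg _ (Econgr_CV3a hu ?_)
    rw [dotProduct_comm, dotProduct_comm _ β]
    exact dot_CV3a β (hd a)
  simp only [e]
  rw [← sum_image (s := Cp u) (g := fun (a : Fin 3 → ℤ) i => m * a i % u)
    (f := fun a => ‖Ex S g a u‖ ^ 2)]
  · refine sum_le_sum_of_subset_of_nonneg (fun b hb => ?_) fun _ _ _ => by positivity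
    obtain ⟨a, ha, rfl⟩ := mem_image.1 hb
    refine mem_filter.2 ⟨mem_Cu_CV3a.2 fun i => ⟨Int.emod_nonneg _ u0.ne', Int.emod_lt_of_pos _ u0⟩,
      fun p hp hpu h => (mem_filter.1 ha).2 p hp hpu fun i => ?_⟩
    have d1 : (p : ℤ) ∣ u := Int.natCast_dvd_natCast.2 hpu
    have := dvd_add (d1.trans (hd a i)) (h i)
    rw [sub_add_cancel] at this
    exact (hm.of_isCoprime_of_dvd_right d1).symm.dvd_of_dvd_mul_left this
  · intro a ha b hb h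
    funext i
    have h1 : m * a i % u = m * b i % u := congrFun h i
    have h2 : (u : ℤ) ∣ m * (b i - a i) := by
      rw [mul_sub]
      exact Int.ModEq.dvd h1
    have h3 := hm.symm.dvd_of_dvd_mul_left h2
    have h4 := mem_Cu_CV3a.1 (mem_filter.1 ha).1 i
    have h5 := mem_Cu_CV3a.1 (mem_filter.1 hb).1 i
    have := Int.eq_zero_of_abs_lt_dvd h3 (by rw [abs_lt]; omega)
    omega

lemma card_CV3a (v : ℕ) [NeZero v] : (Fintype.card (ZMod v)ˣ : ℝ) ≤ v := by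
  rw [ZMod.card_units_eq_totient]
  exact_mod_cast Nat.totient_le v

lemma small_CV3a (S : Finset (Fin 3 → ℤ)) (g : (Fin 3 → ℤ) → ℝ) {v u : ℕ} [NeZero v]
    (hu : u ∣ v) {η : ℝ} (_hη : 0 ≤ η)
    (H : ∀ T : (Fin 3 → ℤ) → ℂ, ProjV u T → ‖∑ β ∈ S, (g β : ℂ) * T β‖ ≤ η) (a : Fin 3 → ℤ) :
    ‖∑ l : (ZMod v)ˣ, Ex S g (-r_CV3a l • a) u‖ ≤ v * η := by
  have u1 : 1 ≤ u := Nat.pos_of_dvd_of_pos hu (NeZero.pos v)
  obtain ⟨c, hc⟩ : ∃ c : ℕ, c = Fintype.card (ZMod v)ˣ := ⟨_, rfl⟩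
  have c0 : (0 : ℝ) < c := by
    rw [hc]
    exact_mod_cast Fintype.card_pos
  have c1 : (c : ℂ) ≠ 0 := by exact_mod_cast c0.ne'
  have h1 := H (fun β => (∑ l : (ZMod v)ˣ, E_CV3a u ((-r_CV3a l • a) ⬝ᵥ β)) / c)
    ⟨fun β γ h => ?_, fun n β hn => ?_, fun β => ?_⟩
  · have e : ∑ l : (ZMod v)ˣ, Ex S g (-r_CV3a l • a) u = c * ∑ β ∈ S, (g β : ℂ) *
        ((∑ l : (ZMod v)ˣ, E_CV3a u ((-r_CV3a l • a) ⬝ᵥ β)) / c) := by
      simp only [Ex_CV3a]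
      rw [sum_comm, mul_sum]
      refine sum_congr rfl fun β _ => ?_
      rw [← mul_sum]
      field_simp
    rw [e, norm_mul, Complex.norm_natCast]
    exact mul_le_mul (hc ▸ card_CV3a v) h1 (norm_nonneg _) (by positivity)
  · exact congrArg (· / (c : ℂ)) (sum_congr rfl fun l _ => Econgr_CV3a u1 (dot_CV3a _ h))
  · obtain ⟨k, hk⟩ := ZMod.unitsMap_surjective hu (ZMod.unitOfIsCoprime n hn)
    refine congrArg (· / (c : ℂ)) ?_
    rw [← Equiv.sum_comp (Equiv.mulRight k) fun l => E_CV3a u ((-r_CV3a l • a) ⬝ᵥ β)]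
    refine sum_congr rfl fun l _ => Econgr_CV3a u1 ?_
    have h2 : (u : ℤ) ∣ r_CV3a (l * k) - r_CV3a l * n := by
      rw [← ZMod.intCast_eq_intCast_iff_dvd_sub, Int.cast_mul, rcast_CV3a hu, rcast_CV3a hu,
        map_mul, hk, Units.val_mul, ZMod.coe_unitOfIsCoprime]
    have := h2.mul_right (a ⬝ᵥ β)
    simp only [smul_dotProduct, dotProduct_smul, smul_eq_mul, Equiv.coe_mulRight]
    rwa [show n * (-r_CV3a l * a ⬝ᵥ β) - -r_CV3a (l * k) * a ⬝ᵥ β =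
      (r_CV3a (l * k) - r_CV3a l * n) * a ⬝ᵥ β by ring]
  · rw [norm_div, Complex.norm_natCast, div_le_one c0]
    refine (norm_sum_le _ _).trans ?_
    simp [Enorm_CV3a, hc]

lemma large_CV3a (S : Finset (Fin 3 → ℤ)) (g g' : (Fin 3 → ℤ) → ℝ) {v u : ℕ} [NeZero v]
    (hu : u ∣ v) : ∑ a ∈ Cp u, ‖Ex S g' a u‖ * ‖∑ l : (ZMod v)ˣ, Ex S g (-r_CV3a l • a) u‖ ≤
      v * ∑ a ∈ Cp u, (‖Ex S g a u‖ ^ 2 + ‖Ex S g' a u‖ ^ 2) := by
  have u1 : 1 ≤ u := Nat.pos_of_dvd_of_pos hu (NeZero.pos v)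
  calc _ ≤ ∑ a ∈ Cp u, ∑ l : (ZMod v)ˣ, (‖Ex S g (-r_CV3a l • a) u‖ ^ 2 + ‖Ex S g' a u‖ ^ 2) := by
        refine sum_le_sum fun a _ =>
          (mul_le_mul_of_nonneg_left (norm_sum_le _ _) (norm_nonneg _)).trans ?_
        rw [mul_sum]
        refine sum_le_sum fun l _ => ?_
        nlinarith [sq_nonneg (‖Ex S g (-r_CV3a l • a) u‖ - ‖Ex S g' a u‖),
          mul_nonneg (norm_nonneg (Ex S g (-r_CV3a l • a) u)) (norm_nonneg (Ex S g' a u))]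
    _ ≤ ∑ _l : (ZMod v)ˣ, ∑ a ∈ Cp u, (‖Ex S g a u‖ ^ 2 + ‖Ex S g' a u‖ ^ 2) := by
        rw [sum_comm]
        refine sum_le_sum fun l _ => ?_
        rw [sum_add_distrib, sum_add_distrib]
        refine add_le_add (perm_CV3a S g u1 (IsCoprime.neg_left ?_)) le_rfl
        rw [isCoprime_comm, ← ZMod.coe_int_isUnit_iff_isCoprime, rcast_CV3a hu]
        exact Units.isUnit _
    _ ≤ _ := by
        rw [sum_const, card_univ, nsmul_eq_mul]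
        exact mul_le_mul_of_nonneg_right (card_CV3a v) (by positivity)

theorem cv3a (h : V1Stmt) : V3aStmt := by
  intro S g g' v Q η hv hη hQ hS H
  have : NeZero v := ⟨by omega⟩
  have v0 : (0 : ℝ) < v := by exact_mod_cast hv
  obtain ⟨F, hF⟩ : ∃ F : ℕ → (Fin 3 → ℤ) → ℝ, F = fun u a =>
    ‖Ex S g' a u‖ * ‖∑ l : (ZMod v)ˣ, Ex S g (-r_CV3a l • a) u‖ := ⟨_, rfl⟩
  have F0 : ∀ u a, 0 ≤ F u a := fun u a => by rw [hF]; positivity
  have h1 : |Ev S g g' v| * (v : ℝ) ^ 3 ≤ ∑ a ∈ Cu v, F v a := by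
    have := congrArg norm (expand_CV3a h S g g' (v := v) hS)
    rw [norm_mul, norm_pow, Complex.norm_natCast, Complex.norm_real, Real.norm_eq_abs] at this
    rw [this, hF]
    exact (norm_sum_le _ _).trans (sum_le_sum fun a _ => (norm_mul _ _).le)
  have h2 : ∑ a ∈ Cu v, F v a ≤ ∑ u ∈ v.divisors, ∑ a ∈ Cp u, F u a := by
    rw [sum_sigma']
    refine (sum_le_sum_of_subset_of_nonneg (t := (v.divisors.sigma Cp).image
      fun x => ((v / x.1 : ℕ) : ℤ) • x.2) (fun a ha => ?_) fun _ _ _ => F0 _ _).trans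
      ((sum_image_le_of_nonneg fun _ _ => F0 _ _).trans (sum_le_sum fun x hx => le_of_eq ?_))
    · obtain ⟨d, u, b, e1, e2, e3⟩ := split_CV3a v hv a ha
      have u0 : 0 < u := Nat.pos_of_mul_pos_left (e1 ▸ hv)
      refine mem_image.2 ⟨⟨u, b⟩, mem_sigma.2 ⟨Nat.mem_divisors.2 ⟨⟨d, by rw [e1, mul_comm]⟩,
        by omega⟩, e2⟩, ?_⟩
      rw [e3, e1, Nat.mul_div_cancel _ u0]
    · obtain ⟨u, b⟩ := x
      obtain ⟨d, e1⟩ : u ∣ v := Nat.dvd_of_mem_divisors (mem_sigma.1 hx).1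
      have u0 : 0 < u := Nat.pos_of_mul_pos_right (e1 ▸ hv)
      have d0 : 0 < d := Nat.pos_of_mul_pos_left (e1 ▸ hv)
      have e2 : v / u = d := by rw [e1, Nat.mul_div_cancel_left _ u0]
      have e3 : ∀ (f : (Fin 3 → ℤ) → ℝ) (a : Fin 3 → ℤ), Ex S f ((d : ℤ) • a) v = Ex S f a u :=
        fun f a => by rw [e1, mul_comm]; exact Exscale_CV3a S f d0 u a
      simp only [hF, e2, smul_comm _ (d : ℤ), e3]
  have G0 : 0 ≤ ∑ γ ∈ S, |g' γ| := by positivity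
  have h3 : ∑ u ∈ v.divisors.filter fun u : ℕ => ¬Q < u, ∑ a ∈ Cp u, F u a ≤
      v * (Q ^ 4 * η * ∑ γ ∈ S, |g' γ|) := by
    have c1 : ((v.divisors.filter fun u : ℕ => ¬Q < u).card : ℝ) ≤ Q := by
      refine le_trans ?_ (Nat.floor_le (by linarith : 0 ≤ Q))
      have : (v.divisors.filter fun u : ℕ => ¬Q < u) ⊆ Icc 1 ⌊Q⌋₊ := fun u hu =>
        mem_Icc.2 ⟨Nat.pos_of_mem_divisors (mem_filter.1 hu).1,
          Nat.le_floor (not_lt.1 (mem_filter.1 hu).2)⟩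
      have := card_le_card this
      rw [Nat.card_Icc, Nat.add_sub_cancel] at this
      exact_mod_cast this
    refine (sum_le_card_nsmul _ _ (Q ^ 3 * ((∑ γ ∈ S, |g' γ|) * (v * η))) fun u hu => ?_).trans ?_
    · have q1 : (u : ℝ) ≤ Q := not_lt.1 (mem_filter.1 hu).2
      have q2 := (mem_filter.1 hu).1
      refine (sum_le_card_nsmul _ _ ((∑ γ ∈ S, |g' γ|) * (v * η)) fun a _ => ?_).trans ?_
      · rw [hF]
        refine mul_le_mul ((norm_sum_le _ _).trans (sum_le_sum fun β _ => ?_))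
          (small_CV3a S g (Nat.dvd_of_mem_divisors q2) hη
            (fun T => H u T (Nat.pos_of_mem_divisors q2) q1) a) (norm_nonneg _) G0
        rw [norm_mul, MP_2a1f0e_nt.norm_ex, mul_one, Complex.norm_real, Real.norm_eq_abs]
      · rw [nsmul_eq_mul]
        refine mul_le_mul_of_nonneg_right ?_ (by positivity)
        calc ((Cp u).card : ℝ) ≤ (u : ℝ) ^ 3 := by exact_mod_cast card_Cp_CV3a u
          _ ≤ Q ^ 3 := by gcongr
    · rw [nsmul_eq_mul]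
      refine (mul_le_mul_of_nonneg_right c1 (by positivity)).trans (le_of_eq ?_)
      ring
  have h4 : ∑ u ∈ v.divisors.filter fun u : ℕ => Q < u, ∑ a ∈ Cp u, F u a ≤
      v * ∑ u ∈ v.divisors.filter fun u : ℕ => Q < u,
        ∑ a ∈ Cp u, (‖Ex S g a u‖ ^ 2 + ‖Ex S g' a u‖ ^ 2) := by
    rw [mul_sum, hF]
    exact sum_le_sum fun u hu =>
      large_CV3a S g g' (Nat.dvd_of_mem_divisors (mem_filter.1 hu).1)
  rw [← sum_filter_add_sum_filter_not v.divisors fun u : ℕ => Q < u] at h2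
  rw [le_div_iff₀ (by positivity)]
  refine le_of_mul_le_mul_left ?_ v0
  rw [mul_add]
  calc _ = |Ev S g g' v| * (v : ℝ) ^ 3 := by ring
    _ ≤ _ := by linarith

end Pool.Agent.MP_adc87d_lc.Big

end
end
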