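import Pool.Agent.Mg.Fadc87d.G0908ea
import Pool.Agent.MP_e23604_nt.P.SUb

set_option linter.all false

/-! Continuation and growth of Dirichlet series with a power saving error term. -/

set_option autoImplicit false

noncomputable section

open Finset
open scoped Classical

namespace Pool.Agent.MP_adc87d_lc.Big

open Pool.Agent.MP_2a1f0e_nt (ex)
open MeasureTheory Filter Topology Asymptotics
open Pool.Agent.MP_f259ea_nt (errFun measurable_errFun mellin_errFun)
open Pool.Agent.MP_e23604_nt.P (xSUb_f xSUb_ftc xSUb_step)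

variable {a b : ℕ → ℂ} {c : ℂ} {A Q : ℝ}

theorem q0_CAn1 (h : LG a b c A Q) : 0 ≤ Q := by
  have := (norm_nonneg _).trans (h.err 1 le_rfl)
  simpa using this

theorem le_CAn1 (h : LG a b c A Q) {s : ℂ} (hs : 11 / 12 ≤ s.re) {t : ℝ} (ht : 1 ≤ t) :
    ‖xSUb_f a c s t‖ ≤ Q * t ^ (-(13 / 12 : ℝ)) := by
  have ht0 : 0 < t := by linarith
  rw [xSUb_f, norm_mul, Complex.norm_cpow_eq_rpow_re_of_pos ht0,
    show -(13 / 12 : ℝ) = 5 / 6 + -(23 / 12) by norm_num, Real.rpow_add ht0, ← mul_assoc]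
  refine mul_le_mul (h.err t ht) (Real.rpow_le_rpow_of_exponent_le ht ?_) (by positivity)
    ((norm_nonneg _).trans (h.err t ht))
  simp only [Complex.neg_re, Complex.add_re, Complex.one_re]
  linarith

theorem int_CAn1 (h : LG a b c A Q) {s : ℂ} (hs : 11 / 12 ≤ s.re) {x : ℝ} (hx : 1 ≤ x) :
    IntegrableOn (xSUb_f a c s) (Set.Ioi x) ∧
      ‖∫ t in Set.Ioi x, xSUb_f a c s t‖ ≤ 12 * (Q * x ^ (-(1 / 12 : ℝ))) := by
  have hint : IntegrableOn (fun t : ℝ => Q * t ^ (-(13 / 12 : ℝ))) (Set.Ioi x) :=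
    (integrableOn_Ioi_rpow_of_lt (by norm_num) (by linarith)).const_mul _
  have hb : ∀ᵐ t ∂volume.restrict (Set.Ioi x), ‖xSUb_f a c s t‖ ≤ Q * t ^ (-(13 / 12 : ℝ)) :=
    (ae_restrict_iff' measurableSet_Ioi).2
      (Filter.Eventually.of_forall fun t ht => le_CAn1 h hs (hx.trans (le_of_lt ht)))
  refine ⟨hint.mono' (AEStronglyMeasurable.mul ?_ ?_) hb,
    (norm_integral_le_of_norm_le hint hb).trans (le_of_eq ?_)⟩
  · refine (Measurable.sub ?_ (by fun_prop)).aestronglyMeasurable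
    exact (measurable_from_nat (f := fun n => ∑ k ∈ Icc 1 n, a k)).comp Nat.measurable_floor
  · exact (Measurable.pow_const (by fun_prop) _).aestronglyMeasurable
  · rw [integral_const_mul, integral_Ioi_rpow_of_lt (by norm_num) (by linarith),
      show -(13 / 12 : ℝ) + 1 = -(1 / 12) by norm_num]
    ring

theorem err_CAn1 (h : LG a b c A Q) {t y : ℝ} (hy : 0 ≤ y) (ht : t ≤ y) :
    ‖errFun a c t‖ ≤ Q * y ^ (5 / 6 : ℝ) := by
  have hQ := q0_CAn1 h
  unfold errFun
  by_cases h1 : t ∈ Set.Ioi (1 : ℝ)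
  · rw [Set.indicator_of_mem h1]
    have h2 : 1 < t := h1
    refine (h.err t h2.le).trans ?_
    gcongr
  · rw [Set.indicator_of_notMem h1, norm_zero]
    positivity

theorem diff_CAn1 (h : LG a b c A Q) {s : ℂ} (hs : 5 / 6 < s.re) :
    DifferentiableAt ℂ (fun s => mellin (errFun a c) (-s)) s := by
  have hd : DifferentiableAt ℂ (mellin (errFun a c)) (-s) := by
    refine mellin_differentiableAt_of_isBigO_rpow (a := -(5 / 6)) (b := -s.re - 1) ?_ ?_ ?_ ?_ ?_
    · refine LocallyIntegrable.locallyIntegrableOn ?_ _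
      intro x
      refine ⟨Metric.ball x 1, Metric.ball_mem_nhds x one_pos, ?_⟩
      refine Measure.integrableOn_of_bounded (M := Q * (|x| + 1) ^ (5 / 6 : ℝ)) ?_
        (measurable_errFun a c).aestronglyMeasurable ?_
      · exact measure_ball_lt_top.ne
      · refine (ae_restrict_iff' Metric.isOpen_ball.measurableSet).2
          (Eventually.of_forall fun t ht => err_CAn1 h (by positivity) ?_)
        rw [Metric.mem_ball, Real.dist_eq, abs_lt] at ht
        linarith [le_abs_self x, ht.2]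
    · refine IsBigO.of_bound Q ?_
      filter_upwards [eventually_ge_atTop 0] with t ht
      rw [neg_neg, Real.norm_of_nonneg (by positivity)]
      exact err_CAn1 h ht le_rfl
    · simpa using hs
    · refine IsBigO.of_bound 0 ?_
      have : ∀ᶠ t in 𝓝[>] (0 : ℝ), t < 1 :=
        mem_nhdsWithin_of_mem_nhds (Iio_mem_nhds one_pos)
      filter_upwards [this] with t ht
      unfold errFun
      rw [Set.indicator_of_notMem (by simpa using ht.le)]
      simp
    · simp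
  exact hd.comp s differentiableAt_id.neg

theorem abs_CAn1 (h : LG a b c A Q) {n : ℕ} (hn : 1 ≤ n) : ∑ k ∈ Icc 1 n, ‖a k‖ ≤ A * n := by
  simpa using h.abs n (by exact_mod_cast hn)

theorem eq_CAn1 (h : LG a b c A Q) {s : ℂ} (hs : 1 < s.re) :
    LSeries a s = c / (s - 1) + (c + s * mellin (errFun a c) (-s)) := by
  have hO : (fun n => ∑ k ∈ Icc 1 n, ‖a k‖) =O[atTop] fun n : ℕ => (n : ℝ) ^ (1 : ℝ) := by
    refine IsBigO.of_bound A ?_
    filter_upwards [eventually_ge_atTop 1] with n hn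
    rw [Real.norm_of_nonneg (sum_nonneg fun _ _ => norm_nonneg _), Real.rpow_one,
      Real.norm_natCast]
    exact abs_CAn1 h hn
  rw [LSeries_eq_mul_integral' a zero_le_one hs hO, mellin_errFun]
  have hs1 : s - 1 ≠ 0 := fun h0 => by
    rw [sub_eq_zero.1 h0, Complex.one_re] at hs
    exact lt_irrefl _ hs
  have hre : (-s).re < -1 := by simp; linarith
  have hI1 : IntegrableOn (fun t : ℝ => c * (t : ℂ) ^ (-s)) (Set.Ioi 1) :=
    (integrableOn_Ioi_cpow_of_lt hre one_pos).const_mul _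
  have hI2 : IntegrableOn (fun t : ℝ => (∑ k ∈ Icc 1 ⌊t⌋₊, a k - c * t) * (t : ℂ) ^ (-(s + 1)))
      (Set.Ioi 1) := (int_CAn1 h (s := s) (by linarith) le_rfl).1
  have hsplit : ∫ t in Set.Ioi (1 : ℝ), (∑ k ∈ Icc 1 ⌊t⌋₊, a k) * (t : ℂ) ^ (-(s + 1)) =
      (∫ t in Set.Ioi (1 : ℝ), c * (t : ℂ) ^ (-s)) + ∫ t in Set.Ioi (1 : ℝ),
        (∑ k ∈ Icc 1 ⌊t⌋₊, a k - c * t) * (t : ℂ) ^ (-(s + 1)) := by
    rw [← integral_add hI1 hI2]
    refine setIntegral_congr_fun measurableSet_Ioi fun t ht => ?_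
    have ht1 : 1 < t := ht
    have ht0 : (t : ℂ) ≠ 0 := by exact_mod_cast (by linarith : t ≠ 0)
    have e : (t : ℂ) ^ (-s) = t * (t : ℂ) ^ (-(s + 1)) := by
      have : -s = 1 + -(s + 1) := by ring
      rw [this, Complex.cpow_add _ _ ht0, Complex.cpow_one]
    simp only [e]
    ring
  rw [hsplit, integral_const_mul, integral_Ioi_cpow_of_lt hre one_pos]
  have hs2 : -s + 1 ≠ 0 := by
    intro h0; apply hs1; linear_combination -h0
  simp only [Complex.ofReal_one, Complex.one_cpow]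
  field_simp
  ring

theorem head_CAn1 (h : LG a b c A Q) {s : ℂ} {ε : ℝ} (hε : 0 < ε) (hε1 : ε ≤ 1 / 12)
    (hs : 1 - ε ≤ s.re) (N : ℕ) (hN : 1 ≤ N) :
    ‖c + s * (∫ t in Set.Ioi (1 : ℝ), xSUb_f a c s t) - s * (∫ t in Set.Ioi (N : ℝ), xSUb_f a c s t)
      + (∑ k ∈ Icc 1 N, a k - c * N) * (N : ℂ) ^ (-s)‖ ≤
      (∑ k ∈ Icc 1 N, ‖a k‖) * (N : ℝ) ^ (ε - 1) + 2 * A * (((N : ℝ) ^ ε - 1) / ε) := by
  have hs0 : s ≠ 0 := fun h => by
    rw [h, Complex.zero_re] at hs
    linarith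
  have hA : 0 ≤ A := (norm_nonneg _).trans h.res
  induction N, hN using Nat.le_induction with
  | base => simp
  | succ N hN ih =>
    have hN' : (1 : ℝ) ≤ N := by exact_mod_cast hN
    have hN0 : (0 : ℝ) < N := by linarith
    have e1 := intervalIntegral.integral_interval_add_Ioi
      (int_CAn1 h (s := s) (by linarith) hN').1
      (int_CAn1 h (s := s) (x := N + 1) (by linarith) (by linarith)).1
    have e2 : ∫ t in (N : ℝ)..N + 1, xSUb_f a c s t =
        ∫ t in (N : ℝ)..N + 1, (∑ k ∈ Icc 1 N, a k - c * t) * (t : ℂ) ^ (-(s + 1)) :=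
      intervalIntegral.integral_congr_Ioo_of_le (by linarith) fun t ht => by
        rw [xSUb_f, (Nat.floor_eq_iff (by linarith [ht.1])).2 ⟨ht.1.le, ht.2⟩]
    have e3 := xSUb_ftc (∑ k ∈ Icc 1 N, a k) c hs0 (x := N) (y := N + 1) (by linarith) (by linarith)
    obtain ⟨-, b2⟩ := xSUb_step hε (by linarith) hs hN'
    have b0 := (xSUb_step (s := ((1 - ε : ℝ) : ℂ)) hε (by linarith) (by simp) hN').1
    rw [Complex.norm_cpow_eq_rpow_re_of_pos (by linarith), Complex.neg_re, Complex.ofReal_re,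
      neg_sub] at b0
    have b1 : ‖((N + 1 : ℝ) : ℂ) ^ (-s)‖ ≤ ((N : ℝ) + 1) ^ (ε - 1) := by
      rw [Complex.norm_cpow_eq_rpow_re_of_pos (by linarith)]
      exact Real.rpow_le_rpow_of_exponent_le (by linarith) (by rw [Complex.neg_re]; linarith)
    have b3 := mul_le_mul_of_nonneg_left b1 (norm_nonneg (a (N + 1)))
    have b4 := mul_le_mul h.res b2 (norm_nonneg _) hA
    rw [← norm_mul] at b3 b4
    have := (norm_add_le _ _).trans (add_le_add ih ((norm_sub_le _ _).trans (add_le_add b3 b4)))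
    rw [← e1, e2] at this
    have b5 : ((N : ℝ) + 1) ^ (ε - 1) ≤ (N : ℝ) ^ (ε - 1) :=
      Real.rpow_le_rpow_of_nonpos hN0 (by linarith) (by linarith)
    have b6 := mul_le_mul_of_nonneg_right (abs_CAn1 h hN) (sub_nonneg.2 b5)
    have b7 : (N : ℝ) * (N : ℝ) ^ (ε - 1) ≤ ((N : ℝ) + 1) * ((N : ℝ) + 1) ^ (ε - 1) := by
      rw [Real.rpow_sub_one hN0.ne', Real.rpow_sub_one (by linarith), mul_div_cancel₀ _ hN0.ne',
        mul_div_cancel₀ _ (by linarith)]
      exact Real.rpow_le_rpow hN0.le (by linarith) hε.le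
    have b8 := mul_le_mul_of_nonneg_left b7 hA
    have b9 := mul_le_mul_of_nonneg_left b0 hA
    rw [sum_Icc_succ_top (by omega), sum_Icc_succ_top (by omega)]
    push_cast at this e3 ⊢
    refine (le_of_eq (congrArg norm ?_)).trans (this.trans ?_)
    · linear_combination e3
    · have e4 : (((N : ℝ) + 1) ^ ε - 1) / ε =
          ((N : ℝ) ^ ε - 1) / ε + (((N : ℝ) + 1) ^ ε - (N : ℝ) ^ ε) / ε := by ring
      rw [e4]
      linarith

theorem bd_CAn1 (h : LG a b c A Q) (hQ : 1 ≤ Q) {s : ℂ} {ε : ℝ} (hε : 0 < ε) (hε1 : ε ≤ 1 / 12)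
    (hs : 1 - ε ≤ s.re) : ‖c + s * mellin (errFun a c) (-s)‖ ≤
      (6 * A / ε + 13) * (Q * (‖s‖ + 1)) ^ (12 * ε) := by
  have hA : 0 ≤ A := (norm_nonneg _).trans h.res
  have hs0 := norm_nonneg s
  obtain ⟨M, hM⟩ : ∃ M, M = Q * (‖s‖ + 1) := ⟨_, rfl⟩
  have hM1 : 1 ≤ M := by nlinarith
  have hM12 : 1 ≤ M ^ (12 : ℝ) := Real.one_le_rpow hM1 (by norm_num)
  obtain ⟨N, hN1, hN2⟩ : ∃ N : ℕ, M ^ (12 : ℝ) ≤ N ∧ (N : ℝ) ≤ 2 * M ^ (12 : ℝ) :=
    ⟨⌈M ^ (12 : ℝ)⌉₊, Nat.le_ceil _, by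
      linarith [Nat.ceil_lt_add_one (zero_le_one.trans hM12)]⟩
  have hN : (1 : ℝ) ≤ N := by linarith
  have hN0 : (0 : ℝ) < N := by linarith
  have hq : M * (N : ℝ) ^ (-(1 / 12 : ℝ)) ≤ 1 := by
    have h1 := Real.rpow_le_rpow_of_nonpos (by linarith) hN1 (by norm_num : -(1 / 12 : ℝ) ≤ 0)
    rw [← Real.rpow_mul (by linarith), show (12 : ℝ) * -(1 / 12) = -1 by norm_num,
      Real.rpow_neg_one] at h1
    calc _ ≤ M * M⁻¹ := mul_le_mul_of_nonneg_left h1 (by linarith)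
      _ = 1 := mul_inv_cancel₀ (by linarith)
  have hq0 : 0 < (N : ℝ) ^ (-(1 / 12 : ℝ)) := by positivity
  have h1 := head_CAn1 h hε hε1 hs N (by exact_mod_cast hN)
  have h2 : ‖s * ∫ t in Set.Ioi (N : ℝ), xSUb_f a c s t‖ ≤ 12 := by
    rw [norm_mul]
    refine (mul_le_mul_of_nonneg_left (int_CAn1 h (by linarith) hN).2 hs0).trans ?_
    rw [hM] at hq
    nlinarith [mul_pos (by linarith : 0 < Q) hq0]
  have h3 : ‖(∑ k ∈ Icc 1 N, a k - c * N) * (N : ℂ) ^ (-s)‖ ≤ 1 := by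
    have e1 : ‖(N : ℂ) ^ (-s)‖ ≤ (N : ℝ) ^ (-(11 / 12 : ℝ)) := by
      rw [← Complex.ofReal_natCast, Complex.norm_cpow_eq_rpow_re_of_pos hN0]
      exact Real.rpow_le_rpow_of_exponent_le hN (by rw [Complex.neg_re]; linarith)
    have e2 := h.err N hN
    rw [Nat.floor_natCast, Complex.ofReal_natCast] at e2
    rw [norm_mul]
    refine (mul_le_mul e2 e1 (norm_nonneg _) (by positivity)).trans ?_
    rw [mul_assoc, ← Real.rpow_add hN0, show (5 / 6 : ℝ) + -(11 / 12) = -(1 / 12) by norm_num]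
    rw [hM] at hq
    nlinarith [mul_nonneg hs0 (mul_pos (by linarith : 0 < Q) hq0).le]
  have h4 : (N : ℝ) ^ ε ≤ 2 * M ^ (12 * ε) := by
    refine (Real.rpow_le_rpow hN0.le hN2 hε.le).trans ?_
    rw [Real.mul_rpow zero_le_two (by linarith), Real.rpow_mul (by linarith)]
    refine mul_le_mul_of_nonneg_right ?_ (by positivity)
    exact (Real.rpow_le_rpow_of_exponent_le one_le_two (by linarith : ε ≤ 1)).trans
      (Real.rpow_one 2).le
  have h5 : 1 ≤ M ^ (12 * ε) := Real.one_le_rpow hM1 (by linarith)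
  have h7 : (∑ k ∈ Icc 1 N, ‖a k‖) * (N : ℝ) ^ (ε - 1) ≤ A * ((N : ℝ) ^ ε / ε) := by
    refine (mul_le_mul_of_nonneg_right (abs_CAn1 h (by exact_mod_cast hN)) (by positivity)).trans ?_
    rw [Real.rpow_sub_one hN0.ne', mul_assoc, mul_div_cancel₀ _ hN0.ne']
    refine mul_le_mul_of_nonneg_left ?_ hA
    rw [le_div_iff₀ hε]
    exact mul_le_of_le_one_right (by positivity) (by linarith)
  have h8 : 2 * A * (((N : ℝ) ^ ε - 1) / ε) ≤ 2 * A * ((N : ℝ) ^ ε / ε) := by
    gcongr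
    linarith
  have h9 : A * ((N : ℝ) ^ ε / ε) ≤ A * (2 * M ^ (12 * ε) / ε) := by gcongr
  have h6 := (norm_sub_le _ _).trans (add_le_add ((norm_add_le _ _).trans (add_le_add h1 h2)) h3)
  rw [mellin_errFun, ← hM]
  refine (le_of_eq (congrArg norm ?_)).trans (h6.trans ?_)
  · unfold xSUb_f
    ring
  · have e : (6 * A / ε + 13) * M ^ (12 * ε) =
        3 * (A * (2 * M ^ (12 * ε) / ε)) + 13 * M ^ (12 * ε) := by ring
    rw [e]
    linarith

theorem can1 : An1Stmt := by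
  intro A η hA hη
  obtain ⟨e, he0, he1, he2⟩ : ∃ e : ℝ, 0 < e ∧ e ≤ 1 / 12 ∧ 12 * e ≤ η :=
    ⟨min (1 / 12) (η / 12), lt_min (by norm_num) (by linarith), min_le_left _ _, by
      linarith [min_le_right (1 / 12) (η / 12)]⟩
  have hC0 : 1 ≤ 6 * A / e + 13 := by
    have : 0 ≤ 6 * A / e := by positivity
    linarith
  have h2 : 1 ≤ (2 : ℝ) ^ η := Real.one_le_rpow one_le_two hη.le
  have h3 : 1 ≤ (2 : ℝ) ^ η / (e / 2) := by
    rw [le_div_iff₀ (by linarith)]
    linarith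
  refine ⟨e / 2, (6 * A / e + 13) * (2 ^ η / (e / 2)), by linarith, by linarith,
    one_le_mul_of_one_le_of_one_le hC0 h3, fun a b c Q hQ h => ?_⟩
  have hd : DifferentiableOn ℂ (fun s => c + s * mellin (errFun a c) (-s)) {s | 5 / 6 < s.re} :=
    fun s hs => ((differentiableAt_id.mul (diff_CAn1 h hs)).const_add c).differentiableWithinAt
  have hb : ∀ s : ℂ, 1 - e ≤ s.re → ‖c + s * mellin (errFun a c) (-s)‖ ≤
      (6 * A / e + 13) * (Q * (‖s‖ + 1)) ^ η := fun s hs =>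
    (bd_CAn1 h hQ he0 he1 hs).trans (mul_le_mul_of_nonneg_left
      (Real.rpow_le_rpow_of_exponent_le (by nlinarith [norm_nonneg s]) he2) (by linarith))
  refine ⟨_, hd, fun s hs => eq_CAn1 h hs, fun s hs => ⟨(hb s (by linarith)).trans ?_, ?_⟩⟩
  · exact mul_le_mul_of_nonneg_right (le_mul_of_one_le_right (by linarith) h3) (by positivity)
  · have hre : ∀ z : ℂ, ‖z - s‖ ≤ e / 2 → 1 - e ≤ z.re := by
      intro z hz
      have := (abs_le.1 ((Complex.abs_re_le_norm (z - s)).trans hz)).1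
      simp only [Complex.sub_re] at this
      linarith
    have hR : 0 < e / 2 := by linarith
    have key := Complex.norm_deriv_le_of_forall_mem_sphere_norm_le (c := s) (R := e / 2)
      (C := (6 * A / e + 13) * (2 * (Q * (‖s‖ + 1))) ^ η) hR
      (hd.mono (s := closure (Metric.ball s (e / 2))) fun z hz => by
        have := hre z (by simpa [dist_eq_norm] using Metric.closure_ball_subset_closedBall hz)
        change 5 / 6 < z.re
        linarith).diffContOnCl (by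
        intro z hz
        have hz' : ‖z - s‖ = e / 2 := by simpa [dist_eq_norm] using hz
        have hn : ‖z‖ ≤ ‖s‖ + ‖z - s‖ := by
          calc ‖z‖ = ‖s + (z - s)‖ := by ring_nf
            _ ≤ _ := norm_add_le _ _
        refine (hb z (hre z hz'.le)).trans (mul_le_mul_of_nonneg_left
          (Real.rpow_le_rpow (by positivity) ?_ hη.le) (by linarith))
        nlinarith [norm_nonneg s])
    refine key.trans (le_of_eq ?_)
    rw [Real.mul_rpow zero_le_two (by positivity)]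
    ring

end Pool.Agent.MP_adc87d_lc.Big
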