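import Mathlib
import Pool.Agent.Mg.Fadc87d.G0908ea

set_option linter.all false

/-! The sieve in a tile. -/

set_option autoImplicit false

noncomputable section

open Finset
open scoped Classical

namespace Pool.Agent.MP_adc87d_lc.Big

open Pool.Agent.MP_2a1f0e_nt (ex)

theorem cls_CSv2 (n d a : ℕ) (hd : 0 < d) :
    |(((range n).filter fun x => x ≡ a [MOD d]).card : ℝ) - (n : ℝ) / d| ≤ 1 := by
  have h1 : ((range n).filter fun x => x ≡ a [MOD d]).card =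
      n / d + if a % d < n % d then 1 else 0 := by
    rw [← Nat.count_modEq_card n hd a, Nat.count_eq_card_filter_range]
  have hd' : (0 : ℝ) < d := by exact_mod_cast hd
  have h2 : ((n / d : ℕ) : ℝ) ≤ (n : ℝ) / d := Nat.cast_div_le
  have h3 : (n : ℝ) / d ≤ ((n / d : ℕ) : ℝ) + 1 := by
    rw [div_le_iff₀ hd']
    have := Nat.lt_div_mul_add (a := n) hd
    have h4 : (n : ℝ) < ((n / d * d + d : ℕ) : ℝ) := by exact_mod_cast this
    push_cast at h4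
    nlinarith
  rw [h1, abs_le]
  split_ifs <;> push_cast <;> constructor <;> linarith

/-- periodic conditions -/
def Per_CSv2 (d : ℕ) (P : ℕ × ℕ → Prop) : Prop :=
  ∀ x x' : ℕ × ℕ, x.1 ≡ x'.1 [MOD d] → x.2 ≡ x'.2 [MOD d] → P x → P x'

theorem box_CSv2 (n d : ℕ) (hd : 0 < d) (P : ℕ × ℕ → Prop) (hP : Per_CSv2 d P)
    (A C : Finset (ℕ × ℕ)) (hA : ∀ x, x ∈ A ↔ x.1 < n ∧ x.2 < n ∧ P x)
    (hC : ∀ x, x ∈ C ↔ x.1 < d ∧ x.2 < d ∧ P x) :
    |(A.card : ℝ) - (n : ℝ) ^ 2 * (C.card / (d : ℝ) ^ 2)| ≤ (d : ℝ) ^ 2 * (3 * n) := by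
  have hd' : (0 : ℝ) < d := by exact_mod_cast hd
  have hd1 : (1 : ℝ) ≤ d := by exact_mod_cast hd
  have hmap : ∀ x ∈ A, (x.1 % d, x.2 % d) ∈ C := by
    intro x hx
    rw [hC]
    exact ⟨Nat.mod_lt _ hd, Nat.mod_lt _ hd,
      hP x _ (Nat.mod_modEq _ _).symm (Nat.mod_modEq _ _).symm ((hA x).1 hx).2.2⟩
  have h1 : A.card = ∑ c ∈ C, (A.filter fun x => (x.1 % d, x.2 % d) = c).card :=
    card_eq_sum_card_fiberwise hmap
  have h2 : ∀ c ∈ C, (A.filter fun x => (x.1 % d, x.2 % d) = c) =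
      ((range n).filter fun x => x ≡ c.1 [MOD d]) ×ˢ ((range n).filter fun x => x ≡ c.2 [MOD d]) := by
    intro c hc
    obtain ⟨c1, c2, c3⟩ := (hC c).1 hc
    ext x
    simp only [mem_filter, mem_product, mem_range, hA, Prod.ext_iff, Nat.ModEq,
      Nat.mod_eq_of_lt c1, Nat.mod_eq_of_lt c2]
    constructor
    · rintro ⟨⟨a1, a2, _⟩, b1, b2⟩
      exact ⟨⟨a1, b1⟩, a2, b2⟩
    · rintro ⟨⟨a1, b1⟩, a2, b2⟩
      refine ⟨⟨a1, a2, hP c x ?_ ?_ c3⟩, b1, b2⟩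
      · rw [Nat.ModEq, b1, Nat.mod_eq_of_lt c1]
      · rw [Nat.ModEq, b2, Nat.mod_eq_of_lt c2]
  have h3 : ∀ c ∈ C, |((A.filter fun x => (x.1 % d, x.2 % d) = c).card : ℝ) - ((n : ℝ) / d) ^ 2| ≤
      3 * n := by
    intro c hc
    rw [h2 c hc, card_product]
    push_cast
    have e1 := cls_CSv2 n d c.1 hd
    have e2 := cls_CSv2 n d c.2 hd
    have e3 : (((range n).filter fun x => x ≡ c.2 [MOD d]).card : ℝ) ≤ n := by
      have := card_filter_le (range n) fun x => x ≡ c.2 [MOD d]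
      rw [card_range] at this
      exact_mod_cast this
    have e4 : (0 : ℝ) ≤ (((range n).filter fun x => x ≡ c.2 [MOD d]).card : ℝ) := Nat.cast_nonneg _
    have e5 : (n : ℝ) / d ≤ n := div_le_self (Nat.cast_nonneg _) hd1
    have e6 : (0 : ℝ) ≤ (n : ℝ) / d := by positivity
    have e7 : (0 : ℝ) ≤ n := Nat.cast_nonneg _
    generalize (((range n).filter fun x => x ≡ c.2 [MOD d]).card : ℝ) = k2 at *
    generalize (((range n).filter fun x => x ≡ c.1 [MOD d]).card : ℝ) = k1 at *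
    generalize (n : ℝ) / d = q at *
    rw [abs_le] at e1 e2 ⊢
    constructor <;> nlinarith [e1.1, e1.2, e2.1, e2.2]
  have h4 : (C.card : ℝ) ≤ (d : ℝ) ^ 2 := by
    have : C ⊆ range d ×ˢ range d := fun x hx => by
      rw [mem_product, mem_range, mem_range]
      exact ⟨((hC x).1 hx).1, ((hC x).1 hx).2.1⟩
    have := card_le_card this
    rw [card_product, card_range] at this
    have h5 : (C.card : ℝ) ≤ ((d * d : ℕ) : ℝ) := by exact_mod_cast this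
    push_cast at h5
    nlinarith
  have h5 : (A.card : ℝ) - (n : ℝ) ^ 2 * (C.card / (d : ℝ) ^ 2) =
      ∑ c ∈ C, (((A.filter fun x => (x.1 % d, x.2 % d) = c).card : ℝ) - ((n : ℝ) / d) ^ 2) := by
    rw [sum_sub_distrib, sum_const, nsmul_eq_mul, h1]
    push_cast
    field_simp
  rw [h5]
  refine (abs_sum_le_sum_abs _ _).trans ((sum_le_sum h3).trans ?_)
  rw [sum_const, nsmul_eq_mul]
  exact mul_le_mul_of_nonneg_right h4 (by positivity)

theorem crt_CSv2 (d l : ℕ) (hd : 0 < d) (hl : 0 < l) (co : d.Coprime l) (P Q : ℕ × ℕ → Prop)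
    (hP : Per_CSv2 d P) (hQ : Per_CSv2 l Q) (A C D : Finset (ℕ × ℕ))
    (hA : ∀ x, x ∈ A ↔ x.1 < d * l ∧ x.2 < d * l ∧ P x ∧ Q x)
    (hC : ∀ x, x ∈ C ↔ x.1 < d ∧ x.2 < d ∧ P x)
    (hD : ∀ x, x ∈ D ↔ x.1 < l ∧ x.2 < l ∧ Q x) : A.card = C.card * D.card := by
  rw [← card_product]
  refine card_bij (fun x _ => ((x.1 % d, x.2 % d), (x.1 % l, x.2 % l))) ?_ ?_ ?_
  · intro x hx
    obtain ⟨_, _, h3, h4⟩ := (hA x).1 hx
    rw [mem_product, hC, hD]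
    exact ⟨⟨Nat.mod_lt _ hd, Nat.mod_lt _ hd,
      hP x _ (Nat.mod_modEq _ _).symm (Nat.mod_modEq _ _).symm h3⟩, Nat.mod_lt _ hl,
      Nat.mod_lt _ hl, hQ x _ (Nat.mod_modEq _ _).symm (Nat.mod_modEq _ _).symm h4⟩
  · intro x hx y hy hxy
    obtain ⟨x1, x2, _, _⟩ := (hA x).1 hx
    obtain ⟨y1, y2, _, _⟩ := (hA y).1 hy
    simp only [Prod.mk.injEq] at hxy
    obtain ⟨⟨a1, a2⟩, a3, a4⟩ := hxy
    have b1 : x.1 ≡ y.1 [MOD d * l] := (Nat.modEq_and_modEq_iff_modEq_mul co).1 ⟨a1, a3⟩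
    have b2 : x.2 ≡ y.2 [MOD d * l] := (Nat.modEq_and_modEq_iff_modEq_mul co).1 ⟨a2, a4⟩
    exact Prod.ext (Nat.ModEq.eq_of_lt_of_lt b1 x1 y1) (Nat.ModEq.eq_of_lt_of_lt b2 x2 y2)
  · rintro ⟨c, e⟩ hce
    rw [mem_product, hC, hD] at hce
    obtain ⟨⟨c1, c2, c3⟩, e1, e2, e3⟩ := hce
    have p1 := (Nat.chineseRemainder co c.1 e.1).2
    have p2 := (Nat.chineseRemainder co c.2 e.2).2
    refine ⟨((Nat.chineseRemainder co c.1 e.1 : ℕ), (Nat.chineseRemainder co c.2 e.2 : ℕ)), ?_, ?_⟩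
    · rw [hA]
      exact ⟨Nat.chineseRemainder_lt_mul co _ _ hd.ne' hl.ne',
        Nat.chineseRemainder_lt_mul co _ _ hd.ne' hl.ne', hP c _ p1.1.symm p2.1.symm c3,
        hQ e _ p1.2.symm p2.2.symm e3⟩
    · have q1 := p1.1
      have q2 := p2.1
      have q3 := p1.2
      have q4 := p2.2
      simp only at c1 c2 e1 e2
      rw [Nat.ModEq] at q1 q2 q3 q4
      rw [Nat.mod_eq_of_lt c1] at q1
      rw [Nat.mod_eq_of_lt c2] at q2
      rw [Nat.mod_eq_of_lt e1] at q3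
      rw [Nat.mod_eq_of_lt e2] at q4
      simp only [q1, q2, q3, q4]

theorem perJ_CSv2 (y : ℕ → ℕ × ℕ → Prop) (J : Finset ℕ) (hy : ∀ l ∈ J, Per_CSv2 l (y l)) :
    Per_CSv2 (∏ l ∈ J, l) fun x => ∀ l ∈ J, y l x := by
  intro x x' h1 h2 h l hl
  have hd : l ∣ ∏ l ∈ J, l := dvd_prod_of_mem (fun l => l) hl
  exact hy l hl x x' (h1.of_dvd hd) (h2.of_dvd hd) (h l hl)

theorem prod_CSv2 (y : ℕ → ℕ × ℕ → Prop) (c : ℕ → Finset (ℕ × ℕ))
    (hc : ∀ l x, x ∈ c l ↔ x.1 < l ∧ x.2 < l ∧ y l x) (J : Finset ℕ) :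
    (∀ l ∈ J, l.Prime ∧ Per_CSv2 l (y l)) → ∀ C : Finset (ℕ × ℕ),
      (∀ x, x ∈ C ↔ x.1 < ∏ l ∈ J, l ∧ x.2 < ∏ l ∈ J, l ∧ ∀ l ∈ J, y l x) →
      C.card = ∏ l ∈ J, (c l).card := by
  induction J using Finset.induction_on with
  | empty =>
    intro _ C hC
    rw [prod_empty, card_eq_one]
    refine ⟨(0, 0), ?_⟩
    ext x
    simp only [hC, prod_empty, Nat.lt_one_iff, notMem_empty, false_imp_iff, implies_true, and_true,
      mem_singleton, Prod.ext_iff]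
  | insert a J ha ih =>
    intro hJ C hC
    have hJ' : ∀ l ∈ J, l.Prime ∧ Per_CSv2 l (y l) := fun l hl => hJ l (mem_insert_of_mem hl)
    have hpa := hJ a (mem_insert_self _ _)
    have hpos : 0 < ∏ l ∈ J, l := prod_pos fun l hl => (hJ' l hl).1.pos
    have co : a.Coprime (∏ l ∈ J, l) := by
      refine Nat.Coprime.prod_right fun l hl => ?_
      exact (Nat.coprime_primes hpa.1 (hJ' l hl).1).2 fun h => ha (h ▸ hl)
    have hD : ∀ x, x ∈ ((range (∏ l ∈ J, l) ×ˢ range (∏ l ∈ J, l)).filter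
        fun x => ∀ l ∈ J, y l x) ↔ x.1 < ∏ l ∈ J, l ∧ x.2 < ∏ l ∈ J, l ∧ ∀ l ∈ J, y l x := by
      intro x
      simp only [mem_filter, mem_product, mem_range, and_assoc]
    rw [prod_insert ha, ← ih hJ' _ hD]
    refine crt_CSv2 a _ hpa.1.pos hpos co (y a) _ hpa.2
      (perJ_CSv2 y J fun l hl => (hJ' l hl).2) C _ _ ?_ (hc a) hD
    intro x
    rw [hC, prod_insert ha, forall_mem_insert]

theorem roots_CSv2 (l : ℕ) [Fact l.Prime] (W : Finset (ZMod l × ZMod l))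
    (hW : ∀ w ∈ W, fc w.1 w.2 = 0) : W.card ≤ 3 * l := by
  have h1 : W.card ≤ 3 * (univ : Finset (ZMod l)).card := by
    refine card_le_mul_card_image_of_maps_to (f := Prod.snd) (fun _ _ => mem_univ _) 3 ?_
    intro t _
    set q : Polynomial (ZMod l) := Polynomial.X ^ 3 - Polynomial.C (t ^ 2) * Polynomial.X -
      Polynomial.C (t ^ 3) with hq
    have hm : q.Monic := by rw [hq]; monicity!
    have hdeg : q.natDegree ≤ 3 := by rw [hq]; compute_degree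
    calc (W.filter fun w => w.2 = t).card ≤ q.roots.toFinset.card := by
          refine card_le_card_of_injOn Prod.fst ?_ ?_
          · intro w hw
            have hw' := mem_filter.1 (mem_coe.1 hw)
            have := hW w hw'.1
            rw [hw'.2, fc] at this
            rw [mem_coe, Multiset.mem_toFinset, Polynomial.mem_roots hm.ne_zero, Polynomial.IsRoot, hq]
            simp only [Polynomial.eval_sub, Polynomial.eval_pow, Polynomial.eval_X,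
              Polynomial.eval_mul, Polynomial.eval_C]
            linear_combination this
          · intro w hw w' hw' h
            have a1 := (mem_filter.1 (mem_coe.1 hw)).2
            have a2 := (mem_filter.1 (mem_coe.1 hw')).2
            exact Prod.ext h (a1.trans a2.symm)
      _ ≤ q.roots.card := Multiset.toFinset_card_le _
      _ ≤ q.natDegree := Polynomial.card_roots' _
      _ ≤ 3 := hdeg
  rwa [card_univ, ZMod.card] at h1

theorem two_CSv2 (W : Finset (ZMod 2 × ZMod 2)) (hW : ∀ w ∈ W, fc w.1 w.2 = 0) : W.card ≤ 1 := by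
  have h : ∀ s t : ZMod 2, s ^ 3 - s * t ^ 2 - t ^ 3 = 0 → s = 0 ∧ t = 0 := by decide
  rw [card_le_one]
  intro a ha b hb
  have h1 := h _ _ (hW a ha)
  have h2 := h _ _ (hW b hb)
  exact Prod.ext (h1.1.trans h2.1.symm) (h1.2.trans h2.2.symm)

theorem cast_CSv2 (l : ℕ) (s t : ℤ) :
    (l : ℤ) ∣ fc s t ↔ fc (s : ZMod l) (t : ZMod l) = 0 := by
  rw [← ZMod.intCast_zmod_eq_zero_iff_dvd]
  simp only [fc]
  push_cast
  rfl

theorem img_CSv2 (l m p : ℕ) (hl : l.Prime) (hm : ¬l ∣ m) (hp : ¬l ∣ p) (s₁ t₁ s₂ t₂ u₀ v₀ : ℤ)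
    (hdet : s₁ * t₂ - s₂ * t₁ = p) (C : Finset (ℕ × ℕ))
    (hC : ∀ x ∈ C, x.1 < l ∧ x.2 < l ∧ (l : ℤ) ∣ fc ((u₀ + m * x.1) * s₁ + (v₀ + m * x.2) * s₂)
      ((u₀ + m * x.1) * t₁ + (v₀ + m * x.2) * t₂)) :
    ∃ W : Finset (ZMod l × ZMod l), C.card = W.card ∧ ∀ w ∈ W, fc w.1 w.2 = 0 := by
  have : Fact l.Prime := ⟨hl⟩
  refine ⟨C.image fun x => ((((u₀ + m * x.1) * s₁ + (v₀ + m * x.2) * s₂ : ℤ) : ZMod l),
    (((u₀ + m * x.1) * t₁ + (v₀ + m * x.2) * t₂ : ℤ) : ZMod l)), ?_, ?_⟩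
  · refine (card_image_of_injOn ?_).symm
    intro x hx y hy hxy
    obtain ⟨x1, x2, _⟩ := hC x hx
    obtain ⟨y1, y2, _⟩ := hC y hy
    simp only [Prod.mk.injEq] at hxy
    obtain ⟨a1, a2⟩ := hxy
    push_cast at a1 a2
    have hd : (s₁ : ZMod l) * t₂ - s₂ * t₁ = p := by exact_mod_cast congrArg (Int.cast : ℤ → ZMod l) hdet
    have hm0 : (m : ZMod l) ≠ 0 := fun h => hm ((ZMod.natCast_eq_zero_iff _ _).1 h)
    have hp0 : (p : ZMod l) ≠ 0 := fun h => hp ((ZMod.natCast_eq_zero_iff _ _).1 h)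
    have b1 : (x.1 : ZMod l) = y.1 := by
      refine mul_left_cancel₀ (mul_ne_zero hm0 hp0) ?_
      rw [← hd]
      linear_combination (t₂ : ZMod l) * a1 - (s₂ : ZMod l) * a2
    have b2 : (x.2 : ZMod l) = y.2 := by
      refine mul_left_cancel₀ (mul_ne_zero hm0 hp0) ?_
      rw [← hd]
      linear_combination (s₁ : ZMod l) * a2 - (t₁ : ZMod l) * a1
    rw [ZMod.natCast_eq_natCast_iff] at b1 b2
    exact Prod.ext (Nat.ModEq.eq_of_lt_of_lt b1 x1 y1) (Nat.ModEq.eq_of_lt_of_lt b2 x2 y2)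
  · intro w hw
    obtain ⟨x, hx, rfl⟩ := mem_image.1 hw
    exact (cast_CSv2 l _ _).1 (hC x hx).2.2

theorem line_CSv2 (l m n : ℕ) (hl : l.Prime) (hm : ¬l ∣ m) (u : ℤ) (X : Finset ℕ)
    (hX : ∀ x ∈ X, x < n ∧ (l : ℤ) ∣ u + m * x) : (X.card : ℝ) ≤ n / l + 1 := by
  rcases X.eq_empty_or_nonempty with rfl | ⟨a, ha⟩
  · rw [card_empty, Nat.cast_zero]; positivity
  have h1 : X ⊆ (range n).filter fun x => x ≡ a [MOD l] := by
    intro x hx
    rw [mem_filter, mem_range]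
    refine ⟨(hX x hx).1, ?_⟩
    rw [Nat.modEq_iff_dvd]
    have h2 : (l : ℤ) ∣ m * ((a : ℤ) - x) := by
      have := dvd_sub (hX a ha).2 (hX x hx).2
      rwa [show u + m * a - (u + m * x) = m * ((a : ℤ) - x) by ring] at this
    rcases (Nat.prime_iff_prime_int.1 hl).dvd_or_dvd h2 with h | h
    · exact absurd (Int.natCast_dvd_natCast.1 h) hm
    · exact h
  have h2 : (X.card : ℝ) ≤ ((range n).filter fun x => x ≡ a [MOD l]).card := by
    exact_mod_cast card_le_card h1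
  have h3 := abs_le.1 (cls_CSv2 n l a hl.pos)
  linarith [h3.2]

theorem bad_CSv2 (z Z : ℝ) (m n : ℕ) (u₀ v₀ : ℤ) (hz : 0 < z) (hm1 : 1 ≤ m) (hmz : (m : ℝ) ≤ z)
    (hu : |(u₀ : ℝ)| + m * n ≤ Z) (hv : |(v₀ : ℝ)| + m * n ≤ Z) (Bd : Finset (ℕ × ℕ))
    (hB : ∀ x ∈ Bd, x.1 < n ∧ x.2 < n ∧ ∃ l : ℕ, l.Prime ∧ z < l ∧ (l : ℤ) ∣ u₀ + m * x.1 ∧
      (l : ℤ) ∣ v₀ + m * x.2) : (Bd.card : ℝ) ≤ 1 + 4 * (n : ℝ) ^ 2 / z + 2 * Z := by
  have hZ : 0 ≤ Z := le_trans (by positivity) hu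
  set Ls := (Ioo ⌊z⌋₊ (⌊Z⌋₊ + 1)).filter fun l : ℕ => l.Prime ∧ z < l with hLs
  set Y : ℤ → ℕ → Finset ℕ := fun u l => (range n).filter fun x => (l : ℤ) ∣ u + m * x with hY
  have hle : ∀ (u : ℤ) (x l : ℕ), |(u : ℝ)| + m * n ≤ Z → x < n → (l : ℤ) ∣ u + m * x →
      u + m * x ≠ 0 → l < ⌊Z⌋₊ + 1 := by
    intro u x l h1 h2 h3 h4
    have h5 : (l : ℤ) ≤ |u + m * x| := Int.le_of_dvd (abs_pos.2 h4) ((dvd_abs _ _).2 h3)
    have h6 : (l : ℝ) ≤ |(u : ℝ) + m * x| := by exact_mod_cast h5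
    have h7 : |(u : ℝ) + m * x| ≤ |(u : ℝ)| + m * x := by
      refine (abs_add_le _ _).trans ?_
      rw [abs_of_nonneg (a := (m : ℝ) * x) (by positivity)]
    have h8 : (m : ℝ) * x ≤ m * n :=
      mul_le_mul_of_nonneg_left (by exact_mod_cast h2.le) (Nat.cast_nonneg _)
    exact Nat.lt_succ_of_le (Nat.le_floor (by linarith))
  have hsub : Bd ⊆ (Bd.filter fun x => u₀ + m * x.1 = 0 ∧ v₀ + m * x.2 = 0) ∪
      Ls.biUnion fun l => Y u₀ l ×ˢ Y v₀ l := by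
    intro x hx
    obtain ⟨x1, x2, l, hl, hzl, d1, d2⟩ := hB x hx
    rw [mem_union]
    by_cases h0 : u₀ + m * x.1 = 0 ∧ v₀ + m * x.2 = 0
    · exact Or.inl (mem_filter.2 ⟨hx, h0⟩)
    · right
      rw [mem_biUnion]
      refine ⟨l, ?_, ?_⟩
      · rw [hLs, mem_filter, mem_Ioo]
        refine ⟨⟨(Nat.floor_lt hz.le).2 hzl, ?_⟩, hl, hzl⟩
        rcases not_and_or.1 h0 with h | h
        · exact hle _ _ _ hu x1 d1 h
        · exact hle _ _ _ hv x2 d2 h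
      · rw [mem_product, hY]
        simp only [mem_filter, mem_range]
        exact ⟨⟨x1, d1⟩, x2, d2⟩
  have h1 : (Bd.filter fun x => u₀ + m * x.1 = 0 ∧ v₀ + m * x.2 = 0).card ≤ 1 := by
    rw [card_le_one]
    intro a ha b hb
    have a1 := (mem_filter.1 ha).2
    have b1 := (mem_filter.1 hb).2
    have hm0 : (m : ℤ) ≠ 0 := by omega
    have c1 : (a.1 : ℤ) = b.1 := mul_left_cancel₀ hm0 (by linarith [a1.1, b1.1])
    have c2 : (a.2 : ℤ) = b.2 := mul_left_cancel₀ hm0 (by linarith [a1.2, b1.2])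
    exact Prod.ext (by exact_mod_cast c1) (by exact_mod_cast c2)
  have h2 : ∀ l ∈ Ls, ((Y u₀ l ×ˢ Y v₀ l).card : ℝ) ≤ 2 * (n : ℝ) ^ 2 * ((l : ℝ) ^ 2)⁻¹ + 2 := by
    intro l hl
    obtain ⟨_, hp, hzl⟩ := mem_filter.1 hl
    have hm : ¬l ∣ m := fun h => by
      have : (l : ℝ) ≤ m := by exact_mod_cast Nat.le_of_dvd hm1 h
      linarith
    have e : ∀ u : ℤ, ((Y u l).card : ℝ) ≤ n / l + 1 := fun u =>
      line_CSv2 l m n hp hm u _ fun x hx => by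
        rw [hY] at hx
        simpa only [mem_filter, mem_range] using hx
    rw [card_product]
    push_cast
    have e3 : ((Y u₀ l).card : ℝ) * (Y v₀ l).card ≤ (n / l + 1) * (n / l + 1) :=
      mul_le_mul (e u₀) (e v₀) (Nat.cast_nonneg _) (by positivity)
    have e4 : 2 * (n : ℝ) ^ 2 * ((l : ℝ) ^ 2)⁻¹ = 2 * ((n : ℝ) / l) ^ 2 := by
      rw [div_pow, div_eq_mul_inv, mul_assoc]
    rw [e4]
    nlinarith [sq_nonneg ((n : ℝ) / l - 1)]
  have h3 : ∑ l ∈ Ls, ((l : ℝ) ^ 2)⁻¹ ≤ 2 / z := by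
    refine (sum_le_sum_of_subset_of_nonneg (filter_subset _ _) fun _ _ _ => by positivity).trans
      ((sum_Ioo_inv_sq_le _ _).trans ?_)
    exact div_le_div_of_nonneg_left (by norm_num) hz (Nat.lt_floor_add_one z).le
  have h4 : (Ls.card : ℝ) ≤ Z := by
    have a1 : Ls.card ≤ ⌊Z⌋₊ := by
      refine (card_filter_le _ _).trans ?_
      rw [Nat.card_Ioo]
      omega
    exact le_trans (by exact_mod_cast a1) (Nat.floor_le hZ)
  have h5 : Bd.card ≤ 1 + ∑ l ∈ Ls, (Y u₀ l ×ˢ Y v₀ l).card :=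
    (card_le_card hsub).trans ((card_union_le _ _).trans (Nat.add_le_add h1 card_biUnion_le))
  have h6 : (Bd.card : ℝ) ≤ 1 + ∑ l ∈ Ls, ((Y u₀ l ×ˢ Y v₀ l).card : ℝ) := by exact_mod_cast h5
  have h7 := sum_le_sum h2
  rw [sum_add_distrib, ← mul_sum, sum_const, nsmul_eq_mul] at h7
  have h8 : 2 * (n : ℝ) ^ 2 * ∑ l ∈ Ls, ((l : ℝ) ^ 2)⁻¹ ≤ 2 * (n : ℝ) ^ 2 * (2 / z) :=
    mul_le_mul_of_nonneg_left h3 (by positivity)
  have h9 : 2 * (n : ℝ) ^ 2 * (2 / z) = 4 * (n : ℝ) ^ 2 / z := by ring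
  linarith

theorem csv2 (h : SvStmt) : Sv2Stmt := by
  intro b
  obtain ⟨L₀, hL₀⟩ := h 2 b (1 / 4) (by norm_num)
  refine ⟨max L₀ 48, ?_⟩
  intro L hL z Z m n p s₁ t₁ s₂ t₂ u₀ v₀ hz1 hz2 h3 hm1 hmz hp hzp hdet hn hu hv hZ
  have hL48 : 48 ≤ L := le_trans (le_max_right _ _) hL
  have hL0 : 0 < L := by linarith
  have hz0 : 0 < z := lt_of_lt_of_le (by positivity) hz1
  obtain ⟨y, hy⟩ : ∃ y : ℕ → ℕ × ℕ → Prop, ∀ l x, y l x ↔
      (l : ℤ) ∣ fc ((u₀ + m * x.1) * s₁ + (v₀ + m * x.2) * s₂)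
        ((u₀ + m * x.1) * t₁ + (v₀ + m * x.2) * t₂) := ⟨_, fun _ _ => Iff.rfl⟩
  obtain ⟨c, hc⟩ : ∃ c : ℕ → Finset (ℕ × ℕ), ∀ l x, x ∈ c l ↔ x.1 < l ∧ x.2 < l ∧ y l x :=
    ⟨fun l => (range l ×ˢ range l).filter (y l), fun l x => by
      simp only [mem_filter, mem_product, mem_range, and_assoc]⟩
  obtain ⟨I, hI⟩ : ∃ I : Finset ℕ, ∀ l, l ∈ I ↔ l.Prime ∧ (l : ℝ) ≤ z ∧ ¬l ∣ m := by
    refine ⟨(range (⌊z⌋₊ + 1)).filter fun l => l.Prime ∧ ¬l ∣ m, fun l => ?_⟩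
    rw [mem_filter, mem_range, Nat.lt_succ_iff, Nat.le_floor_iff hz0.le]
    tauto
  have hper : ∀ l, Per_CSv2 l (y l) := by
    intro l x x' h1 h2 hx
    rw [hy, cast_CSv2] at hx ⊢
    rw [← ZMod.natCast_eq_natCast_iff] at h1 h2
    push_cast at hx ⊢
    rwa [← h1, ← h2]
  have hE : Real.exp (L / 2) = Real.exp (L / 4) * Real.exp (L / 4) := by
    rw [← Real.exp_add]; ring_nf
  have hE3 : 3 ≤ Real.exp (L / 4) := by linarith [Real.add_one_le_exp (L / 4)]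
  have hn1 : (1 : ℝ) ≤ n := by nlinarith
  have key := hL₀ L (le_trans (le_max_left _ _) hL) (ℕ × ℕ) (range n ×ˢ range n) (fun _ => 1) I y
    (fun l => ((c l).card : ℝ) / (l : ℝ) ^ 2) ((n : ℝ) ^ 2) (3 * n) ((n : ℝ) ^ 2)
    (fun _ _ => zero_le_one) ?_ (by positivity) le_rfl (by positivity) ?_ ?_
  · obtain ⟨k1, k2⟩ := key
    rw [sum_const, nsmul_eq_mul, mul_one] at k1
    have k3 := (abs_le.1 k1).1
    have k4 : (n : ℝ) ^ 2 * (1 / L) ≤
        (n : ℝ) ^ 2 * ∏ l ∈ I, (1 - ((c l).card : ℝ) / (l : ℝ) ^ 2) :=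
      mul_le_mul_of_nonneg_left k2 (by positivity)
    have hbad := bad_CSv2 z Z m n u₀ v₀ hz0 hm1 hmz hu hv ((range n ×ˢ range n).filter fun x =>
      ∃ l : ℕ, l.Prime ∧ z < l ∧ (l : ℤ) ∣ u₀ + m * x.1 ∧ (l : ℤ) ∣ v₀ + m * x.2) (fun x hx => by
        simpa only [mem_filter, mem_product, mem_range, and_assoc] using hx)
    have fin : ∀ A Bd Gd : Finset (ℕ × ℕ), (∀ x ∈ A, x ∈ Gd ∨ x ∈ Bd) →
        (A.card : ℝ) ≤ Gd.card + Bd.card := by
      intro A Bd Gd hh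
      have : A ⊆ Gd ∪ Bd := fun x hx => mem_union.2 (hh x hx)
      exact_mod_cast (card_le_card this).trans (card_union_le _ _)
    have hm1' : (1 : ℝ) ≤ m := by exact_mod_cast hm1
    have hZ1 : 1 ≤ Z := by nlinarith [abs_nonneg (u₀ : ℝ)]
    have n1 : 4 * (n : ℝ) ^ 2 / z ≤ 4 * ((n : ℝ) ^ 2 / L ^ 2) := by
      rw [← mul_div_assoc]
      exact div_le_div_of_nonneg_left (by positivity) (by positivity) hz1
    have n2 : (n : ℝ) ^ 2 / L ^ 2 ≤ (n : ℝ) ^ 2 / L / 48 := by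
      rw [div_div]
      exact div_le_div_of_nonneg_left (by positivity) (by positivity) (by nlinarith)
    have n3 : 24 * Z ≤ (n : ℝ) ^ 2 / L := by rwa [le_div_iff₀ hL0]
    have n4 : (n : ℝ) ^ 2 / (4 * L) = (n : ℝ) ^ 2 / L / 4 := by field_simp
    have n5 : (n : ℝ) ^ 2 * (1 / L) = (n : ℝ) ^ 2 / L := by ring
    refine le_trans ?_ (le_trans (sub_le_sub_left hbad _) (sub_le_iff_le_add.2
      (fin ((range n ×ˢ range n).filter fun ω => ∀ l ∈ I, ¬y l ω) _ _ ?_)))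
    · linarith
    · intro x hx
      rw [mem_filter] at hx
      rw [mem_filter, mem_filter]
      by_cases hb : ∃ l : ℕ, l.Prime ∧ z < l ∧ (l : ℤ) ∣ u₀ + m * x.1 ∧ (l : ℤ) ∣ v₀ + m * x.2
      · exact Or.inr ⟨hx.1, hb⟩
      · refine Or.inl ⟨hx.1, fun l h1 h2 h3 h4 => hx.2 l ((hI l).2 ⟨h1, h2, h3⟩) ((hy _ _).2 h4),
          fun l h1 h2 h3 => hb ⟨l, h1, h2, h3⟩⟩
  · intro l hl
    obtain ⟨l1, l2, l3⟩ := (hI l).1 hl
    have hlp : ¬l ∣ p := fun hd => by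
      have := (Nat.prime_dvd_prime_iff_eq l1 hp).1 hd
      rw [this] at l2
      linarith
    obtain ⟨W, w1, w2⟩ := img_CSv2 l m p l1 l3 hlp s₁ t₁ s₂ t₂ u₀ v₀ hdet (c l) fun x hx => by
      rw [← hy]; exact (hc l x).1 hx
    have : Fact l.Prime := ⟨l1⟩
    have l0 : (0 : ℝ) < l := by exact_mod_cast l1.pos
    have r1 : ((c l).card : ℝ) ≤ 3 * l := by
      rw [w1]; exact_mod_cast roots_CSv2 l W w2
    have r2 : ((c l).card : ℝ) / (l : ℝ) ^ 2 ≤ 3 / l := by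
      rw [div_le_div_iff₀ (by positivity) l0]; nlinarith
    refine ⟨l1, l2.trans hz2, by positivity, r2, ?_⟩
    by_cases h2 : l = 2
    · subst h2
      have r3 : ((c 2).card : ℝ) ≤ 1 := by
        rw [w1]; exact_mod_cast two_CSv2 W w2
      rw [div_le_div_iff₀ (by positivity) (by norm_num)]
      push_cast
      linarith
    · have h3' : l ≠ 3 := fun h => l3 (h ▸ h3)
      have h5 : (5 : ℝ) ≤ l := by exact_mod_cast l1.five_le_of_ne_two_of_ne_three h2 h3'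
      exact r2.trans (div_le_div_of_nonneg_left (by norm_num) (by norm_num) h5)
  · have e1 : Real.exp (-(1 / 4) * L) * Real.exp (L / 4) = 1 := by
      rw [← Real.exp_add]; ring_nf; exact Real.exp_zero
    have e2 : 0 < Real.exp (-(1 / 4) * L) := Real.exp_pos _
    have e3 : 3 * Real.exp (L / 4) ≤ n := by nlinarith
    have e4 : 3 ≤ n * Real.exp (-(1 / 4) * L) := by nlinarith
    nlinarith
  · intro J hJ
    have hJp : ∀ l ∈ J, l.Prime ∧ Per_CSv2 l (y l) := fun l hl => ⟨((hI l).1 (hJ hl)).1, hper l⟩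
    have hpos : 0 < ∏ l ∈ J, l := prod_pos fun l hl => (hJp l hl).1.pos
    have hD : ∀ x, x ∈ ((range (∏ l ∈ J, l) ×ˢ range (∏ l ∈ J, l)).filter
        fun x => ∀ l ∈ J, y l x) ↔ x.1 < ∏ l ∈ J, l ∧ x.2 < ∏ l ∈ J, l ∧ ∀ l ∈ J, y l x := by
      intro x
      simp only [mem_filter, mem_product, mem_range, and_assoc]
    have b1 := box_CSv2 n _ hpos _ (perJ_CSv2 y J fun l hl => (hJp l hl).2)
      ((range n ×ˢ range n).filter fun x => ∀ l ∈ J, y l x) _ (fun x => by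
        simp only [mem_filter, mem_product, mem_range, and_assoc]) hD
    rw [prod_CSv2 y c hc J hJp _ hD] at b1
    rw [sum_const, nsmul_eq_mul, mul_one, prod_div_distrib, prod_pow]
    push_cast at b1
    exact b1

end Pool.Agent.MP_adc87d_lc.Big
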