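import Mathlib
import Pool.Agent.Mg.Fadc87d.G2faaf0
import Pool.Agent.MP_e23604_nt.Mordell

set_option linter.all false

section

/-! The formal group of the curve y^2 = x^3 - 4. -/

set_option autoImplicit false

namespace Pool.Agent.MP_adc87d_lc

section

variable {F : Type} [Field F] {Γ : Type} [LinearOrderedCommGroupWithZero Γ] (V : Valuation F Γ)

theorem nat_le_L1 (n : ℕ) : V (n : F) ≤ 1 := by
  induction n with
  | zero => simp
  | succ k ih =>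
    rw [Nat.cast_succ]
    exact (V.map_add _ _).trans (max_le ih (by simp))

theorem four_le_L1 : V (4 : F) ≤ 1 := by
  have := nat_le_L1 V 4
  simpa using this

theorem twelve_le_L1 : V (12 : F) ≤ 1 := by
  have := nat_le_L1 V 12
  simpa using this

theorem unit_L1 {t : F} (h : V t < 1) : V (1 + t) = 1 := V.map_one_add_of_lt h

theorem mul_lt_L1 {a b : F} (ha : V a ≤ 1) (hb : V b < 1) : V (a * b) < 1 := by
  rw [map_mul]
  exact lt_of_le_of_lt (mul_le_of_le_one_left' ha) hb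

theorem add_lt_L1 {a b : F} (ha : V a < 1) (hb : V b < 1) : V (a + b) < 1 :=
  lt_of_le_of_lt (V.map_add _ _) (max_lt ha hb)

/-- sizes of the coordinates of a point at infinity -/
theorem size_L1 {x y : F} (e : y ^ 2 = x ^ 3 + -4) (hx : 1 < V x) :
    V y ^ 2 = V x ^ 3 ∧ 1 < V y ∧ V x < V y := by
  have h3 : 1 < V x ^ 3 := one_lt_pow₀ hx (by norm_num)
  have h : V y ^ 2 = V x ^ 3 := by
    rw [← map_pow, e, ← map_pow]
    refine V.map_add_eq_of_lt_left ?_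
    rw [Valuation.map_neg, map_pow]
    exact lt_of_le_of_lt (four_le_L1 V) h3
  have hx0 : 0 < V x := lt_trans zero_lt_one hx
  have h2 : V x < V y := by
    refine lt_of_pow_lt_pow_left₀ 2 zero_le ?_
    rw [h]
    exact pow_lt_pow_right₀ hx (by norm_num)
  exact ⟨h, hx.trans h2, h2⟩

theorem big_L1 {x y : F} (e : y ^ 2 = x ^ 3 + -4) (hy : 1 < V y) : 1 < V x := by
  by_contra hx
  rw [not_lt] at hx
  have h : V (y ^ 2) ≤ 1 := by
    rw [e]
    refine (V.map_add _ _).trans (max_le ?_ ?_)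
    · rw [map_pow]; exact pow_le_one₀ zero_le hx
    · rw [Valuation.map_neg]; exact four_le_L1 V
  rw [map_pow] at h
  exact absurd (one_lt_pow₀ hy (by norm_num : (2 : ℕ) ≠ 0)) (not_lt.2 h)

theorem z_lt_L1 {x y : F} (e : y ^ 2 = x ^ 3 + -4) (hx : 1 < V x) : V (x / y) < 1 := by
  obtain ⟨_, h1, h2⟩ := size_L1 V e hx
  rw [map_div₀]
  exact (div_lt_one₀ (lt_trans zero_lt_one h1)).2 h2

theorem u_lt_L1 {x y : F} (e : y ^ 2 = x ^ 3 + -4) (hx : 1 < V x) : V y⁻¹ < 1 := by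
  obtain ⟨_, h1, _⟩ := size_L1 V e hx
  rw [map_inv₀]
  exact inv_lt_one_of_one_lt₀ h1

theorem ne_L1 {x : F} (hx : 1 < V x) : x ≠ 0 := by
  rintro rfl
  simp at hx

theorem u_eq_L1 {x y : F} (e : y ^ 2 = x ^ 3 + -4) (hx : 1 < V x) : V y⁻¹ = V (x / y) ^ 3 := by
  obtain ⟨_, h1, _⟩ := size_L1 V e hx
  have hy := ne_L1 V h1
  have hu := u_lt_L1 V e hx
  have h : y⁻¹ * (1 + 4 * (y⁻¹ * y⁻¹)) = (x / y) ^ 3 := by
    field_simp
    linear_combination e
  have h2 := congrArg V h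
  rw [map_mul, map_pow, unit_L1 V (mul_lt_L1 V (four_le_L1 V) (mul_lt_L1 V hu.le hu)),
    mul_one] at h2
  exact h2

theorem two_L1 {x y : F} (e : y ^ 2 = x ^ 3 + -4) (hx : 1 < V x) :
    x / y ≠ 0 ∧ V (x * (x / y) ^ 2 - 1) < 1 := by
  obtain ⟨_, h1, _⟩ := size_L1 V e hx
  have hy := ne_L1 V h1
  have hu := u_lt_L1 V e hx
  refine ⟨div_ne_zero (ne_L1 V hx) hy, ?_⟩
  have h : x * (x / y) ^ 2 - 1 = 4 * (y⁻¹ * y⁻¹) := by
    field_simp
    linear_combination -e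
  rw [h]
  exact mul_lt_L1 V (four_le_L1 V) (mul_lt_L1 V hu.le hu)

/-- the slope in the coordinates at infinity -/
theorem slope_L1 [CharZero F] {x1 y1 x2 y2 m : F} (e1 : y1 ^ 2 = x1 ^ 3 + -4)
    (e2 : y2 ^ 2 = x2 ^ 3 + -4) (h1 : y1 ≠ 0) (h2 : y2 ≠ 0) (a1 : y2 - y1 = m * (x2 - x1))
    (a2 : m * (y1 + y2) = x1 ^ 2 + x1 * x2 + x2 ^ 2)
    (hD : 1 + 4 * (y1⁻¹ * y1⁻¹ + y1⁻¹ * y2⁻¹ + y2⁻¹ * y2⁻¹) ≠ 0) :
    m * (1 + 4 * (y1⁻¹ * y1⁻¹ + y1⁻¹ * y2⁻¹ + y2⁻¹ * y2⁻¹)) +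
      (y1 - m * x1) * ((x1 / y1) ^ 2 + (x1 / y1) * (x2 / y2) + (x2 / y2) ^ 2) = 0 := by
  obtain ⟨u1, hu1, rfl⟩ : ∃ u, u ≠ 0 ∧ y1 = u⁻¹ := ⟨y1⁻¹, inv_ne_zero h1, (inv_inv _).symm⟩
  obtain ⟨u2, hu2, rfl⟩ : ∃ u, u ≠ 0 ∧ y2 = u⁻¹ := ⟨y2⁻¹, inv_ne_zero h2, (inv_inv _).symm⟩
  obtain ⟨z1, rfl⟩ : ∃ z, x1 = z * u1⁻¹ := ⟨x1 * u1, by field_simp⟩
  obtain ⟨z2, rfl⟩ : ∃ z, x2 = z * u2⁻¹ := ⟨x2 * u2, by field_simp⟩
  simp only [inv_inv] at hD ⊢
  rw [mul_div_cancel_right₀ z1 h1, mul_div_cancel_right₀ z2 h2]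
  have f1 : u1 + 4 * u1 ^ 3 = z1 ^ 3 := by
    field_simp at e1
    linear_combination e1
  have f2 : u2 + 4 * u2 ^ 3 = z2 ^ 3 := by
    field_simp at e2
    linear_combination e2
  set c := u1⁻¹ - m * (z1 * u1⁻¹) with hc
  have g1 : m * z1 + c * u1 = 1 := by rw [hc]; field_simp; ring
  have g2 : m * z2 + c * u2 = 1 := by
    have : c = u2⁻¹ - m * (z2 * u2⁻¹) := by rw [hc]; linear_combination -a1
    rw [this]; field_simp; ring
  by_cases hz : z1 = z2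
  · subst hz
    have : (u1 - u2) * (1 + 4 * (u1 * u1 + u1 * u2 + u2 * u2)) = 0 := by
      linear_combination f1 - f2
    obtain rfl : u1 = u2 := sub_eq_zero.1 ((mul_eq_zero.1 this).resolve_right hD)
    have b : 2 * m * u1 = 3 * z1 ^ 2 := by
      field_simp at a2
      linear_combination a2
    have : (2 * (u1 * u1)) * (m * (1 + 4 * (u1 * u1 + u1 * u1 + u1 * u1)) +
        c * (z1 ^ 2 + z1 * z1 + z1 ^ 2)) = 0 := by
      linear_combination (u1 * (1 + 12 * u1 ^ 2) - 3 * z1 ^ 3) * b + 6 * u1 * z1 ^ 2 * g1 +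
        9 * z1 ^ 2 * f1
    exact (mul_eq_zero.1 this).resolve_left (mul_ne_zero two_ne_zero (mul_ne_zero hu1 hu1))
  · have : (z1 - z2) * (m * (1 + 4 * (u1 * u1 + u1 * u2 + u2 * u2)) +
        c * (z1 ^ 2 + z1 * z2 + z2 ^ 2)) = 0 := by
      linear_combination (1 + 4 * (u1 * u1 + u1 * u2 + u2 * u2)) * (g1 - g2) - c * (f1 - f2)
    exact (mul_eq_zero.1 this).resolve_left (sub_ne_zero.2 hz)

/-- the sum of two points at infinity -/
theorem main_L1 [CharZero F] {x1 y1 x2 y2 m x3 y3 : F} (e1 : y1 ^ 2 = x1 ^ 3 + -4)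
    (e2 : y2 ^ 2 = x2 ^ 3 + -4) (e3 : y3 ^ 2 = x3 ^ 3 + -4) (hx1 : 1 < V x1) (hx2 : 1 < V x2)
    (a1 : y2 - y1 = m * (x2 - x1)) (a2 : m * (y1 + y2) = x1 ^ 2 + x1 * x2 + x2 ^ 2)
    (a3 : x3 = m ^ 2 - x1 - x2) (a4 : y3 = m * (x1 - x3) - y1) {r : Γ} (r1 : V (x1 / y1) ≤ r)
    (r2 : V (x2 / y2) ≤ r) (hr : r < 1) :
    1 < V x3 ∧ V (x3 / y3 - x1 / y1 - x2 / y2) ≤ r ^ 7 := by
  have h1 := ne_L1 V (size_L1 V e1 hx1).2.1
  have h2 := ne_L1 V (size_L1 V e2 hx2).2.1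
  have u1 := u_lt_L1 V e1 hx1
  have u2 := u_lt_L1 V e2 hx2
  have vD : V (1 + 4 * (y1⁻¹ * y1⁻¹ + y1⁻¹ * y2⁻¹ + y2⁻¹ * y2⁻¹)) = 1 :=
    unit_L1 V (mul_lt_L1 V (four_le_L1 V) (add_lt_L1 V (add_lt_L1 V (mul_lt_L1 V u1.le u1)
      (mul_lt_L1 V u1.le u2)) (mul_lt_L1 V u2.le u2)))
  have hD : 1 + 4 * (y1⁻¹ * y1⁻¹ + y1⁻¹ * y2⁻¹ + y2⁻¹ * y2⁻¹) ≠ 0 := by
    intro h
    rw [h] at vD
    simp at vD
  have key := slope_L1 e1 e2 h1 h2 a1 a2 hD
  obtain ⟨D, hDe⟩ : ∃ D, D = 1 + 4 * (y1⁻¹ * y1⁻¹ + y1⁻¹ * y2⁻¹ + y2⁻¹ * y2⁻¹) := ⟨_, rfl⟩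
  rw [← hDe] at vD hD key
  obtain ⟨c, hc⟩ : ∃ c, c = y1 - m * x1 := ⟨_, rfl⟩
  rw [← hc] at key
  obtain ⟨l, hl⟩ : ∃ l, l = ((x1 / y1) ^ 2 + (x1 / y1) * (x2 / y2) + (x2 / y2) ^ 2) / D :=
    ⟨_, rfl⟩
  have vl : V l ≤ r ^ 2 := by
    rw [hl, map_div₀, vD, div_one]
    refine (V.map_add _ _).trans (max_le ((V.map_add _ _).trans (max_le ?_ ?_)) ?_)
    · rw [map_pow]; exact pow_le_pow_left₀ zero_le r1 2
    · rw [map_mul, pow_two]; exact mul_le_mul' r1 r2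
    · rw [map_pow]; exact pow_le_pow_left₀ zero_le r2 2
  have cl : c * l = -m := by
    rw [hl, ← mul_div_assoc, div_eq_iff hD]
    linear_combination key
  obtain ⟨n, hn⟩ : ∃ n, n = y1⁻¹ - l * (x1 / y1) := ⟨_, rfl⟩
  have vn : V n ≤ r ^ 3 := by
    rw [hn]
    refine (V.map_sub _ _).trans (max_le ?_ ?_)
    · rw [u_eq_L1 V e1 hx1]; exact pow_le_pow_left₀ zero_le r1 3
    · rw [map_mul, pow_succ r 2]; exact mul_le_mul' vl r1
  have cn : c * n = 1 := by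
    have : c * n = c * y1⁻¹ - c * l * (x1 / y1) := by rw [hn]; ring
    rw [this, cl, hc]
    field_simp
    ring
  have mn : m * n = -l := by linear_combination n * cl - l * cn
  have b1 : y1 = m * x1 + c := by rw [hc]; ring
  have b2 : y2 = m * x2 + c := by rw [hc]; linear_combination a1
  have b3 : y3 = -(m * x3 + c) := by rw [hc, a4]; ring
  have s1 : x1 + x2 + x3 = m ^ 2 := by rw [a3]; ring
  have s2 : x1 * x2 + x3 * (x1 + x2) = -2 * m * c := by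
    rw [a3]; linear_combination a2 - m * b1 - m * b2
  have s3 : x1 * x2 * x3 = c ^ 2 + 4 := by
    linear_combination -e1 + (y1 + m * x1 + c) * b1 + x1 * s2 - x1 ^ 2 * s1
  have p1 : y1 * y2 * y3 = -(c ^ 3 + 4 * m ^ 3) := by
    rw [b1, b2, b3]
    linear_combination -m ^ 3 * s3 - m ^ 2 * c * s2 - m * c ^ 2 * s1
  have p2 : x3 * (y1 * y2) - x1 * (y2 * y3) - x2 * (y1 * y3) = 12 * m ^ 2 := by
    rw [b1, b2, b3]
    linear_combination 3 * m ^ 2 * s3 + 2 * m * c * s2 + c ^ 2 * s1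
  have l1 : V l < 1 := lt_of_le_of_lt vl (pow_lt_one₀ zero_le hr (by norm_num))
  have n1 : V n < 1 := lt_of_le_of_lt vn (pow_lt_one₀ zero_le hr (by norm_num))
  have vE : V (1 + -4 * (l * (l * l))) = 1 := by
    refine unit_L1 V (mul_lt_L1 V ?_ (mul_lt_L1 V l1.le (mul_lt_L1 V l1.le l1)))
    rw [Valuation.map_neg]; exact four_le_L1 V
  have q1 : n ^ 3 * (y1 * y2 * y3) = -(1 + -4 * (l * (l * l))) := by
    rw [p1]
    linear_combination -((c * n) ^ 2 + c * n + 1) * cn -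
      4 * ((m * n) ^ 2 - m * n * l + l ^ 2) * mn
  have hE : 1 + -4 * (l * (l * l)) ≠ 0 := by
    intro h
    rw [h] at vE
    simp at vE
  have h3 : y3 ≠ 0 := by
    intro h
    rw [h, mul_zero, mul_zero] at q1
    exact hE (neg_eq_zero.1 q1.symm)
  have q2 : (x3 / y3 - x1 / y1 - x2 / y2) * (1 + -4 * (l * (l * l))) = -(12 * (l ^ 2 * n)) := by
    have t : (x3 / y3 - x1 / y1 - x2 / y2) * (y1 * y2 * y3) = 12 * m ^ 2 := by
      rw [← p2]; field_simp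
    linear_combination (x3 / y3 - x1 / y1 - x2 / y2) * q1 - n ^ 3 * t -
      12 * n * (m * n - l) * mn
  have fin : V (x3 / y3 - x1 / y1 - x2 / y2) ≤ r ^ 7 := by
    have := congrArg V q2
    rw [map_mul, vE, mul_one, Valuation.map_neg, map_mul, map_mul, map_pow] at this
    rw [this]
    refine (mul_le_of_le_one_left' (twelve_le_L1 V)).trans ?_
    calc V l ^ 2 * V n ≤ (r ^ 2) ^ 2 * r ^ 3 := mul_le_mul' (pow_le_pow_left₀ zero_le vl 2) vn
      _ = r ^ 7 := by rw [← pow_mul, ← pow_add]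
  refine ⟨big_L1 V e3 ?_, fin⟩
  have z3 : V (x3 / y3) < 1 := by
    have : x3 / y3 = (x3 / y3 - x1 / y1 - x2 / y2) + (x1 / y1 + x2 / y2) := by ring
    rw [this]
    exact add_lt_L1 V (lt_of_le_of_lt fin (pow_lt_one₀ zero_le hr (by norm_num)))
      (add_lt_L1 V (lt_of_le_of_lt r1 hr) (lt_of_le_of_lt r2 hr))
  have u3 : y3⁻¹ = -n + l * (x3 / y3) := by
    have : n * y3 = l * x3 - 1 := by linear_combination n * b3 - x3 * mn - cn
    field_simp
    linear_combination this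
  have v3 : V y3⁻¹ < 1 := by
    rw [u3]
    refine add_lt_L1 V ?_ (mul_lt_L1 V l1.le z3)
    rw [Valuation.map_neg]; exact n1
  rw [map_inv₀] at v3
  exact (inv_lt_one₀ (zero_lt_iff.2 ((V.ne_zero_iff).2 h3))).1 v3

end

theorem zlt_L1 (v : Pool.Agent.MP_14ad9d_nt.Full.Pr KK) (R : MM) (h : E1 v R) :
    vl v (zc R) < 1 := by
  by_cases hR : R = 0
  · rw [hR, zc, px_zero, zero_div, map_zero]; exact zero_lt_one
  · exact z_lt_L1 (vl v) (eqn hR) (h.resolve_left hR)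

theorem l1 : L1Stmt := by
  intro v
  refine ⟨zlt_L1 v, fun R hR h => two_L1 (vl v) (eqn hR) (h.resolve_left hR),
    fun R S r h1 h2 r1 r2 => ?_⟩
  have z0 : zc (0 : MM) = 0 := by rw [zc, px_zero, zero_div]
  by_cases hR : R = 0
  · rw [hR, zero_add, z0, sub_zero, sub_self, map_zero]
    exact ⟨h2, zero_le⟩
  by_cases hS : S = 0
  · rw [hS, add_zero, z0, sub_zero, sub_self, map_zero]
    exact ⟨h1, zero_le⟩
  by_cases h : R + S = 0
  · obtain ⟨a, b⟩ := (add_eq_zero_iff hR hS).1 h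
    have : zc (R + S) - zc R - zc S = 0 := by
      rw [h, z0, zc, zc, a, b, div_neg]; ring
    rw [this, map_zero]
    exact ⟨.inl h, zero_le⟩
  obtain ⟨m, a1, a2, a3, a4⟩ := add_data hR hS h
  obtain ⟨c1, c2⟩ := main_L1 (vl v) (eqn hR) (eqn hS) (eqn h) (h1.resolve_left hR)
    (h2.resolve_left hS) a1 a2 a3 a4 (r := max (vl v (zc R)) (vl v (zc S))) (le_max_left _ _)
    (le_max_right _ _) (max_lt (zlt_L1 v R h1) (zlt_L1 v S h2))
  exact ⟨.inr c1, c2.trans (pow_le_pow_left₀ zero_le (max_le r1 r2) 7)⟩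

end Pool.Agent.MP_adc87d_lc

end

section

/-! Translation by the kernel of reduction, multiplication by 1 - w, and duplication. -/

set_option autoImplicit false

noncomputable section

namespace Pool.Agent.MP_adc87d_lc

open QuadraticAlgebra NumberField IsDedekindDomain
open Pool.Agent.MP_14ad9d_nt.Full
open Pool.Agent.MP_e23604_nt (Zw nw)

theorem nat_le_L2 {F Γ : Type} [Field F] [LinearOrderedCommGroupWithZero Γ] (V : Valuation F Γ)
    (n : ℕ) : V (n : F) ≤ 1 := by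
  induction n with
  | zero => simp
  | succ n ih =>
    rw [Nat.cast_succ]
    exact V.map_add_le ih (by simp)

theorem core_L2 {F Γ : Type} [Field F] [LinearOrderedCommGroupWithZero Γ] (V : Valuation F Γ)
    {x y X Y t : F} (h1 : y ^ 2 = x ^ 3 + -4) (h2 : Y ^ 2 = X ^ 3 + -4) (hx : V x ≤ 1)
    (hX : 1 < V X) (ht : t * (X - x) ^ 2 = -12 - y ^ 2 - 2 * y * Y + 3 * x ^ 2 * X) : V t < 1 := by
  have n2 : V 2 ≤ 1 := by simpa using nat_le_L2 V 2
  have n3 : V 3 ≤ 1 := by simpa using nat_le_L2 V 3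
  have n4 : V (-4) ≤ 1 := by simpa using nat_le_L2 V 4
  have n12 : V (-12) ≤ 1 := by simpa using nat_le_L2 V 12
  have hy2 : V y ^ 2 ≤ 1 := by
    rw [← map_pow, h1]
    exact V.map_add_le (by rw [map_pow]; exact pow_le_one₀ zero_le hx) n4
  have hy : V y ≤ 1 := by
    by_contra h
    exact absurd (one_lt_pow₀ (not_le.1 h) two_ne_zero) (not_lt.2 hy2)
  have hX3 : 1 < V X ^ 3 := one_lt_pow₀ hX three_ne_zero
  have hX2 : 1 < V X ^ 2 := one_lt_pow₀ hX two_ne_zero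
  have hXX : V X < V X ^ 2 := by
    have := pow_lt_pow_right₀ hX (show 1 < 2 by norm_num)
    simpa using this
  have hY2 : V Y ^ 2 = V X ^ 3 := by
    rw [← map_pow, h2, V.map_add_eq_of_lt_left (by rw [map_pow]; exact n4.trans_lt hX3), map_pow]
  have hY : V Y < V X ^ 2 := by
    refine lt_of_pow_lt_pow_left₀ 2 zero_le ?_
    rw [hY2, ← pow_mul]
    exact pow_lt_pow_right₀ hX (by norm_num)
  have hd : V (X - x) = V X := V.map_sub_eq_of_lt_left (hx.trans_lt hX)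
  have hnum : V (t * (X - x) ^ 2) < V X ^ 2 := by
    rw [ht]
    refine V.map_add_lt (V.map_sub_lt (V.map_sub_lt (n12.trans_lt hX2) ?_) ?_) ?_
    · rw [map_pow]; exact hy2.trans_lt hX2
    · rw [map_mul, map_mul]
      refine lt_of_le_of_lt ?_ hY
      exact mul_le_of_le_one_left zero_le (mul_le_one₀ n2 zero_le hy)
    · rw [map_mul, map_mul, map_pow]
      refine lt_of_le_of_lt ?_ hXX
      exact mul_le_of_le_one_left zero_le (mul_le_one₀ n3 zero_le (pow_le_one₀ zero_le hx))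
  rw [map_mul, map_pow, hd] at hnum
  by_contra h
  exact absurd hnum (not_lt.2 (le_mul_of_one_le_left zero_le (not_lt.1 h)))

theorem th_smul_L2 (R : MM) : th • R = R + -om R := by
  rw [smul_def]
  have h1 : th.re = 1 := by simp [th]
  have h2 : th.im = -1 := by simp [th]
  rw [h1, h2, one_smul, neg_smul, one_smul]

theorem l2 : L2Stmt := by
  refine ⟨fun v R S hR hx hS => ?_, fun R hx => ?_, fun R hR h => ?_⟩
  · by_cases h0 : S = 0
    · subst h0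
      rw [add_zero, sub_self, map_zero]
      exact ⟨hR, zero_lt_one⟩
    have hX : 1 < vl v (px S) := hS.resolve_left h0
    have h : R + S ≠ 0 := fun h => by
      have := ((add_eq_zero_iff hR h0).1 h).1
      rw [this] at hX
      exact absurd hX (not_lt.2 hx)
    obtain ⟨m, a1, -, a3, -⟩ := add_data hR h0 h
    have e1 := eqn hR
    have e2 := eqn h0
    refine ⟨h, core_L2 (vl v) e1 e2 hx hX ?_⟩
    rw [a3]
    linear_combination (-(py S - py R) - m * (px S - px R)) * a1 + e2 + 2 * e1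
  · have hR : R ≠ 0 := fun h => hx (by rw [h, px_zero])
    have hw1 : (1 : KK) - w ≠ 0 := sub_ne_zero.2 (hw.ne_one (by norm_num)).symm
    have hS : -om R ≠ 0 := fun h => by
      have : px (-om R) = 0 := by rw [h, px_zero]
      rw [px_neg, px_om] at this
      exact mul_ne_zero w_ne hx this
    have h : R + -om R ≠ 0 := fun h => by
      have := ((add_eq_zero_iff hR hS).1 h).1
      rw [px_neg, px_om] at this
      exact mul_ne_zero hw1 hx (by linear_combination -this)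
    obtain ⟨m, a1, -, a3, -⟩ := add_data hR hS h
    rw [px_neg, px_om, py_neg, py_om] at a1
    rw [px_neg, px_om] at a3
    have e1 := eqn hR
    rw [th_smul_L2]
    refine ⟨h, ?_⟩
    rw [eq_div_iff (mul_ne_zero (pow_ne_zero _ hw1) (pow_ne_zero _ hx)), a3]
    linear_combination (2 * py R - m * (w * px R - px R)) * a1 + 4 * e1 +
      px R ^ 3 * (2 - w) * w_rel
  · obtain ⟨m, -, a2, a3, -⟩ := add_data hR hR h
    have e1 := eqn hR
    have hy : py R ≠ 0 := fun hy => h ((add_eq_zero_iff hR hR).2 ⟨rfl, by rw [hy, neg_zero]⟩)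
    have e2 : px R ^ 3 - 4 = py R ^ 2 := by linear_combination -e1
    rw [e2, eq_div_iff (mul_ne_zero (by norm_num) (pow_ne_zero _ hy)), a3]
    linear_combination (2 * m * py R + 3 * px R ^ 2) * a2 - 8 * px R * e1

end Pool.Agent.MP_adc87d_lc

end
end

section

/-! Multiples of a point at the prime above three. -/

set_option autoImplicit false

noncomputable section

namespace Pool.Agent.MP_adc87d_lc

open QuadraticAlgebra NumberField IsDedekindDomain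
open Pool.Agent.MP_14ad9d_nt.Full
open Pool.Agent.MP_e23604_nt (Zw nw nw_def nw_nonneg)

theorem th_ne_L3 : (1 - w : KK) ≠ 0 := sub_ne_zero.2 (hw.ne_one (by norm_num)).symm

theorem three_L3 : (3 : KK) + w ^ 2 * (1 - w) ^ 2 = 0 := by
  linear_combination (w ^ 2 - 3 * w + 3) * w_rel

theorem wint_L3 (v : Pr KK) : w ∈ (vl v).integer := by
  rw [Valuation.mem_integer_iff]
  have h : vl v w ^ 3 = 1 := by rw [← map_pow, w_cube, map_one]
  exact ((pow_eq_one_iff_of_nonneg zero_le (by norm_num)).1 h).le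

theorem thint_L3 (v : Pr KK) : 1 - w ∈ (vl v).integer := sub_mem (one_mem _) (wint_L3 v)

theorem split_L3 {v : Pr KK} {x : KK} {n : ℕ} (h : vl v x ≤ vl v (1 - w) ^ n) :
    ∃ u ∈ (vl v).integer, x = (1 - w) ^ n * u := by
  refine ⟨x / (1 - w) ^ n, ?_, by field_simp [th_ne_L3]⟩
  rw [Valuation.mem_integer_iff, map_div₀, map_pow]
  exact div_le_one_of_le₀ h zero_le

theorem bound_L3 {v : Pr KK} {x a b c : KK} (ha : a ∈ (vl v).integer) (hb : b ∈ (vl v).integer)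
    (hc : c ∈ (vl v).integer) (h : x = (1 - w) ^ 3 * a + 3 * (1 - w) * b + 9 * c) :
    vl v x ≤ vl v (1 - w) ^ 3 := by
  have hw' := wint_L3 v
  have ht := thint_L3 v
  have e : x = (1 - w) ^ 3 * (a - w ^ 2 * b + w ^ 4 * (1 - w) * c) := by
    rw [h]
    linear_combination ((1 - w) * b + c * (3 - w ^ 2 * (1 - w) ^ 2)) * three_L3
  have m : a - w ^ 2 * b + w ^ 4 * (1 - w) * c ∈ (vl v).integer :=
    add_mem (sub_mem ha (mul_mem (pow_mem hw' _) hb)) (mul_mem (mul_mem (pow_mem hw' _) ht) hc)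
  rw [e, map_mul, map_pow]
  exact mul_le_of_le_one_right' ((Valuation.mem_integer_iff _ _).1 m)

theorem io_star_L3 (b : Zw) : io (star b) = b.re + b.im * w ^ 2 := by
  rw [io_apply]
  simp only [re_star, im_star]
  push_cast
  linear_combination (-b.im : KK) * w_rel

theorem star_one_L3 (v : Pr KK) {b : Zw} (h : (b.re + b.im) % 3 = 1) :
    ∃ t ∈ (vl v).integer, io (star b) = 1 + (1 - w) * t := by
  obtain ⟨m, hm⟩ : ∃ m : ℤ, b.re = 1 + 3 * m - b.im := ⟨(b.re + b.im) / 3, by omega⟩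
  have hw' := wint_L3 v
  refine ⟨-(w ^ 2 * (1 - w) * m) - b.im * (1 + w), sub_mem (neg_mem (mul_mem (mul_mem
    (pow_mem hw' _) (thint_L3 v)) (intCast_mem _ _))) (mul_mem (intCast_mem _ _)
      (add_mem (one_mem _) hw')), ?_⟩
  rw [io_star_L3, hm]
  push_cast
  linear_combination (m : KK) * three_L3

/-- the inductive claim -/
def Ok_L3 (v : Pr KK) (e : ℤ) (P : MM) (a : Zw) : Prop :=
  Ty v e (a • P) ∧ vl v (px (a • P) - io (star a) ^ 2 * px P) ≤ vl v (1 - w) ^ 3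

theorem neg_L3 (hT : TyStmt) {v : Pr KK} (hv : ¬Tm 3 v) {e : ℤ} {P : MM} {a : Zw}
    (h : Ok_L3 v e P a) : Ok_L3 v (-e) P (-a) := by
  refine ⟨?_, ?_⟩
  · rw [neg_smul]
    exact ((hT v hv).2.2.1 e _ h.1).1
  · rw [neg_smul, px_neg, star_neg, map_neg, neg_sq]
    exact h.2

theorem step_L3 (hT : TyStmt) {v : Pr KK} (hv : ¬Tm 3 v) {e : ℤ} (he : e = 1 ∨ e = -1) {P : MM}
    (hP : vl v (px P - 1) ≤ vl v (1 - w) ^ 1) {b c : Zw} (hb : (b.re + b.im) % 3 = 1)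
    (hc : (c.re + c.im) % 3 = 1) (h1 : Ok_L3 v e P b) (h2 : Ok_L3 v e P c) :
    Ok_L3 v (-e) P (b + c) := by
  obtain ⟨k1, k2⟩ := (hT v hv).2.2.2.1 e _ _ he h1.1 h2.1
  rw [← add_smul] at k1 k2
  refine ⟨k1, ?_⟩
  obtain ⟨τ, mτ, e0⟩ := split_L3 hP
  obtain ⟨u1, m1, e1⟩ := split_L3 h1.2
  obtain ⟨u2, m2, e2⟩ := split_L3 h2.2
  obtain ⟨u3, m3, e3⟩ := split_L3 k2
  obtain ⟨t1, n1, f1⟩ := star_one_L3 v hb
  obtain ⟨t2, n2, f2⟩ := star_one_L3 v hc
  have ht := thint_L3 v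
  rw [star_add, map_add]
  rw [f1] at e1
  rw [f2] at e2
  rw [f1, f2]
  rw [sub_eq_iff_eq_add] at e0 e1 e2 e3
  rw [e3, e1, e2, e0]
  have two : (2 : KK) ∈ (vl v).integer := ofNat_mem _ _
  have four : (4 : KK) ∈ (vl v).integer := ofNat_mem _ _
  have hd := sub_mem n1 n2
  have hs := add_mem n1 n2
  have hr := add_mem (add_mem (mul_mem (mul_mem hd hs) (add_mem (one_mem _) (mul_mem ht mτ)))
    (mul_mem (mul_mem two hd) mτ)) (mul_mem ht (sub_mem m1 m2))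
  have hp := mul_mem n1 n2
  refine bound_L3 (sub_mem m3 (add_mem (add_mem (mul_mem hr (add_mem (mul_mem four hd)
    (mul_mem ht hr))) (add_mem m1 m2)) (mul_mem (mul_mem two mτ) (pow_mem hd 2))))
    (neg_mem (mul_mem two (add_mem (add_mem (add_mem (mul_mem ht (pow_mem hd 2)) hs)
      (mul_mem ht hp)) (mul_mem mτ (add_mem (add_mem (one_mem _) (mul_mem ht hs))
        (mul_mem (pow_mem ht 2) hp)))))) (neg_mem (one_mem _)) ?_
  generalize (1 - w : KK) = θ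
  ring

theorem base_L3 (hT : TyStmt) {v : Pr KK} (hv : ¬Tm 3 v) {e : ℤ} {P : MM} {a : Zw}
    (h : Ok_L3 v e P a) : Ok_L3 v e P (ω * a) := by
  refine ⟨?_, ?_⟩
  · rw [mul_smul, omega_smul]
    exact ((hT v hv).2.2.1 e _ h.1).2
  · have e1 : io (star (ω * a)) ^ 2 = w * io (star a) ^ 2 := by
      rw [star_mul', map_mul, io_star_L3 ω]
      simp only [omega_re, omega_im]
      push_cast
      linear_combination w * io (star a) ^ 2 * w_cube
    rw [mul_smul, omega_smul, px_om, e1, mul_assoc, ← mul_sub, map_mul]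
    exact (mul_le_of_le_one_left' ((Valuation.mem_integer_iff _ _).1 (wint_L3 v))).trans h.2

theorem ind_L3 (hT : TyStmt) {v : Pr KK} (hv : ¬Tm 3 v) {e : ℤ} (he : e = 1 ∨ e = -1) {P : MM}
    (hP : vl v (px P - 1) ≤ vl v (1 - w) ^ 1) (h0 : Ty v e P) (n : ℕ) :
    ∀ a : Zw, nw a < n → (a.re + a.im) % 3 = 1 → Ok_L3 v e P a := by
  have b0 : Ok_L3 v e P 1 := ⟨by rwa [one_smul], by simp⟩
  have b1 := base_L3 hT hv b0
  have b2 := base_L3 hT hv b1
  induction n with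
  | zero => exact fun a h => absurd (nw_nonneg a) (by simpa using h)
  | succ n ih =>
    intro a h ha
    have key : ∀ c : Zw, Ok_L3 v e P c → (c.re + c.im) % 3 = 1 → nw (-(a + c)) < nw a →
        Ok_L3 v e P a := fun c hc hc' hn => by
      have hb : ((-(a + c)).re + (-(a + c)).im) % 3 = 1 := by
        simp only [re_neg, im_neg, re_add, im_add]
        omega
      have := neg_L3 hT hv (step_L3 hT hv he hP hb hc' (ih _ (by push_cast at h; omega) hb) hc)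
      rwa [neg_neg, show -(-(a + c) + c) = a by ring] at this
    by_cases c0 : 2 * a.re - a.im + 1 < 0
    · exact key _ b0 (by simp) (by simp [nw_def]; linarith)
    by_cases c1 : 2 * a.im - a.re + 1 < 0
    · exact key _ b1 (by simp) (by simp [nw_def]; linarith)
    by_cases c2 : 1 - a.re - a.im < 0
    · exact key _ b2 (by simp) (by simp [nw_def]; linarith)
    have : (a.re = 1 ∧ a.im = 0) ∨ (a.re = 0 ∧ a.im = 1) ∨ (a.re = -1 ∧ a.im = -1) := by omega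
    rcases this with ⟨p, q⟩ | ⟨p, q⟩ | ⟨p, q⟩
    · rwa [show a = 1 by ext <;> simp [p, q]]
    · rwa [show a = ω * 1 by ext <;> simp [p, q]]
    · rwa [show a = ω * (ω * 1) by ext <;> simp [p, q]]

theorem rep_L3 {a : Zw} (h : Good a) : ∃ (e : ℕ) (s : ℤ) (k : Zw), (s = 1 ∨ s = -1) ∧
    (e = 0 ∨ e = 1 ∨ e = 2) ∧ a = (s : Zw) * (ω ^ e + 3 * k) := by
  have h3 : (3 : Zw) = ((3 : ℤ) : Zw) := by norm_num
  have : (a.re % 3 = 1 ∧ a.im % 3 = 0) ∨ (a.re % 3 = 0 ∧ a.im % 3 = 1) ∨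
      (a.re % 3 = 2 ∧ a.im % 3 = 2) ∨ (a.re % 3 = 2 ∧ a.im % 3 = 0) ∨
      (a.re % 3 = 0 ∧ a.im % 3 = 2) ∨ (a.re % 3 = 1 ∧ a.im % 3 = 1) := by
    unfold Good at h
    omega
  rcases this with ⟨p, q⟩ | ⟨p, q⟩ | ⟨p, q⟩ | ⟨p, q⟩ | ⟨p, q⟩ | ⟨p, q⟩
  · exact ⟨0, 1, ⟨a.re / 3, a.im / 3⟩, .inl rfl, .inl rfl, by
      rw [h3]; ext <;> simp <;> omega⟩
  · exact ⟨1, 1, ⟨a.re / 3, a.im / 3⟩, .inl rfl, .inr (.inl rfl), by
      rw [h3]; ext <;> simp <;> omega⟩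
  · exact ⟨2, 1, ⟨a.re / 3 + 1, a.im / 3 + 1⟩, .inl rfl, .inr (.inr rfl), by
      rw [h3]; ext <;> simp [pow_two] <;> omega⟩
  · exact ⟨0, -1, ⟨-(a.re / 3) - 1, -(a.im / 3)⟩, .inr rfl, .inl rfl, by
      rw [h3]; ext <;> simp <;> omega⟩
  · exact ⟨1, -1, ⟨-(a.re / 3), -(a.im / 3) - 1⟩, .inr rfl, .inr (.inl rfl), by
      rw [h3]; ext <;> simp <;> omega⟩
  · exact ⟨2, -1, ⟨-(a.re / 3), -(a.im / 3)⟩, .inr rfl, .inr (.inr rfl), by
      rw [h3]; ext <;> simp [pow_two] <;> omega⟩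

theorem all_L3 (hK : KFStmt) (hT : TyStmt) {v : Pr KK} (hv : ¬Tm 3 v) {P : MM} (h0 : P ≠ 0)
    (hP : vl v (px P - 1) < 1) {a : Zw} (ha : Good a) : ∃ e, Ok_L3 v e P a := by
  have hP' : vl v (px P - 1) ≤ vl v (1 - w) ^ 1 := by
    rw [pow_one]
    exact (hK.2.2.2.2.1 v hv).1 _ hP
  obtain ⟨e, he, hty⟩ : ∃ e : ℤ, (e = 1 ∨ e = -1) ∧ Ty v e P :=
    ((hT v hv).1 P h0 hP).elim (fun h => ⟨1, .inl rfl, h⟩) fun h => ⟨-1, .inr rfl, h⟩
  have m : ∀ b : Zw, (b.re + b.im) % 3 = 1 → Ok_L3 v e P b := fun b hb =>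
    ind_L3 hT hv he hP' hty ((nw b).toNat + 1) b (by push_cast; omega) hb
  unfold Good at ha
  by_cases c : (a.re + a.im) % 3 = 1
  · exact ⟨e, m a c⟩
  · have := neg_L3 hT hv (m (-a) (by simp only [re_neg, im_neg]; omega))
    rw [neg_neg] at this
    exact ⟨_, this⟩

theorem l3 (hK : KFStmt) (hT : TyStmt) : L3Stmt := by
  intro P h0 hP a ha
  refine ⟨fun v hv => (all_L3 hK hT hv h0 (hP v hv) ha).choose_spec.1.2.1, ?_⟩
  obtain ⟨e, s, k, hs, he, ea⟩ := rep_L3 ha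
  refine ⟨e, s, k, hs, ea, fun v hv => ?_⟩
  obtain ⟨_, -, h⟩ := all_L3 hK hT hv h0 (hP v hv) ha
  obtain ⟨u, mu, eu⟩ := split_L3 h
  have hx : vl v (px P) = 1 := by
    have := Valuation.map_one_add_of_lt (vl v) (hP v hv)
    rwa [add_sub_cancel] at this
  have hx0 : px P ≠ 0 := fun e => by simp [e] at hx
  have mi : (px P)⁻¹ ∈ (vl v).integer := by
    rw [Valuation.mem_integer_iff, map_inv₀, hx, inv_one]
  have hw' := wint_L3 v
  obtain ⟨c, mc, ec⟩ : ∃ c ∈ (vl v).integer, (w ^ 2) ^ e = 1 + (1 - w) * c := by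
    rcases he with rfl | rfl | rfl
    · exact ⟨0, zero_mem _, by ring⟩
    · exact ⟨-(1 + w), neg_mem (add_mem (one_mem _) hw'), by ring⟩
    · exact ⟨-1, neg_mem (one_mem _), by linear_combination w * w_cube⟩
  have e2 : ((w ^ 2) ^ e) ^ 2 = w ^ e := by
    rw [← pow_mul, mul_comm e, pow_mul, show (w ^ 2) ^ 2 = w by linear_combination w * w_cube]
  have so : io (star ω) = w ^ 2 := by simp [io_star_L3]
  have es : io (star a) ^ 2 = ((w ^ 2) ^ e + 3 * (k.re + k.im * w ^ 2)) ^ 2 := by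
    have h3 : (3 : Zw) = ((3 : ℤ) : Zw) := by norm_num
    rw [ea, h3]
    simp only [star_mul', star_add, star_pow, star_intCast, map_mul, map_add, map_pow,
      map_intCast, so, io_star_L3 k]
    rcases hs with rfl | rfl <;> push_cast <;> ring
  have mk : (k.re + k.im * w ^ 2 : KK) ∈ (vl v).integer :=
    add_mem (intCast_mem _ _) (mul_mem (intCast_mem _ _) (pow_mem hw' _))
  refine bound_L3 (mul_mem mu mi) (sub_mem (mul_mem (intCast_mem _ k.im) hw') (mul_mem mc mk))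
    (add_mem (mul_mem (pow_mem (pow_mem hw' 2) e) mk) (pow_mem mk 2)) ?_
  rw [sub_eq_iff_eq_add] at eu
  rw [Vq, eu, es, io_apply, add_div, mul_div_cancel_right₀ _ hx0, div_eq_mul_inv]
  linear_combination e2 - 3 * (k.re + k.im * w ^ 2) * ec

end Pool.Agent.MP_adc87d_lc

end
end

section

/-! Descent in the Gaussian integers for the curve y^2 = x^3 - 4. -/

set_option autoImplicit false

namespace Pool.Agent.MP_adc87d_lc

theorem unit_cube_D1 (u : GaussianInt) (hu : IsUnit u) : ∃ v : GaussianInt, u = v ^ 3 := by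
  have h : u.norm = 1 := (Zsqrtd.norm_eq_one_iff' (by norm_num) u).2 hu
  rw [Zsqrtd.norm_def] at h
  have h4 : u ^ 4 = 1 := by
    obtain ⟨r, s⟩ := u
    simp only at h
    have hr : r ^ 2 ≤ 1 := by nlinarith [sq_nonneg s]
    have hs : s ^ 2 ≤ 1 := by nlinarith [sq_nonneg r]
    have a1 : -1 ≤ r := by nlinarith
    have a2 : r ≤ 1 := by nlinarith
    have b1 : -1 ≤ s := by nlinarith
    have b2 : s ≤ 1 := by nlinarith
    interval_cases r <;> interval_cases s <;> first | decide | omega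
  exact ⟨u ^ 3, by linear_combination (-u ^ 5 - u) * h4⟩

theorem cube_D1 (r s n : ℤ) (h1 : IsCoprime r s) (h2 : ¬(2 : ℤ) ∣ n) (h : r ^ 2 + s ^ 2 = n ^ 3) :
    ∃ p q : ℤ, r = p ^ 3 - 3 * p * q ^ 2 ∧ s = 3 * p ^ 2 * q - q ^ 3 ∧ n = p ^ 2 + q ^ 2 := by
  have c2 : IsCoprime (n ^ 3) 2 :=
    ((Int.prime_two.coprime_iff_not_dvd).2 h2).symm.pow_left
  have cs : IsCoprime (n ^ 3) s := by
    rw [← h, show r ^ 2 + s ^ 2 = r ^ 2 + s * s by ring]
    exact (h1.pow_left).add_mul_left_left s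
  obtain ⟨a, b, hab⟩ := c2.mul_right cs
  rw [← h] at hab
  have hc : IsCoprime (⟨r, s⟩ : GaussianInt) ⟨r, -s⟩ := by
    refine ⟨(a : GaussianInt) * ⟨r, -s⟩ + ⟨0, -b⟩, ⟨0, b⟩, ?_⟩
    ext
    · simp
      linear_combination hab
    · simp
      ring
  have hm : (⟨r, s⟩ : GaussianInt) * ⟨r, -s⟩ = (n : GaussianInt) ^ 3 := by
    rw [← Int.cast_pow, ← h]
    ext
    · simp [pow_two]
    · simp [pow_two]
      ring
  obtain ⟨d, u, hu⟩ := exists_associated_pow_of_mul_eq_pow' hc hm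
  obtain ⟨v, hv⟩ := unit_cube_D1 u u.isUnit
  rw [hv, ← mul_pow] at hu
  generalize d * v = z at hu
  obtain ⟨p, q⟩ := z
  have e1 := congrArg Zsqrtd.re hu
  have e2 := congrArg Zsqrtd.im hu
  simp only [pow_succ, pow_zero, one_mul, Zsqrtd.re_mul, Zsqrtd.im_mul] at e1 e2
  have f1 : r = p ^ 3 - 3 * p * q ^ 2 := by linear_combination -e1
  have f2 : s = 3 * p ^ 2 * q - q ^ 3 := by linear_combination -e2
  refine ⟨p, q, f1, f2, ?_⟩
  apply (Odd.pow_injective (by decide : Odd 3))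
  simp only
  rw [← h, f1, f2]
  ring

theorem int_D1 (a b e : ℤ) (hc : IsCoprime b e) (h : b ^ 2 = a ^ 3 - 4 * e ^ 6) :
    ∃ p q : ℤ, 3 * p ^ 2 * q - q ^ 3 = 2 * e ^ 3 ∧ a = p ^ 2 + q ^ 2 := by
  have p2 := Int.prime_two
  by_cases hb : (2 : ℤ) ∣ b
  · obtain ⟨b, rfl⟩ := hb
    have ha : (2 : ℤ) ∣ a := p2.dvd_of_dvd_pow (n := 3) ⟨2 * b ^ 2 + 2 * e ^ 6, by
      linear_combination -h⟩
    obtain ⟨a, rfl⟩ := ha
    have he : ¬(2 : ℤ) ∣ e := (p2.coprime_iff_not_dvd).1 hc.of_mul_left_left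
    have he3 : ¬(2 : ℤ) ∣ e ^ 3 := fun k => he (p2.dvd_of_dvd_pow k)
    have c3 : IsCoprime b (e ^ 3) := hc.of_mul_left_right.pow_right
    have h' : b ^ 2 + (e ^ 3) ^ 2 = 2 * a ^ 3 := by linarith
    have t : ∀ E : ℤ, ¬(2 : ℤ) ∣ E → IsCoprime b E → b ^ 2 + E ^ 2 = 2 * a ^ 3 →
        ∃ p q : ℤ, 3 * p ^ 2 * q - q ^ 3 = 2 * E ∧ 2 * a = p ^ 2 + q ^ 2 := by
      intro E hE cE k
      have hb : ¬(2 : ℤ) ∣ b := by
        rintro ⟨c, rfl⟩
        exact hE (p2.dvd_of_dvd_pow (n := 2) ⟨a ^ 3 - 2 * c ^ 2, by linear_combination k⟩)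
      obtain ⟨r, hr⟩ : ∃ r, b + E = 2 * r := ⟨(b + E) / 2, by omega⟩
      obtain ⟨s, hs⟩ : ∃ s, E - b = 2 * s := ⟨(E - b) / 2, by omega⟩
      have b1 : b = r - s := by omega
      have b2 : E = r + s := by omega
      subst b1 b2
      have k' : r ^ 2 + s ^ 2 = a ^ 3 := by linarith
      have crs : IsCoprime r s := by
        obtain ⟨u, v, huv⟩ := cE
        exact ⟨u + v, v - u, by linear_combination huv⟩
      have oa : ¬(2 : ℤ) ∣ a := by
        rintro ⟨c, rfl⟩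
        exact hE (p2.dvd_of_dvd_pow (n := 2) ⟨4 * c ^ 3 + r * s, by linear_combination k'⟩)
      obtain ⟨p, q, f1, f2, f3⟩ := cube_D1 r s a crs oa k'
      exact ⟨-p - q, p - q, by rw [f1, f2]; ring, by rw [f3]; ring⟩
    exact t _ he3 c3 h'
  · have oa : ¬(2 : ℤ) ∣ a := by
      rintro ⟨c, rfl⟩
      exact hb (p2.dvd_of_dvd_pow (n := 2) ⟨4 * c ^ 3 - 2 * e ^ 6, by linear_combination h⟩)
    have c : IsCoprime b (2 * e ^ 3) :=
      ((p2.coprime_iff_not_dvd).2 hb).symm.mul_right hc.pow_right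
    obtain ⟨p, q, _, f2, f3⟩ := cube_D1 b (2 * e ^ 3) a c oa (by linear_combination h)
    exact ⟨p, q, f2.symm, f3⟩

theorem rat_D1 (x y : ℚ) (h : y ^ 2 = x ^ 3 - 4) :
    ∃ p q : ℚ, 3 * p ^ 2 * q - q ^ 3 = 2 ∧ x = p ^ 2 + q ^ 2 := by
  have hd : y.den ^ 2 = x.den ^ 3 := by
    have := congrArg Rat.den h
    rwa [Rat.sub_ofNat_den, Rat.den_pow, Rat.den_pow] at this
  obtain ⟨e, hy, hx⟩ := Nat.exists_eq_pow_of_exponent_coprime_of_pow_eq_pow (by norm_num) hd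
  have e0 : (e : ℚ) ≠ 0 := by
    intro k
    have : e = 0 := by exact_mod_cast k
    rw [this] at hy
    exact y.den_ne_zero hy
  have ex : (x.num : ℚ) = x * e ^ 2 := by
    rw [← Rat.mul_den_eq_num, hx]; push_cast; ring
  have ey : (y.num : ℚ) = y * e ^ 3 := by
    rw [← Rat.mul_den_eq_num, hy]; push_cast; ring
  have hc : IsCoprime y.num (e : ℤ) := by
    have := Rat.isCoprime_num_den y
    rw [hy] at this
    push_cast at this
    exact (IsCoprime.pow_right_iff (by norm_num)).1 this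
  have hi : y.num ^ 2 = x.num ^ 3 - 4 * (e : ℤ) ^ 6 := by
    have : (y.num : ℚ) ^ 2 = (x.num : ℚ) ^ 3 - 4 * (e : ℚ) ^ 6 := by
      rw [ex, ey]; linear_combination (e : ℚ) ^ 6 * h
    exact_mod_cast this
  obtain ⟨p, q, f1, f2⟩ := int_D1 _ _ _ hc hi
  have g1 : 3 * (p : ℚ) ^ 2 * q - (q : ℚ) ^ 3 = 2 * (e : ℚ) ^ 3 := by exact_mod_cast f1
  have g2 : (x.num : ℚ) = (p : ℚ) ^ 2 + (q : ℚ) ^ 2 := by exact_mod_cast f2
  refine ⟨p / e, q / e, ?_, ?_⟩
  · field_simp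
    linear_combination g1
  · field_simp
    linear_combination g2 - ex

theorem d1 : D1Stmt := rat_D1

end Pool.Agent.MP_adc87d_lc

end

section

/-! The points that come from x^3 + 3 y^2 = 4 form a group of rank at most one. -/

set_option autoImplicit false

noncomputable section

namespace Pool.Agent.MP_adc87d_lc

open QuadraticAlgebra NumberField IsDedekindDomain
open Pool.Agent.MP_14ad9d_nt.Full
open Pool.Agent.MP_e23604_nt (Zw nw)

theorem s_sq_Rk : (1 + 2 * w) ^ 2 = -3 := by linear_combination 4 * w_rel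

theorem s_ne_Rk : (1 + 2 * w) ≠ 0 := fun h => by
  have := s_sq_Rk
  rw [h] at this
  norm_num at this

theorem exists_psi_Rk : ∃ ψ : Pt (108 : ℚ) →+ MM, Function.Injective ψ ∧
    (∀ g, px (ψ g) = ((-px g / 3 : ℚ) : KK)) ∧
    ∀ g, py (ψ g) = (1 + 2 * w) * ((py g / 9 : ℚ) : KK) := by
  have h2 : (1 + 2 * w)⁻¹ ^ 2 = -1 / 3 := by rw [inv_pow, s_sq_Rk]; norm_num
  have h3 : (1 + 2 * w)⁻¹ ^ 3 = (1 + 2 * w) / 9 := by
    have h := s_ne_Rk
    field_simp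
    linear_combination (3 - (1 + 2 * w) ^ 2) * s_sq_Rk
  obtain ⟨ψ, h0, hx, hy⟩ := exists_scale (d := (108 : ℚ)) (algebraMap ℚ KK)
    (u := (1 + 2 * w)⁻¹) (d' := -4) (inv_ne_zero s_ne_Rk) (by norm_num) (by
      have : (1 + 2 * w)⁻¹ ^ 6 = ((1 + 2 * w)⁻¹ ^ 2) ^ 3 := by ring
      rw [this, h2, eq_ratCast]
      norm_num)
  refine ⟨ψ, h0, fun g => ?_, fun g => ?_⟩
  · rw [hx, h2, eq_ratCast]; push_cast; ring
  · rw [hy, h3, eq_ratCast]; push_cast; ring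

/-- the map from the rational points of Y^2 = X^3 + 108 -/
def psi_Rk : Pt (108 : ℚ) →+ MM := exists_psi_Rk.choose

theorem psi_inj_Rk : Function.Injective psi_Rk := exists_psi_Rk.choose_spec.1

theorem rm_psi_Rk (g : Pt (108 : ℚ)) : Rm (psi_Rk g) :=
  ⟨_, _, exists_psi_Rk.choose_spec.2.1 g, exists_psi_Rk.choose_spec.2.2 g⟩

theorem rm_eqn_Rk {R : MM} (hR : R ≠ 0) {x y : ℚ} (hx : px R = x) (hy : py R = (1 + 2 * w) * y) :
    (9 * y) ^ 2 = (-3 * x) ^ 3 + 108 := by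
  have e := eqn hR
  rw [hx, hy, mul_pow, s_sq_Rk] at e
  have : (((9 * y) ^ 2 : ℚ) : KK) = (((-3 * x) ^ 3 + 108 : ℚ) : KK) := by
    push_cast; linear_combination (-27 : KK) * e
  exact_mod_cast this

theorem exists_of_rm_Rk {R : MM} (h : Rm R) : ∃ g, psi_Rk g = R := by
  by_cases hR : R = 0
  · exact ⟨0, by rw [map_zero, hR]⟩
  obtain ⟨x, y, hx, hy⟩ := h
  obtain ⟨g, g0, gx, gy⟩ := exists_pt (d := (108 : ℚ)) (by norm_num) (rm_eqn_Rk hR hx hy)
  refine ⟨g, ext_pt (fun e => g0 (psi_inj_Rk (e.trans (map_zero _).symm))) hR ?_ ?_⟩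
  · rw [psi_Rk, exists_psi_Rk.choose_spec.2.1, gx, hx]; push_cast; ring
  · rw [psi_Rk, exists_psi_Rk.choose_spec.2.2, gy, hy]; push_cast; ring

theorem rm_comb_Rk {R S : MM} (hR : Rm R) (hS : Rm S) (m n : ℤ) : Rm (m • R + n • S) := by
  obtain ⟨g, rfl⟩ := exists_of_rm_Rk hR
  obtain ⟨h, rfl⟩ := exists_of_rm_Rk hS
  rw [← map_zsmul, ← map_zsmul, ← map_add]
  exact rm_psi_Rk _

theorem rm_neg_Rk {R : MM} (hR : Rm R) : Rm (-R) := by
  simpa using rm_comb_Rk hR hR (-1) 0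

theorem rm_sub_Rk {R S : MM} (hR : Rm R) (hS : Rm S) : Rm (R - S) := by
  simpa [sub_eq_add_neg] using rm_comb_Rk hR hS 1 (-1)

theorem om_ne_Rk {R : MM} (h : R ≠ 0) : om R ≠ 0 := fun e => by
  have := om_om R
  rw [e, map_zero, sub_zero] at this
  exact h (neg_eq_zero.1 this.symm)

theorem sg_sq_Rk (R : MM) : (ω * th : Zw) • (ω * th : Zw) • R = -(R + R + R) := by
  have : (ω * th : Zw) * (ω * th) = ((-3 : ℤ) : Zw) := by
    ext <;> simp [th]
  rw [← mul_smul, this, int_smul]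
  module

theorem px_sg_Rk (h2 : L2Stmt) {R : MM} (h : px R ≠ 0) : (ω * th : Zw) • R ≠ 0 ∧
    px ((ω * th : Zw) • R) = (px R ^ 3 - 16) / (-3 * px R ^ 2) := by
  obtain ⟨a, b⟩ := h2.2.1 R h
  rw [mul_smul, omega_smul]
  refine ⟨om_ne_Rk a, ?_⟩
  have e : (1 - w) ^ 2 = w * -3 := by linear_combination w_rel
  have := w_ne
  rw [px_om, b, e]
  field_simp

theorem desc_Rk (h2 : L2Stmt) (d1 : D1Stmt) (d2 : D2Stmt) {R : MM} (h : Rm R) (hR : R ≠ 0) :
    (∃ u t : ℚ, Tor u t ∧ px R = (((3 * t ^ 2 - u ^ 2) / 3 : ℚ) : KK)) ∨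
      ∃ S, Rm S ∧ R = S + S + S := by
  obtain ⟨x, y, hx, hy⟩ := h
  rcases d2 _ _ (rm_eqn_Rk hR hx hy) with ⟨p, q, e1, e2⟩ | ⟨u, t, e1, e2⟩
  swap
  · refine .inl ⟨u, t, e1, ?_⟩
    rw [hx]
    congr 1
    linear_combination (-1 / 3 : ℚ) * e2
  right
  have hq : q ≠ 0 := by rintro rfl; norm_num at e1
  have eS : (2 * p / q) ^ 2 = (2 / q) ^ 3 - 4 := by
    field_simp
    linear_combination 4 * e1
  obtain ⟨p', q', f1, f2⟩ := d1 _ _ eS
  have hq' : q' ≠ 0 := by rintro rfl; norm_num at f1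
  obtain ⟨S, S0, Sx, -⟩ := exists_pt (d := (-4 : KK)) (by norm_num) (x := ((2 / q : ℚ) : KK))
    (y := ((2 * p / q : ℚ) : KK)) (by rw [← sub_eq_add_neg]; exact_mod_cast eS)
  have eT : (-3 : ℚ) * (2 * p' / q') ^ 2 = (-2 / q') ^ 3 - 4 := by
    field_simp
    linear_combination (-4 : ℚ) * f1
  obtain ⟨T, -, Tx, Ty'⟩ := exists_pt (d := (-4 : KK)) (by norm_num) (x := ((-2 / q' : ℚ) : KK))
    (y := (1 + 2 * w) * ((2 * p' / q' : ℚ) : KK)) (by
      rw [← sub_eq_add_neg, mul_pow, s_sq_Rk]; exact_mod_cast eT)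
  have hT : Rm T := ⟨_, _, Tx, Ty'⟩
  obtain ⟨a1, a2⟩ := px_sg_Rk h2 (R := S) (by
    rw [Sx]; exact_mod_cast div_ne_zero two_ne_zero hq)
  obtain ⟨b1, b2⟩ := px_sg_Rk h2 (R := T) (by
    rw [Tx]; exact_mod_cast div_ne_zero (by norm_num) hq')
  have c1 : px R = px ((ω * th : Zw) • S) := by
    have : x = ((2 / q) ^ 3 - 16) / (-3 * (2 / q) ^ 2) := by
      field_simp
      linear_combination (-4 * q) * e2 - 4 * e1
    rw [a2, Sx, hx]
    exact_mod_cast this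
  have c2 : px S = px ((ω * th : Zw) • T) := by
    have : 2 / q = ((-2 / q') ^ 3 - 16) / (-3 * (-2 / q') ^ 2) := by
      rw [f2]
      field_simp
      linear_combination (4 : ℚ) * f1
    rw [b2, Sx, Tx]
    exact_mod_cast this
  rcases eq_or_neg hR a1 c1 with r1 | r1 <;> rcases eq_or_neg S0 b1 c2 with r2 | r2
  · exact ⟨-T, rm_neg_Rk hT, by rw [r1, r2, sg_sq_Rk]; abel⟩
  · exact ⟨T, hT, by rw [r1, r2, smul_neg, sg_sq_Rk]; abel⟩
  · exact ⟨T, hT, by rw [r1, r2, sg_sq_Rk]; abel⟩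
  · exact ⟨-T, rm_neg_Rk hT, by rw [r1, r2, smul_neg, sg_sq_Rk]; abel⟩

section wild

variable (hT : TyStmt) {v : Pr KK} (hv : ¬Tm 3 v)

include hT hv

theorem clash_Rk {e : ℤ} (he : e = 1 ∨ e = -1) {R : MM} (h1 : Ty v e R) (h2 : Ty v (-e) R) :
    False := by
  rcases he with rfl | rfl
  · exact (hT v hv).2.1 R ⟨h1, h2⟩
  · exact (hT v hv).2.1 R ⟨by simpa using h2, h1⟩

theorem has_type_Rk {R : MM} (h0 : R ≠ 0) (h1 : vl v (px R - 1) < 1) :
    ∃ e : ℤ, (e = 1 ∨ e = -1) ∧ Ty v e R := by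
  rcases (hT v hv).1 R h0 h1 with h | h
  · exact ⟨1, .inl rfl, h⟩
  · exact ⟨-1, .inr rfl, h⟩

theorem sub_untyped_Rk {e : ℤ} (he : e = 1 ∨ e = -1) {R S : MM} (h1 : Ty v e R) (h2 : Ty v e S)
    (h0 : R - S ≠ 0) : ¬vl v (px (R - S) - 1) < 1 := fun h => by
  obtain ⟨e', he', h3⟩ := has_type_Rk hT hv h0 h
  have : e' = e ∨ e' = -e := by omega
  rcases this with rfl | rfl
  · have := ((hT v hv).2.2.2.1 _ _ _ he h3 h2).1
    rw [sub_add_cancel] at this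
    exact clash_Rk hT hv he h1 this
  · have h4 := ((hT v hv).2.2.1 _ _ h3).1
    rw [neg_neg] at h4
    have := ((hT v hv).2.2.2.1 _ _ _ he h4 h1).1
    rw [neg_sub, sub_add_cancel] at this
    exact clash_Rk hT hv he h2 this

theorem three_untyped_Rk (hZ : ZStmt) {S : MM} (hS : Rm S) (h0 : S + S + S ≠ 0) :
    ¬vl v (px (S + S + S) - 1) < 1 := by
  rcases (hT v hv).2.2.2.2 S hS with h | h
  · have h3 := (hZ v S h ((3 : ℤ) : Zw)).1
    have e : ((3 : ℤ) : Zw) • S = S + S + S := by rw [int_smul]; module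
    rw [e] at h3
    intro h4
    have h5 := h3.resolve_left h0
    have h6 : vl v (px (S + S + S)) ≤ 1 := by
      have := (vl v).map_add_le h4.le (le_of_eq (vl v).map_one)
      rwa [sub_add_cancel] at this
    exact absurd h5 (not_lt.2 h6)
  · have S0 : S ≠ 0 := by rintro rfl; simp at h0
    obtain ⟨e, he, h1⟩ := has_type_Rk hT hv S0 h
    have h2 := ((hT v hv).2.2.1 _ _ ((hT v hv).2.2.2.1 _ _ _ he h1 h1).1).1
    rw [neg_neg] at h2
    have e3 : S - -(S + S) = S + S + S := by abel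
    have := sub_untyped_Rk hT hv he h1 h2 (by rwa [e3])
    rwa [e3] at this

omit hT in
theorem untyped_three_Rk (h2 : L2Stmt) (d1 : D1Stmt) (d2 : D2Stmt) (hL : LocStmt) {R : MM}
    (h : Rm R) (h1 : R ≠ 0 → ¬vl v (px R - 1) < 1) : ∃ S, Rm S ∧ R = S + S + S := by
  by_cases hR : R = 0
  · exact ⟨R, h, by simp [hR]⟩
  rcases desc_Rk h2 d1 d2 h hR with ⟨u, t, a, b⟩ | a
  · exact absurd (by rw [b]; exact hL.1 u t a v hv) (h1 hR)
  · exact a

theorem cover_Rk (h2 : L2Stmt) (d1 : D1Stmt) (d2 : D2Stmt) (hL : LocStmt) :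
    ∃ G : MM, Rm G ∧ ∀ R, Rm R → ∃ S, Rm S ∧
      (R = S + S + S ∨ R - G = S + S + S ∨ R - -G = S + S + S) := by
  obtain ⟨G, G0, Gx, Gy⟩ := exists_pt (d := (-4 : KK)) (by norm_num) (x := 1) (y := 1 + 2 * w)
    (by rw [s_sq_Rk]; norm_num)
  have hG : Rm G := ⟨1, 1, by simpa using Gx, by simpa using Gy⟩
  obtain ⟨e0, he0, t0⟩ := has_type_Rk hT hv G0 (by rw [Gx]; simp)
  refine ⟨G, hG, fun R hR => ?_⟩
  by_cases h : R ≠ 0 → ¬vl v (px R - 1) < 1
  · obtain ⟨S, a, b⟩ := untyped_three_Rk hv h2 d1 d2 hL hR h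
    exact ⟨S, a, .inl b⟩
  push Not at h
  obtain ⟨e, he, t⟩ := has_type_Rk hT hv h.1 h.2
  have : e = e0 ∨ e = -e0 := by omega
  rcases this with rfl | rfl
  · obtain ⟨S, a, b⟩ := untyped_three_Rk hv h2 d1 d2 hL (rm_sub_Rk hR hG)
      (sub_untyped_Rk hT hv he t t0)
    exact ⟨S, a, .inr (.inl b)⟩
  · obtain ⟨S, a, b⟩ := untyped_three_Rk hv h2 d1 d2 hL (rm_sub_Rk hR (rm_neg_Rk hG))
      (sub_untyped_Rk hT hv he t ((hT v hv).2.2.1 _ _ t0).1)
    exact ⟨S, a, .inr (.inr b)⟩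

end wild

theorem rank_Rk {A : Type} [AddCommGroup A]
    (fg : (nsmulAddMonoidHom (α := A) 3).range.FiniteIndex → AddGroup.FG A) (G : A)
    (h : ∀ R, ∃ S, R = S + S + S ∨ R - G = S + S + S ∨ R - -G = S + S + S) (R S : A) :
    ∃ m n : ℤ, (m ≠ 0 ∨ n ≠ 0) ∧ m • R = n • S := by
  have mem : ∀ S : A, S + S + S ∈ (nsmulAddMonoidHom (α := A) 3).range := fun S =>
    ⟨S, by simp only [nsmulAddMonoidHom_apply]; module⟩
  have fin : Finite (A ⧸ (nsmulAddMonoidHom (α := A) 3).range) := by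
    refine Finite.of_surjective
      (fun j : Fin 3 => ((![0, G, -G] j : A) : A ⧸ (nsmulAddMonoidHom (α := A) 3).range))
      fun c => ?_
    obtain ⟨R, rfl⟩ := QuotientAddGroup.mk_surjective c
    obtain ⟨S, e | e | e⟩ := h R
    · exact ⟨0, (QuotientAddGroup.eq_iff_sub_mem.2 (by simpa [e] using mem S)).symm⟩
    · exact ⟨1, (QuotientAddGroup.eq_iff_sub_mem.2 (by simpa [e] using mem S)).symm⟩
    · exact ⟨2, (QuotientAddGroup.eq_iff_sub_mem.2 (by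
        change R - -G ∈ _
        rw [e]; exact mem S)).symm⟩
  have hfg : Module.Finite ℤ A :=
    Module.Finite.iff_addGroup_fg.2 (fg AddSubgroup.finiteIndex_of_finite_quotient)
  have m3 : ∀ S : A, S + S + S ∈ (Ideal.span {(3 : ℤ)}) • (⊤ : Submodule ℤ A) := fun S => by
    have : S + S + S = (3 : ℤ) • S := by module
    rw [this]
    exact Submodule.smul_mem_smul (Ideal.mem_span_singleton_self _) Submodule.mem_top
  have mG : G ∈ Submodule.span ℤ {G} := Submodule.mem_span_singleton_self G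
  obtain ⟨r, hr, hle⟩ := Submodule.exists_sub_one_mem_and_smul_le_of_fg_of_le_sup
    (I := Ideal.span {(3 : ℤ)}) (N := Submodule.span ℤ {G}) (N' := ⊤) (P := ⊤) hfg.fg_top le_rfl
    (fun R _ => by
      obtain ⟨S, e | e | e⟩ := h R
      · exact Submodule.mem_sup_right (e ▸ m3 S)
      · exact Submodule.mem_sup.2 ⟨G, mG, _, m3 S, by rw [← e]; abel⟩
      · exact Submodule.mem_sup.2 ⟨-G, neg_mem mG, _, m3 S, by rw [← e]; abel⟩)
  have r0 : r ≠ 0 := by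
    rintro rfl
    rw [Ideal.mem_span_singleton] at hr
    omega
  have key : ∀ R : A, ∃ a : ℤ, a • G = r • R := fun R =>
    Submodule.mem_span_singleton.1 (hle (Submodule.smul_mem_pointwise_smul R r ⊤ trivial))
  obtain ⟨a, ha⟩ := key R
  obtain ⟨b, hb⟩ := key S
  by_cases a0 : a = 0
  · exact ⟨r, 0, .inl r0, by rw [← ha, a0, zero_smul, zero_smul]⟩
  · refine ⟨b * r, a * r, .inr (mul_ne_zero a0 r0), ?_⟩
    rw [mul_smul, mul_smul, ← ha, ← hb, smul_comm]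

theorem fg_Rk (H : (nsmulAddMonoidHom (α := Pt (108 : ℚ)) 3).range.FiniteIndex) :
    AddGroup.FG (Pt (108 : ℚ)) := by
  have ell : (Ed (108 : ℚ)).IsElliptic := ⟨by
    rw [isUnit_iff_ne_zero]
    simp [Ed, WeierstrassCurve.Δ, WeierstrassCurve.b₂, WeierstrassCurve.b₄, WeierstrassCurve.b₆,
      WeierstrassCurve.b₈]⟩
  exact @Pool.Agent.MP_e23604_nt.fg_of_three (Classical.decEq ℚ) (Ed 108) ell H

theorem rk (hK : KFStmt) (h2 : L2Stmt) (hZ : ZStmt) (hT : TyStmt) (_h3 : L3Stmt) (d1 : D1Stmt)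
    (d2 : D2Stmt) (hL : LocStmt) : RkStmt := by
  obtain ⟨v, hv⟩ := hK.2.2.2.2.2.2.1
  refine ⟨fun R S hR hS => rm_comb_Rk hR hS, fun R S hR hS => ?_, fun R hR R0 h => ?_⟩
  · obtain ⟨G, hG, hc⟩ := cover_Rk hT hv h2 d1 d2 hL
    obtain ⟨g0, rfl⟩ := exists_of_rm_Rk hG
    obtain ⟨g, rfl⟩ := exists_of_rm_Rk hR
    obtain ⟨g', rfl⟩ := exists_of_rm_Rk hS
    obtain ⟨m, n, a, b⟩ := rank_Rk fg_Rk g0 (fun k => by
      obtain ⟨T, hT', e⟩ := hc _ (rm_psi_Rk k)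
      obtain ⟨t, rfl⟩ := exists_of_rm_Rk hT'
      refine ⟨t, ?_⟩
      simpa only [← map_add, ← map_neg, ← map_sub, psi_inj_Rk.eq_iff] using e) g g'
    exact ⟨m, n, a, by rw [← map_zsmul, ← map_zsmul, b]⟩
  · rcases desc_Rk h2 d1 d2 hR R0 with a | ⟨S, a, rfl⟩
    · exact a
    · exact absurd (h v hv) (three_untyped_Rk hT hv hZ a R0)

end Pool.Agent.MP_adc87d_lc

end
end
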