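import Mathlib
import Pool.Agent.Mg.Fadc87d.G0908ea

set_option linter.all false

section

/-! Size, support and Lipschitz constant of the smooth weight. -/

set_option autoImplicit false

noncomputable section

open Finset
open scoped Classical

namespace Pool.Agent.MP_adc87d_lc.Big

open Pool.Agent.MP_2a1f0e_nt (ex)

theorem mul_lip_CGeo {F : Type} [NormedRing F] {a a' b b' : F} (ha : ‖a'‖ ≤ 1) (hb : ‖b‖ ≤ 1) :
    ‖a * b - a' * b'‖ ≤ ‖a - a'‖ + ‖b - b'‖ := by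
  rw [show a * b - a' * b' = (a - a') * b + a' * (b - b') by noncomm_ring]
  refine (norm_add_le _ _).trans (add_le_add ((norm_mul_le _ _).trans ?_)
    ((norm_mul_le _ _).trans ?_))
  · exact mul_le_of_le_one_right (norm_nonneg _) hb
  · exact mul_le_of_le_one_left (norm_nonneg _) ha

theorem tent_norm_CGeo (u : ℝ) : ‖tent u‖ ≤ 1 := by
  rw [Real.norm_eq_abs, abs_of_nonneg (show 0 ≤ tent u from le_max_left _ _)]
  exact max_le zero_le_one (by linarith [abs_nonneg u])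

theorem clp_norm_CGeo (u : ℝ) : ‖clp u‖ ≤ 1 := by
  rw [Real.norm_eq_abs, abs_of_nonneg (show 0 ≤ clp u from le_max_left _ _)]
  exact max_le zero_le_one (min_le_left _ _)

theorem tent_lip_CGeo (u v : ℝ) : ‖tent u - tent v‖ ≤ |u - v| := by
  rw [Real.norm_eq_abs, tent, tent, max_comm, max_comm 0]
  refine (abs_max_sub_max_le_abs _ _ _).trans ?_
  rw [show 1 - |u| - (1 - |v|) = -(|u| - |v|) by ring, abs_neg]
  exact abs_abs_sub_abs_le_abs_sub u v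

theorem clp_lip_CGeo (u v : ℝ) : ‖clp u - clp v‖ ≤ |u - v| := by
  rw [Real.norm_eq_abs, clp, clp, max_comm, max_comm 0]
  refine (abs_max_sub_max_le_abs _ _ _).trans ((abs_min_sub_min_le_max _ _ _ _).trans ?_)
  simp

theorem rmp_norm_CGeo (y U N : ℝ) : ‖rmp y U N‖ ≤ 1 := by
  rw [rmp, norm_mul]
  exact mul_le_one₀ (clp_norm_CGeo _) (norm_nonneg _) (clp_norm_CGeo _)

theorem rmp_lip_CGeo (y N N' : ℝ) {U : ℝ} (hU : 0 < U) :
    ‖rmp y U N - rmp y U N'‖ ≤ 2 * (|N - N'| / U) := by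
  have h := mul_lip_CGeo (a := clp ((N - U) / U)) (b' := clp ((y + U - N') / U))
    (clp_norm_CGeo ((N' - U) / U)) (clp_norm_CGeo ((y + U - N) / U))
  have h1 := clp_lip_CGeo ((N - U) / U) ((N' - U) / U)
  have h2 := clp_lip_CGeo ((y + U - N) / U) ((y + U - N') / U)
  rw [show (N - U) / U - (N' - U) / U = (N - N') / U by ring, abs_div, abs_of_pos hU] at h1
  rw [show (y + U - N) / U - (y + U - N') / U = -(N - N') / U by ring, abs_div, abs_neg,
    abs_of_pos hU] at h2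
  unfold rmp
  linarith

theorem log_lip_CGeo {a b m : ℝ} (hm : 0 < m) (ha : m ≤ a) (hb : m ≤ b) :
    |Real.log a - Real.log b| ≤ |a - b| / m := by
  have key : ∀ a b : ℝ, m ≤ a → m ≤ b → Real.log a - Real.log b ≤ |a - b| / m := by
    intro a b ha hb
    have b0 : 0 < b := by linarith
    have a0 : 0 < a := by linarith
    rw [← Real.log_div a0.ne' b0.ne']
    refine (Real.log_le_sub_one_of_pos (by positivity)).trans ?_
    rw [show a / b - 1 = (a - b) / b by field_simp]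
    exact (div_le_div_of_nonneg_right (le_abs_self _) b0.le).trans
      (div_le_div_of_nonneg_left (abs_nonneg _) hm hb)
  have h1 := key a b ha hb
  have h2 := key b a hb ha
  rw [abs_sub_comm] at h2
  exact abs_le.2 ⟨by linarith, h1⟩

theorem ex_lip_CGeo (a b : ℝ) : ‖ex a - ex b‖ ≤ 7 * |a - b| := by
  have e : ex a - ex b = ex b * (ex (a - b) - 1) := by
    rw [mul_sub, ← MP_2a1f0e_nt.ex_add, mul_one, add_sub_cancel]
  rw [e, norm_mul, MP_2a1f0e_nt.norm_ex, one_mul]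
  refine (Real.norm_exp_I_mul_ofReal_sub_one_le (x := 2 * Real.pi * (a - b))).trans ?_
  rw [Real.norm_eq_abs, abs_mul, abs_of_pos (by positivity : 0 < 2 * Real.pi)]
  exact mul_le_mul_of_nonneg_right (by linarith [Real.pi_lt_d2]) (abs_nonneg _)

theorem pow_lip_CGeo {u v : ℂ} (hu : ‖u‖ = 1) (hv : ‖v‖ = 1) (n : ℕ) :
    ‖u ^ n - v ^ n‖ ≤ n * ‖u - v‖ := by
  induction n with
  | zero => simp
  | succ n ih =>
    rw [pow_succ, pow_succ]
    refine (mul_lip_CGeo (by rw [norm_pow, hv, one_pow]) hu.le).trans ?_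
    push_cast
    linarith

theorem zpow_lip_CGeo {u v : ℂ} (hu : ‖u‖ = 1) (hv : ‖v‖ = 1) (m : ℤ) :
    ‖u ^ m - v ^ m‖ ≤ |(m : ℝ)| * ‖u - v‖ := by
  obtain ⟨n, rfl | rfl⟩ := m.eq_nat_or_neg
  · simpa using pow_lip_CGeo hu hv n
  · have u0 : u ≠ 0 := norm_ne_zero_iff.1 (by rw [hu]; exact one_ne_zero)
    have v0 : v ≠ 0 := norm_ne_zero_iff.1 (by rw [hv]; exact one_ne_zero)
    have e : ‖u⁻¹ - v⁻¹‖ = ‖u - v‖ := by
      rw [show u⁻¹ - v⁻¹ = -(u - v) / (u * v) by field_simp; ring, norm_div, norm_neg, norm_mul,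
        hu, hv, mul_one, div_one]
    have := pow_lip_CGeo (u := u⁻¹) (v := v⁻¹) (by rw [norm_inv, hu, inv_one])
      (by rw [norm_inv, hv, inv_one]) n
    rw [e] at this
    simpa using this

theorem unit_norm_CGeo {z : ℂ} (hz : 0 < ‖z‖) : ‖z / (‖z‖ : ℂ)‖ = 1 := by
  rw [norm_div, Complex.norm_real, norm_norm, div_self hz.ne']

theorem unit_lip_CGeo {z z' : ℂ} (hz : 0 < ‖z‖) (hz' : 0 < ‖z'‖) :
    ‖z / (‖z‖ : ℂ) - z' / (‖z'‖ : ℂ)‖ ≤ 2 * (‖z - z'‖ / ‖z‖) := by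
  have c : (‖z‖ : ℂ) ≠ 0 := by exact_mod_cast hz.ne'
  have c' : (‖z'‖ : ℂ) ≠ 0 := by exact_mod_cast hz'.ne'
  have e : z / (‖z‖ : ℂ) - z' / (‖z'‖ : ℂ) =
      (z - z') / (‖z‖ : ℂ) + z' / (‖z'‖ : ℂ) * (((‖z'‖ - ‖z‖ : ℝ) : ℂ) / (‖z‖ : ℂ)) := by
    push_cast
    field_simp
    ring
  rw [e]
  refine (norm_add_le _ _).trans ?_
  rw [norm_mul, unit_norm_CGeo hz', one_mul, norm_div, norm_div, Complex.norm_real,
    Complex.norm_real, norm_norm, two_mul]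
  refine add_le_add le_rfl (div_le_div_of_nonneg_right ?_ hz.le)
  rw [Real.norm_eq_abs, abs_sub_comm]
  exact abs_norm_sub_norm_le z z'

theorem arv_norm_CGeo (σ : ℝ) (m : ℤ) (v : Fin 3 → ℝ) : ‖arv σ m v‖ ≤ 1 := by
  rw [arv, norm_mul, MP_2a1f0e_nt.norm_ex, one_mul]
  by_cases h : zv v = 0
  · rw [h, zero_div]
    by_cases hm : m = 0
    · simp [hm]
    · simp [zero_zpow m hm]
  · rw [norm_zpow, unit_norm_CGeo (norm_pos_iff.2 h), one_zpow]

theorem tr_norm_CGeo (a y U N : ℝ) : ‖((tent a * rmp y U N : ℝ) : ℂ)‖ ≤ 1 := by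
  rw [Complex.norm_real, norm_mul]
  exact mul_le_one₀ (tent_norm_CGeo _) (norm_nonneg _) (rmp_norm_CGeo _ _ _)

theorem wt_norm_CGeo (σ : ℝ) (m : ℤ) (y U : ℝ) (v : Fin 3 → ℝ) : ‖Wt σ m y U v‖ ≤ 1 := by
  unfold Wt
  split_ifs
  · rw [norm_mul]
    exact mul_le_one₀ (tr_norm_CGeo _ _ _ _) (norm_nonneg _) (arv_norm_CGeo _ _ _)
  · simp

theorem xv_lip_CGeo (v w : Fin 3 → ℝ) : |xv v - xv w| ≤ 5 * ‖v - w‖ := by
  have h : ∀ i, |v i - w i| ≤ ‖v - w‖ := fun i => norm_le_pi_norm (v - w) i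
  have g1 := thr_gt
  have g2 := thr_lt
  have q : thr ^ 2 ≤ 2 := by nlinarith
  rw [show xv v - xv w = (v 0 - w 0) + (v 1 - w 1) * thr + (v 2 - w 2) * thr ^ 2 by
    unfold xv; ring]
  refine (abs_add_three _ _ _).trans ?_
  rw [abs_mul, abs_mul, abs_of_pos (by linarith : 0 < thr), abs_of_nonneg (sq_nonneg thr)]
  have h1 := mul_le_mul (h 1) (by linarith : thr ≤ 2) (by linarith) (norm_nonneg _)
  have h2 := mul_le_mul (h 2) q (sq_nonneg _) (norm_nonneg _)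
  linarith [h 0]

theorem zv_lip_CGeo (v w : Fin 3 → ℝ) : ‖zv v - zv w‖ ≤ 5 * ‖v - w‖ := by
  have h : ∀ i, |v i - w i| ≤ ‖v - w‖ := fun i => norm_le_pi_norm (v - w) i
  have g1 := thr_gt
  have q : ‖zt‖ ^ 2 ≤ 1 := by nlinarith [norm_zt_sq, sq_nonneg ‖zt‖]
  have q1 : ‖zt‖ ≤ 1 := by nlinarith [norm_nonneg zt]
  rw [show zv v - zv w = ((v 0 - w 0 : ℝ) : ℂ) + ((v 1 - w 1 : ℝ) : ℂ) * zt +
    ((v 2 - w 2 : ℝ) : ℂ) * zt ^ 2 by unfold zv; push_cast; ring]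
  refine (norm_add₃_le).trans ?_
  rw [norm_mul, norm_mul, norm_pow, Complex.norm_real, Complex.norm_real, Complex.norm_real,
    Real.norm_eq_abs, Real.norm_eq_abs, Real.norm_eq_abs]
  have h1 := mul_le_mul (h 1) q1 (norm_nonneg _) (norm_nonneg _)
  have h2 := mul_le_mul (h 2) q (sq_nonneg _) (norm_nonneg _)
  linarith [h 0, norm_nonneg (v - w)]

theorem clp_pos_CGeo {u : ℝ} (h : clp u ≠ 0) : 0 < u := by
  by_contra h'
  exact h (max_eq_left ((min_le_right _ _).trans (not_lt.1 h')))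

/-- sizes of the embeddings on the support -/
theorem supp_CGeo {σ : ℝ} {m : ℤ} {y R : ℝ} {v : Fin 3 → ℝ} (hR : 1 ≤ R) (hy : y ≤ 4 * R ^ 6)
    (h : Wt σ m y (R ^ 5) v ≠ 0) :
    R / 2 ≤ xv v ∧ xv v ≤ 3 * R ^ 2 ∧ R / 2 ≤ ‖zv v‖ ∧ ‖zv v‖ ≤ 3 * R ^ 2 := by
  have hx : 0 < xv v := by
    by_contra h'
    exact h (if_neg h')
  rw [Wt, if_pos hx] at h
  have h1 : tent (etv v) * rmp y (R ^ 5) (Nv v) ≠ 0 := fun e => h (by rw [e]; simp)
  have R0 : 0 < R := by linarith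
  have U0 : 0 < R ^ 5 := by positivity
  have h2 := (div_pos_iff_of_pos_right U0).1
    (clp_pos_CGeo (left_ne_zero_of_mul (right_ne_zero_of_mul h1)))
  have h3 := (div_pos_iff_of_pos_right U0).1
    (clp_pos_CGeo (right_ne_zero_of_mul (right_ne_zero_of_mul h1)))
  have h4 : |etv v| < 1 := by
    by_contra h'
    exact left_ne_zero_of_mul h1 (max_eq_left (by linarith))
  have p1 : R ^ 3 ≤ R ^ 5 := pow_le_pow_right₀ hR (by norm_num)
  have p2 : R ^ 5 ≤ R ^ 6 := pow_le_pow_right₀ hR (by norm_num)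
  rw [Nv_eq] at h2 h3
  have Z0 : 0 < ‖zv v‖ := by
    refine (norm_nonneg _).lt_of_ne fun e => ?_
    rw [← e] at h2
    linarith
  have L := log_thr_pos
  have t0 : 0 < thr := by linarith [thr_gt]
  have t3 : thr ^ 3 ≤ 4 := by linarith [thr_cube, thr_lt]
  rw [etv, abs_div, abs_of_pos (by positivity : 0 < 3 * Real.log thr), div_lt_one (by positivity),
    show 3 * Real.log thr = Real.log (thr ^ 3) by rw [Real.log_pow]; norm_num, abs_lt] at h4
  have a1 : xv v ^ 2 / ‖zv v‖ ^ 2 < thr ^ 3 :=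
    (Real.log_lt_log_iff (by positivity) (by positivity)).1 h4.2
  have a2 : ‖zv v‖ ^ 2 / xv v ^ 2 < thr ^ 3 := by
    refine (Real.log_lt_log_iff (by positivity) (by positivity)).1 ?_
    rw [← inv_div, Real.log_inv]
    linarith [h4.1]
  rw [div_lt_iff₀ (by positivity)] at a1 a2
  generalize xv v = x at *
  generalize ‖zv v‖ = Z at *
  have b1 : x ≤ 2 * Z := by
    refine le_of_pow_le_pow_left₀ (n := 2) (by norm_num) (by positivity) ?_
    nlinarith [sq_nonneg Z]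
  have b2 : Z ≤ 2 * x := by
    refine le_of_pow_le_pow_left₀ (n := 2) (by norm_num) (by positivity) ?_
    nlinarith [sq_nonneg x]
  have c1 : x * Z ^ 2 ≤ 4 * x ^ 3 := by
    have := pow_le_pow_left₀ Z0.le b2 2
    nlinarith
  have c2 : x * Z ^ 2 ≤ 2 * Z ^ 3 := by nlinarith [sq_nonneg Z]
  have c3 : x ^ 3 ≤ 4 * (x * Z ^ 2) := by
    have := pow_le_pow_left₀ hx.le b1 2
    nlinarith
  have c4 : Z ^ 3 ≤ 2 * (x * Z ^ 2) := by nlinarith [sq_nonneg Z]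
  have R3 : 0 < R ^ 3 := by positivity
  have R6 : 0 < R ^ 6 := by positivity
  refine ⟨?_, ?_, ?_, ?_⟩
  all_goals refine le_of_pow_le_pow_left₀ (n := 3) (by norm_num) (by positivity) ?_
  · rw [show (R / 2) ^ 3 = R ^ 3 / 8 by ring]; linarith
  · rw [show (3 * R ^ 2) ^ 3 = 27 * R ^ 6 by ring]; linarith
  · rw [show (R / 2) ^ 3 = R ^ 3 / 8 by ring]; linarith
  · rw [show (3 * R ^ 2) ^ 3 = 27 * R ^ 6 by ring]; linarith

/-- the Lipschitz estimate for two points with embeddings of the right size -/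
theorem near_CGeo (σ : ℝ) (m : ℤ) (y : ℝ) {R : ℝ} {v w : Fin 3 → ℝ} (hR : 1 ≤ R)
    (a1 : R / 4 ≤ xv v) (a3 : R / 4 ≤ ‖zv v‖) (a4 : ‖zv v‖ ≤ 4 * R ^ 2)
    (b1 : R / 4 ≤ xv w) (b2 : xv w ≤ 4 * R ^ 2) (b3 : R / 4 ≤ ‖zv w‖) (b4 : ‖zv w‖ ≤ 4 * R ^ 2) :
    ‖Wt σ m y (R ^ 5) v - Wt σ m y (R ^ 5) w‖ ≤ 1120 * (1 + |σ| + |(m : ℝ)|) / R * ‖v - w‖ := by
  have R0 : 0 < R := by linarith
  have R4 : 0 < R / 4 := by positivity
  have x0 : 0 < xv v := by linarith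
  have x1 : 0 < xv w := by linarith
  have z0 : 0 < ‖zv v‖ := by linarith
  have z1 : 0 < ‖zv w‖ := by linarith
  have lx := xv_lip_CGeo v w
  have lz := zv_lip_CGeo v w
  have lZ := (abs_norm_sub_norm_le (zv v) (zv w)).trans lz
  have d0 := norm_nonneg (v - w)
  obtain ⟨δ, hδ⟩ : ∃ δ, δ = ‖v - w‖ / R := ⟨_, rfl⟩
  have δ0 : 0 ≤ δ := by rw [hδ]; positivity
  have e20 : 5 * ‖v - w‖ / (R / 4) = 20 * δ := by rw [hδ]; field_simp; ring
  have l1 := (log_lip_CGeo R4 a1 b1).trans ((div_le_div_of_nonneg_right lx R4.le).trans e20.le)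
  have l2 := (log_lip_CGeo R4 a3 b3).trans ((div_le_div_of_nonneg_right lZ R4.le).trans e20.le)
  have L : 1 / 2 ≤ 3 * Real.log thr := by
    have g := thr_gt
    have h1 := Real.one_sub_inv_le_log_of_pos (by linarith : 0 < thr)
    have h2 : thr⁻¹ ≤ 5 / 6 := by
      rw [inv_le_comm₀ (by linarith) (by norm_num)]
      linarith
    linarith
  have le : |etv v - etv w| ≤ 160 * δ := by
    rw [etv, etv, ← sub_div, abs_div, abs_of_pos (by linarith : 0 < 3 * Real.log thr),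
      div_le_iff₀ (by linarith), Real.log_div (by positivity) (by positivity),
      Real.log_div (by positivity) (by positivity), Real.log_pow, Real.log_pow, Real.log_pow,
      Real.log_pow]
    have := mul_le_mul_of_nonneg_left L δ0
    rw [abs_le] at l1 l2 ⊢
    push_cast
    constructor <;> linarith [l1.1, l1.2, l2.1, l2.2]
  have lN : |Nv v - Nv w| / R ^ 5 ≤ 240 * δ := by
    rw [div_le_iff₀ (by positivity), Nv_eq, Nv_eq,
      show xv v * ‖zv v‖ ^ 2 - xv w * ‖zv w‖ ^ 2 = (xv v - xv w) * ‖zv v‖ ^ 2 +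
        (‖zv v‖ - ‖zv w‖) * (xv w * (‖zv v‖ + ‖zv w‖)) by ring,
      show 240 * δ * R ^ 5 = 5 * ‖v - w‖ * (4 * R ^ 2) ^ 2 +
        5 * ‖v - w‖ * (4 * R ^ 2 * (4 * R ^ 2 + 4 * R ^ 2)) by rw [hδ]; field_simp; ring]
    refine (abs_add_le _ _).trans (add_le_add ?_ ?_)
    · rw [abs_mul, abs_of_nonneg (sq_nonneg ‖zv v‖)]
      gcongr
    · rw [abs_mul, abs_of_nonneg (by positivity : 0 ≤ xv w * (‖zv v‖ + ‖zv w‖))]
      gcongr
  have m1 : ‖((tent (etv v) * rmp y (R ^ 5) (Nv v) : ℝ) : ℂ) -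
      ((tent (etv w) * rmp y (R ^ 5) (Nv w) : ℝ) : ℂ)‖ ≤ 640 * δ := by
    rw [← Complex.ofReal_sub, Complex.norm_real]
    refine (mul_lip_CGeo (tent_norm_CGeo _) (rmp_norm_CGeo _ _ _)).trans ?_
    have h1 := tent_lip_CGeo (etv v) (etv w)
    have h2 := rmp_lip_CGeo y (Nv v) (Nv w) (by positivity : 0 < R ^ 5)
    linarith
  have m2 : ‖ex (σ * etv v) - ex (σ * etv w)‖ ≤ 1120 * (|σ| * δ) := by
    refine (ex_lip_CGeo _ _).trans ?_
    rw [← mul_sub, abs_mul]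
    have := mul_le_mul_of_nonneg_left le (abs_nonneg σ)
    linarith
  have m3 : ‖(zv v / (‖zv v‖ : ℂ)) ^ m - (zv w / (‖zv w‖ : ℂ)) ^ m‖ ≤ 40 * (|(m : ℝ)| * δ) := by
    refine (zpow_lip_CGeo (unit_norm_CGeo z0) (unit_norm_CGeo z1) m).trans ?_
    have h1 := unit_lip_CGeo z0 z1
    have h2 : ‖zv v - zv w‖ / ‖zv v‖ ≤ 5 * ‖v - w‖ / (R / 4) := by gcongr
    have := mul_le_mul_of_nonneg_left (show ‖zv v / (‖zv v‖ : ℂ) - zv w / (‖zv w‖ : ℂ)‖ ≤ 40 * δ by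
      linarith) (abs_nonneg (m : ℝ))
    linarith
  have m4 : ‖arv σ m v - arv σ m w‖ ≤ 1120 * (|σ| * δ) + 40 * (|(m : ℝ)| * δ) :=
    (mul_lip_CGeo (MP_2a1f0e_nt.norm_ex _).le
      (by rw [norm_zpow, unit_norm_CGeo z0, one_zpow])).trans (add_le_add m2 m3)
  rw [Wt, Wt, if_pos x0, if_pos x1,
    show 1120 * (1 + |σ| + |(m : ℝ)|) / R * ‖v - w‖ =
      1120 * δ + 1120 * (|σ| * δ) + 1120 * (|(m : ℝ)| * δ) by rw [hδ]; ring]
  refine (mul_lip_CGeo (tr_norm_CGeo _ _ _ _) (arv_norm_CGeo _ _ _)).trans ?_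
  have := mul_nonneg (abs_nonneg (m : ℝ)) δ0
  linarith

theorem cgeo : GeoStmt := by
  refine ⟨1120, by norm_num, fun σ m y R hR hy => ⟨fun v => wt_norm_CGeo _ _ _ _ _,
    fun v hv => ?_, fun v w => ?_⟩⟩
  · obtain ⟨h1, h2, _, h4⟩ := supp_CGeo hR hy hv
    have := norm_le_emb v
    rw [abs_of_nonneg (by linarith)] at this
    nlinarith [sq_nonneg R]
  have R0 : 0 < R := by linarith
  have R2 : R ≤ R ^ 2 := by nlinarith
  have key : ∀ v w : Fin 3 → ℝ, ‖v - w‖ ≤ R / 20 → Wt σ m y (R ^ 5) v ≠ 0 →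
      ‖Wt σ m y (R ^ 5) v - Wt σ m y (R ^ 5) w‖ ≤
        1120 * (1 + |σ| + |(m : ℝ)|) / R * ‖v - w‖ := fun v w hd hv => by
    obtain ⟨h1, h2, h3, h4⟩ := supp_CGeo hR hy hv
    have lx := abs_le.1 (xv_lip_CGeo v w)
    have lZ := abs_le.1 ((abs_norm_sub_norm_le (zv v) (zv w)).trans (zv_lip_CGeo v w))
    exact near_CGeo σ m y hR (by linarith) (by linarith) (by linarith) (by linarith [lx.2])
      (by linarith [lx.1]) (by linarith [lZ.2]) (by linarith [lZ.1])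
  by_cases hd : ‖v - w‖ ≤ R / 20
  · by_cases hv : Wt σ m y (R ^ 5) v = 0
    · by_cases hw : Wt σ m y (R ^ 5) w = 0
      · rw [hv, hw, sub_zero, norm_zero]
        positivity
      · rw [norm_sub_rev, norm_sub_rev v]
        exact key w v (by rwa [norm_sub_rev]) hw
    · exact key v w hd hv
  · refine (norm_sub_le _ _).trans ((add_le_add (wt_norm_CGeo _ _ _ _ _)
      (wt_norm_CGeo _ _ _ _ _)).trans ?_)
    rw [div_mul_eq_mul_div, le_div_iff₀ R0]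
    have h1 := mul_nonneg (add_nonneg (abs_nonneg σ) (abs_nonneg (m : ℝ))) (norm_nonneg (v - w))
    nlinarith [not_le.1 hd]

end Pool.Agent.MP_adc87d_lc.Big

end
end

section

/-! Sums of periodic functions against archimedean characters. -/

set_option autoImplicit false

noncomputable section

open Finset
open scoped Classical

namespace Pool.Agent.MP_adc87d_lc.Big

open Pool.Agent.MP_2a1f0e_nt (ex)

theorem tO_ne_CPS : tO ≠ 0 := ne_of_xr_pos (by rw [xr_tO]; linarith [thr_gt])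

theorem unfold_CPS (h1 : AlgStmt) (G : O → ℂ) (hG : ∀ x, 0 < xr x → G (tO * x) = G x) (n : ℕ) :
    ∑ x ∈ Dn 0 n, G x = ∑ x ∈ Dn 0 n, G x * (tent (eta x) : ℝ) +
      ∑ x ∈ Dn (-1) n, G x * (tent (eta x) : ℝ) := by
  have h := h1.2.2.2.2.2.2.2 (-1) n (fun x => G x * (Int.fract (eta x) : ℝ)) fun x hx => by
    simp only [hG x hx, eta_mul tO_ne_CPS (ne_of_xr_pos hx), eta_tO, add_comm (1 : ℝ),
      Int.fract_add_one]
  have e1 : ∑ x ∈ Dn (-1) n, G x * (tent (eta x) : ℝ) =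
      ∑ x ∈ Dn (-1) n, G x * (Int.fract (eta x) : ℝ) := by
    refine sum_congr rfl fun x hx => ?_
    obtain ⟨⟨-, a, b⟩, -⟩ := mem_Dn.1 hx
    rw [← Int.fract_add_one, Int.fract_eq_self.2 ⟨by linarith, by linarith⟩, tent,
      abs_of_neg (by linarith), max_eq_right (by linarith)]
    congr 2
    ring
  rw [e1, h, ← sum_add_distrib]
  refine sum_congr rfl fun x hx => ?_
  obtain ⟨⟨-, a, b⟩, -⟩ := mem_Dn.1 hx
  rw [Int.fract_eq_self.2 ⟨a, by linarith⟩, tent, abs_of_nonneg a, max_eq_right (by linarith)]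
  push_cast
  ring

theorem disj_CPS {s s' : ℝ} {n n' : ℕ} (h : n ≠ n') : Disjoint (Dn s n) (Dn s' n') :=
  disjoint_left.2 fun _ a b => h (by exact_mod_cast (mem_Dn.1 a).2.symm.trans (mem_Dn.1 b).2)

theorem sumT_CPS (f : O → ℂ) (N : ℕ) :
    ∑ x ∈ (Icc 1 N).biUnion (fun n => Dn 0 n ∪ Dn (-1) n), f x =
      ∑ n ∈ Icc 1 N, (∑ x ∈ Dn 0 n, f x + ∑ x ∈ Dn (-1) n, f x) := by
  rw [sum_biUnion]
  · refine sum_congr rfl fun n _ => sum_union (disjoint_left.2 fun x a b => ?_)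
    linarith [(mem_Dn.1 a).1.2.1, (mem_Dn.1 b).1.2.2]
  · intro n _ n' _ h
    simp only [Function.onFun, disjoint_union_left, disjoint_union_right]
    exact ⟨⟨disj_CPS h, disj_CPS h⟩, disj_CPS h, disj_CPS h⟩

theorem cnt_CPS (h2 : SzStmt) : ∃ c : ℝ, 1 ≤ c ∧ ∀ z : ℝ, 0 ≤ z →
    ∑ n ∈ Icc 1 ⌊z⌋₊, ((Dn 0 n).card : ℝ) ≤ c * z := by
  obtain ⟨c, c1, -, -, hc⟩ := h2 1
  refine ⟨c, c1, fun z hz => le_trans ?_ (hc 0 z hz)⟩
  rw [← Nat.cast_sum, ← card_biUnion fun n _ n' _ h => disj_CPS h, Nat.cast_le]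
  refine card_le_card fun x hx => ?_
  obtain ⟨n, hn, hx⟩ := mem_biUnion.1 hx
  obtain ⟨⟨a, b, d⟩, e⟩ := mem_Dn.1 hx
  rw [mem_Icc] at hn
  refine mem_Rg.2 ⟨a, abs_le.2 ⟨by linarith, by linarith⟩, by exact_mod_cast Nm_pos a, ?_⟩
  rw [e, Int.cast_natCast]
  exact (Nat.le_floor_iff hz).1 hn.2

theorem clp_mono_CPS {a b : ℝ} (h : a ≤ b) : clp a ≤ clp b :=
  max_le_max le_rfl (min_le_min le_rfl h)

theorem clp_bd_CPS (a : ℝ) : 0 ≤ clp a ∧ clp a ≤ 1 :=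
  ⟨le_max_left _ _, max_le zero_le_one (min_le_left _ _)⟩

theorem clp_one_CPS {a : ℝ} (h : 1 ≤ a) : clp a = 1 := by
  rw [clp, min_eq_left h, max_eq_right zero_le_one]

theorem clp_zero_CPS {a : ℝ} (h : a ≤ 0) : clp a = 0 :=
  max_eq_left ((min_le_right _ _).trans h)

theorem rmp_CPS {y U : ℝ} (hU : 0 < U) (t : ℝ) : |rmp y U t - if t ≤ y then 1 else 0| ≤
    (if t ≤ 2 * U then 1 else 0) + (rmp (y + U) U t - rmp (y - U) U t) := by
  have a := clp_bd_CPS ((t - U) / U)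
  have b := clp_bd_CPS ((y + U - t) / U)
  have m1 : clp ((y - U + U - t) / U) ≤ clp ((y + U + U - t) / U) :=
    clp_mono_CPS (div_le_div_of_nonneg_right (by linarith) hU.le)
  have m2 : clp ((y + U - t) / U) ≤ clp ((y + U + U - t) / U) :=
    clp_mono_CPS (div_le_div_of_nonneg_right (by linarith) hU.le)
  have m3 := mul_le_mul_of_nonneg_left m1 a.1
  have m4 := mul_nonneg a.1 b.1
  have m5 := mul_le_one₀ a.2 b.1 b.2
  unfold rmp
  by_cases h1 : t ≤ 2 * U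
  · rw [if_pos h1, abs_le]
    split_ifs <;> constructor <;> linarith
  · rw [if_neg h1, clp_one_CPS (a := (t - U) / U) ((one_le_div hU).2 (by linarith))]
    split_ifs with h2
    · rw [clp_one_CPS (a := (y + U - t) / U) ((one_le_div hU).2 (by linarith))]
      simpa using m1
    · rw [clp_zero_CPS (a := (y - U + U - t) / U)
        (div_nonpos_of_nonpos_of_nonneg (by linarith) hU.le)]
      simpa [abs_of_nonneg b.1] using m2

theorem Wt_rc_CPS (σ : ℝ) (m : ℤ) (y U : ℝ) (x : O) : Wt σ m y U (rc x) =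
    if 0 < xr x then ((tent (eta x) * rmp y U (Nm x) : ℝ) : ℂ) * ar σ m x else 0 := by
  rw [Wt, Nv_rc]
  rfl

theorem smooth_CPS (h1 : AlgStmt) (h3 : GeoStmt) (h4 : LatStmt) (h5 : IntStmt) (h6 : MeanStmt)
    (h7 : ChStmt) : ∃ κ C : ℝ, 0 < κ ∧ 1 ≤ C ∧ ∀ (M : ℕ) (F : O → ℂ) (σ : ℝ) (m : ℤ) (y R : ℝ)
      (N : ℕ), 1 ≤ M → Per M F → (∀ x, ‖F x‖ ≤ 1) → (∀ x, F (tO * x) * ar σ m tO = F x) →
      1 ≤ R → (M : ℝ) ≤ R ^ 2 → 0 ≤ y → y ≤ 4 * R ^ 6 → y + R ^ 5 ≤ N →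
      ‖∑ n ∈ Icc 1 N, (∑ x ∈ Dn 0 n, F x * ar σ m x) * (rmp y (R ^ 5) n : ℝ) -
        (if σ = 0 ∧ m = 0 then κ * mean M F * y else 0)‖ ≤
        C * M * (1 + |σ| + |(m : ℝ)|) * R ^ 5 := by
  obtain ⟨G, G1, hG⟩ := h3
  obtain ⟨L, L1, hL⟩ := h4
  obtain ⟨κ, κ0, hI⟩ := h5
  have p1 : 1 ≤ L * G ^ 4 := one_le_mul_of_one_le_of_one_le L1 (one_le_pow₀ G1)
  refine ⟨κ, 8 * (L * G ^ 4) + 3 * κ, κ0, by linarith,
    fun M F σ m y R N hM hP hF hT hR hMR y0 y1 hN => ?_⟩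
  obtain ⟨-, g2, g3⟩ := hG σ m y R hR y1
  obtain ⟨i1, i2⟩ := hI y R hR y0 y1
  have R0 : 0 < R := by linarith
  have M1 : (1 : ℝ) ≤ M := by exact_mod_cast hM
  set Q : ℝ := 1 + |σ| + |(m : ℝ)| with hQ
  have Q1 : 1 ≤ Q := by linarith [abs_nonneg σ, abs_nonneg (m : ℝ)]
  have hl := hL M (fun v => F (vec.symm v)) (Wt σ m y (R ^ 5)) (G * Q / R) (G * R ^ 2)
    (((Icc 1 N).biUnion fun n => Dn 0 n ∪ Dn (-1) n).map vec.toEmbedding) hM
    (fun v w h => hP _ _ ((O.natCast_dvd _ _).2 (by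
      simpa [vec_symm_apply] using ⟨h 0, h 1, h 2⟩)))
    (fun v => hF _) (by positivity) (by positivity) g2 g3 (by
      intro v hv
      obtain ⟨x, rfl⟩ := vec.surjective v
      have hv' : Wt σ m y (R ^ 5) (rc x) ≠ 0 := hv
      rw [Wt_rc_CPS] at hv'
      have a1 : 0 < xr x := by
        by_contra h
        exact hv' (if_neg h)
      rw [if_pos a1] at hv'
      have a2 : tent (eta x) * rmp y (R ^ 5) (Nm x) ≠ 0 := fun h => hv' (by simp [h])
      have a3 : |eta x| < 1 := by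
        by_contra h
        exact left_ne_zero_of_mul a2 (max_eq_left (by linarith))
      have a4 : (Nm x : ℝ) ≤ N := by
        by_contra h
        exact right_ne_zero_of_mul (right_ne_zero_of_mul a2)
          (clp_zero_CPS (div_nonpos_of_nonpos_of_nonneg (by linarith) (by positivity)))
      have a5 := Nm_pos a1
      have a6 : Nm x ≤ N := by exact_mod_cast a4
      refine mem_map_of_mem _ (mem_biUnion.2 ⟨(Nm x).toNat, mem_Icc.2 (by omega), ?_⟩)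
      rw [abs_lt] at a3
      rw [mem_union, mem_Dn, mem_Dn]
      rcases le_or_gt 0 (eta x) with h | h
      · exact Or.inl ⟨⟨a1, h, by linarith⟩, by omega⟩
      · exact Or.inr ⟨⟨a1, a3.1.le, by linarith⟩, by omega⟩)
  have e1 : ∑ v ∈ ((Icc 1 N).biUnion fun n => Dn 0 n ∪ Dn (-1) n).map vec.toEmbedding,
      F (vec.symm v) * Wt σ m y (R ^ 5) (fun i => v i) =
      ∑ n ∈ Icc 1 N, (∑ x ∈ Dn 0 n, F x * ar σ m x) * (rmp y (R ^ 5) n : ℝ) := by
    rw [sum_map, sumT_CPS]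
    refine sum_congr rfl fun n _ => ?_
    rw [unfold_CPS h1 (fun x => F x * ar σ m x) fun x hx => by
      simp only [h7.1 σ m tO x tO_ne_CPS (ne_of_xr_pos hx), ← mul_assoc, hT], add_mul, sum_mul,
      sum_mul]
    have key : ∀ s : ℝ, ∀ x ∈ Dn s n, F (vec.symm (vec.toEmbedding x)) *
        Wt σ m y (R ^ 5) (fun i => vec.toEmbedding x i) =
        F x * ar σ m x * (tent (eta x) : ℝ) * (rmp y (R ^ 5) n : ℝ) := by
      intro s x hx
      obtain ⟨⟨a, -⟩, b⟩ := mem_Dn.1 hx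
      change F x * Wt σ m y (R ^ 5) (rc x) = _
      rw [Wt_rc_CPS, if_pos a, b]
      push_cast
      ring
    rw [sum_congr rfl (key 0), sum_congr rfl (key (-1))]
  rw [e1] at hl
  change ‖_ - mean M F * _‖ ≤ _ at hl
  have b1 : L * M * (G * Q / R) * (G * R ^ 2 + M) ^ 3 ≤ 8 * (L * G ^ 4) * M * Q * R ^ 5 := by
    have b2 : G * R ^ 2 + M ≤ 2 * (G * R ^ 2) := by
      linarith [le_mul_of_one_le_left (by positivity : 0 ≤ R ^ 2) G1]
    calc _ ≤ L * M * (G * Q / R) * (2 * (G * R ^ 2)) ^ 3 := by gcongr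
      _ = _ := by field_simp; norm_num
  have b2 : ‖mean M F * (∫ v, Wt σ m y (R ^ 5) v) -
      (if σ = 0 ∧ m = 0 then κ * mean M F * y else 0)‖ ≤ 3 * κ * R ^ 5 := by
    split_ifs with h
    · obtain ⟨rfl, rfl⟩ := h
      rw [show ∀ I : ℂ, mean M F * I - κ * mean M F * y = mean M F * (I - κ * y) from
        fun I => by ring, norm_mul]
      exact (mul_le_of_le_one_left (norm_nonneg _) (h6.2.2.1 M F hM hF)).trans i1
    · have b3 : mean M F * (∫ v, Wt σ m y (R ^ 5) v) = 0 := by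
        by_cases ha : ar σ m tO = 1
        · rw [i2 σ m (not_and_or.1 h) ha, mul_zero]
        · have b4 := h6.1 M F tO hM hP (by rw [Nm_tO]; exact isCoprime_one_left)
          have b5 : mean M (fun x => F (tO * x)) * ar σ m tO = mean M F := by
            simp only [mean]
            rw [div_mul_eq_mul_div, sum_mul]
            simp only [hT]
          rw [b4] at b5
          have b6 : mean M F * (ar σ m tO - 1) = 0 := by rw [mul_sub, b5, mul_one, sub_self]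
          rw [(mul_eq_zero.1 b6).resolve_right (sub_ne_zero.2 ha), zero_mul]
      rw [b3, sub_zero, norm_zero]
      positivity
  have b3 : 3 * κ * R ^ 5 ≤ 3 * κ * M * Q * R ^ 5 := by
    have : 3 * κ * R ^ 5 * 1 ≤ 3 * κ * R ^ 5 * (M * Q) :=
      mul_le_mul_of_nonneg_left (one_le_mul_of_one_le_of_one_le M1 Q1) (by positivity)
    linarith
  refine (norm_sub_le_norm_sub_add_norm_sub _ _ _).trans ((add_le_add hl b2).trans ?_)
  linarith

theorem cps (h1 : AlgStmt) (h2 : SzStmt) (h3 : GeoStmt) (h4 : LatStmt) (h5 : IntStmt)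
    (h6 : MeanStmt) (h7 : ChStmt) : PSStmt := by
  obtain ⟨κ, C, κ0, C1, hs⟩ := smooth_CPS h1 h3 h4 h5 h6 h7
  obtain ⟨c, c1, hc⟩ := cnt_CPS h2
  refine ⟨κ, 3 * C + 2 * c + 2 * κ, κ0, by linarith, fun M F σ m y hM hP hF hT hy => ?_⟩
  obtain ⟨R, R1, e6, e5⟩ : ∃ R : ℝ, 1 ≤ R ∧ R ^ 6 = y ∧ y ^ (5 / 6 : ℝ) = R ^ 5 := by
    refine ⟨y ^ (1 / 6 : ℝ), Real.one_le_rpow hy (by norm_num), ?_, ?_⟩ <;>
      rw [← Real.rpow_natCast, ← Real.rpow_mul (by linarith)] <;> norm_num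
  rw [e5]
  have M1 : (1 : ℝ) ≤ M := by exact_mod_cast hM
  have U0 : 0 < R ^ 5 := by positivity
  have Uy : R ^ 5 ≤ y := e6 ▸ pow_le_pow_right₀ R1 (by norm_num)
  set Q : ℝ := 1 + |σ| + |(m : ℝ)| with hQ
  have Q1 : 1 ≤ Q := by linarith [abs_nonneg σ, abs_nonneg (m : ℝ)]
  have MQ : R ^ 5 * 1 ≤ R ^ 5 * (M * Q) :=
    mul_le_mul_of_nonneg_left (one_le_mul_of_one_le_of_one_le M1 Q1) U0.le
  have hA : ∀ n, ‖∑ x ∈ Dn 0 n, F x * ar σ m x‖ ≤ (Dn 0 n).card := fun n => by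
    refine (norm_sum_le _ _).trans ((sum_le_card_nsmul _ _ 1 fun x hx => ?_).trans_eq (by simp))
    rw [norm_mul, (h7.2.1 σ m x (ne_of_xr_pos (mem_Dn.1 hx).1.1)).1, mul_one]
    exact hF x
  have hmean : ∀ (M : ℕ) (F : O → ℂ) (t : ℝ), 1 ≤ M → (∀ x, ‖F x‖ ≤ 1) → 0 ≤ t →
      ‖(κ : ℂ) * mean M F * t‖ ≤ κ * t := fun M F t a b d => by
    rw [norm_mul, norm_mul, Complex.norm_real, Complex.norm_real, Real.norm_of_nonneg κ0.le,
      Real.norm_of_nonneg d]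
    exact mul_le_mul_of_nonneg_right (mul_le_of_le_one_right κ0.le (h6.2.2.1 M F a b)) d
  rcases le_or_gt (M : ℝ) (R ^ 2) with hMR | hMR
  · obtain ⟨N, hN⟩ := exists_nat_ge (3 * y)
    have s0 := hs M F σ m y R N hM hP hF hT R1 hMR (by linarith) (by linarith) (by linarith)
    have hone : ∀ t : ℝ, 0 ≤ t → t ≤ 2 * y → ‖((∑ n ∈ Icc 1 N, (Dn 0 n).card * rmp t (R ^ 5) n :
        ℝ) : ℂ) - κ * mean 1 (fun _ => 1) * t‖ ≤ C * R ^ 5 := fun t t0 t1 => by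
      have := hs 1 (fun _ => 1) 0 0 t R N le_rfl (fun _ _ _ => rfl) (by simp)
        (by simp [h7.2.2.2.1]) R1 (by rw [Nat.cast_one]; exact one_le_pow₀ R1) t0 (by linarith) (by linarith)
      simpa [h7.2.2.2.1] using this
    have s1 : ∑ n ∈ Icc 1 N, (Dn 0 n).card * (rmp (y + R ^ 5) (R ^ 5) n -
        rmp (y - R ^ 5) (R ^ 5) n) ≤ (2 * C + 2 * κ) * R ^ 5 := by
      have a1 := hone (y + R ^ 5) (by linarith) (by linarith)
      have a2 := hone (y - R ^ 5) (by linarith) (by linarith)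
      have a3 := hmean 1 (fun _ => 1) (2 * R ^ 5) le_rfl (by simp) (by linarith)
      simp only [mul_sub, sum_sub_distrib]
      generalize ∑ n ∈ Icc 1 N, (Dn 0 n).card * rmp (y + R ^ 5) (R ^ 5) n = A at a1 ⊢
      generalize ∑ n ∈ Icc 1 N, (Dn 0 n).card * rmp (y - R ^ 5) (R ^ 5) n = B at a2 ⊢
      generalize mean 1 (fun _ => 1) = μ at a1 a2 a3
      have a4 : ((A - B : ℝ) : ℂ) = (A - κ * μ * (y + R ^ 5 : ℝ)) - (B - κ * μ * (y - R ^ 5 : ℝ)) +
          κ * μ * (2 * R ^ 5 : ℝ) := by push_cast; ring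
      have a5 : A - B ≤ ‖((A - B : ℝ) : ℂ)‖ := by rw [Complex.norm_real]; exact le_abs_self _
      rw [a4] at a5
      have a6 := a5.trans ((norm_add_le _ _).trans (add_le_add_left (norm_sub_le _ _) _))
      linarith
    have s2 : ∑ n ∈ Icc 1 N, ((Dn 0 n).card : ℝ) * (if (n : ℝ) ≤ 2 * R ^ 5 then 1 else 0) ≤
        c * (2 * R ^ 5) := by
      refine le_trans ?_ (hc _ (by linarith))
      simp only [mul_ite, mul_one, mul_zero]
      rw [← sum_filter]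
      refine sum_le_sum_of_subset_of_nonneg (fun n hn => ?_) fun _ _ _ => Nat.cast_nonneg _
      rw [mem_filter, mem_Icc] at hn
      exact mem_Icc.2 ⟨hn.1.1, Nat.le_floor hn.2⟩
    have s3 : ∑ n ∈ Icc 1 ⌊y⌋₊, ∑ x ∈ Dn 0 n, F x * ar σ m x =
        ∑ n ∈ Icc 1 N, (∑ x ∈ Dn 0 n, F x * ar σ m x) *
          ((if (n : ℝ) ≤ y then 1 else 0 : ℝ) : ℂ) := by
      simp only [apply_ite ((↑) : ℝ → ℂ), mul_ite, Complex.ofReal_one, Complex.ofReal_zero,
        mul_one, mul_zero]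
      rw [← sum_filter]
      refine sum_congr ?_ fun _ _ => rfl
      ext n
      rw [mem_filter, mem_Icc, mem_Icc, Nat.le_floor_iff (by linarith)]
      exact ⟨fun h => ⟨⟨h.1, by exact_mod_cast (by linarith [h.2] : (n : ℝ) ≤ N)⟩, h.2⟩,
        fun h => ⟨h.1.1, h.2⟩⟩
    have s4 : ‖∑ n ∈ Icc 1 ⌊y⌋₊, ∑ x ∈ Dn 0 n, F x * ar σ m x -
        ∑ n ∈ Icc 1 N, (∑ x ∈ Dn 0 n, F x * ar σ m x) * (rmp y (R ^ 5) n : ℝ)‖ ≤
        c * (2 * R ^ 5) + (2 * C + 2 * κ) * R ^ 5 := by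
      refine le_trans ?_ (add_le_add s2 s1)
      rw [s3, ← sum_sub_distrib, ← sum_add_distrib]
      refine (norm_sum_le _ _).trans (sum_le_sum fun n _ => ?_)
      rw [← mul_sub, ← mul_add, norm_mul, ← Complex.ofReal_sub, Complex.norm_real,
        Real.norm_eq_abs, abs_sub_comm]
      exact mul_le_mul (hA n) (rmp_CPS U0 n) (abs_nonneg _) (Nat.cast_nonneg _)
    refine (norm_sub_le_norm_sub_add_norm_sub _ _ _).trans ((add_le_add s4 s0).trans ?_)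
    have := mul_le_mul_of_nonneg_left MQ (by linarith : 0 ≤ 2 * C + 2 * c + 2 * κ)
    linarith
  · have s1 : ‖∑ n ∈ Icc 1 ⌊y⌋₊, ∑ x ∈ Dn 0 n, F x * ar σ m x‖ ≤ c * y :=
      (norm_sum_le _ _).trans ((sum_le_sum fun n _ => hA n).trans (hc y (by linarith)))
    have s2 : ‖if σ = 0 ∧ m = 0 then (κ : ℂ) * mean M F * y else 0‖ ≤ κ * y := by
      split_ifs
      · exact hmean M F y hM hF (by linarith)
      · rw [norm_zero]; positivity
    have s3 : y ≤ R ^ 5 * (M * Q) := by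
      rw [← e6, pow_succ]
      refine mul_le_mul_of_nonneg_left (le_trans ?_ (le_mul_of_one_le_right (by linarith) Q1)) U0.le
      nlinarith
    refine (norm_sub_le _ _).trans ((add_le_add s1 s2).trans ?_)
    have a1 := mul_le_mul_of_nonneg_left s3 (by linarith : 0 ≤ c + κ)
    have a2 : 0 ≤ (3 * C + c + κ) * (R ^ 5 * (M * Q)) := by positivity
    linarith

end Pool.Agent.MP_adc87d_lc.Big

end
end
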