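import Pool.Agent.Mg.Fadc87d.G0908ea
import Mathlib
import Pool.Agent.MP_e23604_nt.P.SW
import Pool.Agent.Mg.Fadc87d.G1601fa
import Pool.Agent.Mg.Fadc87d.Gbd6ca0
import Pool.Agent.Mg.Fadc87d.G808f76
import Pool.Agent.Mg.Fadc87d.G293a30
import Pool.Agent.Mg.Fadc87d.G9fe0e6
import Pool.Agent.Mg.Fadc87d.G98ef5b
import Pool.Agent.Mg.Fadc87d.G2a6114
import Pool.Agent.Mg.Fadc87d.Gec9cbc
import Pool.Agent.Mg.Fadc87d.G1723bf
import Pool.Agent.Mg.Fadc87d.Gbae7e1
import Pool.Agent.Mg.Fadc87d.G63f624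
import Pool.Agent.Mg.Fadc87d.G05f558
import Pool.Agent.Mg.Fadc87d.G94956b
import Pool.Agent.Mg.Fadc87d.Gc0f692
import Pool.Agent.Mg.Fadc87d.G0cd5cb
import Pool.Agent.Mg.Fadc87d.G653b1d
import Pool.Agent.Mg.Fadc87d.G516699
import Pool.Agent.Mg.Fadc87d.G04e6de
import Pool.Agent.Mg.Fadc87d.Gb70f5c
import Pool.Agent.Mg.Fadc87d.G6b1215

set_option linter.all false

section

/-! Logarithm and logarithmic derivative of a Dirichlet series. -/

set_option autoImplicit false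

noncomputable section

open Finset
open scoped Classical

namespace Pool.Agent.MP_adc87d_lc.Big

open Pool.Agent.MP_2a1f0e_nt (ex)
open Filter Topology LSeries ArithmeticFunction

theorem nonp_CAn2 : Summable fun n : ℕ => (if n.Prime then 0 else vonMangoldt n) / (n : ℝ) := by
  refine (vonMangoldt.summable_residueClass_non_primes_div (0 : ZMod 1)).congr fun n => ?_
  have h : n ∈ {n : ℕ | (n : ZMod 1) = 0} := Subsingleton.elim (n : ZMod 1) 0
  rw [vonMangoldt.residueClass, Set.indicator_of_mem h]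

theorem can2 : An2Stmt := by
  refine ⟨∑' n : ℕ, 6 * ((if n.Prime then 0 else vonMangoldt n) / (n : ℝ)),
    fun a b c A Q h => ?_⟩
  have b1 : b 1 = 0 := by simpa using h.bd 1
  have hp : ∀ p : ℕ, p.Prime → b p = a p * Real.log p := fun p hp => by
    rw [h.conv p hp.ne_zero, Nat.sum_divisorsAntidiagonal (fun i j => b i * a j), hp.sum_divisors,
      Nat.div_self hp.pos, h.one, b1]
    simp
  have lp : ∀ n : ℕ, 2 ≤ n → 1 / 2 ≤ Real.log n := fun n hn => by
    have h1 := Real.log_two_gt_d9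
    have h2 : Real.log 2 ≤ Real.log n := Real.log_le_log (by norm_num) (by exact_mod_cast hn)
    linarith
  set g : ℕ → ℂ := fun n => b n / Real.log n with hg
  have g2 : ∀ n : ℕ, ‖g n‖ ≤ 3 ∧ ‖g n‖ ≤ 6 * vonMangoldt n := fun n => by
    rcases le_or_gt 2 n with hn | hn
    · have h1 := lp n hn
      have h2 := h.bd n
      have h3 := vonMangoldt_le_log (n := n)
      have h4 := vonMangoldt_nonneg (n := n)
      simp only [hg, norm_div, Complex.norm_real, Real.norm_eq_abs]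
      rw [abs_of_pos (by linarith), div_le_iff₀ (by linarith), div_le_iff₀ (by linarith)]
      constructor <;> nlinarith
    · interval_cases n <;> simp [hg]
  have gp : ∀ p : ℕ, p.Prime → g p = a p := fun p h' => by
    have h1 := lp p h'.two_le
    have : ((Real.log p : ℝ) : ℂ) ≠ 0 := by exact_mod_cast (by linarith : Real.log p ≠ 0)
    simp only [hg]
    rw [hp p h', mul_div_cancel_right₀ _ this]
  have lg : ∀ {n : ℕ}, n ≠ 0 → logMul g n = b n := fun {n} hn => by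
    rcases le_or_gt 2 n with h2 | h2
    · have h1 := lp n h2
      have : ((Real.log n : ℝ) : ℂ) ≠ 0 := by exact_mod_cast (by linarith : Real.log n ≠ 0)
      simp only [logMul, hg]
      rw [← Complex.natCast_log, mul_div_cancel₀ _ this]
    · obtain rfl : n = 1 := by omega
      simp [logMul, b1]
  have ag : abscissaOfAbsConv g ≤ 1 := abscissaOfAbsConv_le_of_le_const ⟨3, fun n _ => (g2 n).1⟩
  have aa : abscissaOfAbsConv a ≤ 1 := by
    refine abscissaOfAbsConv_le_of_forall_lt_LSeriesSummable (x := 1) fun y hy => ?_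
    refine LSeriesSummable_of_sum_norm_bigO (r := 1) (Asymptotics.IsBigO.of_bound A ?_) zero_le_one
      (by simpa using hy)
    filter_upwards [eventually_ge_atTop 1] with n hn
    have := h.abs n (by exact_mod_cast hn)
    rw [Nat.floor_natCast] at this
    rw [Real.norm_of_nonneg (sum_nonneg fun _ _ => norm_nonneg _), Real.rpow_one, Real.norm_natCast]
    exact this
  have lt : ∀ {f : ℕ → ℂ} {s : ℂ}, abscissaOfAbsConv f ≤ 1 → 1 < s.re →
      abscissaOfAbsConv f < s.re := fun h1 h2 => h1.trans_lt (by exact_mod_cast h2)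
  have ab : abscissaOfAbsConv b ≤ 1 := by
    rw [← abscissaOfAbsConv_congr lg, abscissaOfAbsConv_logMul]
    exact ag
  have da : ∀ s : ℂ, 1 < s.re → HasDerivAt (LSeries a) (-(LSeries b s * LSeries a s)) s :=
    fun s hs => by
      have h1 := LSeries_hasDerivAt (lt aa hs)
      rwa [LSeries_congr (g := convolution b a) (fun {n} hn => by
        rw [convolution_def, logMul, ← Complex.natCast_log, mul_comm]
        exact h.conv n hn), LSeries_convolution (lt ab hs) (lt aa hs)] at h1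
  have dg : ∀ s : ℂ, 1 < s.re → HasDerivAt (LSeries g) (-LSeries b s) s := fun s hs => by
    have h1 := LSeries_hasDerivAt (lt ag hs)
    rwa [LSeries_congr lg] at h1
  have dF : ∀ s : ℂ, 1 < s.re →
      HasDerivAt (fun z => LSeries a z * Complex.exp (-LSeries g z)) 0 s := fun s hs =>
    ((da s hs).mul (dg s hs).neg.cexp).congr_deriv (by simp only [Pi.neg_apply]; ring)
  have ho : IsOpen {s : ℂ | 1 < s.re} := isOpen_lt continuous_const Complex.continuous_re
  have key : ∀ s : ℂ, 1 < s.re → LSeries a s * Complex.exp (-LSeries g s) = 1 := fun s hs => by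
    have t1 := (LSeries.tendsto_atTop (aa.trans_lt (EReal.coe_lt_top 1))).mul
      (LSeries.tendsto_atTop (ag.trans_lt (EReal.coe_lt_top 1))).neg.cexp
    rw [h.one, show g 1 = 0 by simp [hg], neg_zero, Complex.exp_zero, mul_one] at t1
    refine tendsto_nhds_unique (tendsto_const_nhds.congr' ?_) t1
    filter_upwards [eventually_gt_atTop 1] with x hx
    exact ho.is_const_of_deriv_eq_zero (convex_halfSpace_re_gt 1).isPreconnected
      (fun z hz => (dF z hz).differentiableAt.differentiableWithinAt)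
      (fun z hz => (dF z hz).deriv) hs (by simpa using hx)
  refine ⟨fun p h' => ⟨hp p h', gp p h' ▸ (g2 p).1⟩, fun s hs => ?_⟩
  have e1 : LSeries a s = Complex.exp (LSeries g s) := by
    have := key s hs
    rwa [Complex.exp_neg, mul_inv_eq_one₀ (Complex.exp_ne_zero _)] at this
  have n0 : LSeries a s ≠ 0 := e1 ▸ Complex.exp_ne_zero _
  have sg : Summable (term g s) := LSeriesSummable_of_abscissaOfAbsConv_lt_re (lt ag hs)
  have tp : ∀ p : Nat.Primes, term g s p = a p * ((p : ℕ) : ℂ) ^ (-s) := fun p => by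
    rw [term_of_ne_zero p.2.ne_zero, gp p p.2, Complex.cpow_neg, div_eq_mul_inv]
  refine ⟨n0, ?_, (sg.subtype {p | p.Prime}).congr tp, ?_⟩
  · have e2 : PSum a s = ∑' n, {p : ℕ | p.Prime}.indicator (term g s) n := by
      rw [← _root_.tsum_subtype]
      exact (tsum_congr tp).symm
    rw [e1, Complex.norm_exp, Real.log_exp, ← Complex.sub_re, e2, LSeries,
      ← sg.tsum_sub (sg.indicator _)]
    refine (Complex.abs_re_le_norm _).trans (tsum_of_norm_bounded (nonp_CAn2.mul_left 6).hasSum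
      fun n => ?_)
    by_cases h' : n.Prime
    · rw [Set.indicator_of_mem (s := {p : ℕ | p.Prime}) h', if_pos h']
      simp
    · rw [Set.indicator_of_notMem (s := {p : ℕ | p.Prime}) h', if_neg h', sub_zero, norm_term_eq]
      rcases eq_or_ne n 0 with rfl | hn
      · simp
      · have h1 : (1 : ℝ) ≤ n := by exact_mod_cast Nat.pos_of_ne_zero hn
        have h2 : (n : ℝ) ≤ (n : ℝ) ^ s.re := Real.self_le_rpow_of_one_le h1 hs.le
        have h4 := vonMangoldt_nonneg (n := n)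
        rw [if_neg hn, ← mul_div_assoc]
        exact div_le_div₀ (by linarith) (g2 n).2 (by linarith) h2
  · rw [logDeriv_apply, (da s hs).deriv]
    field_simp

end Pool.Agent.MP_adc87d_lc.Big

end
end

section

noncomputable section

open Finset
open scoped Classical

namespace Pool.Agent.MP_adc87d_lc.Big

open Pool.Agent.MP_2a1f0e_nt (ex)
open Pool.Agent.MP_2a1f0e_nt

theorem ar_eq_CCh (σ : ℝ) (m : ℤ) (x : O) :
    ar σ m x = ex (σ * eta x) * (zr x / ‖zr x‖) ^ m := rfl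

theorem ex_arg_CCh {z : ℂ} (hz : z ≠ 0) : z / ‖z‖ = ex (Complex.arg z / (2 * Real.pi)) := by
  have h : ((‖z‖ : ℝ) : ℂ) ≠ 0 := by exact_mod_cast norm_ne_zero_iff.2 hz
  rw [div_eq_iff h, ex, mul_div_cancel₀ _ (by positivity), mul_comm Complex.I, mul_comm,
    Complex.norm_mul_exp_arg_mul_I]

theorem ex_int_mul_CCh (m : ℤ) (x : ℝ) : ex (m * x) = ex x ^ m := by
  rw [ex, ex, ← Complex.exp_int_mul]
  congr 1; push_cast; ring

theorem ar_mul_CCh (σ : ℝ) (m : ℤ) (x y : O) (hx : x ≠ 0) (hy : y ≠ 0) :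
    ar σ m (x * y) = ar σ m x * ar σ m y := by
  rw [ar_eq_CCh, ar_eq_CCh, ar_eq_CCh, eta_mul hx hy, mul_add, ex_add, map_mul, norm_mul,
    Complex.ofReal_mul, mul_div_mul_comm, mul_zpow]
  ring

theorem ar_ex_CCh (σ : ℝ) (m : ℤ) (x : O) (hx : x ≠ 0) :
    ar σ m x = ex (σ * eta x) * ex (m * ang x) := by
  rw [ar_eq_CCh, ex_arg_CCh (zr_ne hx), ex_int_mul_CCh]; rfl

theorem ar_norm_CCh (σ : ℝ) (m : ℤ) (x : O) (hx : x ≠ 0) : ‖ar σ m x‖ = 1 := by
  rw [ar_ex_CCh σ m x hx, norm_mul, norm_ex, norm_ex, one_mul]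

theorem ar_nat_CCh (σ : ℝ) (m : ℤ) (n : ℕ) (h : n ≠ 0) : ar σ m n = 1 := by
  have : (n : ℂ) ≠ 0 := by exact_mod_cast h
  rw [ar_eq_CCh, eta_nat h, map_natCast, Complex.norm_natCast, Complex.ofReal_natCast,
    div_self this, mul_zero, ex_zero, one_zpow, one_mul]

theorem ar_le_CCh (σ : ℝ) (m : ℤ) (x : O) : ‖ar σ m x‖ ≤ 1 := by
  by_cases hx : x = 0
  · rw [hx, ar_eq_CCh, norm_mul, norm_ex, one_mul, map_zero, zero_div]
    by_cases hm : m = 0
    · simp [hm]
    · simp [zero_zpow m hm]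
  · exact (ar_norm_CCh σ m x hx).le

theorem tO_ne_CCh : tO ≠ 0 := tU.ne_zero

theorem val_mul_CCh {Ψ : Chr} (h : Ψ.Is) (x y : O) (hx : x ≠ 0) (hy : y ≠ 0) :
    Ψ.val (x * y) = Ψ.val x * Ψ.val y := by
  rw [Chr.val, Chr.val, Chr.val, h.1.mul, ar_mul_CCh _ _ _ _ hx hy]; ring

theorem val_one_CCh {Ψ : Chr} (h : Ψ.Is) : Ψ.val 1 = 1 := by
  have := ar_nat_CCh Ψ.σ Ψ.m 1 one_ne_zero
  rw [Nat.cast_one] at this
  rw [Chr.val, h.1.one, this, one_mul]

theorem unit_CCh {q M : ℕ} (h : q ∣ M) {a : ℤ} (ha : IsCoprime a M) : IsUnit (a : ZMod q) :=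
  (ZMod.coe_int_isUnit_iff_isCoprime a q).2
    (ha.of_isCoprime_of_dvd_right (Int.natCast_dvd_natCast.2 h)).symm

theorem cube3_CCh {a : ℤ} (h : a % 9 = 1 ∨ a % 9 = 8) (j : ℕ) :
    ∃ n : ℤ, 3 ∣ n ^ 2 - 1 ∧ 3 ^ (j + 2) ∣ n ^ 3 - a := by
  induction j with
  | zero =>
    rcases h with h | h
    · exact ⟨1, by norm_num, by norm_num; omega⟩
    · exact ⟨-1, by norm_num, by norm_num; omega⟩
  | succ j ih =>
    obtain ⟨n, ⟨v, hv⟩, u, hu⟩ := ih
    refine ⟨n - 3 ^ (j + 1) * u, ⟨v - 2 * n * 3 ^ j * u + 3 * (3 ^ j * u) ^ 2, ?_⟩,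
      -(u * v) + 3 ^ j * n * u ^ 2 - (3 ^ j) ^ 2 * u ^ 3, ?_⟩
    · linear_combination hv
    · linear_combination hu - 3 ^ (j + 2) * u * hv

theorem cube_CCh {k M : ℕ} (hk : 2 ≤ k) (hM : 1 ≤ M) (hd : 23 * 3 ^ k ∣ M) {a : ℤ}
    (ha : IsCoprime a M) (h : a % 9 = 1 ∨ a % 9 = 8) :
    ∃ n : ℤ, IsCoprime n M ∧ ((n ^ 3 : ℤ) : ZMod (23 * 3 ^ k)) = a := by
  obtain ⟨j, rfl⟩ := Nat.exists_eq_add_of_le' hk
  obtain ⟨n₂, -, h2⟩ := cube3_CCh h j
  have h23 : ∀ b : ZMod 23, ∃ c : ZMod 23, c ^ 3 = b := by decide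
  obtain ⟨c, hc⟩ := h23 a
  obtain ⟨n₁, rfl⟩ := ZMod.intCast_surjective c
  have h1 : (23 : ℤ) ∣ n₁ ^ 3 - a :=
    (ZMod.intCast_zmod_eq_zero_iff_dvd _ 23).1 (by push_cast; rw [hc, sub_self])
  have hco : IsCoprime (23 : ℤ) (3 ^ (j + 2)) :=
    IsCoprime.pow_right ⟨-1, 8, by norm_num⟩
  obtain ⟨u, v, huv⟩ := id hco
  set n₀ := n₂ * u * 23 + n₁ * v * 3 ^ (j + 2) with hn
  have a1 : (23 : ℤ) ∣ n₀ - n₁ := ⟨(n₂ - n₁) * u, by rw [hn]; linear_combination n₁ * huv⟩
  have a2 : (3 : ℤ) ^ (j + 2) ∣ n₀ - n₂ :=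
    ⟨(n₁ - n₂) * v, by rw [hn]; linear_combination n₂ * huv⟩
  have a3 : (23 : ℤ) * 3 ^ (j + 2) ∣ n₀ ^ 3 - a := by
    refine hco.mul_dvd ?_ ?_
    · simpa using (a1.trans (sub_dvd_pow_sub_pow n₀ n₁ 3)).add h1
    · simpa using (a2.trans (sub_dvd_pow_sub_pow n₀ n₂ 3)).add h2
  have a4 : (n₀ : ZMod (23 * 3 ^ (j + 2))) ^ 3 = a := by
    have := (ZMod.intCast_zmod_eq_zero_iff_dvd (n₀ ^ 3 - a) (23 * 3 ^ (j + 2))).2
      (by exact_mod_cast a3)
    rwa [Int.cast_sub, Int.cast_pow, sub_eq_zero] at this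
  have a5 : IsUnit (n₀ : ZMod (23 * 3 ^ (j + 2))) :=
    (isUnit_pow_iff three_ne_zero).1 (a4 ▸ unit_CCh hd ha)
  have : NeZero M := ⟨by omega⟩
  obtain ⟨w, hw⟩ := ZMod.unitsMap_surjective hd a5.unit
  refine ⟨((w : ZMod M).val : ℤ), Nat.isCoprime_iff_coprime.2 (ZMod.val_coe_unit_coprime w), ?_⟩
  have a6 := congrArg Units.val hw
  rw [ZMod.unitsMap_val, IsUnit.unit_spec, ← ZMod.natCast_val] at a6
  rw [Int.cast_pow, Int.cast_natCast, a6, a4]

theorem cch (_h : AlgStmt) : ChStmt := by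
  refine ⟨ar_mul_CCh, fun σ m x hx => ⟨ar_norm_CCh σ m x hx, ar_ex_CCh σ m x hx⟩, ar_nat_CCh,
    fun x => by simp [ar_eq_CCh, ex_zero], fun σ σ' m m' x hx => ?_,
    fun Ψ h => ⟨val_mul_CCh h, fun x => ?_, val_one_CCh h, fun n => ?_, ?_⟩,
    fun Ψ q χ h hq => ⟨⟨⟨h.1.pos, fun x y => ?_, ?_, fun x y hxy => ?_, fun x hx => ?_,
      fun x hx => ?_⟩, ?_⟩, fun n => ?_, fun hG χ' => ?_, ?_, fun hP => ⟨1, fun n hn => ?_⟩,
      fun hG => ?_⟩, fun Ψ k hk h hd hP hN χ => ?_, fun M φ m h => ?_⟩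
  · simp only [ar_ex_CCh _ _ x hx, add_mul, Int.cast_add, ex_add]; ring
  · rw [Chr.val, norm_mul]
    refine mul_le_one₀ ?_ (norm_nonneg _) (ar_le_CCh _ _ _)
    by_cases hx : IsCoprime (Nm x) Ψ.M
    · exact (h.1.unit x hx).le
    · simp [h.1.zero x hx]
  · have s : ∀ n : ℤ, Ψ.val (tU ^ (n + 1) : Oˣ) = Ψ.val (tU ^ n : Oˣ) := fun n => by
      rw [zpow_add_one, Units.val_mul, val_mul_CCh h _ _ (Units.ne_zero _) (Units.ne_zero _),
        show Ψ.val (tU : O) = 1 from h.2, mul_one]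
    induction n using Int.induction_on with
    | zero => simpa using val_one_CCh h
    | succ n ih => rw [s, ih]
    | pred n ih => rw [← s, sub_add_cancel, ih]
  · have h1 : (1 : ℝ) ≤ Ψ.M := by exact_mod_cast h.1.pos
    exact one_le_mul_of_one_le_of_one_le h1
      (by linarith [abs_nonneg Ψ.σ, abs_nonneg (Ψ.m : ℝ)])
  · simp only [Chr.tw, h.1.mul, Nm_mul, Int.cast_mul, map_mul]; ring
  · simp [Chr.tw, h.1.one, Nm_one]
  · have h1 : Nm x ≡ Nm y [ZMOD Ψ.M] := Nm_modEq (by rw [Int.cast_natCast]; exact hxy)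
    have h2 := (ZMod.intCast_eq_intCast_iff _ _ q).2 (h1.of_dvd (Int.natCast_dvd_natCast.2 hq))
    simp only [Chr.tw, h.1.per x y hxy, h2]
  · have := χ.unit_norm_eq_one (unit_CCh hq hx).unit
    rw [IsUnit.unit_spec] at this
    simp only [Chr.tw, norm_mul, h.1.unit x hx, this, one_mul]
  · simp only [Chr.tw, h.1.zero x hx, zero_mul]
  · simpa [Chr.tw, Nm_tO] using h.2
  · rw [Chr.a, Chr.a, Finset.mul_sum]
    refine Finset.sum_congr rfl fun x hx => ?_
    simp only [Chr.val, Chr.tw, (mem_Dn.1 hx).2, Int.cast_natCast]; ring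
  · have := hG (χ * χ')
    simpa only [Chr.tw, Chr.NT, MulChar.mul_apply, mul_assoc] using this
  · rintro ⟨χ', h'⟩
    refine ⟨χ' * χ ^ 3, fun n hn => ?_⟩
    simp only [Chr.tw, h' n hn, Nm_int, Int.cast_pow, map_pow, MulChar.mul_apply,
      MulChar.pow_apply' χ three_ne_zero]
  · rw [hP n hn, MulChar.one_apply (unit_CCh hq hn)]
  · refine (hG 1).imp_left ?_
    rintro ⟨g, h1, h2⟩
    refine ⟨g, h1, fun h3 => h2 ?_⟩
    simp only [Chr.tw, h3, MulChar.one_apply (unit_CCh hq h1), mul_one]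
  · refine hN.imp_left ?_
    rintro ⟨g, h1, h2, h3⟩
    by_contra hc
    push Not at hc
    obtain ⟨n, h4, h5⟩ := cube_CCh hk h.1.pos hd h1 h2
    have h6 := hc n (by rw [Nm_int]; exact h4.pow_left)
    have h7 := hc g h1
    simp only [Chr.tw, Nm_int, hP n h4, one_mul, h5] at h6
    simp only [Chr.tw, h6, mul_one] at h7
    exact h3 h7
  · have h1 : ‖φ tO * ar 0 m tO‖ = 1 := by
      rw [norm_mul, h.unit _ (by rw [Nm_tO]; exact isCoprime_one_left),
        ar_norm_CCh _ _ _ tO_ne_CCh, one_mul]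
    have h2 := ex_arg_CCh (z := φ tO * ar 0 m tO) (by rw [← norm_ne_zero_iff, h1]; norm_num)
    rw [h1, Complex.ofReal_one, div_one] at h2
    set θ := Complex.arg (φ tO * ar 0 m tO) / (2 * Real.pi)
    refine ⟨Int.fract (-θ), Int.fract_nonneg _, (Int.fract_lt_one _).le, fun j => ⟨h, ?_⟩⟩
    have h3 : ar (Int.fract (-θ) + j) m tO = ex (Int.fract (-θ) + j) * ar 0 m tO := by
      rw [ar_eq_CCh, ar_eq_CCh, eta_tO, zero_mul, ex_zero, one_mul, mul_one]
    change φ tO * ar (Int.fract (-θ) + j) m tO = 1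
    rw [h3, mul_left_comm, h2, ← ex_add, ← ex_int (j - ⌊-θ⌋)]
    congr 1
    rw [Int.fract]; push_cast; ring

end Pool.Agent.MP_adc87d_lc.Big

end
end

section

/-! Lattice sums and integrals. -/

set_option autoImplicit false

noncomputable section

open Finset
open scoped Classical

namespace Pool.Agent.MP_adc87d_lc.Big

open Pool.Agent.MP_2a1f0e_nt (ex)
open MeasureTheory

theorem clat : LatStmt := by
  refine ⟨8, by norm_num, fun M F W Λ R S hM hF h1 hΛ hR h2 h3 h4 => ?_⟩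
  have m0 : (0 : ℝ) < M := by exact_mod_cast hM
  have m1 : (0 : ℤ) < M := by exact_mod_cast hM
  let Q : (Fin 3 → ℤ) → Set (Fin 3 → ℝ) := fun v => Set.pi Set.univ fun i =>
    Set.Ico (((v i / M : ℤ) : ℝ) * M) (((v i / M : ℤ) : ℝ) * M + M)
  have qm : ∀ v, MeasurableSet (Q v) := fun v => MeasurableSet.univ_pi fun i => measurableSet_Ico
  have qv : ∀ v, volume (Q v) = ENNReal.ofReal M ^ 3 := fun v => by simp [Q, Real.volume_pi_Ico]
  have qi : ∀ v (c : ℂ), Integrable ((Q v).indicator fun _ => c) := fun v c =>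
    (integrableOn_const (by simp [qv])).integrable_indicator (qm v)
  let e : (Fin 3 → ℝ) → (Fin 3 → ℤ) → Fin 3 → ℤ := fun x a i => a i + ⌊x i / M⌋ * M
  have key : ∀ x, ∑ v ∈ S, (Q v).indicator (fun _ => F v * W fun i => v i) x =
      ∑ a ∈ Cu M, F a * W fun i => e x a i := fun x => by
    have q : ∀ v, x ∈ Q v ↔ v ∈ (Cu M).image (e x) := fun v => by
      have : ∀ i, x i ∈ Set.Ico (((v i / M : ℤ) : ℝ) * M) (((v i / M : ℤ) : ℝ) * M + M) ↔
          v i - ⌊x i / M⌋ * M ∈ Ico (0 : ℤ) M := fun i => by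
        rw [mem_Ico, sub_nonneg, sub_lt_iff_lt_add', ← Int.ediv_eq_iff_of_pos m1, eq_comm,
          Int.floor_eq_iff, le_div_iff₀ m0, div_lt_iff₀ m0, add_one_mul, Set.mem_Ico]
      simp only [Q, Set.mem_univ_pi, this, mem_image, Cu, Fintype.mem_piFinset]
      exact ⟨fun h => ⟨_, h, funext fun i => sub_add_cancel _ _⟩,
        fun ⟨a, h, k⟩ i => by simpa [← k, e] using h i⟩
    simp only [Set.indicator_apply, q]
    rw [sum_ite_mem, sum_subset inter_subset_right fun v a b => by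
      rw [not_not.1 (mt (h4 v) fun c => b (mem_inter.2 ⟨c, a⟩)), mul_zero],
      sum_image fun a _ b _ h => funext fun i => add_right_cancel (congrFun h i)]
    exact sum_congr rfl fun a _ => by rw [hF (e x a) a fun i => by simp [e]]
  have near : ∀ x, ∀ a ∈ Cu M, ‖(fun i => (e x a i : ℝ)) - x‖ ≤ M := fun x a ha =>
    (pi_norm_le_iff_of_nonneg m0.le).2 fun i => by
      obtain ⟨a1, a2⟩ := mem_Ico.1 (Fintype.mem_piFinset.1 ha i)
      have b1 : (0 : ℝ) ≤ a i := by exact_mod_cast a1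
      have b2 : (a i : ℝ) < M := by exact_mod_cast a2
      have b3 := (le_div_iff₀ m0).1 (Int.floor_le (x i / M))
      have b4 := (div_lt_iff₀ m0).1 (Int.lt_floor_add_one (x i / M))
      simp only [e, Pi.sub_apply, Real.norm_eq_abs]
      push_cast
      exact abs_le.2 ⟨by linarith, by linarith⟩
  have wi : Integrable W := (LipschitzWith.of_dist_le' (K := Λ) fun v w => by
    simpa only [dist_eq_norm] using h3 v w).continuous.integrable_of_hasCompactSupport
      (HasCompactSupport.intro (isCompact_closedBall 0 R) fun x hx =>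
        not_not.1 (mt (h2 x) (mt mem_closedBall_zero_iff.2 hx)))
  have bd : ∀ x, ‖∑ v ∈ S, (Q v).indicator (fun _ => F v * W fun i => v i) x -
      (∑ a ∈ Cu M, F a) * W x‖ ≤
      (Metric.closedBall 0 (R + M)).indicator (fun _ => (M : ℝ) ^ 3 * (Λ * M)) x := fun x => by
    rw [key, sum_mul, ← sum_sub_distrib]
    by_cases hx : x ∈ Metric.closedBall 0 (R + M)
    · rw [Set.indicator_of_mem hx]
      refine (norm_sum_le _ _).trans ((sum_le_card_nsmul _ _ (Λ * M) fun a ha => ?_).trans_eq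
        (by simp [Cu]))
      rw [← mul_sub, norm_mul]
      exact (mul_le_of_le_one_left (norm_nonneg _) (h1 a)).trans
        ((h3 _ _).trans (mul_le_mul_of_nonneg_left (near x a ha) hΛ))
    · rw [Set.indicator_of_notMem hx, sum_eq_zero fun a ha => ?_, norm_zero]
      rw [mem_closedBall_zero_iff, not_le] at hx
      rw [not_not.1 (mt (h2 x) (by linarith)), not_not.1 (mt (h2 fun i => e x a i) fun c => ?_),
        sub_self]
      linarith [near x a ha, norm_sub_norm_le x fun i => (e x a i : ℝ),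
        norm_sub_rev x fun i => (e x a i : ℝ)]
  have := norm_integral_le_of_norm_le (μ := volume) ((integrableOn_const
    measure_closedBall_lt_top.ne).integrable_indicator measurableSet_closedBall) (.of_forall bd)
  rw [integral_sub (integrable_finsetSum _ fun v _ => qi v _) (wi.const_mul _),
    integral_finsetSum _ fun v _ => qi v _, integral_const_mul,
    integral_indicator_const _ measurableSet_closedBall, Measure.real,
    Real.volume_pi_closedBall _ (by positivity), ENNReal.toReal_ofReal (by positivity)] at this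
  simp only [integral_indicator_const _ (qm _), Measure.real, qv, ENNReal.toReal_pow,
    ENNReal.toReal_ofReal m0.le, Fintype.card_fin, smul_eq_mul, Complex.real_smul,
    ← mul_sum] at this
  refine le_of_mul_le_mul_left ?_ (pow_pos m0 3)
  have m2 : (M : ℂ) ≠ 0 := by exact_mod_cast m0.ne'
  rw [← Complex.norm_natCast M, ← norm_pow, ← norm_mul, mul_sub, ← mul_assoc,
    mul_div_cancel₀ _ (pow_ne_zero 3 m2), norm_pow, Complex.norm_natCast]
  push_cast at this
  exact this.trans_eq (by ring)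

end Pool.Agent.MP_adc87d_lc.Big

end
end

section

/-! The zero free region and the sum over primes. -/

set_option autoImplicit false

noncomputable section

open Finset
open scoped Classical

namespace Pool.Agent.MP_adc87d_lc.Big

open Pool.Agent.MP_2a1f0e_nt (ex)
open Pool.Agent.MP_e23604_nt.P

theorem num_CZA {c c₀ C Y r : ℝ} (hc : 0 < c) (h0 : 0 < c₀) (hC : 0 < C) (hY : 1 ≤ Y)
    (hk : c ≤ (c₀ / (4 * C)) ^ 16) (hr : r = c / Y ^ 64) :
    4 * r * (C * Y) ≤ c₀ * r ^ (15 / 16 : ℝ) * Y⁻¹ := by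
  have r0 : 0 < r := by rw [hr]; positivity
  obtain ⟨ρ, hρ, e⟩ : ∃ ρ : ℝ, 0 < ρ ∧ r = ρ ^ 16 :=
    ⟨r ^ ((16 : ℕ) : ℝ)⁻¹, by positivity, (Real.rpow_inv_natCast_pow r0.le (by norm_num)).symm⟩
  have e2 : r ^ (15 / 16 : ℝ) = ρ ^ 15 := by
    rw [e, ← Real.rpow_natCast, ← Real.rpow_mul hρ.le, ← Real.rpow_natCast]
    norm_num
  have k : ρ * Y ^ 2 ≤ c₀ / (4 * C) := by
    refine le_of_pow_le_pow_left₀ (n := 16) (by norm_num) (by positivity) (le_trans ?_ hk)
    have : (ρ * Y ^ 2) ^ 16 = c / Y ^ 32 := by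
      rw [mul_pow, ← e, hr]
      field_simp
    rw [this]
    exact div_le_self hc.le (one_le_pow₀ hY)
  rw [le_div_iff₀ (by positivity)] at k
  rw [e2, e, ← div_eq_mul_inv, le_div_iff₀ (by linarith)]
  calc 4 * ρ ^ 16 * (C * Y) * Y = ρ * Y ^ 2 * (4 * C) * ρ ^ 15 := by ring
    _ ≤ c₀ * ρ ^ 15 := by gcongr

theorem cza (h1 : An1Stmt) (h2 : ZLStmt) : ZAStmt := by
  intro A ε hA hε
  obtain ⟨e, C, e0, e1, hC, H1⟩ := h1 A (ε / 64) hA (by positivity)
  obtain ⟨c₀, h0, H2⟩ := h2 A ε hA hε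
  obtain ⟨C', hC'⟩ : ∃ C', C' = C * (4 : ℝ) ^ (ε / 64) := ⟨_, rfl⟩
  have C0 : 0 < C' := by rw [hC']; positivity
  obtain ⟨c, hc⟩ : ∃ c, c = min (min c₀ e) ((c₀ / (4 * C')) ^ 16) := ⟨_, rfl⟩
  have c0 : 0 < c := hc ▸ lt_min (lt_min h0 e0) (by positivity)
  have c1 : c ≤ c₀ := hc ▸ (min_le_left _ _).trans (min_le_left _ _)
  have c2 : c ≤ e := hc ▸ (min_le_left _ _).trans (min_le_right _ _)
  refine ⟨c, c0, c2.trans e1, fun a Q hQ hz hp => ?_⟩
  obtain ⟨b, hb⟩ := id hz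
  obtain ⟨F, hF, eF, gF⟩ := H1 a b 0 Q hQ hb
  simp only [zero_div, zero_add] at eF
  refine ⟨F, hF, fun s hs => (eF s hs).symm, fun T hT s s1 s2 => ?_⟩
  have X1 : 1 ≤ Q * T := one_le_mul_of_one_le_of_one_le hQ hT
  have X0 : 0 ≤ Q * T := by linarith
  obtain ⟨Y, hY⟩ : ∃ Y, Y = (Q * T) ^ (ε / 64) := ⟨_, rfl⟩
  have Y1 : 1 ≤ Y := hY ▸ Real.one_le_rpow X1 (by positivity)
  have Y2 : (Q * T) ^ ε = Y ^ 64 := by
    rw [hY, ← Real.rpow_natCast, ← Real.rpow_mul X0]
    norm_num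
  obtain ⟨r, hr⟩ : ∃ r, r = c / Y ^ 64 := ⟨_, rfl⟩
  have r0 : 0 < r := by rw [hr]; positivity
  have r1 : c * (Q * T) ^ (-ε) = r := by rw [Real.rpow_neg X0, Y2, hr, div_eq_mul_inv]
  have r2 : r ≤ c := hr ▸ div_le_self c0.le (one_le_pow₀ Y1)
  rw [r1] at s1
  have lo := H2 a Q T r s.im hQ hT hz hp r0
    (r1 ▸ mul_le_mul_of_nonneg_right c1 (Real.rpow_nonneg X0 _)) s2
  rw [Real.rpow_neg X0, ← hY, eF _ (by simpa using r0)] at lo
  have := seg_lower (f := F) (D := C' * Y) (t := s.im) r0 (by positivity) (fun σ hσ => by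
    have a1 := abs_le.1 hσ
    refine ⟨hF.differentiableAt ((isOpen_lt continuous_const Complex.continuous_re).mem_nhds
      (by simp only [Set.mem_ofPred_eq, Complex.add_re, Complex.ofReal_re, Complex.mul_re,
        Complex.I_re, Complex.ofReal_im, Complex.I_im]; linarith)),
      (gF _ (by simp; linarith)).2.trans ?_⟩
    rw [hC', hY, mul_assoc, ← Real.mul_rpow (by norm_num) X0]
    refine mul_le_mul_of_nonneg_left (Real.rpow_le_rpow (by positivity) ?_ (by positivity))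
      (by linarith)
    have a2 := Complex.norm_le_abs_re_add_abs_im (σ + s.im * Complex.I)
    have a3 : |σ| ≤ 2 := abs_le.2 ⟨by linarith, by linarith⟩
    simp only [Complex.add_re, Complex.ofReal_re, Complex.mul_re, Complex.I_re, Complex.ofReal_im,
      Complex.I_im, Complex.add_im, Complex.mul_im, mul_zero, mul_one, sub_zero, add_zero,
      zero_add] at a2
    have a4 : ‖(σ : ℂ) + s.im * Complex.I‖ + 1 ≤ 4 * T := by linarith
    calc Q * (‖(σ : ℂ) + s.im * Complex.I‖ + 1) ≤ Q * (4 * T) := by gcongr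
      _ = 4 * (Q * T) := by ring)
    ((num_CZA c0 h0 C0 Y1 (hc ▸ min_le_right _ _) hr).trans lo) s.re s1
  rw [Complex.re_add_im] at this
  refine ⟨this.1, this.2.trans ?_⟩
  rw [Y2, hr, div_le_div_iff₀ (by positivity) c0]
  have : Y ^ 64 * (2 * (c / Y ^ 64)) = 2 * c := by field_simp
  linarith

theorem cswa (h1 : An2Stmt) (h2 : ZAStmt) : SWAStmt := by
  intro A E B hA
  obtain ⟨C₀, H1⟩ := h1
  have hn : 0 < B + (2 * (E + 1) + 6) := by omega
  have hε : (0 : ℝ) < 1 / (2 * ((B + (2 * (E + 1) + 6) : ℕ) : ℝ)) := by positivity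
  obtain ⟨c, hc, hc2, H⟩ := h2 A _ hA hε
  obtain ⟨x0, hx0⟩ := Filter.eventually_atTop.1
    ((xSPsi_cor (E + 1) hc (by linarith) (K := 1 / c) (by positivity)).and
    ((Real.tendsto_log_atTop.eventually_ge_atTop 6).and ((Filter.eventually_ge_atTop 1).and
      (xSW_ev (2 * (E + 1)) 144 (by norm_num)))))
  refine ⟨x0, fun x hx a Q hQ hq hz hp => ?_⟩
  obtain ⟨hcor, hL6, hx1, hsq⟩ := hx0 x hx
  obtain ⟨F, hF, eF, gF⟩ := H a Q hQ hz hp
  obtain ⟨b, hb⟩ := hz
  obtain ⟨p1, p2⟩ := H1 a b 0 A Q hb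
  have hL1 : 1 ≤ Real.log x := by linarith
  have hT1 : 1 ≤ Real.log x ^ (2 * (E + 1) + 6) := one_le_pow₀ hL1
  have hqT : (0 : ℝ) < Q * Real.log x ^ (2 * (E + 1) + 6) := by positivity
  have hr : (Q * Real.log x ^ (2 * (E + 1) + 6)) ^
      (1 / (2 * ((B + (2 * (E + 1) + 6) : ℕ) : ℝ))) ≤ √(Real.log x) := by
    refine xSPsi_rpow hn hL1 hqT.le ?_
    rw [pow_add (Real.log x) B]
    exact mul_le_mul_of_nonneg_right hq (by linarith)
  have ho : IsOpen {s : ℂ | 5 / 6 < s.re} := isOpen_lt continuous_const Complex.continuous_re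
  have hz : ∀ s ∈ Set.Icc (1 - c / √(Real.log x)) (1 + c / √(Real.log x)) ×ℂ
        Set.Icc (-(Real.log x ^ (2 * (E + 1) + 6))) (Real.log x ^ (2 * (E + 1) + 6)),
      5 / 6 < s.re ∧ F s ≠ 0 ∧ ‖logDeriv F s‖ ≤ 1 / c * √(Real.log x) := by
    intro s hs
    obtain ⟨a1, a2⟩ := xSPsi_mem hs
    obtain ⟨a3, a4⟩ := gF _ hT1 s (a1.trans (xSPsi_width hc.le hqT hr)) a2
    have a5 := abs_le.1 (a1.trans (div_le_self hc.le (Real.one_le_sqrt.2 hL1)))
    refine ⟨by linarith [a5.1], a3, a4.trans ?_⟩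
    rw [one_div_mul_eq_div]
    exact div_le_div_of_nonneg_right hr hc.le
  have key := hcor ((1 / 3 : ℂ) • b) (fun s => 1 / 3 * -logDeriv F s)
    (fun n => by
      have a1 := hb.bd n
      have a2 := ArithmeticFunction.vonMangoldt_le_log (n := n)
      rw [Pi.smul_apply, norm_smul, norm_div, norm_one, Complex.norm_ofNat]
      linarith)
    (fun s hs => by
      have a := hF.analyticAt (ho.mem_nhds (hz s hs).1)
      exact ((a.deriv.differentiableAt.div a.differentiableAt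
        (hz s hs).2.1).neg.const_mul (1 / 3 : ℂ)).differentiableWithinAt)
    (fun s hs => by
      have e : F =ᶠ[nhds s] LSeries a := by
        filter_upwards [(isOpen_lt continuous_const Complex.continuous_re).mem_nhds hs] with z hz
        exact eF z hz
      rw [LSeries_smul, (p2 s hs).2.2.2, logDeriv_apply, logDeriv_apply, e.deriv_eq, e.eq_of_nhds])
    (fun s hs => by
      have := (hz s hs).2.2
      rw [norm_mul, norm_neg, norm_div, norm_one, Complex.norm_ofNat]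
      linarith [norm_nonneg (logDeriv F s)])
  simp only [Pi.smul_apply, smul_eq_mul, ← mul_sum, norm_mul, norm_div, norm_one,
    Complex.norm_ofNat] at key
  have np : ‖∑ n ∈ (Icc 1 ⌊x⌋₊).filter (fun n => ¬n.Prime), b n‖ ≤ 3 * (2 * √x * Real.log x) := by
    refine (norm_sum_le _ _).trans ((sum_le_sum fun n _ => hb.bd n).trans ?_)
    rw [← mul_sum]
    exact mul_le_mul_of_nonneg_left (xSW_np hx1) (by norm_num)
  have e : ∑ p ∈ (Icc 1 ⌊x⌋₊).filter Nat.Prime, a p * Real.log p =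
      ∑ n ∈ Icc 1 ⌊x⌋₊, b n - ∑ n ∈ (Icc 1 ⌊x⌋₊).filter (fun n => ¬n.Prime), b n := by
    rw [eq_sub_iff_add_eq, ← sum_filter_add_sum_filter_not (Icc 1 ⌊x⌋₊) Nat.Prime b]
    congr 1
    exact sum_congr rfl fun p hp => (p1 p (mem_filter.1 hp).2).1.symm
  rw [e]
  refine (norm_sub_le _ _).trans ?_
  have hP : 0 < Real.log x ^ E := by positivity
  have c1 : x / Real.log x ^ (E + 1) ≤ x / Real.log x ^ E / 6 := by
    rw [pow_succ, ← div_div]
    exact div_le_div_of_nonneg_left (by positivity) (by norm_num) hL6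
  have c2 : 12 * Real.log x ^ (E + 1) ≤ √x := by
    refine Real.le_sqrt_of_sq_le ?_
    calc (12 * Real.log x ^ (E + 1)) ^ 2 = 144 * Real.log x ^ (2 * (E + 1)) := by ring
      _ ≤ x := hsq
  have c3 : 12 * (√x * Real.log x) ≤ x / Real.log x ^ E := by
    rw [le_div_iff₀ hP]
    calc 12 * (√x * Real.log x) * Real.log x ^ E = 12 * Real.log x ^ (E + 1) * √x := by ring
      _ ≤ √x * √x := mul_le_mul_of_nonneg_right c2 (Real.sqrt_nonneg x)
      _ = x := Real.mul_self_sqrt (by linarith)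
  linarith

end Pool.Agent.MP_adc87d_lc.Big

end
end

section

/-! The steps of part C put together. -/

set_option autoImplicit false

namespace Pool.Agent.MP_adc87d_lc.Big

theorem chC : ChStmt := cch calg
theorem splitC : SplitStmt := csplit calg
theorem psC : PSStmt := cps calg csz cgeo clat (cint cgeo) cmean chC
theorem lgC : LGStmt := clg calg chC psC cmean (cconv calg chC)
theorem swC : SWStmt :=
  csw chC (czb chC splitC lgC) (cswa can2 (cza can1 (czl can1 can2)))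
theorem balC : BalStmt := cbal csz splitC chC psC swC (cbr csz chC psC cmean csv)
theorem eqC : EqStmt := ceq csz balC (ceqc calg chC cap cfour)
theorem varC : VarStmt := cvar cv1 (cv3 cv2 (cv3a cv1)) (cv4 cv1)

theorem thmC : ThmC :=
  cfin csz splitC (cup eqC (cupa csz splitC cpart varC)) cmass
    (clow splitC (clowz ctile (csv2 csv)))

end Pool.Agent.MP_adc87d_lc.Big

end

section

/-! The numbers with a prime factor that is not inverted form a definable set. -/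

set_option autoImplicit false

namespace Pool.Agent.MP_adc87d_lc.Big

theorem congr_END {R : Subring ℚ} {ι : Type} {S T : (ι → ℚ) → Prop} (h : DQ R S)
    (e : ∀ v, S v ↔ T v) : DQ R T := by
  rwa [show T = S from funext fun v => propext (e v).symm]

theorem all_END {R : Subring ℚ} (D : Dio R) {ι κ : Type} {S : κ → (ι → ℚ) → Prop}
    (h : ∀ j, DQ R (S j)) (s : Finset κ) : DQ R fun v => ∀ j ∈ s, S j v := by
  classical
  induction s using Finset.induction_on with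
  | empty => exact congr_END (D.eq (D.const 0) (D.const 0)) fun v => by simp
  | insert a s _ ih => exact congr_END (D.and (h a) ih) fun v => by simp

theorem any_END {R : Subring ℚ} (D : Dio R) {ι κ : Type} {S : κ → (ι → ℚ) → Prop}
    (h : ∀ j, DQ R (S j)) (s : Finset κ) : DQ R fun v => ∃ j ∈ s, S j v := by
  classical
  induction s using Finset.induction_on with
  | empty => exact congr_END (D.eq (D.const 0) (D.const 1)) fun v => by simp
  | insert a s _ ih => exact congr_END (D.or (h a) ih) fun v => by simp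

theorem exz_END {R : Subring ℚ} (D : Dio R) (hZ : DQ R fun v : Fin 1 → ℚ => ∃ n : ℤ, v 0 = n)
    {ι : Type} {n : ℕ} (S : (ι → ℚ) → (Fin n → ℚ) → Prop)
    (h : DQ R fun v : ι ⊕ Fin n → ℚ => S (fun i => v (.inl i)) fun j => v (.inr j)) :
    DQ R fun v => ∃ w : Fin n → ℤ, S v fun j => w j := by
  have hI : ∀ j : Fin n, DQ R fun v : ι ⊕ Fin n → ℚ => ∃ m : ℤ, v (.inr j) = m := fun j =>
    D.comp (κ := Fin 1) (F := fun _ v => v (Sum.inr j)) hZ fun _ => D.proj _
  refine congr_END (D.exs (fun v w => (∀ j ∈ Finset.univ, ∃ m : ℤ, w j = m) ∧ S v w)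
    (D.and (all_END D hI Finset.univ) h)) fun v => ⟨?_, ?_⟩
  · rintro ⟨w, h1, h2⟩
    choose m hm using fun j => h1 j (Finset.mem_univ j)
    exact ⟨m, by rwa [← funext hm]⟩
  · rintro ⟨w, h1⟩
    exact ⟨_, fun j _ => ⟨w j, rfl⟩, h1⟩

/-- the recursion over the rationals -/
def dq_END : ℕ → ℚ → ℚ
  | 0, x => x
  | j + 1, x => dq_END j x ^ 3 - 3 * dq_END j x

theorem dq_cast_END (j : ℕ) (x : ℤ) : dq_END j x = (dk j x : ℤ) := by
  induction j with
  | zero => rfl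
  | succ j ih => simp [dq_END, dk, ih]

theorem dq_df_END {R : Subring ℚ} (D : Dio R) {ι : Type} {F : (ι → ℚ) → ℚ} (hF : DF R F)
    (j : ℕ) : DF R fun v => dq_END j (F v) := by
  induction j with
  | zero => exact hF
  | succ j ih => exact D.sub (D.pow 3 ih) (D.mul (D.const 3) ih)

theorem endd (h1 : DioStmt) (h2 : NUStmt) : NDStmt := by
  intro k C R hk hC hZ
  have D := h1 R
  have p0 : ∀ {n : ℕ}, DF R fun v : Fin 1 ⊕ Fin n → ℚ => v (.inl 0) := D.proj _
  have p : ∀ {n : ℕ} (j : Fin n), DF R fun v : Fin 1 ⊕ Fin n → ℚ => v (.inr j) := fun _ => D.proj _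
  have c1 := any_END D (fun q : ℕ => exz_END D hZ (ι := Fin 1) (n := 1)
    (fun v w => v 0 = q * w 0) (D.eq p0 (D.mul (D.const _) (p 0))))
    ((Finset.range (C + 1)).filter Nat.Prime)
  have c2 := exz_END D hZ (ι := Fin 1) (n := 8)
    (fun v w => 2 ≤ w 0 ∧ v 0 = w 0 * w 5 ∧ w 3 * w 0 + w 4 * 138 = 1 ∧
      w 1 ^ (2 * 3 ^ (k - 1)) + w 1 ^ 3 ^ (k - 1) + 1 = w 0 * w 6 ∧ w 2 ^ 2 + 23 = w 0 * w 7)
    (D.and (D.le (D.const 2) (p 0)) (D.and (D.eq p0 (D.mul (p 0) (p 5)))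
      (D.and (D.eq (D.add (D.mul (p 3) (p 0)) (D.mul (p 4) (D.const 138))) (D.const 1))
        (D.and (D.eq (D.add (D.add (D.pow _ (p 1)) (D.pow _ (p 1))) (D.const 1))
          (D.mul (p 0) (p 6))) (D.eq (D.add (D.pow 2 (p 2)) (D.const 23)) (D.mul (p 0) (p 7)))))))
  have c3 := exz_END D hZ (ι := Fin 1) (n := 5)
    (fun v w => 0 ≤ w 0 ∧ w 0 = 3 * w 2 + 2 ∧ v 0 = w 0 * w 3 ∧
      dq_END (k - 1) (w 1) + 1 = w 0 * w 4)
    (D.and (D.le (D.const 0) (p 0)) (D.and (D.eq (p 0) (D.add (D.mul (D.const 3) (p 2))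
      (D.const 2))) (D.and (D.eq p0 (D.mul (p 0) (p 3)))
        (D.eq (D.add (dq_df_END D (p 1) _) (D.const 1)) (D.mul (p 0) (p 4))))))
  beta_reduce at c1 c2 c3
  refine congr_END (D.and (D.and hZ (D.le (D.const 0) (D.proj 0))) (D.or c1 (D.or c2 c3)))
    fun v => ?_
  have hb : ((∃ n : ℤ, v 0 = n) ∧ 0 ≤ v 0) ↔ ∃ b : ℕ, v 0 = b := by
    constructor
    · rintro ⟨⟨n, hn⟩, h0⟩
      rw [hn] at h0
      lift n to ℕ using by exact_mod_cast h0
      exact ⟨n, by simpa using hn⟩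
    · rintro ⟨b, hb⟩
      exact ⟨⟨b, by simpa using hb⟩, by rw [hb]; positivity⟩
  rw [hb, ← exists_and_right]
  refine exists_congr fun b => and_congr_right fun hv => ?_
  rw [h2 k C b hk hC, hv]
  refine or_congr ⟨?_, ?_⟩ (or_congr ⟨?_, ?_⟩ ⟨?_, ?_⟩)
  · rintro ⟨q, hq, w, hw⟩
    rw [Finset.mem_filter, Finset.mem_range] at hq
    exact ⟨q, hq.2, by omega, Int.natCast_dvd_natCast.1 ⟨w 0, by exact_mod_cast hw⟩⟩
  · rintro ⟨q, a1, a2, c, rfl⟩
    exact ⟨q, Finset.mem_filter.2 ⟨Finset.mem_range.2 (by omega), a1⟩, fun _ => c, by simp⟩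
  · rintro ⟨w, a1, a2, a3, a4, a5⟩
    have a0 : 2 ≤ w 0 := by exact_mod_cast a1
    obtain ⟨d, hd⟩ := Int.eq_ofNat_of_zero_le (show 0 ≤ w 0 by omega)
    rw [hd] at a0 a2 a3 a4 a5
    refine ⟨d, w 1, w 2, by omega, Int.natCast_dvd_natCast.1 ⟨w 5, by exact_mod_cast a2⟩,
      Nat.isCoprime_iff_coprime.1 ⟨w 3, w 4, by exact_mod_cast a3⟩,
      ⟨w 6, by exact_mod_cast a4⟩, ⟨w 7, by exact_mod_cast a5⟩⟩
  · rintro ⟨d, x, y, a1, ⟨c, rfl⟩, a3, ⟨e, a4⟩, ⟨f, a5⟩⟩
    obtain ⟨s, t, a3⟩ := Nat.isCoprime_iff_coprime.2 a3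
    refine ⟨![d, x, y, s, t, c, e, f], ?_, ?_, ?_, ?_, ?_⟩
    · show (2 : ℚ) ≤ ((d : ℤ) : ℚ)
      exact_mod_cast a1
    · show ((d * c : ℕ) : ℚ) = ((d : ℤ) : ℚ) * ((c : ℤ) : ℚ)
      simp
    · show (s : ℚ) * ((d : ℤ) : ℚ) + t * 138 = 1
      exact_mod_cast a3
    · show (x : ℚ) ^ (2 * 3 ^ (k - 1)) + (x : ℚ) ^ 3 ^ (k - 1) + 1 = ((d : ℤ) : ℚ) * e
      exact_mod_cast a4
    · show (y : ℚ) ^ 2 + 23 = ((d : ℤ) : ℚ) * f
      exact_mod_cast a5
  · rintro ⟨w, a1, a2, a3, a4⟩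
    have a0 : 0 ≤ w 0 := by exact_mod_cast a1
    have a5 : w 0 = 3 * w 2 + 2 := by exact_mod_cast a2
    obtain ⟨d, hd⟩ := Int.eq_ofNat_of_zero_le a0
    rw [dq_cast_END] at a4
    rw [hd] at a3 a4 a5
    exact ⟨d, w 1, by omega, Int.natCast_dvd_natCast.1 ⟨w 3, by exact_mod_cast a3⟩,
      ⟨w 4, by exact_mod_cast a4⟩⟩
  · rintro ⟨d, x, a1, ⟨c, rfl⟩, ⟨e, a3⟩⟩
    refine ⟨![d, x, (d / 3 : ℕ), c, e], ?_, ?_, ?_, ?_⟩
    · show (0 : ℚ) ≤ ((d : ℤ) : ℚ)
      positivity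
    · show ((d : ℤ) : ℚ) = 3 * (((d / 3 : ℕ) : ℤ) : ℚ) + 2
      have : (d : ℤ) = 3 * ((d / 3 : ℕ) : ℤ) + 2 := by omega
      exact_mod_cast this
    · show ((d * c : ℕ) : ℚ) = ((d : ℤ) : ℚ) * ((c : ℤ) : ℚ)
      simp
    · show dq_END (k - 1) (x : ℚ) + 1 = ((d : ℤ) : ℚ) * e
      rw [dq_cast_END]
      exact_mod_cast a3

end Pool.Agent.MP_adc87d_lc.Big

end

section

/-! A bijection with the natural numbers whose graph is Diophantine. -/

set_option autoImplicit false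

namespace Pool.Agent.MP_adc87d_lc.Big

theorem aeval_sub (R : Subring ℚ) (n m : ℕ) (P : MvPolynomial (Fin n ⊕ Fin m) ℤ) (x : Fin n → R) :
    (∃ w : Fin m → ℚ, (∀ j, w j ∈ R) ∧
      MvPolynomial.aeval (Sum.elim (fun i => (x i : ℚ)) w) P = 0) ↔
    ∃ w : Fin m → R, MvPolynomial.aeval (Sum.elim x w) P = 0 := by
  have e : ∀ w : Fin m → R, ((MvPolynomial.aeval (Sum.elim x w) P : R) : ℚ) =
      MvPolynomial.aeval (Sum.elim (fun i => (x i : ℚ)) fun j => (w j : ℚ)) P := fun w => by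
    have := MvPolynomial.comp_aeval_apply (f := Sum.elim x w) R.subtype.toIntAlgHom P
    refine this.trans ?_
    congr 2
    funext i
    rcases i with i | i <;> rfl
  constructor
  · rintro ⟨w, hw, h⟩
    exact ⟨fun j => ⟨w j, hw j⟩, Subtype.ext ((e _).trans h)⟩
  · rintro ⟨w, h⟩
    exact ⟨fun j => w j, fun j => (w j).2, by rw [← e, h]; rfl⟩

/-- the integers are definable -/
theorem int_def (k : ℕ) (hk : 2 ≤ k) : ∃ C : ℕ, 23 ≤ C ∧ ∀ R : Subring ℚ,
    RW {p | C < p ∧ Hi k p} R → DQ R fun v : Fin 1 → ℚ => ∃ n : ℤ, v 0 = n := by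
  obtain ⟨C, n, Nm, hC, hc⟩ := cert k hk
  obtain ⟨K, io, G, hb⟩ := baseA k
  let D : Dat := ⟨k, C, n, Nm, K, io, G⟩
  let W : Set ℕ := {p | C < p ∧ Hi k p}
  have hG : Good D W := ⟨hk, hC, hc, hb, fun _ => Iff.rfl⟩
  obtain ⟨x₀, hs⟩ := soundA D
  exact ⟨C, hC, fun R hR => (inj dio R (Psi D W x₀) x₀ io hb.2.1 (formA D W R hR x₀) (hs W hG)
    (complA thmC D W hG x₀)).1⟩

theorem bij_def (k : ℕ) (hk : 2 ≤ k) : ∃ (C : ℕ) (R : Subring ℚ),
    (∀ x : ℚ, x ∈ R ↔ ∀ p : ℕ, p.Prime → p ∣ x.den → C < p ∧ Hi k p) ∧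
    ∃ (e : R ≃ ℕ) (m : ℕ) (P : MvPolynomial (Fin 2 ⊕ Fin m) ℤ), ∀ x y : R, y = (e x : ℕ) ↔
      ∃ w : Fin m → R, MvPolynomial.aeval (Sum.elim ![x, y] w) P = 0 := by
  obtain ⟨C, hC, h⟩ := int_def k hk
  obtain ⟨R, hR⟩ := exists_RW {p | C < p ∧ Hi k p}
  obtain ⟨e, he⟩ := ebij dio _ R hR (h R hR) (endd dio enu k C R hk hC (h R hR))
  obtain ⟨m, P, hP⟩ := conv _ R hR (fun h => by have := h.1; omega)
    (fun h => by have := h.1; omega) 2 _ he
  refine ⟨C, R, hR, e, m, P, fun x y => ?_⟩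
  rw [← aeval_sub, ← hP]
  simp [Subtype.ext_iff]

end Pool.Agent.MP_adc87d_lc.Big

end
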